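import Pool.Agent.PGo.ADefs
import Pool.Agent.PGr.PRegB

/-!
# PGo part A: elementary facts (no sorry)
-/

noncomputable section

namespace Pool.Agent.PGo.A

open Finset Pool.Agent.PGr Pool.Agent.PGo.R

theorem zall_card {n : ℕ} (hn : 3 ≤ n) : (zall n).card = 2 * n + 1 := by
  unfold zall
  split_ifs with h
  · rw [card_erase_of_mem (by rw [mem_Icc]; omega), Int.card_Icc]
    omega
  · rw [Int.card_Icc]
    omega

theorem dall_card {n : ℕ} (hn : 3 ≤ n) : (dall n).card = 2 * n := PR.dall_card hn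

theorem zall_bd {n : ℕ} {x : ℤ} (hx : x ∈ zall n) : (n : ℤ) ≤ 2 * x ∧ 2 * x ≤ 5 * n + 2 := by
  unfold zall at hx
  split_ifs at hx with h
  · rw [mem_erase, mem_Icc] at hx
    omega
  · rw [mem_Icc] at hx
    omega

theorem dall_bd {n : ℕ} {d : ℤ} (hd : d ∈ dall n) : 1 ≤ d ∧ d ≤ 2 * (n : ℤ) + 2 :=
  PR.dall_bounds hd

theorem anc_not_zall {n v : ℕ} (hv : v < n) : anc n v ∉ zall n := by
  unfold zall anc
  split_ifs with h1 h2 h3 h4 h5
  all_goals first
    | (rw [mem_erase, mem_Icc]; omega)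
    | (rw [mem_Icc]; omega)

theorem anc_inj {n i j : ℕ} (hi : i < n) (hj : j < n) (h : anc n i = anc n j) : i = j := by
  unfold anc at h
  split_ifs at h <;> omega

/-- every integer strictly between `n/2` and `5n/2` except one is a label -/
theorem mem_zall {n : ℕ} {x : ℤ} (h1 : (n : ℤ) < 2 * x) (h2 : 2 * x < 5 * n)
    (h3 : 2 * x ≠ 3 * n) : x ∈ zall n := by
  unfold zall
  split_ifs with h
  · rw [mem_erase, mem_Icc]
    omega
  · rw [mem_Icc]
    omega

/-- every integer between `1` and `2n` except three is a difference -/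
theorem mem_dall {n : ℕ} {d : ℤ} (h1 : 1 ≤ d) (h2 : d ≤ 2 * n) (h3 : d ≠ n + 1)
    (h4 : 2 * d ≠ 3 * n) (h5 : 2 * d ≠ n - 1) : d ∈ dall n := by
  unfold dall
  split_ifs with h
  · rw [mem_erase, mem_erase, mem_Icc]
    omega
  · rw [mem_erase, mem_Icc]
    omega

variable {L : ℕ}

theorem nxt_val (j : Fin L) : (nxt j).1 = if j.1 + 1 = L then 0 else j.1 + 1 := by
  have := j.2
  unfold nxt
  split_ifs with h
  · simp [h]
  · simp only
    rw [Nat.mod_eq_of_lt (by omega)]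

theorem prv_val (j : Fin L) : (prv j).1 = if j.1 = 0 then L - 1 else j.1 - 1 := by
  have := j.2
  unfold prv
  split_ifs with h
  · change (j.1 + (L - 1)) % L = L - 1
    rw [h, Nat.zero_add, Nat.mod_eq_of_lt (by omega)]
  · change (j.1 + (L - 1)) % L = j.1 - 1
    rw [show j.1 + (L - 1) = (j.1 - 1) + L by omega, Nat.add_mod_right,
      Nat.mod_eq_of_lt (by omega)]

theorem nxt_prv (j : Fin L) : nxt (prv j) = j := by
  apply Fin.ext
  have := j.2
  have h1 := prv_val j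
  have h2 := nxt_val (prv j)
  by_cases h : j.1 = 0
  · rw [if_pos h] at h1
    rw [if_pos (by omega)] at h2
    omega
  · rw [if_neg h] at h1
    rw [if_neg (by omega)] at h2
    omega

theorem prv_nxt (j : Fin L) : prv (nxt j) = j := by
  apply Fin.ext
  have := j.2
  have h1 := nxt_val j
  have h2 := prv_val (nxt j)
  by_cases h : j.1 + 1 = L
  · rw [if_pos h] at h1
    rw [if_pos h1] at h2
    omega
  · rw [if_neg h] at h1
    rw [if_neg (by omega)] at h2
    omega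

theorem nxt_inj {i j : Fin L} (h : nxt i = nxt j) : i = j := by
  rw [← prv_nxt i, h, prv_nxt]

theorem nxt_ne (hL : 2 ≤ L) (j : Fin L) : nxt j ≠ j := by
  intro h
  have h1 := congrArg Fin.val h
  have := j.2
  rw [nxt_val] at h1
  split_ifs at h1 <;> omega

theorem prv_ne (hL : 2 ≤ L) (j : Fin L) : prv j ≠ j := by
  intro h
  have h1 := congrArg Fin.val h
  have := j.2
  rw [prv_val] at h1
  split_ifs at h1 <;> omega

theorem nxt_ne_prv (hL : 3 ≤ L) (j : Fin L) : nxt j ≠ prv j := by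
  intro h
  have h1 := congrArg Fin.val h
  have := j.2
  rw [nxt_val, prv_val] at h1
  split_ifs at h1 <;> omega

theorem lb_eq (y : Fin L → ℤ) (j : Fin L) : lb y j.1 = y j := by
  unfold lb
  rw [dif_pos j.2]

theorem lb_of_lt (y : Fin L → ℤ) {j : ℕ} (h : j < L) : lb y j = y ⟨j, h⟩ := dif_pos h

theorem mem_ix {S : Finset (Fin L)} {i : Bool × Fin L} :
    i ∈ ix S ↔ i.2 ∈ S ∧ (i.1 = false → nxt i.2 ∈ S) := by
  unfold ix
  simp

theorem mem_pv {j : Fin L} : j ∈ pv L ↔ j.1 ≠ 0 := by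
  unfold pv
  simp

theorem mem_UC {P : Par} {Ps : Finset (Pack P)} {r : ℕ} :
    r ∈ UC Ps ↔ ∃ p ∈ Ps, p.m % P.g = r := by
  unfold UC
  rw [mem_image]

theorem mem_UL {P : Par} {Ps : Finset (Pack P)} {x : ℤ} : x ∈ UL Ps ↔ ∃ p ∈ Ps, x ∈ p.Lab := by
  unfold UL
  rw [mem_biUnion]

theorem mem_UD {P : Par} {Ps : Finset (Pack P)} {x : ℤ} : x ∈ UD Ps ↔ ∃ p ∈ Ps, x ∈ p.Dif := by
  unfold UD
  rw [mem_biUnion]

theorem mem_pGG {P : Par} {Ps : Finset (Pack P)} {x : ℤ} : x ∈ pGG Ps ↔ ∃ p ∈ Ps, x ∈ p.G := by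
  unfold pGG
  rw [mem_biUnion]

end Pool.Agent.PGo.A
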