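import Pool.Agent.PGo.ABase

/-!
# PGo part A: covering the unused differences
-/

noncomputable section

namespace Pool.Agent.PGo.A

open Finset Pool.Agent.PGr Pool.Agent.PGo.R

private theorem DS_eq {P : Par} (M : Finset (Pack P)) (x : Pack P → ℤ) :
    DS M x = M.biUnion (fun p => (univ : Finset (Fin 3)).image (pd3 p (x p))) := by
  ext a
  unfold DS
  simp only [mem_image, mem_product, mem_univ, and_true, mem_biUnion, true_and, Prod.exists]
  constructor
  · rintro ⟨p, j, hp, rfl⟩
    exact ⟨p, hp, j, rfl⟩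
  · rintro ⟨p, hp, j, rfl⟩
    exact ⟨p, j, hp, rfl⟩

theorem cover_all {P : Par} {LAM1 R1 : Finset ℤ} {PR : Finset (Pack P)} {K : ℝ}
    (D' : Finset ℤ) (hK : ∀ d ∈ D', CovM LAM1 R1 PR K d) (hc : 10 * (D'.card : ℝ) + 10 ≤ K) :
    ∃ (M : Finset (Pack P)) (x : Pack P → ℤ) (U : Finset ℤ), M ⊆ PR ∧ M.card = D'.card ∧
      (∀ p ∈ M, x p ∈ LAM1) ∧ (∀ p ∈ M, ∀ p' ∈ M, x p = x p' → p = p') ∧ U ⊆ R1 ∧
      U.card = 2 * D'.card ∧ DS M x = D' ∪ U := by
  classical
  induction D' using Finset.induction_on with
  | empty =>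
    refine ⟨∅, fun _ => 0, ∅, ?_, ?_, ?_, ?_, ?_, ?_, ?_⟩ <;> simp [DS]
  | insert d D' hd ih =>
    rw [card_insert_of_notMem hd] at hc
    push_cast at hc
    obtain ⟨M, x, U, hM, hMc, hx, hxi, hU, hUc, hDS⟩ :=
      ih (fun e he => hK e (mem_insert_of_mem he)) (by linarith)
    obtain ⟨Md, xd, e1, e2, hMd, hcMd, hp, hxdi, he⟩ := hK d (mem_insert_self _ _)
    have hex : ∃ p ∈ Md, p ∉ M ∧ xd p ∉ M.image x ∧ e1 p ∉ U ∧ e2 p ∉ U := by
      by_contra hno
      push Not at hno
      have hsub : Md ⊆ M ∪ (Md.filter fun p => xd p ∈ M.image x) ∪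
          U.biUnion (fun r => Md.filter fun p => e1 p = r ∨ e2 p = r) := by
        intro p hpM
        rw [mem_union, mem_union, mem_filter, mem_biUnion]
        by_cases h1 : p ∈ M
        · exact Or.inl (Or.inl h1)
        by_cases h2 : xd p ∈ M.image x
        · exact Or.inl (Or.inr ⟨hpM, h2⟩)
        by_cases h3 : e1 p ∈ U
        · exact Or.inr ⟨e1 p, h3, mem_filter.mpr ⟨hpM, Or.inl rfl⟩⟩
        · exact Or.inr ⟨e2 p, hno p hpM h1 h2 h3, mem_filter.mpr ⟨hpM, Or.inr rfl⟩⟩
      have h1 : (Md.filter fun p => xd p ∈ M.image x).card ≤ M.card := by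
        refine le_trans (card_le_card_of_injOn xd ?_ ?_) (card_image_le (s := M) (f := x))
        · intro p hpp
          exact (mem_filter.mp hpp).2
        · intro p hpp p' hpp' h
          exact hxdi p (mem_filter.mp hpp).1 p' (mem_filter.mp hpp').1 h
      have h2 : (U.biUnion (fun r => Md.filter fun p => e1 p = r ∨ e2 p = r)).card ≤
          U.card * 4 := by
        refine card_biUnion_le_card_mul _ _ _ (fun r _ => ?_)
        convert he r
      have h3 := (card_le_card hsub).trans ((card_union_le _ _).trans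
        (Nat.add_le_add (card_union_le _ _) (le_refl _)))
      have h4 : Md.card ≤ 10 * D'.card := by omega
      have h5 : (Md.card : ℝ) ≤ 10 * D'.card := by exact_mod_cast h4
      linarith
    obtain ⟨p, hpMd, hpM, hpx, hp1, hp2⟩ := hex
    obtain ⟨hxd, he1, he2, he12, him⟩ := hp p hpMd
    have hup : Function.update x p (xd p) p = xd p := Function.update_self _ _ _
    have hun : ∀ q ∈ M, Function.update x p (xd p) q = x q := fun q hq =>
      Function.update_of_ne (fun h : q = p => hpM (h ▸ hq)) _ _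
    refine ⟨insert p M, Function.update x p (xd p), insert (e1 p) (insert (e2 p) U),
      insert_subset (hMd hpMd) hM, ?_, ?_, ?_, ?_, ?_, ?_⟩
    · rw [card_insert_of_notMem hpM, card_insert_of_notMem hd, hMc]
    · intro q hq
      rcases mem_insert.mp hq with rfl | hq
      · rw [hup]; exact hxd
      · rw [hun q hq]; exact hx q hq
    · intro q hq q' hq' h
      rcases mem_insert.mp hq with hq1 | hq1 <;> rcases mem_insert.mp hq' with hq2 | hq2
      · rw [hq1, hq2]
      · rw [hq1, hup, hun q' hq2] at h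
        exact absurd (mem_image.mpr ⟨q', hq2, h.symm⟩) hpx
      · rw [hq2, hup, hun q hq1] at h
        exact absurd (mem_image.mpr ⟨q, hq1, h⟩) hpx
      · rw [hun q hq1, hun q' hq2] at h
        exact hxi q hq1 q' hq2 h
    · exact insert_subset he1 (insert_subset he2 hU)
    · rw [card_insert_of_notMem, card_insert_of_notMem hp2, hUc, card_insert_of_notMem hd]
      · ring
      · rw [mem_insert]
        rintro (h | h)
        · exact he12 h
        · exact hp1 h
    · rw [DS_eq, biUnion_insert, hup, him]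
      have h1 : M.biUnion (fun q => (univ : Finset (Fin 3)).image
          (pd3 q (Function.update x p (xd p) q))) = D' ∪ U := by
        rw [← hDS, DS_eq]
        refine biUnion_congr rfl (fun q hq => ?_)
        rw [hun q hq]
      rw [h1]
      ext a
      simp only [mem_union, mem_insert, mem_singleton]
      tauto

end Pool.Agent.PGo.A
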