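import Pool.Agent.PGo.ABase

/-!
# PGo-AFam: families of packs: cardinalities, insertion

PLAN. `pv_card`: `pv L` is `univ` without the element `0`. `ix_pv_card`: `ix (pv L)` is the disjoint
union of `{(true, j) : j ≠ 0}` (`L - 1` elements) and `{(false, j) : j ≠ 0, nxt j ≠ 0}`, i.e.
`j ≠ 0, j ≠ L - 1` (`L - 2` elements); count with images of `Fin`/`range` or
`Finset.card_image_of_injective`, `nxt_val`. `Lab_card`, `Dif_card`: `card_union_le`, `card_image_le`.
`pD_card`: `PLab.difi` (injective). `pD_G`: `PackOk.dG`. `UL_card`, `UD_card`: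
`card_biUnion_le_card_mul`. `UD_card_eq`: `UD Ps` is the disjoint union over `p ∈ Ps` (`PFam.dif`) of
`p.Dif = p.pD ∪ p.G` (disjoint); `pGG Ps` is the disjoint union of the `p.G`; `card_biUnion`, sums.
`fam_insert`: `p ∉ Ps` because `p.m % g ∉ UC Ps`; the rest from `mem_UL`, `mem_UD`, `disjoint_left`.
`nspl_sub`: `Lab ⊆ ZP`, `Dif ⊆ DP`.
-/

noncomputable section

namespace Pool.Agent.PGo.A

open Finset Pool.Agent.PGr Pool.Agent.PGo.R

variable {P : Par} {ZP DP : Finset ℤ} {Ps Qs : Finset (Pack P)}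

theorem pv_card {L : ℕ} : (pv L).card = L - 1 := by
  cases L with
  | zero => rfl
  | succ n =>
    have e : pv (n + 1) = univ.erase 0 := by
      ext j
      rw [mem_pv, mem_erase]
      simp only [mem_univ, and_true, ne_eq, Fin.ext_iff, Fin.val_zero]
    rw [e, card_erase_of_mem (mem_univ _), card_univ, Fintype.card_fin]

private theorem afam_ix_card {L : ℕ} (S : Finset (Fin L)) :
    (ix S).card = S.card + (S.filter (fun j => nxt j ∈ S)).card := by
  have e : ix S = S.image (Prod.mk true) ∪ (S.filter (fun j => nxt j ∈ S)).image (Prod.mk false) := by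
    ext ⟨b, j⟩
    rw [mem_ix, mem_union, mem_image, mem_image]
    simp only [mem_filter, Prod.mk.injEq]
    cases b with
    | true =>
      constructor
      · intro h
        exact Or.inl ⟨j, h.1, rfl, rfl⟩
      · rintro (⟨a, ha, _, rfl⟩ | ⟨a, _, h, _⟩)
        · exact ⟨ha, fun h => absurd h (by decide)⟩
        · exact absurd h (by decide)
    | false =>
      constructor
      · intro h
        exact Or.inr ⟨j, ⟨h.1, h.2 rfl⟩, rfl, rfl⟩
      · rintro (⟨a, _, h, _⟩ | ⟨a, ha, _, rfl⟩)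
        · exact absurd h (by decide)
        · exact ⟨ha.1, fun _ => ha.2⟩
  rw [e, card_union_of_disjoint, card_image_of_injective _ (Prod.mk_right_injective _),
    card_image_of_injective _ (Prod.mk_right_injective _)]
  rw [disjoint_left]
  intro x hx hx'
  obtain ⟨a, _, rfl⟩ := mem_image.1 hx
  obtain ⟨b, _, hb⟩ := mem_image.1 hx'
  have h3 : false = true := congrArg Prod.fst hb
  exact absurd h3 (by decide)

theorem ix_pv_card {L : ℕ} (hL : 3 ≤ L) : (ix (pv L)).card = 2 * L - 3 := by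
  have hlt : L - 1 < L := by omega
  have e : (pv L).filter (fun j => nxt j ∈ pv L) = (pv L).erase ⟨L - 1, hlt⟩ := by
    ext j
    rw [mem_filter, mem_erase, mem_pv, mem_pv, nxt_val]
    have hj := j.2
    constructor
    · rintro ⟨h1, h2⟩
      refine ⟨?_, h1⟩
      intro h
      have h3 : j.1 = L - 1 := congrArg Fin.val h
      rw [if_pos (by omega)] at h2
      exact h2 rfl
    · rintro ⟨h1, h2⟩
      refine ⟨h2, ?_⟩
      have h3 : ¬ j.1 + 1 = L := by
        intro h
        exact h1 (Fin.ext (by simp only; omega))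
      rw [if_neg h3]
      omega
  rw [afam_ix_card, e, card_erase_of_mem (by rw [mem_pv]; simp only; omega), pv_card]
  omega

theorem ix_card_le {L : ℕ} (S : Finset (Fin L)) : (ix S).card ≤ 2 * L := by
  rw [afam_ix_card]
  have h1 : S.card ≤ L := (card_le_univ S).trans (Fintype.card_fin L).le
  have h2 : (S.filter (fun j => nxt j ∈ S)).card ≤ S.card := card_filter_le _ _
  omega

theorem Lab_card {p : Pack P} (h : PackOk P ZP DP p) : p.Lab.card ≤ P.L + 3 := by
  unfold Pack.Lab
  refine (card_union_le _ _).trans ?_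
  have h1 : ((pv P.L).image p.y).card ≤ (pv P.L).card := card_image_le
  rw [pv_card] at h1
  have h2 := h.cJ
  omega

theorem Dif_card {p : Pack P} (h : PackOk P ZP DP p) : p.Dif.card ≤ 2 * P.L + 5 := by
  unfold Pack.Dif Pack.pD
  refine (card_union_le _ _).trans ?_
  have h1 : ((ix (pv P.L)).image (P.df p.m p.y)).card ≤ (ix (pv P.L)).card := card_image_le
  have h2 := ix_card_le (pv P.L)
  have h3 := h.cG
  omega

theorem Lab_sub {p : Pack P} (h : PackOk P ZP DP p) : p.Lab ⊆ ZP := by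
  unfold Pack.Lab
  refine union_subset ?_ h.J_sub
  intro x hx
  obtain ⟨j, hj, rfl⟩ := mem_image.1 hx
  exact h.pl.lab j hj

theorem Dif_sub {p : Pack P} (h : PackOk P ZP DP p) : p.Dif ⊆ DP := by
  unfold Pack.Dif Pack.pD
  refine union_subset ?_ h.G_sub
  intro x hx
  obtain ⟨j, hj, rfl⟩ := mem_image.1 hx
  exact h.pl.dif j hj

theorem pD_card {p : Pack P} (hP : P.Ok) (h : PackOk P ZP DP p) : p.pD.card = 2 * P.L - 3 := by
  unfold Pack.pD
  rw [card_image_of_injOn, ix_pv_card hP.adm.three]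
  intro i hi j hj e
  exact h.pl.difi i (mem_coe.1 hi) j (mem_coe.1 hj) e

theorem pD_G {p : Pack P} (h : PackOk P ZP DP p) : Disjoint p.pD p.G := by
  unfold Pack.pD
  rw [disjoint_left]
  intro x hx
  obtain ⟨j, hj, rfl⟩ := mem_image.1 hx
  exact h.dG j hj

theorem UL_card (h : PFam P ZP DP Ps) : (UL Ps).card ≤ (P.L + 3) * Ps.card := by
  unfold UL
  rw [mul_comm]
  exact card_biUnion_le_card_mul _ _ _ fun p hp => Lab_card (h.ok p hp)

theorem UD_card (h : PFam P ZP DP Ps) : (UD Ps).card ≤ (2 * P.L + 5) * Ps.card := by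
  unfold UD
  rw [mul_comm]
  exact card_biUnion_le_card_mul _ _ _ fun p hp => Dif_card (h.ok p hp)

theorem UC_card (h : PFam P ZP DP Ps) : (UC Ps).card = Ps.card := by
  unfold UC
  refine card_image_of_injOn ?_
  intro p hp p' hp' e
  exact h.res p (mem_coe.1 hp) p' (mem_coe.1 hp') e

theorem UL_sub (h : PFam P ZP DP Ps) : UL Ps ⊆ ZP := by
  intro x hx
  obtain ⟨p, hp, hx⟩ := mem_UL.1 hx
  exact Lab_sub (h.ok p hp) hx

theorem UD_sub (h : PFam P ZP DP Ps) : UD Ps ⊆ DP := by
  intro x hx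
  obtain ⟨p, hp, hx⟩ := mem_UD.1 hx
  exact Dif_sub (h.ok p hp) hx

/-- number of the used differences -/
theorem UD_card_eq (hP : P.Ok) (h : PFam P ZP DP Ps) :
    (UD Ps).card = (2 * P.L - 3) * Ps.card + (pGG Ps).card := by
  have h1 : (UD Ps).card = ∑ p ∈ Ps, p.Dif.card := by
    unfold UD
    refine card_biUnion ?_
    intro p hp p' hp' hne
    exact h.dif p (mem_coe.1 hp) p' (mem_coe.1 hp') hne
  have h2 : (pGG Ps).card = ∑ p ∈ Ps, p.G.card := by
    unfold pGG
    refine card_biUnion ?_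
    intro p hp p' hp' hne
    exact (h.dif p (mem_coe.1 hp) p' (mem_coe.1 hp') hne).mono subset_union_right subset_union_right
  have h3 : ∀ p ∈ Ps, p.Dif.card = (2 * P.L - 3) + p.G.card := by
    intro p hp
    unfold Pack.Dif
    rw [card_union_of_disjoint (pD_G (h.ok p hp)), pD_card hP (h.ok p hp)]
  rw [h1, h2, sum_congr rfl h3, sum_add_distrib, sum_const, smul_eq_mul, mul_comm]

private theorem afam_restrict {ZP' DP' : Finset ℤ} {p : Pack P} (h : PackOk P ZP DP p)
    (h1 : p.Lab ⊆ ZP') (h2 : p.Dif ⊆ DP') : PackOk P ZP' DP' p where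
  lt := h.lt
  pl :=
    { lab := fun _ hj => h1 (mem_union_left _ (mem_image_of_mem _ hj))
      labi := h.pl.labi
      dif := fun _ hi => h2 (mem_union_left _ (mem_image_of_mem _ hi))
      difi := h.pl.difi }
  J_sub := subset_union_right.trans h1
  G_sub := subset_union_right.trans h2
  yJ := h.yJ
  dG := h.dG
  cJ := h.cJ
  cG := h.cG
  w := h.w

theorem fam_mono {ZP' DP' : Finset ℤ} (h : PFam P ZP DP Ps) (hZ : ZP ⊆ ZP') (hD : DP ⊆ DP') :
    PFam P ZP' DP' Ps where
  ok p hp := afam_restrict (h.ok p hp) ((Lab_sub (h.ok p hp)).trans hZ) ((Dif_sub (h.ok p hp)).trans hD)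
  res := h.res
  lab := h.lab
  dif := h.dif

/-- a family is a family for the smaller sets which contain its labels and differences -/
theorem fam_restrict {ZP' DP' : Finset ℤ} (h : PFam P ZP DP Ps) (hZ : UL Ps ⊆ ZP')
    (hD : UD Ps ⊆ DP') : PFam P ZP' DP' Ps where
  ok p hp := afam_restrict (h.ok p hp) (fun _ hx => hZ (mem_UL.2 ⟨p, hp, hx⟩))
    (fun _ hx => hD (mem_UD.2 ⟨p, hp, hx⟩))
  res := h.res
  lab := h.lab
  dif := h.dif

theorem fam_sub (h : PFam P ZP DP Ps) (hQ : Qs ⊆ Ps) : PFam P ZP DP Qs where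
  ok p hp := h.ok p (hQ hp)
  res p hp p' hp' := h.res p (hQ hp) p' (hQ hp')
  lab p hp p' hp' := h.lab p (hQ hp) p' (hQ hp')
  dif p hp p' hp' := h.dif p (hQ hp) p' (hQ hp')

theorem fam_empty : PFam P ZP DP ∅ where
  ok p hp := absurd hp (notMem_empty p)
  res p hp := absurd hp (notMem_empty p)
  lab p hp := absurd hp (notMem_empty p)
  dif p hp := absurd hp (notMem_empty p)

theorem fam_insert (h : PFam P ZP DP Ps) {p : Pack P} (hp : PackOk P ZP DP p)
    (h1 : p.m % P.g ∉ UC Ps) (h2 : Disjoint p.Lab (UL Ps)) (h3 : Disjoint p.Dif (UD Ps)) :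
    p ∉ Ps ∧ PFam P ZP DP (insert p Ps) := by
  refine ⟨fun hps => h1 (mem_UC.2 ⟨p, hps, rfl⟩), ?_, ?_, ?_, ?_⟩
  · intro q hq
    rcases mem_insert.1 hq with rfl | hq2
    · exact hp
    · exact h.ok q hq2
  · intro q hq q' hq' e
    rcases mem_insert.1 hq with rfl | hq2
    · rcases mem_insert.1 hq' with rfl | hq2'
      · rfl
      · exact absurd (mem_UC.2 ⟨q', hq2', e.symm⟩) h1
    · rcases mem_insert.1 hq' with rfl | hq2'
      · exact absurd ((mem_UC (Ps := Ps)).2 ⟨q, hq2, e⟩) h1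
      · exact h.res q hq2 q' hq2' e
  · intro q hq q' hq' hne
    rcases mem_insert.1 hq with rfl | hq2
    · rcases mem_insert.1 hq' with rfl | hq2'
      · exact absurd rfl hne
      · exact h2.mono_right fun _ hx => mem_UL.2 ⟨q', hq2', hx⟩
    · rcases mem_insert.1 hq' with rfl | hq2'
      · exact (h2.mono_right fun _ hx => (mem_UL (Ps := Ps)).2 ⟨q, hq2, hx⟩).symm
      · exact h.lab q hq2 q' hq2' hne
  · intro q hq q' hq' hne
    rcases mem_insert.1 hq with rfl | hq2
    · rcases mem_insert.1 hq' with rfl | hq2'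
      · exact absurd rfl hne
      · exact h3.mono_right fun _ hx => mem_UD.2 ⟨q', hq2', hx⟩
    · rcases mem_insert.1 hq' with rfl | hq2'
      · exact (h3.mono_right fun _ hx => (mem_UD (Ps := Ps)).2 ⟨q, hq2, hx⟩).symm
      · exact h.dif q hq2 q' hq2' hne

end Pool.Agent.PGo.A
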