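import Pool.Agent.PGo.APlan
import Pool.Agent.PGo.AFam

/-!
# PGo-ACnt: the counts

PLAN. `P := Par.mk L p g` is `Ok` for `g ≥ 1`, `n = L g ≥ 3`, `Ps := PR ∪ PA`, `|Ps| = |PR| + |PA|`.
`|mainI| = g - |UC Ps| = g - |Ps|` (`UC Ps ⊆ range g`, `UC_card`). `UD Ps ⊆ dall n \ (R1 ∪ X)` (`UD_sub`), `X`, `R1` disjoint, so
`|mainD| = 2n - |UD Ps| - |X| - |R1|` (`dall_card`), `|UD Ps| = (2L - 3)|Ps| + |pGG Ps|` (`UD_card_eq`), `pGG Ps = pGG PA` (`JG`). With
`cnt1`, `cnt2`: `|pGG PA| + |X| + m = 3 |PA|`, `|R1| = m + 3 |PR|`, hence `|mainD| = 2 L g - 2 L |Ps| = 2 L |mainI|`.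
Sizes: `|range g \ mainI| ≤ |UC Ps| ≤ κ n = κ L g`; `|zall \ mainZ| ≤ |LAM1 ∪ LAM2| + |UL Ps| ≤ κ n + (L + 3) κ n`;
`|dall \ mainD| ≤ |UD Ps| + |X| + |R1| ≤ (2L + 5) κ n + κ n`; `n = L g`, `L ≥ 3`.
-/

noncomputable section

namespace Pool.Agent.PGo.A

open Finset Pool.Agent.PGr Pool.Agent.PGo.R

private theorem pGG_eq {P : Par} {PR PA : Finset (Pack P)} (h : ∀ p ∈ PR, p.G = ∅) :
    pGG (PR ∪ PA) = pGG PA := by
  ext x
  rw [mem_pGG, mem_pGG]
  constructor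
  · rintro ⟨q, hq, hx⟩
    rcases mem_union.1 hq with hq | hq
    · rw [h q hq] at hx
      exact absurd hx (notMem_empty x)
    · exact ⟨q, hq, hx⟩
  · rintro ⟨q, hq, hx⟩
    exact ⟨q, mem_union_right _ hq, hx⟩

private theorem num_bd {L : ℕ} (hL : 3 ≤ L) {κ g a c : ℝ} (hκ : 0 < κ) (hg : 0 ≤ g)
    (hc : c ≤ 20 * (L : ℝ)) (ha : a ≤ c * (κ * (L * g))) : a ≤ 20 * (L : ℝ) ^ 2 * κ * g := by
  have h1 : 0 ≤ κ * ((L : ℝ) * g) := by positivity
  have h2 : c * (κ * (L * g)) ≤ 20 * (L : ℝ) * (κ * (L * g)) := mul_le_mul_of_nonneg_right hc h1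
  have _ := hL
  calc a ≤ c * (κ * (L * g)) := ha
    _ ≤ 20 * (L : ℝ) * (κ * (L * g)) := h2
    _ = 20 * (L : ℝ) ^ 2 * κ * g := by ring

theorem planCnt {L p : ℕ} (hA : Adm L p) : PlanCnt L p := by
  intro κ cD cC hκ
  refine ⟨1, ?_⟩
  intro g hg m LAM1 LAM2 PR PA R1 X H
  have hL : 3 ≤ L := hA.three
  have hLr : (3 : ℝ) ≤ (L : ℝ) := by exact_mod_cast hL
  have hOk : (Par.mk L p g).Ok := ⟨hA, hg⟩
  have hn : (Par.mk L p g).n = L * g := rfl
  have hn3 : 3 ≤ (Par.mk L p g).n := by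
    have := hOk.n_ge
    have h2 : 1 ≤ (Par.mk L p g).g := hg
    omega
  have hnr : (((Par.mk L p g).n : ℕ) : ℝ) = (L : ℝ) * (g : ℝ) := by
    rw [hn]; push_cast; ring
  have hgr : (0 : ℝ) ≤ (g : ℝ) := Nat.cast_nonneg g
  have hPs : (PR ∪ PA).card = PR.card + PA.card := card_union_of_disjoint H.dj
  have hUC : (UC (PR ∪ PA)).card = PR.card + PA.card := by rw [UC_card H.fam, hPs]
  have hUCs : UC (PR ∪ PA) ⊆ range g := by
    intro r hr
    obtain ⟨q, _, hq⟩ := mem_UC.1 hr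
    rw [mem_range, ← hq]
    exact Nat.mod_lt _ hg
  have hUDs := UD_sub H.fam
  have hUD : (UD (PR ∪ PA)).card = (2 * L - 3) * (PR.card + PA.card) + (pGG PA).card := by
    rw [UD_card_eq hOk H.fam, hPs, pGG_eq (fun q hq => (H.JG q hq).2)]
  have hd1 : Disjoint (UD (PR ∪ PA)) X := by
    rw [disjoint_left]
    intro x hx hx'
    exact (mem_sdiff.1 (hUDs hx)).2 (mem_union_right _ hx')
  have hd2 : Disjoint (UD (PR ∪ PA) ∪ X) R1 := by
    rw [disjoint_union_left]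
    refine ⟨?_, H.XR⟩
    rw [disjoint_left]
    intro x hx hx'
    exact (mem_sdiff.1 (hUDs hx)).2 (mem_union_left _ hx')
  have hall : (UD (PR ∪ PA) ∪ X ∪ R1).card = 2 * L * (PR.card + PA.card) := by
    rw [card_union_of_disjoint hd2, card_union_of_disjoint hd1, hUD]
    have h1 := H.cnt1
    have h2 := H.cnt2
    obtain ⟨M, rfl⟩ : ∃ M, L = M + 3 := ⟨L - 3, by omega⟩
    have h3 : 2 * (M + 3) - 3 = 2 * M + 3 := by omega
    rw [h3]
    have h4 : 2 * (M + 3) * (PR.card + PA.card)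
        = (2 * M + 3) * (PR.card + PA.card) + 3 * (PR.card + PA.card) := by ring
    rw [h4]
    omega
  have hsub : UD (PR ∪ PA) ∪ X ∪ R1 ⊆ dall (Par.mk L p g).n := by
    refine union_subset (union_subset (hUDs.trans sdiff_subset) H.X_sub) H.R_sub
  have hs := H.szP
  rw [hnr] at hs
  refine ⟨?_, ?_, ?_, ?_⟩
  · unfold mainI mainD
    rw [card_sdiff_of_subset hUCs, card_sdiff_of_subset hsub, hUC, hall, dall_card hn3, hn,
      card_range, Nat.mul_sub]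
    ring_nf
  · have h1 : range g \ mainI (Par.mk L p g) (PR ∪ PA) ⊆ UC (PR ∪ PA) := by
      intro x hx
      rw [mem_sdiff] at hx
      by_contra hx'
      exact hx.2 (mem_sdiff.2 ⟨hx.1, hx'⟩)
    have h2 : ((range g \ mainI (Par.mk L p g) (PR ∪ PA)).card : ℝ)
        ≤ ((PR.card + PA.card : ℕ) : ℝ) := by
      rw [← hUC]
      exact_mod_cast card_le_card h1
    refine num_bd hL hκ hgr (c := 1) (by linarith) ?_
    rw [one_mul]
    exact h2.trans hs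
  · have h1 : zall (Par.mk L p g).n \ mainZ (Par.mk L p g) LAM1 LAM2 (PR ∪ PA)
        ⊆ (LAM1 ∪ LAM2) ∪ UL (PR ∪ PA) := by
      intro x hx
      rw [mem_sdiff] at hx
      by_contra hx'
      exact hx.2 (mem_sdiff.2 ⟨hx.1, hx'⟩)
    have h2 := card_le_card h1
    have h3 := card_union_le (LAM1 ∪ LAM2) (UL (PR ∪ PA))
    have h4 := UL_card H.fam
    rw [hPs] at h4
    have h5 : ((zall (Par.mk L p g).n \ mainZ (Par.mk L p g) LAM1 LAM2 (PR ∪ PA)).card : ℝ)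
        ≤ ((LAM1 ∪ LAM2).card : ℝ) + ((L : ℝ) + 3) * ((PR.card + PA.card : ℕ) : ℝ) := by
      have h6 : (zall (Par.mk L p g).n \ mainZ (Par.mk L p g) LAM1 LAM2 (PR ∪ PA)).card
          ≤ (LAM1 ∪ LAM2).card + (L + 3) * (PR.card + PA.card) := h2.trans (h3.trans (by
            exact Nat.add_le_add_left h4 _))
      exact_mod_cast h6
    have h7 := H.lc
    rw [hnr] at h7
    refine num_bd hL hκ hgr (c := (L : ℝ) + 4) (by linarith) ?_
    have h8 : ((L : ℝ) + 3) * ((PR.card + PA.card : ℕ) : ℝ) ≤ ((L : ℝ) + 3) * (κ * (L * g)) :=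
      mul_le_mul_of_nonneg_left hs (by positivity)
    linarith
  · have h1 : dall (Par.mk L p g).n \ mainD (Par.mk L p g) (PR ∪ PA) R1 X
        ⊆ UD (PR ∪ PA) ∪ X ∪ R1 := by
      intro x hx
      rw [mem_sdiff] at hx
      by_contra hx'
      exact hx.2 (mem_sdiff.2 ⟨hx.1, hx'⟩)
    have h2 : ((dall (Par.mk L p g).n \ mainD (Par.mk L p g) (PR ∪ PA) R1 X).card : ℝ)
        ≤ (2 * (L : ℝ)) * ((PR.card + PA.card : ℕ) : ℝ) := by
      have h3 := card_le_card h1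
      rw [hall] at h3
      exact_mod_cast h3
    refine num_bd hL hκ hgr (c := 2 * (L : ℝ)) (by linarith) ?_
    exact h2.trans (mul_le_mul_of_nonneg_left hs (by positivity))

end Pool.Agent.PGo.A
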