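import Pool.Agent.PGo.ABase

/-!
# PGo-AUn: families of labelled cycles: used labels and differences, unions

PLAN. `usedL_card`, `usedD_card`: the map `(m, j) ↦ X m j` (`(m, i) ↦ df m (X m) i`) is injective on `J × univ` by `OkC.labi`,
`Fam.lab` (`OkC.difi`, `Fam.dif`). `fam_mono'`: monotone. `fam_self`: the labels lie in `usedL`, the differences in `usedD`.
`fam_union`: `X m := if m ∈ J1 then X1 m else X2 m`; residues by hypothesis. `fam_compl`: `OkC` from `PLab` on `univ`.
-/

noncomputable section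

namespace Pool.Agent.PGo.A

open Finset Pool.Agent.PGr Pool.Agent.PGo.R

variable {P : Par}

/-- the labels used by a family of cycles -/
def usedL (P : Par) (J : Finset ℕ) (X : ℕ → Fin P.L → ℤ) : Finset ℤ :=
  (J ×ˢ (univ : Finset (Fin P.L))).image (fun u => X u.1 u.2)

/-- the differences used by a family of cycles -/
def usedD (P : Par) (J : Finset ℕ) (X : ℕ → Fin P.L → ℤ) : Finset ℤ :=
  (J ×ˢ (univ : Finset (Bool × Fin P.L))).image (fun u => P.df u.1 (X u.1) u.2)

variable {Z D Z1 D1 Z2 D2 : Finset ℤ} {J J1 J2 : Finset ℕ} {X X1 X2 : ℕ → Fin P.L → ℤ}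

theorem ix_univ {L : ℕ} : ix (univ : Finset (Fin L)) = univ := by
  ext i
  simp [mem_ix]

theorem okC_of (m : ℕ) (y : Fin P.L → ℤ) (h : PLab P Z D m univ y) : P.OkC Z D m y := by
  refine ⟨fun j => h.lab j (mem_univ _), fun i j e => h.labi i (mem_univ _) j (mem_univ _) e,
    fun i => h.dif i (by rw [ix_univ]; exact mem_univ _), fun i j e =>
    h.difi i (by rw [ix_univ]; exact mem_univ _) j (by rw [ix_univ]; exact mem_univ _) e⟩

theorem usedL_card (h : P.Fam Z D J X) : (usedL P J X).card = P.L * J.card := by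
  unfold usedL
  rw [card_image_of_injOn, card_product, card_univ, Fintype.card_fin, mul_comm]
  rintro ⟨m, j⟩ hm ⟨m', j'⟩ hm' e
  rw [coe_product, Set.mem_prod] at hm hm'
  have h1 : m ∈ J := by exact_mod_cast hm.1
  have h2 : m' ∈ J := by exact_mod_cast hm'.1
  by_cases hmm : m = m'
  · subst hmm
    have e2 : j = j' := (h.ok m h1).labi e
    rw [e2]
  · exact absurd e (h.lab m h1 m' h2 hmm j j')

theorem usedD_card (h : P.Fam Z D J X) : (usedD P J X).card = 2 * P.L * J.card := by
  unfold usedD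
  rw [card_image_of_injOn, card_product, card_univ, Fintype.card_prod, Fintype.card_bool,
    Fintype.card_fin, mul_comm]
  rintro ⟨m, j⟩ hm ⟨m', j'⟩ hm' e
  rw [coe_product, Set.mem_prod] at hm hm'
  have h1 : m ∈ J := by exact_mod_cast hm.1
  have h2 : m' ∈ J := by exact_mod_cast hm'.1
  by_cases hmm : m = m'
  · subst hmm
    have e2 : j = j' := (h.ok m h1).difi e
    rw [e2]
  · exact absurd e (h.dif m h1 m' h2 hmm j j')

theorem usedL_sub (h : P.Fam Z D J X) : usedL P J X ⊆ Z := by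
  intro x hx
  unfold usedL at hx
  rw [mem_image] at hx
  obtain ⟨u, hu, rfl⟩ := hx
  rw [mem_product] at hu
  exact (h.ok _ hu.1).lab _

theorem usedD_sub (h : P.Fam Z D J X) : usedD P J X ⊆ D := by
  intro x hx
  unfold usedD at hx
  rw [mem_image] at hx
  obtain ⟨u, hu, rfl⟩ := hx
  rw [mem_product] at hu
  exact (h.ok _ hu.1).dif _

theorem fam_self (h : P.Fam Z D J X) : P.Fam (usedL P J X) (usedD P J X) J X := by
  refine ⟨h.lt, h.res, fun m hm => ⟨fun j => ?_, (h.ok m hm).labi, fun i => ?_,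
    (h.ok m hm).difi⟩, h.lab, h.dif⟩
  · unfold usedL
    rw [mem_image]
    exact ⟨(m, j), mem_product.2 ⟨hm, mem_univ _⟩, rfl⟩
  · unfold usedD
    rw [mem_image]
    exact ⟨(m, i), mem_product.2 ⟨hm, mem_univ _⟩, rfl⟩

theorem fam_mono' (h : P.Fam Z1 D1 J X) (hZ : Z1 ⊆ Z2) (hD : D1 ⊆ D2) : P.Fam Z2 D2 J X := by
  exact ⟨h.lt, h.res, fun m hm => ⟨fun j => hZ ((h.ok m hm).lab j), (h.ok m hm).labi,
    fun i => hD ((h.ok m hm).dif i), (h.ok m hm).difi⟩, h.lab, h.dif⟩

theorem fam_union (h1 : P.Fam Z1 D1 J1 X1) (h2 : P.Fam Z2 D2 J2 X2) (hZ : Disjoint Z1 Z2)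
    (hD : Disjoint D1 D2) (hr : ∀ m ∈ J1, ∀ m' ∈ J2, m % P.g ≠ m' % P.g) :
    ∃ X, P.Fam (Z1 ∪ Z2) (D1 ∪ D2) (J1 ∪ J2) X := by
  have hdis : ∀ m ∈ J2, m ∉ J1 := fun m hm hm' => hr m hm' m hm rfl
  refine ⟨fun m => if m ∈ J1 then X1 m else X2 m, ?_, ?_, ?_, ?_, ?_⟩
  · intro m hm
    rcases mem_union.1 hm with hm | hm
    · exact h1.lt m hm
    · exact h2.lt m hm
  · intro m hm m' hm' e
    rcases mem_union.1 hm with hm | hm <;> rcases mem_union.1 hm' with hm' | hm'
    · exact h1.res m hm m' hm' e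
    · exact absurd e (hr m hm m' hm')
    · exact absurd e.symm (hr m' hm' m hm)
    · exact h2.res m hm m' hm' e
  · intro m hm
    rcases mem_union.1 hm with hm | hm
    · rw [if_pos hm]
      exact ⟨fun j => mem_union_left _ ((h1.ok m hm).lab j), (h1.ok m hm).labi,
        fun i => mem_union_left _ ((h1.ok m hm).dif i), (h1.ok m hm).difi⟩
    · rw [if_neg (hdis m hm)]
      exact ⟨fun j => mem_union_right _ ((h2.ok m hm).lab j), (h2.ok m hm).labi,
        fun i => mem_union_right _ ((h2.ok m hm).dif i), (h2.ok m hm).difi⟩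
  · intro m hm m' hm' e j j'
    rcases mem_union.1 hm with hm | hm <;> rcases mem_union.1 hm' with hm' | hm'
    · simp only [if_pos hm, if_pos hm']
      exact h1.lab m hm m' hm' e j j'
    · simp only [if_pos hm, if_neg (hdis m' hm')]
      intro he
      exact disjoint_left.1 hZ ((h1.ok m hm).lab j) (he ▸ (h2.ok m' hm').lab j')
    · simp only [if_neg (hdis m hm), if_pos hm']
      intro he
      exact disjoint_left.1 hZ ((h1.ok m' hm').lab j') (he ▸ (h2.ok m hm).lab j)
    · simp only [if_neg (hdis m hm), if_neg (hdis m' hm')]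
      exact h2.lab m hm m' hm' e j j'
  · intro m hm m' hm' e j j'
    rcases mem_union.1 hm with hm | hm <;> rcases mem_union.1 hm' with hm' | hm'
    · simp only [if_pos hm, if_pos hm']
      exact h1.dif m hm m' hm' e j j'
    · simp only [if_pos hm, if_neg (hdis m' hm')]
      intro he
      exact disjoint_left.1 hD ((h1.ok m hm).dif j) (he ▸ (h2.ok m' hm').dif j')
    · simp only [if_neg (hdis m hm), if_pos hm']
      intro he
      exact disjoint_left.1 hD ((h1.ok m' hm').dif j') (he ▸ (h2.ok m hm).dif j)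
    · simp only [if_neg (hdis m hm), if_neg (hdis m' hm')]
      exact h2.dif m hm m' hm' e j j'

end Pool.Agent.PGo.A
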