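import Pool.Agent.PGo.AFill
import Pool.Agent.PGo.AUn

/-!
# PGo-ACyc: labelling complete cycles

PLAN. Induction on `I'` (`Finset.induction_on`). For `insert r I'`, `r ∉ I'`: the induction hypothesis gives `X` with
`P.Fam (Z \ FL) (D \ FD) I' X`. Apply `fill` to the cycle `m := r` with `S := ∅`, `T := univ`,
`FL' := FL ∪ usedL I' X`, `FD' := FD ∪ usedD I' X` (`usedL_card`, `usedD_card`: `≤ |FL| + L |I'|`, `≤ |FD| + 2 L |I'|`), `ZA := Z`,
`DA := D`: a labelling `y'` with `PLab P (Z \ FL') (D \ FD') r univ y'`; `ix univ = univ`. New `X' := Function.update X r y'`.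
`Fam.res`: elements of `range g` are equal to their residues.
-/

noncomputable section

namespace Pool.Agent.PGo.A

open Finset Pool.Agent.PGr Pool.Agent.PGo.R

theorem cyc_all {P : Par} (h : P.Ok) (hn : 30 ≤ P.n) {Z D : Finset ℤ} {w : ℤ × ℤ} {c : ℝ}
    (hS : Sup P Z D w c) (hw1 : w.1 ≤ 100) (hw2 : 110 ≤ w.2)
    (hZw : ∀ x ∈ Z, inR P.n w x) (hZz : Z ⊆ zall P.n) {FL FD : Finset ℤ} (I' : Finset ℕ)
    (hI : I' ⊆ range P.g)
    (hc : (FL.card : ℝ) + 6 * FD.card + 13 * P.L * I'.card + 20 * P.L + 10 ≤ c * P.n) :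
    ∃ X : ℕ → Fin P.L → ℤ, P.Fam (Z \ FL) (D \ FD) I' X := by
  classical
  induction I' using Finset.induction_on with
  | empty =>
    exact ⟨fun _ _ => 0, fun m hm => absurd hm (notMem_empty m),
      fun m hm => absurd hm (notMem_empty m), fun m hm => absurd hm (notMem_empty m),
      fun m hm => absurd hm (notMem_empty m), fun m hm => absurd hm (notMem_empty m)⟩
  | insert r I' hr ih =>
    have hI2 : I' ⊆ range P.g := (subset_insert r I').trans hI
    have hrg : r < P.g := mem_range.1 (hI (mem_insert_self r I'))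
    rw [card_insert_of_notMem hr] at hc
    push_cast at hc
    have hL0 : (0 : ℝ) ≤ P.L := Nat.cast_nonneg _
    have hIH : (FL.card : ℝ) + 6 * FD.card + 13 * P.L * I'.card + 20 * P.L + 10 ≤ c * P.n := by
      nlinarith
    obtain ⟨X, hX⟩ := ih hI2 hIH
    have hc1 : (FL ∪ usedL P I' X).card ≤ FL.card + P.L * I'.card := by
      rw [← usedL_card hX]
      exact card_union_le _ _
    have hc2 : (FD ∪ usedD P I' X).card ≤ FD.card + 2 * P.L * I'.card := by
      rw [← usedD_card hX]
      exact card_union_le _ _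
    have hc1' : ((FL ∪ usedL P I' X).card : ℝ) ≤ FL.card + P.L * I'.card := by
      exact_mod_cast hc1
    have hc2' : ((FD ∪ usedD P I' X).card : ℝ) ≤ FD.card + 2 * P.L * I'.card := by
      exact_mod_cast hc2
    have hcc : ((FL ∪ usedL P I' X).card : ℝ) + 6 * (FD ∪ usedD P I' X).card + 20 * P.L + 10 ≤
        c * P.n := by
      nlinarith
    have h0 : PLab P (Z \ (FL ∪ usedL P I' X)) (D \ (FD ∪ usedD P I' X)) r ∅ (fun _ => 0) := by
      refine ⟨fun j hj => absurd hj (notMem_empty j), fun j hj => absurd hj (notMem_empty j),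
        fun i hi => ?_, fun i hi => ?_⟩
      · exact absurd (mem_ix.1 hi).1 (notMem_empty _)
      · exact absurd (mem_ix.1 hi).1 (notMem_empty _)
    obtain ⟨y', hy', -, -⟩ := fill h hn hS hw1 hw2 (Subset.refl Z) (Subset.refl D) hZw hZz hcc
      (empty_subset (univ : Finset (Fin P.L))) h0 (fun j hj => absurd hj (notMem_empty j))
    have hok := okC_of r y' hy'
    have hyZ : ∀ j, y' j ∈ Z \ FL ∧ ∀ m ∈ I', ∀ j', X m j' ≠ y' j := by
      intro j
      have h1 := hok.lab j
      rw [mem_sdiff, mem_union] at h1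
      push Not at h1
      refine ⟨mem_sdiff.2 ⟨h1.1, h1.2.1⟩, fun m hm j' he => h1.2.2 ?_⟩
      exact mem_image.2 ⟨(m, j'), mem_product.2 ⟨hm, mem_univ _⟩, he⟩
    have hyD : ∀ i, P.df r y' i ∈ D \ FD ∧ ∀ m ∈ I', ∀ i', P.df m (X m) i' ≠ P.df r y' i := by
      intro i
      have h1 := hok.dif i
      rw [mem_sdiff, mem_union] at h1
      push Not at h1
      refine ⟨mem_sdiff.2 ⟨h1.1, h1.2.1⟩, fun m hm i' he => h1.2.2 ?_⟩
      exact mem_image.2 ⟨(m, i'), mem_product.2 ⟨hm, mem_univ _⟩, he⟩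
    have hne : ∀ m ∈ I', m ≠ r := fun m hm he => hr (he ▸ hm)
    have hXr : Function.update X r y' r = y' := Function.update_self _ _ _
    have hXm : ∀ m ∈ I', Function.update X r y' m = X m := fun m hm =>
      Function.update_of_ne (hne m hm) _ _
    refine ⟨Function.update X r y', ?_, ?_, ?_, ?_, ?_⟩
    · intro m hm
      rcases mem_insert.1 hm with rfl | hm
      · exact lt_of_lt_of_le hrg h.g_le_n
      · exact hX.lt m hm
    · intro m hm m' hm' he
      have h1 := mem_range.1 (hI hm)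
      have h2 := mem_range.1 (hI hm')
      rwa [Nat.mod_eq_of_lt h1, Nat.mod_eq_of_lt h2] at he
    · intro m hm
      rcases mem_insert.1 hm with rfl | hm
      · rw [hXr]
        exact ⟨fun j => (hyZ j).1, hok.labi, fun i => (hyD i).1, hok.difi⟩
      · rw [hXm m hm]
        exact hX.ok m hm
    · intro m hm m' hm' hmm j j'
      rcases mem_insert.1 hm with rfl | hm1 <;> rcases mem_insert.1 hm' with rfl | hm1'
      · exact absurd rfl hmm
      · rw [hXr, hXm m' hm1']
        exact ((hyZ j).2 m' hm1' j').symm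
      · rw [hXr, hXm m hm1]
        exact (hyZ j').2 m hm1 j
      · rw [hXm m hm1, hXm m' hm1']
        exact hX.lab m hm1 m' hm1' hmm j j'
    · intro m hm m' hm' hmm i i'
      rcases mem_insert.1 hm with rfl | hm1 <;> rcases mem_insert.1 hm' with rfl | hm1'
      · exact absurd rfl hmm
      · rw [hXr, hXm m' hm1']
        exact ((hyD i).2 m' hm1' i').symm
      · rw [hXr, hXm m hm1]
        exact (hyD i').2 m hm1 i
      · rw [hXm m hm1, hXm m' hm1']
        exact hX.dif m hm1 m' hm1' hmm i i'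

end Pool.Agent.PGo.A
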