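import Pool.Agent.PGo.AFam

/-!
# PGo-ADef: default labels of the remaining cover packs

PLAN. Induction on the number of packs (`Finset.induction_on` for `Q ⊆ Ps`): for `insert p Q`: `v := p.m < n`,
`z1 := lb p.y 1`, `z2 := lb p.y (L - 1)`: both are labels `p.y j` with `j ∈ pv L`, different (`PLab.labi`, `L ≥ 3`), in the window
`(85, 215)`, so in `(70, 230)`, and not anchors (they lie in `ZP ⊆ zall n`, `anc_not_zall`). `Sup` gives at least `c n`
labels `x ∈ LAM2` with `Df3 R1 x (anc n v) z1 z2`. Forbidden are at most `|FL| + |Q|` labels, and at most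
`6 (|FD| + 3 |Q|)` labels `x` for which one of the three differences lies in `FD ∪ DS Q x` (every value is taken at most
twice by each of the three forms). The three differences are exactly `pd3 p x j`, `j = 0, 1, 2`, so
`DS (insert p Q) x' = DS Q x ∪ {three new elements}`.
-/

noncomputable section

namespace Pool.Agent.PGo.A

open Finset Pool.Agent.PGr Pool.Agent.PGo.R

private theorem ad_mem_DS {P : Par} {Ps : Finset (Pack P)} {z : Pack P → ℤ} {t : ℤ} :
    t ∈ DS Ps z ↔ ∃ p ∈ Ps, ∃ j, pd3 p (z p) j = t := by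
  unfold DS
  rw [mem_image]
  constructor
  · rintro ⟨⟨p, j⟩, h, rfl⟩
    exact ⟨p, (mem_product.1 h).1, j, rfl⟩
  · rintro ⟨p, hp, j, rfl⟩
    exact ⟨(p, j), mem_product.2 ⟨hp, mem_univ _⟩, rfl⟩

/-- the labels at distance in `E` from `t` -/
private def adB (E : Finset ℤ) (t : ℤ) : Finset ℤ :=
  E.image (fun e => t + e) ∪ E.image (fun e => t - e)

private theorem ad_mem_B {E : Finset ℤ} {t x : ℤ} (h : |x - t| ∈ E) : x ∈ adB E t := by
  unfold adB
  rw [mem_union, mem_image, mem_image]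
  rcases abs_choice (x - t) with h1 | h1
  · exact Or.inl ⟨_, h, by rw [h1]; ring⟩
  · exact Or.inr ⟨_, h, by rw [h1]; ring⟩

private theorem ad_card_B (E : Finset ℤ) (t : ℤ) : (adB E t).card ≤ 2 * E.card := by
  unfold adB
  refine (card_union_le _ _).trans ?_
  have h1 := card_image_le (s := E) (f := fun e => t + e)
  have h2 := card_image_le (s := E) (f := fun e => t - e)
  omega

private theorem ad_step {P : Par} (h : P.Ok) {ZP DP LAM2 R1 : Finset ℤ} {c : ℝ}
    (hS : Sup P LAM2 R1 (70, 230) c) (hZ : ZP ⊆ zall P.n) {p : Pack P}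
    (hok : PackOk P ZP DP p) {X E : Finset ℤ}
    (hc : (X.card : ℝ) + 6 * E.card < c * P.n) :
    ∃ x0 ∈ LAM2, x0 ∉ X ∧ (∀ j, pd3 p x0 j ∈ R1) ∧ (∀ j, pd3 p x0 j ∉ E) ∧
      Function.Injective (pd3 p x0) := by
  have hL := h.adm.three
  have e1 : lb p.y 1 = p.y ⟨1, by omega⟩ := lb_of_lt p.y (by omega)
  have e2 : lb p.y (P.L - 1) = p.y ⟨P.L - 1, by omega⟩ := lb_of_lt p.y (by omega)
  have m1 : (⟨1, by omega⟩ : Fin P.L) ∈ pv P.L := mem_pv.2 (by simp)
  have m2 : (⟨P.L - 1, by omega⟩ : Fin P.L) ∈ pv P.L := mem_pv.2 (by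
    show P.L - 1 ≠ 0
    omega)
  have hne : lb p.y 1 ≠ lb p.y (P.L - 1) := by
    rw [e1, e2]
    intro h1
    have h2 := congrArg Fin.val (hok.pl.labi _ m1 _ m2 h1)
    have h3 : 1 = P.L - 1 := h2
    omega
  have hw : ∀ z : ℤ, inR P.n (85, 215) z → inR P.n (70, 230) z := by
    rintro z ⟨h1, h2⟩
    have h1' : (85 : ℤ) * P.n ≤ 100 * z := h1
    have h2' : 100 * z ≤ (215 : ℤ) * P.n := h2
    refine ⟨?_, ?_⟩
    · show (70 : ℤ) * P.n ≤ 100 * z
      omega
    · show 100 * z ≤ (230 : ℤ) * P.n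
      omega
  have w1 : inR P.n (70, 230) (lb p.y 1) := by
    rw [e1]
    exact hw _ (hok.w _ m1)
  have w2 : inR P.n (70, 230) (lb p.y (P.L - 1)) := by
    rw [e2]
    exact hw _ (hok.w _ m2)
  have a1 : lb p.y 1 ≠ anc P.n p.m := by
    intro h1
    rw [e1] at h1
    exact anc_not_zall hok.lt (h1 ▸ hZ (hok.pl.lab _ m1))
  have a2 : lb p.y (P.L - 1) ≠ anc P.n p.m := by
    intro h1
    rw [e2] at h1
    exact anc_not_zall hok.lt (h1 ▸ hZ (hok.pl.lab _ m2))
  have hsup := hS p.m hok.lt _ _ w1 w2 hne a1 a2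
  set F := LAM2.filter fun x => Df3 R1 x (anc P.n p.m) (lb p.y 1) (lb p.y (P.L - 1)) with hF
  set B : Finset ℤ := X ∪ (adB E (anc P.n p.m) ∪ (adB E (lb p.y 1) ∪ adB E (lb p.y (P.L - 1))))
    with hB
  have hBc : B.card ≤ X.card + 6 * E.card := by
    have h1 := card_union_le X
      (adB E (anc P.n p.m) ∪ (adB E (lb p.y 1) ∪ adB E (lb p.y (P.L - 1))))
    have h2 := card_union_le (adB E (anc P.n p.m)) (adB E (lb p.y 1) ∪ adB E (lb p.y (P.L - 1)))
    have h3 := card_union_le (adB E (lb p.y 1)) (adB E (lb p.y (P.L - 1)))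
    have h4 := ad_card_B E (anc P.n p.m)
    have h5 := ad_card_B E (lb p.y 1)
    have h6 := ad_card_B E (lb p.y (P.L - 1))
    rw [hB]
    omega
  have hBr : (B.card : ℝ) ≤ (X.card : ℝ) + 6 * E.card := by exact_mod_cast hBc
  have hlt : B.card < F.card := by
    have : (B.card : ℝ) < (F.card : ℝ) := by linarith
    exact_mod_cast this
  obtain ⟨x0, hx0F, hx0B⟩ := exists_mem_notMem_of_card_lt_card hlt
  rw [hF, mem_filter] at hx0F
  obtain ⟨hx1, hx2, hx3, hx4, hx5, hx6, hx7⟩ := hx0F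
  rw [hB, mem_union, mem_union, mem_union, not_or, not_or, not_or] at hx0B
  obtain ⟨hb0, hb1, hb2, hb3⟩ := hx0B
  refine ⟨x0, hx1, hb0, ?_, ?_, ?_⟩
  · intro j
    fin_cases j
    · exact hx2
    · exact hx3
    · exact hx4
  · intro j
    fin_cases j
    · exact fun h1 => hb1 (ad_mem_B h1)
    · exact fun h1 => hb2 (ad_mem_B h1)
    · exact fun h1 => hb3 (ad_mem_B h1)
  · intro i j hij
    fin_cases i <;> fin_cases j
    · rfl
    · exact absurd hij hx5
    · exact absurd hij hx6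
    · exact absurd hij.symm hx5
    · rfl
    · exact absurd hij hx7
    · exact absurd hij.symm hx6
    · exact absurd hij.symm hx7
    · rfl

theorem def_all {P : Par} (h : P.Ok) {ZP DP LAM2 R1 : Finset ℤ} {c : ℝ}
    (hS : Sup P LAM2 R1 (70, 230) c) (hZ : ZP ⊆ zall P.n) {Ps : Finset (Pack P)}
    (hF : PFam P ZP DP Ps) {FL FD : Finset ℤ} (Q : Finset (Pack P)) (hQ : Q ⊆ Ps)
    (hc : (FL.card : ℝ) + 6 * FD.card + 20 * Q.card + 10 ≤ c * P.n) :
    ∃ x : Pack P → ℤ, (∀ p ∈ Q, x p ∈ LAM2 \ FL) ∧ (∀ p ∈ Q, ∀ p' ∈ Q, x p = x p' → p = p') ∧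
      DS Q x ⊆ R1 \ FD ∧ (DS Q x).card = 3 * Q.card := by
  induction Q using Finset.induction_on with
  | empty =>
    refine ⟨fun _ => 0, by simp, by simp, ?_, ?_⟩
    · unfold DS
      simp
    · unfold DS
      simp
  | insert p Q hpQ ih =>
    have hcard : (insert p Q).card = Q.card + 1 := card_insert_of_notMem hpQ
    have hQ' : Q ⊆ Ps := (subset_insert p Q).trans hQ
    have hp : p ∈ Ps := hQ (mem_insert_self p Q)
    rw [hcard] at hc ⊢
    push_cast at hc
    have hQ0 : (0 : ℝ) ≤ (Q.card : ℝ) := Nat.cast_nonneg _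
    obtain ⟨x, h1, h2, h3, h4⟩ := ih hQ' (by linarith)
    have hX : ((FL ∪ Q.image x).card : ℝ) ≤ (FL.card : ℝ) + Q.card := by
      exact_mod_cast (card_union_le _ _).trans (Nat.add_le_add_left card_image_le _)
    have hE : ((FD ∪ DS Q x).card : ℝ) ≤ (FD.card : ℝ) + 3 * Q.card := by
      have := card_union_le FD (DS Q x)
      rw [h4] at this
      exact_mod_cast this
    obtain ⟨x0, g1, g2, g3, g4, g5⟩ := ad_step h hS hZ (hF.ok p hp) (X := FL ∪ Q.image x)
      (E := FD ∪ DS Q x) (by linarith)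
    have hx : ∀ p' ∈ Q, (if p' = p then x0 else x p') = x p' := by
      intro p' hp'
      rw [if_neg]
      rintro rfl
      exact hpQ hp'
    have hDS : DS (insert p Q) (fun p' => if p' = p then x0 else x p') =
        DS Q x ∪ (univ : Finset (Fin 3)).image (pd3 p x0) := by
      ext t
      rw [ad_mem_DS, mem_union, ad_mem_DS, mem_image]
      constructor
      · rintro ⟨p', hp', j, rfl⟩
        rcases mem_insert.1 hp' with rfl | hp'
        · exact Or.inr ⟨j, mem_univ _, by rw [if_pos rfl]⟩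
        · exact Or.inl ⟨p', hp', j, by rw [hx p' hp']⟩
      · rintro (⟨p', hp', j, rfl⟩ | ⟨j, _, rfl⟩)
        · exact ⟨p', mem_insert_of_mem hp', j, by rw [hx p' hp']⟩
        · exact ⟨p, mem_insert_self p Q, j, by rw [if_pos rfl]⟩
    refine ⟨fun p' => if p' = p then x0 else x p', ?_, ?_, ?_, ?_⟩
    · intro p' hp'
      rcases mem_insert.1 hp' with rfl | hp'
      · show (if p' = p' then x0 else x p') ∈ _
        rw [if_pos rfl, mem_sdiff]
        exact ⟨g1, fun h5 => g2 (mem_union_left _ h5)⟩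
      · show (if p' = p then x0 else x p') ∈ _
        rw [hx p' hp']
        exact h1 p' hp'
    · intro p' hp' p'' hp'' he
      have he' : (if p' = p then x0 else x p') = (if p'' = p then x0 else x p'') := he
      rcases mem_insert.1 hp' with e1 | hp'
      · rcases mem_insert.1 hp'' with e2 | hp''
        · rw [e1, e2]
        · rw [if_pos e1, hx p'' hp''] at he'
          exact absurd (mem_union_right _ (mem_image.2 ⟨p'', hp'', he'.symm⟩)) g2
      · rcases mem_insert.1 hp'' with e2 | hp''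
        · rw [if_pos e2, hx p' hp'] at he'
          exact absurd (mem_union_right _ (mem_image.2 ⟨p', hp', he'⟩)) g2
        · rw [hx p' hp', hx p'' hp''] at he'
          exact h2 p' hp' p'' hp'' he'
    · rw [hDS]
      refine union_subset h3 ?_
      intro t ht
      obtain ⟨j, _, rfl⟩ := mem_image.1 ht
      exact mem_sdiff.2 ⟨g3 j, fun h5 => g4 j (mem_union_left _ h5)⟩
    · rw [hDS, card_union_of_disjoint, h4, card_image_of_injective _ g5, card_univ,
        Fintype.card_fin]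
      · ring
      · rw [disjoint_left]
        intro t ht1 ht2
        obtain ⟨j, _, rfl⟩ := mem_image.1 ht2
        exact g4 j (mem_union_right _ ht1)

end Pool.Agent.PGo.A
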