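import Pool.Agent.PGo.AFam
import Pool.Agent.PGo.AUn

/-!
# PGo-APk: from a labelled family of packs to a family of labelled cycles

PLAN. The bases of different packs have different residues (`PFam.res`), so `Ps.image (fun p => p.m)` has `|Ps|`
elements and for `m` in it there is exactly one `p ∈ Ps` with `p.m = m`; put `X m := p.full (x p)` for this `p`
(`choose`/`if h : ∃ p ∈ Ps, p.m = m then ...`). For `i ∈ ix (pv L)`: `df p.m (p.full (x p)) i = df p.m p.y i` (neither `i.2` nor, for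
edges, `nxt i.2` is the vertex `0`). The remaining indices are `(true, 0)`, `(false, 0)`, `(false, L - 1)` (`i ∉ ix (pv L)`), with the
values `|x - anc m| = pd3 0` (`vx_zero`, `p.m < n`), `|x - lb p.y 1| = pd3 1` (`nxt 0 = 1`), `|lb p.y (L - 1) - x| = pd3 2`
(`nxt (L - 1) = 0`, `abs_sub_comm`). `(DS Ps x).card = 3 |Ps|` means that `(p, j) ↦ pd3 p (x p) j` is injective on
`Ps × Fin 3` (`card_image_iff`). So all differences are different: planted against planted by `PLab.difi` and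
`PFam.dif`, planted against active by `hD`, active against active by injectivity. Labels: the same with `PLab.labi`,
`PFam.lab`, `hx`, `hinj`.
-/

noncomputable section

namespace Pool.Agent.PGo.A

open Finset Pool.Agent.PGr Pool.Agent.PGo.R

variable {P : Par}

/-- the planted labels of the packs -/
def plL (Ps : Finset (Pack P)) : Finset ℤ := Ps.biUnion (fun p => (pv P.L).image p.y)

/-- the planted differences of the packs -/
def plD (Ps : Finset (Pack P)) : Finset ℤ := Ps.biUnion (fun p => p.pD)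

/-- the number of the active difference of the index -/
private def kap {L : ℕ} (i : Bool × Fin L) : Fin 3 :=
  if i.1 then 0 else if i.2.1 = 0 then 1 else 2

private theorem out_cases {L : ℕ} (i : Bool × Fin L) (hi : i ∉ ix (pv L)) :
    (i.1 = true ∧ i.2.1 = 0) ∨ (i.1 = false ∧ i.2.1 = 0) ∨
      (i.1 = false ∧ i.2.1 ≠ 0 ∧ i.2.1 + 1 = L) := by
  obtain ⟨b, j⟩ := i
  rw [mem_ix, mem_pv] at hi
  simp only at hi ⊢
  by_cases h0 : j.1 = 0
  · cases b
    · exact Or.inr (Or.inl ⟨rfl, h0⟩)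
    · exact Or.inl ⟨rfl, h0⟩
  · cases b
    · right
      right
      refine ⟨rfl, h0, ?_⟩
      by_contra hL
      apply hi
      refine ⟨h0, fun _ => ?_⟩
      rw [mem_pv, nxt_val, if_neg hL]
      omega
    · exfalso
      apply hi
      exact ⟨h0, fun h => absurd h (by simp)⟩

private theorem kap_inj {L : ℕ} {i i' : Bool × Fin L} (hi : i ∉ ix (pv L)) (hi' : i' ∉ ix (pv L))
    (h : kap i = kap i') : i = i' := by
  have h1 := out_cases i hi
  have h2 := out_cases i' hi'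
  unfold kap at h
  obtain ⟨b, j⟩ := i
  obtain ⟨b', j'⟩ := i'
  simp only at h h1 h2
  rcases h1 with ⟨rfl, h1⟩ | ⟨rfl, h1⟩ | ⟨rfl, h1, h1'⟩ <;>
  rcases h2 with ⟨rfl, h2⟩ | ⟨rfl, h2⟩ | ⟨rfl, h2, h2'⟩
  · rw [Fin.ext (h1.trans h2.symm)]
  · simp [h2] at h
  · simp [h2] at h
  · simp [h1] at h
  · rw [Fin.ext (h1.trans h2.symm)]
  · simp [h1, h2] at h
  · simp [h1] at h
  · simp [h1, h2] at h
  · rw [show j = j' from Fin.ext (by omega)]

private theorem full_zero (p : Pack P) (x : ℤ) {j : Fin P.L} (hj : j.1 = 0) : p.full x j = x := by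
  unfold Pack.full
  rw [if_pos hj]

private theorem full_ne (p : Pack P) (x : ℤ) {j : Fin P.L} (hj : j.1 ≠ 0) : p.full x j = p.y j := by
  unfold Pack.full
  rw [if_neg hj]

private theorem val_pl (p : Pack P) (x : ℤ) {i : Bool × Fin P.L} (hi : i ∈ ix (pv P.L)) :
    P.df p.m (p.full x) i = P.df p.m p.y i := by
  obtain ⟨b, j⟩ := i
  rw [mem_ix, mem_pv] at hi
  obtain ⟨h1, h2⟩ := hi
  cases b
  · have h3 := h2 rfl
    rw [mem_pv] at h3
    rw [Par.df_false, Par.df_false, full_ne p x h1, full_ne p x h3]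
  · rw [Par.df_true, Par.df_true, full_ne p x h1]

private theorem val_ac (h : P.Ok) (p : Pack P) (hm : p.m < P.n) (x : ℤ) {i : Bool × Fin P.L}
    (hi : i ∉ ix (pv P.L)) : P.df p.m (p.full x) i = pd3 p x (kap i) := by
  have hL := h.adm.three
  have h1 := out_cases i hi
  obtain ⟨b, j⟩ := i
  simp only at h1
  unfold kap
  rcases h1 with ⟨rfl, h1⟩ | ⟨rfl, h1⟩ | ⟨rfl, h1, h1'⟩
  · rw [Par.df_true, full_zero p x h1, h1, Par.vx_zero hm]
    rfl
  · have h2 : (nxt j).1 = 1 := by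
      rw [nxt_val, if_neg (by omega), h1]
    rw [Par.df_false, full_zero p x h1, full_ne p x (by omega)]
    simp only [Bool.false_eq_true, if_false, h1, if_true]
    show |x - p.y (nxt j)| = |x - lb p.y 1|
    rw [← h2, lb_eq]
  · have h2 : (nxt j).1 = 0 := by
      rw [nxt_val, if_pos h1']
    have h3 : P.L - 1 = j.1 := by omega
    rw [Par.df_false, full_ne p x h1, full_zero p x h2]
    simp only [Bool.false_eq_true, if_false, h1]
    show |p.y j - x| = |x - lb p.y (P.L - 1)|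
    rw [h3, lb_eq, abs_sub_comm]

theorem fam_packs (h : P.Ok) {ZP DP : Finset ℤ} {Ps : Finset (Pack P)} (hF : PFam P ZP DP Ps)
    (x : Pack P → ℤ) (hx : Disjoint (Ps.image x) (plL Ps))
    (hinj : ∀ p ∈ Ps, ∀ p' ∈ Ps, x p = x p' → p = p') (hD : Disjoint (DS Ps x) (plD Ps))
    (hc : (DS Ps x).card = 3 * Ps.card) :
    (Ps.image (fun p => p.m)).card = Ps.card ∧ ∃ X : ℕ → Fin P.L → ℤ,
      P.Fam (plL Ps ∪ Ps.image x) (plD Ps ∪ DS Ps x) (Ps.image (fun p => p.m)) X := by
  classical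
  have hmi : ∀ p ∈ Ps, ∀ p' ∈ Ps, p.m = p'.m → p = p' := fun p hp p' hp' e =>
    hF.res p hp p' hp' (by rw [e])
  -- injectivity of the active differences
  have hact : Set.InjOn (fun u : Pack P × Fin 3 => pd3 u.1 (x u.1) u.2)
      ((Ps ×ˢ (univ : Finset (Fin 3)) : Finset (Pack P × Fin 3)) : Set (Pack P × Fin 3)) := by
    apply card_image_iff.1
    rw [card_product, card_univ, Fintype.card_fin, mul_comm]
    exact hc
  -- labels
  have hplL : ∀ p ∈ Ps, ∀ j : Fin P.L, j.1 ≠ 0 → p.y j ∈ plL Ps := fun p hp j hj =>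
    mem_biUnion.2 ⟨p, hp, mem_image.2 ⟨j, mem_pv.2 hj, rfl⟩⟩
  have hplLab : ∀ p : Pack P, ∀ j : Fin P.L, j.1 ≠ 0 → p.y j ∈ p.Lab := fun p j hj =>
    mem_union.2 (Or.inl (mem_image.2 ⟨j, mem_pv.2 hj, rfl⟩))
  have hpD : ∀ p : Pack P, ∀ i ∈ ix (pv P.L), P.df p.m p.y i ∈ p.pD := fun p i hi =>
    mem_image.2 ⟨i, hi, rfl⟩
  have hpD2 : ∀ p ∈ Ps, ∀ i ∈ ix (pv P.L), P.df p.m p.y i ∈ plD Ps := fun p hp i hi =>
    mem_biUnion.2 ⟨p, hp, hpD p i hi⟩
  have hDS : ∀ p ∈ Ps, ∀ k : Fin 3, pd3 p (x p) k ∈ DS Ps x := fun p hp k =>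
    mem_image.2 ⟨(p, k), mem_product.2 ⟨hp, mem_univ _⟩, rfl⟩
  have hlabm : ∀ p ∈ Ps, ∀ j, p.full (x p) j ∈ plL Ps ∪ Ps.image x := by
    intro p hp j
    rw [mem_union]
    by_cases hj : j.1 = 0
    · rw [full_zero p _ hj]
      exact Or.inr (mem_image_of_mem x hp)
    · rw [full_ne p _ hj]
      exact Or.inl (hplL p hp j hj)
  have hlabi : ∀ p ∈ Ps, ∀ p' ∈ Ps, ∀ j j', p.full (x p) j = p'.full (x p') j' →
      p = p' ∧ j = j' := by
    intro p hp p' hp' j j' he
    by_cases hj : j.1 = 0 <;> by_cases hj' : j'.1 = 0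
    · rw [full_zero p _ hj, full_zero p' _ hj'] at he
      exact ⟨hinj p hp p' hp' he, Fin.ext (hj.trans hj'.symm)⟩
    · rw [full_zero p _ hj, full_ne p' _ hj'] at he
      exact absurd (hplL p' hp' j' hj')
        (disjoint_left.1 hx (by rw [← he]; exact mem_image_of_mem x hp))
    · rw [full_ne p _ hj, full_zero p' _ hj'] at he
      exact absurd (hplL p hp j hj)
        (disjoint_left.1 hx (by rw [he]; exact mem_image_of_mem x hp'))
    · rw [full_ne p _ hj, full_ne p' _ hj'] at he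
      have hpp : p = p' := by
        by_contra hne
        exact disjoint_left.1 (hF.lab p hp p' hp' hne) (hplLab p j hj)
          (by rw [he]; exact hplLab p' j' hj')
      subst hpp
      exact ⟨rfl, (hF.ok p hp).pl.labi j (mem_pv.2 hj) j' (mem_pv.2 hj') he⟩
  have hdifm : ∀ p ∈ Ps, ∀ i, P.df p.m (p.full (x p)) i ∈ plD Ps ∪ DS Ps x := by
    intro p hp i
    rw [mem_union]
    by_cases hi : i ∈ ix (pv P.L)
    · rw [val_pl p _ hi]
      exact Or.inl (hpD2 p hp i hi)
    · rw [val_ac h p (hF.ok p hp).lt _ hi]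
      exact Or.inr (hDS p hp _)
  have hdifi : ∀ p ∈ Ps, ∀ p' ∈ Ps, ∀ i i',
      P.df p.m (p.full (x p)) i = P.df p'.m (p'.full (x p')) i' → p = p' ∧ i = i' := by
    intro p hp p' hp' i i' he
    by_cases hi : i ∈ ix (pv P.L) <;> by_cases hi' : i' ∈ ix (pv P.L)
    · rw [val_pl p _ hi, val_pl p' _ hi'] at he
      have hpp : p = p' := by
        by_contra hne
        exact disjoint_left.1 (hF.dif p hp p' hp' hne) (mem_union.2 (Or.inl (hpD p i hi)))
          (by rw [he]; exact mem_union.2 (Or.inl (hpD p' i' hi')))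
      subst hpp
      exact ⟨rfl, (hF.ok p hp).pl.difi i hi i' hi' he⟩
    · rw [val_pl p _ hi, val_ac h p' (hF.ok p' hp').lt _ hi'] at he
      exact absurd (hpD2 p hp i hi) (disjoint_left.1 hD (by rw [he]; exact hDS p' hp' _))
    · rw [val_ac h p (hF.ok p hp).lt _ hi, val_pl p' _ hi'] at he
      exact absurd (hpD2 p' hp' i' hi') (disjoint_left.1 hD (by rw [← he]; exact hDS p hp _))
    · rw [val_ac h p (hF.ok p hp).lt _ hi, val_ac h p' (hF.ok p' hp').lt _ hi'] at he
      have h5 : ((p, kap i) : Pack P × Fin 3) = (p', kap i') :=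
        hact (mem_coe.2 (mem_product.2 ⟨hp, mem_univ _⟩))
          (mem_coe.2 (mem_product.2 ⟨hp', mem_univ _⟩)) he
      exact ⟨(Prod.ext_iff.1 h5).1, kap_inj hi hi' (Prod.ext_iff.1 h5).2⟩
  refine ⟨card_image_of_injOn fun p hp p' hp' e =>
    hmi p (mem_coe.1 hp) p' (mem_coe.1 hp') e, ?_⟩
  -- the labelling
  let X : ℕ → Fin P.L → ℤ := fun m =>
    if hm : ∃ p ∈ Ps, p.m = m then hm.choose.full (x hm.choose) else fun _ => 0
  have hX : ∀ p ∈ Ps, X p.m = p.full (x p) := by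
    intro p hp
    have hm : ∃ p' ∈ Ps, p'.m = p.m := ⟨p, hp, rfl⟩
    have h1 : X p.m = hm.choose.full (x hm.choose) := dif_pos hm
    have h2 : hm.choose = p := hmi _ hm.choose_spec.1 p hp hm.choose_spec.2
    rw [h1, h2]
  refine ⟨X, ?_, ?_, ?_, ?_, ?_⟩
  · intro m hm
    obtain ⟨p, hp, rfl⟩ := mem_image.1 hm
    exact (hF.ok p hp).lt
  · intro m hm m' hm' e
    obtain ⟨p, hp, rfl⟩ := mem_image.1 hm
    obtain ⟨p', hp', rfl⟩ := mem_image.1 hm'
    rw [hF.res p hp p' hp' e]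
  · intro m hm
    obtain ⟨p, hp, rfl⟩ := mem_image.1 hm
    show P.OkC _ _ p.m (X p.m)
    rw [hX p hp]
    exact ⟨hlabm p hp, fun j j' e => (hlabi p hp p hp j j' e).2, hdifm p hp,
      fun i i' e => (hdifi p hp p hp i i' e).2⟩
  · intro m hm m' hm' hne j j' e
    obtain ⟨p, hp, rfl⟩ := mem_image.1 hm
    obtain ⟨p', hp', rfl⟩ := mem_image.1 hm'
    have e' : X p.m j = X p'.m j' := e
    rw [hX p hp, hX p' hp'] at e'
    apply hne
    rw [(hlabi p hp p' hp' j j' e').1]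
  · intro m hm m' hm' hne i i' e
    obtain ⟨p, hp, rfl⟩ := mem_image.1 hm
    obtain ⟨p', hp', rfl⟩ := mem_image.1 hm'
    have e' : P.df p.m (X p.m) i = P.df p'.m (X p'.m) i' := e
    rw [hX p hp, hX p' hp'] at e'
    apply hne
    rw [(hdifi p hp p' hp' i i' e').1]

end Pool.Agent.PGo.A
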