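import Pool.Agent.PGo.APlan
import Pool.Agent.PGo.ACm
import Pool.Agent.PGo.ACyc
import Pool.Agent.PGo.ADef
import Pool.Agent.PGo.APk
import Pool.Agent.PGo.ACnt

/-!
# PGo part A: the completion (`PlanComp`)
-/

noncomputable section

namespace Pool.Agent.PGo.A

open Finset Pool.Agent.PGr Pool.Agent.PGo.R

private theorem DS_union' {P : Par} (Ps Qs : Finset (Pack P)) (z : Pack P → ℤ) :
    DS (Ps ∪ Qs) z = DS Ps z ∪ DS Qs z := by
  unfold DS
  rw [union_product, image_union]

private theorem DS_congr' {P : Par} {Ps : Finset (Pack P)} {z z' : Pack P → ℤ}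
    (h : ∀ p ∈ Ps, z p = z' p) : DS Ps z = DS Ps z' := by
  unfold DS
  refine image_congr ?_
  intro u hu
  have hu' := (mem_product.1 (mem_coe.1 hu)).1
  simp only [h u.1 hu']

private theorem plL_sub_UL {P : Par} (Ps : Finset (Pack P)) : plL Ps ⊆ UL Ps := by
  intro a ha
  unfold plL at ha
  obtain ⟨q, hq, ha⟩ := mem_biUnion.1 ha
  exact mem_UL.2 ⟨q, hq, mem_union_left _ ha⟩

private theorem plD_sub_UD {P : Par} (Ps : Finset (Pack P)) : plD Ps ⊆ UD Ps := by
  intro a ha
  unfold plD at ha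
  obtain ⟨q, hq, ha⟩ := mem_biUnion.1 ha
  exact mem_UD.2 ⟨q, hq, mem_union_left _ ha⟩

private theorem UD_mono' {P : Par} {Ps Qs : Finset (Pack P)} (h : Ps ⊆ Qs) : UD Ps ⊆ UD Qs := by
  intro a ha
  obtain ⟨q, hq, ha⟩ := mem_UD.1 ha
  exact mem_UD.2 ⟨q, h hq, ha⟩

private theorem pGG_sub_UD {P : Par} (Ps : Finset (Pack P)) : pGG Ps ⊆ UD Ps := by
  intro a ha
  obtain ⟨q, hq, ha⟩ := mem_pGG.1 ha
  exact mem_UD.2 ⟨q, hq, mem_union_right _ ha⟩

/-- the private differences are not planted -/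
private theorem pGG_plD {P : Par} {ZP DP : Finset ℤ} {Ps Qs : Finset (Pack P)}
    (h : PFam P ZP DP Ps) (hQ : Qs ⊆ Ps) : Disjoint (pGG Qs) (plD Ps) := by
  rw [disjoint_left]
  intro a ha hb
  obtain ⟨q, hq, ha⟩ := mem_pGG.1 ha
  unfold plD at hb
  obtain ⟨r, hr, hb⟩ := mem_biUnion.1 hb
  by_cases he : q = r
  · subst he
    exact disjoint_left.1 (pD_G (h.ok q hr)) hb ha
  · exact disjoint_left.1 (h.dif q (hQ hq) r hr he) (mem_union_right _ ha) (mem_union_left _ hb)

theorem comp_core {P : Par} (h : P.Ok) (hn : 30 ≤ P.n) {κ cD cC : ℝ} {m : ℕ}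
    {LAM1 LAM2 : Finset ℤ} {PR PA : Finset (Pack P)} {R1 X : Finset ℤ}
    (hPl : Plan P κ cD cC m LAM1 LAM2 PR PA R1 X) {J : Finset ℕ} {Y : ℕ → Fin P.L → ℤ}
    (hJ : J ⊆ mainI P (PR ∪ PA))
    (hF : P.Fam (mainZ P LAM1 LAM2 (PR ∪ PA)) (mainD P (PR ∪ PA) R1 X) J Y)
    (hcnt : 2 * P.L * (mainI P (PR ∪ PA)).card = (mainD P (PR ∪ PA) R1 X).card)
    (h1 : 10 * ((2 * P.L * (mainI P (PR ∪ PA) \ J).card : ℕ) : ℝ) + 10 ≤ cC * P.n)
    (h2 : 6 * ((4 * P.L * (mainI P (PR ∪ PA) \ J).card : ℕ) : ℝ) +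
      13 * P.L * (mainI P (PR ∪ PA) \ J).card + 20 * P.L + 10 ≤ cD * P.n)
    (h3 : ((P.L * (mainI P (PR ∪ PA) \ J).card : ℕ) : ℝ) +
      6 * ((6 * P.L * (mainI P (PR ∪ PA) \ J).card : ℕ) : ℝ) + 20 * PR.card + 10 ≤ cD * P.n) :
    ∃ (J' : Finset ℕ) (Y' : ℕ → Fin P.L → ℤ), J'.card = P.g ∧
      P.Fam (zall P.n) (dall P.n) J' Y' := by
  classical
  obtain ⟨Ps, hPs⟩ : ∃ Ps, Ps = PR ∪ PA := ⟨_, rfl⟩
  have hfam := hPl.fam
  rw [← hPs] at hfam hJ hF hcnt h1 h2 h3
  obtain ⟨I, hI⟩ : ∃ I, I = mainI P Ps := ⟨_, rfl⟩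
  obtain ⟨D0, hD0⟩ : ∃ D0, D0 = mainD P Ps R1 X := ⟨_, rfl⟩
  rw [← hI] at hJ hcnt h1 h2 h3
  rw [← hD0] at hF hcnt
  obtain ⟨I', hI'⟩ : ∃ I', I' = I \ J := ⟨_, rfl⟩
  rw [← hI'] at h1 h2 h3
  have hI'c : I'.card + J.card = I.card := by
    rw [hI', card_sdiff_add_card_eq_card hJ]
  -- the unused differences
  obtain ⟨D', hD'⟩ : ∃ D', D' = D0 \ usedD P J Y := ⟨_, rfl⟩
  have hD'c : D'.card = 2 * P.L * I'.card := by
    have e1 : D'.card + (usedD P J Y).card = D0.card := by
      rw [hD', card_sdiff_add_card_eq_card (usedD_sub hF)]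
    rw [usedD_card hF, ← hcnt, ← hI'c] at e1
    have e2 : 2 * P.L * (I'.card + J.card) = 2 * P.L * I'.card + 2 * P.L * J.card := by ring
    omega
  have hD0m : ∀ d ∈ D0, d ∈ dall P.n ∧ d ∉ UD Ps ∧ d ∉ X ∧ d ∉ R1 := by
    intro d hd
    rw [hD0] at hd
    unfold mainD at hd
    rw [mem_sdiff, mem_union, mem_union] at hd
    push Not at hd
    exact ⟨hd.1, hd.2.1.1, hd.2.1.2, hd.2.2⟩
  have hD'm : ∀ d ∈ D', d ∈ dall P.n ∧ d ∉ UD Ps ∧ d ∉ X ∧ d ∉ R1 := by
    intro d hd
    rw [hD'] at hd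
    exact hD0m d (mem_sdiff.1 hd).1
  -- covers
  obtain ⟨M, x1, U, hM, hMc, hx1, hx1i, hU, hUc, hDS1⟩ := cover_all (LAM1 := LAM1) (R1 := R1)
    (PR := PR) (K := cC * P.n) D' (fun d hd => hPl.cover d (hD'm d hd).1 (fun hc =>
      (hD'm d hd).2.1 (UD_mono' (by rw [hPs]; exact subset_union_left) hc)))
    (by rw [hD'c]; exact h1)
  rw [hD'c] at hMc hUc
  -- the remaining cycles
  have hI'r : I' ⊆ range P.g := by
    rw [hI', hI]
    exact sdiff_subset.trans sdiff_subset
  obtain ⟨X2, hF2⟩ := cyc_all h hn hPl.deflt (by norm_num) (by norm_num) hPl.l2w hPl.l2 (FL := ∅)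
    (FD := U) I' hI'r (by
      rw [hUc, card_empty]
      have e : ((2 * (2 * P.L * I'.card) : ℕ) : ℝ) = ((4 * P.L * I'.card : ℕ) : ℝ) := by
        congr 1; ring
      rw [e]
      push_cast at h2 ⊢
      linarith)
  -- default labels
  have hQs : PR \ M ⊆ Ps := by
    rw [hPs]
    exact sdiff_subset.trans subset_union_left
  have hQc : (PR \ M).card + M.card = PR.card := card_sdiff_add_card_eq_card hM
  have hu2c := usedD_card hF2
  have hu2s := usedD_sub hF2
  have hU2d : Disjoint U (usedD P I' X2) := by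
    rw [disjoint_left]
    intro a ha hb
    exact (mem_sdiff.1 (hu2s hb)).2 ha
  obtain ⟨x3, hx3, hx3i, hDS3, hDS3c⟩ := def_all h hPl.deflt sdiff_subset hfam
    (FL := usedL P I' X2) (FD := U ∪ usedD P I' X2) (PR \ M) hQs (by
      rw [usedL_card hF2, card_union_of_disjoint hU2d, hUc, hu2c]
      have e : ((2 * (2 * P.L * I'.card) + 2 * P.L * I'.card : ℕ) : ℝ) =
          ((6 * P.L * I'.card : ℕ) : ℝ) := by
        congr 1; ring
      rw [e]
      have e3 : ((PR \ M).card : ℝ) ≤ PR.card := by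
        have : (PR \ M).card ≤ PR.card := card_le_card sdiff_subset
        exact_mod_cast this
      linarith)
  -- absorption
  obtain ⟨R', hR'⟩ : ∃ R', R' = R1 \ (U ∪ usedD P I' X2 ∪ DS (PR \ M) x3) := ⟨_, rfl⟩
  have hU3d : Disjoint (U ∪ usedD P I' X2) (DS (PR \ M) x3) := by
    rw [disjoint_left]
    intro a ha hb
    exact (mem_sdiff.1 (hDS3 hb)).2 ha
  have hsubR : U ∪ usedD P I' X2 ∪ DS (PR \ M) x3 ⊆ R1 := by
    refine union_subset (union_subset hU (hu2s.trans sdiff_subset)) (hDS3.trans sdiff_subset)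
  have hR'c : R'.card = m := by
    have e1 : R'.card + (U ∪ usedD P I' X2 ∪ DS (PR \ M) x3).card = R1.card := by
      rw [hR', card_sdiff_add_card_eq_card hsubR]
    rw [card_union_of_disjoint hU3d, card_union_of_disjoint hU2d, hUc, hu2c, hDS3c,
      hPl.cnt2] at e1
    have e2 : (PR \ M).card + 2 * P.L * I'.card = PR.card := by rw [← hMc]; exact hQc
    omega
  obtain ⟨z, hz, hDSz, hDSzc⟩ := hPl.absorb R' (by rw [hR']; exact sdiff_subset) hR'c
  -- the labels of the active vertices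
  obtain ⟨x, hx⟩ : ∃ x : Pack P → ℤ,
      x = fun q => if q ∈ PA then z q else if q ∈ M then x1 q else x3 q := ⟨_, rfl⟩
  have hMA : ∀ q ∈ M, q ∉ PA := fun q hq hq' => disjoint_left.1 hPl.dj (hM hq) hq'
  have hxA : ∀ q ∈ PA, x q = z q := by
    intro q hq
    rw [hx]
    simp only
    rw [if_pos hq]
  have hxM : ∀ q ∈ M, x q = x1 q := by
    intro q hq
    rw [hx]
    simp only
    rw [if_neg (hMA q hq), if_pos hq]
  have hxQ : ∀ q ∈ PR \ M, x q = x3 q := by
    intro q hq
    rw [mem_sdiff] at hq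
    rw [hx]
    simp only
    rw [if_neg (disjoint_left.1 hPl.dj hq.1), if_neg hq.2]
  have hPs' : Ps = M ∪ (PR \ M) ∪ PA := by
    rw [hPs, union_sdiff_of_subset hM]
  have hDSx : DS Ps x = (D' ∪ U) ∪ DS (PR \ M) x3 ∪ (pGG PA ∪ X ∪ R') := by
    rw [hPs', DS_union', DS_union', DS_congr' hxM, DS_congr' hxQ, DS_congr' hxA, hDS1, hDSz]
  -- case analysis of the packs
  have hcase : ∀ q ∈ Ps, q ∈ M ∨ q ∈ PR \ M ∨ q ∈ PA := by
    intro q hq
    rw [hPs', mem_union, mem_union] at hq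
    tauto
  have hZP : ∀ q ∈ Ps, q.Lab ⊆ zall P.n \ (LAM1 ∪ LAM2) := fun q hq => Lab_sub (hfam.ok q hq)
  have hJL : ∀ q ∈ PA, z q ∈ q.Lab := fun q hq => mem_union_right _ (hz q hq)
  have hAs : PA ⊆ Ps := by rw [hPs]; exact subset_union_right
  have hRs : PR ⊆ Ps := by rw [hPs]; exact subset_union_left
  -- the active labels are not planted
  have hxpl : Disjoint (Ps.image x) (plL Ps) := by
    rw [disjoint_left]
    intro a ha hb
    obtain ⟨q, hq, rfl⟩ := mem_image.1 ha
    have hb' := plL_sub_UL Ps hb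
    obtain ⟨r, hr, hb2⟩ := mem_UL.1 hb'
    have hb3 := mem_sdiff.1 (hZP r hr hb2)
    rcases hcase q hq with hq' | hq' | hq'
    · rw [hxM q hq'] at hb3
      exact hb3.2 (mem_union_left _ (hx1 q hq'))
    · rw [hxQ q hq'] at hb3
      exact hb3.2 (mem_union_right _ (mem_sdiff.1 (hx3 q hq')).1)
    · rw [hxA q hq'] at hb
      unfold plL at hb
      obtain ⟨r, hr, hb⟩ := mem_biUnion.1 hb
      by_cases he : q = r
      · subst he
        obtain ⟨j, hj, hb⟩ := mem_image.1 hb
        have := (hfam.ok q hr).yJ j hj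
        rw [hb] at this
        exact this (hz q hq')
      · exact disjoint_left.1 (hfam.lab q hq r hr he) (hJL q hq') (mem_union_left _ hb)
  have hLM : ∀ q ∈ M, x q ∈ LAM1 := fun q hq => by rw [hxM q hq]; exact hx1 q hq
  have hLQ : ∀ q ∈ PR \ M, x q ∈ LAM2 \ usedL P I' X2 := fun q hq => by
    rw [hxQ q hq]; exact hx3 q hq
  have hLA : ∀ q ∈ PA, x q ∈ zall P.n \ (LAM1 ∪ LAM2) := fun q hq => by
    rw [hxA q hq]; exact hZP q (hAs hq) (hJL q hq)
  have hxinj : ∀ q ∈ Ps, ∀ q' ∈ Ps, x q = x q' → q = q' := by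
    intro q hq q' hq' he
    have n12 : ∀ a ∈ LAM1, a ∉ LAM2 := fun a ha hb => disjoint_left.1 hPl.l12 ha hb
    rcases hcase q hq with c1 | c1 | c1 <;> rcases hcase q' hq' with c2 | c2 | c2
    · rw [hxM q c1, hxM q' c2] at he
      exact hx1i q c1 q' c2 he
    · have a1 := hLM q c1
      have a2 := (mem_sdiff.1 (hLQ q' c2)).1
      rw [he] at a1
      exact absurd a2 (n12 _ a1)
    · have a1 := hLM q c1
      have a2 := (mem_sdiff.1 (hLA q' c2)).2
      rw [he] at a1
      exact absurd (mem_union_left _ a1) a2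
    · have a1 := (mem_sdiff.1 (hLQ q c1)).1
      have a2 := hLM q' c2
      rw [he] at a1
      exact absurd a1 (n12 _ a2)
    · rw [hxQ q c1, hxQ q' c2] at he
      exact hx3i q c1 q' c2 he
    · have a1 := (mem_sdiff.1 (hLQ q c1)).1
      have a2 := (mem_sdiff.1 (hLA q' c2)).2
      rw [he] at a1
      exact absurd (mem_union_right _ a1) a2
    · have a1 := (mem_sdiff.1 (hLA q c1)).2
      have a2 := hLM q' c2
      rw [he] at a1
      exact absurd (mem_union_left _ a2) a1
    · have a1 := (mem_sdiff.1 (hLA q c1)).2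
      have a2 := (mem_sdiff.1 (hLQ q' c2)).1
      rw [he] at a1
      exact absurd (mem_union_right _ a2) a1
    · by_contra hne
      rw [hxA q c1, hxA q' c2] at he
      have := disjoint_left.1 (hfam.lab q hq q' hq' hne) (hJL q c1)
      rw [he] at this
      exact this (hJL q' c2)
  -- the active differences are not planted
  have hplDP : ∀ a ∈ plD Ps, a ∈ dall P.n \ (R1 ∪ X) := fun a ha => UD_sub hfam (plD_sub_UD Ps ha)
  have hR1pl : ∀ a ∈ R1, a ∉ plD Ps := fun a ha hb =>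
    (mem_sdiff.1 (hplDP a hb)).2 (mem_union_left _ ha)
  have hXpl : ∀ a ∈ X, a ∉ plD Ps := fun a ha hb =>
    (mem_sdiff.1 (hplDP a hb)).2 (mem_union_right _ ha)
  have hR'R : ∀ a ∈ R', a ∈ R1 := fun a ha => by
    rw [hR'] at ha; exact (mem_sdiff.1 ha).1
  have hDSpl : Disjoint (DS Ps x) (plD Ps) := by
    rw [hDSx, disjoint_left]
    intro a ha hb
    simp only [mem_union] at ha
    rcases ha with ((ha | ha) | ha) | ((ha | ha) | ha)
    · exact (hD'm a ha).2.1 (plD_sub_UD Ps hb)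
    · exact hR1pl a (hU ha) hb
    · exact hR1pl a (mem_sdiff.1 (hDS3 ha)).1 hb
    · exact disjoint_left.1 (pGG_plD hfam hAs) ha hb
    · exact hXpl a ha hb
    · exact hR1pl a (hR'R a ha) hb
  have hDSc : (DS Ps x).card = 3 * Ps.card := by
    have e1 : Disjoint D' U := by
      rw [disjoint_left]
      intro a ha hb
      exact (hD'm a ha).2.2.2 (hU hb)
    have e2 : Disjoint (D' ∪ U) (DS (PR \ M) x3) := by
      rw [disjoint_left]
      intro a ha hb
      have hb1 := mem_sdiff.1 (hDS3 hb)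
      rcases mem_union.1 ha with ha | ha
      · exact (hD'm a ha).2.2.2 hb1.1
      · exact hb1.2 (mem_union_left _ ha)
    have hG : ∀ a ∈ pGG PA, a ∈ UD Ps := fun a ha =>
      UD_mono' hAs (pGG_sub_UD PA ha)
    have hG1 : ∀ a ∈ pGG PA, a ∉ R1 := fun a ha hb =>
      (mem_sdiff.1 (UD_sub hfam (hG a ha))).2 (mem_union_left _ hb)
    have e3 : Disjoint (D' ∪ U ∪ DS (PR \ M) x3) (pGG PA ∪ X ∪ R') := by
      rw [disjoint_left]
      intro a ha hb
      have hR1a : a ∈ U ∪ DS (PR \ M) x3 → a ∈ R1 := by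
        intro hc
        rcases mem_union.1 hc with hc | hc
        · exact hU hc
        · exact (mem_sdiff.1 (hDS3 hc)).1
      have hXR : ∀ a ∈ X, a ∉ R1 := fun a ha hb => disjoint_left.1 hPl.XR ha hb
      simp only [mem_union] at ha hb
      rcases ha with (ha | ha) | ha
      · rcases hb with (hb | hb) | hb
        · exact (hD'm a ha).2.1 (hG a hb)
        · exact (hD'm a ha).2.2.1 hb
        · exact (hD'm a ha).2.2.2 (hR'R a hb)
      · have ha1 := hU ha
        rcases hb with (hb | hb) | hb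
        · exact hG1 a hb ha1
        · exact hXR a hb ha1
        · rw [hR', mem_sdiff] at hb
          exact hb.2 (mem_union_left _ (mem_union_left _ ha))
      · have ha1 := (mem_sdiff.1 (hDS3 ha)).1
        rcases hb with (hb | hb) | hb
        · exact hG1 a hb ha1
        · exact hXR a hb ha1
        · rw [hR', mem_sdiff] at hb
          exact hb.2 (mem_union_right _ ha)
    rw [hDSx, card_union_of_disjoint e3, card_union_of_disjoint e2, card_union_of_disjoint e1,
      hD'c, hUc, hDS3c, hDSzc]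
    have e4 : Ps.card = PR.card + PA.card := by rw [hPs, card_union_of_disjoint hPl.dj]
    have e5 : (PR \ M).card + 2 * P.L * I'.card = PR.card := by rw [← hMc]; exact hQc
    rw [e4]
    omega
  obtain ⟨hbc, X4, hF4⟩ := fam_packs h hfam x hxpl hxinj hDSpl hDSc
  -- unions
  have hF1' := fam_self hF
  have hF2' := fam_self hF2
  have huL1 := usedL_sub hF
  have huL2 := usedL_sub hF2
  have hD1s := usedD_sub hF
  -- residues
  have hIres : ∀ r ∈ I, r < P.g ∧ r % P.g = r ∧ r ∉ UC Ps := by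
    intro r hr
    rw [hI] at hr
    unfold mainI at hr
    rw [mem_sdiff, mem_range] at hr
    exact ⟨hr.1, Nat.mod_eq_of_lt hr.1, hr.2⟩
  have hI'I : I' ⊆ I := by rw [hI']; exact sdiff_subset
  obtain ⟨X5, hF5⟩ := fam_union hF1' hF2' (by
      rw [disjoint_left]
      intro a ha hb
      have ha' := huL1 ha
      have hb' := huL2 hb
      unfold mainZ at ha'
      rw [mem_sdiff] at ha' hb'
      exact ha'.2 (mem_union_left _ (mem_union_right _ hb'.1))) (by
      rw [disjoint_left]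
      intro a ha hb
      exact (hD0m a (hD1s ha)).2.2.2 (mem_sdiff.1 (hu2s hb)).1) (by
      intro r hr r' hr' he
      have i1 := hIres r (hJ hr)
      have i2 := hIres r' (hI'I hr')
      rw [i1.2.1, i2.2.1] at he
      rw [hI', mem_sdiff] at hr'
      exact hr'.2 (he ▸ hr))
  have hJI : J ∪ I' = I := by rw [hI', union_sdiff_of_subset hJ]
  rw [hJI] at hF5
  obtain ⟨X6, hF6⟩ := fam_union hF5 hF4 (by
      rw [disjoint_left]
      intro a ha hb
      rcases mem_union.1 ha with ha | ha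
      · have ha' := huL1 ha
        unfold mainZ at ha'
        rw [mem_sdiff] at ha'
        rcases mem_union.1 hb with hb | hb
        · exact ha'.2 (mem_union_right _ (plL_sub_UL Ps hb))
        · obtain ⟨q, hq, rfl⟩ := mem_image.1 hb
          rcases hcase q hq with c1 | c1 | c1
          · exact ha'.2 (mem_union_left _ (mem_union_left _ (hLM q c1)))
          · exact ha'.2 (mem_union_left _ (mem_union_right _ (mem_sdiff.1 (hLQ q c1)).1))
          · exact ha'.2 (mem_union_right _ (mem_UL.2 ⟨q, hq, by rw [hxA q c1]; exact hJL q c1⟩))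
      · have ha' := (mem_sdiff.1 (huL2 ha)).1
        rcases mem_union.1 hb with hb | hb
        · obtain ⟨r, hr, hb2⟩ := mem_UL.1 (plL_sub_UL Ps hb)
          exact (mem_sdiff.1 (hZP r hr hb2)).2 (mem_union_right _ ha')
        · obtain ⟨q, hq, rfl⟩ := mem_image.1 hb
          rcases hcase q hq with c1 | c1 | c1
          · exact disjoint_left.1 hPl.l12 (hLM q c1) ha'
          · exact (mem_sdiff.1 (hLQ q c1)).2 ha
          · exact (mem_sdiff.1 (hLA q c1)).2 (mem_union_right _ ha')) (by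
      rw [disjoint_left]
      intro a ha hb
      have hR1' : a ∈ R1 → a ∉ plD Ps := hR1pl a
      rcases mem_union.1 ha with ha | ha
      · have h0 := hD0m a (hD1s ha)
        rcases mem_union.1 hb with hb | hb
        · exact h0.2.1 (plD_sub_UD Ps hb)
        · rw [hDSx] at hb
          simp only [mem_union] at hb
          rcases hb with ((hb | hb) | hb) | ((hb | hb) | hb)
          · rw [hD', mem_sdiff] at hb
            exact hb.2 ha
          · exact h0.2.2.2 (hU hb)
          · exact h0.2.2.2 (mem_sdiff.1 (hDS3 hb)).1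
          · exact h0.2.1 (UD_mono' hAs (pGG_sub_UD PA hb))
          · exact h0.2.2.1 hb
          · exact h0.2.2.2 (hR'R a hb)
      · have h0 := mem_sdiff.1 (hu2s ha)
        rcases mem_union.1 hb with hb | hb
        · exact hR1' h0.1 hb
        · rw [hDSx] at hb
          simp only [mem_union] at hb
          rcases hb with ((hb | hb) | hb) | ((hb | hb) | hb)
          · exact (hD'm a hb).2.2.2 h0.1
          · exact h0.2 hb
          · exact (mem_sdiff.1 (hDS3 hb)).2 (mem_union_right _ ha)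
          · have := mem_sdiff.1 (UD_sub hfam (UD_mono' hAs (pGG_sub_UD PA hb)))
            exact this.2 (mem_union_left _ h0.1)
          · exact disjoint_left.1 hPl.XR hb h0.1
          · rw [hR', mem_sdiff] at hb
            exact hb.2 (mem_union_left _ (mem_union_right _ ha))) (by
      intro r hr r' hr' he
      have i1 := hIres r hr
      obtain ⟨q, hq, rfl⟩ := mem_image.1 hr'
      rw [i1.2.1] at he
      exact i1.2.2 (mem_UC.2 ⟨q, hq, he.symm⟩))
  refine ⟨I ∪ Ps.image (fun q => q.m), X6, ?_, fam_mono' hF6 ?_ ?_⟩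
  · -- the number of cycles
    have hdis : Disjoint I (Ps.image (fun q => q.m)) := by
      rw [disjoint_left]
      intro r hr hr'
      have i1 := hIres r hr
      obtain ⟨q, hq, rfl⟩ := mem_image.1 hr'
      exact i1.2.2 (mem_UC.2 ⟨q, hq, i1.2.1⟩)
    have hUCs : UC Ps ⊆ range P.g := by
      intro r hr
      obtain ⟨q, _, rfl⟩ := mem_UC.1 hr
      exact mem_range.2 (Nat.mod_lt _ h.g_pos)
    rw [card_union_of_disjoint hdis, hbc, hI]
    unfold mainI
    have := card_sdiff_add_card_eq_card hUCs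
    rw [UC_card hfam, card_range] at this
    exact this
  · -- labels
    intro a ha
    rcases mem_union.1 ha with ha | ha
    · rcases mem_union.1 ha with ha | ha
      · have ha' := huL1 ha
        unfold mainZ at ha'
        exact (mem_sdiff.1 ha').1
      · exact hPl.l2 (mem_sdiff.1 (huL2 ha)).1
    · rcases mem_union.1 ha with ha | ha
      · obtain ⟨r, hr, hb2⟩ := mem_UL.1 (plL_sub_UL Ps ha)
        exact (mem_sdiff.1 (hZP r hr hb2)).1
      · obtain ⟨q, hq, rfl⟩ := mem_image.1 ha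
        rcases hcase q hq with c1 | c1 | c1
        · exact hPl.l1 (hLM q c1)
        · exact hPl.l2 (mem_sdiff.1 (hLQ q c1)).1
        · exact (mem_sdiff.1 (hLA q c1)).1
  · -- differences
    intro a ha
    rcases mem_union.1 ha with ha | ha
    · rcases mem_union.1 ha with ha | ha
      · exact (hD0m a (hD1s ha)).1
      · exact hPl.R_sub (mem_sdiff.1 (hu2s ha)).1
    · rcases mem_union.1 ha with ha | ha
      · exact (mem_sdiff.1 (hplDP a ha)).1
      · rw [hDSx] at ha
        simp only [mem_union] at ha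
        rcases ha with ((ha | ha) | ha) | ((ha | ha) | ha)
        · exact (hD'm a ha).1
        · exact hPl.R_sub (hU ha)
        · exact hPl.R_sub (mem_sdiff.1 (hDS3 ha)).1
        · exact (mem_sdiff.1 (UD_sub hfam (UD_mono' hAs (pGG_sub_UD PA ha)))).1
        · exact hPl.X_sub ha
        · exact hPl.R_sub (hR'R a ha)

theorem planComp {L p : ℕ} (hA : Adm L p) : PlanComp L p := by
  intro κ cD cC hκ hcD hcC
  obtain ⟨g1, h1⟩ := planCnt hA κ cD cC hκ
  have hL : (0 : ℝ) < L := by exact_mod_cast hA.L_pos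
  have hL3 : (3 : ℝ) ≤ L := by exact_mod_cast hA.three
  refine ⟨min cD cC / 100, by positivity, max g1 (max 30 (max ⌈100 * (L + 1) / cD⌉₊
    ⌈100 / cC⌉₊)), ?_⟩
  intro g hg m LAM1 LAM2 PR PA R1 X hPl J Y hJ hJc hF
  have hg1 : g1 ≤ g := le_trans (le_max_left _ _) hg
  have hg2 : 30 ≤ g := le_trans (le_trans (le_max_left _ _) (le_max_right _ _)) hg
  have hg3 : ⌈100 * ((L : ℝ) + 1) / cD⌉₊ ≤ g :=
    le_trans (le_trans (le_trans (le_max_left _ _) (le_max_right _ _)) (le_max_right _ _)) hg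
  have hg4 : ⌈100 / cC⌉₊ ≤ g :=
    le_trans (le_trans (le_trans (le_max_right _ _) (le_max_right _ _)) (le_max_right _ _)) hg
  have hOk : (Par.mk L p g).Ok := ⟨hA, by show 0 < g; omega⟩
  have hnL : (Par.mk L p g).n = L * g := rfl
  have hgn : g ≤ (Par.mk L p g).n := hOk.g_le_n
  obtain ⟨c1, -, -, -⟩ := h1 g hg1 m LAM1 LAM2 PR PA R1 X hPl
  have hg3' : 100 * ((L : ℝ) + 1) ≤ cD * g := by
    have := Nat.ceil_le.1 hg3
    rw [div_le_iff₀ hcD] at this
    linarith
  have hg4' : 100 ≤ cC * (g : ℝ) := by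
    have := Nat.ceil_le.1 hg4
    rw [div_le_iff₀ hcC] at this
    linarith
  have hnr : ((Par.mk L p g).n : ℝ) = L * g := by rw [hnL]; push_cast; rfl
  have hg0 : (0 : ℝ) ≤ g := Nat.cast_nonneg g
  have hmD : min cD cC ≤ cD := min_le_left _ _
  have hmC : min cD cC ≤ cC := min_le_right _ _
  set i : ℕ := (mainI (Par.mk L p g) (PR ∪ PA) \ J).card with hi
  have hi0 : (0 : ℝ) ≤ i := Nat.cast_nonneg i
  have hiD : (L : ℝ) * i ≤ cD * (L * g) / 100 := by
    have : (i : ℝ) ≤ cD / 100 * g := hJc.trans (by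
      apply mul_le_mul_of_nonneg_right _ hg0
      linarith)
    nlinarith
  have hiC : (L : ℝ) * i ≤ cC * (L * g) / 100 := by
    have : (i : ℝ) ≤ cC / 100 * g := hJc.trans (by
      apply mul_le_mul_of_nonneg_right _ hg0
      linarith)
    nlinarith
  have hCn : 100 ≤ cC * ((L : ℝ) * g) := by
    have : cC * (g : ℝ) ≤ cC * ((L : ℝ) * g) := by
      apply mul_le_mul_of_nonneg_left _ hcC.le
      nlinarith
    linarith
  have hDn : 300 * ((L : ℝ) + 1) ≤ cD * ((L : ℝ) * g) := by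
    have : (L : ℝ) * (100 * (L + 1)) ≤ L * (cD * g) := mul_le_mul_of_nonneg_left hg3' hL.le
    nlinarith
  have hszD := hPl.szD
  rw [hnr] at hszD
  have hPR0 : (0 : ℝ) ≤ PR.card := Nat.cast_nonneg _
  have hszD' : 300 * (PR.card : ℝ) ≤ cD * (L * g) := by
    have h4 : 300 * (PR.card : ℝ) ≤ 100 * L * (PR.card : ℝ) := by nlinarith
    exact h4.trans hszD
  refine comp_core hOk (by omega) hPl hJ hF c1 ?_ ?_ ?_
  · rw [hnr]
    change 10 * ((2 * L * i : ℕ) : ℝ) + 10 ≤ cC * (L * g)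
    push_cast
    nlinarith
  · rw [hnr]
    change 6 * ((4 * L * i : ℕ) : ℝ) + 13 * (L : ℝ) * i + 20 * (L : ℝ) + 10 ≤ cD * (L * g)
    push_cast
    nlinarith
  · rw [hnr]
    change ((L * i : ℕ) : ℝ) + 6 * ((6 * L * i : ℕ) : ℝ) + 20 * PR.card + 10 ≤ cD * (L * g)
    push_cast
    nlinarith

end Pool.Agent.PGo.A
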