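import Pool.Agent.PGo.AFill
import Pool.Agent.PGo.AFam

/-!
# PGo-AExc: packs which plant the exceptional differences

PLAN. As in APlant.lean (read the plan there), with `S := {1, 2}`, `y0 1 = y1`, `y0 2 = y1 + d`, `J = G = ∅`.
Parameters `(m, y1) ∈ range n ×ˢ zall n` with `ExcOk P PP A d (m, y1)`: at least `c n^2` of them (`Bits.exc`).
Forbidden are: `m % g ∈ UC Ps` (at most `L |Ps|` values of `m`, each at most `2n + 1` values `y1`); `y1 ∈ UL Ps` or
`y1 + d ∈ UL Ps` (for every `m` at most `2 |UL Ps|`); `|y1 - anc (vx m 1)| ∈ UD Ps ∪ {d}` or `|y1 + d - anc (vx m 2)| ∈ UD Ps ∪ {d}` (for every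
`m` at most `4 (|UD Ps| + 1)`): together at most `C(L) (|Ps| + 1) n < c n^2` if `|Ps| ≤ ε n`, `n` large. For the remaining
`(m, y1)`: `PLab P ((PP) \ UL Ps) ((dall n \ A) \ UD Ps) m {1, 2} y0`: the indices in `ix {1, 2}` are `(true, 1)`, `(true, 2)`,
`(false, 1)` (`nxt 1 = 2`; `nxt 2 ∉ {1, 2}` because it is `3` or `0`); `|y1 - (y1 + d)| = d ∈ dall n \ A` (`A ⊆ AAf` has only
`gd` elements), `d ∉ UD Ps`, and the two spokes are different from `d` and from each other. Windows: `y1 ∈ (110, 140)`, and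
`y1 + d ≤ 190 n / 100` because `¬ gd d` means `2 d = k < n / 2` or `2 d = n - k < n`. `fill` to `T = pv L` (with
`Z := PP.filter (inR (110, 190))`, `D := GD P A`, `DA := dall n \ A`; for `L = 3` nothing is to be filled).
`d ∈ r.pD ⊆ r.Dif` (index `(false, 1)`).
-/

noncomputable section

namespace Pool.Agent.PGo.A

open Finset Pool.Agent.PGr Pool.Agent.PGo.R

private theorem exc_mod {L g : ℕ} (hg : 0 < g) (U : Finset ℕ) :
    ((range (L * g)).filter (fun m => m % g ∈ U)).card ≤ L * U.card := by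
  have h : ((range (L * g)).filter (fun m => m % g ∈ U)).card ≤ (range L ×ˢ U).card := by
    refine Finset.card_le_card_of_injOn (fun m => (m / g, m % g)) ?_ ?_
    · intro m hm
      have hm' := Finset.mem_filter.1 (Finset.mem_coe.1 hm)
      rw [Finset.mem_coe, Finset.mem_product, Finset.mem_range]
      refine ⟨?_, hm'.2⟩
      rw [Nat.div_lt_iff_lt_mul hg]
      exact Finset.mem_range.1 hm'.1
    · intro m _ m' _ he
      have h1 : m / g = m' / g := congrArg Prod.fst he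
      have h2 : m % g = m' % g := congrArg Prod.snd he
      rw [← Nat.div_add_mod m g, ← Nat.div_add_mod m' g, h1, h2]
  rwa [Finset.card_product, Finset.card_range] at h

private theorem exc_abs (n : ℕ) (Z U : Finset ℤ) (f : ℕ → ℤ) :
    ((range n ×ˢ Z).filter (fun t => |t.2 - f t.1| ∈ U)).card ≤ n * (U.card * 2) := by
  have h : ((range n ×ˢ Z).filter (fun t => |t.2 - f t.1| ∈ U)).card ≤
      (range n ×ˢ (U ×ˢ (univ : Finset Bool))).card := by
    refine Finset.card_le_card_of_injOn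
      (fun t => (t.1, (|t.2 - f t.1|, decide (f t.1 ≤ t.2)))) ?_ ?_
    · intro t ht
      have ht' := Finset.mem_filter.1 (Finset.mem_coe.1 ht)
      rw [Finset.mem_coe, Finset.mem_product, Finset.mem_product]
      exact ⟨(Finset.mem_product.1 ht'.1).1, ht'.2, Finset.mem_univ _⟩
    · intro t _ t' _ he
      have he' : (t.1, (|t.2 - f t.1|, decide (f t.1 ≤ t.2))) =
        (t'.1, (|t'.2 - f t'.1|, decide (f t'.1 ≤ t'.2))) := he
      obtain ⟨h1, he2⟩ := Prod.mk.inj he'
      obtain ⟨h2, h3⟩ := Prod.mk.inj he2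
      rw [← h1] at h2 h3
      have h4 : (f t.1 ≤ t.2) ↔ (f t.1 ≤ t'.2) := by
        constructor
        · intro h
          have h5 : decide (f t.1 ≤ t.2) = true := decide_eq_true h
          rw [h3] at h5
          exact of_decide_eq_true h5
        · intro h
          have h5 : decide (f t.1 ≤ t'.2) = true := decide_eq_true h
          rw [← h3] at h5
          exact of_decide_eq_true h5
      refine Prod.ext h1 ?_
      rcases abs_cases (t.2 - f t.1) with ⟨h5, h6⟩ | ⟨h5, h6⟩ <;>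
        rcases abs_cases (t'.2 - f t.1) with ⟨h7, h8⟩ | ⟨h7, h8⟩ <;>
        rw [h5, h7] at h2
      · linarith
      · have := h4.1 (by linarith)
        linarith
      · have := h4.2 (by linarith)
        linarith
      · linarith
  rwa [Finset.card_product, Finset.card_product, Finset.card_range, Finset.card_univ,
    Fintype.card_bool] at h

private theorem exc_fst (n : ℕ) (Z U : Finset ℤ) (e : ℤ) :
    ((range n ×ˢ Z).filter (fun t => t.2 + e ∈ U)).card ≤ n * U.card := by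
  have h : ((range n ×ˢ Z).filter (fun t => t.2 + e ∈ U)).card ≤ (range n ×ˢ U).card := by
    refine Finset.card_le_card_of_injOn (fun t => (t.1, t.2 + e)) ?_ ?_
    · intro t ht
      have ht' := Finset.mem_filter.1 (Finset.mem_coe.1 ht)
      rw [Finset.mem_coe, Finset.mem_product]
      exact ⟨(Finset.mem_product.1 ht'.1).1, ht'.2⟩
    · intro t _ t' _ he
      have he' : (t.1, t.2 + e) = (t'.1, t'.2 + e) := he
      obtain ⟨h1, h2⟩ := Prod.mk.inj he'
      exact Prod.ext h1 (by linarith)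
  rwa [Finset.card_product, Finset.card_range] at h

private theorem exc_sup {P : Par} {K0 : ℕ} {c : ℝ} {LAM1 LAM2 PP A : Finset ℤ}
    (hB : Bits P K0 c LAM1 LAM2 PP A) :
    Sup P (PP.filter (fun y => inR P.n (110, 190) y)) (GD P A) (85, 215) c := by
  intro v hv z1 z2 h1 h2 h12 h3 h4
  refine (hB.svp v hv z1 z2 h1 h2 h12 h3 h4).trans ?_
  have hle : (PP.filter fun y => inR P.n (110, 190) y ∧ Df3 (GD P A) y (anc P.n v) z1 z2).card ≤
      ((PP.filter (fun y => inR P.n (110, 190) y)).filter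
        (fun x => Df3 (GD P A) x (anc P.n v) z1 z2)).card := by
    refine Finset.card_le_card ?_
    intro y hy
    rw [mem_filter] at hy
    rw [mem_filter, mem_filter]
    exact ⟨⟨hy.1, hy.2.1⟩, hy.2.2⟩
  exact_mod_cast hle

private theorem exc_aux {P : Par} (hP : P.Ok) {c : ℝ} (hc : 0 < c) {K0 : ℕ}
    {LAM1 LAM2 PP A : Finset ℤ} (hB : Bits P K0 c LAM1 LAM2 PP A) {Ps : Finset (Pack P)}
    (hF : PFam P PP (dall P.n \ A) Ps)
    (h1 : (Ps.card : ℝ) * (4 * (13 * P.L + 33)) ≤ c * P.n)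
    (h2 : 20 * (P.L : ℝ) + 10 ≤ c * P.n / 2) (hn : 30 ≤ P.n) {d : ℤ} (hd : d ∈ dall P.n)
    (hgd : ¬ gd P d) (hdU : d ∉ UD Ps) :
    ∃ r : Pack P, r ∉ Ps ∧ r.J = ∅ ∧ r.G = ∅ ∧ d ∈ r.Dif ∧
      PFam P PP (dall P.n \ A) (insert r Ps) := by
  classical
  have hL := hP.adm.three
  have hcUL := UL_card hF
  have hcUD := UD_card hF
  have hcUC := UC_card hF
  have hd1 := (dall_bd hd).1
  -- an admissible item
  obtain ⟨m, y1, hE, hmU, hy1U, hy2U, hs1U, hs2U⟩ : ∃ (m : ℕ) (y1 : ℤ),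
      ExcOk P PP A d (m, y1) ∧ m % P.g ∉ UC Ps ∧ y1 ∉ UL Ps ∧ y1 + d ∉ UL Ps ∧
      |y1 - anc P.n (P.vx m 1)| ∉ UD Ps ∧ |y1 + d - anc P.n (P.vx m 2)| ∉ UD Ps := by
    by_contra hcon
    push Not at hcon
    have hsub : ((range P.n ×ˢ zall P.n).filter fun t => ExcOk P PP A d t) ⊆
        ((range P.n ×ˢ zall P.n).filter (fun t => t.1 % P.g ∈ UC Ps)) ∪
        (((range P.n ×ˢ zall P.n).filter (fun t => t.2 + 0 ∈ UL Ps)) ∪
        (((range P.n ×ˢ zall P.n).filter (fun t => t.2 + d ∈ UL Ps)) ∪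
        (((range P.n ×ˢ zall P.n).filter (fun t => |t.2 - anc P.n (P.vx t.1 1)| ∈ UD Ps)) ∪
        ((range P.n ×ˢ zall P.n).filter
          (fun t => |t.2 - (anc P.n (P.vx t.1 2) - d)| ∈ UD Ps))))) := by
      intro t ht
      rw [mem_filter] at ht
      rw [mem_union, mem_union, mem_union, mem_union, mem_filter, mem_filter, mem_filter,
        mem_filter, mem_filter]
      by_cases e1 : t.1 % P.g ∈ UC Ps
      · exact Or.inl ⟨ht.1, e1⟩
      by_cases e2 : t.2 ∈ UL Ps
      · exact Or.inr (Or.inl ⟨ht.1, by rwa [add_zero]⟩)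
      by_cases e3 : t.2 + d ∈ UL Ps
      · exact Or.inr (Or.inr (Or.inl ⟨ht.1, e3⟩))
      by_cases e4 : |t.2 - anc P.n (P.vx t.1 1)| ∈ UD Ps
      · exact Or.inr (Or.inr (Or.inr (Or.inl ⟨ht.1, e4⟩)))
      have e5 := hcon t.1 t.2 ht.2 e1 e2 e3 e4
      refine Or.inr (Or.inr (Or.inr (Or.inr ⟨ht.1, ?_⟩)))
      have e6 : t.2 - (anc P.n (P.vx t.1 2) - d) = t.2 + d - anc P.n (P.vx t.1 2) := by ring
      rw [e6]
      exact e5
    have b1 : ((range P.n ×ˢ zall P.n).filter (fun t => t.1 % P.g ∈ UC Ps)).card ≤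
        P.L * (UC Ps).card * (2 * P.n + 1) := by
      have e1 : (range P.n ×ˢ zall P.n).filter (fun t => t.1 % P.g ∈ UC Ps) ⊆
          ((range P.n).filter (fun m => m % P.g ∈ UC Ps)) ×ˢ zall P.n := by
        intro t ht
        rw [mem_filter, mem_product] at ht
        rw [mem_product, mem_filter]
        exact ⟨⟨ht.1.1, ht.2⟩, ht.1.2⟩
      refine (card_le_card e1).trans ?_
      rw [card_product, zall_card (by omega)]
      exact Nat.mul_le_mul_right _ (exc_mod (L := P.L) hP.g_pos (UC Ps))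
    have b2 := exc_fst P.n (zall P.n) (UL Ps) 0
    have b3 := exc_fst P.n (zall P.n) (UL Ps) d
    have b4 := exc_abs P.n (zall P.n) (UD Ps) (fun m => anc P.n (P.vx m 1))
    have b5 := exc_abs P.n (zall P.n) (UD Ps) (fun m => anc P.n (P.vx m 2) - d)
    have b6 : ((range P.n ×ˢ zall P.n).filter fun t => ExcOk P PP A d t).card ≤
        P.L * (UC Ps).card * (2 * P.n + 1) + (P.n * (UL Ps).card + (P.n * (UL Ps).card +
          (P.n * ((UD Ps).card * 2) + P.n * ((UD Ps).card * 2)))) := by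
      refine (card_le_card hsub).trans ?_
      refine (card_union_le _ _).trans (add_le_add b1 ?_)
      refine (card_union_le _ _).trans (add_le_add b2 ?_)
      refine (card_union_le _ _).trans (add_le_add b3 ?_)
      exact (card_union_le _ _).trans (add_le_add b4 b5)
    have b7 : P.L * (UC Ps).card * (2 * P.n + 1) + (P.n * (UL Ps).card + (P.n * (UL Ps).card +
          (P.n * ((UD Ps).card * 2) + P.n * ((UD Ps).card * 2)))) ≤
        P.L * Ps.card * (3 * P.n) + (P.n * ((P.L + 3) * Ps.card) + (P.n * ((P.L + 3) * Ps.card) +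
          (P.n * ((2 * P.L + 5) * Ps.card * 2) + P.n * ((2 * P.L + 5) * Ps.card * 2)))) := by
      rw [hcUC]
      refine add_le_add (Nat.mul_le_mul_left _ (by omega)) ?_
      refine add_le_add (Nat.mul_le_mul_left _ hcUL) ?_
      refine add_le_add (Nat.mul_le_mul_left _ hcUL) ?_
      exact add_le_add (Nat.mul_le_mul_left _ (Nat.mul_le_mul_right _ hcUD))
        (Nat.mul_le_mul_left _ (Nat.mul_le_mul_right _ hcUD))
    have b8 := hB.exc d hd hgd
    have b9 : (((range P.n ×ˢ zall P.n).filter fun t => ExcOk P PP A d t).card : ℝ) ≤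
        (Ps.card : ℝ) * (13 * P.L + 26) * P.n := by
      have e1 := b6.trans b7
      have e2 : P.L * Ps.card * (3 * P.n) + (P.n * ((P.L + 3) * Ps.card) +
          (P.n * ((P.L + 3) * Ps.card) +
          (P.n * ((2 * P.L + 5) * Ps.card * 2) + P.n * ((2 * P.L + 5) * Ps.card * 2)))) =
          Ps.card * (13 * P.L + 26) * P.n := by ring
      rw [e2] at e1
      exact_mod_cast e1
    have hnp : (0 : ℝ) < P.n := by
      have : 0 < P.n := by omega
      exact_mod_cast this
    have hLp : (0 : ℝ) ≤ P.L := Nat.cast_nonneg _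
    have hPs : (0 : ℝ) ≤ Ps.card := Nat.cast_nonneg _
    have b10 : c * (P.n : ℝ) ^ 2 ≤ (Ps.card : ℝ) * (13 * P.L + 26) * P.n := b8.trans b9
    have b11 : c * (P.n : ℝ) ≤ (Ps.card : ℝ) * (13 * P.L + 26) := by
      have e1 : c * (P.n : ℝ) ^ 2 = (c * P.n) * P.n := by ring
      rw [e1] at b10
      exact le_of_mul_le_mul_right b10 hnp
    have b12 : 0 < c * (P.n : ℝ) := mul_pos hc hnp
    nlinarith [mul_nonneg hPs hLp]
  obtain ⟨hm, ⟨hy1P, hy1r⟩, hy2P, hs1, hs2, hs12⟩ := hE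
  simp only at hm hy1P hy1r hy2P hs1 hs2 hs12
  -- the differences
  have hs1' := mem_filter.1 hs1
  have hs2' := mem_filter.1 hs2
  have hs1d : |y1 - anc P.n (P.vx m 1)| ≠ d := fun h => hgd (h ▸ hs1'.2)
  have hs2d : |y1 + d - anc P.n (P.vx m 2)| ≠ d := fun h => hgd (h ▸ hs2'.2)
  have hdA : d ∈ dall P.n \ A := by
    rw [mem_sdiff]
    refine ⟨hd, fun h => hgd ?_⟩
    have h3 := hB.A_sub h
    unfold AAf at h3
    exact (mem_filter.1 h3).2.2
  -- the two vertices
  obtain ⟨v1, hv1⟩ : ∃ v : Fin P.L, v.1 = 1 := ⟨⟨1, by omega⟩, rfl⟩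
  obtain ⟨v2, hv2⟩ : ∃ v : Fin P.L, v.1 = 2 := ⟨⟨2, by omega⟩, rfl⟩
  have hv12 : v1 ≠ v2 := by
    intro h
    rw [h, hv2] at hv1
    omega
  have hnx1 : nxt v1 = v2 := by
    apply Fin.ext
    rw [nxt_val, hv1, hv2, if_neg (by omega)]
  have hnx2 : nxt v2 ∉ ({v1, v2} : Finset (Fin P.L)) := by
    rw [mem_insert, mem_singleton]
    have h3 := nxt_val v2
    rw [hv2] at h3
    rintro (h | h)
    · rw [h, hv1] at h3
      split_ifs at h3
      omega
    · rw [h, hv2] at h3
      split_ifs at h3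
      omega
  obtain ⟨y0, hy0⟩ : ∃ y0 : Fin P.L → ℤ, y0 = fun j => if j.1 = 1 then y1 else y1 + d := ⟨_, rfl⟩
  have hy01 : y0 v1 = y1 := by rw [hy0]; exact if_pos hv1
  have hy02 : y0 v2 = y1 + d := by
    rw [hy0]
    exact if_neg (by rw [hv2]; omega)
  have hdt1 : P.df m y0 (true, v1) = |y1 - anc P.n (P.vx m 1)| := by
    show (if (true : Bool) = true then |y0 v1 - anc P.n (P.vx m v1)| else _) = _
    rw [if_pos rfl, hy01, hv1]
  have hdt2 : P.df m y0 (true, v2) = |y1 + d - anc P.n (P.vx m 2)| := by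
    show (if (true : Bool) = true then |y0 v2 - anc P.n (P.vx m v2)| else _) = _
    rw [if_pos rfl, hy02, hv2]
  have habs : |y1 - (y1 + d)| = d := by
    have e1 : y1 - (y1 + d) = -d := by ring
    rw [e1, abs_neg, abs_of_nonneg (by linarith)]
  have hdf : ∀ y : Fin P.L → ℤ, y v1 = y1 → y v2 = y1 + d → P.df m y (false, v1) = d := by
    intro y e1 e2
    show (if (false : Bool) = true then _ else |y v1 - y (nxt v1)|) = _
    rw [if_neg (by decide), hnx1, e1, e2, habs]
  have hix : ∀ i ∈ ix ({v1, v2} : Finset (Fin P.L)), i = (true, v1) ∨ i = (true, v2) ∨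
      i = (false, v1) := by
    intro i hi
    obtain ⟨b, j⟩ := i
    rw [mem_ix, mem_insert, mem_singleton] at hi
    obtain ⟨h3, h4⟩ := hi
    rcases b with _ | _
    · rcases h3 with h3 | h3
      · right; right
        exact Prod.ext rfl h3
      · exfalso
        have h5 : j = v2 := h3
        have h6 := h4 rfl
        exact hnx2 (h5 ▸ h6)
    · rcases h3 with h3 | h3
      · left
        exact Prod.ext rfl h3
      · right; left
        exact Prod.ext rfl h3
  have hPL : PLab P (PP \ UL Ps) ((dall P.n \ A) \ UD Ps) m {v1, v2} y0 := by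
    refine ⟨?_, ?_, ?_, ?_⟩
    · intro j hj
      rw [mem_insert, mem_singleton] at hj
      rw [mem_sdiff]
      rcases hj with rfl | rfl
      · rw [hy01]
        exact ⟨hy1P, hy1U⟩
      · rw [hy02]
        exact ⟨hy2P, hy2U⟩
    · intro j hj j' hj' he
      rw [mem_insert, mem_singleton] at hj hj'
      rcases hj with rfl | rfl <;> rcases hj' with rfl | rfl
      · rfl
      · rw [hy01, hy02] at he
        exfalso
        linarith
      · rw [hy01, hy02] at he
        exfalso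
        linarith
      · rfl
    · intro i hi
      rcases hix i hi with rfl | rfl | rfl
      · rw [hdt1, mem_sdiff]
        exact ⟨hs1'.1, hs1U⟩
      · rw [hdt2, mem_sdiff]
        exact ⟨hs2'.1, hs2U⟩
      · rw [hdf y0 hy01 hy02, mem_sdiff]
        exact ⟨hdA, hdU⟩
    · intro i hi i' hi' he
      rcases hix i hi with rfl | rfl | rfl <;> rcases hix i' hi' with rfl | rfl | rfl
      · rfl
      · rw [hdt1, hdt2] at he
        exact absurd he hs12
      · rw [hdt1, hdf y0 hy01 hy02] at he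
        exact absurd he hs1d
      · rw [hdt1, hdt2] at he
        exact absurd he.symm hs12
      · rfl
      · rw [hdt2, hdf y0 hy01 hy02] at he
        exact absurd he hs2d
      · rw [hdt1, hdf y0 hy01 hy02] at he
        exact absurd he.symm hs1d
      · rw [hdt2, hdf y0 hy01 hy02] at he
        exact absurd he.symm hs2d
      · rfl
  -- the windows
  have hk := hP.k_lt
  have hd2 : 2 * d ≤ P.n := by
    unfold Pool.Agent.PGo.R.gd at hgd
    by_contra hcon
    apply hgd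
    have hk0 : (0 : ℤ) < P.k := by exact_mod_cast hP.k_pos
    have hk1 : 2 * (P.k : ℤ) < P.n := by exact_mod_cast hk
    constructor <;> omega
  have hy1r' : 110 * (P.n : ℤ) ≤ 100 * y1 ∧ 100 * y1 ≤ 140 * P.n := hy1r
  have hw0 : ∀ j ∈ ({v1, v2} : Finset (Fin P.L)), inR P.n (85, 215) (y0 j) := by
    intro j hj
    rw [mem_insert, mem_singleton] at hj
    rcases hj with rfl | rfl
    · rw [hy01]
      show 85 * (P.n : ℤ) ≤ 100 * y1 ∧ 100 * y1 ≤ 215 * P.n
      constructor <;> omega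
    · rw [hy02]
      show 85 * (P.n : ℤ) ≤ 100 * (y1 + d) ∧ 100 * (y1 + d) ≤ 215 * P.n
      constructor <;> omega
  have hST : ({v1, v2} : Finset (Fin P.L)) ⊆ pv P.L := by
    intro j hj
    rw [mem_insert, mem_singleton] at hj
    rw [mem_pv]
    rcases hj with rfl | rfl
    · rw [hv1]
      omega
    · rw [hv2]
      omega
  have hcc : ((UL Ps).card : ℝ) + 6 * (UD Ps).card + 20 * P.L + 10 ≤ c * P.n := by
    have e1 : ((UL Ps).card : ℝ) ≤ (P.L + 3) * Ps.card := by exact_mod_cast hcUL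
    have e2 : ((UD Ps).card : ℝ) ≤ (2 * P.L + 5) * Ps.card := by exact_mod_cast hcUD
    have hnp : (0 : ℝ) < P.n := by
      have : 0 < P.n := by omega
      exact_mod_cast this
    have e3 : 0 < c * (P.n : ℝ) := mul_pos hc hnp
    nlinarith
  obtain ⟨y', hy', hy'S, hy'w⟩ := fill hP hn (exc_sup hB) (by norm_num) (by norm_num)
    (ZA := PP) (DA := dall P.n \ A) (Finset.filter_subset _ _) (Finset.filter_subset _ _)
    (fun x hx => by
      have h3 : 110 * (P.n : ℤ) ≤ 100 * x ∧ 100 * x ≤ 190 * P.n := (mem_filter.1 hx).2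
      show 85 * (P.n : ℤ) ≤ 100 * x ∧ 100 * x ≤ 215 * P.n
      constructor <;> omega) hB.pp hcc hST hPL hw0
  have hy'1 : y' v1 = y1 := (hy'S v1 (mem_insert_self _ _)).trans hy01
  have hy'2 : y' v2 = y1 + d :=
    (hy'S v2 (mem_insert_of_mem (mem_singleton_self _))).trans hy02
  obtain ⟨r, hr⟩ : ∃ r : Pack P, r = ⟨m, y', ∅, ∅⟩ := ⟨_, rfl⟩
  have hrm : r.m = m := by rw [hr]
  have hry : r.y = y' := by rw [hr]
  have hrJ : r.J = ∅ := by rw [hr]
  have hrG : r.G = ∅ := by rw [hr]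
  have hok : PackOk P PP (dall P.n \ A) r := by
    refine ⟨?_, ?_, ?_, ?_, ?_, ?_, ?_, ?_, ?_⟩
    · rw [hrm]
      exact hm
    · rw [hrm, hry]
      exact ⟨fun j hj => (mem_sdiff.1 (hy'.lab j hj)).1, hy'.labi,
        fun i hi => (mem_sdiff.1 (hy'.dif i hi)).1, hy'.difi⟩
    · rw [hrJ]
      exact empty_subset _
    · rw [hrG]
      exact empty_subset _
    · intro j _
      rw [hrJ]
      exact notMem_empty _
    · intro i _
      rw [hrG]
      exact notMem_empty _
    · rw [hrJ, card_empty]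
      omega
    · rw [hrG, card_empty]
      omega
    · intro j hj
      rw [hry]
      exact hy'w j hj
  have hLab : Disjoint r.Lab (UL Ps) := by
    rw [disjoint_left]
    intro x hx
    unfold Pack.Lab at hx
    rw [hrJ, union_empty, mem_image] at hx
    obtain ⟨j, hj, rfl⟩ := hx
    rw [hry]
    exact (mem_sdiff.1 (hy'.lab j hj)).2
  have hDif : Disjoint r.Dif (UD Ps) := by
    rw [disjoint_left]
    intro x hx
    unfold Pack.Dif Pack.pD at hx
    rw [hrG, union_empty, mem_image] at hx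
    obtain ⟨i, hi, rfl⟩ := hx
    rw [hry, hrm]
    exact (mem_sdiff.1 (hy'.dif i hi)).2
  obtain ⟨hrP, hfam⟩ := fam_insert hF hok (by rw [hrm]; exact hmU) hLab hDif
  refine ⟨r, hrP, hrJ, hrG, ?_, hfam⟩
  unfold Pack.Dif Pack.pD
  rw [mem_union, mem_image]
  left
  refine ⟨(false, v1), ?_, ?_⟩
  · rw [mem_ix]
    refine ⟨hST (mem_insert_self _ _), fun _ => ?_⟩
    show nxt v1 ∈ pv P.L
    rw [hnx1]
    exact hST (mem_insert_of_mem (mem_singleton_self _))
  · rw [hrm, hry]
    exact hdf y' hy'1 hy'2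

theorem exc_step {L p : ℕ} (hA : Adm L p) : ∀ c : ℝ, 0 < c → ∃ ε : ℝ, 0 < ε ∧ ∃ g0 : ℕ,
    ∀ g : ℕ, g0 ≤ g → ∀ (K0 : ℕ) (LAM1 LAM2 PP A : Finset ℤ),
    Bits (Par.mk L p g) K0 c LAM1 LAM2 PP A → ∀ Ps : Finset (Pack (Par.mk L p g)),
    PFam (Par.mk L p g) PP (dall (Par.mk L p g).n \ A) Ps →
    (Ps.card : ℝ) ≤ ε * (Par.mk L p g).n →
    ∀ d ∈ dall (Par.mk L p g).n, ¬ gd (Par.mk L p g) d → d ∉ UD Ps →
    ∃ r : Pack (Par.mk L p g), r ∉ Ps ∧ r.J = ∅ ∧ r.G = ∅ ∧ d ∈ r.Dif ∧
      PFam (Par.mk L p g) PP (dall (Par.mk L p g).n \ A) (insert r Ps) := by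
  intro c hc
  have hK : (0 : ℝ) < 4 * (13 * L + 33) := by positivity
  refine ⟨c / (4 * (13 * L + 33)), div_pos hc hK, ⌈(20 * (L : ℝ) + 10) * 2 / c⌉₊ + 30, ?_⟩
  intro g hg K0 LAM1 LAM2 PP A hB Ps hF hPs d hd hgd hdU
  have hL := hA.three
  have hg1 : 0 < g := by omega
  have hP : (Par.mk L p g).Ok := ⟨hA, hg1⟩
  have hgn : g ≤ (Par.mk L p g).n := hP.g_le_n
  refine exc_aux hP hc hB hF ?_ ?_ (by omega) hd hgd hdU
  · rw [div_mul_eq_mul_div, le_div_iff₀ hK] at hPs
    exact hPs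
  · have h1 : (20 * (L : ℝ) + 10) * 2 / c ≤ ((Par.mk L p g).n : ℝ) := by
      refine (Nat.le_ceil _).trans ?_
      have h2 : ⌈(20 * (L : ℝ) + 10) * 2 / c⌉₊ ≤ (Par.mk L p g).n := by omega
      exact_mod_cast h2
    rw [div_le_iff₀ hc] at h1
    show 20 * (L : ℝ) + 10 ≤ c * ((Par.mk L p g).n : ℝ) / 2
    linarith

end Pool.Agent.PGo.A
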