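import Pool.Agent.PGo.ACvG
import Pool.Agent.PGo.AExc

/-!
# PGo-ACvA: all cover packs and the packs of the exceptional differences

PLAN. `ε := ` one half of the minimum of the constants of `cov_group` and `exc_step`. Given `ρ ≤ ε` put `N := ⌊ρ n / 8⌋₊`
(positive for large `n`, and `2n + 2 ≤ exp(min (c/20) 1 * N / 8)` for large `n`: `exp x ≥ x^2 / 2`), `c2 := min (c/20) 1 * ρ / 40`.
Start with `∅` (`fam_empty`); apply `cov_group` for `q = 0, ..., 5` (a recursion: after `i` groups there is a family of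
`i N` packs, with `J = G = ∅`, such that `CovM LAM1 A Ps c' d` for all `d` in the ranges of the groups `< i`); `CovM` is monotone in
`Ps` and antitone in the constant. Then add the packs of the exceptional differences: `(dall n).filter (¬ gd)` has
at most two elements (`2 d = k` or `2 d = n - k`); for each one not yet in `UD Ps` apply `exc_step` (use an induction over the
finite set). Total number `≤ 6 N + 2 ≤ ρ n`. Every `d ∈ dall n` lies in `[1, 2n + 2]`, so in the range of one of the six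
groups: `rD 0 = (0, 35)`, ..., `rD 5 = (155, 201)` (`2n + 2 ≤ 2.01 n`).
-/

noncomputable section

namespace Pool.Agent.PGo.A

open Finset Pool.Agent.PGr Pool.Agent.PGo.R

private theorem covM_mono {P : Par} {LAM1 R : Finset ℤ} {Q Q' : Finset (Pack P)} {c c' : ℝ} {d : ℤ}
    (hQ : Q ⊆ Q') (hc : c' ≤ c) (h : CovM LAM1 R Q c d) : CovM LAM1 R Q' c' d := by
  obtain ⟨M, x, e1, e2, h1, h2, h3⟩ := h
  exact ⟨M, x, e1, e2, h1.trans hQ, hc.trans h2, h3⟩

private theorem exc_card (P : Par) : ((dall P.n).filter (fun d => ¬ R.gd P d)).card ≤ 2 := by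
  have h1 : (dall P.n).filter (fun d => ¬ R.gd P d) ⊆ {(P.k : ℤ) / 2, ((P.n : ℤ) - P.k) / 2} := by
    intro d hd
    rw [mem_filter] at hd
    have h2 := hd.2
    unfold R.gd at h2
    rw [mem_insert, mem_singleton]
    by_contra hc
    rw [not_or] at hc
    apply h2
    constructor
    · intro h3
      apply hc.1
      omega
    · intro h3
      apply hc.2
      omega
  exact (card_le_card h1).trans (card_le_two)

private theorem exc_add {P : Par} {PP DP : Finset ℤ} {B : ℝ}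
    (hstep : ∀ Ps : Finset (Pack P), PFam P PP DP Ps → (Ps.card : ℝ) ≤ B →
      ∀ d ∈ dall P.n, ¬ R.gd P d → d ∉ UD Ps →
      ∃ r : Pack P, r ∉ Ps ∧ r.J = ∅ ∧ r.G = ∅ ∧ d ∈ r.Dif ∧ PFam P PP DP (insert r Ps))
    (P0 : Finset (Pack P)) (hF : PFam P PP DP P0) (hJ : ∀ r ∈ P0, r.J = ∅ ∧ r.G = ∅)
    (X : Finset ℤ) :
    X ⊆ (dall P.n).filter (fun d => ¬ R.gd P d) → (P0.card : ℝ) + X.card ≤ B →
    ∃ PR : Finset (Pack P), P0 ⊆ PR ∧ PR.card ≤ P0.card + X.card ∧ PFam P PP DP PR ∧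
      (∀ r ∈ PR, r.J = ∅ ∧ r.G = ∅) ∧ ∀ d ∈ X, d ∈ UD PR := by
  classical
  induction X using Finset.induction_on with
  | empty =>
    intro _ _
    exact ⟨P0, Subset.refl _, by simp, hF, hJ, by simp⟩
  | insert d X hd ih =>
    intro hX hB
    rw [card_insert_of_notMem hd] at hB ⊢
    push_cast at hB
    obtain ⟨PR, h1, h2, h3, h4, h5⟩ := ih ((subset_insert d X).trans hX) (by linarith)
    by_cases hdu : d ∈ UD PR
    · refine ⟨PR, h1, by omega, h3, h4, ?_⟩
      intro e he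
      rcases mem_insert.1 he with rfl | he
      · exact hdu
      · exact h5 e he
    · have hdX := mem_filter.1 (hX (mem_insert_self d X))
      have hcR : (PR.card : ℝ) ≤ B := by
        have h6 : (PR.card : ℝ) ≤ P0.card + X.card := by exact_mod_cast h2
        linarith
      obtain ⟨r, r1, r2, r3, r4, r5⟩ := hstep PR h3 hcR d hdX.1 hdX.2 hdu
      refine ⟨insert r PR, h1.trans (subset_insert r PR), ?_, r5, ?_, ?_⟩
      · rw [card_insert_of_notMem r1]
        omega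
      · intro r' hr'
        rcases mem_insert.1 hr' with rfl | hr'
        · exact ⟨r2, r3⟩
        · exact h4 r' hr'
      · intro e he
        rw [mem_UD]
        rcases mem_insert.1 he with rfl | he
        · exact ⟨r, mem_insert_self _ _, r4⟩
        · obtain ⟨q, hq, hq'⟩ := mem_UD.1 (h5 e he)
          exact ⟨q, mem_insert_of_mem hq, hq'⟩

theorem cov_all {L p : ℕ} (hA : Adm L p) : ∀ c : ℝ, 0 < c → ∃ ε : ℝ, 0 < ε ∧ ∀ ρ : ℝ, 0 < ρ →
    ρ ≤ ε → ∃ c2 : ℝ, 0 < c2 ∧ ∃ g0 : ℕ,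
    ∀ g : ℕ, g0 ≤ g → ∀ (K0 : ℕ) (LAM1 LAM2 PP A : Finset ℤ),
    Bits (Par.mk L p g) K0 c LAM1 LAM2 PP A →
    ∃ PR : Finset (Pack (Par.mk L p g)), (PR.card : ℝ) ≤ ρ * (Par.mk L p g).n ∧
      PFam (Par.mk L p g) PP (dall (Par.mk L p g).n \ A) PR ∧ (∀ r ∈ PR, r.J = ∅ ∧ r.G = ∅) ∧
      (∀ d ∈ dall (Par.mk L p g).n, gd (Par.mk L p g) d →
        CovM LAM1 A PR (c2 * (Par.mk L p g).n) d) ∧
      ∀ d ∈ dall (Par.mk L p g).n, ¬ gd (Par.mk L p g) d → d ∈ UD PR := by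
  classical
  intro c hc
  obtain ⟨ε1, hε1, g1, hgr⟩ := cov_group hA c hc
  obtain ⟨ε2, hε2, g2, hex⟩ := exc_step hA c hc
  obtain ⟨ε, hεd⟩ : ∃ ε : ℝ, ε = min ε1 ε2 / 2 := ⟨_, rfl⟩
  have hε0 : 0 < ε := by
    rw [hεd]
    have := lt_min hε1 hε2
    linarith
  have hεe1 : 2 * ε ≤ ε1 := by
    rw [hεd]
    linarith [min_le_left ε1 ε2]
  have hεe2 : 2 * ε ≤ ε2 := by
    rw [hεd]
    linarith [min_le_right ε1 ε2]
  refine ⟨ε, hε0, ?_⟩
  intro ρ hρ hρε
  obtain ⟨m, hm⟩ : ∃ m : ℝ, m = min (c / 20) 1 := ⟨_, rfl⟩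
  have hm0 : 0 < m := by
    rw [hm]
    exact lt_min (by positivity) one_pos
  obtain ⟨γ, hγ⟩ : ∃ γ : ℝ, γ = m * (ρ / 16) / 8 := ⟨_, rfl⟩
  have hγ0 : 0 < γ := by
    rw [hγ]
    positivity
  refine ⟨m * (ρ / 16) / 2, by positivity, g1 + g2 + ⌈16 / ρ⌉₊ + ⌈8 / γ ^ 2⌉₊ + 200, ?_⟩
  intro g hg K0 LAM1 LAM2 PP A hBits
  have hg1 := hgr g (by omega) K0 LAM1 LAM2 PP A hBits
  have hg2 := hex g (by omega) K0 LAM1 LAM2 PP A hBits
  have hng : g ≤ (Par.mk L p g).n := by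
    change g ≤ L * g
    have := hA.three
    exact Nat.le_mul_of_pos_left g (by omega)
  generalize hP : Par.mk L p g = P at *
  have hnR : (10 : ℝ) ≤ P.n := by
    have h1 : 10 ≤ P.n := by omega
    exact_mod_cast h1
  have hn1 : 16 / ρ ≤ P.n := by
    have h1 : ⌈16 / ρ⌉₊ ≤ P.n := by omega
    exact (Nat.le_ceil _).trans (by exact_mod_cast h1)
  have hn2 : 8 / γ ^ 2 ≤ P.n := by
    have h1 : ⌈8 / γ ^ 2⌉₊ ≤ P.n := by omega
    exact (Nat.le_ceil _).trans (by exact_mod_cast h1)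
  have hn3 : 16 ≤ ρ * P.n := by
    rw [div_le_iff₀ hρ] at hn1
    linarith
  obtain ⟨N, hNd⟩ : ∃ N : ℕ, N = ⌊ρ * P.n / 8⌋₊ := ⟨_, rfl⟩
  have hN1 : (N : ℝ) ≤ ρ * P.n / 8 := by
    rw [hNd]
    exact Nat.floor_le (by positivity)
  have hN2 : ρ * P.n / 16 ≤ N := by
    have h1 : ρ * P.n / 8 < N + 1 := by
      rw [hNd]
      exact Nat.lt_floor_add_one _
    linarith
  have hN0 : 0 < N := by
    have h3 : (0 : ℝ) < N := by linarith
    exact_mod_cast h3
  have hexp : 2 * (P.n : ℝ) + 2 ≤ Real.exp (m * N / 8) := by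
    have h1 : γ * P.n ≤ m * N / 8 := by
      rw [hγ]
      have h2 : m * (ρ * P.n / 16) ≤ m * N := by gcongr
      linarith
    have h3 : 0 ≤ γ * P.n := by positivity
    have h4 := Real.quadratic_le_exp_of_nonneg h3
    have h5 : 2 * (P.n : ℝ) + 2 ≤ (γ * P.n) ^ 2 / 2 := by
      rw [div_le_iff₀ (by positivity)] at hn2
      have h6 : 8 * (P.n : ℝ) ≤ (P.n * γ ^ 2) * P.n := by gcongr
      have h7 : (γ * (P.n : ℝ)) ^ 2 = (P.n * γ ^ 2) * P.n := by ring
      rw [h7]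
      linarith
    have h8 := Real.exp_le_exp.2 h1
    linarith
  have hρn : ρ * P.n ≤ ε * P.n := by gcongr
  have hfin : ∀ j : ℕ, j ≤ 6 → ∃ PR : Finset (Pack P), PR.card = j * N ∧
      PFam P PP (dall P.n \ A) PR ∧ (∀ r ∈ PR, r.J = ∅ ∧ r.G = ∅) ∧
      ∀ q : Fin 6, (q : ℕ) < j → ∀ d ∈ dall P.n, gd P d → inR P.n (rD q) d →
        CovM LAM1 A PR (m * N / 2) d := by
    intro j
    induction j with
    | zero =>
      intro _
      refine ⟨∅, by simp, fam_empty, by simp, ?_⟩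
      intro q hq
      exact absurd hq (Nat.not_lt_zero _)
    | succ j ih =>
      intro hj
      obtain ⟨PR, p1, p2, p3, p4⟩ := ih (by omega)
      have hsz : ((PR.card + N : ℕ) : ℝ) ≤ ε1 * P.n := by
        rw [p1]
        push_cast
        have h1 : (j : ℝ) + 1 ≤ 6 := by exact_mod_cast hj
        have h2 : (0 : ℝ) ≤ N := Nat.cast_nonneg _
        have h3 : ((j : ℝ) + 1) * N ≤ 6 * N := by gcongr
        have h4 : 2 * ε * P.n ≤ ε1 * P.n := by gcongr
        have h5 : 0 ≤ ε * P.n := by positivity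
        linarith
      obtain ⟨new, q1, q2, q3, q4, q5⟩ := hg1 PR p2 ⟨j, by omega⟩ N hN0 hsz
        (by rw [← hm]; exact hexp)
      refine ⟨PR ∪ new, ?_, q3, ?_, ?_⟩
      · rw [card_union_of_disjoint q2, p1, q1]
        ring
      · intro r hr
        rcases mem_union.1 hr with hr | hr
        · exact p3 r hr
        · exact q4 r hr
      · intro q hq d hd hgd hcd
        by_cases hqj : (q : ℕ) = j
        · have hq' : q = ⟨j, by omega⟩ := Fin.ext hqj
          rw [hq'] at hcd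
          have h1 := q5 d hd hgd hcd
          rw [← hm] at h1
          exact covM_mono subset_union_right le_rfl h1
        · exact covM_mono subset_union_left le_rfl (p4 q (by omega) d hd hgd hcd)
  obtain ⟨PR0, p1, p2, p3, p4⟩ := hfin 6 le_rfl
  have hX := exc_card P
  have hX' : ((((dall P.n).filter (fun d => ¬ R.gd P d)).card : ℕ) : ℝ) ≤ 2 := by
    exact_mod_cast hX
  have hsz0 : (PR0.card : ℝ) + ((dall P.n).filter (fun d => ¬ R.gd P d)).card ≤ ρ * P.n := by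
    rw [p1]
    push_cast
    linarith
  have hsz2 : ρ * P.n ≤ ε2 * P.n := by
    have h4 : 2 * ε * P.n ≤ ε2 * P.n := by gcongr
    have h5 : 0 ≤ ε * P.n := by positivity
    linarith
  obtain ⟨PR, u1, u2, u3, u4, u5⟩ := exc_add (B := ε2 * P.n) hg2 PR0 p2 p3
    ((dall P.n).filter (fun d => ¬ R.gd P d)) (Subset.refl _) (by linarith)
  refine ⟨PR, ?_, u3, u4, ?_, ?_⟩
  · have h6 : (PR.card : ℝ) ≤ PR0.card + ((dall P.n).filter (fun d => ¬ R.gd P d)).card := by
      exact_mod_cast u2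
    linarith
  · intro d hd hgd
    obtain ⟨b1, b2⟩ := dall_bd hd
    have hn200 : 200 ≤ (P.n : ℤ) := by
      have h1 : 200 ≤ P.n := by omega
      exact_mod_cast h1
    have hq : ∃ q : Fin 6, inR P.n (rD q) d := by
      by_cases c0 : 100 * d ≤ 35 * P.n
      · refine ⟨0, ?_⟩
        change (0 : ℤ) * P.n ≤ 100 * d ∧ 100 * d ≤ (35 : ℤ) * P.n
        omega
      by_cases c1 : 100 * d ≤ 80 * P.n
      · refine ⟨1, ?_⟩
        change (35 : ℤ) * P.n ≤ 100 * d ∧ 100 * d ≤ (80 : ℤ) * P.n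
        omega
      by_cases c2 : 100 * d ≤ 125 * P.n
      · refine ⟨2, ?_⟩
        change (80 : ℤ) * P.n ≤ 100 * d ∧ 100 * d ≤ (125 : ℤ) * P.n
        omega
      by_cases c3 : 100 * d ≤ 145 * P.n
      · refine ⟨3, ?_⟩
        change (125 : ℤ) * P.n ≤ 100 * d ∧ 100 * d ≤ (145 : ℤ) * P.n
        omega
      by_cases c4 : 100 * d ≤ 155 * P.n
      · refine ⟨4, ?_⟩
        change (145 : ℤ) * P.n ≤ 100 * d ∧ 100 * d ≤ (155 : ℤ) * P.n
        omega
      · refine ⟨5, ?_⟩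
        change (155 : ℤ) * P.n ≤ 100 * d ∧ 100 * d ≤ (201 : ℤ) * P.n
        omega
    obtain ⟨q, hq⟩ := hq
    refine covM_mono u1 ?_ (p4 q q.2 d hd hgd hq)
    have h1 : m * (ρ * P.n / 16) ≤ m * N := by gcongr
    linarith
  · intro d hd hgd
    exact u5 d (mem_filter.2 ⟨hd, hgd⟩)

end Pool.Agent.PGo.A
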