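import Pool.Agent.PGo.AFill
import Pool.Agent.PGo.AFam

/-!
# PGo-APlant: completing a core to a pack

PLAN. `ε := c / (100 (L + 3))` (any small constant), `g0` large. Given the core `q`. Let `P := Par.mk L p g` (it is
`Ok`), `FL := UL Ps ∪ q.J`, `FD := UD Ps ∪ q.G`, `S := {1, L - 1}` (as elements of `Fin L`), `T := pv L`,
`y0 j := if j = 1 then q.y1 else q.y2`. `PLab P (ZP \ FL) (DP \ FD) q.m S y0`: the labels `q.y1`, `q.y2` are
different and lie in `ZP \ UL Ps`, not in `q.J`; the indices in `ix S` are `(true, 1)`, `(true, L - 1)` with values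
`sp1`, `sp2`, and, only if `L = 3`, the index `(false, 1)` (`nxt 1 = 2 = L - 1`) with the value `|y1 - y2|` (for `L > 3`
we have `nxt 1 = 2 ∉ S`, and always `nxt (L - 1) = 0 ∉ S`): all by `CoreOk`. Apply `fill` with
`Z := PP.filter (inR (110, 190))`, `D := GD P A`, `w := (85, 215)`, `ZA := ZP`, `DA := DP` (`Sup` is `Bits.svp`,
rearrange `filter_filter`), where `|FL| ≤ (L + 3)|Ps| + 3`, `|FD| ≤ (2L + 5)|Ps| + 5` (`UL_card`, `UD_card`).
The pack is `r := ⟨q.m, y', q.J, q.G⟩`. `PackOk P ZP DP r`: `pl` from `fill` (monotone in the two sets), `yJ`, `dG`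
because `FL ⊇ q.J`, `FD ⊇ q.G`. `IsPk`: `lb y' 1 = y' 1 = y0 1 = q.y1` (`lb_of_lt`), the same for `L - 1` (`L - 1 ≠ 1`).
`fam_insert`: `r.m % g ∉ UC Ps`, `Lab r` is disjoint from `UL Ps` (labels by `fill`, `J` by `CoreOk.J_sub`), `Dif r` from
`UD Ps`.
-/

noncomputable section

namespace Pool.Agent.PGo.A

open Finset Pool.Agent.PGr Pool.Agent.PGo.R

private theorem apl_ix {P : Par} (h : P.Ok) {j1 j2 : Fin P.L} (h1 : j1.1 = 1)
    (h2 : j2.1 = P.L - 1) {i : Bool × Fin P.L} (hi : i ∈ ix ({j1, j2} : Finset (Fin P.L))) :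
    i = (true, j1) ∨ i = (true, j2) ∨ (i = (false, j1) ∧ nxt j1 = j2) := by
  have hL := h.adm.three
  obtain ⟨b, l⟩ := i
  simp only [mem_ix, mem_insert, mem_singleton] at hi
  obtain ⟨hl, hn⟩ := hi
  cases b with
  | true =>
    rcases hl with hl | hl
    · left
      rw [hl]
    · right
      left
      rw [hl]
  | false =>
    have hn' := hn rfl
    rcases hl with hl | hl
    · rw [hl] at hn'
      rcases hn' with hn' | hn'
      · exact absurd hn' (nxt_ne (by omega) j1)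
      · exact Or.inr (Or.inr ⟨by rw [hl], hn'⟩)
    · exfalso
      rw [hl] at hn'
      have hv := nxt_val j2
      rw [h2, if_pos (by omega)] at hv
      rcases hn' with hn' | hn'
      · rw [hn', h1] at hv
        omega
      · rw [hn', h2] at hv
        omega

private theorem apl_main {P : Par} (h : P.Ok) (hn : 30 ≤ P.n) {K0 : ℕ} {c : ℝ}
    {LAM1 LAM2 PP A : Finset ℤ} (hB : Bits P K0 c LAM1 LAM2 PP A) {ZP DP : Finset ℤ}
    (hPP : PP ⊆ ZP) (hGD : GD P A ⊆ DP) (hZ : ZP ⊆ zall P.n) {Ps : Finset (Pack P)}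
    (hF : PFam P ZP DP Ps)
    (hc : ((P.L : ℝ) + 3) * Ps.card + 3 + 6 * ((2 * (P.L : ℝ) + 5) * Ps.card + 5)
      + 20 * P.L + 10 ≤ c * P.n)
    (q : Core) (hq : CoreOk P (ZP \ UL Ps) (DP \ UD Ps) q) (hm : q.m % P.g ∉ UC Ps) :
    ∃ r : Pack P, IsPk P q r ∧ r ∉ Ps ∧ PFam P ZP DP (insert r Ps) ∧ Disjoint r.Dif (UD Ps) := by
  have hL := h.adm.three
  obtain ⟨j1, hj1⟩ : ∃ j1 : Fin P.L, j1.1 = 1 := ⟨⟨1, by omega⟩, rfl⟩
  obtain ⟨j2, hj2⟩ : ∃ j2 : Fin P.L, j2.1 = P.L - 1 := ⟨⟨P.L - 1, by omega⟩, rfl⟩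
  have hj12 : j2 ≠ j1 := by
    intro he
    have := congrArg Fin.val he
    omega
  set y0 : Fin P.L → ℤ := fun j => if j = j1 then q.y1 else q.y2 with hy0
  have y01 : y0 j1 = q.y1 := if_pos rfl
  have y02 : y0 j2 = q.y2 := if_neg hj12
  have hd1 : P.df q.m y0 (true, j1) = sp1 P q.m q.y1 := by
    rw [Par.df_true, y01, hj1]
    rfl
  have hd2 : P.df q.m y0 (true, j2) = sp2 P q.m q.y2 := by
    rw [Par.df_true, y02, hj2]
    rfl
  have hd3 : nxt j1 = j2 → P.df q.m y0 (false, j1) = |q.y1 - q.y2| := by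
    intro he
    rw [Par.df_false, he, y01, y02]
  have hSup : Sup P (PP.filter (fun x => inR P.n (110, 190) x)) (GD P A) (85, 215) c := by
    intro v hv z1 z2 hz1 hz2 hz hz3 hz4
    refine (hB.svp v hv z1 z2 hz1 hz2 hz hz3 hz4).trans ?_
    have hsub : (PP.filter fun y => inR P.n (110, 190) y ∧ Df3 (GD P A) y (anc P.n v) z1 z2) ⊆
        ((PP.filter (fun x => inR P.n (110, 190) x)).filter
          fun x => Df3 (GD P A) x (anc P.n v) z1 z2) := by
      intro y hy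
      rw [mem_filter] at hy
      exact mem_filter.2 ⟨mem_filter.2 ⟨hy.1, hy.2.1⟩, hy.2.2⟩
    exact_mod_cast card_le_card hsub
  have hFL : (((UL Ps ∪ q.J).card : ℕ) : ℝ) ≤ ((P.L : ℝ) + 3) * Ps.card + 3 := by
    have h1 := card_union_le (UL Ps) q.J
    have h2 := UL_card hF
    have h3 := hq.cJ
    have h4 : (UL Ps ∪ q.J).card ≤ (P.L + 3) * Ps.card + 3 := by omega
    exact_mod_cast h4
  have hFD : (((UD Ps ∪ q.G).card : ℕ) : ℝ) ≤ (2 * (P.L : ℝ) + 5) * Ps.card + 5 := by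
    have h1 := card_union_le (UD Ps) q.G
    have h2 := UD_card hF
    have h3 := hq.cG
    have h4 : (UD Ps ∪ q.G).card ≤ (2 * P.L + 5) * Ps.card + 5 := by omega
    exact_mod_cast h4
  have hy : PLab P (ZP \ (UL Ps ∪ q.J)) (DP \ (UD Ps ∪ q.G)) q.m ({j1, j2} : Finset (Fin P.L))
      y0 := by
    have hl1 : q.y1 ∈ ZP \ (UL Ps ∪ q.J) := by
      have h1 := mem_sdiff.1 hq.y1Z
      exact mem_sdiff.2 ⟨h1.1, fun h2 => (mem_union.1 h2).elim h1.2 hq.y1J⟩
    have hl2 : q.y2 ∈ ZP \ (UL Ps ∪ q.J) := by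
      have h1 := mem_sdiff.1 hq.y2Z
      exact mem_sdiff.2 ⟨h1.1, fun h2 => (mem_union.1 h2).elim h1.2 hq.y2J⟩
    have he1 : sp1 P q.m q.y1 ∈ DP \ (UD Ps ∪ q.G) := by
      have h1 := mem_sdiff.1 hq.s1D
      exact mem_sdiff.2 ⟨h1.1, fun h2 => (mem_union.1 h2).elim h1.2 hq.s1G⟩
    have he2 : sp2 P q.m q.y2 ∈ DP \ (UD Ps ∪ q.G) := by
      have h1 := mem_sdiff.1 hq.s2D
      exact mem_sdiff.2 ⟨h1.1, fun h2 => (mem_union.1 h2).elim h1.2 hq.s2G⟩
    have he3 : |q.y1 - q.y2| ∈ DP \ (UD Ps ∪ q.G) := by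
      have h1 := mem_sdiff.1 hq.eD
      exact mem_sdiff.2 ⟨h1.1, fun h2 => (mem_union.1 h2).elim h1.2 hq.eG⟩
    refine ⟨?_, ?_, ?_, ?_⟩
    · intro j hj
      rw [mem_insert, mem_singleton] at hj
      rcases hj with hj | hj
      · rw [hj, y01]
        exact hl1
      · rw [hj, y02]
        exact hl2
    · intro j hj j' hj' he
      rw [mem_insert, mem_singleton] at hj hj'
      rcases hj with hj | hj <;> rcases hj' with hj' | hj'
      · rw [hj, hj']
      · rw [hj, hj', y01, y02] at he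
        exact absurd he hq.y12
      · rw [hj, hj', y01, y02] at he
        exact absurd he.symm hq.y12
      · rw [hj, hj']
    · intro i hi
      rcases apl_ix h hj1 hj2 hi with hi | hi | ⟨hi, hx⟩
      · rw [hi, hd1]
        exact he1
      · rw [hi, hd2]
        exact he2
      · rw [hi, hd3 hx]
        exact he3
    · intro i hi i' hi' he
      rcases apl_ix h hj1 hj2 hi with hi | hi | ⟨hi, hx⟩ <;>
        rcases apl_ix h hj1 hj2 hi' with hi' | hi' | ⟨hi', hx'⟩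
      · rw [hi, hi']
      · rw [hi, hi', hd1, hd2] at he
        exact absurd he hq.s12
      · rw [hi, hi', hd1, hd3 hx'] at he
        exact absurd he hq.s1e
      · rw [hi, hi', hd1, hd2] at he
        exact absurd he.symm hq.s12
      · rw [hi, hi']
      · rw [hi, hi', hd2, hd3 hx'] at he
        exact absurd he hq.s2e
      · rw [hi, hi', hd1, hd3 hx] at he
        exact absurd he.symm hq.s1e
      · rw [hi, hi', hd2, hd3 hx] at he
        exact absurd he.symm hq.s2e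
      · rw [hi, hi']
  have hST : ({j1, j2} : Finset (Fin P.L)) ⊆ pv P.L := by
    intro j hj
    rw [mem_insert, mem_singleton] at hj
    rw [mem_pv]
    rcases hj with hj | hj
    · rw [hj, hj1]
      omega
    · rw [hj, hj2]
      omega
  have hyw : ∀ j ∈ ({j1, j2} : Finset (Fin P.L)), inR P.n (85, 215) (y0 j) := by
    intro j hj
    rw [mem_insert, mem_singleton] at hj
    rcases hj with hj | hj
    · rw [hj, y01]
      exact hq.w1
    · rw [hj, y02]
      exact hq.w2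
  have hZw : ∀ x ∈ PP.filter (fun x => inR P.n (110, 190) x), inR P.n (85, 215) x := by
    intro x hx
    have h1 := (mem_filter.1 hx).2
    unfold inR at h1 ⊢
    simp only at h1 ⊢
    constructor
    · omega
    · omega
  obtain ⟨y', hy', hyS, hyT⟩ := fill h hn hSup (by norm_num) (by norm_num)
    ((filter_subset _ _).trans hPP) hGD hZw hZ
    (FL := UL Ps ∪ q.J) (FD := UD Ps ∪ q.G) (by linarith) hST hy hyw
  have hUL : ∀ j ∈ pv P.L, y' j ∉ UL Ps ∧ y' j ∉ q.J := by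
    intro j hj
    have h1 := mem_sdiff.1 (hy'.lab j hj)
    exact ⟨fun h2 => h1.2 (mem_union_left _ h2), fun h2 => h1.2 (mem_union_right _ h2)⟩
  have hUD : ∀ i ∈ ix (pv P.L), P.df q.m y' i ∉ UD Ps ∧ P.df q.m y' i ∉ q.G := by
    intro i hi
    have h1 := mem_sdiff.1 (hy'.dif i hi)
    exact ⟨fun h2 => h1.2 (mem_union_left _ h2), fun h2 => h1.2 (mem_union_right _ h2)⟩
  have hok : PackOk P ZP DP ⟨q.m, y', q.J, q.G⟩ := by
    refine ⟨hq.lt, ⟨?_, hy'.labi, ?_, hy'.difi⟩, ?_, ?_, ?_, ?_, hq.cJ, hq.cG, hyT⟩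
    · intro j hj
      exact (mem_sdiff.1 (hy'.lab j hj)).1
    · intro i hi
      exact (mem_sdiff.1 (hy'.dif i hi)).1
    · intro x hx
      exact (mem_sdiff.1 (hq.J_sub hx)).1
    · intro x hx
      exact (mem_sdiff.1 (hq.G_sub hx)).1
    · intro j hj
      exact (hUL j hj).2
    · intro i hi
      exact (hUD i hi).2
  have hdisL : Disjoint (Pack.Lab (⟨q.m, y', q.J, q.G⟩ : Pack P)) (UL Ps) := by
    rw [disjoint_left]
    intro x hx hx2
    unfold Pack.Lab at hx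
    rw [mem_union, mem_image] at hx
    rcases hx with ⟨j, hj, rfl⟩ | hx
    · exact (hUL j hj).1 hx2
    · exact (mem_sdiff.1 (hq.J_sub hx)).2 hx2
  have hdisD : Disjoint (Pack.Dif (⟨q.m, y', q.J, q.G⟩ : Pack P)) (UD Ps) := by
    rw [disjoint_left]
    intro x hx hx2
    unfold Pack.Dif Pack.pD at hx
    rw [mem_union, mem_image] at hx
    rcases hx with ⟨i, hi, rfl⟩ | hx
    · exact (hUD i hi).1 hx2
    · exact (mem_sdiff.1 (hq.G_sub hx)).2 hx2
  obtain ⟨hr, hins⟩ := fam_insert hF hok hm hdisL hdisD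
  refine ⟨⟨q.m, y', q.J, q.G⟩, ⟨rfl, ?_, ?_, rfl, rfl⟩, hr, hins, hdisD⟩
  · show lb y' 1 = q.y1
    have h1 := lb_eq y' j1
    rw [hj1] at h1
    rw [h1, hyS j1 (mem_insert_self _ _), y01]
  · show lb y' (P.L - 1) = q.y2
    have h1 := lb_eq y' j2
    rw [hj2] at h1
    rw [h1, hyS j2 (mem_insert_of_mem (mem_singleton_self _)), y02]

theorem plant {L p : ℕ} (hA : Adm L p) : PlantStat L p := by
  intro c hc
  have hL3 := hA.three
  have hL : (3 : ℝ) ≤ (L : ℝ) := by exact_mod_cast hL3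
  refine ⟨c / (100 * ((L : ℝ) + 3)), by positivity, ⌈2 * (20 * (L : ℝ) + 43) / c⌉₊ + 30, ?_⟩
  intro g hg K0 LAM1 LAM2 PP A hB ZP DP hPP hGD hZ Ps hF hPs q hq hm
  have hok : (Par.mk L p g).Ok := ⟨hA, by show 0 < g; omega⟩
  have hng : g ≤ (Par.mk L p g).n := hok.g_le_n
  have hn30 : 30 ≤ (Par.mk L p g).n := by omega
  have hgR : 2 * (20 * (L : ℝ) + 43) / c ≤ ((Par.mk L p g).n : ℝ) := by
    have h1 := Nat.le_ceil (2 * (20 * (L : ℝ) + 43) / c)
    have h2 : ⌈2 * (20 * (L : ℝ) + 43) / c⌉₊ ≤ (Par.mk L p g).n := by omega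
    have h3 : ((⌈2 * (20 * (L : ℝ) + 43) / c⌉₊ : ℕ) : ℝ) ≤ ((Par.mk L p g).n : ℝ) := by
      exact_mod_cast h2
    exact h1.trans h3
  have h5 : 2 * (20 * (L : ℝ) + 43) ≤ c * ((Par.mk L p g).n : ℝ) := by
    rw [div_le_iff₀ hc] at hgR
    linarith
  have h6 : ((L : ℝ) + 3) * (Ps.card : ℝ) ≤ c * ((Par.mk L p g).n : ℝ) / 100 := by
    have h7 : ((L : ℝ) + 3) * (Ps.card : ℝ) ≤
        ((L : ℝ) + 3) * (c / (100 * ((L : ℝ) + 3)) * ((Par.mk L p g).n : ℝ)) :=
      mul_le_mul_of_nonneg_left hPs (by positivity)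
    have h8 : ((L : ℝ) + 3) * (c / (100 * ((L : ℝ) + 3)) * ((Par.mk L p g).n : ℝ)) =
        c * ((Par.mk L p g).n : ℝ) / 100 := by
      field_simp
    rwa [h8] at h7
  have h9 : (2 * (L : ℝ) + 5) * (Ps.card : ℝ) ≤ 2 * (c * ((Par.mk L p g).n : ℝ) / 100) := by
    have h10 : (0 : ℝ) ≤ (Ps.card : ℝ) := Nat.cast_nonneg _
    nlinarith
  have hc0 : 0 ≤ c * ((Par.mk L p g).n : ℝ) := mul_nonneg hc.le (Nat.cast_nonneg _)
  refine apl_main hok hn30 hB hPP hGD hZ hF ?_ q hq hm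
  show ((L : ℝ) + 3) * Ps.card + 3 + 6 * ((2 * (L : ℝ) + 5) * Ps.card + 5)
      + 20 * (L : ℝ) + 10 ≤ c * (Par.mk L p g).n
  linarith

end Pool.Agent.PGo.A
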