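import Pool.Agent.PGo.ACvS
import Pool.Agent.PGo.APlant
import Pool.Agent.PGr.Sel

/-!
# PGo-ACvG: the cover packs of one group

PLAN. `c' := min (c / 20) 1`. Apply `selection` (PGr/Sel.lean) with `X := ℕ × ℤ × ℤ` (cores),
`D := (dall n).filter (fun d => gd P d ∧ inR n (rD q) d)` (at most `2n ≤ exp(c' N / 8)` elements), `good t d := CovOk P LAM1 A q d t`,
fraction `c'`, number `N`, and the invariant `Q l :=` there is a list `rs` of packs with
`List.Forall₂ (fun t r => IsPk P (cvCore t) r) l rs`, `rs.Nodup`, no element of `rs` in `Ps`,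
`PFam PP (dall n \ A) (Ps ∪ rs.toFinset)`, `l.Nodup`, `∀ t ∈ l, PlOk P PP A q t`, and the three lists
`l.map (y1 - y2)`, `l.map (anc m - y1)`, `l.map (anc m - y2)` are `Nodup`. Step: `cov_step` with `FC := UC Ps'`, `FL := UL Ps'`,
`FD := UD Ps'` for `Ps' := Ps ∪ rs.toFinset`, `V1, V2, V3` := the values of `l` (at most `N` elements), gives `Cd`; for
`t ∈ Cd` the theorem `plant` (with `ZP := PP`, `DP := dall n \ A ⊇ GD P A`) gives the pack `r`, and `Q (t :: l)` with
`r :: rs` (`t ∉ l` because `y1 - y2` is new). Sizes: `UL_card`, `UD_card`, `UC_card`, so `ε` of this theorem is the minimum of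
the two `ε` divided by `10 (L + 3)`.
Result: a list `l` of length `N`, packs `rs`; `new := rs.toFinset` (`N` elements, disjoint from `Ps`). For `d ∈ D`:
`M :=` the packs in `new` whose core `t ∈ l` satisfies `CovOk P LAM1 A q d t`: at least `c' N / 2` of them
(`countP`, `l.Nodup`; the map core ↦ pack is injective since `rs` is `Nodup`; it is convenient to prove first by induction
on `Forall₂` that there is a function `tc : Pack P → ℕ × ℤ × ℤ`, `tc r` the core of `r`, injective on `new`, with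
`IsPk P (cvCore (tc r)) r`). `x r := covX P q d (tc r)`, `e1 := covE`, `e2 := covF`. For `t = (m, y1, y2)`:
`univ.image (pd3 r (x r)) = {|x - anc m|, |x - y1|, |x - y2|}` (`IsPk`); `q ≠ 5`: `x = y1 + d`, `|x - y1| = d` (`d ≥ 1`, `dall_bd`),
`e1 = |x - anc m|`, `e2 = |x - y2|`; `q = 5`: `x = anc m - d`, `|x - anc m| = d`, `e1 = |x - y1|`, `e2 = |x - y2|`.
`x` is injective on `M`: `q ≠ 5`: equal `y1`, a label of both packs (`lb r.y 1 ∈ r.Lab`), but different packs have disjoint `Lab`;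
`q = 5`: equal `anc m`, so equal `m` (`anc_inj`) and equal residues (`PFam.res`). Multiplicity `≤ 4`: `e1 = s` or `e2 = s` for a
given `s`: `|y1 + d - y2| = s` determines `y1 - y2` up to two values, `|y1 + d - anc m| = s` determines `anc m - y1` up to two
values, `|anc m - d - y1| = s`, `|anc m - d - y2| = s` similarly; each value is taken at most once.
-/

noncomputable section

namespace Pool.Agent.PGo.A

open Finset Pool.Agent.PGr Pool.Agent.PGo.R

/-- the invariant of the selection -/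
private structure CvInv (P : Par) (PP DP : Finset ℤ) (Ps : Finset (Pack P))
    (l : List ((ℕ × ℤ × ℤ) × Pack P)) : Prop where
  pk : ∀ x ∈ l, IsPk P (cvCore x.1) x.2
  nd : (l.map Prod.snd).Nodup
  nin : ∀ x ∈ l, x.2 ∉ Ps
  fam : PFam P PP DP (Ps ∪ (l.map Prod.snd).toFinset)
  n1 : (l.map fun x => x.1.2.1 - x.1.2.2).Nodup
  n2 : (l.map fun x => anc P.n x.1.1 - x.1.2.1).Nodup
  n3 : (l.map fun x => anc P.n x.1.1 - x.1.2.2).Nodup

private theorem mult2 {α : Type} [DecidableEq α] (M : Finset α) (e v : α → ℤ) (k s : ℤ)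
    (hv : ∀ p ∈ M, ∀ p' ∈ M, v p = v p' → p = p') (he : ∀ p ∈ M, e p = |v p + k|) :
    (M.filter (fun p => e p = s)).card ≤ 2 := by
  have h1 : (M.filter (fun p => e p = s)).card ≤ ({s - k, -s - k} : Finset ℤ).card := by
    refine Finset.card_le_card_of_injOn v ?_ ?_
    · intro p hp
      obtain ⟨h2, h3⟩ := Finset.mem_filter.1 hp
      rw [he p h2] at h3
      have h4 : v p = s - k ∨ v p = -s - k := by
        rcases abs_cases (v p + k) with h5 | h5 <;> omega
      exact Finset.mem_coe.2 (by rw [Finset.mem_insert, Finset.mem_singleton]; exact h4)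
    · intro p hp p' hp' hpp
      exact hv p (Finset.mem_filter.1 hp).1 p' (Finset.mem_filter.1 hp').1 hpp
  exact h1.trans Finset.card_le_two

private theorem lb_one_mem {P : Par} (hL : 2 ≤ P.L) (r : Pack P) : lb r.y 1 ∈ r.Lab := by
  rw [lb_of_lt r.y (show 1 < P.L by omega)]
  exact Finset.mem_union_left _ (Finset.mem_image_of_mem _ (mem_pv.2 one_ne_zero))

private theorem pd3_image {P : Par} (r : Pack P) (x : ℤ) :
    (univ : Finset (Fin 3)).image (pd3 r x) =
      {|x - anc P.n r.m|, |x - lb r.y 1|, |x - lb r.y (P.L - 1)|} := by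
  have h : (univ : Finset (Fin 3)) = {0, 1, 2} := by decide
  rw [h, Finset.image_insert, Finset.image_insert, Finset.image_singleton]
  rfl

private theorem cov_of_list {P : Par} {PP DP A LAM1 : Finset ℤ} {q : Fin 6}
    {Ps : Finset (Pack P)} {l : List ((ℕ × ℤ × ℤ) × Pack P)} (h : CvInv P PP DP Ps l)
    (hL : 2 ≤ P.L) {d : ℤ} (hd : 1 ≤ d) (c : ℝ) (b : (ℕ × ℤ × ℤ) × Pack P → Bool)
    (hb : ∀ x, b x = true → CovOk P LAM1 A q d x.1) (hc : c ≤ ((l.countP b : ℕ) : ℝ)) :
    CovM LAM1 A (l.map Prod.snd).toFinset c d := by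
  have hinj : ∀ x ∈ l, ∀ x' ∈ l, x.2 = x'.2 → x = x' := fun x hx x' hx' he =>
    List.inj_on_of_nodup_map h.nd hx hx' he
  have hinj1 : ∀ x ∈ l, ∀ x' ∈ l, x.1.2.1 - x.1.2.2 = x'.1.2.1 - x'.1.2.2 → x = x' :=
    fun x hx x' hx' he => List.inj_on_of_nodup_map h.n1 hx hx' he
  have hinj2 : ∀ x ∈ l, ∀ x' ∈ l, anc P.n x.1.1 - x.1.2.1 = anc P.n x'.1.1 - x'.1.2.1 → x = x' :=
    fun x hx x' hx' he => List.inj_on_of_nodup_map h.n2 hx hx' he
  have hinj3 : ∀ x ∈ l, ∀ x' ∈ l, anc P.n x.1.1 - x.1.2.2 = anc P.n x'.1.1 - x'.1.2.2 → x = x' :=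
    fun x hx x' hx' he => List.inj_on_of_nodup_map h.n3 hx hx' he
  obtain ⟨tc, htc⟩ : ∃ tc : Pack P → ℕ × ℤ × ℤ, ∀ x ∈ l, tc x.2 = x.1 := by
    classical
    refine ⟨fun r => if hr : ∃ x ∈ l, x.2 = r then (Classical.choose hr).1 else (0, 0, 0), ?_⟩
    intro x hx
    have hr : ∃ x' ∈ l, x'.2 = x.2 := ⟨x, hx, rfl⟩
    have h1 := Classical.choose_spec hr
    simp only [dif_pos hr]
    rw [hinj _ h1.1 _ hx h1.2]
  have hmem : ∀ r ∈ ((l.filter b).map Prod.snd).toFinset, ∃ x ∈ l, b x = true ∧ x.2 = r := by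
    intro r hr
    obtain ⟨x, hx, rfl⟩ := List.mem_map.1 (List.mem_toFinset.1 hr)
    exact ⟨x, (List.mem_filter.1 hx).1, (List.mem_filter.1 hx).2, rfl⟩
  have hall : ∀ x ∈ l, x.2 ∈ Ps ∪ (l.map Prod.snd).toFinset := fun x hx =>
    Finset.mem_union_right _ (List.mem_toFinset.2 (List.mem_map_of_mem hx))
  refine ⟨((l.filter b).map Prod.snd).toFinset, fun r => covX P q d (tc r),
    fun r => covE P q d (tc r), fun r => covF P q d (tc r), ?_, ?_, ?_, ?_, ?_⟩
  · intro r hr
    obtain ⟨x, hx, _, rfl⟩ := hmem r hr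
    exact List.mem_toFinset.2 (List.mem_map_of_mem hx)
  · rw [List.toFinset_card_of_nodup (h.nd.sublist (List.filter_sublist.map _)), List.length_map,
      ← List.countP_eq_length_filter]
    exact hc
  · intro r hr
    obtain ⟨x, hx, hbx, rfl⟩ := hmem r hr
    have hcov := hb x hbx
    obtain ⟨k1, k2, k3, _, _⟩ := h.pk x hx
    have k1' : x.2.m = x.1.1 := k1
    have k2' : lb x.2.y 1 = x.1.2.1 := k2
    have k3' : lb x.2.y (P.L - 1) = x.1.2.2 := k3
    simp only [htc x hx]
    refine ⟨hcov.1, hcov.2.1, hcov.2.2.1, hcov.2.2.2, ?_⟩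
    rw [pd3_image, k1', k2', k3']
    by_cases hq : q = 5
    · simp only [covX, covE, covF, if_pos hq]
      have e1 : |anc P.n x.1.1 - d - anc P.n x.1.1| = d := by
        rcases abs_cases (anc P.n x.1.1 - d - anc P.n x.1.1) with h5 | h5 <;> omega
      rw [e1]
    · simp only [covX, covE, covF, if_neg hq]
      have e1 : |x.1.2.1 + d - x.1.2.1| = d := by
        rcases abs_cases (x.1.2.1 + d - x.1.2.1) with h5 | h5 <;> omega
      rw [e1, Finset.insert_comm]
  · intro r hr r' hr' he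
    obtain ⟨x, hx, _, rfl⟩ := hmem r hr
    obtain ⟨x', hx', _, rfl⟩ := hmem r' hr'
    obtain ⟨k1, k2, _, _, _⟩ := h.pk x hx
    obtain ⟨k1', k2', _, _, _⟩ := h.pk x' hx'
    have m1 : x.2.m = x.1.1 := k1
    have m1' : x'.2.m = x'.1.1 := k1'
    have m2 : lb x.2.y 1 = x.1.2.1 := k2
    have m2' : lb x'.2.y 1 = x'.1.2.1 := k2'
    simp only [htc x hx, htc x' hx'] at he
    by_cases hq : q = 5
    · simp only [covX, if_pos hq] at he
      have h1 : anc P.n x.1.1 = anc P.n x'.1.1 := by omega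
      have h2 : x.1.1 = x'.1.1 := by
        refine anc_inj ?_ ?_ h1
        · rw [← m1]
          exact (h.fam.ok _ (hall x hx)).lt
        · rw [← m1']
          exact (h.fam.ok _ (hall x' hx')).lt
      exact h.fam.res _ (hall x hx) _ (hall x' hx') (by rw [m1, m1', h2])
    · simp only [covX, if_neg hq] at he
      by_contra hne
      have h1 := h.fam.lab _ (hall x hx) _ (hall x' hx') hne
      have h2 : lb x.2.y 1 ∈ x.2.Lab := lb_one_mem hL _
      have h3 : lb x'.2.y 1 ∈ x'.2.Lab := lb_one_mem hL _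
      have h4 : lb x.2.y 1 = lb x'.2.y 1 := by
        rw [m2, m2']
        omega
      rw [← h4] at h3
      exact Finset.disjoint_left.1 h1 h2 h3
  · intro s
    have hE : (((l.filter b).map Prod.snd).toFinset.filter
        (fun r => covE P q d (tc r) = s)).card ≤ 2 := by
      refine mult2 _ _ (fun r => anc P.n (tc r).1 - (tc r).2.1) (-d) s ?_ ?_
      · intro r hr r' hr' he
        obtain ⟨x, hx, _, rfl⟩ := hmem r hr
        obtain ⟨x', hx', _, rfl⟩ := hmem r' hr'
        simp only [htc x hx, htc x' hx'] at he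
        rw [hinj2 x hx x' hx' he]
      · intro r hr
        by_cases hq : q = 5
        · simp only [covX, covE, if_pos hq]
          congr 1
          ring
        · simp only [covX, covE, if_neg hq]
          rw [← abs_neg]
          congr 1
          ring
    have hF : (((l.filter b).map Prod.snd).toFinset.filter
        (fun r => covF P q d (tc r) = s)).card ≤ 2 := by
      by_cases hq : q = 5
      · refine mult2 _ _ (fun r => anc P.n (tc r).1 - (tc r).2.2) (-d) s ?_ ?_
        · intro r hr r' hr' he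
          obtain ⟨x, hx, _, rfl⟩ := hmem r hr
          obtain ⟨x', hx', _, rfl⟩ := hmem r' hr'
          simp only [htc x hx, htc x' hx'] at he
          rw [hinj3 x hx x' hx' he]
        · intro r hr
          simp only [covX, covF, if_pos hq]
          congr 1
          ring
      · refine mult2 _ _ (fun r => (tc r).2.1 - (tc r).2.2) d s ?_ ?_
        · intro r hr r' hr' he
          obtain ⟨x, hx, _, rfl⟩ := hmem r hr
          obtain ⟨x', hx', _, rfl⟩ := hmem r' hr'
          simp only [htc x hx, htc x' hx'] at he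
          rw [hinj1 x hx x' hx' he]
        · intro r hr
          simp only [covX, covF, if_neg hq]
          congr 1
          ring
    rw [Finset.filter_or]
    exact (Finset.card_union_le _ _).trans (Nat.add_le_add hE hF)

theorem cov_group {L p : ℕ} (hA : Adm L p) : ∀ c : ℝ, 0 < c → ∃ ε : ℝ, 0 < ε ∧ ∃ g0 : ℕ,
    ∀ g : ℕ, g0 ≤ g → ∀ (K0 : ℕ) (LAM1 LAM2 PP A : Finset ℤ),
    Bits (Par.mk L p g) K0 c LAM1 LAM2 PP A → ∀ Ps : Finset (Pack (Par.mk L p g)),
    PFam (Par.mk L p g) PP (dall (Par.mk L p g).n \ A) Ps →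
    ∀ (q : Fin 6) (N : ℕ), 0 < N → ((Ps.card + N : ℕ) : ℝ) ≤ ε * (Par.mk L p g).n →
    2 * ((Par.mk L p g).n : ℝ) + 2 ≤ Real.exp (min (c / 20) 1 * N / 8) →
    ∃ new : Finset (Pack (Par.mk L p g)), new.card = N ∧ Disjoint Ps new ∧
      PFam (Par.mk L p g) PP (dall (Par.mk L p g).n \ A) (Ps ∪ new) ∧
      (∀ r ∈ new, r.J = ∅ ∧ r.G = ∅) ∧
      ∀ d ∈ dall (Par.mk L p g).n, gd (Par.mk L p g) d → inR (Par.mk L p g).n (rD q) d →
        CovM LAM1 A new (min (c / 20) 1 * N / 2) d := by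
  classical
  intro c hc
  obtain ⟨ε1, hε1, g1, H1⟩ := cov_step hA c hc
  obtain ⟨ε2, hε2, g2, H2⟩ := plant hA c hc
  have hL3 := hA.three
  have hden : (0 : ℝ) < 2 * L + 6 := by positivity
  refine ⟨min ε1 ε2 / (2 * L + 6), div_pos (lt_min hε1 hε2) hden, max (max g1 g2) 1, ?_⟩
  intro g hg K0 LAM1 LAM2 PP A hB Ps hPs q N hN hcard hexp
  have hg1 : g1 ≤ g := (le_max_left _ _).trans ((le_max_left _ _).trans hg)
  have hg2 : g2 ≤ g := (le_max_right _ _).trans ((le_max_left _ _).trans hg)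
  have hg0 : 0 < g := lt_of_lt_of_le zero_lt_one ((le_max_right _ _).trans hg)
  have hPL : (Par.mk L p g).L = L := rfl
  have H1' := H1 g hg1 K0 LAM1 LAM2 PP A hB
  have H2' := H2 g hg2 K0 LAM1 LAM2 PP A hB PP (dall (Par.mk L p g).n \ A) (Finset.Subset.refl _)
    (Finset.filter_subset _ _) hB.pp
  have hn3 : 3 ≤ (Par.mk L p g).n := by
    have : 3 * 1 ≤ L * g := Nat.mul_le_mul hL3 hg0
    exact this
  generalize hP : Par.mk L p g = P at *
  -- the numerical facts
  have hnum : ∀ k : ℕ, k ≤ Ps.card + N → ((2 * L + 6) * k : ℝ) ≤ min ε1 ε2 * P.n := by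
    intro k hk
    have h1 : (k : ℝ) ≤ min ε1 ε2 / (2 * L + 6) * P.n := by
      refine le_trans ?_ hcard
      exact_mod_cast hk
    calc ((2 * L + 6) * k : ℝ) ≤ (2 * L + 6) * (min ε1 ε2 / (2 * L + 6) * P.n) :=
          mul_le_mul_of_nonneg_left h1 hden.le
      _ = min ε1 ε2 * P.n := by
          field_simp
  have hmin1 : min ε1 ε2 * P.n ≤ ε1 * P.n :=
    mul_le_mul_of_nonneg_right (min_le_left _ _) (Nat.cast_nonneg _)
  have hmin2 : min ε1 ε2 * P.n ≤ ε2 * P.n :=
    mul_le_mul_of_nonneg_right (min_le_right _ _) (Nat.cast_nonneg _)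
  have hle : ∀ a k : ℕ, a ≤ (2 * L + 6) * k → k ≤ Ps.card + N →
      (a : ℝ) ≤ ε1 * P.n ∧ (a : ℝ) ≤ ε2 * P.n := by
    intro a k h1 h2
    have h3 : (a : ℝ) ≤ (2 * L + 6) * k := by exact_mod_cast h1
    have h4 := hnum k h2
    exact ⟨by linarith, by linarith⟩
  have hD : (((((dall P.n).filter fun d => gd P d ∧ inR P.n (rD q) d)).card : ℕ) : ℝ) ≤
      Real.exp (min (c / 20) 1 * N / 8) := by
    refine le_trans ?_ hexp
    have h1 : ((dall P.n).filter fun d => gd P d ∧ inR P.n (rD q) d).card ≤ 2 * P.n :=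
      (Finset.card_filter_le _ _).trans (dall_card hn3).le
    have h2 : ((((dall P.n).filter fun d => gd P d ∧ inR P.n (rD q) d).card : ℕ) : ℝ) ≤
        2 * P.n := by exact_mod_cast h1
    linarith
  have hnil : CvInv P PP (dall P.n \ A) Ps [] := by
    refine ⟨fun x hx => absurd hx List.not_mem_nil, List.nodup_nil,
      fun x hx => absurd hx List.not_mem_nil, ?_, List.nodup_nil, List.nodup_nil,
      List.nodup_nil⟩
    rw [List.map_nil, List.toFinset_nil, Finset.union_empty]
    exact hPs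
  have hstep : ∀ l : List ((ℕ × ℤ × ℤ) × Pack P), CvInv P PP (dall P.n \ A) Ps l →
      l.length < N → ∃ A' : Finset ((ℕ × ℤ × ℤ) × Pack P), A'.Nonempty ∧
      (∀ x ∈ A', CvInv P PP (dall P.n \ A) Ps (x :: l)) ∧
      ∀ d ∈ (dall P.n).filter (fun d => gd P d ∧ inR P.n (rD q) d),
        min (c / 20) 1 * A'.card ≤
          ((A'.filter fun x => CovOk P LAM1 A q d x.1).card : ℝ) := by
    intro l hl hlen
    obtain ⟨Q, hQ⟩ : ∃ Q, Q = Ps ∪ (l.map Prod.snd).toFinset := ⟨_, rfl⟩
    have hQfam : PFam P PP (dall P.n \ A) Q := hQ ▸ hl.fam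
    have hQc : Q.card ≤ Ps.card + N := by
      rw [hQ]
      refine (Finset.card_union_le _ _).trans (Nat.add_le_add_left ?_ _)
      rw [List.toFinset_card_of_nodup hl.nd, List.length_map]
      exact hlen.le
    have hUC := UC_card hQfam
    have hUL := UL_card hQfam
    have hUD := UD_card hQfam
    have hlist : ∀ f : (ℕ × ℤ × ℤ) × Pack P → ℤ, ((l.map f).toFinset.card : ℝ) ≤ ε1 * P.n := by
      intro f
      refine (hle _ N ?_ (Nat.le_add_left _ _)).1
      refine (List.toFinset_card_le _).trans ?_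
      rw [List.length_map]
      nlinarith [hlen.le, Nat.zero_le (2 * L * N)]
    have hPL' : P.L = L := by rw [← hP]
    obtain ⟨Cd, hCne, hCok, hCd⟩ := H1' (UC Q) (UL Q) (UD Q)
      (l.map fun x => x.1.2.1 - x.1.2.2).toFinset
      (l.map fun x => anc P.n x.1.1 - x.1.2.1).toFinset
      (l.map fun x => anc P.n x.1.1 - x.1.2.2).toFinset
      (hle _ Q.card (by rw [hUC]; nlinarith [Nat.zero_le (2 * L * Q.card)]) hQc).1
      (hle _ Q.card (hUL.trans (Nat.mul_le_mul_right _ (by omega))) hQc).1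
      (hle _ Q.card (hUD.trans (Nat.mul_le_mul_right _ (by omega))) hQc).1
      (hlist _) (hlist _) (hlist _) q
    have hplant : ∀ t ∈ Cd, ∃ r : Pack P, IsPk P (cvCore t) r ∧ r ∉ Q ∧
        PFam P PP (dall P.n \ A) (insert r Q) := by
      intro t ht
      obtain ⟨_, k2, k3, _, _, _⟩ := hCok t ht
      have h5 : (Q.card : ℝ) ≤ ε2 * P.n := by
        refine (hle _ Q.card ?_ hQc).2
        nlinarith [Nat.zero_le (2 * L * Q.card)]
      obtain ⟨r, m1, m2, m3, _⟩ := H2' Q hQfam h5 (cvCore t) k3 k2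
      exact ⟨r, m1, m2, m3⟩
    have : Nonempty (Pack P) := ⟨⟨0, fun _ => 0, ∅, ∅⟩⟩
    choose! r hr1 hr2 hr3 using hplant
    have hinjt : Function.Injective (fun t : ℕ × ℤ × ℤ => (t, r t)) := fun t t' h =>
      (Prod.ext_iff.1 h).1
    refine ⟨Cd.image (fun t => (t, r t)), hCne.image _, ?_, ?_⟩
    · intro x hx
      obtain ⟨t, ht, rfl⟩ := Finset.mem_image.1 hx
      obtain ⟨_, _, _, v1, v2, v3⟩ := hCok t ht
      have hrQ := hr2 t ht
      rw [hQ, Finset.mem_union, not_or] at hrQ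
      refine ⟨?_, ?_, ?_, ?_, ?_, ?_, ?_⟩
      · intro y hy
        rcases List.mem_cons.1 hy with rfl | hy
        · exact hr1 t ht
        · exact hl.pk y hy
      · rw [List.map_cons, List.nodup_cons]
        exact ⟨fun h => hrQ.2 (List.mem_toFinset.2 h), hl.nd⟩
      · intro y hy
        rcases List.mem_cons.1 hy with rfl | hy
        · exact hrQ.1
        · exact hl.nin y hy
      · rw [List.map_cons, List.toFinset_cons, Finset.union_insert, ← hQ]
        exact hr3 t ht
      · rw [List.map_cons, List.nodup_cons]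
        exact ⟨fun h => v1 (List.mem_toFinset.2 h), hl.n1⟩
      · rw [List.map_cons, List.nodup_cons]
        exact ⟨fun h => v2 (List.mem_toFinset.2 h), hl.n2⟩
      · rw [List.map_cons, List.nodup_cons]
        exact ⟨fun h => v3 (List.mem_toFinset.2 h), hl.n3⟩
    · intro d hd
      obtain ⟨hd1, hd2, hd3⟩ := Finset.mem_filter.1 hd
      rw [Finset.card_image_of_injective _ hinjt, Finset.filter_image,
        Finset.card_image_of_injective _ hinjt]
      refine le_trans ?_ (hCd d hd1 hd2 hd3)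
      exact mul_le_mul_of_nonneg_right (min_le_left _ _) (Nat.cast_nonneg _)
  obtain ⟨l, hlen, hInv, hcnt⟩ := selection
    ((dall P.n).filter fun d => gd P d ∧ inR P.n (rD q) d)
    (fun (x : (ℕ × ℤ × ℤ) × Pack P) (d : ℤ) => CovOk P LAM1 A q d x.1) (min (c / 20) 1)
    (lt_min (by positivity) one_pos) (min_le_right _ _) N hD hN
    (CvInv P PP (dall P.n \ A) Ps) hnil hstep
  refine ⟨(l.map Prod.snd).toFinset, ?_, ?_, hInv.fam, ?_, ?_⟩
  · rw [List.toFinset_card_of_nodup hInv.nd, List.length_map, hlen]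
  · rw [Finset.disjoint_right]
    intro r hr
    obtain ⟨x, hx, rfl⟩ := List.mem_map.1 (List.mem_toFinset.1 hr)
    exact hInv.nin x hx
  · intro r hr
    obtain ⟨x, hx, rfl⟩ := List.mem_map.1 (List.mem_toFinset.1 hr)
    obtain ⟨_, _, _, k4, k5⟩ := hInv.pk x hx
    exact ⟨k4, k5⟩
  · intro d hd1 hd2 hd3
    refine cov_of_list hInv (by omega) (dall_bd hd1).1 _
      (fun x => decide (CovOk P LAM1 A q d x.1)) (fun x hx => of_decide_eq_true hx) ?_
    exact hcnt d (Finset.mem_filter.2 ⟨hd1, hd2, hd3⟩)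

end Pool.Agent.PGo.A
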