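import Pool.Agent.PGo.ABase

/-!
# PGo-ACvS: candidates for the next cover pack

PLAN. `P := Par.mk L p g`, `n = L g`. Let `Base` be the set of the `t ∈ range n ×ˢ zall n ×ˢ zall n` with `PlOk P PP A q t`, and
`Cd` the set of the `t ∈ Base` which satisfy all the required conditions; `|Cd| ≤ n (2n+1)^2 ≤ 9 n^3`.
If `t ∈ Base` satisfies: `t.1 % g ∉ FC`, `y1, y2 ∉ FL`, `sp1, sp2, |y1 - y2| ∉ FD`, `y1 - y2 ∉ V1`, `anc m - y1 ∉ V2`,
`anc m - y2 ∉ V3`, then `t ∈ Cd` (`CoreOk` for `cvCore t`: `J = G = ∅`; `y1 ≠ y2` because the ranges `rY1 q`, `rY2 q` are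
disjoint; windows `(85, 215)`; everything else is in `PlOk`; `PP ⊆ zall`). The number of `t ∈ Base` violating a
condition: `t.1 % g ∈ FC`: at most `L |FC| (2n+1)^2` (every residue has `L` representatives `< n = L g`); `y1 ∈ FL`,
`y2 ∈ FL`: at most `n |FL| (2n+1)` each; `sp1 ∈ FD`: for given `m, y2` at most `2 |FD|` values `y1`, so `≤ 2 n |FD| (2n+1)`; the
same for `sp2` (given `m, y1`) and `|y1 - y2|`; `V1, V2, V3`: at most `n |V_i| (2n+1)` each. Together `≤ C(L) ε n^3 ≤ c n^3 / 2`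
for a suitable `ε`. So for every `d ∈ dall n` with `gd P d`, `inR n (rD q) d`: by `Bits.cov` at least `c n^3 - c n^3 / 2` elements
of `Cd` satisfy `CovOk P LAM1 A q d t`, and this is `≥ (c / 20) |Cd|`. `Cd` is nonempty: choose one `d ∈ dall n` in the range
`rD q` with `gd P d` (for large `n` every range contains more than 10 integers, at most three are not in `dall n`,
at most two are not `gd`) and use the same estimate.
-/

noncomputable section

namespace Pool.Agent.PGo.A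

open Finset Pool.Agent.PGr Pool.Agent.PGo.R

private theorem cs_cntA (n : ℕ) (Z : Finset ℤ) (Q : ℕ × ℤ × ℤ → Prop) [DecidablePred Q] (k : ℕ)
    (h : ∀ m < n, ∀ y2 ∈ Z, (Z.filter (fun y1 => Q (m, y1, y2))).card ≤ k) :
    ((range n ×ˢ Z ×ˢ Z).filter Q).card ≤ k * (n * Z.card) := by
  have h1 := Finset.card_le_mul_card_image_of_maps_to (f := fun t : ℕ × ℤ × ℤ => (t.1, t.2.2))
    (s := (range n ×ˢ Z ×ˢ Z).filter Q) (t := range n ×ˢ Z) ?_ k ?_
  · rwa [card_product, card_range] at h1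
  · intro t ht
    rw [mem_filter, mem_product, mem_product] at ht
    exact mem_product.2 ⟨ht.1.1, ht.1.2.2⟩
  · rintro ⟨m, y2⟩ hb
    rw [mem_product, mem_range] at hb
    refine le_trans (card_le_card_of_injOn (fun x => x.2.1) ?_ ?_) (h m hb.1 y2 hb.2)
    · intro t ht
      rw [mem_coe, mem_filter, mem_filter, mem_product, mem_product] at ht
      obtain ⟨⟨⟨ht1, ht2, ht3⟩, ht4⟩, ht5⟩ := ht
      have e1 : t.1 = m := congrArg Prod.fst ht5
      have e2 : t.2.2 = y2 := congrArg Prod.snd ht5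
      rw [mem_coe, mem_filter]
      refine ⟨ht2, ?_⟩
      rw [← e1, ← e2]
      exact ht4
    · intro t ht t' ht' he
      rw [mem_coe, mem_filter] at ht ht'
      have e1 : t.1 = m := congrArg Prod.fst ht.2
      have e2 : t.2.2 = y2 := congrArg Prod.snd ht.2
      have e3 : t'.1 = m := congrArg Prod.fst ht'.2
      have e4 : t'.2.2 = y2 := congrArg Prod.snd ht'.2
      exact Prod.ext (e1.trans e3.symm) (Prod.ext he (e2.trans e4.symm))

private theorem cs_cntB (n : ℕ) (Z : Finset ℤ) (Q : ℕ × ℤ × ℤ → Prop) [DecidablePred Q] (k : ℕ)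
    (h : ∀ m < n, ∀ y1 ∈ Z, (Z.filter (fun y2 => Q (m, y1, y2))).card ≤ k) :
    ((range n ×ˢ Z ×ˢ Z).filter Q).card ≤ k * (n * Z.card) := by
  have h1 := Finset.card_le_mul_card_image_of_maps_to (f := fun t : ℕ × ℤ × ℤ => (t.1, t.2.1))
    (s := (range n ×ˢ Z ×ˢ Z).filter Q) (t := range n ×ˢ Z) ?_ k ?_
  · rwa [card_product, card_range] at h1
  · intro t ht
    rw [mem_filter, mem_product, mem_product] at ht
    exact mem_product.2 ⟨ht.1.1, ht.1.2.1⟩
  · rintro ⟨m, y1⟩ hb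
    rw [mem_product, mem_range] at hb
    refine le_trans (card_le_card_of_injOn (fun x => x.2.2) ?_ ?_) (h m hb.1 y1 hb.2)
    · intro t ht
      rw [mem_coe, mem_filter, mem_filter, mem_product, mem_product] at ht
      obtain ⟨⟨⟨ht1, ht2, ht3⟩, ht4⟩, ht5⟩ := ht
      have e1 : t.1 = m := congrArg Prod.fst ht5
      have e2 : t.2.1 = y1 := congrArg Prod.snd ht5
      rw [mem_coe, mem_filter]
      refine ⟨ht3, ?_⟩
      rw [← e1, ← e2]
      exact ht4
    · intro t ht t' ht' he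
      rw [mem_coe, mem_filter] at ht ht'
      have e1 : t.1 = m := congrArg Prod.fst ht.2
      have e2 : t.2.1 = y1 := congrArg Prod.snd ht.2
      have e3 : t'.1 = m := congrArg Prod.fst ht'.2
      have e4 : t'.2.1 = y1 := congrArg Prod.snd ht'.2
      exact Prod.ext (e1.trans e3.symm) (Prod.ext (e2.trans e4.symm) he)

private theorem cs_res (L g : ℕ) (FC : Finset ℕ) :
    ((range (L * g)).filter (fun m => m % g ∈ FC)).card ≤ L * FC.card := by
  rw [mul_comm L FC.card, ← card_range L, ← card_product, card_range]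
  refine card_le_card_of_injOn (fun m => (m % g, m / g)) ?_ ?_
  · intro m hm
    rw [mem_coe, mem_filter, mem_range] at hm
    rw [mem_coe, mem_product, mem_range]
    refine ⟨hm.2, Nat.div_lt_of_lt_mul ?_⟩
    rw [mul_comm]
    exact hm.1
  · intro m _ m' _ he
    have e1 : m % g = m' % g := congrArg Prod.fst he
    have e2 : m / g = m' / g := congrArg Prod.snd he
    rw [← Nat.div_add_mod m g, ← Nat.div_add_mod m' g, e1, e2]

private theorem cs_abs (Z F : Finset ℤ) (a : ℤ) :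
    (Z.filter (fun y => |y - a| ∈ F)).card ≤ 2 * F.card := by
  have hsub : Z.filter (fun y => |y - a| ∈ F) ⊆ F.image (fun d => a + d) ∪
      F.image (fun d => a - d) := by
    intro y hy
    rw [mem_filter] at hy
    rw [mem_union, mem_image, mem_image]
    rcases abs_choice (y - a) with h | h
    · left
      exact ⟨y - a, by rw [← h]; exact hy.2, by ring⟩
    · right
      exact ⟨-(y - a), by rw [← h]; exact hy.2, by ring⟩
  calc (Z.filter (fun y => |y - a| ∈ F)).card ≤ _ := card_le_card hsub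
    _ ≤ (F.image (fun d => a + d)).card + (F.image (fun d => a - d)).card := card_union_le _ _
    _ ≤ F.card + F.card := Nat.add_le_add card_image_le card_image_le
    _ = 2 * F.card := by ring

private theorem cs_sub1 (Z V : Finset ℤ) (a : ℤ) :
    (Z.filter (fun y => y - a ∈ V)).card ≤ V.card := by
  refine card_le_card_of_injOn (fun y => y - a) ?_ ?_
  · intro y hy
    rw [mem_coe, mem_filter] at hy
    exact hy.2
  · intro y _ y' _ he
    have : y - a = y' - a := he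
    linarith

private theorem cs_sub2 (Z V : Finset ℤ) (a : ℤ) :
    (Z.filter (fun y => a - y ∈ V)).card ≤ V.card := by
  refine card_le_card_of_injOn (fun y => a - y) ?_ ?_
  · intro y hy
    rw [mem_coe, mem_filter] at hy
    exact hy.2
  · intro y _ y' _ he
    have : a - y = a - y' := he
    linarith

private theorem cs_mem (Z V : Finset ℤ) : (Z.filter (fun y => y ∈ V)).card ≤ V.card := by
  refine card_le_card fun y hy => ?_
  rw [mem_filter] at hy
  exact hy.2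

private theorem cs_rD (q : Fin 6) : 0 ≤ (rD q).1 ∧ (rD q).1 + 10 ≤ (rD q).2 ∧ (rD q).1 ≤ 155 := by
  fin_cases q <;> simp [rD]

private theorem cs_y12 (q : Fin 6) {n : ℕ} (hn : 0 < n) {y1 y2 : ℤ} (h1 : inR n (rY1 q) y1)
    (h2 : inR n (rY2 q) y2) : y1 ≠ y2 := by
  unfold inR at h1 h2
  have hn' : (0 : ℤ) < n := by exact_mod_cast hn
  rintro rfl
  fin_cases q <;> simp [rY1, rY2] at h1 h2 <;> omega

private theorem cs_w1 (q : Fin 6) {n : ℕ} {y1 : ℤ} (h1 : inR n (rY1 q) y1) :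
    inR n (85, 215) y1 := by
  unfold inR at h1 ⊢
  have hn' : (0 : ℤ) ≤ n := by exact_mod_cast Nat.zero_le n
  fin_cases q <;> simp [rY1] at h1 ⊢ <;> omega

private theorem cs_w2 (q : Fin 6) {n : ℕ} {y1 : ℤ} (h1 : inR n (rY2 q) y1) :
    inR n (85, 215) y1 := by
  unfold inR at h1 ⊢
  have hn' : (0 : ℤ) ≤ n := by exact_mod_cast Nat.zero_le n
  fin_cases q <;> simp [rY2] at h1 ⊢ <;> omega

/-- every range contains a difference -/
private theorem cs_ex (P : Par) (hn : 100 ≤ P.n) (q : Fin 6) :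
    ∃ d ∈ dall P.n, gd P d ∧ inR P.n (rD q) d := by
  obtain ⟨ha, hb, hc⟩ := cs_rD q
  have hn' : (100 : ℤ) ≤ P.n := by exact_mod_cast hn
  have e1 : 0 ≤ (rD q).1 * (P.n : ℤ) := mul_nonneg ha (by omega)
  have e2 : (rD q).1 * (P.n : ℤ) ≤ 155 * P.n := mul_le_mul_of_nonneg_right hc (by omega)
  have e3 : (rD q).1 * (P.n : ℤ) + 10 * P.n ≤ (rD q).2 * P.n := by
    rw [← add_mul]
    exact mul_le_mul_of_nonneg_right hb (by omega)
  set d0 : ℤ := (rD q).1 * (P.n : ℤ) / 100 + 1 with hd0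
  set F : Finset ℤ := {(P.n : ℤ) + 1, (3 * (P.n : ℤ)) / 2, ((P.n : ℤ) - 1) / 2, (P.k : ℤ) / 2,
    ((P.n : ℤ) - P.k) / 2} with hF
  have hFc : F.card ≤ 5 := card_le_five
  have hlt : F.card < (Icc d0 (d0 + 5)).card := by
    rw [Int.card_Icc]
    omega
  obtain ⟨e, he1, he2⟩ := exists_mem_notMem_of_card_lt_card hlt
  rw [mem_Icc] at he1
  rw [hF] at he2
  simp only [mem_insert, mem_singleton, not_or] at he2
  obtain ⟨f1, f2, f3, f4, f5⟩ := he2
  refine ⟨e, mem_dall (by omega) (by omega) f1 (by omega) (by omega), ⟨?_, ?_⟩, ?_⟩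
  · intro h
    apply f4
    omega
  · intro h
    apply f5
    omega
  · unfold inR
    constructor <;> omega

open Classical in
theorem cov_step {L p : ℕ} (hA : Adm L p) : ∀ c : ℝ, 0 < c → ∃ ε : ℝ, 0 < ε ∧ ∃ g0 : ℕ,
    ∀ g : ℕ, g0 ≤ g → ∀ (K0 : ℕ) (LAM1 LAM2 PP A : Finset ℤ),
    Bits (Par.mk L p g) K0 c LAM1 LAM2 PP A →
    ∀ (FC : Finset ℕ) (FL FD V1 V2 V3 : Finset ℤ), (FC.card : ℝ) ≤ ε * (Par.mk L p g).n →
    (FL.card : ℝ) ≤ ε * (Par.mk L p g).n → (FD.card : ℝ) ≤ ε * (Par.mk L p g).n →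
    (V1.card : ℝ) ≤ ε * (Par.mk L p g).n → (V2.card : ℝ) ≤ ε * (Par.mk L p g).n →
    (V3.card : ℝ) ≤ ε * (Par.mk L p g).n →
    ∀ q : Fin 6, ∃ Cd : Finset (ℕ × ℤ × ℤ), Cd.Nonempty ∧
      (∀ t ∈ Cd, PlOk (Par.mk L p g) PP A q t ∧ t.1 % (Par.mk L p g).g ∉ FC ∧
        CoreOk (Par.mk L p g) (PP \ FL) ((dall (Par.mk L p g).n \ A) \ FD) (cvCore t) ∧
        t.2.1 - t.2.2 ∉ V1 ∧ anc (Par.mk L p g).n t.1 - t.2.1 ∉ V2 ∧
        anc (Par.mk L p g).n t.1 - t.2.2 ∉ V3) ∧
      ∀ d ∈ dall (Par.mk L p g).n, gd (Par.mk L p g) d → inR (Par.mk L p g).n (rD q) d →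
        (c / 20) * (Cd.card : ℝ) ≤
          ((Cd.filter (fun t => CovOk (Par.mk L p g) LAM1 A q d t)).card : ℝ) := by
  classical
  intro c hc
  have hL3 : (3 : ℝ) ≤ L := by exact_mod_cast hA.three
  have hden : (0 : ℝ) < 2 * (9 * L + 33) := by positivity
  refine ⟨c / (2 * (9 * L + 33)), div_pos hc hden, 100, ?_⟩
  intro g hg K0 LAM1 LAM2 PP A hB FC FL FD V1 V2 V3 hFC hFL hFD hV1 hV2 hV3 q
  set ε : ℝ := c / (2 * (9 * L + 33)) with hε
  set P : Par := Par.mk L p g with hP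
  have hPn : P.n = L * g := rfl
  have hPg : P.g = g := rfl
  have hn : 100 ≤ P.n := by
    rw [hPn]
    have := hA.three
    nlinarith
  have hnR : (100 : ℝ) ≤ P.n := by exact_mod_cast hn
  have hZ : (zall P.n).card = 2 * P.n + 1 := zall_card (by omega)
  -- the bad sets
  set Box : Finset (ℕ × ℤ × ℤ) := range P.n ×ˢ zall P.n ×ˢ zall P.n with hBox
  set E1 := Box.filter (fun t => t.1 % g ∈ FC) with hE1
  set E2 := Box.filter (fun t => t.2.1 ∈ FL) with hE2
  set E3 := Box.filter (fun t => t.2.2 ∈ FL) with hE3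
  set E4 := Box.filter (fun t => |t.2.1 - anc P.n (P.vx t.1 1)| ∈ FD) with hE4
  set E5 := Box.filter (fun t => |t.2.2 - anc P.n (P.vx t.1 (P.L - 1))| ∈ FD) with hE5
  set E6 := Box.filter (fun t => |t.2.1 - t.2.2| ∈ FD) with hE6
  set E7 := Box.filter (fun t => t.2.1 - t.2.2 ∈ V1) with hE7
  set E8 := Box.filter (fun t => anc P.n t.1 - t.2.1 ∈ V2) with hE8
  set E9 := Box.filter (fun t => anc P.n t.1 - t.2.2 ∈ V3) with hE9
  have c1 : E1.card ≤ (L * FC.card) * ((2 * P.n + 1) * (2 * P.n + 1)) := by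
    have hsub : E1 ⊆ ((range (L * g)).filter (fun m => m % g ∈ FC)) ×ˢ zall P.n ×ˢ zall P.n := by
      intro t ht
      rw [hE1, hBox, mem_filter, mem_product] at ht
      rw [mem_product, mem_filter]
      exact ⟨⟨ht.1.1, ht.2⟩, ht.1.2⟩
    refine (card_le_card hsub).trans ?_
    rw [card_product, card_product, hZ]
    exact Nat.mul_le_mul_right _ (cs_res L g FC)
  have c2 : E2.card ≤ FL.card * (P.n * (2 * P.n + 1)) := by
    rw [← hZ]
    exact cs_cntA P.n (zall P.n) (fun t => t.2.1 ∈ FL) _ fun m _ y2 _ => cs_mem (zall P.n) FL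
  have c3 : E3.card ≤ FL.card * (P.n * (2 * P.n + 1)) := by
    rw [← hZ]
    exact cs_cntB P.n (zall P.n) (fun t => t.2.2 ∈ FL) _ fun m _ y1 _ => cs_mem (zall P.n) FL
  have c4 : E4.card ≤ (2 * FD.card) * (P.n * (2 * P.n + 1)) := by
    rw [← hZ]
    exact cs_cntA P.n (zall P.n) (fun t => |t.2.1 - anc P.n (P.vx t.1 1)| ∈ FD) _
      fun m _ y2 _ => cs_abs (zall P.n) FD (anc P.n (P.vx m 1))
  have c5 : E5.card ≤ (2 * FD.card) * (P.n * (2 * P.n + 1)) := by
    rw [← hZ]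
    exact cs_cntB P.n (zall P.n) (fun t => |t.2.2 - anc P.n (P.vx t.1 (P.L - 1))| ∈ FD) _
      fun m _ y1 _ => cs_abs (zall P.n) FD (anc P.n (P.vx m (P.L - 1)))
  have c6 : E6.card ≤ (2 * FD.card) * (P.n * (2 * P.n + 1)) := by
    rw [← hZ]
    exact cs_cntA P.n (zall P.n) (fun t => |t.2.1 - t.2.2| ∈ FD) _
      fun m _ y2 _ => cs_abs (zall P.n) FD y2
  have c7 : E7.card ≤ V1.card * (P.n * (2 * P.n + 1)) := by
    rw [← hZ]
    exact cs_cntA P.n (zall P.n) (fun t => t.2.1 - t.2.2 ∈ V1) _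
      fun m _ y2 _ => cs_sub1 (zall P.n) V1 y2
  have c8 : E8.card ≤ V2.card * (P.n * (2 * P.n + 1)) := by
    rw [← hZ]
    exact cs_cntA P.n (zall P.n) (fun t => anc P.n t.1 - t.2.1 ∈ V2) _
      fun m _ y2 _ => cs_sub2 (zall P.n) V2 (anc P.n m)
  have c9 : E9.card ≤ V3.card * (P.n * (2 * P.n + 1)) := by
    rw [← hZ]
    exact cs_cntB P.n (zall P.n) (fun t => anc P.n t.1 - t.2.2 ∈ V3) _
      fun m _ y1 _ => cs_sub2 (zall P.n) V3 (anc P.n m)
  set Bd : Finset (ℕ × ℤ × ℤ) := E1 ∪ (E2 ∪ (E3 ∪ (E4 ∪ (E5 ∪ (E6 ∪ (E7 ∪ (E8 ∪ E9)))))))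
    with hBd
  have hBd1 : Bd.card ≤ E1.card + (E2.card + (E3.card + (E4.card + (E5.card + (E6.card +
      (E7.card + (E8.card + E9.card))))))) := by
    refine (card_union_le _ _).trans (Nat.add_le_add_left ?_ _)
    refine (card_union_le _ _).trans (Nat.add_le_add_left ?_ _)
    refine (card_union_le _ _).trans (Nat.add_le_add_left ?_ _)
    refine (card_union_le _ _).trans (Nat.add_le_add_left ?_ _)
    refine (card_union_le _ _).trans (Nat.add_le_add_left ?_ _)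
    refine (card_union_le _ _).trans (Nat.add_le_add_left ?_ _)
    refine (card_union_le _ _).trans (Nat.add_le_add_left ?_ _)
    exact card_union_le _ _
  have hBdc : (Bd.card : ℝ) ≤ c / 2 * (P.n : ℝ) ^ 3 := by
    have hNle : (2 * (P.n : ℝ) + 1) ≤ 3 * P.n := by linarith
    have hN0 : (0 : ℝ) ≤ 2 * (P.n : ℝ) + 1 := by positivity
    have hε0 : 0 < ε := div_pos hc hden
    have hn0 : (0 : ℝ) ≤ P.n := by positivity
    have gen : ∀ (S : Finset (ℕ × ℤ × ℤ)) (k : ℕ), S.card ≤ k * (P.n * (2 * P.n + 1)) →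
        (k : ℝ) ≤ 2 * (ε * P.n) → (S.card : ℝ) ≤ 6 * (ε * (P.n : ℝ) ^ 3) := by
      intro S k h1 h2
      have h3 : (S.card : ℝ) ≤ k * (P.n * (2 * P.n + 1)) := by exact_mod_cast h1
      calc (S.card : ℝ) ≤ k * (P.n * (2 * P.n + 1)) := h3
        _ ≤ (2 * (ε * P.n)) * (P.n * (3 * P.n)) :=
            mul_le_mul h2 (mul_le_mul_of_nonneg_left hNle hn0) (by positivity) (by positivity)
        _ = 6 * (ε * (P.n : ℝ) ^ 3) := by ring
    have gen1 : ∀ (S : Finset (ℕ × ℤ × ℤ)) (k : ℕ), S.card ≤ k * (P.n * (2 * P.n + 1)) →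
        (k : ℝ) ≤ ε * P.n → (S.card : ℝ) ≤ 3 * (ε * (P.n : ℝ) ^ 3) := by
      intro S k h1 h2
      have h3 : (S.card : ℝ) ≤ k * (P.n * (2 * P.n + 1)) := by exact_mod_cast h1
      calc (S.card : ℝ) ≤ k * (P.n * (2 * P.n + 1)) := h3
        _ ≤ (ε * P.n) * (P.n * (3 * P.n)) :=
            mul_le_mul h2 (mul_le_mul_of_nonneg_left hNle hn0) (by positivity) (by positivity)
        _ = 3 * (ε * (P.n : ℝ) ^ 3) := by ring
    have d1 : (E1.card : ℝ) ≤ 9 * L * (ε * (P.n : ℝ) ^ 3) := by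
      have h3 : (E1.card : ℝ) ≤ (L * FC.card) * ((2 * P.n + 1) * (2 * P.n + 1)) := by
        exact_mod_cast c1
      calc (E1.card : ℝ) ≤ (L * FC.card) * ((2 * P.n + 1) * (2 * P.n + 1)) := h3
        _ ≤ (L * (ε * P.n)) * ((3 * P.n) * (3 * P.n)) :=
            mul_le_mul (mul_le_mul_of_nonneg_left hFC (by positivity))
              (mul_le_mul hNle hNle hN0 (by positivity)) (by positivity) (by positivity)
        _ = 9 * L * (ε * (P.n : ℝ) ^ 3) := by ring
    have d2 := gen1 E2 _ c2 hFL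
    have d3 := gen1 E3 _ c3 hFL
    have hFD2 : ((2 * FD.card : ℕ) : ℝ) ≤ 2 * (ε * P.n) := by
      push_cast
      linarith
    have d4 := gen E4 _ c4 hFD2
    have d5 := gen E5 _ c5 hFD2
    have d6 := gen E6 _ c6 hFD2
    have d7 := gen1 E7 _ c7 hV1
    have d8 := gen1 E8 _ c8 hV2
    have d9 := gen1 E9 _ c9 hV3
    have hsum : (Bd.card : ℝ) ≤ E1.card + (E2.card + (E3.card + (E4.card + (E5.card + (E6.card +
        (E7.card + (E8.card + E9.card))))))) := by exact_mod_cast hBd1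
    have hfin : (9 * L + 33) * (ε * (P.n : ℝ) ^ 3) = c / 2 * (P.n : ℝ) ^ 3 := by
      rw [hε]
      field_simp
    calc (Bd.card : ℝ) ≤ 9 * L * (ε * (P.n : ℝ) ^ 3) + 33 * (ε * (P.n : ℝ) ^ 3) := by linarith
      _ = (9 * L + 33) * (ε * (P.n : ℝ) ^ 3) := by ring
      _ = c / 2 * (P.n : ℝ) ^ 3 := hfin
  set Cd : Finset (ℕ × ℤ × ℤ) := Box.filter (fun t => PlOk P PP A q t ∧ t ∉ Bd) with hCd
  have hCdc : (Cd.card : ℝ) ≤ 9 * (P.n : ℝ) ^ 3 := by
    have h1 : Cd.card ≤ P.n * ((2 * P.n + 1) * (2 * P.n + 1)) := by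
      refine (card_filter_le _ _).trans ?_
      rw [hBox, card_product, card_product, hZ, card_range]
    have h2 : (Cd.card : ℝ) ≤ P.n * ((2 * P.n + 1) * (2 * P.n + 1)) := by exact_mod_cast h1
    refine h2.trans ?_
    have hNle : (2 * (P.n : ℝ) + 1) ≤ 3 * P.n := by linarith
    calc (P.n : ℝ) * ((2 * P.n + 1) * (2 * P.n + 1)) ≤ P.n * ((3 * P.n) * (3 * P.n)) :=
          mul_le_mul_of_nonneg_left (mul_le_mul hNle hNle (by positivity) (by positivity))
            (by positivity)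
      _ = 9 * (P.n : ℝ) ^ 3 := by ring
  have key : ∀ d ∈ dall P.n, gd P d → inR P.n (rD q) d →
      c / 2 * (P.n : ℝ) ^ 3 ≤ ((Cd.filter (fun t => CovOk P LAM1 A q d t)).card : ℝ) := by
    intro d hd hgd hin
    have h1 := hB.cov q d hd hgd hin
    have h2 : ∀ T : Finset (ℕ × ℤ × ℤ),
        (∀ t ∈ T, t ∈ Box ∧ PlOk P PP A q t ∧ CovOk P LAM1 A q d t) →
        (T.card : ℝ) ≤ ((Cd.filter (fun t => CovOk P LAM1 A q d t)).card : ℝ) + Bd.card := by
      intro T hT
      have hsub : T ⊆ Cd.filter (fun t => CovOk P LAM1 A q d t) ∪ Bd := by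
        intro t ht
        obtain ⟨t1, t2, t3⟩ := hT t ht
        rw [mem_union, mem_filter, hCd, mem_filter]
        by_cases hb : t ∈ Bd
        · exact Or.inr hb
        · exact Or.inl ⟨⟨t1, t2, hb⟩, t3⟩
      have h3 := (card_le_card hsub).trans (card_union_le _ _)
      exact_mod_cast h3
    have h4 := h1.trans (h2 _ (fun t ht => by
      rw [mem_filter] at ht
      exact ⟨ht.1, ht.2.1, ht.2.2⟩))
    linarith
  refine ⟨Cd, ?_, ?_, ?_⟩
  · obtain ⟨d, hd, hgd, hin⟩ := cs_ex P hn q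
    have h1 := key d hd hgd hin
    have h2 : (0 : ℝ) < c / 2 * (P.n : ℝ) ^ 3 := by positivity
    have h3 : 0 < (Cd.filter (fun t => CovOk P LAM1 A q d t)).card := by
      exact_mod_cast h2.trans_le h1
    obtain ⟨t, ht⟩ := card_pos.1 h3
    exact ⟨t, (mem_filter.1 ht).1⟩
  · intro t ht
    rw [hCd, mem_filter] at ht
    obtain ⟨htB, hpl, hnb⟩ := ht
    rw [hBd] at hnb
    simp only [mem_union, not_or, hE1, hE2, hE3, hE4, hE5, hE6, hE7, hE8, hE9, mem_filter, htB,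
      true_and] at hnb
    obtain ⟨n1, n2, n3, n4, n5, n6, n7, n8, n9⟩ := hnb
    obtain ⟨⟨p1, p2, p3, p4⟩, ⟨p5, p6⟩, ⟨p7, p8⟩, p9, p10, p11, p12, p13, p14⟩ := id hpl
    have hGD : ∀ x, x ∈ GD P A → x ∈ dall P.n \ A := fun x hx => (mem_filter.1 hx).1
    refine ⟨hpl, n1, ?_, n7, n8, n9⟩
    exact
      { lt := p1
        y1Z := mem_sdiff.2 ⟨p5, n2⟩
        y2Z := mem_sdiff.2 ⟨p7, n3⟩
        J_sub := empty_subset _
        s1D := mem_sdiff.2 ⟨hGD _ p9, n4⟩
        s2D := mem_sdiff.2 ⟨hGD _ p10, n5⟩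
        eD := mem_sdiff.2 ⟨hGD _ p11, n6⟩
        G_sub := empty_subset _
        y12 := cs_y12 q (by omega) p6 p8
        y1J := notMem_empty _
        y2J := notMem_empty _
        s12 := p12
        s1e := p13
        s2e := p14
        s1G := notMem_empty _
        s2G := notMem_empty _
        eG := notMem_empty _
        cJ := by simp [cvCore]
        cG := by simp [cvCore]
        w1 := cs_w1 q p6
        w2 := cs_w2 q p8 }
  · intro d hd hgd hin
    have h1 := key d hd hgd hin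
    have h2 : (c / 20) * (Cd.card : ℝ) ≤ (c / 20) * (9 * (P.n : ℝ) ^ 3) :=
      mul_le_mul_of_nonneg_left hCdc (by positivity)
    have h3 : (0 : ℝ) ≤ (P.n : ℝ) ^ 3 := by positivity
    have h4 : (c / 20) * (9 * (P.n : ℝ) ^ 3) ≤ c / 2 * (P.n : ℝ) ^ 3 := by nlinarith
    exact h2.trans (h4.trans h1)

end Pool.Agent.PGo.A
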