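import Pool.Agent.PGo.RDefs

/-!
# PGo part A (reservation and absorption): definitions

A `Pack` is an inner cycle through the base vertex `m` all whose vertices except `m` are planted
(labels `y j`, `j ≠ 0`), together with labels `J` reserved for `m` and private differences `G`.
`PLab P Z D m S y`: partial labelling of the vertices `j ∈ S` of the cycle through `m` with labels
in `Z` and differences in `D`.
-/

noncomputable section

namespace Pool.Agent.PGo.A

open Finset Pool.Agent.PGr Pool.Agent.PGo.R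

/-! ## Partial labellings of a cycle -/

/-- the indices of the differences inside the set `S` of vertices of the cycle -/
def ix {L : ℕ} (S : Finset (Fin L)) : Finset (Bool × Fin L) :=
  univ.filter (fun i => i.2 ∈ S ∧ (i.1 = false → nxt i.2 ∈ S))

/-- the planted vertices: all except the vertex `0` -/
def pv (L : ℕ) : Finset (Fin L) := univ.filter (fun j => j.1 ≠ 0)

/-- the label of the vertex `j` -/
def lb {L : ℕ} (y : Fin L → ℤ) (j : ℕ) : ℤ := if h : j < L then y ⟨j, h⟩ else 0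

/-- Partial labelling of the vertices in `S` of the cycle through `m`: different labels in `Z`,
different differences in `D`. -/
structure PLab (P : Par) (Z D : Finset ℤ) (m : ℕ) (S : Finset (Fin P.L)) (y : Fin P.L → ℤ) :
    Prop where
  lab : ∀ j ∈ S, y j ∈ Z
  labi : ∀ j ∈ S, ∀ j' ∈ S, y j = y j' → j = j'
  dif : ∀ i ∈ ix S, P.df m y i ∈ D
  difi : ∀ i ∈ ix S, ∀ i' ∈ ix S, P.df m y i = P.df m y i' → i = i'

/-- Supply of labels: for every vertex `v` and all different labels `z1`, `z2` in the window `w`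
at least `c n` labels of `Z` have three different differences in `D`. -/
def Sup (P : Par) (Z D : Finset ℤ) (w : ℤ × ℤ) (c : ℝ) : Prop :=
  ∀ v < P.n, ∀ z1 z2 : ℤ, inR P.n w z1 → inR P.n w z2 → z1 ≠ z2 → z1 ≠ anc P.n v →
    z2 ≠ anc P.n v → c * P.n ≤ ((Z.filter fun x => Df3 D x (anc P.n v) z1 z2).card : ℝ)

/-! ## Packs -/

/-- A pack: base `m`, labels `y j` of the vertices `j ≠ 0`, labels `J` reserved for the vertex `0`,
private differences `G`. -/
structure Pack (P : Par) where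
  m : ℕ
  y : Fin P.L → ℤ
  J : Finset ℤ
  G : Finset ℤ

instance (P : Par) : DecidableEq (Pack P) := Classical.decEq _

namespace Pack

variable {P : Par}

/-- all reserved labels -/
def Lab (p : Pack P) : Finset ℤ := (pv P.L).image p.y ∪ p.J

/-- the planted differences -/
def pD (p : Pack P) : Finset ℤ := (ix (pv P.L)).image (P.df p.m p.y)

/-- all reserved differences -/
def Dif (p : Pack P) : Finset ℤ := p.pD ∪ p.G

/-- the complete labelling of the cycle if the vertex `0` gets the label `x` -/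
def full (p : Pack P) (x : ℤ) : Fin P.L → ℤ := fun j => if j.1 = 0 then x else p.y j

end Pack

variable (P : Par)

/-- admissible packs: labels in `ZP`, differences in `DP` -/
structure PackOk (ZP DP : Finset ℤ) (p : Pack P) : Prop where
  lt : p.m < P.n
  pl : PLab P ZP DP p.m (pv P.L) p.y
  J_sub : p.J ⊆ ZP
  G_sub : p.G ⊆ DP
  yJ : ∀ j ∈ pv P.L, p.y j ∉ p.J
  dG : ∀ i ∈ ix (pv P.L), P.df p.m p.y i ∉ p.G
  cJ : p.J.card ≤ 3
  cG : p.G.card ≤ 5
  w : ∀ j ∈ pv P.L, inR P.n (85, 215) (p.y j)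

/-- families of compatible packs -/
structure PFam (ZP DP : Finset ℤ) (Ps : Finset (Pack P)) : Prop where
  ok : ∀ p ∈ Ps, PackOk P ZP DP p
  res : ∀ p ∈ Ps, ∀ p' ∈ Ps, p.m % P.g = p'.m % P.g → p = p'
  lab : ∀ p ∈ Ps, ∀ p' ∈ Ps, p ≠ p' → Disjoint p.Lab p'.Lab
  dif : ∀ p ∈ Ps, ∀ p' ∈ Ps, p ≠ p' → Disjoint p.Dif p'.Dif

variable {P}

/-- used cycles -/
def UC (Ps : Finset (Pack P)) : Finset ℕ := Ps.image (fun p => p.m % P.g)

/-- used labels -/
def UL (Ps : Finset (Pack P)) : Finset ℤ := Ps.biUnion (fun p => p.Lab)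

/-- used differences -/
def UD (Ps : Finset (Pack P)) : Finset ℤ := Ps.biUnion (fun p => p.Dif)

/-- all private differences -/
def pGG (Ps : Finset (Pack P)) : Finset ℤ := Ps.biUnion (fun p => p.G)

variable (P)

/-! ## Cores: packs with only the two neighbours of the vertex `0` labelled -/

/-- Core of a pack: base `m`, labels `y1`, `y2` of the vertices `1` and `L - 1`. -/
structure Core where
  m : ℕ
  y1 : ℤ
  y2 : ℤ
  J : Finset ℤ
  G : Finset ℤ

/-- spoke of the vertex `1` -/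
def sp1 (m : ℕ) (y1 : ℤ) : ℤ := |y1 - anc P.n (P.vx m 1)|

/-- spoke of the vertex `L - 1` -/
def sp2 (m : ℕ) (y2 : ℤ) : ℤ := |y2 - anc P.n (P.vx m (P.L - 1))|

/-- admissible cores -/
structure CoreOk (ZP DP : Finset ℤ) (c : Core) : Prop where
  lt : c.m < P.n
  y1Z : c.y1 ∈ ZP
  y2Z : c.y2 ∈ ZP
  J_sub : c.J ⊆ ZP
  s1D : sp1 P c.m c.y1 ∈ DP
  s2D : sp2 P c.m c.y2 ∈ DP
  eD : |c.y1 - c.y2| ∈ DP
  G_sub : c.G ⊆ DP
  y12 : c.y1 ≠ c.y2
  y1J : c.y1 ∉ c.J
  y2J : c.y2 ∉ c.J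
  s12 : sp1 P c.m c.y1 ≠ sp2 P c.m c.y2
  s1e : sp1 P c.m c.y1 ≠ |c.y1 - c.y2|
  s2e : sp2 P c.m c.y2 ≠ |c.y1 - c.y2|
  s1G : sp1 P c.m c.y1 ∉ c.G
  s2G : sp2 P c.m c.y2 ∉ c.G
  eG : |c.y1 - c.y2| ∉ c.G
  cJ : c.J.card ≤ 3
  cG : c.G.card ≤ 5
  w1 : inR P.n (85, 215) c.y1
  w2 : inR P.n (85, 215) c.y2

/-- `p` is a pack with the core `c` -/
def IsPk (c : Core) (p : Pack P) : Prop :=
  p.m = c.m ∧ lb p.y 1 = c.y1 ∧ lb p.y (P.L - 1) = c.y2 ∧ p.J = c.J ∧ p.G = c.G

/-- Planting: every core which is compatible with a small family can be completed to a pack which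
is compatible with the family. -/
def PlantStat (L p : ℕ) : Prop := ∀ c : ℝ, 0 < c → ∃ ε : ℝ, 0 < ε ∧ ∃ g0 : ℕ, ∀ g : ℕ, g0 ≤ g →
  ∀ (K0 : ℕ) (LAM1 LAM2 PP A : Finset ℤ), Bits (Par.mk L p g) K0 c LAM1 LAM2 PP A →
  ∀ (ZP DP : Finset ℤ), PP ⊆ ZP → GD (Par.mk L p g) A ⊆ DP → ZP ⊆ zall (Par.mk L p g).n →
  ∀ Ps : Finset (Pack (Par.mk L p g)), PFam (Par.mk L p g) ZP DP Ps →
  (Ps.card : ℝ) ≤ ε * (Par.mk L p g).n →
  ∀ q : Core, CoreOk (Par.mk L p g) (ZP \ UL Ps) (DP \ UD Ps) q →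
    q.m % (Par.mk L p g).g ∉ UC Ps →
    ∃ r : Pack (Par.mk L p g), IsPk (Par.mk L p g) q r ∧ r ∉ Ps ∧
      PFam (Par.mk L p g) ZP DP (insert r Ps) ∧ Disjoint r.Dif (UD Ps)

/-! ## Active differences, gadgets -/

variable {P}

/-- the three active differences of a pack with label `x` at the vertex `0` -/
def pd3 (p : Pack P) (x : ℤ) (j : Fin 3) : ℤ :=
  match j with
  | 0 => |x - anc P.n p.m|
  | 1 => |x - lb p.y 1|
  | 2 => |x - lb p.y (P.L - 1)|

/-- the active differences of the packs `Ps` with labels `z` -/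
def DS (Ps : Finset (Pack P)) (z : Pack P → ℤ) : Finset ℤ :=
  (Ps ×ˢ (univ : Finset (Fin 3))).image (fun u => pd3 u.1 (z u.1) u.2)

/-- `Ps` is a gadget with options `O` and private differences `W`: for every option `o` the packs
can be labelled from their reserved labels with exactly the active differences `W` and `o`. -/
def PGad (Ps : Finset (Pack P)) (O W : Finset ℤ) : Prop :=
  W.card + 1 = 3 * Ps.card ∧ (∀ o ∈ O, o ∉ W) ∧
    ∀ o ∈ O, ∃ z : Pack P → ℤ, (∀ p ∈ Ps, z p ∈ p.J) ∧ DS Ps z = insert o W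

variable (P)

/-- admissible options: differences in the range of the gadgets -/
def optOk (d : ℤ) : Prop := inR P.n (7, 130) d ∧ gd P d

/-- the core of the two-way gadget with options `d, d'` -/
def twCore (d d' : ℤ) (m : ℕ) (y2 : ℤ) : Core where
  m := m
  y1 := 2 * y2 + d + d' - anc P.n m
  y2 := y2
  J := {y2 + d, y2 + d'}
  G := {anc P.n m - (y2 + d), anc P.n m - (y2 + d')}

/-- the differences `al', be, ga, al'', be'` of the three-way gadget with option `d`, anchor `a`,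
label `x`, label `b2` of the vertex `L - 1` (label `b1 = x - d` of the vertex `1`) -/
def eoD (d a x b2 : ℤ) : Fin 5 → ℤ :=
  ![|b2 + a - x - (x - d)|, x - b2, a - x, 2 * a - b2 - x, |x + b2 - a - (x - d)|]

/-- the core of the three-way gadget with option `d` -/
def eoCore (d : ℤ) (m : ℕ) (x b2 : ℤ) : Core where
  m := m
  y1 := x - d
  y2 := b2
  J := {x, b2 + anc P.n m - x, x + b2 - anc P.n m}
  G := (univ : Finset (Fin 5)).image (eoD d (anc P.n m) x b2)

/-- the core of a cover pack -/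
def cvCore (t : ℕ × ℤ × ℤ) : Core where
  m := t.1
  y1 := t.2.1
  y2 := t.2.2
  J := ∅
  G := ∅

/-! ## Covers -/

variable {P}

open Classical in
/-- at least `c` packs of `Ps` can cover `d` with a label in `LAM1` and the other two differences
in `R` -/
def CovM (LAM1 R : Finset ℤ) (Ps : Finset (Pack P)) (c : ℝ) (d : ℤ) : Prop :=
  ∃ (M : Finset (Pack P)) (x e1 e2 : Pack P → ℤ), M ⊆ Ps ∧ c ≤ (M.card : ℝ) ∧
    (∀ p ∈ M, x p ∈ LAM1 ∧ e1 p ∈ R ∧ e2 p ∈ R ∧ e1 p ≠ e2 p ∧
      (univ : Finset (Fin 3)).image (pd3 p (x p)) = {d, e1 p, e2 p}) ∧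
    (∀ p ∈ M, ∀ p' ∈ M, x p = x p' → p = p') ∧
    ∀ r : ℤ, (M.filter (fun p => e1 p = r ∨ e2 p = r)).card ≤ 4

end Pool.Agent.PGo.A
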