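import Pool.Agent.PGo.ADefs

/-!
# PGo part A: interface of the gadget part

`AbsStat L p`: gadgets for a sequence of option sets; `AbsorbStat`: absorption along the template.
-/

noncomputable section

namespace Pool.Agent.PGo.A

open Finset Pool.Agent.PGr Pool.Agent.PGo.R

/-- Gadgets for a sequence of option sets. -/
def AbsStat (L p : ℕ) : Prop := ∃ ε0 : ℝ, 0 < ε0 ∧ ∀ c : ℝ, 0 < c → ∃ ε : ℝ, 0 < ε ∧ ∃ g0 : ℕ,
    ∀ g : ℕ, g0 ≤ g → ∀ (K0 : ℕ) (LAM1 LAM2 PP A : Finset ℤ),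
    Bits (Par.mk L p g) K0 c LAM1 LAM2 PP A → ∀ FL0 FD0 : Finset ℤ,
    (FL0.card : ℝ) ≤ ε0 * (Par.mk L p g).n → (FD0.card : ℝ) ≤ ε0 * (Par.mk L p g).n →
    Disjoint PP FL0 → FD0 ⊆ A →
    ∀ Ps : Finset (Pack (Par.mk L p g)),
    PFam (Par.mk L p g) (zall (Par.mk L p g).n \ FL0) (dall (Par.mk L p g).n \ FD0) Ps →
    ∀ (N : ℕ) (H : ℕ → Finset ℤ), (∀ z < N, H z ⊆ FD0 ∧ 3 ≤ (H z).card) →
      ((Ps.card + 3 * ∑ z ∈ range N, (H z).card : ℕ) : ℝ) ≤ ε * (Par.mk L p g).n →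
      ∃ G : ℕ → Finset (Pack (Par.mk L p g)), (∀ z < N, PGad (G z) (H z) (pGG (G z))) ∧
        (∀ z < N, ∀ z' < N, z ≠ z' → Disjoint (G z) (G z')) ∧
        (∀ z < N, Disjoint Ps (G z)) ∧
        PFam (Par.mk L p g) (zall (Par.mk L p g).n \ FL0) (dall (Par.mk L p g).n \ FD0)
          (Ps ∪ (range N).biUnion G) ∧
        ((range N).biUnion G).card ≤ 3 * ∑ z ∈ range N, (H z).card

/-- Absorption by the gadgets along the template. -/
def AbsorbStat : Prop := ∀ {P : Par} {ZP DP : Finset ℤ} {m : ℕ} {G : ℕ → Finset (Pack P)}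
    {H : ℕ → Finset ℤ} {X R1 : Finset ℤ}, PFam P ZP DP ((range (3 * m)).biUnion G) →
    (∀ z < 3 * m, PGad (G z) (H z) (pGG (G z))) →
    (∀ z < 3 * m, ∀ z' < 3 * m, z ≠ z' → Disjoint (G z) (G z')) →
    Disjoint X DP → Disjoint R1 DP → X.card = 2 * m → Disjoint X R1 →
    (∀ R' ⊆ R1, R'.card = m → ∃ f : ℕ → ℤ, (∀ z < 3 * m, f z ∈ H z) ∧
      Set.InjOn f (Set.Iio (3 * m)) ∧ (range (3 * m)).image f = X ∪ R') →
    (pGG ((range (3 * m)).biUnion G)).card + X.card + m = 3 * ((range (3 * m)).biUnion G).card ∧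
    ∀ R' ⊆ R1, R'.card = m → ∃ z : Pack P → ℤ,
      (∀ q ∈ (range (3 * m)).biUnion G, z q ∈ q.J) ∧
      DS ((range (3 * m)).biUnion G) z = pGG ((range (3 * m)).biUnion G) ∪ X ∪ R' ∧
      (pGG ((range (3 * m)).biUnion G) ∪ X ∪ R').card = 3 * ((range (3 * m)).biUnion G).card

end Pool.Agent.PGo.A
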