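import Pool.Agent.PGo.ABase

/-!
# PGo-AR1: the reserved differences `R1`

PLAN. Apply `hR` (`R1Stat`) with `J := Pack P`, `Dc := (dall n).filter (gd P)`. For `d ∈ Dc` choose (by `CovM`, `Classical.choose`)
`M d`, `x d`, `e1 d`, `e2 d`; `S d := M d`, `e d r := {e1 d r, e2 d r}` (subset of `A`, at most 2 elements; every `a` lies in `e d r` for
at most 4 of the `r ∈ S d`); `c' := c2`. The result: `R1`; `Sup` with `c / (2 K1^3)` (rewrite
`c * n / (2 K1^3) = c / (2 K1^3) * n`), and `CovM LAM1 R1 PR (c2 / (2 K1^3) * n) d` with the set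
`(M d).filter (fun r => e d r ⊆ R1)` and the same functions `x`, `e1`, `e2` (`c2 n / (2 K1^3) ≤ |M d| / (2 K1^3)`).
-/

noncomputable section

namespace Pool.Agent.PGo.A

open Finset Pool.Agent.PGr Pool.Agent.PGo.R

theorem r1_of {L p : ℕ} (hR : R1Stat L p) : ∀ (K1 : ℕ) (c c2 : ℝ), 0 < K1 → 0 < c → 0 < c2 →
    ∃ g0 : ℕ, ∀ g : ℕ, g0 ≤ g → ∀ (K0 : ℕ) (LAM1 LAM2 PP A : Finset ℤ),
    Bits (Par.mk L p g) K0 c LAM1 LAM2 PP A → ∀ PR : Finset (Pack (Par.mk L p g)),
    (∀ d ∈ dall (Par.mk L p g).n, gd (Par.mk L p g) d →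
        CovM LAM1 A PR (c2 * (Par.mk L p g).n) d) →
    ∃ R1 ⊆ A, (A.card : ℝ) / (2 * K1) ≤ (R1.card : ℝ) ∧
      (R1.card : ℝ) ≤ 3 * (A.card : ℝ) / (2 * K1) ∧
      Sup (Par.mk L p g) LAM2 R1 (70, 230) (c / (2 * (K1 : ℝ) ^ 3)) ∧
      ∀ d ∈ dall (Par.mk L p g).n, gd (Par.mk L p g) d →
        CovM LAM1 R1 PR (c2 / (2 * (K1 : ℝ) ^ 3) * (Par.mk L p g).n) d := by
  classical
  intro K1 c c2 hK1 hc hc2
  obtain ⟨g0, hg0⟩ := hR K1 c c2 hK1 hc hc2
  refine ⟨g0, fun g hg K0 LAM1 LAM2 PP A hB PR hcov => ?_⟩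
  have hcov' : ∀ d ∈ (dall (Par.mk L p g).n).filter (gd (Par.mk L p g)),
      CovM LAM1 A PR (c2 * (Par.mk L p g).n) d := fun d hd =>
    hcov d (mem_filter.1 hd).1 (mem_filter.1 hd).2
  unfold CovM at hcov'
  choose! M x e1 e2 h1 h2 h3 h4 h5 using hcov'
  obtain ⟨R1, hR1, hlo, hhi, hsup, hfin⟩ := hg0 g hg K0 LAM1 LAM2 PP A hB
    (J := Pack (Par.mk L p g)) ((dall (Par.mk L p g).n).filter (gd (Par.mk L p g))) M
    (fun d r => {e1 d r, e2 d r}) (filter_subset _ _)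
    (fun d hd j hj => by
      obtain ⟨-, a1, a2, -, -⟩ := h3 d hd j hj
      refine ⟨?_, ?_⟩
      · intro y hy
        rw [mem_insert, mem_singleton] at hy
        rcases hy with rfl | rfl
        · exact a1
        · exact a2
      · exact (card_le_two).trans (by norm_num))
    (fun d hd a => by
      refine (card_le_card ?_).trans ((h5 d hd a).trans (by norm_num))
      intro y hy
      rw [mem_filter, mem_insert, mem_singleton] at hy
      rw [mem_filter]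
      exact ⟨hy.1, hy.2.imp Eq.symm Eq.symm⟩)
    (fun d hd => h2 d hd)
  have hK : (0 : ℝ) < 2 * (K1 : ℝ) ^ 3 := by
    have h0 : (0 : ℝ) < (K1 : ℝ) := by exact_mod_cast hK1
    positivity
  refine ⟨R1, hR1, hlo, hhi, ?_, ?_⟩
  · intro v hv z1 z2 b1 b2 b3 b4 b5
    have h := hsup v hv z1 z2 b1 b2 b3 b4 b5
    rw [div_mul_eq_mul_div]
    exact h
  · intro d hd hgd
    have hdd : d ∈ (dall (Par.mk L p g).n).filter (gd (Par.mk L p g)) :=
      mem_filter.2 ⟨hd, hgd⟩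
    refine ⟨(M d).filter (fun r => ({e1 d r, e2 d r} : Finset ℤ) ⊆ R1), x d, e1 d, e2 d,
      (filter_subset _ _).trans (h1 d hdd), ?_, ?_, ?_, ?_⟩
    · have ha := hfin d hdd
      have hb := h2 d hdd
      have hc3 : c2 / (2 * (K1 : ℝ) ^ 3) * ((Par.mk L p g).n : ℝ) ≤
          ((M d).card : ℝ) / (2 * (K1 : ℝ) ^ 3) := by
        rw [div_mul_eq_mul_div]
        exact div_le_div_of_nonneg_right hb hK.le
      refine hc3.trans (ha.trans ?_)
      exact_mod_cast card_le_card (fun y hy => by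
        rw [mem_filter] at hy ⊢
        exact hy)
    · intro q hq
      rw [mem_filter] at hq
      obtain ⟨a0, -, -, a3, a4⟩ := h3 d hdd q hq.1
      exact ⟨a0, hq.2 (mem_insert_self _ _), hq.2 (mem_insert_of_mem (mem_singleton_self _)),
        a3, a4⟩
    · intro q hq q' hq' h
      rw [mem_filter] at hq hq'
      exact h4 d hdd q hq.1 q' hq'.1 h
    · intro r
      refine (card_le_card ?_).trans (h5 d hdd r)
      intro y hy
      rw [mem_filter, mem_filter] at hy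
      rw [mem_filter]
      exact ⟨hy.1.1, hy.2⟩

end Pool.Agent.PGo.A
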