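import Mathlib
import Pool.Agent.PGr.Tmp

/-!
# PGo-ATmp: the template inside `A`

PLAN. `|A \ R1| ≥ 4m - |R1|`. Choose disjoint `X, R0 ⊆ A \ R1` with `|X| = 2m`, `|R0| = 2m - |R1|` (`exists_subset_card_eq` twice),
`Rr := R1 ∪ R0` (`2m` elements, disjoint from `X`) and apply `template` (PGr/Tmp.lean) to `X`, `Rr`.
-/

noncomputable section

namespace Pool.Agent.PGo.A

open Finset Pool.Agent.PGr

theorem tmpl {A R1 : Finset ℤ} {m : ℕ} (hm : 2 ≤ m) (hR : R1 ⊆ A) (h1 : R1.card ≤ 2 * m)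
    (h2 : 4 * m ≤ A.card) :
    ∃ (X Rr : Finset ℤ) (H : ℕ → Finset ℤ), X ⊆ A ∧ Rr ⊆ A ∧ R1 ⊆ Rr ∧ Disjoint X Rr ∧
      X.card = 2 * m ∧ Rr.card = 2 * m ∧
      (∀ z < 3 * m, H z ⊆ X ∪ Rr ∧ 3 ≤ (H z).card) ∧
      ∑ z ∈ range (3 * m), (H z).card ≤ 107 * m ∧
      ∀ R' ⊆ R1, R'.card = m → ∃ f : ℕ → ℤ, (∀ z < 3 * m, f z ∈ H z) ∧
        Set.InjOn f (Set.Iio (3 * m)) ∧ (range (3 * m)).image f = X ∪ R' := by
  have hc : (A \ R1).card = A.card - R1.card := card_sdiff_of_subset hR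
  obtain ⟨X, hXs, hXc⟩ := exists_subset_card_eq (s := A \ R1) (n := 2 * m) (by omega)
  have hc2 : ((A \ R1) \ X).card = (A \ R1).card - X.card := card_sdiff_of_subset hXs
  obtain ⟨R0, hR0s, hR0c⟩ := exists_subset_card_eq (s := (A \ R1) \ X) (n := 2 * m - R1.card)
    (by omega)
  have hd1 : Disjoint R1 R0 := by
    rw [disjoint_left]
    intro a ha hb
    exact (mem_sdiff.1 (mem_sdiff.1 (hR0s hb)).1).2 ha
  have hd : Disjoint X (R1 ∪ R0) := by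
    rw [disjoint_left]
    intro a ha hb
    rcases mem_union.1 hb with hb | hb
    · exact (mem_sdiff.1 (hXs ha)).2 hb
    · exact (mem_sdiff.1 (hR0s hb)).2 ha
  have hRc : (R1 ∪ R0).card = 2 * m := by
    rw [card_union_of_disjoint hd1]
    omega
  obtain ⟨H, hH1, hH2, hH3⟩ := template m hm X (R1 ∪ R0) hd hXc hRc
  refine ⟨X, R1 ∪ R0, H, hXs.trans sdiff_subset, union_subset hR
    (hR0s.trans (sdiff_subset.trans sdiff_subset)), subset_union_left, hd, hXc, hRc, hH1, hH2,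
    fun R' hR' hc' => hH3 R' (hR'.trans subset_union_left) hc'⟩

end Pool.Agent.PGo.A
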