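import Pool.Agent.PGo.APlan
import Pool.Agent.PGo.AGStat
import Pool.Agent.PGo.ACvA
import Pool.Agent.PGo.AR1
import Pool.Agent.PGo.ATmp
import Pool.Agent.PGo.AFam

/-!
# PGo part A: existence of the planted configuration (`PlanEx`)
-/

noncomputable section

namespace Pool.Agent.PGo.A

open Finset Pool.Agent.PGr Pool.Agent.PGo.R

private theorem A_dall {P : Par} {K0 : ℕ} {c : ℝ} {LAM1 LAM2 PP A : Finset ℤ}
    (h : Bits P K0 c LAM1 LAM2 PP A) : A ⊆ dall P.n := by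
  intro d hd
  have := h.A_sub hd
  unfold AAf at this
  exact (mem_filter.1 this).1

theorem planEx_of {L p : ℕ} (hA : Adm L p) (hB : BitsStat L p) (hR : R1Stat L p)
    (hAbs : AbsStat L p) (hAb : AbsorbStat) : PlanEx L p := by
  classical
  intro κ hκ
  have hL : (0 : ℝ) < L := by exact_mod_cast hA.L_pos
  obtain ⟨ε0, hε0, hAbs⟩ := hAbs
  -- K0
  obtain ⟨K0, hK08, hK0e, hK0κ, hK0ε⟩ : ∃ K0 : ℕ, 8 ≤ K0 ∧ Even K0 ∧ 20 / (K0 : ℝ) ≤ κ ∧
      20 / (K0 : ℝ) ≤ ε0 := by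
    refine ⟨2 * (4 + ⌈20 / κ⌉₊ + ⌈20 / ε0⌉₊), by omega, even_two_mul _, ?_, ?_⟩
    · have h1 := Nat.le_ceil (20 / κ)
      have h2 : (0 : ℝ) ≤ (⌈20 / ε0⌉₊ : ℝ) := Nat.cast_nonneg _
      rw [div_le_iff₀ (by positivity)]
      push_cast
      rw [div_le_iff₀ hκ] at h1
      nlinarith [mul_nonneg hκ.le h2, mul_nonneg hκ.le (Nat.cast_nonneg (α := ℝ) ⌈20 / κ⌉₊)]
    · have h1 := Nat.le_ceil (20 / ε0)
      have h2 : (0 : ℝ) ≤ (⌈20 / κ⌉₊ : ℝ) := Nat.cast_nonneg _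
      rw [div_le_iff₀ (by positivity)]
      push_cast
      rw [div_le_iff₀ hε0] at h1
      nlinarith [mul_nonneg hε0.le h2, mul_nonneg hε0.le (Nat.cast_nonneg (α := ℝ) ⌈20 / ε0⌉₊)]
  obtain ⟨c, hc, gB, hB⟩ := hB K0 hK08 hK0e
  obtain ⟨ε1, hε1, gA, hAbs⟩ := hAbs c hc
  obtain ⟨ε2, hε2, hCov⟩ := cov_all hA c hc
  -- K1
  obtain ⟨K1, hK1, hK16, hK1a, hK1b, hK1c⟩ : ∃ K1 : ℕ, 0 < K1 ∧ (6 : ℝ) ≤ K1 ∧
      12 ≤ ε0 * K1 ∧ 2000 ≤ κ * K1 ∧ 2000 ≤ ε1 * K1 := by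
    refine ⟨6 + ⌈12 / ε0⌉₊ + ⌈2000 / κ⌉₊ + ⌈2000 / ε1⌉₊, by omega, ?_, ?_, ?_, ?_⟩
    · push_cast
      have h1 : (0 : ℝ) ≤ (⌈12 / ε0⌉₊ : ℝ) := Nat.cast_nonneg _
      have h2 : (0 : ℝ) ≤ (⌈2000 / κ⌉₊ : ℝ) := Nat.cast_nonneg _
      have h3 : (0 : ℝ) ≤ (⌈2000 / ε1⌉₊ : ℝ) := Nat.cast_nonneg _
      linarith
    all_goals
      have h1 : (0 : ℝ) ≤ (⌈12 / ε0⌉₊ : ℝ) := Nat.cast_nonneg _
      have h2 : (0 : ℝ) ≤ (⌈2000 / κ⌉₊ : ℝ) := Nat.cast_nonneg _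
      have h3 : (0 : ℝ) ≤ (⌈2000 / ε1⌉₊ : ℝ) := Nat.cast_nonneg _
      have k1 := Nat.le_ceil (12 / ε0)
      have k2 := Nat.le_ceil (2000 / κ)
      have k3 := Nat.le_ceil (2000 / ε1)
      rw [div_le_iff₀ hε0] at k1
      rw [div_le_iff₀ hκ] at k2
      rw [div_le_iff₀ hε1] at k3
      push_cast
    · nlinarith [mul_nonneg hε0.le h2, mul_nonneg hε0.le h3]
    · nlinarith [mul_nonneg hκ.le h1, mul_nonneg hκ.le h3]
    · nlinarith [mul_nonneg hε1.le h2, mul_nonneg hε1.le h1]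
  have hK1r : (0 : ℝ) < K1 := by exact_mod_cast hK1
  have hcD : 0 < c / (2 * (K1 : ℝ) ^ 3) := by positivity
  -- ρ
  obtain ⟨ρ, hρ, hρ2, hρκ, hρ1, hρD, hρc⟩ : ∃ ρ : ℝ, 0 < ρ ∧ ρ ≤ ε2 ∧ 4 * ρ ≤ κ ∧
      4 * ρ ≤ ε1 ∧ 100 * L * ρ ≤ c / (2 * (K1 : ℝ) ^ 3) ∧ 12 * K1 * ρ ≤ c := by
    refine ⟨min ε2 (min (κ / 4) (min (ε1 / 4) (min (c / (2 * (K1 : ℝ) ^ 3) / (100 * L))
      (c / (12 * K1))))), by positivity, min_le_left _ _, ?_, ?_, ?_, ?_⟩
    · have := (min_le_right ε2 (min (κ / 4) (min (ε1 / 4) (min (c / (2 * (K1 : ℝ) ^ 3) /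
        (100 * L)) (c / (12 * K1)))))).trans (min_le_left _ _)
      linarith
    · have := ((min_le_right ε2 (min (κ / 4) (min (ε1 / 4) (min (c / (2 * (K1 : ℝ) ^ 3) /
        (100 * L)) (c / (12 * K1)))))).trans (min_le_right _ _)).trans (min_le_left _ _)
      linarith
    · have := (((min_le_right ε2 (min (κ / 4) (min (ε1 / 4) (min (c / (2 * (K1 : ℝ) ^ 3) /
        (100 * L)) (c / (12 * K1)))))).trans (min_le_right _ _)).trans (min_le_right _ _)).trans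
        (min_le_left _ _)
      rw [le_div_iff₀ (by positivity)] at this
      linarith
    · have := (((min_le_right ε2 (min (κ / 4) (min (ε1 / 4) (min (c / (2 * (K1 : ℝ) ^ 3) /
        (100 * L)) (c / (12 * K1)))))).trans (min_le_right _ _)).trans (min_le_right _ _)).trans
        (min_le_right _ _)
      rw [le_div_iff₀ (by positivity)] at this
      linarith
  obtain ⟨c2, hc2, gC, hCov⟩ := hCov ρ hρ hρ2
  obtain ⟨gR, hR1⟩ := r1_of hR K1 c c2 hK1 hc hc2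
  refine ⟨c / (2 * (K1 : ℝ) ^ 3), c2 / (2 * (K1 : ℝ) ^ 3), hcD, by positivity,
    max gB (max gA (max gC (max gR (max 1 ⌈8 * K1 / c⌉₊)))), ?_⟩
  intro g hg
  have hgB : gB ≤ g := le_trans (le_max_left _ _) hg
  have hg' := le_trans (le_max_right _ _) hg
  have hgA : gA ≤ g := le_trans (le_max_left _ _) hg'
  have hg'' := le_trans (le_max_right _ _) hg'
  have hgC : gC ≤ g := le_trans (le_max_left _ _) hg''
  have hg3 := le_trans (le_max_right _ _) hg''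
  have hgR : gR ≤ g := le_trans (le_max_left _ _) hg3
  have hg4 := le_trans (le_max_right _ _) hg3
  have hg1 : 1 ≤ g := le_trans (le_max_left _ _) hg4
  have hg5 : ⌈8 * K1 / c⌉₊ ≤ g := le_trans (le_max_right _ _) hg4
  have hOk : (Par.mk L p g).Ok := ⟨hA, by show 0 < g; omega⟩
  have hgn : (g : ℝ) ≤ (Par.mk L p g).n := by exact_mod_cast hOk.g_le_n
  have hn3 : 3 ≤ (Par.mk L p g).n := by
    have := hOk.n_ge
    have e : (Par.mk L p g).g = g := rfl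
    omega
  have hbig : 8 * K1 ≤ c * ((Par.mk L p g).n : ℝ) := by
    have h1 := Nat.ceil_le.1 hg5
    rw [div_le_iff₀ hc] at h1
    have h2 : (g : ℝ) * c ≤ (Par.mk L p g).n * c := mul_le_mul_of_nonneg_right hgn hc.le
    linarith
  obtain ⟨LAM1, LAM2, PP, A, hBits⟩ := hB g hgB
  obtain ⟨PR, hPRc, hPRf, hPRJ, hPRcov, hPRexc⟩ := hCov g hgC K0 LAM1 LAM2 PP A hBits
  obtain ⟨R1, hR1A, hR1lo, hR1hi, hSup, hR1cov⟩ := hR1 g hgR K0 LAM1 LAM2 PP A hBits PR hPRcov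
  have hAd := A_dall hBits
  obtain ⟨n, hn⟩ : ∃ n, n = (Par.mk L p g).n := ⟨_, rfl⟩
  have hnn : (0 : ℝ) ≤ ((Par.mk L p g).n : ℝ) := Nat.cast_nonneg _
  have hAc : (A.card : ℝ) ≤ 2 * (Par.mk L p g).n := by
    have h1 := card_le_card hAd
    rw [dall_card hn3] at h1
    exact_mod_cast h1
  have hAlo := hBits.A_card
  have hlo : c * (Par.mk L p g).n ≤ 2 * K1 * (R1.card : ℝ) := by
    rw [div_le_iff₀ (by positivity)] at hR1lo
    linarith
  have hhi : K1 * (R1.card : ℝ) ≤ 3 * (Par.mk L p g).n := by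
    rw [le_div_iff₀ (by positivity)] at hR1hi
    linarith
  have hhi2 : 6 * (R1.card : ℝ) * 2 ≤ 3 * A.card := by
    rw [le_div_iff₀ (by positivity)] at hR1hi
    have h0 : (0 : ℝ) ≤ R1.card := Nat.cast_nonneg _
    nlinarith
  -- m
  have hPR3 : 6 * PR.card ≤ R1.card := by
    have h1 : 12 * K1 * (PR.card : ℝ) ≤ 12 * K1 * (ρ * (Par.mk L p g).n) := by
      apply mul_le_mul_of_nonneg_left hPRc (by positivity)
    have h2 : 12 * K1 * ρ * (Par.mk L p g).n ≤ c * (Par.mk L p g).n :=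
      mul_le_mul_of_nonneg_right hρc hnn
    have h3 : 12 * K1 * (PR.card : ℝ) ≤ 2 * K1 * (R1.card : ℝ) := by linarith
    have h4 : 6 * (PR.card : ℝ) ≤ R1.card := by
      have : 2 * K1 * (6 * (PR.card : ℝ)) ≤ 2 * K1 * (R1.card : ℝ) := by linarith
      exact le_of_mul_le_mul_left this (by positivity)
    exact_mod_cast h4
  obtain ⟨m, hm⟩ : ∃ m, R1.card = m + 3 * PR.card := ⟨R1.card - 3 * PR.card, by omega⟩
  have hR4 : 4 ≤ R1.card := by
    have h1 : 2 * K1 * (4 : ℝ) ≤ 2 * K1 * (R1.card : ℝ) := by linarith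
    have h2 : (4 : ℝ) ≤ R1.card := le_of_mul_le_mul_left h1 (by positivity)
    exact_mod_cast h2
  have hm2 : 2 ≤ m := by omega
  have hR2m : R1.card ≤ 2 * m := by omega
  have hmR : m ≤ R1.card := by omega
  have hmA : 4 * m ≤ A.card := by
    have h1 : 12 * (R1.card : ℝ) ≤ 3 * A.card := by linarith
    have h2 : 12 * R1.card ≤ 3 * A.card := by exact_mod_cast h1
    omega
  have hmn : K1 * (m : ℝ) ≤ 3 * (Par.mk L p g).n := by
    have h1 : (m : ℝ) ≤ R1.card := by exact_mod_cast hmR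
    have h2 : K1 * (m : ℝ) ≤ K1 * (R1.card : ℝ) := mul_le_mul_of_nonneg_left h1 hK1r.le
    linarith
  -- consequences of the choice of K1: `m ≤ δ n` with small `δ`
  have hm_le : ∀ e : ℝ, 0 < e → ∀ B : ℝ, 3 * B ≤ e * K1 → 0 ≤ B →
      B * (m : ℝ) ≤ e * (Par.mk L p g).n := by
    intro e he B hB hB0
    have h1 : K1 * (B * (m : ℝ)) ≤ K1 * (e * (Par.mk L p g).n) := by
      have h2 : B * (K1 * (m : ℝ)) ≤ B * (3 * (Par.mk L p g).n) :=
        mul_le_mul_of_nonneg_left hmn hB0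
      have h3 : 3 * B * (Par.mk L p g).n ≤ e * K1 * (Par.mk L p g).n :=
        mul_le_mul_of_nonneg_right hB hnn
      linarith
    exact le_of_mul_le_mul_left h1 hK1r
  obtain ⟨X, Rr, H, hXA, hRrA, hR1Rr, hXRr, hXc, hRrc, hH, hHs, hHT⟩ :=
    tmpl hm2 hR1A hR2m hmA
  have hXR1 : Disjoint X R1 := disjoint_of_subset_right hR1Rr hXRr
  -- the forbidden sets
  have hFL : ((LAM1 ∪ LAM2).card : ℝ) ≤ 20 / (K0 : ℝ) * (Par.mk L p g).n := by
    have := hBits.lamc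
    have e : 20 * ((Par.mk L p g).n : ℝ) / K0 = 20 / (K0 : ℝ) * (Par.mk L p g).n := by ring
    rw [e] at this
    exact this
  have hFL1 : ((LAM1 ∪ LAM2).card : ℝ) ≤ ε0 * (Par.mk L p g).n :=
    hFL.trans (mul_le_mul_of_nonneg_right hK0ε hnn)
  have hFL2 : ((LAM1 ∪ LAM2).card : ℝ) ≤ κ * (Par.mk L p g).n :=
    hFL.trans (mul_le_mul_of_nonneg_right hK0κ hnn)
  have hFDc : ((X ∪ Rr).card : ℝ) ≤ ε0 * (Par.mk L p g).n := by
    rw [card_union_of_disjoint hXRr, hXc, hRrc]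
    have := hm_le ε0 hε0 4 (by linarith) (by norm_num)
    push_cast
    linarith
  have hPRf' : PFam (Par.mk L p g) (zall (Par.mk L p g).n \ (LAM1 ∪ LAM2))
      (dall (Par.mk L p g).n \ (X ∪ Rr)) PR := by
    refine fam_mono hPRf ?_ (sdiff_subset_sdiff (Subset.refl _) (union_subset hXA hRrA))
    intro a ha
    rw [mem_sdiff, mem_union]
    refine ⟨hBits.pp ha, ?_⟩
    rintro (h | h)
    · exact disjoint_left.1 hBits.disP1 ha h
    · exact disjoint_left.1 hBits.disP2 ha h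
  have hPRn : (PR.card : ℝ) ≤ ρ * (Par.mk L p g).n := hPRc
  have hsz : ((PR.card + 3 * ∑ z ∈ range (3 * m), (H z).card : ℕ) : ℝ) ≤
      ε1 * (Par.mk L p g).n := by
    have h1 : ((PR.card + 3 * ∑ z ∈ range (3 * m), (H z).card : ℕ) : ℝ) ≤
        ((PR.card + 3 * (107 * m) : ℕ) : ℝ) := by
      exact_mod_cast Nat.add_le_add_left (Nat.mul_le_mul_left 3 hHs) _
    have h2 := hm_le (ε1 / 2) (by positivity) 321 (by linarith) (by norm_num)
    have h3 : 4 * ρ * (Par.mk L p g).n ≤ ε1 * (Par.mk L p g).n :=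
      mul_le_mul_of_nonneg_right hρ1 hnn
    push_cast at h1 h2 ⊢
    linarith
  obtain ⟨G, hG, hGd, hGPs, hGF, hGc⟩ := hAbs g hgA K0 LAM1 LAM2 PP A hBits (LAM1 ∪ LAM2)
    (X ∪ Rr) hFL1 hFDc (by
      rw [disjoint_union_right]
      exact ⟨hBits.disP1, hBits.disP2⟩) (union_subset hXA hRrA) PR hPRf' (3 * m) H hH hsz
  obtain ⟨PA, hPA⟩ : ∃ PA, PA = (range (3 * m)).biUnion G := ⟨_, rfl⟩
  have hGF' : PFam (Par.mk L p g) (zall (Par.mk L p g).n \ (LAM1 ∪ LAM2))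
      (dall (Par.mk L p g).n \ (X ∪ Rr)) ((range (3 * m)).biUnion G) :=
    fam_sub hGF subset_union_right
  have hdXDP : ∀ S ⊆ X ∪ Rr, Disjoint S (dall (Par.mk L p g).n \ (X ∪ Rr)) := by
    intro S hS
    rw [disjoint_left]
    intro a ha hb
    exact (mem_sdiff.1 hb).2 (hS ha)
  obtain ⟨hcnt, habs⟩ := hAb hGF' hG hGd (hdXDP X subset_union_left)
    (hdXDP R1 (hR1Rr.trans subset_union_right)) hXc hXR1 hHT
  rw [← hPA] at hGF hGc hcnt habs
  have hPAc : ((PA.card : ℕ) : ℝ) ≤ κ / 2 * (Par.mk L p g).n := by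
    have h1 : (PA.card : ℝ) ≤ ((3 * (107 * m) : ℕ) : ℝ) := by
      exact_mod_cast hGc.trans (Nat.mul_le_mul_left 3 hHs)
    have h2 := hm_le (κ / 2) (by positivity) 321 (by linarith) (by norm_num)
    push_cast at h1
    linarith
  refine ⟨m, LAM1, LAM2, PR, PA, R1, X, ?_⟩
  constructor
  · exact hBits.lam1
  · exact hBits.lam2
  · intro x hx
    have h0 : (0 : ℤ) ≤ ((Par.mk L p g).n : ℤ) := Int.natCast_nonneg _
    rcases hBits.lam2r x hx with h | h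
    · unfold inR at h ⊢
      simp only at h ⊢
      constructor
      · exact h.1
      · linarith [h.2]
    · unfold inR at h ⊢
      simp only at h ⊢
      constructor
      · linarith [h.1]
      · exact h.2
  · exact hBits.dis12
  · exact hFL2
  · exact hR1A.trans hAd
  · exact hXA.trans hAd
  · exact hXR1
  · refine fam_mono hGF (Subset.refl _) (sdiff_subset_sdiff (Subset.refl _) ?_)
    exact union_subset (hR1Rr.trans subset_union_right) subset_union_left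
  · rw [hPA, disjoint_biUnion_right]
    intro z hz
    exact hGPs z (mem_range.1 hz)
  · exact hPRJ
  · intro d hd hdU
    by_cases hgd : gd (Par.mk L p g) d
    · exact hR1cov d hd hgd
    · exact absurd (hPRexc d hd hgd) hdU
  · exact hSup
  · exact habs
  · exact hcnt
  · exact hm
  · have h3 : 4 * ρ * (Par.mk L p g).n ≤ κ * (Par.mk L p g).n :=
      mul_le_mul_of_nonneg_right hρκ hnn
    push_cast
    linarith
  · have h1 := hm_le κ hκ 4 (by linarith) (by norm_num)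
    have h2 : (R1.card : ℝ) ≤ 2 * m := by exact_mod_cast hR2m
    push_cast
    rw [hXc]
    push_cast
    linarith
  · have h3 : 100 * L * ρ * (Par.mk L p g).n ≤ c / (2 * (K1 : ℝ) ^ 3) * (Par.mk L p g).n :=
      mul_le_mul_of_nonneg_right hρD hnn
    have h4 : 100 * (L : ℝ) * (PR.card : ℝ) ≤ 100 * L * (ρ * (Par.mk L p g).n) :=
      mul_le_mul_of_nonneg_left hPRn (by positivity)
    change 100 * (L : ℝ) * (PR.card : ℝ) ≤ _
    linarith

end Pool.Agent.PGo.A
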