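import Pool.Agent.PGo.ABase

/-!
# PGo-AFill: completing a partial labelling of a cycle

PLAN. Induction on `T \ S` (or `Finset.induction_on` on the set of new vertices): one new vertex
`j ∉ S` at a time (lemma `fill_one`). For `fill_one` let `v = vx m j`, `z1` the label of `prv j` if
`prv j ∈ S`, `z2` the label of `nxt j` if `nxt j ∈ S`; if one or both are missing take the missing ones
among `n, n + 1, n + 2` (they lie in the window because `w.1 ≤ 100`, `110 ≤ w.2`, `n ≥ 30`, and they are not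
anchors: anchors of vertices `< n` are `≤ n/2`, `= 3n/2` or `≥ 5n/2`) such that `z1 ≠ z2` (if both are
present they are different by `PLab.labi`, since `prv j ≠ nxt j`, `nxt_ne_prv`, `L ≥ 3`). Labels in
`ZA ⊆ zall` are not anchors (`anc_not_zall`). By `Sup` there are at least `c n` labels `x ∈ Z` with
`Df3 D x (anc n v) z1 z2`. Forbidden are: `x ∈ FL` (at most `|FL|`), `x = y i`, `i ∈ S` (at most `L`), and the `x`
such that one of `|x - anc|`, `|x - z1|`, `|x - z2|` lies in `FD ∪ (ix S).image (df m y)` (this set has at most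
`|FD| + 2 L` elements, every value is taken by at most two `x` for each of the three forms): at
most `|FL| + L + 6 |FD| + 12 L < c n`. Put `y' = Function.update y j x`. The new indices in
`ix (insert j S)` are `(true, j)`, `(false, j)` (if `nxt j ∈ S`), `(false, prv j)` (if `prv j ∈ S`); their values are
`|x - anc n v|`, `|x - y (nxt j)| = |x - z2|`, `|y (prv j) - x| = |x - z1|` (`nxt_prv`, `abs_sub_comm`); they are
different by `Df3`, and not old. For all other indices `df m y' = df m y` (neither `i.2` nor `nxt i.2` is `j`).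
-/

noncomputable section

namespace Pool.Agent.PGo.A

open Finset Pool.Agent.PGr Pool.Agent.PGo.R

private theorem fill_exists_z {P : Par} (hn : 30 ≤ P.n) {w : ℤ × ℤ} (hw1 : w.1 ≤ 100)
    (hw2 : 110 ≤ w.2) (z : ℤ) : ∃ z' : ℤ, inR P.n w z' ∧ z' ≠ z ∧ z' ∈ zall P.n := by
  have h0 : (0 : ℤ) ≤ P.n := by positivity
  have hn' : (30 : ℤ) ≤ P.n := by exact_mod_cast hn
  have h1 : w.1 * (P.n : ℤ) ≤ 100 * P.n := mul_le_mul_of_nonneg_right hw1 h0
  have h2 : 110 * (P.n : ℤ) ≤ w.2 * P.n := mul_le_mul_of_nonneg_right hw2 h0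
  by_cases hz : (P.n : ℤ) = z
  · refine ⟨P.n + 1, ⟨by linarith, by linarith⟩, by omega, mem_zall (by omega) (by omega) (by omega)⟩
  · refine ⟨P.n, ⟨by linarith, by linarith⟩, hz, mem_zall (by omega) (by omega) (by omega)⟩

private theorem fill_bad {F : Finset ℤ} {a z1 z2 x : ℤ}
    (hx : x ∉ F.biUnion (fun d => ({a + d, a - d, z1 + d, z1 - d, z2 + d, z2 - d} : Finset ℤ))) :
    |x - a| ∉ F ∧ |x - z1| ∉ F ∧ |x - z2| ∉ F := by
  refine ⟨fun hd => hx ?_, fun hd => hx ?_, fun hd => hx ?_⟩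
  · rw [mem_biUnion]
    refine ⟨_, hd, ?_⟩
    rcases abs_cases (x - a) with ⟨h1, -⟩ | ⟨h1, -⟩ <;> rw [h1] <;> simp
  · rw [mem_biUnion]
    refine ⟨_, hd, ?_⟩
    rcases abs_cases (x - z1) with ⟨h1, -⟩ | ⟨h1, -⟩ <;> rw [h1] <;> simp
  · rw [mem_biUnion]
    refine ⟨_, hd, ?_⟩
    rcases abs_cases (x - z2) with ⟨h1, -⟩ | ⟨h1, -⟩ <;> rw [h1] <;> simp

private theorem fill_bad_card (F : Finset ℤ) (a z1 z2 : ℤ) :
    (F.biUnion (fun d => ({a + d, a - d, z1 + d, z1 - d, z2 + d, z2 - d} : Finset ℤ))).card ≤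
      6 * F.card := by
  rw [mul_comm]
  refine card_biUnion_le_card_mul _ _ _ (fun d _ => ?_)
  exact card_le_six

private theorem fill_cases {P : Par} (hL : 3 ≤ P.L) {m : ℕ} {S : Finset (Fin P.L)}
    {y : Fin P.L → ℤ} {j : Fin P.L} (hj : j ∉ S) {x z1 z2 : ℤ}
    (h1 : prv j ∈ S → z1 = y (prv j)) (h2 : nxt j ∈ S → z2 = y (nxt j)) {i : Bool × Fin P.L}
    (hi : i ∈ ix (insert j S)) :
    (i ∈ ix S ∧ P.df m (Function.update y j x) i = P.df m y i) ∨
    (i = (true, j) ∧ P.df m (Function.update y j x) i = |x - anc P.n (P.vx m j)|) ∨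
    (i = (false, prv j) ∧ P.df m (Function.update y j x) i = |x - z1|) ∨
    (i = (false, j) ∧ P.df m (Function.update y j x) i = |x - z2|) := by
  obtain ⟨b, l⟩ := i
  rw [mem_ix] at hi
  obtain ⟨hi1, hi2⟩ := hi
  simp only at hi1 hi2
  cases b with
  | true =>
    by_cases hl : l = j
    · right; left
      subst hl
      refine ⟨rfl, ?_⟩
      rw [Par.df_true, Function.update_self]
    · left
      have hlS : l ∈ S := (mem_insert.1 hi1).resolve_left hl
      refine ⟨mem_ix.2 ⟨hlS, by simp⟩, ?_⟩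
      rw [Par.df_true, Par.df_true, Function.update_of_ne hl]
  | false =>
    have hi3 := hi2 rfl
    by_cases hl : l = j
    · right; right; right
      subst hl
      have hne := nxt_ne (by omega) l
      have hn : nxt l ∈ S := (mem_insert.1 hi3).resolve_left hne
      refine ⟨rfl, ?_⟩
      rw [Par.df_false, Function.update_self, Function.update_of_ne hne, ← h2 hn]
    · have hlS : l ∈ S := (mem_insert.1 hi1).resolve_left hl
      by_cases hl2 : nxt l = j
      · right; right; left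
        have hlp : l = prv j := by rw [← hl2, prv_nxt]
        refine ⟨by rw [hlp], ?_⟩
        rw [Par.df_false, hl2, Function.update_self, Function.update_of_ne hl, abs_sub_comm,
          h1 (hlp ▸ hlS), hlp]
      · left
        have hn : nxt l ∈ S := (mem_insert.1 hi3).resolve_left hl2
        refine ⟨mem_ix.2 ⟨hlS, fun _ => hn⟩, ?_⟩
        rw [Par.df_false, Par.df_false, Function.update_of_ne hl, Function.update_of_ne hl2]

private theorem fill_one {P : Par} (h : P.Ok) (hn : 30 ≤ P.n) {Z ZA D DA : Finset ℤ} {w : ℤ × ℤ}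
    {c : ℝ} (hS : Sup P Z D w c) (hw1 : w.1 ≤ 100) (hw2 : 110 ≤ w.2) (hZA : Z ⊆ ZA) (hDA : D ⊆ DA)
    (hZw : ∀ x ∈ Z, inR P.n w x) (hZz : ZA ⊆ zall P.n) {FL FD : Finset ℤ}
    (hc : (FL.card : ℝ) + 6 * FD.card + 20 * P.L + 10 ≤ c * P.n)
    {m : ℕ} {S : Finset (Fin P.L)} {y : Fin P.L → ℤ}
    (hy : PLab P (ZA \ FL) (DA \ FD) m S y) (hyw : ∀ j ∈ S, inR P.n w (y j)) {j : Fin P.L}
    (hj : j ∉ S) :
    ∃ x : ℤ, PLab P (ZA \ FL) (DA \ FD) m (insert j S) (Function.update y j x) ∧ inR P.n w x := by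
  have hL : 3 ≤ P.L := h.adm.three
  have hv : P.vx m j < P.n := Par.vx_lt h m j
  have hanc : ∀ z ∈ zall P.n, z ≠ anc P.n (P.vx m j) := by
    rintro z hz rfl
    exact anc_not_zall hv hz
  have hyz : ∀ l ∈ S, y l ∈ zall P.n := fun l hl => hZz (mem_sdiff.1 (hy.lab l hl)).1
  -- the neighbours
  obtain ⟨z1, z2, hz1w, hz2w, hz12, hz1a, hz2a, hz1, hz2⟩ : ∃ z1 z2 : ℤ, inR P.n w z1 ∧
      inR P.n w z2 ∧ z1 ≠ z2 ∧ z1 ≠ anc P.n (P.vx m j) ∧ z2 ≠ anc P.n (P.vx m j) ∧
      (prv j ∈ S → z1 = y (prv j)) ∧ (nxt j ∈ S → z2 = y (nxt j)) := by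
    by_cases hp : prv j ∈ S
    · by_cases hx : nxt j ∈ S
      · refine ⟨y (prv j), y (nxt j), hyw _ hp, hyw _ hx, ?_, hanc _ (hyz _ hp), hanc _ (hyz _ hx),
          fun _ => rfl, fun _ => rfl⟩
        intro he
        exact nxt_ne_prv hL j (hy.labi _ hp _ hx he).symm
      · obtain ⟨z', hz'1, hz'2, hz'3⟩ := fill_exists_z hn hw1 hw2 (y (prv j))
        exact ⟨y (prv j), z', hyw _ hp, hz'1, hz'2.symm, hanc _ (hyz _ hp), hanc _ hz'3,
          fun _ => rfl, fun hh => absurd hh hx⟩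
    · by_cases hx : nxt j ∈ S
      · obtain ⟨z', hz'1, hz'2, hz'3⟩ := fill_exists_z hn hw1 hw2 (y (nxt j))
        exact ⟨z', y (nxt j), hz'1, hyw _ hx, hz'2, hanc _ hz'3, hanc _ (hyz _ hx),
          fun hh => absurd hh hp, fun _ => rfl⟩
      · obtain ⟨z, hz1, -, hz3⟩ := fill_exists_z hn hw1 hw2 0
        obtain ⟨z', hz'1, hz'2, hz'3⟩ := fill_exists_z hn hw1 hw2 z
        exact ⟨z, z', hz1, hz'1, hz'2.symm, hanc _ hz3, hanc _ hz'3,
          fun hh => absurd hh hp, fun hh => absurd hh hx⟩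
  have hsup := hS _ hv z1 z2 hz1w hz2w hz12 hz1a hz2a
  set a := anc P.n (P.vx m j) with ha
  set O := (ix S).image (P.df m y) with hO
  -- the forbidden labels
  have hOc : O.card ≤ 2 * P.L := by
    calc O.card ≤ (ix S).card := card_image_le
      _ ≤ (univ : Finset (Bool × Fin P.L)).card := card_le_card (subset_univ _)
      _ = 2 * P.L := by simp
  set B := (FL ∪ S.image y) ∪
    (FD ∪ O).biUnion (fun d => ({a + d, a - d, z1 + d, z1 - d, z2 + d, z2 - d} : Finset ℤ)) with hB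
  have hBc : B.card ≤ FL.card + P.L + 6 * (FD.card + 2 * P.L) := by
    calc B.card ≤ (FL ∪ S.image y).card + _ := card_union_le _ _
      _ ≤ (FL.card + P.L) + 6 * (FD.card + 2 * P.L) := by
        apply Nat.add_le_add
        · calc (FL ∪ S.image y).card ≤ FL.card + (S.image y).card := card_union_le _ _
            _ ≤ FL.card + P.L := by
              apply Nat.add_le_add_left
              calc (S.image y).card ≤ S.card := card_image_le
                _ ≤ (univ : Finset (Fin P.L)).card := card_le_card (subset_univ _)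
                _ = P.L := by simp
        · refine (fill_bad_card _ _ _ _).trans (Nat.mul_le_mul_left _ ?_)
          exact (card_union_le _ _).trans (Nat.add_le_add_left hOc _)
  have hlt : B.card < (Z.filter fun x => Df3 D x a z1 z2).card := by
    have h1 : (B.card : ℝ) ≤ FL.card + P.L + 6 * (FD.card + 2 * P.L) := by exact_mod_cast hBc
    have h2 : (0 : ℝ) ≤ P.L := Nat.cast_nonneg _
    have h3 : (B.card : ℝ) < ((Z.filter fun x => Df3 D x a z1 z2).card : ℝ) := by linarith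
    exact_mod_cast h3
  obtain ⟨x, hxA, hxB⟩ := exists_mem_notMem_of_card_lt_card hlt
  rw [mem_filter] at hxA
  obtain ⟨hxZ, hD1, hD2, hD3, hne1, hne2, hne3⟩ := hxA
  rw [hB, mem_union, mem_union, not_or, not_or] at hxB
  obtain ⟨⟨hxFL, hxy⟩, hxbad⟩ := hxB
  obtain ⟨hb1, hb2, hb3⟩ := fill_bad hxbad
  rw [mem_union, not_or] at hb1 hb2 hb3
  have hxy' : ∀ l ∈ S, y l ≠ x := fun l hl he => hxy (mem_image.2 ⟨l, hl, he⟩)
  have hOm : ∀ i ∈ ix S, P.df m y i ∈ O := fun i hi => mem_image_of_mem _ hi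
  refine ⟨x, ⟨?_, ?_, ?_, ?_⟩, hZw x hxZ⟩
  · intro l hl
    by_cases hlj : l = j
    · subst hlj
      rw [Function.update_self]
      exact mem_sdiff.2 ⟨hZA hxZ, hxFL⟩
    · rw [Function.update_of_ne hlj]
      exact hy.lab l ((mem_insert.1 hl).resolve_left hlj)
  · intro l hl l' hl' he
    by_cases hlj : l = j
    · by_cases hlj' : l' = j
      · rw [hlj, hlj']
      · exfalso
        rw [hlj, Function.update_self, Function.update_of_ne hlj'] at he
        exact hxy' l' ((mem_insert.1 hl').resolve_left hlj') he.symm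
    · by_cases hlj' : l' = j
      · exfalso
        rw [hlj', Function.update_self, Function.update_of_ne hlj] at he
        exact hxy' l ((mem_insert.1 hl).resolve_left hlj) he
      · rw [Function.update_of_ne hlj, Function.update_of_ne hlj'] at he
        exact hy.labi l ((mem_insert.1 hl).resolve_left hlj) l'
          ((mem_insert.1 hl').resolve_left hlj') he
  · intro i hi
    rcases fill_cases (m := m) (x := x) hL hj hz1 hz2 hi with ⟨h1, h2⟩ | ⟨-, h2⟩ | ⟨-, h2⟩ | ⟨-, h2⟩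
    · rw [h2]; exact hy.dif i h1
    · rw [h2]; exact mem_sdiff.2 ⟨hDA hD1, hb1.1⟩
    · rw [h2]; exact mem_sdiff.2 ⟨hDA hD2, hb2.1⟩
    · rw [h2]; exact mem_sdiff.2 ⟨hDA hD3, hb3.1⟩
  · intro i hi i' hi' he
    rcases fill_cases (m := m) (x := x) hL hj hz1 hz2 hi with
      ⟨h1, h2⟩ | ⟨h1, h2⟩ | ⟨h1, h2⟩ | ⟨h1, h2⟩ <;>
    rcases fill_cases (m := m) (x := x) hL hj hz1 hz2 hi' with
      ⟨h1', h2'⟩ | ⟨h1', h2'⟩ | ⟨h1', h2'⟩ | ⟨h1', h2'⟩ <;>
    rw [h2, h2'] at he
    · exact hy.difi i h1 i' h1' he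
    · exact absurd (he ▸ hOm i h1) hb1.2
    · exact absurd (he ▸ hOm i h1) hb2.2
    · exact absurd (he ▸ hOm i h1) hb3.2
    · exact absurd (he ▸ hOm i' h1') hb1.2
    · rw [h1, h1']
    · exact absurd he hne1
    · exact absurd he hne2
    · exact absurd (he ▸ hOm i' h1') hb2.2
    · exact absurd he.symm hne1
    · rw [h1, h1']
    · exact absurd he hne3
    · exact absurd (he ▸ hOm i' h1') hb3.2
    · exact absurd he.symm hne2
    · exact absurd he.symm hne3
    · rw [h1, h1']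

theorem fill {P : Par} (h : P.Ok) (hn : 30 ≤ P.n) {Z ZA D DA : Finset ℤ} {w : ℤ × ℤ} {c : ℝ}
    (hS : Sup P Z D w c) (hw1 : w.1 ≤ 100) (hw2 : 110 ≤ w.2) (hZA : Z ⊆ ZA) (hDA : D ⊆ DA)
    (hZw : ∀ x ∈ Z, inR P.n w x) (hZz : ZA ⊆ zall P.n) {FL FD : Finset ℤ}
    (hc : (FL.card : ℝ) + 6 * FD.card + 20 * P.L + 10 ≤ c * P.n)
    {m : ℕ} {S T : Finset (Fin P.L)} {y : Fin P.L → ℤ} (hST : S ⊆ T)
    (hy : PLab P (ZA \ FL) (DA \ FD) m S y) (hyw : ∀ j ∈ S, inR P.n w (y j)) :
    ∃ y' : Fin P.L → ℤ, PLab P (ZA \ FL) (DA \ FD) m T y' ∧ (∀ j ∈ S, y' j = y j) ∧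
      ∀ j ∈ T, inR P.n w (y' j) := by
  have key : ∀ U : Finset (Fin P.L), Disjoint S U → ∃ y' : Fin P.L → ℤ,
      PLab P (ZA \ FL) (DA \ FD) m (S ∪ U) y' ∧ (∀ j ∈ S, y' j = y j) ∧
      ∀ j ∈ S ∪ U, inR P.n w (y' j) := by
    intro U
    induction U using Finset.induction_on with
    | empty =>
      intro _
      refine ⟨y, ?_, fun _ _ => rfl, ?_⟩
      · rw [union_empty]; exact hy
      · rw [union_empty]; exact hyw
    | insert j U hjU ih =>
      intro hd
      rw [disjoint_insert_right] at hd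
      obtain ⟨y', h1, h2, h3⟩ := ih hd.2
      have hj : j ∉ S ∪ U := by
        rw [mem_union, not_or]
        exact ⟨hd.1, hjU⟩
      obtain ⟨x, hx1, hx2⟩ := fill_one h hn hS hw1 hw2 hZA hDA hZw hZz hc h1 h3 hj
      refine ⟨Function.update y' j x, ?_, ?_, ?_⟩
      · rw [union_insert]; exact hx1
      · intro l hl
        have : l ≠ j := by rintro rfl; exact hd.1 hl
        rw [Function.update_of_ne this]
        exact h2 l hl
      · intro l hl
        rw [union_insert] at hl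
        by_cases hlj : l = j
        · subst hlj
          rw [Function.update_self]
          exact hx2
        · rw [Function.update_of_ne hlj]
          exact h3 l ((mem_insert.1 hl).resolve_left hlj)
  obtain ⟨y', h1, h2, h3⟩ := key (T \ S) disjoint_sdiff
  rw [union_sdiff_of_subset hST] at h1 h3
  exact ⟨y', h1, h2, h3⟩

end Pool.Agent.PGo.A
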