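import Pool.Agent.PGo.AEx
import Pool.Agent.PGo.AComp

/-!
# PGo part A: Theorem A from the bits, `R1` and the gadgets
-/

noncomputable section

namespace Pool.Agent.PGo.A

open Finset Pool.Agent.PGr Pool.Agent.PGo.R

theorem thmA_of_parts {L p : ℕ} (hA : Adm L p) (hB : BitsStat L p) (hR : R1Stat L p)
    (hAbs : AbsStat L p) (hAb : AbsorbStat) : ThmA L p :=
  thmA_of hA (planEx_of hA hB hR hAbs hAb) (planComp hA) (planCnt hA)

end Pool.Agent.PGo.A
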