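import Pool.Agent.PGo.ADefs

/-!
# PGo part A, gadgets: definitions and statements

The gadgets are planted after `LAM1`, `LAM2`, `R1`, `X`, `R0` have been chosen; they only have to
avoid small sets of cycles, labels and differences. `TwEx`, `EoEx`: existence of the two-way and
three-way cores (plain counting); `Plant`: completion of a core to a pack (for fixed `ZP`, `DP`);
`Situ`: the situation in which gadgets are planted.
-/

noncomputable section

namespace Pool.Agent.PGo.A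

open Finset Pool.Agent.PGr Pool.Agent.PGo.R

variable (P : Par)

/-- two-way cores exist outside of small sets -/
def TwEx (e : ℝ) : Prop :=
  ∀ (FC : Finset ℕ) (FL FD : Finset ℤ), (FC.card : ℝ) ≤ e * P.n → (FL.card : ℝ) ≤ e * P.n →
    (FD.card : ℝ) ≤ e * P.n → ∀ d d' : ℤ, optOk P d → optOk P d' → d ≠ d' →
    ∃ (m : ℕ) (y2 : ℤ), m % P.g ∉ FC ∧
      CoreOk P (zall P.n \ FL) (dall P.n \ FD) (twCore P d d' m y2)

/-- three-way cores exist outside of small sets -/
def EoEx (e : ℝ) : Prop :=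
  ∀ (FC : Finset ℕ) (FL FD : Finset ℤ), (FC.card : ℝ) ≤ e * P.n → (FL.card : ℝ) ≤ e * P.n →
    (FD.card : ℝ) ≤ e * P.n → ∀ d : ℤ, inR P.n (10, 130) d → gd P d →
    ∃ (m : ℕ) (x b2 : ℤ), m % P.g ∉ FC ∧
      CoreOk P (zall P.n \ FL) (dall P.n \ FD) (eoCore P d m x b2) ∧
      Function.Injective (eoD d (anc P.n m) x b2) ∧
      optOk P (eoD d (anc P.n m) x b2 0) ∧ optOk P (eoD d (anc P.n m) x b2 1) ∧
      optOk P (eoD d (anc P.n m) x b2 3) ∧ optOk P (eoD d (anc P.n m) x b2 4)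

/-- planting for fixed sets `ZP`, `DP` -/
def Plant (ZP DP : Finset ℤ) (e : ℝ) : Prop :=
  ∀ Ps : Finset (Pack P), PFam P ZP DP Ps → (Ps.card : ℝ) ≤ e * P.n →
    ∀ q : Core, CoreOk P (ZP \ UL Ps) (DP \ UD Ps) q → q.m % P.g ∉ UC Ps →
      ∃ r : Pack P, IsPk P q r ∧ r ∉ Ps ∧ PFam P ZP DP (insert r Ps) ∧ Disjoint r.Dif (UD Ps)

/-- the situation in which gadgets are planted -/
structure Situ (ZP DP : Finset ℤ) (e e1 : ℝ) : Prop where
  ok : P.Ok
  tw : TwEx P e
  eo : EoEx P e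
  pl : Plant P ZP DP e1
  Zs : ZP ⊆ zall P.n
  Ds : DP ⊆ dall P.n
  cZ : ((zall P.n \ ZP).card : ℝ) ≤ e / 2 * P.n
  cD : ((dall P.n \ DP).card : ℝ) ≤ e / 2 * P.n

/-- there is room for `N` packs -/
def Room (e e1 : ℝ) (N : ℕ) : Prop :=
  (((2 * P.L + 8) * N : ℕ) : ℝ) ≤ e / 2 * P.n ∧ (N : ℝ) ≤ e1 * P.n

/-- options of the template: differences of `A` which are not available for planting -/
def Opt (DP : Finset ℤ) (d : ℤ) : Prop := inR P.n (10, 130) d ∧ gd P d ∧ d ∉ DP

variable {P}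

/-- `r` is a three-way gadget pack for the option `d`: private differences
`s = (al', be, ga, al'', be')`; the three states. -/
structure EoG (r : Pack P) (d : ℤ) (s : Fin 5 → ℤ) : Prop where
  G : r.G = univ.image s
  inj : Function.Injective s
  st0 : ∃ z ∈ r.J, (univ : Finset (Fin 3)).image (pd3 r z) = {s 2, d, s 1}
  st1 : ∃ z ∈ r.J, (univ : Finset (Fin 3)).image (pd3 r z) = {s 1, s 0, s 2}
  st2 : ∃ z ∈ r.J, (univ : Finset (Fin 3)).image (pd3 r z) = {s 3, s 4, s 2}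

end Pool.Agent.PGo.A
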