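import Pool.Agent.PGo.AGDefs
import Pool.Agent.PGr.RMem
import Pool.Agent.PGr.PCBase

/-!
# PGo-AGLin: avoiding few linear conditions; choice of the base vertex of a gadget

PLAN. `avoid1`: a pair `l = (α, γ) ≠ 0` excludes at most one `x` (`α x + γ = 0`): if every `x ∈ I`
were excluded by some `l ∈ Ls`, the choice `x ↦ l` would be injective (two different `x, x'` with the
same `l`: `α (x - x') = 0`, so `α = 0` and `γ = 0`). `Finset.exists_mem_notMem_of_card_lt_card` or
`Finset.card_biUnion_le`.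
`avoid2`: a triple `l = (α, β, γ) ≠ 0` excludes at most `max |I| |J|` pairs of `I ×ˢ J`: if `β ≠ 0`
at most one `y` for every `x`; if `β = 0`, `α ≠ 0` at most one `x`, all `y`; if `α = β = 0` none.
Then the union bound (`card_biUnion_le`).
`exists_m`: `ε := 1 / (300 L)`, `g0 := 3000` (`n = L g ≥ 9000`). For `A ∈ Icc lo hi` the vertex
`m = (2 (3 n - A) + 1).toNat` is odd, `< n`, not special, `anc n m = A` (`anc`: `m % 2 = 1`,
`m / 2 = 3 n - A`); these are `≥ n / 100` vertices. Excluded are: `m % g ∈ FC`: at most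
`L |FC| ≤ n / 300` (every residue class modulo `g` has `L` elements below `n = L g`); `m ∈ E`: `10`;
`vx m 1` special: `vx m j = n - 1` has at most one solution `m < n` (`vx_vx`, `vx_add_L`: apply
`vx · (L - j)`), the same for `L - 1`.
`vx_one`, `vx_last`: `vx m 1 = (m + k) % n` is `nbp n k m` by definition; `nbm_vx` with `j = L - 1`
and `vx_add_L`, `vx_zero`.
`gd_nb`: `m` odd not special: `anc m = 3 n - (m - 1) / 2`. The neighbour is `m + k`, `m + k - n`,
`m - k` or `m - k + n` (`PC.nbp_val`, `PC.nbm_val`). If it is odd and not special, then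
`2 (anc m - anc v)` is `k`, `k - n`, `-k` or `n - k` : excluded by `gd` and `0 < d`. If it is even, then
`anc v = v / 2 ≤ n / 2` and `anc m ≥ 5 n / 2`, so the difference is at least `2 n - 1 > d`. (omega)
-/

noncomputable section

namespace Pool.Agent.PGo.A

open Finset Pool.Agent.PGr Pool.Agent.PGo.R

theorem avoid1 (I : Finset ℤ) (Ls : Finset (ℤ × ℤ)) (h : ∀ l ∈ Ls, l ≠ 0)
    (hc : Ls.card < I.card) : ∃ x ∈ I, ∀ l ∈ Ls, l.1 * x + l.2 ≠ 0 := by
  by_contra hcon
  push Not at hcon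
  choose! f hf1 hf2 using hcon
  obtain ⟨x, hx, y, hy, hne, he⟩ := exists_ne_map_eq_of_card_lt_of_maps_to hc hf1
  have h1 := hf2 x hx
  have h2 := hf2 y hy
  rw [← he] at h2
  have h3 : (f x).1 * (x - y) = 0 := by linear_combination h1 - h2
  have h4 : (f x).1 = 0 := (mul_eq_zero.1 h3).resolve_right (sub_ne_zero.2 hne)
  have h5 : (f x).2 = 0 := by rw [h4, zero_mul, zero_add] at h1; exact h1
  exact h (f x) (hf1 x hx) (Prod.ext h4 h5)

theorem avoid2 (I J : Finset ℤ) (Ls : Finset (ℤ × ℤ × ℤ)) (h : ∀ l ∈ Ls, l ≠ 0)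
    (hc : Ls.card * max I.card J.card < I.card * J.card) :
    ∃ x ∈ I, ∃ y ∈ J, ∀ l ∈ Ls, l.1 * x + l.2.1 * y + l.2.2 ≠ 0 := by
  classical
  by_contra hcon
  push Not at hcon
  set B : ℤ × ℤ × ℤ → Finset (ℤ × ℤ) := fun l =>
    (I ×ˢ J).filter fun u => l.1 * u.1 + l.2.1 * u.2 + l.2.2 = 0 with hB
  have hsub : I ×ˢ J ⊆ Ls.biUnion B := by
    intro u hu
    rw [mem_product] at hu
    obtain ⟨l, hl, he⟩ := hcon u.1 hu.1 u.2 hu.2
    rw [mem_biUnion]
    exact ⟨l, hl, mem_filter.2 ⟨mem_product.2 hu, he⟩⟩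
  have hle : ∀ l ∈ Ls, (B l).card ≤ max I.card J.card := by
    intro l hl
    by_cases hb : l.2.1 = 0
    · by_cases ha : l.1 = 0
      · have hg : l.2.2 ≠ 0 := fun hg => h l hl (Prod.ext ha (Prod.ext hb hg))
        have he : B l = ∅ := by
          rw [hB, filter_eq_empty_iff]
          intro u _ hu
          rw [ha, hb, zero_mul, zero_mul, zero_add, zero_add] at hu
          exact hg hu
        rw [he, card_empty]
        exact Nat.zero_le _
      · refine le_trans ?_ (le_max_right _ _)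
        refine card_le_card_of_injOn Prod.snd ?_ ?_
        · intro u hu
          exact (mem_product.1 (mem_filter.1 (mem_coe.1 hu)).1).2
        · intro u hu u' hu' he
          have h1 := (mem_filter.1 (mem_coe.1 hu)).2
          have h2 := (mem_filter.1 (mem_coe.1 hu')).2
          have h3 : l.1 * (u.1 - u'.1) = 0 := by
            rw [hb] at h1 h2
            linear_combination h1 - h2
          have h4 := (mul_eq_zero.1 h3).resolve_left ha
          exact Prod.ext (sub_eq_zero.1 h4) he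
    · refine le_trans ?_ (le_max_left _ _)
      refine card_le_card_of_injOn Prod.fst ?_ ?_
      · intro u hu
        exact (mem_product.1 (mem_filter.1 (mem_coe.1 hu)).1).1
      · intro u hu u' hu' he
        have h1 := (mem_filter.1 (mem_coe.1 hu)).2
        have h2 := (mem_filter.1 (mem_coe.1 hu')).2
        have he' : u.1 = u'.1 := he
        have h3 : l.2.1 * (u.2 - u'.2) = 0 := by
          rw [he'] at h1
          linear_combination h1 - h2
        have h4 := (mul_eq_zero.1 h3).resolve_left hb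
        exact Prod.ext he (sub_eq_zero.1 h4)
  have h1 := (card_le_card hsub).trans (card_biUnion_le_card_mul Ls B _ hle)
  rw [card_product] at h1
  omega

theorem vx_one (P : Par) (m : ℕ) : P.vx m 1 = nbp P.n P.k m := by
  unfold Par.vx nbp
  rw [one_mul]

private theorem vx_L {P : Par} {m : ℕ} (hm : m < P.n) : P.vx m P.L = m := by
  have h := Par.vx_add_L (P := P) m 0
  rw [zero_add, Par.vx_zero hm] at h
  exact h

theorem vx_last {P : Par} (hP : P.Ok) {m : ℕ} (hm : m < P.n) :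
    P.vx m (P.L - 1) = nbm P.n P.k m := by
  have h := Par.nbm_vx hP m (P.L - 1)
  rw [Nat.sub_add_cancel hP.L_pos, vx_L hm] at h
  exact h.symm

/-- the vertex with anchor `A` -/
private def vA (n : ℕ) (A : ℤ) : ℕ := (2 * (3 * (n : ℤ) - A) + 1).toNat

private theorem vA_spec {n : ℕ} {A : ℤ} (h1 : 5 * (n : ℤ) + 4 ≤ 2 * A) (h2 : A ≤ 3 * (n : ℤ)) :
    vA n A < n ∧ vA n A % 2 = 1 ∧ ¬ spec n (vA n A) ∧ anc n (vA n A) = A := by
  obtain ⟨b, hb⟩ : ∃ b : ℕ, (b : ℤ) = 3 * (n : ℤ) - A := ⟨(3 * (n : ℤ) - A).toNat, by omega⟩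
  have hv : vA n A = 2 * b + 1 := by
    unfold vA
    rw [← hb]
    omega
  rw [hv]
  refine ⟨by omega, by omega, ?_, ?_⟩
  · unfold spec
    omega
  · unfold anc
    rw [if_neg (by omega), if_neg (by omega)]
    omega

theorem exists_m {L p : ℕ} (hA : Adm L p) : ∃ ε : ℝ, 0 < ε ∧ ∃ g0 : ℕ, ∀ g : ℕ, g0 ≤ g →
    ∀ (FC E : Finset ℕ) (lo hi : ℤ), (FC.card : ℝ) ≤ ε * (Par.mk L p g).n → E.card ≤ 10 →
      5 * ((Par.mk L p g).n : ℤ) + 4 ≤ 2 * lo → hi ≤ 3 * ((Par.mk L p g).n : ℤ) →
      ((Par.mk L p g).n : ℤ) ≤ 100 * (hi - lo + 1) →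
      ∃ m < (Par.mk L p g).n, m % 2 = 1 ∧ ¬ spec (Par.mk L p g).n m ∧
        lo ≤ anc (Par.mk L p g).n m ∧ anc (Par.mk L p g).n m ≤ hi ∧ m % g ∉ FC ∧ m ∉ E ∧
        ¬ spec (Par.mk L p g).n ((Par.mk L p g).vx m 1) ∧
        ¬ spec (Par.mk L p g).n ((Par.mk L p g).vx m (L - 1)) := by
  classical
  have hL0 : 0 < L := hA.L_pos
  have hL3 : 3 ≤ L := hA.three
  have hLr : (0 : ℝ) < (L : ℝ) := by exact_mod_cast hL0
  refine ⟨1 / (300 * L), by positivity, 3000, ?_⟩
  intro g hg FC E lo hi hFC hE hlo hhi hlen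
  have hn : (Par.mk L p g).n = L * g := rfl
  have hFC' : 300 * FC.card ≤ g := by
    rw [hn] at hFC
    have h1 : 1 / (300 * (L : ℝ)) * ((L * g : ℕ) : ℝ) = (g : ℝ) / 300 := by
      push_cast
      field_simp
    rw [h1, le_div_iff₀ (by norm_num)] at hFC
    have h2 : ((300 * FC.card : ℕ) : ℝ) ≤ (g : ℝ) := by push_cast; linarith
    exact_mod_cast h2
  set n := (Par.mk L p g).n with hndef
  have hn9 : 9000 ≤ n := by
    rw [hn]
    calc 9000 = 3 * 3000 := by norm_num
      _ ≤ L * g := Nat.mul_le_mul hL3 hg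
  have hspec : ∀ A ∈ Icc lo hi, vA n A < n ∧ vA n A % 2 = 1 ∧ ¬ spec n (vA n A) ∧
      anc n (vA n A) = A := by
    intro A hA'
    rw [mem_Icc] at hA'
    exact vA_spec (by omega) (by omega)
  set M : Finset ℕ := (Icc lo hi).image (vA n) with hM
  have hMc : n ≤ 100 * M.card := by
    have h1 : M.card = (Icc lo hi).card := by
      rw [hM]
      refine card_image_of_injOn ?_
      intro A hA1 A' hA2 he
      have h2 := (hspec A (mem_coe.1 hA1)).2.2.2
      have h3 := (hspec A' (mem_coe.1 hA2)).2.2.2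
      rw [← h2, ← h3, he]
    rw [h1, Int.card_Icc]
    omega
  set B1 : Finset ℕ := (range n).filter fun m => m % g ∈ FC with hB1
  set B3 : Finset ℕ := (range n).filter fun m => spec n ((Par.mk L p g).vx m 1) with hB3
  set B4 : Finset ℕ := (range n).filter fun m => spec n ((Par.mk L p g).vx m (L - 1)) with hB4
  have hc1 : 300 * B1.card ≤ n := by
    have h1 : B1 ⊆ (FC ×ˢ range L).image fun u => u.1 + u.2 * g := by
      intro m hm
      rw [hB1, mem_filter, mem_range] at hm
      rw [mem_image]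
      refine ⟨(m % g, m / g), ?_, ?_⟩
      · rw [mem_product]
        refine ⟨hm.2, mem_range.2 ?_⟩
        apply Nat.div_lt_of_lt_mul
        have h2 := hm.1
        rw [hn] at h2
        rwa [Nat.mul_comm]
      · change m % g + m / g * g = m
        rw [Nat.mul_comm]
        exact Nat.mod_add_div m g
    have h2 := (card_le_card h1).trans card_image_le
    rw [card_product, card_range] at h2
    have h3 : 300 * B1.card ≤ 300 * (FC.card * L) := Nat.mul_le_mul_left _ h2
    have h4 : 300 * (FC.card * L) = 300 * FC.card * L := by ring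
    have h5 : 300 * FC.card * L ≤ g * L := Nat.mul_le_mul_right _ hFC'
    rw [hn]
    linarith [Nat.mul_comm g L]
  have hc3 : B3.card ≤ 1 := by
    rw [card_le_one]
    intro m hm m' hm'
    rw [hB3, mem_filter, mem_range] at hm hm'
    have h1 := hm.2.2
    have h2 := hm'.2.2
    have h3 : (Par.mk L p g).vx m 1 = (Par.mk L p g).vx m' 1 := by omega
    have h4 := congrArg (fun v => (Par.mk L p g).vx v (L - 1)) h3
    simp only [Par.vx_vx] at h4
    have h5 : 1 + (L - 1) = (Par.mk L p g).L := by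
      change 1 + (L - 1) = L
      omega
    rw [h5, vx_L hm.1, vx_L hm'.1] at h4
    exact h4
  have hc4 : B4.card ≤ 1 := by
    rw [card_le_one]
    intro m hm m' hm'
    rw [hB4, mem_filter, mem_range] at hm hm'
    have h1 := hm.2.2
    have h2 := hm'.2.2
    have h3 : (Par.mk L p g).vx m (L - 1) = (Par.mk L p g).vx m' (L - 1) := by omega
    have h4 := congrArg (fun v => (Par.mk L p g).vx v 1) h3
    simp only [Par.vx_vx] at h4
    have h5 : L - 1 + 1 = (Par.mk L p g).L := by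
      change L - 1 + 1 = L
      omega
    rw [h5, vx_L hm.1, vx_L hm'.1] at h4
    exact h4
  obtain ⟨m, hmM, hmB⟩ : ∃ m ∈ M, m ∉ ((B1 ∪ E) ∪ B3) ∪ B4 := by
    by_contra hcon
    push Not at hcon
    have h1 : M ⊆ ((B1 ∪ E) ∪ B3) ∪ B4 := hcon
    have h2 := card_le_card h1
    have h3 := card_union_le ((B1 ∪ E) ∪ B3) B4
    have h4 := card_union_le (B1 ∪ E) B3
    have h5 := card_union_le B1 E
    omega
  rw [hM, mem_image] at hmM
  obtain ⟨A, hAI, rfl⟩ := hmM
  obtain ⟨a1, a2, a3, a4⟩ := hspec A hAI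
  rw [mem_Icc] at hAI
  rw [mem_union, mem_union, mem_union, not_or, not_or, not_or] at hmB
  obtain ⟨⟨⟨b1, b2⟩, b3⟩, b4⟩ := hmB
  refine ⟨vA n A, a1, a2, a3, by rw [a4]; exact hAI.1, by rw [a4]; exact hAI.2, ?_, b2, ?_, ?_⟩
  · intro h
    exact b1 (mem_filter.2 ⟨mem_range.2 a1, h⟩)
  · intro h
    exact b3 (mem_filter.2 ⟨mem_range.2 a1, h⟩)
  · intro h
    exact b4 (mem_filter.2 ⟨mem_range.2 a1, h⟩)

theorem gd_nb {P : Par} (hP : P.Ok) {m : ℕ} (hm : m < P.n) (ho : m % 2 = 1)
    (hs : ¬ spec P.n m) {j : ℕ} (hj : j = 1 ∨ j = P.L - 1) (hv : ¬ spec P.n (P.vx m j)) {d : ℤ}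
    (hd : gd P d) (h0 : 0 < d) (h1 : 10 * d ≤ 13 * P.n) (hn : 10 ≤ P.n) :
    anc P.n m - anc P.n (P.vx m j) ≠ d := by
  have hk := hP.k_lt
  have hvn : P.vx m j < P.n := Par.vx_lt hP m j
  have hval : P.vx m j = m + P.k ∨ P.vx m j + P.n = m + P.k ∨ P.vx m j + P.k = m ∨
      P.vx m j + P.k = m + P.n := by
    rcases hj with rfl | rfl
    · rw [vx_one, PC.nbp_val hm hk]
      split_ifs <;> omega
    · rw [vx_last hP hm, PC.nbm_val hm hk]
      split_ifs <;> omega
  obtain ⟨hd1, hd2⟩ := hd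
  unfold spec at hs hv
  generalize P.vx m j = v at hv hvn hval
  generalize P.n = n at *
  generalize P.k = k at *
  unfold anc
  rw [if_neg (show ¬ m % 2 = 0 by omega), if_neg hs]
  split_ifs with e1
  · omega
  · omega

end Pool.Agent.PGo.A
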