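import Pool.Agent.PGo.AGDefs

/-!
# PGo-AGad: the two-way and the three-way gadget, composition

PLAN. Copy of `PGr/PGad.lean` (read it: every proof is there), with `Pack` replaced by the new packs:
`pd3 r z` is `|z - anc m|`, `|z - lb r.y 1|`, `|z - lb r.y (L - 1)|`, and `IsPk P q r` gives
`r.m = q.m`, `lb r.y 1 = q.y1`, `lb r.y (L - 1) = q.y2`, `r.J = q.J`, `r.G = q.G`.
Elements of `DP ⊆ dall` are `≥ 1` (signs of the absolute values).
`tw_gad`: label `y2 + d`: `|y2+d-a| = a-(y2+d)`, `|y2+d-y1| = |a-(y2+d')| = a-(y2+d')`, `|y2+d-y2| = d`;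
the label `y2 + d'` symmetric; `G` has two elements because `d ≠ d'`; `d ∉ DP ⊇ G`.
`eoG_of`: states `x`: `ga = a-x`, `d`, `be = x-b2`; `b2+a-x`: `be`, `al'`, `ga`; `x+b2-a`: `al''`, `be'`,
`ga` (as in `PGr.PPk.eo_gad`; `st0` is `{ga, d, be}`, `st1` is `{be, al', ga}`, `st2` is
`{al'', be', ga}`).
`eo_gad`: the two-way pack `t` (options `be, be'`) takes `be'` in the first two states and `be` in the
third. `gad_comp`, `gad_mono`, `DS_union`, `DS_congr` literally as in PGr.
-/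

noncomputable section

namespace Pool.Agent.PGo.A

open Finset Pool.Agent.PGr Pool.Agent.PGo.R

variable {P : Par}

private theorem ag_s1 (a b r o : ℤ) (G : Finset ℤ) :
    ({a, o, b} : Finset ℤ) ∪ insert r G = insert o ({b, a, r} ∪ G) := by
  ext w
  simp only [Finset.mem_insert, Finset.mem_singleton, Finset.mem_union]
  tauto

private theorem ag_s2 (a b r o : ℤ) (G : Finset ℤ) :
    ({b, o, a} : Finset ℤ) ∪ insert r G = insert o ({b, a, r} ∪ G) := by
  ext w
  simp only [Finset.mem_insert, Finset.mem_singleton, Finset.mem_union]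
  tauto

private theorem ag_s3 (a b r o : ℤ) (G : Finset ℤ) :
    ({o, r, a} : Finset ℤ) ∪ insert b G = insert o ({b, a, r} ∪ G) := by
  ext w
  simp only [Finset.mem_insert, Finset.mem_singleton, Finset.mem_union]
  tauto

private theorem ag_s4 (a b o : ℤ) : ({a, b, o} : Finset ℤ) = {o, a, b} := by
  ext w
  simp only [Finset.mem_insert, Finset.mem_singleton]
  tauto

private theorem ag_s5 (a b o : ℤ) : ({b, a, o} : Finset ℤ) = {o, a, b} := by
  ext w
  simp only [Finset.mem_insert, Finset.mem_singleton]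
  tauto

private theorem ag_s6 (o r : ℤ) (W1 W2 : Finset ℤ) :
    insert o W1 ∪ insert r W2 = insert o (insert r (W1 ∪ W2)) := by
  ext w
  simp only [Finset.mem_insert, Finset.mem_union]
  tauto

private theorem ag_s7 (o r : ℤ) (W1 W2 : Finset ℤ) :
    insert r W1 ∪ insert o W2 = insert o (insert r (W1 ∪ W2)) := by
  ext w
  simp only [Finset.mem_insert, Finset.mem_union]
  tauto

private theorem ag_pos {DP : Finset ℤ} (hDP : DP ⊆ dall P.n) {d : ℤ} (h : d ∈ DP) : 1 ≤ d := by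
  have h1 : d ∈ dall P.n := hDP h
  unfold dall at h1
  split_ifs at h1
  · have h2 := (Finset.mem_erase.1 (Finset.mem_erase.1 h1).2).2
    exact (Finset.mem_Icc.1 h2).1
  · have h2 := (Finset.mem_erase.1 h1).2
    exact (Finset.mem_Icc.1 h2).1

private theorem ag_im (p : Pack P) (x : ℤ) :
    (univ : Finset (Fin 3)).image (pd3 p x) =
      {|x - anc P.n p.m|, |x - lb p.y 1|, |x - lb p.y (P.L - 1)|} := by
  ext w
  simp only [Finset.mem_image, Finset.mem_univ, true_and, Finset.mem_insert,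
    Finset.mem_singleton]
  constructor
  · rintro ⟨j, rfl⟩
    fin_cases j
    · exact Or.inl rfl
    · exact Or.inr (Or.inl rfl)
    · exact Or.inr (Or.inr rfl)
  · rintro (rfl | rfl | rfl)
    · exact ⟨0, rfl⟩
    · exact ⟨1, rfl⟩
    · exact ⟨2, rfl⟩

private theorem ag_single (p : Pack P) (z : Pack P → ℤ) :
    DS {p} z = (univ : Finset (Fin 3)).image (pd3 p (z p)) := by
  ext w
  unfold DS
  simp only [Finset.mem_image, Finset.mem_product, Finset.mem_singleton, Finset.mem_univ,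
    and_true, true_and]
  constructor
  · rintro ⟨⟨p', j⟩, hp', rfl⟩
    simp only at hp'
    subst hp'
    exact ⟨j, rfl⟩
  · rintro ⟨j, rfl⟩
    exact ⟨(p, j), rfl, rfl⟩

theorem DS_union (Ps Qs : Finset (Pack P)) (z : Pack P → ℤ) :
    DS (Ps ∪ Qs) z = DS Ps z ∪ DS Qs z := by

  unfold DS
  rw [Finset.union_product, Finset.image_union]


theorem DS_congr {Ps : Finset (Pack P)} {z z' : Pack P → ℤ} (h : ∀ p ∈ Ps, z p = z' p) :
    DS Ps z = DS Ps z' := by

  unfold DS
  refine Finset.image_congr ?_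
  intro u hu
  have h1 : u.1 ∈ Ps := (Finset.mem_product.1 hu).1
  change pd3 u.1 (z u.1) u.2 = pd3 u.1 (z' u.1) u.2
  rw [h u.1 h1]


theorem tw_gad {ZP DP : Finset ℤ} {d d' : ℤ} {m : ℕ} {y2 : ℤ} {r : Pack P}
    (hq : CoreOk P ZP DP (twCore P d d' m y2)) (hr : IsPk P (twCore P d d' m y2) r)
    (hDP : DP ⊆ dall P.n) (h0 : 0 < d) (h0' : 0 < d') (hdd : d ≠ d') (hd : d ∉ DP)
    (hd' : d' ∉ DP) : PGad {r} {d, d'} r.G := by

  obtain ⟨hm, hy1, hy2, hJ, hG⟩ := hr
  have ha : 1 ≤ anc P.n m - (y2 + d) :=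
    ag_pos hDP (hq.G_sub (Finset.mem_insert_self _ _))
  have ha' : 1 ≤ anc P.n m - (y2 + d') :=
    ag_pos hDP (hq.G_sub (Finset.mem_insert_of_mem (Finset.mem_singleton_self _)))
  have hGs : r.G ⊆ DP := by
    rw [hG]
    exact hq.G_sub
  have hG' : r.G = {anc P.n m - (y2 + d), anc P.n m - (y2 + d')} := hG
  have hJ' : r.J = {y2 + d, y2 + d'} := hJ
  have hm' : r.m = m := hm
  have hy1' : lb r.y 1 = 2 * y2 + d + d' - anc P.n m := hy1
  have hy2' : lb r.y (P.L - 1) = y2 := hy2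
  have hcard : r.G.card = 2 := by
    rw [hG']
    apply Finset.card_pair
    omega
  refine ⟨?_, ?_, ?_⟩
  · rw [hcard, Finset.card_singleton]
  · intro o ho
    rcases Finset.mem_insert.1 ho with rfl | ho
    · exact fun h => hd (hGs h)
    · rw [Finset.mem_singleton.1 ho]
      exact fun h => hd' (hGs h)
  · intro o ho
    rcases Finset.mem_insert.1 ho with rfl | ho
    · refine ⟨fun _ => y2 + o, ?_, ?_⟩
      · intro p hp
        rw [Finset.mem_singleton.1 hp, hJ']
        exact Finset.mem_insert_self _ _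
      · rw [ag_single, ag_im, hm', hy1', hy2', hG']
        have e1 : |y2 + o - anc P.n m| = anc P.n m - (y2 + o) := by
          rw [abs_sub_comm, abs_of_pos (by omega)]
        have e2 : |y2 + o - (2 * y2 + o + d' - anc P.n m)| = anc P.n m - (y2 + d') := by
          rw [show y2 + o - (2 * y2 + o + d' - anc P.n m) = anc P.n m - (y2 + d') by ring,
            abs_of_pos (by omega)]
        have e3 : |y2 + o - y2| = o := by
          rw [add_sub_cancel_left, abs_of_pos h0]
        rw [e1, e2, e3, ag_s4]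
    · rw [Finset.mem_singleton.1 ho]
      refine ⟨fun _ => y2 + d', ?_, ?_⟩
      · intro p hp
        rw [Finset.mem_singleton.1 hp, hJ']
        exact Finset.mem_insert_of_mem (Finset.mem_singleton_self _)
      · rw [ag_single, ag_im, hm', hy1', hy2', hG']
        have e1 : |y2 + d' - anc P.n m| = anc P.n m - (y2 + d') := by
          rw [abs_sub_comm, abs_of_pos (by omega)]
        have e2 : |y2 + d' - (2 * y2 + d + d' - anc P.n m)| = anc P.n m - (y2 + d) := by
          rw [show y2 + d' - (2 * y2 + d + d' - anc P.n m) = anc P.n m - (y2 + d) by ring,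
            abs_of_pos (by omega)]
        have e3 : |y2 + d' - y2| = d' := by
          rw [add_sub_cancel_left, abs_of_pos h0']
        rw [e1, e2, e3, ag_s5]


theorem eoG_of {ZP DP : Finset ℤ} {d : ℤ} {m : ℕ} {x b2 : ℤ} {r : Pack P}
    (hq : CoreOk P ZP DP (eoCore P d m x b2)) (hr : IsPk P (eoCore P d m x b2) r)
    (hi : Function.Injective (eoD d (anc P.n m) x b2)) (hDP : DP ⊆ dall P.n) (h0 : 0 < d) :
    EoG r d (eoD d (anc P.n m) x b2) := by

  obtain ⟨hm, hy1, hy2, hJ, hG⟩ := hr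
  have hG' : r.G = univ.image (eoD d (anc P.n m) x b2) := hG
  have hJ' : r.J = {x, b2 + anc P.n m - x, x + b2 - anc P.n m} := hJ
  have hm' : r.m = m := hm
  have hy1' : lb r.y 1 = x - d := hy1
  have hy2' : lb r.y (P.L - 1) = b2 := hy2
  have hp : ∀ i, 1 ≤ eoD d (anc P.n m) x b2 i := fun i =>
    ag_pos hDP (hq.G_sub (Finset.mem_image_of_mem _ (Finset.mem_univ i)))
  have p1 := hp 1
  have p2 := hp 2
  have p3 := hp 3
  have e1 : eoD d (anc P.n m) x b2 1 = x - b2 := rfl
  have e2 : eoD d (anc P.n m) x b2 2 = anc P.n m - x := rfl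
  have e3 : eoD d (anc P.n m) x b2 3 = 2 * anc P.n m - b2 - x := rfl
  refine ⟨hG', hi, ⟨x, ?_, ?_⟩, ⟨b2 + anc P.n m - x, ?_, ?_⟩, ⟨x + b2 - anc P.n m, ?_, ?_⟩⟩
  · rw [hJ']
    exact Finset.mem_insert_self _ _
  · rw [ag_im, hm', hy1', hy2']
    have f1 : |x - anc P.n m| = eoD d (anc P.n m) x b2 2 := by
      rw [e2, abs_sub_comm, abs_of_pos (by omega)]
    have f2 : |x - (x - d)| = d := by
      rw [sub_sub_cancel, abs_of_pos h0]
    have f3 : |x - b2| = eoD d (anc P.n m) x b2 1 := by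
      rw [e1, abs_of_pos (by omega)]
    rw [f1, f2, f3]
  · rw [hJ']
    exact Finset.mem_insert_of_mem (Finset.mem_insert_self _ _)
  · rw [ag_im, hm', hy1', hy2']
    have f1 : |b2 + anc P.n m - x - anc P.n m| = eoD d (anc P.n m) x b2 1 := by
      rw [e1, show b2 + anc P.n m - x - anc P.n m = -(x - b2) by ring, abs_neg,
        abs_of_pos (by omega)]
    have f2 : |b2 + anc P.n m - x - (x - d)| = eoD d (anc P.n m) x b2 0 := rfl
    have f3 : |b2 + anc P.n m - x - b2| = eoD d (anc P.n m) x b2 2 := by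
      rw [e2, show b2 + anc P.n m - x - b2 = anc P.n m - x by ring, abs_of_pos (by omega)]
    rw [f1, f2, f3]
  · rw [hJ']
    exact Finset.mem_insert_of_mem (Finset.mem_insert_of_mem (Finset.mem_singleton_self _))
  · rw [ag_im, hm', hy1', hy2']
    have f1 : |x + b2 - anc P.n m - anc P.n m| = eoD d (anc P.n m) x b2 3 := by
      rw [e3, show x + b2 - anc P.n m - anc P.n m = -(2 * anc P.n m - b2 - x) by ring,
        abs_neg, abs_of_pos (by omega)]
    have f2 : |x + b2 - anc P.n m - (x - d)| = eoD d (anc P.n m) x b2 4 := rfl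
    have f3 : |x + b2 - anc P.n m - b2| = eoD d (anc P.n m) x b2 2 := by
      rw [e2, show x + b2 - anc P.n m - b2 = -(anc P.n m - x) by ring, abs_neg,
        abs_of_pos (by omega)]
    rw [f1, f2, f3]


/-- two packs with labels `A` and those of `z'` -/
private theorem ag_two {ep tp : Pack P} (hne : ep ≠ tp) {A : ℤ} {z' : Pack P → ℤ} {o r : ℤ}
    {D W W' : Finset ℤ} (hA : A ∈ ep.J) (hz' : ∀ p ∈ ({tp} : Finset (Pack P)), z' p ∈ p.J)
    (hD : (univ : Finset (Fin 3)).image (pd3 ep A) = D)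
    (hDS : DS {tp} z' = insert r W') (hT : D ∪ insert r W' = insert o W) :
    ∃ z : Pack P → ℤ, (∀ p ∈ ({ep, tp} : Finset (Pack P)), z p ∈ p.J) ∧
      DS {ep, tp} z = insert o W := by
  refine ⟨fun p => if p = ep then A else z' p, ?_, ?_⟩
  · intro p hp
    rcases Finset.mem_insert.1 hp with rfl | hp
    · simpa using hA
    · have h1 : p = tp := Finset.mem_singleton.1 hp
      subst h1
      have h2 := hz' p (Finset.mem_singleton_self p)
      simpa [hne.symm] using h2
  · have h1 : ({ep, tp} : Finset (Pack P)) = {ep} ∪ {tp} := rfl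
    rw [h1, DS_union, ag_single, DS_congr (z' := z')]
    · rw [hDS, ← hT, ← hD]
      simp
    · intro p hp
      rw [Finset.mem_singleton.1 hp]
      simp [hne.symm]

theorem eo_gad {r t : Pack P} {d : ℤ} {s : Fin 5 → ℤ} (hE : EoG r d s)
    (ht : PGad {t} {s 1, s 4} t.G) (hne : r ≠ t) (hdis : Disjoint r.G t.G) (hd1 : d ∉ r.G)
    (hd2 : d ∉ t.G) : PGad {r, t} {d, s 0, s 3} ({s 1, s 2, s 4} ∪ t.G) := by

  obtain ⟨hcT, -, hz⟩ := ht
  rw [Finset.card_singleton] at hcT
  obtain ⟨z1, hz1, hz1'⟩ := hz (s 1) (Finset.mem_insert_self _ _)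
  obtain ⟨z4, hz4, hz4'⟩ := hz (s 4)
    (Finset.mem_insert_of_mem (Finset.mem_singleton_self _))
  have hG : ∀ i : Fin 5, s i ∈ r.G := fun i => by
    rw [hE.G]
    exact Finset.mem_image_of_mem _ (Finset.mem_univ i)
  have hnG : ∀ i : Fin 5, s i ∉ t.G := fun i => Finset.disjoint_left.1 hdis (hG i)
  have hn : ∀ i j : Fin 5, i ≠ j → s i ≠ s j := fun i j hij h => hij (hE.inj h)
  have hd1' : ∀ i : Fin 5, d ≠ s i := fun i hi => by
    have h1 := hG i
    rw [← hi] at h1
    exact hd1 h1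
  have n12 := hn 1 2 (by decide)
  have n14 := hn 1 4 (by decide)
  have n24 := hn 2 4 (by decide)
  obtain ⟨y0, hy0, hy0'⟩ := hE.st0
  obtain ⟨y1, hy1, hy1'⟩ := hE.st1
  obtain ⟨y2, hy2, hy2'⟩ := hE.st2
  refine ⟨?_, ?_, ?_⟩
  · have c3 : ({s 1, s 2, s 4} : Finset ℤ).card = 3 :=
      Finset.card_eq_three.2 ⟨_, _, _, n12, n14, n24, rfl⟩
    rw [Finset.card_union_of_disjoint, c3, Finset.card_pair hne]
    · omega
    · rw [Finset.disjoint_left]
      intro w hw
      simp only [Finset.mem_insert, Finset.mem_singleton] at hw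
      rcases hw with rfl | rfl | rfl
      · exact hnG 1
      · exact hnG 2
      · exact hnG 4
  · intro o ho
    simp only [Finset.mem_insert, Finset.mem_singleton] at ho
    rw [Finset.mem_union, not_or]
    rcases ho with rfl | rfl | rfl
    · refine ⟨?_, hd2⟩
      simp only [Finset.mem_insert, Finset.mem_singleton, not_or]
      exact ⟨hd1' 1, hd1' 2, hd1' 4⟩
    · refine ⟨?_, hnG 0⟩
      simp only [Finset.mem_insert, Finset.mem_singleton, not_or]
      exact ⟨hn 0 1 (by decide), hn 0 2 (by decide), hn 0 4 (by decide)⟩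
    · refine ⟨?_, hnG 3⟩
      simp only [Finset.mem_insert, Finset.mem_singleton, not_or]
      exact ⟨hn 3 1 (by decide), hn 3 2 (by decide), hn 3 4 (by decide)⟩
  · intro o ho
    simp only [Finset.mem_insert, Finset.mem_singleton] at ho
    rcases ho with rfl | rfl | rfl
    · exact ag_two hne hy0 hz4 hy0' hz4' (ag_s1 _ _ _ _ _)
    · exact ag_two hne hy1 hz4 hy1' hz4' (ag_s2 _ _ _ _ _)
    · exact ag_two hne hy2 hz1 hy2' hz1' (ag_s3 _ _ _ _ _)


theorem gad_comp {Ps1 Ps2 : Finset (Pack P)} {O1 O2 W1 W2 : Finset ℤ} {r : ℤ}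
    (h1 : PGad Ps1 (insert r O1) W1) (h2 : PGad Ps2 (insert r O2) W2)
    (hP : Disjoint Ps1 Ps2) (hW : Disjoint W1 W2) (h3 : ∀ o ∈ O1, o ∉ W2 ∧ o ≠ r)
    (h4 : ∀ o ∈ O2, o ∉ W1 ∧ o ≠ r) :
    PGad (Ps1 ∪ Ps2) (O1 ∪ O2) (insert r (W1 ∪ W2)) := by

  obtain ⟨c1, n1, z1⟩ := h1
  obtain ⟨c2, n2, z2⟩ := h2
  have hr1 : r ∉ W1 := n1 r (Finset.mem_insert_self _ _)
  have hr2 : r ∉ W2 := n2 r (Finset.mem_insert_self _ _)
  have key : ∀ (z z' : Pack P → ℤ), (∀ p ∈ Ps1, z p ∈ p.J) → (∀ p ∈ Ps2, z' p ∈ p.J) →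
      ∃ y : Pack P → ℤ, (∀ p ∈ Ps1 ∪ Ps2, y p ∈ p.J) ∧
        DS (Ps1 ∪ Ps2) y = DS Ps1 z ∪ DS Ps2 z' := by
    intro z z' hz hz'
    refine ⟨fun p => if p ∈ Ps1 then z p else z' p, ?_, ?_⟩
    · intro p hp
      by_cases h : p ∈ Ps1
      · simpa [h] using hz p h
      · have h' : p ∈ Ps2 := (Finset.mem_union.1 hp).resolve_left h
        simpa [h] using hz' p h'
    · rw [DS_union]
      congr 1
      · exact DS_congr fun p hp => by simp [hp]
      · exact DS_congr fun p hp => by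
          have : p ∉ Ps1 := Finset.disjoint_right.1 hP hp
          simp [this]
  refine ⟨?_, ?_, ?_⟩
  · rw [Finset.card_insert_of_notMem, Finset.card_union_of_disjoint hW,
      Finset.card_union_of_disjoint hP]
    · omega
    · rw [Finset.mem_union, not_or]
      exact ⟨hr1, hr2⟩
  · intro o ho
    rw [Finset.mem_insert, Finset.mem_union, not_or, not_or]
    rcases Finset.mem_union.1 ho with ho | ho
    · exact ⟨(h3 o ho).2, n1 o (Finset.mem_insert_of_mem ho), (h3 o ho).1⟩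
    · exact ⟨(h4 o ho).2, (h4 o ho).1, n2 o (Finset.mem_insert_of_mem ho)⟩
  · intro o ho
    rcases Finset.mem_union.1 ho with ho | ho
    · obtain ⟨a, ha, ha'⟩ := z1 o (Finset.mem_insert_of_mem ho)
      obtain ⟨b, hb, hb'⟩ := z2 r (Finset.mem_insert_self _ _)
      obtain ⟨y, hy, hy'⟩ := key a b ha hb
      refine ⟨y, hy, ?_⟩
      rw [hy', ha', hb', ag_s6]
    · obtain ⟨a, ha, ha'⟩ := z1 r (Finset.mem_insert_self _ _)
      obtain ⟨b, hb, hb'⟩ := z2 o (Finset.mem_insert_of_mem ho)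
      obtain ⟨y, hy, hy'⟩ := key a b ha hb
      refine ⟨y, hy, ?_⟩
      rw [hy', ha', hb', ag_s7]


theorem gad_mono {Ps : Finset (Pack P)} {O O' W : Finset ℤ} (h : PGad Ps O W) (hO : O' ⊆ O) :
    PGad Ps O' W :=
  ⟨h.1, fun o ho => h.2.1 o (hO ho), fun o ho => h.2.2 o (hO ho)⟩

end Pool.Agent.PGo.A
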