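import Pool.Agent.PGo.AGone

/-!
# PGo-AGall: gadgets for a sequence of option sets

PLAN. Literally `PGr/PAbs.lean` (induction on `N` with `gad_one`, `Function.update`).
-/

noncomputable section

namespace Pool.Agent.PGo.A

open Finset Pool.Agent.PGr Pool.Agent.PGo.R

variable {P : Par} {ZP DP : Finset ℤ} {e e1 : ℝ}

theorem abs_all (hS : Situ P ZP DP e e1) {Ps : Finset (Pack P)} (hF : PFam P ZP DP Ps)
    (N : ℕ) (H : ℕ → Finset ℤ) (hH : ∀ z < N, (∀ d ∈ H z, Opt P DP d) ∧ 3 ≤ (H z).card)
    (hR : Room P e e1 (Ps.card + 3 * ∑ z ∈ range N, (H z).card)) :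
    ∃ g : ℕ → Finset (Pack P), (∀ z < N, PGad (g z) (H z) (pGG (g z))) ∧
      (∀ z < N, ∀ z' < N, z ≠ z' → Disjoint (g z) (g z')) ∧
      (∀ z < N, Disjoint Ps (g z)) ∧
      PFam P ZP DP (Ps ∪ (range N).biUnion g) ∧
      ((range N).biUnion g).card ≤ 3 * ∑ z ∈ range N, (H z).card := by
  classical
  induction N generalizing H with
  | zero =>
    refine ⟨fun _ => ∅, ?_, ?_, ?_, ?_, ?_⟩
    · intro z hz
      exact absurd hz (Nat.not_lt_zero z)
    · intro z hz
      exact absurd hz (Nat.not_lt_zero z)
    · intro z hz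
      exact absurd hz (Nat.not_lt_zero z)
    · simpa using hF
    · simp
  | succ N ih =>
    have hR' : Room P e e1 (Ps.card + 3 * ∑ z ∈ range N, (H z).card) := by
      refine hR.mono ?_
      rw [Finset.sum_range_succ]
      omega
    obtain ⟨g0, hg1, hg2, hg3, hg4, hg5⟩ := ih H (fun z hz => hH z (Nat.lt_succ_of_lt hz)) hR'
    have hc1' : (Ps ∪ (range N).biUnion g0).card ≤ Ps.card + 3 * ∑ z ∈ range N, (H z).card :=
      (Finset.card_union_le _ _).trans (Nat.add_le_add_left hg5 _)
    have hc2 : Room P e e1 ((Ps ∪ (range N).biUnion g0).card + 3 * (H N).card) := by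
      refine hR.mono ?_
      rw [Finset.sum_range_succ]
      omega
    obtain ⟨new, hn1, hn2, hn3, hn4⟩ := gad_one hS hg4 (H N) (hH N (Nat.lt_succ_self N)).1
      (hH N (Nat.lt_succ_self N)).2 hc2
    rw [Finset.disjoint_union_left] at hn2
    have hdj : ∀ z < N, Disjoint (g0 z) new := by
      intro z hz
      exact Disjoint.mono_left (Finset.subset_biUnion_of_mem g0 (Finset.mem_range.2 hz)) hn2.2
    have hgN : Function.update g0 N new N = new := Function.update_self _ _ _
    have hgz : ∀ z < N, Function.update g0 N new z = g0 z := by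
      intro z hz
      exact Function.update_of_ne (Nat.ne_of_lt hz) _ _
    have hbi : (range (N + 1)).biUnion (Function.update g0 N new) =
        (range N).biUnion g0 ∪ new := by
      rw [Finset.range_add_one, Finset.biUnion_insert, hgN, Finset.union_comm]
      congr 1
      apply Finset.biUnion_congr rfl
      intro z hz
      exact hgz z (Finset.mem_range.1 hz)
    refine ⟨Function.update g0 N new, ?_, ?_, ?_, ?_, ?_⟩
    · intro z hz
      rcases Nat.lt_succ_iff_lt_or_eq.1 hz with hz | hz
      · rw [hgz z hz]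
        exact hg1 z hz
      · subst hz
        rw [hgN]
        exact hn4
    · intro z hz z' hz' hzz
      rcases Nat.lt_succ_iff_lt_or_eq.1 hz with hz | hz
      · rcases Nat.lt_succ_iff_lt_or_eq.1 hz' with hz' | hz'
        · rw [hgz z hz, hgz z' hz']
          exact hg2 z hz z' hz' hzz
        · rw [hgz z hz, hz', hgN]
          exact hdj z hz
      · rcases Nat.lt_succ_iff_lt_or_eq.1 hz' with hz' | hz'
        · rw [hgz z' hz', hz, hgN]
          exact (hdj z' hz').symm
        · exact absurd (hz.trans hz'.symm) hzz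
    · intro z hz
      rcases Nat.lt_succ_iff_lt_or_eq.1 hz with hz | hz
      · rw [hgz z hz]
        exact hg3 z hz
      · rw [hz, hgN]
        exact hn2.1
    · rw [hbi, ← Finset.union_assoc]
      exact hn3
    · rw [hbi, Finset.sum_range_succ]
      refine (Finset.card_union_le _ _).trans ?_
      omega

end Pool.Agent.PGo.A
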