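import Pool.Agent.PGo.AGLin

/-!
# PGo-AGeo: three-way cores exist outside of small sets

PLAN (lengths in units of `n`; the ranges are those of `PGr/REO.lean`, `r_eo`, `EoR`, `eo_val`, look
there). `a = anc m ∈ [2.53, 2.55]` (`lo = 253 n / 100 + 1`, `hi = 255 n / 100`), `m` from `exists_m` with
`E = ∅`, `a1 = anc (vx m 1)`, `a2 = anc (vx m (L - 1))`. Ranges of `x`, `b2`:
* `10 d ≤ 6 n`: `x ∈ [204 n / 100 + 1, 206 n / 100]`, `b2 ∈ [179 n / 100 + 1, 181 n / 100]`, `s3 = 1`;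
* `100 d ≤ 75 n`: `x ∈ [215 n / 100 + 1, 217 n / 100]`, `b2 ∈ [165 n / 100 + 1, 167 n / 100]`, `s3 = 1`;
* otherwise: `x ∈ [231 n / 100 + 1, 233 n / 100]`, `b2 ∈ [195 n / 100 + 1, 197 n / 100]`, `s3 = -1`.
Then all ranges are omega: `x - d`, `b2 ∈ [n, 2 n]`, all labels in `[.505, 2.495]`,
`al' = b2 + a - 2 x + d`, `be = x - b2`, `al'' = 2 a - b2 - x`, `be' = s3 (a - b2 - d)` in `[.07, 1.3]`,
`ga = a - x ∈ [1, 2 n]`, spokes `|x - d - a1|`, `|b2 - a2| ≤ 2 n`, `|x - d - b2| ≤ n`.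
For fixed `m` choose `(x, b2)` with `avoid2` (`I`, `J` the intervals, each with between `n / 100` and
`n / 40` elements), `Ls` = the following triples `(α, β, γ)` (condition `α x + β b2 + γ = 0`), at most
`5 (|FL| + 1) + 16 (|FD| + 4) + 200` of them:
* label forms `x - d, b2, x, b2 + a - x, x + b2 - a` equal to an element of `FL ∪ {3 (n / 2)}`;
* difference forms `x - d - a1, b2 - a2, x - d - b2, b2 + a - 2 x + d, x - b2, a - x, 2 a - b2 - x,
  b2 + d - a` equal to `± v`, `v ∈ FD ∪ {0, n + 1, 3 (n / 2), (n - 1) / 2}`;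
* `gd`: `2 f = k`, `2 f = n - k` (and with `- f`) for `f` = the forms of `al', be, al'', be'`;
* differences of two label forms; sums and differences of two difference forms. These triples are
  nonzero: a vanishing linear part occurs only for `(x - d) - x`: constant `- d`;
  `(x - d - a1) + (a - x)`: constant `a - a1 - d ≠ 0` (`gd_nb`); `(b2 - a2) - (b2 + d - a)`: constant
  `a - a2 - d ≠ 0` (`gd_nb`); `(x - d - b2) - (x - b2)`: constant `- d`.
The values `|form|` are then pairwise different, in `dall \ FD`, so `CoreOk` and the injectivity of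
`eoD`. `e := min ε_(exists_m) (1 / 20000)`, `g0` large (`n ≥ 10 ^ 6`).
-/

noncomputable section

namespace Pool.Agent.PGo.A

open Finset Pool.Agent.PGr Pool.Agent.PGo.R

/-! ### Affine forms -/

private def geEv (t : ℤ × ℤ × ℤ) (x y : ℤ) : ℤ := t.1 * x + t.2.1 * y + t.2.2

private theorem ge_sub (s t : ℤ × ℤ × ℤ) (x y : ℤ) :
    geEv (s - t) x y = geEv s x y - geEv t x y := by
  unfold geEv
  simp only [Prod.fst_sub, Prod.snd_sub]
  ring

private theorem ge_add (s t : ℤ × ℤ × ℤ) (x y : ℤ) :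
    geEv (s + t) x y = geEv s x y + geEv t x y := by
  unfold geEv
  simp only [Prod.fst_add, Prod.snd_add]
  ring

private theorem ge_const (v x y : ℤ) : geEv (0, 0, v) x y = v := by
  unfold geEv
  ring

/-- labels `x - d, b2, x, b2 + a - x, x + b2 - a` -/
private def geLab (d a : ℤ) : Fin 5 → ℤ × ℤ × ℤ :=
  ![(1, 0, -d), (0, 1, 0), (1, 0, 0), (-1, 1, a), (1, 1, -a)]

/-- differences -/
private def geDif (d a a1 a2 : ℤ) : Fin 8 → ℤ × ℤ × ℤ :=
  ![(1, 0, -d - a1), (0, 1, -a2), (1, -1, -d), (-2, 1, a + d), (1, -1, 0), (-1, 0, a),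
    (-1, -1, 2 * a), (0, 1, d - a)]

private theorem geLab_lin (d a : ℤ) (i : Fin 5) : (geLab d a i).1 ≠ 0 ∨ (geLab d a i).2.1 ≠ 0 := by
  fin_cases i <;> simp [geLab]

private theorem geDif_lin (d a a1 a2 : ℤ) (i : Fin 8) :
    (geDif d a a1 a2 i).1 ≠ 0 ∨ (geDif d a a1 a2 i).2.1 ≠ 0 := by
  fin_cases i <;> simp [geDif]

private theorem geLab_ne {d a : ℤ} (hd : d ≠ 0) {i j : Fin 5} (hij : i ≠ j) :
    geLab d a i - geLab d a j ≠ 0 := by
  intro h
  have h1 := congrArg Prod.fst h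
  have h2 := congrArg (fun t : ℤ × ℤ × ℤ => t.2.1) h
  have h3 := congrArg (fun t : ℤ × ℤ × ℤ => t.2.2) h
  fin_cases i <;> fin_cases j <;> first
    | exact hij rfl
    | (simp [geLab] at h1 h2 h3 <;> omega)

private theorem geDif_ne {d a a1 a2 : ℤ} (hd : d ≠ 0) (h02 : a - a2 ≠ d) {i j : Fin 8}
    (hij : i ≠ j) : geDif d a a1 a2 i - geDif d a a1 a2 j ≠ 0 := by
  intro h
  have h1 := congrArg Prod.fst h
  have h2 := congrArg (fun t : ℤ × ℤ × ℤ => t.2.1) h
  have h3 := congrArg (fun t : ℤ × ℤ × ℤ => t.2.2) h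
  fin_cases i <;> fin_cases j <;> first
    | exact hij rfl
    | (simp [geDif] at h1 h2 h3 <;> omega)

private theorem geDif_ne' {d a a1 a2 : ℤ} (h01 : a - a1 ≠ d) {i j : Fin 8}
    (hij : i ≠ j) : geDif d a a1 a2 i + geDif d a a1 a2 j ≠ 0 := by
  intro h
  have h1 := congrArg Prod.fst h
  have h2 := congrArg (fun t : ℤ × ℤ × ℤ => t.2.1) h
  have h3 := congrArg (fun t : ℤ × ℤ × ℤ => t.2.2) h
  fin_cases i <;> fin_cases j <;> first
    | exact hij rfl
    | (simp [geDif] at h1 h2 h3 <;> omega)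

private theorem ge_lin_sub {s : ℤ × ℤ × ℤ} (h : s.1 ≠ 0 ∨ s.2.1 ≠ 0) (v : ℤ) :
    s - (0, 0, v) ≠ 0 := by
  intro h0
  have h1 := congrArg Prod.fst h0
  have h2 := congrArg (fun t : ℤ × ℤ × ℤ => t.2.1) h0
  simp at h1 h2
  rcases h with h | h
  · exact h h1
  · exact h h2

private theorem ge_lin_add {s : ℤ × ℤ × ℤ} (h : s.1 ≠ 0 ∨ s.2.1 ≠ 0) (v : ℤ) :
    s + (0, 0, v) ≠ 0 := by
  intro h0
  have h1 := congrArg Prod.fst h0
  have h2 := congrArg (fun t : ℤ × ℤ × ℤ => t.2.1) h0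
  simp at h1 h2
  rcases h with h | h
  · exact h h1
  · exact h h2

private theorem ge_lin_dbl {s : ℤ × ℤ × ℤ} (h : s.1 ≠ 0 ∨ s.2.1 ≠ 0) (v : ℤ) :
    s + s - (0, 0, v) ≠ 0 := by
  intro h0
  have h1 := congrArg Prod.fst h0
  have h2 := congrArg (fun t : ℤ × ℤ × ℤ => t.2.1) h0
  simp at h1 h2
  rcases h with h | h
  · omega
  · omega

/-! ### The conditions -/

private def geV (n : ℕ) (FD : Finset ℤ) : Finset ℤ :=
  FD ∪ {0, (n : ℤ) + 1, 3 * ((n / 2 : ℕ) : ℤ), (((n - 1) / 2 : ℕ) : ℤ)}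

private def geK (n k : ℕ) : Finset ℤ := {(k : ℤ), -(k : ℤ), (n : ℤ) - k, (k : ℤ) - n}

private def geS1 (n : ℕ) (FL : Finset ℤ) (d a : ℤ) : Finset (ℤ × ℤ × ℤ) :=
  ((univ : Finset (Fin 5)) ×ˢ (insert (3 * ((n / 2 : ℕ) : ℤ)) FL)).image
    fun u => geLab d a u.1 - (0, 0, u.2)

private def geS2 (n : ℕ) (FD : Finset ℤ) (d a a1 a2 : ℤ) : Finset (ℤ × ℤ × ℤ) :=
  ((univ : Finset (Fin 8)) ×ˢ geV n FD).image fun u => geDif d a a1 a2 u.1 - (0, 0, u.2)

private def geS3 (n : ℕ) (FD : Finset ℤ) (d a a1 a2 : ℤ) : Finset (ℤ × ℤ × ℤ) :=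
  ((univ : Finset (Fin 8)) ×ˢ geV n FD).image fun u => geDif d a a1 a2 u.1 + (0, 0, u.2)

private def geS4 (n k : ℕ) (d a a1 a2 : ℤ) : Finset (ℤ × ℤ × ℤ) :=
  ((univ : Finset (Fin 8)) ×ˢ geK n k).image
    fun u => geDif d a a1 a2 u.1 + geDif d a a1 a2 u.1 - (0, 0, u.2)

private def geS5 (d a : ℤ) : Finset (ℤ × ℤ × ℤ) :=
  ((univ : Finset (Fin 5 × Fin 5)).filter fun u => u.1 ≠ u.2).image
    fun u => geLab d a u.1 - geLab d a u.2

private def geS6 (d a a1 a2 : ℤ) : Finset (ℤ × ℤ × ℤ) :=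
  ((univ : Finset (Fin 8 × Fin 8)).filter fun u => u.1 ≠ u.2).image
    fun u => geDif d a a1 a2 u.1 - geDif d a a1 a2 u.2

private def geS7 (d a a1 a2 : ℤ) : Finset (ℤ × ℤ × ℤ) :=
  ((univ : Finset (Fin 8 × Fin 8)).filter fun u => u.1 ≠ u.2).image
    fun u => geDif d a a1 a2 u.1 + geDif d a a1 a2 u.2

private theorem geV_card (n : ℕ) (FD : Finset ℤ) : (geV n FD).card ≤ FD.card + 4 := by
  unfold geV
  refine (card_union_le _ _).trans (Nat.add_le_add_left ?_ _)
  exact card_le_four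

private theorem geK_card (n k : ℕ) : (geK n k).card ≤ 4 := card_le_four

private theorem geS1_card (n : ℕ) (FL : Finset ℤ) (d a : ℤ) :
    (geS1 n FL d a).card ≤ 5 * (FL.card + 1) := by
  unfold geS1
  refine card_image_le.trans ?_
  rw [card_product, card_univ, Fintype.card_fin]
  exact Nat.mul_le_mul_left _ (card_insert_le _ _)

private theorem geS2_card (n : ℕ) (FD : Finset ℤ) (d a a1 a2 : ℤ) :
    (geS2 n FD d a a1 a2).card ≤ 8 * (FD.card + 4) := by
  unfold geS2
  refine card_image_le.trans ?_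
  rw [card_product, card_univ, Fintype.card_fin]
  exact Nat.mul_le_mul_left _ (geV_card _ _)

private theorem geS3_card (n : ℕ) (FD : Finset ℤ) (d a a1 a2 : ℤ) :
    (geS3 n FD d a a1 a2).card ≤ 8 * (FD.card + 4) := by
  unfold geS3
  refine card_image_le.trans ?_
  rw [card_product, card_univ, Fintype.card_fin]
  exact Nat.mul_le_mul_left _ (geV_card _ _)

private theorem geS4_card (n k : ℕ) (d a a1 a2 : ℤ) :
    (geS4 n k d a a1 a2).card ≤ 32 := by
  unfold geS4
  refine card_image_le.trans ?_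
  rw [card_product, card_univ, Fintype.card_fin]
  have := geK_card n k
  omega

private theorem geS5_card (d a : ℤ) : (geS5 d a).card ≤ 25 := by
  unfold geS5
  refine card_image_le.trans ((card_filter_le _ _).trans ?_)
  rw [card_univ, Fintype.card_prod, Fintype.card_fin]

private theorem geS6_card (d a a1 a2 : ℤ) : (geS6 d a a1 a2).card ≤ 64 := by
  unfold geS6
  refine card_image_le.trans ((card_filter_le _ _).trans ?_)
  rw [card_univ, Fintype.card_prod, Fintype.card_fin]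

private theorem geS7_card (d a a1 a2 : ℤ) : (geS7 d a a1 a2).card ≤ 64 := by
  unfold geS7
  refine card_image_le.trans ((card_filter_le _ _).trans ?_)
  rw [card_univ, Fintype.card_prod, Fintype.card_fin]

/-- The values which are different from everything forbidden. -/
private structure GeP (n k : ℕ) (FL FD : Finset ℤ) (d a a1 a2 x y : ℤ) : Prop where
  c1 : ∀ i, ∀ v ∈ insert (3 * ((n / 2 : ℕ) : ℤ)) FL, geEv (geLab d a i) x y ≠ v
  c2 : ∀ i, ∀ v ∈ geV n FD, |geEv (geDif d a a1 a2 i) x y| ≠ v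
  c3 : ∀ i, 2 * |geEv (geDif d a a1 a2 i) x y| ≠ (k : ℤ) ∧
    2 * |geEv (geDif d a a1 a2 i) x y| ≠ (n : ℤ) - k
  c4 : ∀ i j, geEv (geLab d a i) x y = geEv (geLab d a j) x y → i = j
  c5 : ∀ i j, |geEv (geDif d a a1 a2 i) x y| = |geEv (geDif d a a1 a2 j) x y| → i = j

private theorem ge_pick (n k : ℕ) (hn : 40000 ≤ n) (FL FD : Finset ℤ)
    (hFL : 20000 * FL.card ≤ n) (hFD : 20000 * FD.card ≤ n) (d a a1 a2 : ℤ) (hd : d ≠ 0)
    (h1 : a - a1 ≠ d) (h2 : a - a2 ≠ d) (xl xh bl bh : ℤ)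
    (hx : (n : ℤ) ≤ 100 * (xh - xl + 1)) (hb : (n : ℤ) ≤ 100 * (bh - bl + 1)) :
    ∃ x y : ℤ, (xl ≤ x ∧ x ≤ xh) ∧ (bl ≤ y ∧ y ≤ bh) ∧ GeP n k FL FD d a a1 a2 x y := by
  have hne : ∀ l ∈ geS1 n FL d a ∪ (geS2 n FD d a a1 a2 ∪ (geS3 n FD d a a1 a2 ∪
      (geS4 n k d a a1 a2 ∪ (geS5 d a ∪ (geS6 d a a1 a2 ∪ geS7 d a a1 a2))))), l ≠ 0 := by
    intro l hl
    simp only [mem_union] at hl
    rcases hl with hl | hl | hl | hl | hl | hl | hl
    · obtain ⟨u, -, rfl⟩ := mem_image.1 hl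
      exact ge_lin_sub (geLab_lin d a u.1) _
    · obtain ⟨u, -, rfl⟩ := mem_image.1 hl
      exact ge_lin_sub (geDif_lin d a a1 a2 u.1) _
    · obtain ⟨u, -, rfl⟩ := mem_image.1 hl
      exact ge_lin_add (geDif_lin d a a1 a2 u.1) _
    · obtain ⟨u, -, rfl⟩ := mem_image.1 hl
      exact ge_lin_dbl (geDif_lin d a a1 a2 u.1) _
    · obtain ⟨u, hu, rfl⟩ := mem_image.1 hl
      exact geLab_ne hd (mem_filter.1 hu).2
    · obtain ⟨u, hu, rfl⟩ := mem_image.1 hl
      exact geDif_ne hd h2 (mem_filter.1 hu).2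
    · obtain ⟨u, hu, rfl⟩ := mem_image.1 hl
      exact geDif_ne' h1 (mem_filter.1 hu).2
  have hcard : (geS1 n FL d a ∪ (geS2 n FD d a a1 a2 ∪ (geS3 n FD d a a1 a2 ∪
      (geS4 n k d a a1 a2 ∪ (geS5 d a ∪ (geS6 d a a1 a2 ∪ geS7 d a a1 a2)))))).card ≤
        5 * (FL.card + 1) + (8 * (FD.card + 4) + (8 * (FD.card + 4) + (32 + (25 + (64 + 64))))) := by
    refine (card_union_le _ _).trans (Nat.add_le_add (geS1_card _ _ _ _) ?_)
    refine (card_union_le _ _).trans (Nat.add_le_add (geS2_card _ _ _ _ _ _) ?_)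
    refine (card_union_le _ _).trans (Nat.add_le_add (geS3_card _ _ _ _ _ _) ?_)
    refine (card_union_le _ _).trans (Nat.add_le_add (geS4_card _ _ _ _ _ _) ?_)
    refine (card_union_le _ _).trans (Nat.add_le_add (geS5_card _ _) ?_)
    exact (card_union_le _ _).trans (Nat.add_le_add (geS6_card _ _ _ _) (geS7_card _ _ _ _))
  have hI : (Icc xl xh).card = (xh + 1 - xl).toNat := Int.card_Icc _ _
  have hJ : (Icc bl bh).card = (bh + 1 - bl).toNat := Int.card_Icc _ _
  obtain ⟨x, hx', y, hy', hxy⟩ := avoid2 (Icc xl xh) (Icc bl bh) _ hne (by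
    rw [← min_mul_max (Icc xl xh).card (Icc bl bh).card]
    refine Nat.mul_lt_mul_of_pos_right (lt_of_le_of_lt hcard (lt_min ?_ ?_))
      (lt_of_lt_of_le ?_ (le_max_left _ _))
    · rw [hI]; omega
    · rw [hJ]; omega
    · rw [hI]; omega)
  have hk : ∀ l ∈ geS1 n FL d a ∪ (geS2 n FD d a a1 a2 ∪ (geS3 n FD d a a1 a2 ∪
      (geS4 n k d a a1 a2 ∪ (geS5 d a ∪ (geS6 d a a1 a2 ∪ geS7 d a a1 a2))))),
      geEv l x y ≠ 0 := hxy
  have p1 : ∀ i, ∀ v ∈ insert (3 * ((n / 2 : ℕ) : ℤ)) FL, geEv (geLab d a i) x y ≠ v := by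
    intro i v hv h
    refine hk (geLab d a i - (0, 0, v)) (mem_union_left _ (mem_image.2 ⟨(i, v),
      mem_product.2 ⟨mem_univ _, hv⟩, rfl⟩)) ?_
    rw [ge_sub, ge_const, h, sub_self]
  have p2 : ∀ i, ∀ v ∈ geV n FD, geEv (geDif d a a1 a2 i) x y ≠ v := by
    intro i v hv h
    refine hk (geDif d a a1 a2 i - (0, 0, v)) (mem_union_right _ (mem_union_left _
      (mem_image.2 ⟨(i, v), mem_product.2 ⟨mem_univ _, hv⟩, rfl⟩))) ?_
    rw [ge_sub, ge_const, h, sub_self]
  have p3 : ∀ i, ∀ v ∈ geV n FD, geEv (geDif d a a1 a2 i) x y ≠ -v := by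
    intro i v hv h
    refine hk (geDif d a a1 a2 i + (0, 0, v)) (mem_union_right _ (mem_union_right _
      (mem_union_left _ (mem_image.2 ⟨(i, v), mem_product.2 ⟨mem_univ _, hv⟩, rfl⟩)))) ?_
    rw [ge_add, ge_const, h, neg_add_cancel]
  have p4 : ∀ i, ∀ v ∈ geK n k, 2 * geEv (geDif d a a1 a2 i) x y ≠ v := by
    intro i v hv h
    refine hk (geDif d a a1 a2 i + geDif d a a1 a2 i - (0, 0, v)) (mem_union_right _
      (mem_union_right _ (mem_union_right _ (mem_union_left _ (mem_image.2 ⟨(i, v),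
        mem_product.2 ⟨mem_univ _, hv⟩, rfl⟩))))) ?_
    rw [ge_sub, ge_add, ge_const, ← h]
    ring
  have p5 : ∀ i j, i ≠ j → geEv (geLab d a i) x y ≠ geEv (geLab d a j) x y := by
    intro i j hij h
    refine hk (geLab d a i - geLab d a j) (mem_union_right _ (mem_union_right _
      (mem_union_right _ (mem_union_right _ (mem_union_left _ (mem_image.2 ⟨(i, j),
        mem_filter.2 ⟨mem_univ _, hij⟩, rfl⟩)))))) ?_
    rw [ge_sub, h, sub_self]
  have p6 : ∀ i j, i ≠ j → geEv (geDif d a a1 a2 i) x y ≠ geEv (geDif d a a1 a2 j) x y := by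
    intro i j hij h
    refine hk (geDif d a a1 a2 i - geDif d a a1 a2 j) (mem_union_right _ (mem_union_right _
      (mem_union_right _ (mem_union_right _ (mem_union_right _ (mem_union_left _
        (mem_image.2 ⟨(i, j), mem_filter.2 ⟨mem_univ _, hij⟩, rfl⟩))))))) ?_
    rw [ge_sub, h, sub_self]
  have p7 : ∀ i j, i ≠ j → geEv (geDif d a a1 a2 i) x y ≠ -geEv (geDif d a a1 a2 j) x y := by
    intro i j hij h
    refine hk (geDif d a a1 a2 i + geDif d a a1 a2 j) (mem_union_right _ (mem_union_right _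
      (mem_union_right _ (mem_union_right _ (mem_union_right _ (mem_union_right _
        (mem_image.2 ⟨(i, j), mem_filter.2 ⟨mem_univ _, hij⟩, rfl⟩))))))) ?_
    rw [ge_add, h, neg_add_cancel]
  refine ⟨x, y, mem_Icc.1 hx', mem_Icc.1 hy', p1, ?_, ?_, ?_, ?_⟩
  · intro i v hv h
    rcases abs_choice (geEv (geDif d a a1 a2 i) x y) with hc | hc
    · exact p2 i v hv (hc.symm.trans h)
    · refine p3 i v hv ?_
      rw [← h, hc, neg_neg]
  · intro i
    have q1 := p4 i (k : ℤ) (by simp [geK])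
    have q2 := p4 i (-(k : ℤ)) (by simp [geK])
    have q3 := p4 i ((n : ℤ) - k) (by simp [geK])
    have q4 := p4 i ((k : ℤ) - n) (by simp [geK])
    rcases abs_choice (geEv (geDif d a a1 a2 i) x y) with hc | hc
    · rw [hc]
      exact ⟨q1, q3⟩
    · rw [hc]
      constructor
      · intro h
        exact q2 (by linarith)
      · intro h
        exact q4 (by linarith)
  · intro i j h
    by_contra hij
    exact p5 i j hij h
  · intro i j h
    by_contra hij
    rcases abs_eq_abs.1 h with h | h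
    · exact p6 i j hij h
    · exact p7 i j hij h

/-! ### The core -/

/-- ranges -/
private structure GeR (n : ℕ) (d a x y : ℤ) : Prop where
  l0 : (n : ℤ) ≤ x - d
  l0' : x - d ≤ 2 * n
  l1 : (n : ℤ) ≤ y
  l1' : y ≤ 2 * n
  l2 : 505 * (n : ℤ) ≤ 1000 * x
  l2' : 1000 * x ≤ 2495 * n
  l3 : 505 * (n : ℤ) ≤ 1000 * (y + a - x)
  l3' : 1000 * (y + a - x) ≤ 2495 * n
  l4 : 505 * (n : ℤ) ≤ 1000 * (x + y - a)
  l4' : 1000 * (x + y - a) ≤ 2495 * n
  al : 7 * (n : ℤ) ≤ 100 * (y + a - 2 * x + d)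
  al' : 100 * (y + a - 2 * x + d) ≤ 130 * n
  be : 7 * (n : ℤ) ≤ 100 * (x - y)
  be' : 100 * (x - y) ≤ 130 * n
  ga : 1 ≤ a - x
  ga' : a - x ≤ 2 * n
  aa : 7 * (n : ℤ) ≤ 100 * (2 * a - y - x)
  aa' : 100 * (2 * a - y - x) ≤ 130 * n
  bb : (7 * (n : ℤ) ≤ 100 * (y + d - a) ∧ 100 * (y + d - a) ≤ 130 * n) ∨
    (7 * (n : ℤ) ≤ 100 * (a - y - d) ∧ 100 * (a - y - d) ≤ 130 * n)

private theorem ge_anc {n i : ℕ} (hi : i < n) : 0 ≤ anc n i ∧ anc n i ≤ 3 * n := by
  unfold anc
  split_ifs <;> constructor <;> omega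

private theorem ge_core {P : Par} (hP : P.Ok) (hn : 1000 ≤ P.n) {FL FD : Finset ℤ} {d : ℤ}
    {m : ℕ} (hm : m < P.n) {x y : ℤ}
    (hR : GeR P.n d (anc P.n m) x y)
    (hp : GeP P.n P.k FL FD d (anc P.n m) (anc P.n (P.vx m 1)) (anc P.n (P.vx m (P.L - 1))) x y) :
    CoreOk P (zall P.n \ FL) (dall P.n \ FD) (eoCore P d m x y) ∧
      Function.Injective (eoD d (anc P.n m) x y) ∧
      optOk P (eoD d (anc P.n m) x y 0) ∧ optOk P (eoD d (anc P.n m) x y 1) ∧
      optOk P (eoD d (anc P.n m) x y 3) ∧ optOk P (eoD d (anc P.n m) x y 4) := by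
  obtain ⟨b1, b1'⟩ := ge_anc (Par.vx_lt hP m 1)
  obtain ⟨b2, b2'⟩ := ge_anc (Par.vx_lt hP m (P.L - 1))
  generalize hA : anc P.n m = a at *
  generalize hA1 : anc P.n (P.vx m 1) = a1 at *
  generalize hA2 : anc P.n (P.vx m (P.L - 1)) = a2 at *
  obtain ⟨l0, l0', l1, l1', l2, l2', l3, l3', l4, l4', al, al', be, be', ga, ga', aa, aa', bb⟩ := hR
  have L0 : geEv (geLab d a 0) x y = x - d := by
    show 1 * x + 0 * y + -d = x - d
    ring
  have L1 : geEv (geLab d a 1) x y = y := by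
    show 0 * x + 1 * y + 0 = y
    ring
  have L2 : geEv (geLab d a 2) x y = x := by
    show 1 * x + 0 * y + 0 = x
    ring
  have L3 : geEv (geLab d a 3) x y = y + a - x := by
    show (-1) * x + 1 * y + a = y + a - x
    ring
  have L4 : geEv (geLab d a 4) x y = x + y - a := by
    show 1 * x + 1 * y + -a = x + y - a
    ring
  have D0 : geEv (geDif d a a1 a2 0) x y = x - d - a1 := by
    show 1 * x + 0 * y + (-d - a1) = x - d - a1
    ring
  have D1 : geEv (geDif d a a1 a2 1) x y = y - a2 := by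
    show 0 * x + 1 * y + -a2 = y - a2
    ring
  have D2 : geEv (geDif d a a1 a2 2) x y = x - d - y := by
    show 1 * x + (-1) * y + -d = x - d - y
    ring
  have D3 : geEv (geDif d a a1 a2 3) x y = y + a - 2 * x + d := by
    show (-2) * x + 1 * y + (a + d) = y + a - 2 * x + d
    ring
  have D4 : geEv (geDif d a a1 a2 4) x y = x - y := by
    show 1 * x + (-1) * y + 0 = x - y
    ring
  have D5 : geEv (geDif d a a1 a2 5) x y = a - x := by
    show (-1) * x + 0 * y + a = a - x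
    ring
  have D6 : geEv (geDif d a a1 a2 6) x y = 2 * a - y - x := by
    show (-1) * x + (-1) * y + 2 * a = 2 * a - y - x
    ring
  have D7 : geEv (geDif d a a1 a2 7) x y = y + d - a := by
    show 0 * x + 1 * y + (d - a) = y + d - a
    ring
  have hL : ∀ i, geEv (geLab d a i) x y ∈ zall P.n \ FL := by
    intro i
    have h1 : 505 * (P.n : ℤ) ≤ 1000 * geEv (geLab d a i) x y ∧
        1000 * geEv (geLab d a i) x y ≤ 2495 * (P.n : ℤ) := by
      fin_cases i
      · show 505 * (P.n : ℤ) ≤ 1000 * geEv (geLab d a 0) x y ∧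
          1000 * geEv (geLab d a 0) x y ≤ 2495 * (P.n : ℤ)
        rw [L0]
        constructor <;> omega
      · show 505 * (P.n : ℤ) ≤ 1000 * geEv (geLab d a 1) x y ∧
          1000 * geEv (geLab d a 1) x y ≤ 2495 * (P.n : ℤ)
        rw [L1]
        constructor <;> omega
      · show 505 * (P.n : ℤ) ≤ 1000 * geEv (geLab d a 2) x y ∧
          1000 * geEv (geLab d a 2) x y ≤ 2495 * (P.n : ℤ)
        rw [L2]
        exact ⟨l2, l2'⟩
      · show 505 * (P.n : ℤ) ≤ 1000 * geEv (geLab d a 3) x y ∧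
          1000 * geEv (geLab d a 3) x y ≤ 2495 * (P.n : ℤ)
        rw [L3]
        exact ⟨l3, l3'⟩
      · show 505 * (P.n : ℤ) ≤ 1000 * geEv (geLab d a 4) x y ∧
          1000 * geEv (geLab d a 4) x y ≤ 2495 * (P.n : ℤ)
        rw [L4]
        exact ⟨l4, l4'⟩
    rw [mem_sdiff]
    refine ⟨zall_of P.n hn _ h1.1 h1.2 (hp.c1 i _ (mem_insert_self _ _)), fun h2 => ?_⟩
    exact hp.c1 i _ (mem_insert_of_mem h2) rfl
  have hD : ∀ i, |geEv (geDif d a a1 a2 i) x y| ∈ dall P.n \ FD := by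
    intro i
    have h1 : |geEv (geDif d a a1 a2 i) x y| ≤ 2 * (P.n : ℤ) := by
      rw [abs_le]
      fin_cases i
      · show -(2 * (P.n : ℤ)) ≤ geEv (geDif d a a1 a2 0) x y ∧
          geEv (geDif d a a1 a2 0) x y ≤ 2 * (P.n : ℤ)
        rw [D0]
        constructor <;> omega
      · show -(2 * (P.n : ℤ)) ≤ geEv (geDif d a a1 a2 1) x y ∧
          geEv (geDif d a a1 a2 1) x y ≤ 2 * (P.n : ℤ)
        rw [D1]
        constructor <;> omega
      · show -(2 * (P.n : ℤ)) ≤ geEv (geDif d a a1 a2 2) x y ∧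
          geEv (geDif d a a1 a2 2) x y ≤ 2 * (P.n : ℤ)
        rw [D2]
        constructor <;> omega
      · show -(2 * (P.n : ℤ)) ≤ geEv (geDif d a a1 a2 3) x y ∧
          geEv (geDif d a a1 a2 3) x y ≤ 2 * (P.n : ℤ)
        rw [D3]
        constructor <;> omega
      · show -(2 * (P.n : ℤ)) ≤ geEv (geDif d a a1 a2 4) x y ∧
          geEv (geDif d a a1 a2 4) x y ≤ 2 * (P.n : ℤ)
        rw [D4]
        constructor <;> omega
      · show -(2 * (P.n : ℤ)) ≤ geEv (geDif d a a1 a2 5) x y ∧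
          geEv (geDif d a a1 a2 5) x y ≤ 2 * (P.n : ℤ)
        rw [D5]
        constructor <;> omega
      · show -(2 * (P.n : ℤ)) ≤ geEv (geDif d a a1 a2 6) x y ∧
          geEv (geDif d a a1 a2 6) x y ≤ 2 * (P.n : ℤ)
        rw [D6]
        constructor <;> omega
      · show -(2 * (P.n : ℤ)) ≤ geEv (geDif d a a1 a2 7) x y ∧
          geEv (geDif d a a1 a2 7) x y ≤ 2 * (P.n : ℤ)
        rw [D7]
        rcases bb with bb | bb <;> constructor <;> omega
    have h0 : |geEv (geDif d a a1 a2 i) x y| ≠ 0 := hp.c2 i 0 (by simp [geV])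
    have h0' := abs_nonneg (geEv (geDif d a a1 a2 i) x y)
    rw [mem_sdiff]
    refine ⟨dall_of P.n _ (by omega) h1 (hp.c2 i _ (by simp [geV])) (hp.c2 i _ (by simp [geV]))
      (hp.c2 i _ (by simp [geV])), fun h2 => ?_⟩
    exact hp.c2 i _ (mem_union_left _ h2) rfl
  have e0 : eoD d a x y 0 = |geEv (geDif d a a1 a2 3) x y| := by
    rw [D3]
    show |y + a - x - (x - d)| = |y + a - 2 * x + d|
    congr 1
    ring
  have e1 : eoD d a x y 1 = |geEv (geDif d a a1 a2 4) x y| := by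
    rw [D4, abs_of_nonneg (by omega)]
    rfl
  have e2 : eoD d a x y 2 = |geEv (geDif d a a1 a2 5) x y| := by
    rw [D5, abs_of_nonneg (by omega)]
    rfl
  have e3 : eoD d a x y 3 = |geEv (geDif d a a1 a2 6) x y| := by
    rw [D6, abs_of_nonneg (by omega)]
    rfl
  have e4 : eoD d a x y 4 = |geEv (geDif d a a1 a2 7) x y| := by
    rw [D7]
    show |x + y - a - (x - d)| = |y + d - a|
    congr 1
    ring
  have hE : ∀ j : Fin 5, eoD d a x y j = |geEv (geDif d a a1 a2 (Fin.natAdd 3 j)) x y| := by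
    intro j
    fin_cases j
    · exact e0
    · exact e1
    · exact e2
    · exact e3
    · exact e4
  have hG : ∀ i : Fin 8, i.1 < 3 → |geEv (geDif d a a1 a2 i) x y| ∉
      (univ : Finset (Fin 5)).image (eoD d a x y) := by
    intro i hi h
    obtain ⟨j, -, hj⟩ := mem_image.1 h
    rw [hE j] at hj
    have h1 := hp.c5 _ _ hj
    rw [← h1] at hi
    have h2 : (Fin.natAdd 3 j : Fin 8).1 = 3 + j.1 := rfl
    omega
  have sD0 : sp1 P m (x - d) = |geEv (geDif d a a1 a2 0) x y| := by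
    rw [D0]
    unfold sp1
    rw [hA1]
  have sD1 : sp2 P m y = |geEv (geDif d a a1 a2 1) x y| := by
    rw [D1]
    unfold sp2
    rw [hA2]
  have sD2 : |x - d - y| = |geEv (geDif d a a1 a2 2) x y| := by rw [D2]
  have hJ : (eoCore P d m x y).J = {x, y + a - x, x + y - a} := by
    show ({x, y + anc P.n m - x, x + y - anc P.n m} : Finset ℤ) = _
    rw [hA]
  have hGc : (eoCore P d m x y).G = (univ : Finset (Fin 5)).image (eoD d a x y) := by
    show (univ : Finset (Fin 5)).image (eoD d (anc P.n m) x y) = _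
    rw [hA]
  have hne : ∀ i j : Fin 5, i ≠ j → geEv (geLab d a i) x y ≠ geEv (geLab d a j) x y :=
    fun i j hij h => hij (hp.c4 i j h)
  have hne' : ∀ i j : Fin 8, i ≠ j →
      |geEv (geDif d a a1 a2 i) x y| ≠ |geEv (geDif d a a1 a2 j) x y| :=
    fun i j hij h => hij (hp.c5 i j h)
  have hinj : Function.Injective (eoD d a x y) := by
    intro j j' h
    rw [hE, hE] at h
    have h1 := hp.c5 _ _ h
    exact Fin.natAdd_injective 5 3 h1
  refine ⟨?_, hinj, ?_, ?_, ?_, ?_⟩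
  · constructor
    · exact hm
    · show x - d ∈ _
      rw [← L0]
      exact hL 0
    · show y ∈ _
      have := hL 1
      rwa [L1] at this
    · rw [hJ]
      intro z hz
      rw [mem_insert, mem_insert, mem_singleton] at hz
      rcases hz with rfl | rfl | rfl
      · have := hL 2
        rwa [L2] at this
      · rw [← L3]
        exact hL 3
      · rw [← L4]
        exact hL 4
    · show sp1 P m (x - d) ∈ _
      rw [sD0]
      exact hD 0
    · show sp2 P m y ∈ _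
      rw [sD1]
      exact hD 1
    · show |x - d - y| ∈ _
      rw [sD2]
      exact hD 2
    · rw [hGc]
      intro z hz
      obtain ⟨j, -, rfl⟩ := mem_image.1 hz
      rw [hE j]
      exact hD _
    · show x - d ≠ y
      have := hne 0 1 (by decide)
      rwa [L0, L1] at this
    · show x - d ∉ _
      rw [hJ]
      intro hz
      rw [mem_insert, mem_insert, mem_singleton] at hz
      rcases hz with h | h | h
      · have := hne 0 2 (by decide)
        rw [L0, L2] at this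
        exact this h
      · have := hne 0 3 (by decide)
        rw [L0, L3] at this
        exact this h
      · have := hne 0 4 (by decide)
        rw [L0, L4] at this
        exact this h
    · show y ∉ _
      rw [hJ]
      intro hz
      rw [mem_insert, mem_insert, mem_singleton] at hz
      rcases hz with h | h | h
      · have := hne 1 2 (by decide)
        rw [L1, L2] at this
        exact this h
      · have := hne 1 3 (by decide)
        rw [L1, L3] at this
        exact this h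
      · have := hne 1 4 (by decide)
        rw [L1, L4] at this
        exact this h
    · show sp1 P m (x - d) ≠ sp2 P m y
      rw [sD0, sD1]
      exact hne' 0 1 (by decide)
    · show sp1 P m (x - d) ≠ |x - d - y|
      rw [sD0, sD2]
      exact hne' 0 2 (by decide)
    · show sp2 P m y ≠ |x - d - y|
      rw [sD1, sD2]
      exact hne' 1 2 (by decide)
    · show sp1 P m (x - d) ∉ _
      rw [hGc, sD0]
      exact hG 0 (by decide)
    · show sp2 P m y ∉ _
      rw [hGc, sD1]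
      exact hG 1 (by decide)
    · show |x - d - y| ∉ _
      rw [hGc, sD2]
      exact hG 2 (by decide)
    · rw [hJ]
      exact card_le_three
    · rw [hGc]
      refine card_image_le.trans ?_
      rw [card_univ, Fintype.card_fin]
    · show 85 * (P.n : ℤ) ≤ 100 * (x - d) ∧ 100 * (x - d) ≤ 215 * (P.n : ℤ)
      constructor <;> omega
    · show 85 * (P.n : ℤ) ≤ 100 * y ∧ 100 * y ≤ 215 * (P.n : ℤ)
      constructor <;> omega
  · rw [e0]
    refine ⟨?_, hp.c3 3⟩
    rw [D3, abs_of_nonneg (by omega)]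
    exact ⟨al, al'⟩
  · rw [e1]
    refine ⟨?_, hp.c3 4⟩
    rw [D4, abs_of_nonneg (by omega)]
    exact ⟨be, be'⟩
  · rw [e3]
    refine ⟨?_, hp.c3 6⟩
    rw [D6, abs_of_nonneg (by omega)]
    exact ⟨aa, aa'⟩
  · rw [e4]
    refine ⟨?_, hp.c3 7⟩
    rw [D7]
    rcases bb with bb | bb
    · rw [abs_of_nonneg (by omega)]
      exact bb
    · have h1 : |y + d - a| = a - y - d := by
        rw [abs_of_nonpos (by omega)]
        ring
      rw [h1]
      exact bb

theorem eo_ex {L p : ℕ} (hA : Adm L p) : ∃ e : ℝ, 0 < e ∧ ∃ g0 : ℕ, ∀ g : ℕ, g0 ≤ g →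
    EoEx (Par.mk L p g) e := by
  obtain ⟨ε, hε, g1, hm⟩ := exists_m hA
  refine ⟨min ε (1 / 20000), lt_min hε (by norm_num), max g1 40000, fun g hg => ?_⟩
  intro FC FL FD h1 h2 h3 d hd hgd
  have hP : (Par.mk L p g).Ok := ⟨hA, by
    show 0 < g
    have := (le_max_right g1 40000).trans hg
    omega⟩
  have hng : g ≤ (Par.mk L p g).n := hP.g_le_n
  have hn : 40000 ≤ (Par.mk L p g).n := ((le_max_right g1 40000).trans hg).trans hng
  have hgg : g1 ≤ g := (le_max_left g1 40000).trans hg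
  have hm' := hm g hgg
  have hPL : (Par.mk L p g).L = L := rfl
  have hPg : (Par.mk L p g).g = g := rfl
  generalize hPP : Par.mk L p g = P at *
  have hn0 : (0 : ℝ) ≤ (P.n : ℝ) := Nat.cast_nonneg _
  have hFC : (FC.card : ℝ) ≤ ε * P.n :=
    h1.trans (mul_le_mul_of_nonneg_right (min_le_left _ _) hn0)
  have hFL : 20000 * FL.card ≤ P.n := by
    have h4 : (FL.card : ℝ) ≤ 1 / 20000 * P.n :=
      h2.trans (mul_le_mul_of_nonneg_right (min_le_right _ _) hn0)
    have h5 : (20000 * FL.card : ℝ) ≤ P.n := by linarith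
    exact_mod_cast h5
  have hFD : 20000 * FD.card ≤ P.n := by
    have h4 : (FD.card : ℝ) ≤ 1 / 20000 * P.n :=
      h3.trans (mul_le_mul_of_nonneg_right (min_le_right _ _) hn0)
    have h5 : (20000 * FD.card : ℝ) ≤ P.n := by linarith
    exact_mod_cast h5
  obtain ⟨m, hmn, hodd, hsp, hlo, hhi, hFCm, -, hs1, hs2⟩ := hm' FC ∅ (253 * (P.n : ℤ) / 100 + 1)
    (255 * (P.n : ℤ) / 100) hFC (by simp) (by omega) (by omega) (by omega)
  obtain ⟨d1, d2⟩ := hd
  have d1' : 10 * (P.n : ℤ) ≤ 100 * d := d1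
  have d2' : 100 * d ≤ 130 * (P.n : ℤ) := d2
  have hs2' : ¬ spec P.n (P.vx m (P.L - 1)) := by rw [hPL]; exact hs2
  have n1 := gd_nb hP hmn hodd hsp (j := 1) (Or.inl rfl) hs1 hgd (by omega) (by omega) (by omega)
  have n2 := gd_nb hP hmn hodd hsp (j := P.L - 1) (Or.inr rfl) hs2' hgd (by omega) (by omega)
    (by omega)
  have hd0 : d ≠ 0 := by omega
  have fin : ∀ xl xh bl bh : ℤ, (P.n : ℤ) ≤ 100 * (xh - xl + 1) → (P.n : ℤ) ≤ 100 * (bh - bl + 1) →
      (∀ x y : ℤ, xl ≤ x → x ≤ xh → bl ≤ y → y ≤ bh → GeR P.n d (anc P.n m) x y) →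
      ∃ (m : ℕ) (x b2 : ℤ), m % P.g ∉ FC ∧
      CoreOk P (zall P.n \ FL) (dall P.n \ FD) (eoCore P d m x b2) ∧
      Function.Injective (eoD d (anc P.n m) x b2) ∧
      optOk P (eoD d (anc P.n m) x b2 0) ∧ optOk P (eoD d (anc P.n m) x b2 1) ∧
      optOk P (eoD d (anc P.n m) x b2 3) ∧ optOk P (eoD d (anc P.n m) x b2 4) := by
    intro xl xh bl bh w1 w2 w3
    obtain ⟨x, y, hx, hy, hxy⟩ := ge_pick P.n P.k hn FL FD hFL hFD d (anc P.n m)
      (anc P.n (P.vx m 1)) (anc P.n (P.vx m (P.L - 1))) hd0 n1 n2 xl xh bl bh w1 w2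
    exact ⟨m, x, y, by rw [hPg]; exact hFCm,
      ge_core hP (by omega) hmn (w3 x y hx.1 hx.2 hy.1 hy.2) hxy⟩
  generalize anc P.n m = a at *
  rcases le_or_gt (10 * d) (6 * (P.n : ℤ)) with c1 | c1
  · refine fin (204 * (P.n : ℤ) / 100 + 1) (206 * (P.n : ℤ) / 100)
      (179 * (P.n : ℤ) / 100 + 1) (181 * (P.n : ℤ) / 100) (by omega) (by omega)
      fun x y x1 x2 y1 y2 => ?_
    constructor
    case bb => exact Or.inr ⟨by omega, by omega⟩
    all_goals omega
  · rcases le_or_gt (100 * d) (75 * (P.n : ℤ)) with c2 | c2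
    · refine fin (215 * (P.n : ℤ) / 100 + 1) (217 * (P.n : ℤ) / 100)
        (165 * (P.n : ℤ) / 100 + 1) (167 * (P.n : ℤ) / 100) (by omega) (by omega)
        fun x y x1 x2 y1 y2 => ?_
      constructor
      case bb => exact Or.inr ⟨by omega, by omega⟩
      all_goals omega
    · refine fin (231 * (P.n : ℤ) / 100 + 1) (233 * (P.n : ℤ) / 100)
        (195 * (P.n : ℤ) / 100 + 1) (197 * (P.n : ℤ) / 100) (by omega) (by omega)
        fun x y x1 x2 y1 y2 => ?_
      constructor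
      case bb => exact Or.inl ⟨by omega, by omega⟩
      all_goals omega

end Pool.Agent.PGo.A
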