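import Pool.Agent.PGo.AGDefs

/-!
# PGo-AGtm: absorption by the gadgets along the template

PLAN. Copy of `PGr/PTm.lean` (`absorb_packs`); `PD` is replaced by `DP` and `AA` by a set of
differences disjoint from `DP`. `PA = ⋃ g z`. For `R'` take `f` from the template; for `z < 3m` let
`Z z` be the labelling of the gadget `g z` for the option `f z ∈ H z` (`PGad`);
`zz p := Z (the z with p ∈ g z) p`. `DS PA zz = ⋃_z insert (f z) (pGG (g z)) = pGG PA ∪ (X ∪ R')`.
Cardinalities: `pGG PA` is the disjoint union of the `pGG (g z)` (`PFam.dif`, `G ⊆ Dif`),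
`|pGG (g z)| + 1 = 3 |g z|` by `PGad`; `pGG PA ⊆ DP` (`PackOk.G_sub`).
-/

noncomputable section

namespace Pool.Agent.PGo.A

open Finset Pool.Agent.PGr Pool.Agent.PGo.R

variable {P : Par} {ZP DP : Finset ℤ}

private theorem G_sub_Dif (p : Pack P) : p.G ⊆ p.Dif := by
  unfold Pack.Dif
  exact subset_union_right

private theorem mem_pGG (Ps : Finset (Pack P)) (d : ℤ) : d ∈ pGG Ps ↔ ∃ p ∈ Ps, d ∈ p.G := by
  unfold pGG
  rw [mem_biUnion]

private theorem mem_DS (Ps : Finset (Pack P)) (z : Pack P → ℤ) (d : ℤ) :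
    d ∈ DS Ps z ↔ ∃ p ∈ Ps, ∃ j, pd3 p (z p) j = d := by
  unfold DS
  rw [mem_image]
  constructor
  · rintro ⟨⟨p, j⟩, hu, rfl⟩
    rw [mem_product] at hu
    exact ⟨p, hu.1, j, rfl⟩
  · rintro ⟨p, hp, j, rfl⟩
    exact ⟨(p, j), mem_product.2 ⟨hp, mem_univ _⟩, rfl⟩

theorem absorb_packs {m : ℕ} {g : ℕ → Finset (Pack P)} {H : ℕ → Finset ℤ} {X R0 : Finset ℤ}
    (hF : PFam P ZP DP ((range (3 * m)).biUnion g))
    (hg : ∀ z < 3 * m, PGad (g z) (H z) (pGG (g z)))
    (hd : ∀ z < 3 * m, ∀ z' < 3 * m, z ≠ z' → Disjoint (g z) (g z'))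
    (hX : Disjoint X DP) (hXc : X.card = 2 * m) (hR : Disjoint R0 DP) (hXR : Disjoint X R0)
    (hT : ∀ R' ⊆ R0, R'.card = m → ∃ f : ℕ → ℤ, (∀ z < 3 * m, f z ∈ H z) ∧
      Set.InjOn f (Set.Iio (3 * m)) ∧ (range (3 * m)).image f = X ∪ R') :
    (pGG ((range (3 * m)).biUnion g) ∪ X).card + m = 3 * ((range (3 * m)).biUnion g).card ∧
    ∀ R' ⊆ R0, R'.card = m → ∃ z : Pack P → ℤ,
      (∀ p ∈ (range (3 * m)).biUnion g, z p ∈ p.J) ∧
      DS ((range (3 * m)).biUnion g) z = pGG ((range (3 * m)).biUnion g) ∪ X ∪ R' ∧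
      (pGG ((range (3 * m)).biUnion g) ∪ X ∪ R').card =
        3 * ((range (3 * m)).biUnion g).card := by
  set PA : Finset (Pack P) := (range (3 * m)).biUnion g with hPA
  have hmem : ∀ z < 3 * m, ∀ p ∈ g z, p ∈ PA := by
    intro z hz p hp
    rw [hPA, mem_biUnion]
    exact ⟨z, mem_range.2 hz, hp⟩
  -- the private differences
  have hGG : pGG PA = (range (3 * m)).biUnion (fun z => pGG (g z)) := by
    ext d
    rw [mem_pGG, mem_biUnion]
    constructor
    · rintro ⟨p, hp, hd⟩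
      rw [hPA, mem_biUnion] at hp
      obtain ⟨z, hz, hpz⟩ := hp
      exact ⟨z, hz, (mem_pGG _ _).2 ⟨p, hpz, hd⟩⟩
    · rintro ⟨z, hz, hd⟩
      obtain ⟨p, hp, hdp⟩ := (mem_pGG _ _).1 hd
      exact ⟨p, hmem z (mem_range.1 hz) p hp, hdp⟩
  have hdisj : ∀ z < 3 * m, ∀ z' < 3 * m, z ≠ z' → Disjoint (pGG (g z)) (pGG (g z')) := by
    intro z hz z' hz' hne
    rw [disjoint_left]
    intro d h1 h2
    obtain ⟨p, hp, hdp⟩ := (mem_pGG _ _).1 h1
    obtain ⟨p', hp', hdp'⟩ := (mem_pGG _ _).1 h2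
    have hpp : p ≠ p' := by
      rintro rfl
      exact (disjoint_left.1 (hd z hz z' hz' hne)) hp hp'
    have hc := hF.dif p (hmem z hz p hp) p' (hmem z' hz' p' hp') hpp
    exact (disjoint_left.1 hc) (G_sub_Dif p hdp) (G_sub_Dif p' hdp')
  have hc1 : (pGG PA).card = ∑ z ∈ range (3 * m), (pGG (g z)).card := by
    rw [hGG]
    apply card_biUnion
    intro z hz z' hz' hne
    exact hdisj z (mem_range.1 hz) z' (mem_range.1 hz') hne
  have hc2 : PA.card = ∑ z ∈ range (3 * m), (g z).card := by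
    rw [hPA]
    apply card_biUnion
    intro z hz z' hz' hne
    exact hd z (mem_range.1 hz) z' (mem_range.1 hz') hne
  have hc3 : (pGG PA).card + 3 * m = 3 * PA.card := by
    rw [hc1, hc2, mul_sum]
    have : ∑ z ∈ range (3 * m), (pGG (g z)).card + 3 * m =
        ∑ z ∈ range (3 * m), ((pGG (g z)).card + 1) := by
      rw [sum_add_distrib, sum_const, card_range, smul_eq_mul, mul_one]
    rw [this]
    exact sum_congr rfl fun z hz => (hg z (mem_range.1 hz)).1
  have hPD : pGG PA ⊆ DP := by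
    intro d hd
    obtain ⟨p, hp, hdp⟩ := (mem_pGG _ _).1 hd
    exact (hF.ok p hp).G_sub hdp
  refine ⟨?_, ?_⟩
  · rw [card_union_of_disjoint (hX.symm.mono_left hPD), hXc]
    omega
  · intro R' hR' hRc
    obtain ⟨f, hf, _, hfi⟩ := hT R' hR' hRc
    have hZ : ∀ z, ∃ Z : Pack P → ℤ, z < 3 * m →
        (∀ p ∈ g z, Z p ∈ p.J) ∧ DS (g z) Z = insert (f z) (pGG (g z)) := by
      intro z
      by_cases hz : z < 3 * m
      · obtain ⟨Z, hZ1, hZ2⟩ := (hg z hz).2.2 (f z) (hf z hz)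
        exact ⟨Z, fun _ => ⟨hZ1, hZ2⟩⟩
      · exact ⟨fun _ => 0, fun h => absurd h hz⟩
    choose Z hZ using hZ
    set zz : Pack P → ℤ := fun p =>
      if h : ∃ z, z < 3 * m ∧ p ∈ g z then Z h.choose p else 0 with hzz
    have hzv : ∀ z < 3 * m, ∀ p ∈ g z, zz p = Z z p := by
      intro z hz p hp
      have hex : ∃ z, z < 3 * m ∧ p ∈ g z := ⟨z, hz, hp⟩
      have hs := hex.choose_spec
      have he : hex.choose = z := by
        by_contra hne
        exact (disjoint_left.1 (hd _ hs.1 z hz hne)) hs.2 hp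
      rw [hzz]
      simp only [dif_pos hex]
      rw [he]
    refine ⟨zz, ?_, ?_, ?_⟩
    · intro p hp
      rw [hPA, mem_biUnion] at hp
      obtain ⟨z, hz, hpz⟩ := hp
      rw [mem_range] at hz
      rw [hzv z hz p hpz]
      exact (hZ z hz).1 p hpz
    · have hDS : DS PA zz = (range (3 * m)).biUnion (fun z => insert (f z) (pGG (g z))) := by
        ext d
        rw [mem_DS, mem_biUnion]
        constructor
        · rintro ⟨p, hp, j, hj⟩
          rw [hPA, mem_biUnion] at hp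
          obtain ⟨z, hz, hpz⟩ := hp
          refine ⟨z, hz, ?_⟩
          rw [mem_range] at hz
          rw [← (hZ z hz).2, mem_DS]
          rw [hzv z hz p hpz] at hj
          exact ⟨p, hpz, j, hj⟩
        · rintro ⟨z, hz, hdz⟩
          rw [mem_range] at hz
          rw [← (hZ z hz).2, mem_DS] at hdz
          obtain ⟨p, hp, j, hj⟩ := hdz
          refine ⟨p, hmem z hz p hp, j, ?_⟩
          rw [hzv z hz p hp]
          exact hj
      rw [hDS, union_assoc, ← hfi, hGG]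
      ext d
      simp only [mem_biUnion, mem_insert, mem_union, mem_image]
      constructor
      · rintro ⟨z, hz, h1 | h1⟩
        · exact Or.inr ⟨z, hz, h1.symm⟩
        · exact Or.inl ⟨z, hz, h1⟩
      · rintro (⟨z, hz, h1⟩ | ⟨z, hz, h1⟩)
        · exact ⟨z, hz, Or.inr h1⟩
        · exact ⟨z, hz, Or.inl h1.symm⟩
    · have hXR' : Disjoint X R' := hXR.mono_right hR'
      have hsub : Disjoint (pGG PA) (X ∪ R') :=
        disjoint_union_right.2 ⟨hX.symm.mono_left hPD, (hR.mono_left hR').symm.mono_left hPD⟩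
      rw [union_assoc, card_union_of_disjoint hsub,
        card_union_of_disjoint hXR', hXc, hRc]
      omega

end Pool.Agent.PGo.A
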