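import Pool.Agent.PGo.AGLin

/-!
# PGo-AGtw: two-way cores exist outside of small sets

PLAN (all lengths in units of `n`). Let `σ = d + d'`, `M = max d d'`, `a = anc m`, `a1 = anc (vx m 1)`,
`a2 = anc (vx m (L - 1))`. Core: `y1 = 2 y2 + σ - a`, labels `J = {y2 + d, y2 + d'}`,
`G = {a - (y2 + d), a - (y2 + d')}`.
Case 1, `σ ≤ 1.9`: `a ∈ [2.53, 2.57]`, `y2 ∈ [max (.95, 1.785 - σ/2), min (2.05, 2.265 - σ/2, 2.49 - M)]`:
an interval of length `≥ .03 n` (use `M ≤ 1.3` and `M ≤ σ - .07`), then `y1 ∈ [1, 2]`.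
Case 2, `σ > 1.9`: `a ∈ [2.88, 2.92]`, `y2 ∈ [max (1, 1.935 - σ/2), min (2.465 - σ/2, 1.19)]` (length
`≥ .03`; `y1 ∈ [.95, 2.05]`).
Use `exists_m` with these ranges of the anchor and `E` = the `m` with `a - a2 = σ`, `E.card ≤ 2`:
case 1: `m ≥ .86 n - 1 > k`, the neighbour `vx m (L-1) = m - k` (`vx_last`): for odd neighbours
`a - a2 = - k / 2 < 0 ≠ σ`, for even neighbours `a - a2 ≥ 2 n > σ`: `E = ∅` works;
case 2: odd neighbours: `a - a2 ≤ (n - k) / 2 < σ`; even neighbours: `a - a2 = 3 n - (m - 1) / 2 - v / 2`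
with `v = m - k` or `m - k + n`: injective in `m` on `{m < k}` and on `{m ≥ k}`, so at most two `m`:
take for `E` the filter of `range n` with this property; it maps injectively to `Bool` by
`m ↦ decide (k ≤ m)`.
For this `m` choose `y2` with `avoid1`: `I` = the interval, `Ls` the following pairs `(α, γ)`
(condition `α y2 + γ = 0`), at most `4 (|FL| + 1) + 10 (|FD| + 3) + 30` of them:
* label forms `y1, y2, y2 + d, y2 + d'` equal to an element of `FL ∪ {3 (n / 2)}`;
* difference forms `y1 - a1, y2 - a2, y1 - y2, a - y2 - d, a - y2 - d'` equal to `± v`,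
  `v ∈ FD ∪ {0, n + 1, 3 (n / 2), (n - 1) / 2}`;
* differences of two label forms (nonzero pair `(α, γ)`: the constants are `d`, `d'`, `d - d'`, the
  others have `α = ± 1`); sums and differences of two difference forms: `α = 0` only for
  `(y2 - a2) - (y1 - y2)`: constant `a - a2 - σ ≠ 0`; `(y2 - a2) + (a - y2 - d)`: constant `a - a2 - d ≠ 0`
  (`gd_nb`), same for `d'`; `(y1 - y2) + (a - y2 - d)`: constant `d'`; `(a-y2-d) - (a-y2-d')`: `d' - d`.
Ranges: all labels lie in `[.6 n, 2.495 n]` so they are in `zall` (`zall_of`), all differences are at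
most `2 n` in absolute value: case 1: `m > k`, `vx m (L-1) = m - k` has position in `[.36, .94]`, so
`a2 ∈ [2.53, 2.82]` or `[.18, .47]`; `y1 ∈ [1, 2]`, `a1 ∈ [0, .5] ∪ [2.5, 3]`; case 2: `vx m 1 = m + k < n`
has position in `[.16, .74]`, `y2 ∈ [1, 1.19]`; `a - y2 - d ∈ [.39.., 1.9]` positive. `dall_of`.
`e := min ε_(exists_m) (1 / 2000)`, `g0` large (`n ≥ 10 ^ 5`).
-/

noncomputable section

namespace Pool.Agent.PGo.A

open Finset Pool.Agent.PGr Pool.Agent.PGo.R

private theorem tw_lin (I S : Finset ℤ) (α γ : ℤ) (hα : α ≠ 0) :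
    (I.filter (fun y => α * y + γ ∈ S)).card ≤ S.card := by
  refine card_le_card_of_injOn (fun y => α * y + γ) ?_ ?_
  · intro y hy
    rw [mem_coe, mem_filter] at hy
    exact hy.2
  · intro y _ y' _ he
    have h1 : α * y + γ = α * y' + γ := he
    exact mul_left_cancel₀ hα (by linarith)

private theorem tw_abs (I S : Finset ℤ) (α γ : ℤ) (hα : α ≠ 0) :
    (I.filter (fun y => |α * y + γ| ∈ S)).card ≤ 2 * S.card := by
  have hsub : I.filter (fun y => |α * y + γ| ∈ S) ⊆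
      I.filter (fun y => α * y + γ ∈ S) ∪ I.filter (fun y => -α * y + -γ ∈ S) := by
    intro y hy
    rw [mem_filter] at hy
    rw [mem_union, mem_filter, mem_filter]
    rcases abs_choice (α * y + γ) with h | h
    · left
      exact ⟨hy.1, by rw [← h]; exact hy.2⟩
    · right
      refine ⟨hy.1, ?_⟩
      have h2 : -α * y + -γ = |α * y + γ| := by rw [h]; ring
      rw [h2]
      exact hy.2
  calc (I.filter (fun y => |α * y + γ| ∈ S)).card ≤ _ := card_le_card hsub
    _ ≤ (I.filter (fun y => α * y + γ ∈ S)).card + (I.filter (fun y => -α * y + -γ ∈ S)).card :=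
        card_union_le _ _
    _ ≤ S.card + S.card := Nat.add_le_add (tw_lin I S α γ hα)
        (tw_lin I S (-α) (-γ) (neg_ne_zero.2 hα))
    _ = 2 * S.card := by ring

private theorem tw_one (I : Finset ℤ) (D : Finset (ℤ × ℤ)) (hD : ∀ l ∈ D, l.1 ≠ 0) :
    (I.filter (fun y => ∃ l ∈ D, l.1 * y + l.2 = 0)).card ≤ D.card := by
  classical
  have hsub : I.filter (fun y => ∃ l ∈ D, l.1 * y + l.2 = 0) ⊆
      D.biUnion (fun l => I.filter (fun y => l.1 * y + l.2 ∈ ({0} : Finset ℤ))) := by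
    intro y hy
    rw [mem_filter] at hy
    obtain ⟨hyI, l, hl, h⟩ := hy
    rw [mem_biUnion]
    exact ⟨l, hl, mem_filter.2 ⟨hyI, mem_singleton.2 h⟩⟩
  refine (card_le_card hsub).trans ?_
  refine (card_biUnion_le_card_mul D _ 1 fun l hl => ?_).trans (by rw [mul_one])
  refine (tw_lin I {0} l.1 l.2 (hD l hl)).trans ?_
  rw [card_singleton]

/-- exceptional values of the labels -/
private def F1 (n : ℕ) (FL : Finset ℤ) : Finset ℤ := insert (3 * ((n / 2 : ℕ) : ℤ)) FL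

/-- exceptional values of the differences -/
private def F2 (n : ℕ) (FD : Finset ℤ) : Finset ℤ :=
  insert 0 (insert ((n : ℤ) + 1) (insert (3 * ((n / 2 : ℕ) : ℤ))
    (insert (((n - 1) / 2 : ℕ) : ℤ) FD)))

private theorem F1_card (n : ℕ) (FL : Finset ℤ) : (F1 n FL).card ≤ FL.card + 1 :=
  card_insert_le _ _

private theorem F2_card (n : ℕ) (FD : Finset ℤ) : (F2 n FD).card ≤ FD.card + 4 := by
  unfold F2
  refine (card_insert_le _ _).trans (Nat.succ_le_succ ?_)
  refine (card_insert_le _ _).trans (Nat.succ_le_succ ?_)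
  refine (card_insert_le _ _).trans (Nat.succ_le_succ ?_)
  exact card_insert_le _ _

private theorem tw_zall {n : ℕ} (hn : 1000 ≤ n) {FL : Finset ℤ} {x : ℤ}
    (h1 : 505 * (n : ℤ) ≤ 1000 * x) (h2 : 1000 * x ≤ 2495 * (n : ℤ)) (h3 : x ∉ F1 n FL) :
    x ∈ zall n \ FL := by
  unfold F1 at h3
  rw [mem_insert, not_or] at h3
  exact mem_sdiff.2 ⟨zall_of n hn x h1 h2 h3.1, h3.2⟩

private theorem tw_dall {n : ℕ} {FD : Finset ℤ} {x : ℤ} (h1 : 0 ≤ x) (h2 : x ≤ 2 * n)
    (h3 : x ∉ F2 n FD) : x ∈ dall n \ FD := by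
  unfold F2 at h3
  simp only [mem_insert, not_or] at h3
  obtain ⟨e1, e2, e3, e4, e5⟩ := h3
  exact mem_sdiff.2 ⟨dall_of n x (by omega) h2 e2 e3 e4, e5⟩

private theorem tw_core (P : Par) (hn : 100000 ≤ P.n) (FL FD : Finset ℤ)
    (hFL : 2000 * FL.card ≤ P.n) (hFD : 2000 * FD.card ≤ P.n) (d d' : ℤ) (hd : 0 < d)
    (hd' : 0 < d') (m : ℕ) (hm : m < P.n) (lo hi : ℤ)
    (hI : 3 * (P.n : ℤ) ≤ 100 * (hi - lo + 1)) (a a1 a2 : ℤ) (ha : anc P.n m = a)
    (ha1 : anc P.n (P.vx m 1) = a1) (ha2 : anc P.n (P.vx m (P.L - 1)) = a2)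
    (hr : ∀ y, lo ≤ y → y ≤ hi → (85 * (P.n : ℤ) ≤ 100 * y ∧ 100 * y ≤ 215 * P.n) ∧
      (85 * (P.n : ℤ) ≤ 100 * (2 * y + d + d' - a) ∧ 100 * (2 * y + d + d' - a) ≤ 215 * P.n) ∧
      1000 * (y + d) ≤ 2495 * P.n ∧ 1000 * (y + d') ≤ 2495 * P.n ∧
      (-(2 * (P.n : ℤ)) ≤ 2 * y + d + d' - a - a1 ∧ 2 * y + d + d' - a - a1 ≤ 2 * P.n) ∧
      (-(2 * (P.n : ℤ)) ≤ y - a2 ∧ y - a2 ≤ 2 * P.n) ∧
      (0 ≤ a - (y + d) ∧ a - (y + d) ≤ 2 * P.n) ∧ (0 ≤ a - (y + d') ∧ a - (y + d') ≤ 2 * P.n))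
    (c1 : a - a2 ≠ d + d') (c2 : a - a2 ≠ d) (c3 : a - a2 ≠ d') :
    ∃ y2, CoreOk P (zall P.n \ FL) (dall P.n \ FD) (twCore P d d' m y2) := by
  classical
  set I : Finset ℤ := Icc lo hi with hIdef
  set S1 := F1 P.n FL with hS1
  set S2 := F2 P.n FD with hS2
  set b : ℤ := d + d' - a with hb
  set D : Finset (ℤ × ℤ) := {(1, b - a1 + a2), (3, b - a1 - a2), (1, -a1), (3, 2 * b - a1),
    (2, b - a2), (3, b - a1 - a + d), (1, b - a1 + a - d), (3, b - a1 - a + d'),
    (1, b - a1 + a - d'), (2, -a2 - a + d), (2, -a2 - a + d'), (2, b - a + d), (2, b - a + d')}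
    with hD
  have hDne : ∀ l ∈ D, l.1 ≠ 0 := by
    intro l hl
    rw [hD] at hl
    simp only [mem_insert, mem_singleton] at hl
    rcases hl with rfl | rfl | rfl | rfl | rfl | rfl | rfl | rfl | rfl | rfl | rfl | rfl | rfl <;>
      norm_num
  have hDc : D.card ≤ 13 := by
    rw [hD]
    refine (card_insert_le _ _).trans (Nat.succ_le_succ ?_)
    refine (card_insert_le _ _).trans (Nat.succ_le_succ ?_)
    refine (card_insert_le _ _).trans (Nat.succ_le_succ ?_)
    refine (card_insert_le _ _).trans (Nat.succ_le_succ ?_)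
    refine (card_insert_le _ _).trans (Nat.succ_le_succ ?_)
    refine (card_insert_le _ _).trans (Nat.succ_le_succ ?_)
    refine (card_insert_le _ _).trans (Nat.succ_le_succ ?_)
    refine (card_insert_le _ _).trans (Nat.succ_le_succ ?_)
    refine (card_insert_le _ _).trans (Nat.succ_le_succ ?_)
    refine (card_insert_le _ _).trans (Nat.succ_le_succ ?_)
    refine (card_insert_le _ _).trans (Nat.succ_le_succ ?_)
    refine (card_insert_le _ _).trans (Nat.succ_le_succ ?_)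
    rw [card_singleton]
  set B1 := I.filter (fun y => (2 : ℤ) * y + b ∈ S1) with hB1
  set B2 := I.filter (fun y => (1 : ℤ) * y + 0 ∈ S1) with hB2
  set B3 := I.filter (fun y => (1 : ℤ) * y + d ∈ S1) with hB3
  set B4 := I.filter (fun y => (1 : ℤ) * y + d' ∈ S1) with hB4
  set B5 := I.filter (fun y => |(2 : ℤ) * y + (b - a1)| ∈ S2) with hB5
  set B6 := I.filter (fun y => |(1 : ℤ) * y + -a2| ∈ S2) with hB6
  set B7 := I.filter (fun y => |(1 : ℤ) * y + b| ∈ S2) with hB7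
  set B8 := I.filter (fun y => (-1 : ℤ) * y + (a - d) ∈ S2) with hB8
  set B9 := I.filter (fun y => (-1 : ℤ) * y + (a - d') ∈ S2) with hB9
  set B10 := I.filter (fun y => ∃ l ∈ D, l.1 * y + l.2 = 0) with hB10
  have k1 : B1.card ≤ S1.card := tw_lin I S1 2 b (by norm_num)
  have k2 : B2.card ≤ S1.card := tw_lin I S1 1 0 (by norm_num)
  have k3 : B3.card ≤ S1.card := tw_lin I S1 1 d (by norm_num)
  have k4 : B4.card ≤ S1.card := tw_lin I S1 1 d' (by norm_num)
  have k5 : B5.card ≤ 2 * S2.card := tw_abs I S2 2 (b - a1) (by norm_num)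
  have k6 : B6.card ≤ 2 * S2.card := tw_abs I S2 1 (-a2) (by norm_num)
  have k7 : B7.card ≤ 2 * S2.card := tw_abs I S2 1 b (by norm_num)
  have k8 : B8.card ≤ S2.card := tw_lin I S2 (-1) (a - d) (by norm_num)
  have k9 : B9.card ≤ S2.card := tw_lin I S2 (-1) (a - d') (by norm_num)
  have k10 : B10.card ≤ 13 := (tw_one I D hDne).trans hDc
  have kS1 : S1.card ≤ FL.card + 1 := F1_card _ _
  have kS2 : S2.card ≤ FD.card + 4 := F2_card _ _
  set U := B1 ∪ (B2 ∪ (B3 ∪ (B4 ∪ (B5 ∪ (B6 ∪ (B7 ∪ (B8 ∪ (B9 ∪ B10)))))))) with hU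
  have hUc : U.card ≤ B1.card + (B2.card + (B3.card + (B4.card + (B5.card + (B6.card +
      (B7.card + (B8.card + (B9.card + B10.card)))))))) := by
    refine (card_union_le _ _).trans (Nat.add_le_add_left ?_ _)
    refine (card_union_le _ _).trans (Nat.add_le_add_left ?_ _)
    refine (card_union_le _ _).trans (Nat.add_le_add_left ?_ _)
    refine (card_union_le _ _).trans (Nat.add_le_add_left ?_ _)
    refine (card_union_le _ _).trans (Nat.add_le_add_left ?_ _)
    refine (card_union_le _ _).trans (Nat.add_le_add_left ?_ _)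
    refine (card_union_le _ _).trans (Nat.add_le_add_left ?_ _)
    refine (card_union_le _ _).trans (Nat.add_le_add_left ?_ _)
    exact card_union_le _ _
  have hIc : I.card = (hi + 1 - lo).toNat := Int.card_Icc lo hi
  have hlt : U.card < I.card := by
    rw [hIc]
    omega
  obtain ⟨y, hyI, hyU⟩ := exists_mem_notMem_of_card_lt_card hlt
  have hyI' := mem_Icc.1 hyI
  rw [hU] at hyU
  simp only [mem_union, not_or, hB1, hB2, hB3, hB4, hB5, hB6, hB7, hB8, hB9, hB10, mem_filter,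
    hyI, true_and] at hyU
  obtain ⟨n1, n2, n3, n4, n5, n6, n7, n8, n9, n10⟩ := hyU
  have hDy : ∀ l ∈ D, l.1 * y + l.2 ≠ 0 := fun l hl h => n10 ⟨l, hl, h⟩
  clear n10
  rw [hD] at hDy
  simp only [mem_insert, mem_singleton, forall_eq_or_imp, forall_eq] at hDy
  obtain ⟨q1, q2, q3, q4, q5, q6, q7, q8, q9, q10, q11, q12, q13⟩ := hDy
  obtain ⟨⟨r1, r2⟩, ⟨r3, r4⟩, r5, r6, ⟨r7, r8⟩, ⟨r9, r10⟩, ⟨r11, r12⟩, r13, r14⟩ :=
    hr y hyI'.1 hyI'.2
  have e1 : 2 * y + d + d' - a = 2 * y + b := by rw [hb]; ring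
  have e2 : 2 * y + d + d' - a - a1 = 2 * y + (b - a1) := by rw [hb]; ring
  have e3 : y - a2 = 1 * y + -a2 := by ring
  have e4 : 2 * y + d + d' - a - y = 1 * y + b := by rw [hb]; ring
  have e5 : a - (y + d) = -1 * y + (a - d) := by ring
  have e6 : a - (y + d') = -1 * y + (a - d') := by ring
  have z7 : (0 : ℤ) ∈ S2 := by
    rw [hS2]
    exact mem_insert_self _ _
  have t1 : |2 * y + d + d' - a - a1| ∈ dall P.n \ FD := by
    refine tw_dall (abs_nonneg _) (abs_le.2 ⟨r7, r8⟩) ?_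
    rw [e2]
    exact n5
  have t2 : |y - a2| ∈ dall P.n \ FD := by
    refine tw_dall (abs_nonneg _) (abs_le.2 ⟨r9, r10⟩) ?_
    rw [e3]
    exact n6
  have t3 : |2 * y + d + d' - a - y| ∈ dall P.n \ FD := by
    refine tw_dall (abs_nonneg _) (abs_le.2 ⟨by omega, by omega⟩) ?_
    rw [e4]
    exact n7
  have t4 : a - (y + d) ∈ dall P.n \ FD := by
    refine tw_dall r11 r12 ?_
    rw [e5]
    exact n8
  have t5 : a - (y + d') ∈ dall P.n \ FD := by
    refine tw_dall r13 r14 ?_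
    rw [e6]
    exact n9
  have nz3 : 1 * y + b ≠ 0 := by
    intro h
    rw [h, abs_zero] at n7
    exact n7 z7
  have nz4 : -1 * y + (a - d) ≠ 0 := fun h => n8 (by rw [h]; exact z7)
  have nz5 : -1 * y + (a - d') ≠ 0 := fun h => n9 (by rw [h]; exact z7)
  refine ⟨y, ?_⟩
  have habs : ∀ u w : ℤ, u ≠ w → u ≠ -w → |u| ≠ |w| := by
    intro u w h1 h2 h3
    rcases abs_eq_abs.1 h3 with h | h
    · exact h1 h
    · exact h2 h
  have habs' : ∀ u w : ℤ, u ≠ w → u ≠ -w → |u| ≠ w := by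
    intro u w h1 h2 h3
    rcases abs_choice u with h | h
    · exact h1 (by omega)
    · exact h2 (by omega)
  have hG : ∀ x : ℤ, x ∈ (twCore P d d' m y).G ↔ x = a - (y + d) ∨ x = a - (y + d') := by
    intro x
    show x ∈ ({anc P.n m - (y + d), anc P.n m - (y + d')} : Finset ℤ) ↔ _
    rw [mem_insert, mem_singleton, ha]
  have hJ : ∀ x : ℤ, x ∈ (twCore P d d' m y).J ↔ x = y + d ∨ x = y + d' := by
    intro x
    show x ∈ ({y + d, y + d'} : Finset ℤ) ↔ _
    rw [mem_insert, mem_singleton]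
  have hs1 : sp1 P (twCore P d d' m y).m (twCore P d d' m y).y1 = |2 * y + d + d' - a - a1| := by
    show |2 * y + d + d' - anc P.n m - anc P.n (P.vx m 1)| = _
    rw [ha, ha1]
  have hs2 : sp2 P (twCore P d d' m y).m (twCore P d d' m y).y2 = |y - a2| := by
    show |y - anc P.n (P.vx m (P.L - 1))| = _
    rw [ha2]
  have hy1 : (twCore P d d' m y).y1 = 2 * y + d + d' - a := by
    show 2 * y + d + d' - anc P.n m = _
    rw [ha]
  have hy2 : (twCore P d d' m y).y2 = y := rfl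
  have he : |(twCore P d d' m y).y1 - (twCore P d d' m y).y2| = |2 * y + d + d' - a - y| := by
    rw [hy1, hy2]
  exact
    { lt := hm
      y1Z := by
        rw [hy1]
        refine tw_zall (by omega) (by omega) (by omega) ?_
        rw [e1]
        exact n1
      y2Z := by
        rw [hy2]
        refine tw_zall (by omega) (by omega) (by omega) ?_
        rw [one_mul, add_zero] at n2
        exact n2
      J_sub := by
        intro x hx
        rcases (hJ x).1 hx with rfl | rfl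
        · refine tw_zall (by omega) (by omega) (by omega) ?_
          rw [one_mul] at n3
          exact n3
        · refine tw_zall (by omega) (by omega) (by omega) ?_
          rw [one_mul] at n4
          exact n4
      s1D := by
        rw [hs1]
        exact t1
      s2D := by
        rw [hs2]
        exact t2
      eD := by
        rw [he]
        exact t3
      G_sub := by
        intro x hx
        rcases (hG x).1 hx with rfl | rfl
        · exact t4
        · exact t5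
      y12 := by
        rw [hy1, hy2]
        omega
      y1J := by
        rw [hJ, hy1, not_or]
        constructor <;> omega
      y2J := by
        rw [hJ, hy2, not_or]
        constructor <;> omega
      s12 := by
        rw [hs1, hs2]
        refine habs _ _ ?_ ?_ <;> omega
      s1e := by
        rw [hs1, he]
        refine habs _ _ ?_ ?_ <;> omega
      s2e := by
        rw [hs2, he]
        refine habs _ _ ?_ ?_ <;> omega
      s1G := by
        rw [hs1, hG, not_or]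
        refine ⟨habs' _ _ ?_ ?_, habs' _ _ ?_ ?_⟩ <;> omega
      s2G := by
        rw [hs2, hG, not_or]
        refine ⟨habs' _ _ ?_ ?_, habs' _ _ ?_ ?_⟩ <;> omega
      eG := by
        rw [he, hG, not_or]
        refine ⟨habs' _ _ ?_ ?_, habs' _ _ ?_ ?_⟩ <;> omega
      cJ := by
        show ({y + d, y + d'} : Finset ℤ).card ≤ 3
        exact (card_le_two).trans (by norm_num)
      cG := by
        show ({anc P.n m - (y + d), anc P.n m - (y + d')} : Finset ℤ).card ≤ 5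
        exact (card_le_two).trans (by norm_num)
      w1 := by
        rw [hy1]
        exact ⟨r3, r4⟩
      w2 := ⟨r1, r2⟩ }

private theorem tw_anc {n v : ℕ} (hs : ¬ spec n v) :
    (v % 2 = 0 ∧ anc n v = ((v / 2 : ℕ) : ℤ)) ∨
      (v % 2 = 1 ∧ anc n v = 3 * (n : ℤ) - ((v / 2 : ℕ) : ℤ)) := by
  unfold spec at hs
  unfold anc
  split_ifs with h1
  · left
    exact ⟨h1, rfl⟩
  · right
    exact ⟨by omega, rfl⟩

private theorem tw_E (P : Par) (hP : P.Ok) (σ : ℤ) :
    ((range P.n).filter (fun m => m % 2 = 1 ∧ ¬ spec P.n m ∧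
      (nbm P.n P.k m) % 2 = 0 ∧
      3 * (P.n : ℤ) - ((m / 2 : ℕ) : ℤ) - ((nbm P.n P.k m / 2 : ℕ) : ℤ) = σ)).card ≤ 2 := by
  classical
  have hk := hP.k_lt
  refine le_trans (card_le_card_of_injOn (t := (univ : Finset Bool))
    (fun m => decide (P.k ≤ m)) (fun _ _ => mem_coe.2 (mem_univ _)) ?_) (le_of_eq rfl)
  intro x hx y hy hxy
  rw [mem_coe, mem_filter, mem_range] at hx hy
  obtain ⟨x1, x2, -, x3, x4⟩ := hx
  obtain ⟨y1, y2, -, y3, y4⟩ := hy
  rw [PC.nbm_val x1 hk] at x3 x4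
  rw [PC.nbm_val y1 hk] at y3 y4
  have h2 : (P.k ≤ x) ↔ (P.k ≤ y) := by
    have h3 : decide (P.k ≤ x) = decide (P.k ≤ y) := hxy
    exact decide_eq_decide.1 h3
  by_cases hkx : P.k ≤ x
  · have hky := h2.1 hkx
    rw [if_pos hkx] at x3 x4
    rw [if_pos hky] at y3 y4
    omega
  · have hky : ¬ P.k ≤ y := fun h => hkx (h2.2 h)
    rw [if_neg hkx] at x3 x4
    rw [if_neg hky] at y3 y4
    omega

private theorem tw_main (P : Par) (hP : P.Ok) (hn : 100000 ≤ P.n) {ε : ℝ}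
    (hex : ∀ (FC E : Finset ℕ) (lo hi : ℤ), (FC.card : ℝ) ≤ ε * P.n → E.card ≤ 10 →
      5 * (P.n : ℤ) + 4 ≤ 2 * lo → hi ≤ 3 * (P.n : ℤ) → (P.n : ℤ) ≤ 100 * (hi - lo + 1) →
      ∃ m < P.n, m % 2 = 1 ∧ ¬ spec P.n m ∧ lo ≤ anc P.n m ∧ anc P.n m ≤ hi ∧ m % P.g ∉ FC ∧
        m ∉ E ∧ ¬ spec P.n (P.vx m 1) ∧ ¬ spec P.n (P.vx m (P.L - 1))) :
    TwEx P (min ε (1 / 2000)) := by
  classical
  have hk := hP.k_lt
  intro FC FL FD hFC hFL hFD d d' hd hd' hne
  have hn0 : (0 : ℝ) ≤ P.n := Nat.cast_nonneg _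
  have hFC' : (FC.card : ℝ) ≤ ε * P.n :=
    hFC.trans (mul_le_mul_of_nonneg_right (min_le_left _ _) hn0)
  have small : ∀ S : Finset ℤ, (S.card : ℝ) ≤ min ε (1 / 2000) * P.n → 2000 * S.card ≤ P.n := by
    intro S hS
    have h1 : (S.card : ℝ) ≤ 1 / 2000 * P.n :=
      hS.trans (mul_le_mul_of_nonneg_right (min_le_right _ _) hn0)
    have h2 : (2000 : ℝ) * S.card ≤ P.n := by linarith
    exact_mod_cast h2
  have hFL' := small FL hFL
  have hFD' := small FD hFD
  obtain ⟨⟨d1, d2⟩, dg⟩ := hd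
  obtain ⟨⟨d3, d4⟩, dg'⟩ := hd'
  simp only at d1 d2 d3 d4
  have dpos : 0 < d := by omega
  have dpos' : 0 < d' := by omega
  by_cases hσ : 10 * (d + d') ≤ 19 * (P.n : ℤ)
  · -- first case
    obtain ⟨m, hm, ho, hs, hlo, hhi, hmF, -, hv1, hv2⟩ := hex FC ∅
      (253 * (P.n : ℤ) / 100 + 1) (257 * (P.n : ℤ) / 100) hFC' (by simp) (by omega) (by omega)
      (by omega)
    have hLe : P.vx m (P.L - 1) = nbm P.n P.k m := vx_last hP hm
    have hn2 := PC.nbm_val hm hk
    have ham : anc P.n m = 3 * (P.n : ℤ) - ((m / 2 : ℕ) : ℤ) := by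
      rcases tw_anc hs with h | h
      · omega
      · exact h.2
    have hv1' := tw_anc hv1
    have hv2' := tw_anc hv2
    have hvlt : P.vx m 1 < P.n := Par.vx_lt hP m 1
    have hc2 := gd_nb hP hm ho hs (Or.inr rfl) hv2 dg dpos (by omega) (by omega)
    have hc3 := gd_nb hP hm ho hs (Or.inr rfl) hv2 dg' dpos' (by omega) (by omega)
    have hkm : P.k ≤ m := by omega
    rw [if_pos hkm] at hn2
    have hvL : P.vx m (P.L - 1) = m - P.k := hLe.trans hn2
    rw [hvL] at hv2'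
    obtain ⟨y2, hy2⟩ := tw_core P hn FL FD hFL' hFD' d d' dpos dpos' m hm
      (max (95 * (P.n : ℤ) / 100 + 1) ((1785 * (P.n : ℤ) - 500 * (d + d')) / 1000 + 1))
      (min (min (205 * (P.n : ℤ) / 100) ((2265 * (P.n : ℤ) - 500 * (d + d')) / 1000))
        (min ((249 * (P.n : ℤ) - 100 * d) / 100) ((249 * (P.n : ℤ) - 100 * d') / 100)))
      (by omega) (anc P.n m) (anc P.n (P.vx m 1)) (anc P.n (P.vx m (P.L - 1))) rfl rfl rfl
      (by
        intro y hy1 hy2
        rw [hvL]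
        have f1 := (le_max_left _ _).trans hy1
        have f2 := (le_max_right _ _).trans hy1
        have f3 := hy2.trans ((min_le_left _ _).trans (min_le_left _ _))
        have f4 := hy2.trans ((min_le_left _ _).trans (min_le_right _ _))
        have f5 := hy2.trans ((min_le_right _ _).trans (min_le_left _ _))
        have f6 := hy2.trans ((min_le_right _ _).trans (min_le_right _ _))
        clear hy1 hy2 hc2 hc3 hex
        refine ⟨⟨?_, ?_⟩, ⟨?_, ?_⟩, ?_, ?_, ⟨?_, ?_⟩, ⟨?_, ?_⟩, ⟨?_, ?_⟩, ?_, ?_⟩ <;> omega)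
      (by
        rw [hvL]
        omega) hc2 hc3
    exact ⟨m, y2, hmF, hy2⟩
  · -- second case
    obtain ⟨m, hm, ho, hs, hlo, hhi, hmF, hmE, hv1, hv2⟩ := hex FC
      ((range P.n).filter (fun m => m % 2 = 1 ∧ ¬ spec P.n m ∧ (nbm P.n P.k m) % 2 = 0 ∧
        3 * (P.n : ℤ) - ((m / 2 : ℕ) : ℤ) - ((nbm P.n P.k m / 2 : ℕ) : ℤ) = d + d'))
      (288 * (P.n : ℤ) / 100 + 1) (292 * (P.n : ℤ) / 100) hFC'
      ((tw_E P hP (d + d')).trans (by norm_num)) (by omega) (by omega) (by omega)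
    have hLe : P.vx m (P.L - 1) = nbm P.n P.k m := vx_last hP hm
    have hLe1 : P.vx m 1 = nbp P.n P.k m := vx_one P m
    have hn2 := PC.nbm_val hm hk
    have hn1 := PC.nbp_val hm hk
    have ham : anc P.n m = 3 * (P.n : ℤ) - ((m / 2 : ℕ) : ℤ) := by
      rcases tw_anc hs with h | h
      · omega
      · exact h.2
    have hv1' := tw_anc hv1
    have hv2' := tw_anc hv2
    have hvlt : P.vx m (P.L - 1) < P.n := Par.vx_lt hP m (P.L - 1)
    have hc2 := gd_nb hP hm ho hs (Or.inr rfl) hv2 dg dpos (by omega) (by omega)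
    have hc3 := gd_nb hP hm ho hs (Or.inr rfl) hv2 dg' dpos' (by omega) (by omega)
    have hmk : m + P.k < P.n := by omega
    rw [if_pos hmk] at hn1
    have hv : P.vx m 1 = m + P.k := hLe1.trans hn1
    rw [hv] at hv1'
    have hc1 : anc P.n m - anc P.n (P.vx m (P.L - 1)) ≠ d + d' := by
      intro h
      have hv2'' : (P.vx m (P.L - 1) % 2 = 0 ∧
          anc P.n (P.vx m (P.L - 1)) = ((P.vx m (P.L - 1) / 2 : ℕ) : ℤ)) ∨
          (P.vx m (P.L - 1) % 2 = 1 ∧
          anc P.n (P.vx m (P.L - 1)) = 3 * (P.n : ℤ) - ((P.vx m (P.L - 1) / 2 : ℕ) : ℤ)) := hv2'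
      rcases hv2'' with ⟨w1, w2⟩ | ⟨w1, w2⟩
      · apply hmE
        rw [mem_filter, mem_range]
        rw [w2, ham] at h
        rw [hLe] at w1 h
        exact ⟨hm, ho, hs, w1, h⟩
      · rw [w2, ham, hLe] at h
        split_ifs at hn2 <;> omega
    obtain ⟨y2, hy2⟩ := tw_core P hn FL FD hFL' hFD' d d' dpos dpos' m hm (P.n : ℤ)
      (min (119 * (P.n : ℤ) / 100) ((2465 * (P.n : ℤ) - 500 * (d + d')) / 1000))
      (by omega) (anc P.n m) (anc P.n (P.vx m 1)) (anc P.n (P.vx m (P.L - 1))) rfl rfl rfl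
      (by
        intro y hy1 hy2
        rw [hv]
        have f3 := hy2.trans (min_le_left _ _)
        have f4 := hy2.trans (min_le_right _ _)
        have hb2 : (0 ≤ anc P.n (P.vx m (P.L - 1)) ∧ 2 * anc P.n (P.vx m (P.L - 1)) ≤ P.n) ∨
            (5 * (P.n : ℤ) ≤ 2 * anc P.n (P.vx m (P.L - 1)) ∧
              anc P.n (P.vx m (P.L - 1)) ≤ 3 * P.n) := by
          have hv2'' : (P.vx m (P.L - 1) % 2 = 0 ∧
            anc P.n (P.vx m (P.L - 1)) = ((P.vx m (P.L - 1) / 2 : ℕ) : ℤ)) ∨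
            (P.vx m (P.L - 1) % 2 = 1 ∧
            anc P.n (P.vx m (P.L - 1)) = 3 * (P.n : ℤ) - ((P.vx m (P.L - 1) / 2 : ℕ) : ℤ)) := hv2'
          rcases hv2'' with ⟨w1, w2⟩ | ⟨w1, w2⟩
          · left
            rw [w2]
            constructor <;> omega
          · right
            rw [w2]
            constructor <;> omega
        clear hy2 hc2 hc3 hc1 hmE hex hv2' hLe hn2
        refine ⟨⟨?_, ?_⟩, ⟨?_, ?_⟩, ?_, ?_, ⟨?_, ?_⟩, ⟨?_, ?_⟩, ⟨?_, ?_⟩, ?_, ?_⟩ <;> omega)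
      hc1 hc2 hc3
    exact ⟨m, y2, hmF, hy2⟩

theorem tw_ex {L p : ℕ} (hA : Adm L p) : ∃ e : ℝ, 0 < e ∧ ∃ g0 : ℕ, ∀ g : ℕ, g0 ≤ g →
    TwEx (Par.mk L p g) e := by
  obtain ⟨ε, hε, g0, hex⟩ := exists_m hA
  refine ⟨min ε (1 / 2000), lt_min hε (by norm_num), max g0 100000, ?_⟩
  intro g hg
  have hg0 : g0 ≤ g := (le_max_left _ _).trans hg
  have hg1 : 100000 ≤ g := (le_max_right _ _).trans hg
  have hP : (Par.mk L p g).Ok := ⟨hA, by show 0 < g; omega⟩
  exact tw_main (Par.mk L p g) hP (hg1.trans hP.g_le_n) (hex g hg0)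

end Pool.Agent.PGo.A
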