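import Pool.Agent.PGo.AGStat
import Pool.Agent.PGo.AGtw
import Pool.Agent.PGo.AGeo
import Pool.Agent.PGo.AGall
import Pool.Agent.PGo.AGtm

/-!
# PGo part A, gadgets: the interface statements
-/

noncomputable section

namespace Pool.Agent.PGo.A

open Finset Pool.Agent.PGr Pool.Agent.PGo.R

theorem TwEx.mono {P : Par} {e e' : ℝ} (h : TwEx P e) (he : e' ≤ e) : TwEx P e' := by
  intro FC FL FD h1 h2 h3
  have hn : (0 : ℝ) ≤ P.n := Nat.cast_nonneg _
  have := mul_le_mul_of_nonneg_right he hn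
  exact h FC FL FD (h1.trans this) (h2.trans this) (h3.trans this)

theorem EoEx.mono {P : Par} {e e' : ℝ} (h : EoEx P e) (he : e' ≤ e) : EoEx P e' := by
  intro FC FL FD h1 h2 h3
  have hn : (0 : ℝ) ≤ P.n := Nat.cast_nonneg _
  have := mul_le_mul_of_nonneg_right he hn
  exact h FC FL FD (h1.trans this) (h2.trans this) (h3.trans this)

theorem situ_of {L p : ℕ} (hA : Adm L p) (hPl : PlantStat L p) : ∃ e : ℝ, 0 < e ∧
    ∀ c : ℝ, 0 < c → ∃ e1 : ℝ, 0 < e1 ∧ ∃ g0 : ℕ, ∀ g : ℕ, g0 ≤ g →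
      ∀ (K0 : ℕ) (LAM1 LAM2 PP A : Finset ℤ), Bits (Par.mk L p g) K0 c LAM1 LAM2 PP A →
      ∀ (ZP DP : Finset ℤ), PP ⊆ ZP → GD (Par.mk L p g) A ⊆ DP → ZP ⊆ zall (Par.mk L p g).n →
      DP ⊆ dall (Par.mk L p g).n →
      ((zall (Par.mk L p g).n \ ZP).card : ℝ) ≤ e / 2 * (Par.mk L p g).n →
      ((dall (Par.mk L p g).n \ DP).card : ℝ) ≤ e / 2 * (Par.mk L p g).n →
      Situ (Par.mk L p g) ZP DP e e1 := by
  obtain ⟨ea, hea, ga, ha⟩ := tw_ex hA
  obtain ⟨eb, heb, gb, hb⟩ := eo_ex hA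
  refine ⟨min ea eb, lt_min hea heb, ?_⟩
  intro c hc
  obtain ⟨e1, he1, g1, h1⟩ := hPl c hc
  refine ⟨e1, he1, max (max ga gb) (max g1 1), ?_⟩
  intro g hg K0 LAM1 LAM2 PP A hB ZP DP hZP hDP hZ hD cZ cD
  have hg1 : 1 ≤ g := by omega
  refine ⟨⟨hA, hg1⟩, (ha g (by omega)).mono (min_le_left _ _), (hb g (by omega)).mono
    (min_le_right _ _), ?_, hZ, hD, cZ, cD⟩
  intro Ps hF hc q hq hm
  exact h1 g (by omega) K0 LAM1 LAM2 PP A hB ZP DP hZP hDP hZ Ps hF hc q hq hm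

theorem absStat {L p : ℕ} (hA : Adm L p) (hPl : PlantStat L p) : AbsStat L p := by
  classical
  obtain ⟨e, he, h⟩ := situ_of hA hPl
  refine ⟨e / 2, by positivity, ?_⟩
  intro c hc
  obtain ⟨e1, he1, g0, h⟩ := h c hc
  have hL : (0 : ℝ) < 2 * (L : ℝ) + 8 := by positivity
  refine ⟨min e1 (e / 2 / (2 * L + 8)), lt_min he1 (by positivity), g0, ?_⟩
  intro g hg K0 LAM1 LAM2 PP A hB FL0 FD0 hFL hFD hPP hFA Ps hPs N H hH hcard
  have hn : (0 : ℝ) ≤ (Par.mk L p g).n := Nat.cast_nonneg _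
  have hS : Situ (Par.mk L p g) (zall (Par.mk L p g).n \ FL0) (dall (Par.mk L p g).n \ FD0) e e1 := by
    refine h g hg K0 LAM1 LAM2 PP A hB _ _ ?_ ?_ sdiff_subset sdiff_subset ?_ ?_
    · intro x hx
      exact mem_sdiff.2 ⟨hB.pp hx, disjoint_left.1 hPP hx⟩
    · intro d hd
      unfold GD at hd
      rw [mem_filter, mem_sdiff] at hd
      exact mem_sdiff.2 ⟨hd.1.1, fun h2 => hd.1.2 (hFA h2)⟩
    · refine le_trans ?_ hFL
      exact_mod_cast card_le_card (fun x hx => by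
        rw [mem_sdiff, mem_sdiff] at hx
        by_contra h2
        exact hx.2 ⟨hx.1, h2⟩)
    · refine le_trans ?_ hFD
      exact_mod_cast card_le_card (fun x hx => by
        rw [mem_sdiff, mem_sdiff] at hx
        by_contra h2
        exact hx.2 ⟨hx.1, h2⟩)
  have hR : Room (Par.mk L p g) e e1 (Ps.card + 3 * ∑ z ∈ range N, (H z).card) := by
    constructor
    · have h1 : ((Ps.card + 3 * ∑ z ∈ range N, (H z).card : ℕ) : ℝ) ≤
          e / 2 / (2 * L + 8) * (Par.mk L p g).n :=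
        hcard.trans (mul_le_mul_of_nonneg_right (min_le_right _ _) hn)
      have h2 := mul_le_mul_of_nonneg_left h1 hL.le
      have h3 : (2 * (L : ℝ) + 8) * (e / 2 / (2 * L + 8) * (Par.mk L p g).n) = e / 2 * (Par.mk L p g).n := by
        field_simp
      rw [h3] at h2
      have h4 : (((2 * (Par.mk L p g).L + 8) * (Ps.card + 3 * ∑ z ∈ range N, (H z).card) : ℕ) : ℝ) =
          (2 * (L : ℝ) + 8) * ((Ps.card + 3 * ∑ z ∈ range N, (H z).card : ℕ) : ℝ) := by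
        rw [Nat.cast_mul]
        congr 1
        have : (Par.mk L p g).L = L := rfl
        rw [this]
        push_cast
        ring
      rw [h4]
      exact h2
    · exact hcard.trans (mul_le_mul_of_nonneg_right (min_le_left _ _) hn)
  refine abs_all hS hPs N H ?_ hR
  intro z hz
  refine ⟨fun d hd => ?_, (hH z hz).2⟩
  have h1 := (hH z hz).1 hd
  have h2 := hB.A_sub (hFA h1)
  unfold AAf at h2
  rw [mem_filter] at h2
  exact ⟨h2.2.1, h2.2.2, fun h3 => (mem_sdiff.1 h3).2 h1⟩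

theorem absorbStat : AbsorbStat := by
  classical
  intro P ZP DP m G H X R1 hF hg hd hX hR hXc hXR hT
  obtain ⟨h1, h2⟩ := absorb_packs hF hg hd hX hXc hR hXR hT
  refine ⟨?_, h2⟩
  rw [← h1, card_union_of_disjoint]
  refine disjoint_left.2 fun x hx hx2 => ?_
  unfold pGG at hx
  rw [mem_biUnion] at hx
  obtain ⟨q, hq, hxq⟩ := hx
  exact disjoint_left.1 hX hx2 ((hF.ok q hq).G_sub hxq)

end Pool.Agent.PGo.A
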