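import Pool.Agent.PGo.AGtri

/-!
# PGo-AGone: gadgets for arbitrary option sets

PLAN. As `chain` and `gad_one` of `PGr/PChain.lean` (read them; no congruence condition, `old r` is
`r ∉ DP \ UD Ps`). `chain`: induction on `mid`, generalizing `Ps` and `r`: `mid = [d]`: `tri_step`.
`mid = d :: mid'`, `mid' ≠ []`: `tri_step` for `r, d` gives `new1`, `s0`; the induction hypothesis for
`Ps ∪ new1` and `s0` (old for `Ps ∪ new1`, because `s0 ∈ pGG new1`; `s0 ∉ mid'` because `s0 ∈ DP`) gives
`new2, s`; compose sharing `s0` (`gad_comp`). `gad_one`: `H = {d1} ∪ mid ∪ {dK}`, `chain` with `r := d1`,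
then `tw_step` with the options `s, dK` (`s ≠ dK` because `s ∈ DP`, `dK ∉ DP`), compose sharing `s`.
Number of new packs `3 (K - 2) + 1`. `Opt` implies `optOk`.
-/

noncomputable section

namespace Pool.Agent.PGo.A

open Finset Pool.Agent.PGr Pool.Agent.PGo.R

variable {P : Par} {ZP DP : Finset ℤ} {e e1 : ℝ}

private theorem G_Dif (p : Pack P) : p.G ⊆ p.Dif := subset_union_right

private theorem UD_mono {Ps Qs : Finset (Pack P)} (h : Ps ⊆ Qs) : UD Ps ⊆ UD Qs :=
  biUnion_subset_biUnion_of_subset_left _ h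

private theorem G_UD {Ps : Finset (Pack P)} {p : Pack P} (h : p ∈ Ps) : p.G ⊆ UD Ps := by
  intro x hx
  exact mem_biUnion.mpr ⟨p, h, G_Dif p hx⟩

private theorem old_G {Ps : Finset (Pack P)} {r : ℤ} (h : r ∉ DP \ UD Ps) {p : Pack P}
    (hp : p.G ⊆ DP) (hd : Disjoint p.Dif (UD Ps)) : r ∉ p.G := fun hr =>
  h (mem_sdiff.2 ⟨hp hr, fun hh => disjoint_left.1 hd (G_Dif p hr) hh⟩)

private theorem pGG_union (A B : Finset (Pack P)) : pGG (A ∪ B) = pGG A ∪ pGG B := by
  ext x
  simp only [pGG, mem_biUnion, mem_union]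
  constructor
  · rintro ⟨p, hp | hp, hx⟩
    · exact Or.inl ⟨p, hp, hx⟩
    · exact Or.inr ⟨p, hp, hx⟩
  · rintro (⟨p, hp, hx⟩ | ⟨p, hp, hx⟩)
    · exact ⟨p, Or.inl hp, hx⟩
    · exact ⟨p, Or.inr hp, hx⟩

private theorem mem_pGG_one {A : Finset (Pack P)} {x : ℤ} : x ∈ pGG A ↔ ∃ p ∈ A, x ∈ p.G := by
  simp only [pGG, mem_biUnion]

private theorem fin4 (r d s : ℤ) (l : List ℤ) :
    ({r, d} ∪ insert s l.toFinset : Finset ℤ) = insert r (insert s (d :: l).toFinset) := by
  ext z
  simp only [mem_insert, mem_union, mem_singleton, List.toFinset_cons]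
  tauto

private theorem fin5 (r d s : ℤ) :
    insert r (insert s [d].toFinset) = ({r, d, s} : Finset ℤ) := by
  ext z
  simp only [mem_insert, List.toFinset_cons, List.toFinset_nil, mem_singleton, insert_empty_eq]
  tauto

private theorem fin6 (A B : Finset (Pack P)) (t : Pack P) : A ∪ (B ∪ {t}) = insert t (A ∪ B) := by
  ext z; simp only [mem_insert, mem_union, mem_singleton]; tauto

private theorem fin7 (r d s : ℤ) : ({r, d, s} : Finset ℤ) = insert s {r, d} := by
  ext z; simp only [mem_insert, mem_singleton]; tauto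

theorem Opt.optOk (hP : P.Ok) {d : ℤ} (h : Opt P DP d) : optOk P d := by
  obtain ⟨h1, h2, _⟩ := h
  refine ⟨?_, h2⟩
  have h3 : (0 : ℤ) ≤ P.n := Int.natCast_nonneg _
  obtain ⟨h4, h5⟩ := h1
  simp only at h4 h5
  refine ⟨?_, h5⟩
  simp only
  linarith

theorem chain (hS : Situ P ZP DP e e1) : ∀ (mid : List ℤ) (Ps : Finset (Pack P)) (r : ℤ),
    mid ≠ [] → mid.Nodup → (∀ d ∈ mid, Opt P DP d) → r ∉ mid → PFam P ZP DP Ps →
    Room P e e1 (Ps.card + 3 * mid.length) → optOk P r → r ∉ DP \ UD Ps →
    ∃ (new : Finset (Pack P)) (s : ℤ), new.card = 3 * mid.length ∧ Disjoint Ps new ∧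
      PFam P ZP DP (Ps ∪ new) ∧ (∀ p ∈ new, Disjoint p.Dif (UD Ps)) ∧ optOk P s ∧
      s ∈ pGG new ∧ PGad new (insert r (insert s mid.toFinset)) ((pGG new).erase s) := by
  intro mid
  induction mid with
  | nil =>
    intro Ps r h0
    exact absurd rfl h0
  | cons d mid ih =>
    intro Ps r _ hnd hAA hrm hF hcard hr hold
    have hdA : Opt P DP d := hAA d List.mem_cons_self
    have hrd : r ≠ d := fun hh => hrm (by rw [hh]; exact List.mem_cons_self)
    rw [List.nodup_cons] at hnd
    rw [List.length_cons] at hcard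
    by_cases hm : mid = []
    · subst hm
      obtain ⟨new, s, k1, k2, k3, k4, k5, k7, k8⟩ := tri_step hS hF
        (hcard.mono (by simp)) hr hold hdA hrd
      refine ⟨new, s, by simpa using k1, k2, k3, k4, k5, k7, ?_⟩
      rw [fin5]
      exact k8
    · obtain ⟨new1, s0, k1, k2, k3, k4, k5, k7, k8⟩ := tri_step hS hF
        (hcard.mono (by omega)) hr hold hdA hrd
      have hPD1 : ∀ p ∈ new1, p.G ⊆ DP := fun p hp => (k3.ok p (mem_union_right _ hp)).G_sub
      have hPG1 : ∀ z ∈ pGG new1, z ∈ DP := by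
        intro z hz
        rw [mem_pGG_one] at hz
        obtain ⟨p, hp, hz⟩ := hz
        exact hPD1 p hp hz
      have hs0 : s0 ∉ mid := fun hh =>
        (hAA s0 (List.mem_cons_of_mem _ hh)).2.2 (hPG1 s0 k7)
      have hUD1 : ∀ z ∈ pGG new1, z ∈ UD (Ps ∪ new1) := by
        intro z hz
        rw [mem_pGG_one] at hz
        obtain ⟨p, hp, hz⟩ := hz
        exact G_UD (mem_union_right _ hp) hz
      have hc : (Ps ∪ new1).card = Ps.card + 3 := by
        rw [card_union_of_disjoint k2, k1]
      obtain ⟨new2, s, l1, l2, l3, l4, l5, l7, l8⟩ := ih (Ps ∪ new1) s0 hm hnd.2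
        (fun z hz => hAA z (List.mem_cons_of_mem _ hz)) hs0 k3
        (by rw [hc]; exact hcard.mono (by omega)) k5
        (fun hh => (mem_sdiff.1 hh).2 (hUD1 s0 k7))
      rw [disjoint_union_left] at l2
      have l4' : ∀ p ∈ new2, Disjoint p.Dif (UD Ps) := fun p hp =>
        (l4 p hp).mono_right (UD_mono subset_union_left)
      have hPD2 : ∀ p ∈ new2, p.G ⊆ DP := fun p hp => (l3.ok p (mem_union_right _ hp)).G_sub
      have hdis : ∀ z ∈ pGG new1, z ∉ pGG new2 := by
        intro z hz hz2
        rw [mem_pGG_one] at hz2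
        obtain ⟨p, hp, hz2⟩ := hz2
        exact disjoint_left.mp (l4 p hp) (G_Dif p hz2) (hUD1 z hz)
      have hr1 : r ∉ pGG new1 := by
        rw [mem_pGG_one]
        rintro ⟨p, hp, hz⟩
        exact old_G hold (hPD1 p hp) (k4 p hp) hz
      have hr2 : r ∉ pGG new2 := by
        rw [mem_pGG_one]
        rintro ⟨p, hp, hz⟩
        exact old_G hold (hPD2 p hp) (l4' p hp) hz
      have hA1 : ∀ z, z ∉ DP → z ∉ pGG new1 := fun z hz hz2 => hz (hPG1 z hz2)
      have hA2 : ∀ z, z ∉ DP → z ∉ pGG new2 := by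
        intro z hz hz2
        rw [mem_pGG_one] at hz2
        obtain ⟨p, hp, hz2⟩ := hz2
        exact hz (hPD2 p hp hz2)
      have hss : s ≠ s0 := fun hh => hdis s0 k7 (hh ▸ l7)
      have hs1 : s ∉ pGG new1 := fun hh => hdis s hh l7
      refine ⟨new1 ∪ new2, s, ?_, ?_, ?_, ?_, l5, ?_, ?_⟩
      · rw [card_union_of_disjoint l2.2, k1, l1, List.length_cons]
        ring
      · rw [disjoint_union_right]
        exact ⟨k2, l2.1⟩
      · rw [← union_assoc]
        exact l3
      · intro p hp
        rw [mem_union] at hp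
        rcases hp with hp | hp
        · exact k4 p hp
        · exact l4' p hp
      · rw [pGG_union]
        exact mem_union_right _ l7
      · have g := gad_comp (r := s0) (O1 := {r, d}) (O2 := insert s mid.toFinset)
          (W1 := (pGG new1).erase s0) (W2 := (pGG new2).erase s) (Ps1 := new1) (Ps2 := new2)
          (by rw [← fin7]; exact k8) l8 l2.2
          (by
            rw [disjoint_left]
            intro z hz hz2
            exact hdis z (mem_of_mem_erase hz) (mem_of_mem_erase hz2))
          (by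
            intro o ho
            simp only [mem_insert, mem_singleton] at ho
            rcases ho with rfl | rfl
            · exact ⟨fun hh => hr2 (mem_of_mem_erase hh), fun hh => hr1 (by rw [hh]; exact k7)⟩
            · exact ⟨fun hh => hA2 _ hdA.2.2 (mem_of_mem_erase hh),
                fun hh => hA1 _ hdA.2.2 (by rw [hh]; exact k7)⟩)
          (by
            intro o ho
            rw [mem_insert] at ho
            rcases ho with ho | ho
            · rw [ho]
              exact ⟨fun hh => hs1 (mem_of_mem_erase hh), hss⟩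
            · rw [List.mem_toFinset] at ho
              have hoA := (hAA o (List.mem_cons_of_mem _ ho)).2.2
              exact ⟨fun hh => hA1 _ hoA (mem_of_mem_erase hh),
                fun hh => hA1 _ hoA (by rw [hh]; exact k7)⟩)
        have w1 : insert s0 ((pGG new1).erase s0 ∪ (pGG new2).erase s) =
            (pGG (new1 ∪ new2)).erase s := by
          rw [pGG_union]
          ext z
          simp only [mem_insert, mem_union, mem_erase]
          constructor
          · rintro (hz | ⟨hz, hz2⟩ | ⟨hz, hz2⟩)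
            · rw [hz]
              exact ⟨hss.symm, Or.inl k7⟩
            · exact ⟨fun hh => hs1 (hh ▸ hz2), Or.inl hz2⟩
            · exact ⟨hz, Or.inr hz2⟩
          · rintro ⟨hz, hz2 | hz2⟩
            · by_cases hz3 : z = s0
              · exact Or.inl hz3
              · exact Or.inr (Or.inl ⟨hz3, hz2⟩)
            · exact Or.inr (Or.inr ⟨hz, hz2⟩)
        rw [← w1, ← fin4]
        exact g

theorem gad_one (hS : Situ P ZP DP e e1) {Ps : Finset (Pack P)} (hF : PFam P ZP DP Ps)
    (H : Finset ℤ) (hH : ∀ d ∈ H, Opt P DP d) (h3 : 3 ≤ H.card)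
    (hR : Room P e e1 (Ps.card + 3 * H.card)) :
    ∃ new : Finset (Pack P), new.card ≤ 3 * H.card ∧ Disjoint Ps new ∧
      PFam P ZP DP (Ps ∪ new) ∧ PGad new H (pGG new) := by
  obtain ⟨L, hLn, hLH⟩ : ∃ L : List ℤ, L.Nodup ∧ L.toFinset = H :=
    ⟨H.toList, H.nodup_toList, H.toList_toFinset⟩
  have hLc : L.length = H.card := by rw [← hLH, List.toFinset_card_of_nodup hLn]
  match L, hLn, hLH, hLc with
  | [], _, _, hLc => simp at hLc; omega
  | [_], _, _, hLc => simp at hLc; omega
  | d1 :: dK :: mid, hLn, hLH, hLc =>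
    rw [List.nodup_cons, List.nodup_cons] at hLn
    obtain ⟨hd1, hdK, hmid⟩ := hLn
    simp only [List.length_cons] at hLc
    have hmem : ∀ z, z ∈ H ↔ z = d1 ∨ z = dK ∨ z ∈ mid := by
      intro z
      rw [← hLH]
      simp
    have hd1A : Opt P DP d1 := hH _ ((hmem d1).mpr (Or.inl rfl))
    have hdKA : Opt P DP dK := hH _ ((hmem dK).mpr (Or.inr (Or.inl rfl)))
    have hmA : ∀ z ∈ mid, Opt P DP z := fun z hz => hH _ ((hmem z).mpr (Or.inr (Or.inr hz)))
    have hm0 : mid ≠ [] := by
      intro hh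
      rw [hh] at hLc
      simp at hLc
      omega
    obtain ⟨new1, s, k1, k2, k3, k4, k5, k7, k8⟩ := chain hS mid Ps d1 hm0 hmid hmA
      (fun hh => hd1 (List.mem_cons_of_mem _ hh)) hF (hR.mono (by omega))
      (hd1A.optOk hS.ok) (fun hh => hd1A.2.2 (mem_sdiff.1 hh).1)
    have hcu : (Ps ∪ new1).card = Ps.card + 3 * mid.length := by
      rw [card_union_of_disjoint k2, k1]
    have hPD1 : ∀ z ∈ pGG new1, z ∈ DP := by
      intro z hz
      rw [mem_pGG_one] at hz
      obtain ⟨p, hp, hz⟩ := hz
      exact (k3.ok p (mem_union_right _ hp)).G_sub hz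
    have hUD1 : ∀ z ∈ pGG new1, z ∈ UD (Ps ∪ new1) := by
      intro z hz
      rw [mem_pGG_one] at hz
      obtain ⟨p, hp, hz⟩ := hz
      exact G_UD (mem_union_right _ hp) hz
    have hsK : s ≠ dK := fun hh => hdKA.2.2 (hh ▸ hPD1 s k7)
    obtain ⟨t1, htP, hF2, hdT, g2⟩ := tw_step hS k3 (hR.mono (by rw [hcu]; omega)) k5
      (hdKA.optOk hS.ok) hsK (fun hh => (mem_sdiff.1 hh).2 (hUD1 s k7))
      (fun hh => hdKA.2.2 (mem_sdiff.1 hh).1)
    have hPDt : t1.G ⊆ DP := (hF2.ok t1 (mem_insert_self _ _)).G_sub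
    have hdis : ∀ z ∈ pGG new1, z ∉ t1.G := by
      intro z hz hz2
      exact disjoint_left.mp hdT (G_Dif t1 hz2) (hUD1 z hz)
    have hA1 : ∀ z, z ∉ DP → z ∉ pGG new1 := fun z hz hz2 => hz (hPD1 z hz2)
    have hAt : ∀ z, z ∉ DP → z ∉ t1.G := fun z hz hz2 => hz (hPDt hz2)
    have ht1n : t1 ∉ new1 := fun hh => htP (mem_union_right _ hh)
    have g := gad_comp (r := s) (O1 := insert d1 mid.toFinset) (O2 := {dK})
      (W1 := (pGG new1).erase s) (W2 := t1.G) (Ps1 := new1) (Ps2 := {t1})
      (by rw [insert_comm]; exact k8) g2 (by rw [disjoint_singleton_right]; exact ht1n)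
      (by
        rw [disjoint_left]
        intro z hz hz2
        exact hdis z (mem_of_mem_erase hz) hz2)
      (by
        intro o ho
        have hoA : o ∉ DP := by
          rw [mem_insert, List.mem_toFinset] at ho
          rcases ho with ho | ho
          · rw [ho]; exact hd1A.2.2
          · exact (hmA o ho).2.2
        exact ⟨hAt o hoA, fun hh => hA1 o hoA (by rw [hh]; exact k7)⟩)
      (by
        intro o ho
        rw [mem_singleton] at ho
        rw [ho]
        exact ⟨fun hh => hA1 dK hdKA.2.2 (mem_of_mem_erase hh),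
          fun hh => hA1 dK hdKA.2.2 (by rw [hh]; exact k7)⟩)
    refine ⟨new1 ∪ {t1}, ?_, ?_, ?_, ?_⟩
    · refine (card_union_le _ _).trans ?_
      rw [k1, card_singleton]
      omega
    · rw [disjoint_union_right, disjoint_singleton_right]
      exact ⟨k2, fun hh => htP (mem_union_left _ hh)⟩
    · rw [fin6]
      exact hF2
    · have w1 : insert s ((pGG new1).erase s ∪ t1.G) = pGG (new1 ∪ {t1}) := by
        rw [pGG_union]
        ext z
        simp only [mem_insert, mem_union, mem_erase]
        have e1 : z ∈ pGG ({t1} : Finset (Pack P)) ↔ z ∈ t1.G := by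
          rw [mem_pGG_one]; simp
        rw [e1]
        constructor
        · rintro (hz | ⟨_, hz⟩ | hz)
          · rw [hz]; exact Or.inl k7
          · exact Or.inl hz
          · exact Or.inr hz
        · rintro (hz | hz)
          · by_cases hz3 : z = s
            · exact Or.inl hz3
            · exact Or.inr (Or.inl ⟨hz3, hz⟩)
          · exact Or.inr (Or.inr hz)
      have w2 : (insert d1 mid.toFinset ∪ {dK} : Finset ℤ) = H := by
        ext z
        rw [hmem, mem_union, mem_insert, mem_singleton, List.mem_toFinset, or_assoc,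
          or_comm (a := z ∈ mid)]
      rw [← w1, ← w2]
      exact g

end Pool.Agent.PGo.A
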