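import Pool.Agent.PGo.AGad
import Pool.Agent.PGo.AFam

/-!
# PGo-AGst: one more two-way pack, one more three-way pack

PLAN. `tw_step`: `TwEx` (`hS.tw`) with `FC = UC Ps`, `FL = (zall \ ZP) ∪ UL Ps`,
`FD = (dall \ DP) ∪ UD Ps`. Sizes: `|UC Ps| ≤ |Ps|`, `|UL Ps| ≤ (L + 3) |Ps|` (`|p.Lab| ≤ L + 3`:
`(pv L).image y` has at most `L` elements, `cJ`), `|UD Ps| ≤ (2 L + 5) |Ps|` (`ix (pv L)` is a subset of
`Bool × Fin L`, `cG`), so with `Room` all are `≤ e n`. `zall \ FL ⊆ ZP \ UL Ps`,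
`dall \ FD ⊆ DP \ UD Ps`; `CoreOk` is monotone (prove it: same fields, `_sub.trans`), so `hS.pl` gives
the pack `r`. `tw_gad` with `ZP := ZP \ UL Ps`, `DP := DP \ UD Ps` (`optOk` gives `0 < d`:
`inR (7, 130)`, `n > 0`).
`eo_step` in the same way with `EoEx` and `eoG_of`; take `s := eoD d (anc P.n m) x b2`.
-/

noncomputable section

namespace Pool.Agent.PGo.A

open Finset Pool.Agent.PGr Pool.Agent.PGo.R

variable {P : Par} {ZP DP : Finset ℤ} {e e1 : ℝ}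

private theorem ags_pos (hP : P.Ok) {a b : ℤ} (ha : 0 < a) {d : ℤ} (h : inR P.n (a, b) d) :
    0 < d := by
  have h1 : a * (P.n : ℤ) ≤ 100 * d := h.1
  have h2 : (0 : ℤ) < (P.n : ℤ) := by exact_mod_cast hP.n_pos
  have h3 : 0 < a * (P.n : ℤ) := mul_pos ha h2
  omega

private theorem ags_mono {Z D Z' D' : Finset ℤ} {q : Core} (h : CoreOk P Z D q) (hZ : Z ⊆ Z')
    (hD : D ⊆ D') : CoreOk P Z' D' q where
  lt := h.lt
  y1Z := hZ h.y1Z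
  y2Z := hZ h.y2Z
  J_sub := h.J_sub.trans hZ
  s1D := hD h.s1D
  s2D := hD h.s2D
  eD := hD h.eD
  G_sub := h.G_sub.trans hD
  y12 := h.y12
  y1J := h.y1J
  y2J := h.y2J
  s12 := h.s12
  s1e := h.s1e
  s2e := h.s2e
  s1G := h.s1G
  s2G := h.s2G
  eG := h.eG
  cJ := h.cJ
  cG := h.cG
  w1 := h.w1
  w2 := h.w2

private theorem ags_sub {A B C : Finset ℤ} : A \ ((A \ B) ∪ C) ⊆ B \ C := by
  intro x hx
  have h1 := mem_sdiff.1 hx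
  rw [mem_union, not_or] at h1
  refine mem_sdiff.2 ⟨?_, h1.2.2⟩
  by_contra hB
  exact h1.2.1 (mem_sdiff.2 ⟨h1.1, hB⟩)

private theorem ags_sizes (hS : Situ P ZP DP e e1) {Ps : Finset (Pack P)} (hF : PFam P ZP DP Ps)
    (hR : Room P e e1 Ps.card) :
    ((UC Ps).card : ℝ) ≤ e * P.n ∧ ((((zall P.n \ ZP) ∪ UL Ps).card : ℕ) : ℝ) ≤ e * P.n ∧
      ((((dall P.n \ DP) ∪ UD Ps).card : ℕ) : ℝ) ≤ e * P.n := by
  have hR1 := hR.1
  have h0 : (0 : ℝ) ≤ (((2 * P.L + 8) * Ps.card : ℕ) : ℝ) := Nat.cast_nonneg _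
  have h1 : (UC Ps).card ≤ (2 * P.L + 8) * Ps.card := by
    rw [UC_card hF]
    exact Nat.le_mul_of_pos_left _ (by omega)
  have h2 : (UL Ps).card ≤ (2 * P.L + 8) * Ps.card :=
    (UL_card hF).trans (Nat.mul_le_mul_right _ (by omega))
  have h3 : (UD Ps).card ≤ (2 * P.L + 8) * Ps.card :=
    (UD_card hF).trans (Nat.mul_le_mul_right _ (by omega))
  have h1' : ((UC Ps).card : ℝ) ≤ (((2 * P.L + 8) * Ps.card : ℕ) : ℝ) := by exact_mod_cast h1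
  have h2' : ((UL Ps).card : ℝ) ≤ (((2 * P.L + 8) * Ps.card : ℕ) : ℝ) := by exact_mod_cast h2
  have h3' : ((UD Ps).card : ℝ) ≤ (((2 * P.L + 8) * Ps.card : ℕ) : ℝ) := by exact_mod_cast h3
  have h4 : ((((zall P.n \ ZP) ∪ UL Ps).card : ℕ) : ℝ) ≤
      ((zall P.n \ ZP).card : ℝ) + ((UL Ps).card : ℝ) := by
    exact_mod_cast card_union_le (zall P.n \ ZP) (UL Ps)
  have h5 : ((((dall P.n \ DP) ∪ UD Ps).card : ℕ) : ℝ) ≤
      ((dall P.n \ DP).card : ℝ) + ((UD Ps).card : ℝ) := by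
    exact_mod_cast card_union_le (dall P.n \ DP) (UD Ps)
  have h6 := hS.cZ
  have h7 := hS.cD
  refine ⟨by linarith, by linarith, by linarith⟩

theorem optOk_pos (hP : P.Ok) {d : ℤ} (h : optOk P d) : 0 < d :=
  ags_pos hP (by norm_num) h.1

theorem tw_step (hS : Situ P ZP DP e e1) {Ps : Finset (Pack P)} (hF : PFam P ZP DP Ps)
    (hR : Room P e e1 Ps.card) {d d' : ℤ} (hd : optOk P d) (hd' : optOk P d') (hdd : d ≠ d')
    (o : d ∉ DP \ UD Ps) (o' : d' ∉ DP \ UD Ps) :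
    ∃ r : Pack P, r ∉ Ps ∧ PFam P ZP DP (insert r Ps) ∧ Disjoint r.Dif (UD Ps) ∧
      PGad {r} {d, d'} r.G := by
  obtain ⟨s1, s2, s3⟩ := ags_sizes hS hF hR
  obtain ⟨m, y2, hm, hq⟩ := hS.tw (UC Ps) ((zall P.n \ ZP) ∪ UL Ps) ((dall P.n \ DP) ∪ UD Ps)
    s1 s2 s3 d d' hd hd' hdd
  have hq' : CoreOk P (ZP \ UL Ps) (DP \ UD Ps) (twCore P d d' m y2) :=
    ags_mono hq ags_sub ags_sub
  obtain ⟨r, hr, hrP, hins, hdis⟩ := hS.pl Ps hF hR.2 _ hq' hm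
  exact ⟨r, hrP, hins, hdis, tw_gad hq' hr (sdiff_subset.trans hS.Ds) (optOk_pos hS.ok hd)
    (optOk_pos hS.ok hd') hdd o o'⟩

theorem eo_step (hS : Situ P ZP DP e e1) {Ps : Finset (Pack P)} (hF : PFam P ZP DP Ps)
    (hR : Room P e e1 Ps.card) {d : ℤ} (hd : inR P.n (10, 130) d) (hg : gd P d) :
    ∃ (r : Pack P) (s : Fin 5 → ℤ), r ∉ Ps ∧ PFam P ZP DP (insert r Ps) ∧
      Disjoint r.Dif (UD Ps) ∧ EoG r d s ∧ optOk P (s 0) ∧ optOk P (s 1) ∧ optOk P (s 3) ∧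
      optOk P (s 4) := by
  obtain ⟨s1, s2, s3⟩ := ags_sizes hS hF hR
  obtain ⟨m, x, b2, hm, hq, hi, o0, o1, o3, o4⟩ := hS.eo (UC Ps) ((zall P.n \ ZP) ∪ UL Ps)
    ((dall P.n \ DP) ∪ UD Ps) s1 s2 s3 d hd hg
  have hq' : CoreOk P (ZP \ UL Ps) (DP \ UD Ps) (eoCore P d m x b2) :=
    ags_mono hq ags_sub ags_sub
  obtain ⟨r, hr, hrP, hins, hdis⟩ := hS.pl Ps hF hR.2 _ hq' hm
  exact ⟨r, eoD d (anc P.n m) x b2, hrP, hins, hdis,
    eoG_of hq' hr hi (sdiff_subset.trans hS.Ds) (ags_pos hS.ok (by norm_num) hd), o0, o1, o3, o4⟩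

end Pool.Agent.PGo.A
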