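import Pool.Agent.PGo.AGst

/-!
# PGo-AGtri: three packs with the options r, d and a new one

PLAN. As `tri_step` of `PGr/PChain.lean` (read it; here `old r` is `r ∉ DP \ UD Ps`, there are no
units and no congruences): `eo_step` for `Ps`, `d`: pack `e`, `s = (al', be, ga, al'', be')`, all
private differences of `e` lie in `DP \ UD Ps` (`PFam.ok`, `G_sub`, `Disjoint r.Dif (UD Ps)`). Then
`tw_step` for `insert e Ps` with the options `r, s 0` (`r ≠ s 0`: `r` is old, `s 0` is new; `s 0` is old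
for `insert e Ps`, `r` too): pack `t1`; then `tw_step` for `insert t1 (insert e Ps)` with `s 1, s 4`:
pack `t2`. `new = {e, t1, t2}`. `eo_gad`: `PGad {e, t2} {d, s 0, s 3} ({s 1, s 2, s 4} ∪ t2.G)`,
`t1`: `PGad {t1} {r, s 0} t1.G`; compose with the shared option `s 0` (`gad_comp`, `r := s 0`,
`O1 = {r}`, `O2 = {d, s 3}`): options `{r, d, s 3}`, private
`insert (s 0) (t1.G ∪ ({s 1, s 2, s 4} ∪ t2.G)) = (pGG new).erase (s 3)` because `e.G = image s` and the
`G`s of different packs are disjoint (`PFam.dif`, `G ⊆ Dif`). Output `s := s 3`.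
`d` and `r` are not in the new `G`s (`⊆ DP \ UD Ps`). `Room` is monotone (smaller `N`).
-/

noncomputable section

namespace Pool.Agent.PGo.A

open Finset Pool.Agent.PGr Pool.Agent.PGo.R

variable {P : Par} {ZP DP : Finset ℤ} {e e1 : ℝ}

theorem Room.mono {N N' : ℕ} (h : Room P e e1 N) (hN : N' ≤ N) : Room P e e1 N' := by
  refine ⟨le_trans ?_ h.1, le_trans ?_ h.2⟩
  · exact_mod_cast Nat.mul_le_mul_left _ hN
  · exact_mod_cast hN

private theorem G_Dif (p : Pack P) : p.G ⊆ p.Dif := subset_union_right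

private theorem UD_mono' {Ps Qs : Finset (Pack P)} (h : Ps ⊆ Qs) : UD Ps ⊆ UD Qs := by
  unfold UD
  exact biUnion_subset_biUnion_of_subset_left _ h

private theorem Dif_UD {Ps : Finset (Pack P)} {p : Pack P} (h : p ∈ Ps) : p.Dif ⊆ UD Ps := by
  unfold UD
  intro x hx
  exact mem_biUnion.mpr ⟨p, h, hx⟩

private theorem G_DP {Ps : Finset (Pack P)} (h : PFam P ZP DP Ps) {p : Pack P} (hp : p ∈ Ps) :
    p.G ⊆ DP := (h.ok p hp).G_sub

private theorem old_mono {Ps Qs : Finset (Pack P)} (h : Ps ⊆ Qs) {r : ℤ} (hr : r ∉ DP \ UD Ps) :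
    r ∉ DP \ UD Qs := by
  intro hh
  rw [mem_sdiff] at hh
  exact hr (mem_sdiff.2 ⟨hh.1, fun h2 => hh.2 (UD_mono' h h2)⟩)

private theorem old_G {Ps : Finset (Pack P)} {r : ℤ} (h : r ∉ DP \ UD Ps)
    {p : Pack P} (hp : p.G ⊆ DP) (hd : Disjoint p.Dif (UD Ps)) : r ∉ p.G := by
  intro hr
  exact h (mem_sdiff.2 ⟨hp hr, fun h2 => disjoint_left.mp hd (G_Dif p hr) h2⟩)

private theorem mem_pGG_tri {A : Finset (Pack P)} {x : ℤ} : x ∈ pGG A ↔ ∃ p ∈ A, x ∈ p.G := by
  simp only [pGG, mem_biUnion]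

private theorem fin1 {α : Type} [DecidableEq α] (P : Finset α) (e t1 t2 : α) :
    P ∪ {e, t1, t2} = insert t2 (insert t1 (insert e P)) := by
  ext p
  simp only [mem_union, mem_insert, mem_singleton]
  tauto

private theorem fin2 {α : Type} [DecidableEq α] (a b c : α) :
    ({b} ∪ {a, c} : Finset α) = {a, b, c} := by
  ext z; simp only [mem_union, mem_insert, mem_singleton]; tauto

theorem tri_step (hS : Situ P ZP DP e e1) {Ps : Finset (Pack P)} (hF : PFam P ZP DP Ps)
    (hR : Room P e e1 (Ps.card + 3)) {r d : ℤ} (hr : optOk P r) (hro : r ∉ DP \ UD Ps)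
    (hd : Opt P DP d) (hrd : r ≠ d) :
    ∃ (new : Finset (Pack P)) (s : ℤ), new.card = 3 ∧ Disjoint Ps new ∧
      PFam P ZP DP (Ps ∪ new) ∧ (∀ p ∈ new, Disjoint p.Dif (UD Ps)) ∧ optOk P s ∧
      s ∈ pGG new ∧ PGad new {r, d, s} ((pGG new).erase s) := by
  -- the three-way pack
  obtain ⟨q, s, hqP, hF1, hdE, hEG, ok0, ok1, ok3, ok4⟩ :=
    eo_step hS hF (hR.mono (by omega)) hd.1 hd.2.1
  have sG : ∀ i, s i ∈ q.G := by
    intro i
    rw [hEG.G]
    exact mem_image_of_mem _ (mem_univ _)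
  have sD : ∀ i, ∀ Qs : Finset (Pack P), q ∈ Qs → s i ∉ DP \ UD Qs := by
    intro i Qs hQ hh
    exact (mem_sdiff.1 hh).2 (Dif_UD hQ (G_Dif q (sG i)))
  have PDe : q.G ⊆ DP := G_DP hF1 (mem_insert_self _ _)
  have re : r ∉ q.G := old_G hro PDe hdE
  have ral : r ≠ s 0 := fun hh => re (hh ▸ sG 0)
  -- the first two-way pack
  have hc1' : (insert q Ps).card = Ps.card + 1 := card_insert_of_notMem hqP
  obtain ⟨t1, ht1P, hF2, hdT1, g2⟩ := tw_step hS hF1 (hR.mono (by omega)) hr ok0 ral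
    (old_mono (subset_insert _ _) hro) (sD 0 _ (mem_insert_self _ _))
  have hc2' : (insert t1 (insert q Ps)).card = Ps.card + 2 := by
    rw [card_insert_of_notMem ht1P, hc1']
  obtain ⟨t2, ht2P, hF3, hdT2, g1'⟩ := tw_step hS hF2 (hR.mono (by omega)) ok1 ok4
    (fun hh => absurd (hEG.inj hh) (by decide)) (sD 1 _ (mem_insert_of_mem (mem_insert_self _ _)))
    (sD 4 _ (mem_insert_of_mem (mem_insert_self _ _)))
  -- memberships
  have e1' : t1 ≠ q := fun hh => ht1P (by rw [hh]; exact mem_insert_self _ _)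
  have e2 : t2 ≠ t1 := fun hh => ht2P (by rw [hh]; exact mem_insert_self _ _)
  have e3 : t2 ≠ q := fun hh => ht2P (by rw [hh]; exact mem_insert_of_mem (mem_insert_self _ _))
  have hfam : Ps ∪ {q, t1, t2} = insert t2 (insert t1 (insert q Ps)) := fin1 _ _ _ _
  have me : q ∈ insert t2 (insert t1 (insert q Ps)) :=
    mem_insert_of_mem (mem_insert_of_mem (mem_insert_self _ _))
  have m1' : t1 ∈ insert t2 (insert t1 (insert q Ps)) := mem_insert_of_mem (mem_insert_self _ _)
  have m2' : t2 ∈ insert t2 (insert t1 (insert q Ps)) := mem_insert_self _ _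
  have PD1 : t1.G ⊆ DP := G_DP hF3 m1'
  have PD2 : t2.G ⊆ DP := G_DP hF3 m2'
  have de1 : Disjoint q.G t1.G :=
    (hF3.dif q me t1 m1' e1'.symm).mono (G_Dif q) (G_Dif t1)
  have de2 : Disjoint q.G t2.G :=
    (hF3.dif q me t2 m2' e3.symm).mono (G_Dif q) (G_Dif t2)
  have d12 : Disjoint t1.G t2.G :=
    (hF3.dif t1 m1' t2 m2' e2.symm).mono (G_Dif t1) (G_Dif t2)
  have hdT1' : Disjoint t1.Dif (UD Ps) := hdT1.mono_right (UD_mono' (subset_insert _ _))
  have hdT2' : Disjoint t2.Dif (UD Ps) :=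
    hdT2.mono_right (UD_mono' ((subset_insert _ _).trans (subset_insert _ _)))
  have heG : q.G = {s 0, s 1, s 2, s 3, s 4} := by
    rw [hEG.G]
    ext z
    simp only [mem_image, mem_univ, true_and, mem_insert, mem_singleton]
    constructor
    · rintro ⟨j, rfl⟩
      fin_cases j
      · exact Or.inl rfl
      · exact Or.inr (Or.inl rfl)
      · exact Or.inr (Or.inr (Or.inl rfl))
      · exact Or.inr (Or.inr (Or.inr (Or.inl rfl)))
      · exact Or.inr (Or.inr (Or.inr (Or.inr rfl)))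
    · rintro (h | h | h | h | h)
      · exact ⟨0, h.symm⟩
      · exact ⟨1, h.symm⟩
      · exact ⟨2, h.symm⟩
      · exact ⟨3, h.symm⟩
      · exact ⟨4, h.symm⟩
  have nd1 : s 0 ≠ s 3 := fun hh => absurd (hEG.inj hh) (by decide)
  have nd2 : s 1 ≠ s 3 := fun hh => absurd (hEG.inj hh) (by decide)
  have nd3 : s 2 ≠ s 3 := fun hh => absurd (hEG.inj hh) (by decide)
  have nd4 : s 4 ≠ s 3 := fun hh => absurd (hEG.inj hh) (by decide)
  -- old numbers are not new
  have r1 : r ∉ t1.G := old_G hro PD1 hdT1'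
  have r2 : r ∉ t2.G := old_G hro PD2 hdT2'
  have dPD : d ∉ DP := hd.2.2
  have dde : d ∉ q.G := fun hh => dPD (PDe hh)
  have dd1 : d ∉ t1.G := fun hh => dPD (PD1 hh)
  have dd2 : d ∉ t2.G := fun hh => dPD (PD2 hh)
  have dal : d ≠ s 0 := fun hh => dde (hh ▸ sG 0)
  -- gadgets
  have g1 : PGad {q, t2} {d, s 0, s 3} ({s 1, s 2, s 4} ∪ t2.G) :=
    eo_gad hEG g1' e3.symm de2 dde dd2
  have g3 : PGad ({t1} ∪ {q, t2}) ({r} ∪ {d, s 3})
      (insert (s 0) (t1.G ∪ ({s 1, s 2, s 4} ∪ t2.G))) := by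
    apply gad_comp (r := s 0) (O1 := {r}) (O2 := {d, s 3})
    · rw [pair_comm] at g2
      exact g2
    · rw [insert_comm] at g1
      exact g1
    · rw [disjoint_singleton_left]
      simp only [mem_insert, mem_singleton, not_or]
      exact ⟨e1', e2.symm⟩
    · rw [disjoint_union_right]
      refine ⟨?_, d12⟩
      rw [disjoint_left]
      intro z hz hz2
      simp only [mem_insert, mem_singleton] at hz2
      rcases hz2 with rfl | rfl | rfl
      · exact disjoint_left.mp de1 (sG 1) hz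
      · exact disjoint_left.mp de1 (sG 2) hz
      · exact disjoint_left.mp de1 (sG 4) hz
    · intro o ho
      rw [mem_singleton] at ho
      subst ho
      refine ⟨?_, ral⟩
      simp only [mem_union, mem_insert, mem_singleton, not_or]
      exact ⟨⟨fun hh => re (hh ▸ sG 1), fun hh => re (hh ▸ sG 2), fun hh => re (hh ▸ sG 4)⟩, r2⟩
    · intro o ho
      simp only [mem_insert, mem_singleton] at ho
      rcases ho with rfl | rfl
      · exact ⟨dd1, dal⟩
      · exact ⟨fun hh => disjoint_left.mp de1 (sG 3) hh, nd1.symm⟩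
  refine ⟨{q, t1, t2}, s 3, ?_, ?_, ?_, ?_, ok3, ?_, ?_⟩
  · rw [card_insert_of_notMem, card_insert_of_notMem, card_singleton]
    · rw [mem_singleton]; exact e2.symm
    · simp only [mem_insert, mem_singleton, not_or]; exact ⟨e1'.symm, e3.symm⟩
  · rw [disjoint_right]
    intro p hp
    simp only [mem_insert, mem_singleton] at hp
    rcases hp with hp | hp | hp
    · rw [hp]; exact hqP
    · rw [hp]; exact fun hh => ht1P (mem_insert_of_mem hh)
    · rw [hp]; exact fun hh => ht2P (mem_insert_of_mem (mem_insert_of_mem hh))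
  · rw [hfam]; exact hF3
  · intro p hp
    simp only [mem_insert, mem_singleton] at hp
    rcases hp with hp | hp | hp
    · rw [hp]; exact hdE
    · rw [hp]; exact hdT1'
    · rw [hp]; exact hdT2'
  · rw [mem_pGG_tri]
    exact ⟨q, mem_insert_self _ _, sG 3⟩
  · have w1 : ({t1} ∪ {q, t2} : Finset (Pack P)) = {q, t1, t2} := fin2 _ _ _
    have w2 : ({r} ∪ {d, s 3} : Finset ℤ) = {r, d, s 3} := by
      ext z; simp only [mem_union, mem_insert, mem_singleton]
    have w3 : insert (s 0) (t1.G ∪ ({s 1, s 2, s 4} ∪ t2.G)) = (pGG {q, t1, t2}).erase (s 3) := by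
      have w4 : pGG {q, t1, t2} = q.G ∪ (t1.G ∪ t2.G) := by
        ext z
        rw [mem_pGG_tri]
        simp only [mem_union, mem_insert, mem_singleton, exists_eq_or_imp, exists_eq_left]
      have f1 : s 3 ∉ t1.G := fun hh => disjoint_left.mp de1 (sG 3) hh
      have f2 : s 3 ∉ t2.G := fun hh => disjoint_left.mp de2 (sG 3) hh
      rw [w4, heG]
      ext z
      simp only [mem_union, mem_insert, mem_singleton, mem_erase]
      constructor
      · rintro (hz | hz | (hz | hz | hz) | hz)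
        · exact ⟨by rw [hz]; exact nd1, Or.inl (Or.inl hz)⟩
        · exact ⟨fun hh => f1 (hh ▸ hz), Or.inr (Or.inl hz)⟩
        · exact ⟨by rw [hz]; exact nd2, Or.inl (Or.inr (Or.inl hz))⟩
        · exact ⟨by rw [hz]; exact nd3, Or.inl (Or.inr (Or.inr (Or.inl hz)))⟩
        · exact ⟨by rw [hz]; exact nd4, Or.inl (Or.inr (Or.inr (Or.inr (Or.inr hz))))⟩
        · exact ⟨fun hh => f2 (hh ▸ hz), Or.inr (Or.inr hz)⟩
      · rintro ⟨hz0, (hz | hz | hz | hz | hz) | hz | hz⟩
        · exact Or.inl hz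
        · exact Or.inr (Or.inr (Or.inl (Or.inl hz)))
        · exact Or.inr (Or.inr (Or.inl (Or.inr (Or.inl hz))))
        · exact absurd hz hz0
        · exact Or.inr (Or.inr (Or.inl (Or.inr (Or.inr hz))))
        · exact Or.inr (Or.inl hz)
        · exact Or.inr (Or.inr (Or.inr hz))
    rw [← w3, ← w1, ← w2]
    exact g3

end Pool.Agent.PGo.A
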