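import Pool.Agent.PGo.RBase

/-!
# PGo-R1M: the subset `R1` of `A`

PLAN.  `PGr.random_subset K1 (min c c')` (Pool/Agent/PGr/RS.lean) with `n := P.n`, `A`, the index type
`F := (ℕ × ℤ × ℤ) ⊕ ℤ`, `J' := ℤ ⊕ J`: family `(v, z1, z2)` (with the conditions of (DEF)): the labels
`x ∈ LAM2` with `Df3 A x (anc v) z1 z2`, `e = {|x - anc v|, |x - z1|, |x - z2|}` (`⊆ A`, at most 3 elements, every `a`
occurs for at most 6 values of `x`); family `d ∈ Dc`: `S d`, `e d`.  Number of families at most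
`n (3n+1)^2 + (3n+2) ≤ n ^ 4` for large `n`.  `e ⊆ R1` and `Df3 A x ...` give `Df3 R1 x ...`.
`P.n ≥ g` (`Par.n`, `L ≥ 3`), so `g0 := max n₀ 100` works.
-/

noncomputable section

namespace Pool.Agent.PGo.R

open Finset Pool.Agent.PGr

private def tr (n : ℕ) (t : ℕ × ℤ × ℤ) (x : ℤ) : Finset ℤ :=
  {|x - anc n t.1|, |x - t.2.1|, |x - t.2.2|}

private theorem tr_card (n : ℕ) (t : ℕ × ℤ × ℤ) (x : ℤ) : (tr n t x).card ≤ 3 :=
  card_le_three

private theorem tr_sub {n : ℕ} {t : ℕ × ℤ × ℤ} {x : ℤ} {A : Finset ℤ}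
    (h : Df3 A x (anc n t.1) t.2.1 t.2.2) : tr n t x ⊆ A := by
  intro y hy
  unfold tr at hy
  rw [mem_insert, mem_insert, mem_singleton] at hy
  rcases hy with rfl | rfl | rfl
  · exact h.1
  · exact h.2.1
  · exact h.2.2.1

private theorem tr_df {n : ℕ} {t : ℕ × ℤ × ℤ} {x : ℤ} {A R : Finset ℤ}
    (h : Df3 A x (anc n t.1) t.2.1 t.2.2) (hR : tr n t x ⊆ R) :
    Df3 R x (anc n t.1) t.2.1 t.2.2 := by
  refine ⟨hR ?_, hR ?_, hR ?_, h.2.2.2⟩
  · unfold tr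
    simp
  · unfold tr
    simp
  · unfold tr
    simp

/-- a difference occurs for at most six labels -/
private theorem tr_deg (n : ℕ) (t : ℕ × ℤ × ℤ) (T : Finset ℤ) (a : ℤ)
    (hT : ∀ x ∈ T, a ∈ tr n t x) : T.card ≤ 20 := by
  have h1 : T ⊆ ({anc n t.1 + a, anc n t.1 - a, t.2.1 + a, t.2.1 - a, t.2.2 + a, t.2.2 - a} :
      Finset ℤ) := by
    intro x hx
    have h2 := hT x hx
    unfold tr at h2
    rw [mem_insert, mem_insert, mem_singleton] at h2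
    simp only [mem_insert, mem_singleton]
    rcases h2 with h2 | h2 | h2
    · rcases abs_cases (x - anc n t.1) with h3 | h3 <;> omega
    · rcases abs_cases (x - t.2.1) with h3 | h3 <;> omega
    · rcases abs_cases (x - t.2.2) with h3 | h3 <;> omega
  exact (card_le_card h1).trans (card_le_six.trans (by norm_num))

theorem r1 {L p : ℕ} (h : Adm L p) : R1Stat L p := by
  classical
  intro K1 c c' hK hc hc'
  obtain ⟨n₀, hn₀⟩ := random_subset (α := ℤ) K1 hK (min c c') (lt_min hc hc')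
  refine ⟨max n₀ 100, fun g hg K0 LAM1 LAM2 PP A hB J Dc S e hDc he hdeg hS => ?_⟩
  obtain ⟨P, hP⟩ : ∃ P, P = Par.mk L p g := ⟨_, rfl⟩
  rw [← hP] at hB hDc hS ⊢
  have hgn : g ≤ P.n := by
    rw [hP]
    show g ≤ L * g
    have h3 := h.three
    nlinarith
  obtain ⟨n, hn⟩ : ∃ n, n = P.n := ⟨_, rfl⟩
  have hAc := hB.A_card
  have hdefi := hB.defi
  rw [← hn] at hAc hdefi hDc hS hgn ⊢
  have hn0 : n₀ ≤ n := (le_max_left _ _).trans (hg.trans hgn)
  have hn100 : 100 ≤ n := (le_max_right _ _).trans (hg.trans hgn)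
  have hnR : (0 : ℝ) ≤ n := Nat.cast_nonneg n
  have hK0 : (0 : ℝ) < K1 := by exact_mod_cast hK
  obtain ⟨Z, hZ⟩ : ∃ Z : Finset ℤ, Z = Icc 0 (3 * (n : ℤ)) := ⟨_, rfl⟩
  obtain ⟨Fam1, hF1⟩ : ∃ Fam1 : Finset (ℕ × ℤ × ℤ), Fam1 = ((range n) ×ˢ Z ×ˢ Z).filter
    (fun t => inR n (70, 230) t.2.1 ∧ inR n (70, 230) t.2.2 ∧ t.2.1 ≠ t.2.2 ∧
      t.2.1 ≠ anc n t.1 ∧ t.2.2 ≠ anc n t.1) := ⟨_, rfl⟩
  obtain ⟨S', hS'⟩ : ∃ S' : (ℕ × ℤ × ℤ) ⊕ ℤ → Finset (ℤ ⊕ J), S' =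
    Sum.elim (fun t => (LAM2.filter (fun x => Df3 A x (anc n t.1) t.2.1 t.2.2)).map
      ⟨Sum.inl, Sum.inl_injective⟩) (fun d => (S d).map ⟨Sum.inr, Sum.inr_injective⟩) := ⟨_, rfl⟩
  obtain ⟨e', he'⟩ : ∃ e' : (ℕ × ℤ × ℤ) ⊕ ℤ → ℤ ⊕ J → Finset ℤ, e' =
    Sum.elim (fun t => Sum.elim (fun x => tr n t x) (fun _ => ∅))
      (fun d => Sum.elim (fun _ => ∅) (fun j => e d j)) := ⟨_, rfl⟩
  have hSl : ∀ t, S' (Sum.inl t) = (LAM2.filter (fun x => Df3 A x (anc n t.1) t.2.1 t.2.2)).map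
      ⟨Sum.inl, Sum.inl_injective⟩ := by
    intro t
    rw [hS']
    rfl
  have hSr : ∀ d, S' (Sum.inr d) = (S d).map ⟨Sum.inr, Sum.inr_injective⟩ := by
    intro d
    rw [hS']
    rfl
  have hel : ∀ t x, e' (Sum.inl t) (Sum.inl x) = tr n t x := by
    intro t x
    rw [he']
    rfl
  have her : ∀ d j, e' (Sum.inr d) (Sum.inr j) = e d j := by
    intro d j
    rw [he']
    rfl
  have hmin1 : min c c' ≤ c := min_le_left _ _
  have hmin2 : min c c' ≤ c' := min_le_right _ _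
  have hA' : min c c' * n ≤ (A.card : ℝ) :=
    (mul_le_mul_of_nonneg_right hmin1 hnR).trans hAc
  have hdl : ∀ t ∈ Fam1, c * n ≤
      ((LAM2.filter fun x => Df3 A x (anc n t.1) t.2.1 t.2.2).card : ℝ) := by
    intro t ht
    rw [hF1, mem_filter, mem_product, mem_range] at ht
    obtain ⟨⟨h1, _⟩, h2, h3, h4, h5, h6⟩ := ht
    exact hdefi t.1 h1 t.2.1 t.2.2 h2 h3 h4 h5 h6
  have hcard : ((Fam1.disjSum Dc).card : ℝ) ≤ (n : ℝ) ^ 4 := by
    rw [card_disjSum]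
    have h1 : Fam1.card ≤ n * ((3 * n + 1) * (3 * n + 1)) := by
      rw [hF1]
      refine (card_filter_le _ _).trans ?_
      rw [card_product, card_product, card_range, hZ, Int.card_Icc]
      exact le_rfl
    have h2 : Dc.card ≤ 2 * n + 2 := by
      have h3 : Dc ⊆ Icc 1 (2 * (n : ℤ) + 2) := by
        intro d hd
        rw [mem_Icc]
        exact dall_range (hDc hd)
      refine (card_le_card h3).trans ?_
      rw [Int.card_Icc]
      omega
    have h3 : Fam1.card + Dc.card ≤ n ^ 4 := by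
      have h4 : n * ((3 * n + 1) * (3 * n + 1)) + (2 * n + 2) ≤ n ^ 4 := by
        obtain ⟨m, rfl⟩ : ∃ m, n = 100 + m := ⟨n - 100, by omega⟩
        have e1 : (100 + m) ^ 4 = (100 + m) * ((3 * (100 + m) + 1) * (3 * (100 + m) + 1)) +
          (2 * (100 + m) + 2) + (m ^ 4 + 391 * m ^ 3 + 57294 * m ^ 2 + 3728797 * m + 90939698) := by
          ring
        omega
      omega
    exact_mod_cast h3
  have hsub : ∀ f ∈ Fam1.disjSum Dc, ∀ j ∈ S' f, e' f j ⊆ A ∧ (e' f j).card ≤ 3 := by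
    intro f hf j hj
    rw [mem_disjSum] at hf
    rcases hf with ⟨t, ht, rfl⟩ | ⟨d, hd, rfl⟩
    · rw [hSl, mem_map] at hj
      obtain ⟨x, hx, rfl⟩ := hj
      rw [mem_filter] at hx
      change e' (Sum.inl t) (Sum.inl x) ⊆ A ∧ (e' (Sum.inl t) (Sum.inl x)).card ≤ 3
      rw [hel]
      exact ⟨tr_sub hx.2, tr_card _ _ _⟩
    · rw [hSr, mem_map] at hj
      obtain ⟨x, hx, rfl⟩ := hj
      change e' (Sum.inr d) (Sum.inr x) ⊆ A ∧ (e' (Sum.inr d) (Sum.inr x)).card ≤ 3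
      rw [her]
      exact he d hd x hx
  have hdg : ∀ f ∈ Fam1.disjSum Dc, ∀ a, ((S' f).filter fun j => a ∈ e' f j).card ≤ 20 := by
    intro f hf a
    rw [mem_disjSum] at hf
    rcases hf with ⟨t, ht, rfl⟩ | ⟨d, hd, rfl⟩
    · rw [hSl, filter_map, card_map]
      refine tr_deg n t _ a fun x hx => ?_
      rw [mem_filter] at hx
      have h1 : a ∈ e' (Sum.inl t) (Sum.inl x) := hx.2
      rw [hel] at h1
      exact h1
    · rw [hSr, filter_map, card_map]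
      refine (card_le_card fun j hj => ?_).trans (hdeg d hd a)
      rw [mem_filter] at hj ⊢
      have h1 : a ∈ e' (Sum.inr d) (Sum.inr j) := hj.2
      rw [her] at h1
      exact ⟨hj.1, h1⟩
  have hsz : ∀ f ∈ Fam1.disjSum Dc, min c c' * n ≤ ((S' f).card : ℝ) := by
    intro f hf
    rw [mem_disjSum] at hf
    rcases hf with ⟨t, ht, rfl⟩ | ⟨d, hd, rfl⟩
    · rw [hSl, card_map]
      exact (mul_le_mul_of_nonneg_right hmin1 hnR).trans (hdl t ht)
    · rw [hSr, card_map]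
      exact (mul_le_mul_of_nonneg_right hmin2 hnR).trans (hS d hd)
  obtain ⟨R1, hR1, c1, c2, c3⟩ := hn₀ n hn0 A hA' (Fam1.disjSum Dc) S' e' hcard hsub hdg hsz
  refine ⟨R1, hR1, c1, c2, ?_, ?_⟩
  · intro v hv z1 z2 h1 h2 h3 h4 h5
    have hzI : ∀ z : ℤ, inR n (70, 230) z → z ∈ Z := by
      intro z hz
      rw [hZ, mem_Icc]
      unfold inR at hz
      simp only at hz
      constructor <;> omega
    have ht : (v, z1, z2) ∈ Fam1 := by
      rw [hF1, mem_filter, mem_product, mem_product, mem_range]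
      exact ⟨⟨hv, hzI z1 h1, hzI z2 h2⟩, h1, h2, h3, h4, h5⟩
    have h6 := c3 (Sum.inl (v, z1, z2)) (by
      rw [mem_disjSum]
      exact Or.inl ⟨_, ht, rfl⟩)
    have h7 := hdl _ ht
    rw [hSl, card_map, filter_map, card_map] at h6
    have h8 : c * n / (2 * (K1 : ℝ) ^ 3) ≤
        ((LAM2.filter fun x => Df3 A x (anc n v) z1 z2).card : ℝ) / (2 * (K1 : ℝ) ^ 3) :=
      div_le_div_of_nonneg_right h7 (by positivity)
    refine h8.trans (h6.trans ?_)
    norm_cast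
    refine card_le_card fun x hx => ?_
    rw [mem_filter, mem_filter] at hx
    rw [mem_filter]
    have h9 : e' (Sum.inl (v, z1, z2)) (Sum.inl x) ⊆ R1 := hx.2
    rw [hel] at h9
    exact ⟨hx.1.1, tr_df hx.1.2 h9⟩
  · intro d hd
    have h6 := c3 (Sum.inr d) (by
      rw [mem_disjSum]
      exact Or.inr ⟨_, hd, rfl⟩)
    rw [hSr, card_map, filter_map, card_map] at h6
    refine h6.trans ?_
    norm_cast
    refine card_le_card fun x hx => ?_
    rw [mem_filter] at hx ⊢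
    have h9 : e' (Sum.inr d) (Sum.inr x) ⊆ R1 := hx.2
    rw [her] at h9
    exact ⟨hx.1, h9⟩

end Pool.Agent.PGo.R
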