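import Pool.Agent.PGr.RS

/-!
# PGo-RB: random bits

PLAN.  `Ω = Fin K`, index set `↥A` (or all `T f j` as subsets of the subtype, as in
`PGr.random_subset` in Pool/Agent/PGr/RS.lean, which is the model of this proof).  For `f ∈ Fam`: with
`t := |S f| / (2 K ^ k)` and mean `∑ j, ∏ i ∈ T j, Pr (G j i) ≥ |S f| / K ^ k` (every factor is
`≥ 1 / K`, at most `k` factors), `PGr.Pr_cntFam` with `V = k * m f * |S f|` bounds the probability of
`#successes < |S f| / (2 K ^ k)` by `2 exp (-(|S f| / (8 k m K ^ (2 k)))) ≤ 2 exp (-(c / (8 k K ^ (2k))) n)`.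
Union bound: at most `n ^ 5` families: total `< 1/3` for large `n`.
The set `U`: the mean of `#{x ∈ U : ω x ∈ H}` is `|U| * |H| / K`, by Markov the probability of
`≥ 3 |U| |H| / K` is `≤ 1 / 3` (if `|U| |H| = 0` trivial) (`Ex_sum`, `Pr` of one coordinate:
`PGr.Pr_pi_forall` or similar, see Prob.lean, PrProd.lean).
-/

namespace Pool.Agent.PGo.R

open Finset Pool.Agent.PGr

private theorem mf {β : Type*} {p : β → Prop} {inst : DecidablePred p} {s : Finset β} {a : β} :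
    a ∈ @Finset.filter β p inst s ↔ a ∈ s ∧ p a := Finset.mem_filter

private theorem exists_n5 (b : ℝ) (hb : 0 < b) :
    ∃ n₀ : ℕ, ∀ n : ℕ, n₀ ≤ n → ((n : ℝ) ^ 5) * (2 * Real.exp (-(b * n))) < 2 / 3 := by
  have h1 : Filter.Tendsto (fun x : ℝ => (x ^ 5) * (2 * Real.exp (-(b * x)))) Filter.atTop
      (nhds 0) := by
    have h2 := Real.tendsto_pow_mul_exp_neg_atTop_nhds_zero 5
    have h3 : Filter.Tendsto (fun x : ℝ => b * x) Filter.atTop Filter.atTop :=
      Filter.tendsto_id.const_mul_atTop hb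
    have h4 := h2.comp h3
    have h6 := h4.const_mul (2 / b ^ 5)
    simp only [mul_zero] at h6
    refine h6.congr fun x => ?_
    simp only [Function.comp_apply]
    field_simp
  have h2 : ∀ᶠ x : ℝ in Filter.atTop, (x ^ 5) * (2 * Real.exp (-(b * x))) < 2 / 3 :=
    h1.eventually_lt_const (by norm_num)
  obtain ⟨x₀, hx₀⟩ := Filter.eventually_atTop.1 h2
  obtain ⟨n₀, hn₀⟩ := exists_nat_ge x₀
  refine ⟨n₀, fun n hn => hx₀ n (hn₀.trans ?_)⟩
  exact_mod_cast hn

/-- lower tail for one family -/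
private theorem fam_tail {ι J : Type} [Fintype ι] [DecidableEq ι] (K k : ℕ) (hK : 0 < K) (hk : 0 < k)
    (S : Finset J) (T : J → Finset ι) (G : J → ι → Fin K → Prop) (m : ℕ) (hm0 : 0 < m)
    (hT : ∀ j ∈ S, (T j).card ≤ k) (hG : ∀ j ∈ S, ∀ i ∈ T j, ∃ a, G j i a)
    (hm : ∀ i, (S.filter fun j => i ∈ T j).card ≤ m) (hS : S.Nonempty) :
    Pr (fun ω : ι → Fin K => cntFam S T G ω < S.card / (2 * (K : ℝ) ^ k)) ≤
      2 * Real.exp (-((S.card : ℝ) / (8 * k * m * (K : ℝ) ^ (2 * k)))) := by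
  classical
  have : Nonempty (Fin K) := ⟨⟨0, hK⟩⟩
  have hK0 : (0 : ℝ) < K := by exact_mod_cast hK
  have hK1 : (1 : ℝ) ≤ K := by exact_mod_cast hK
  have hS0 : (0 : ℝ) < S.card := by exact_mod_cast hS.card_pos
  have hk0 : (0 : ℝ) < k := by exact_mod_cast hk
  have hm1 : (0 : ℝ) < m := by exact_mod_cast hm0
  have hm' : ∀ i, (S.filter fun j => i ∈ T j).card ≤ m := fun i => by
    refine le_trans (card_le_card fun j hj => ?_) (hm i)
    rw [mem_filter] at hj ⊢
    exact hj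
  have h := Pr_cntFam (Ω := Fin K) S T G k m
    hT hm' ((k * m : ℝ) * S.card) (by positivity) le_rfl
    (S.card / (2 * (K : ℝ) ^ k)) (by positivity)
  have hp : ∀ j ∈ S, ∀ i ∈ T j, 1 / (K : ℝ) ≤ Pr (G j i) := by
    intro j hj i hi
    obtain ⟨a, ha⟩ := hG j hj i hi
    have h1 : Pr (fun x : Fin K => x ∈ ({a} : Finset (Fin K))) ≤ Pr (G j i) := by
      refine Pr_mono fun x hx => ?_
      rw [mem_singleton] at hx
      rw [hx]
      exact ha
    rw [Pr_mem] at h1
    simpa using h1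
  have hmean : S.card / (K : ℝ) ^ k ≤ ∑ j ∈ S, ∏ i ∈ T j, Pr (G j i) := by
    have h1 : ∀ j ∈ S, 1 / (K : ℝ) ^ k ≤ ∏ i ∈ T j, Pr (G j i) := by
      intro j hj
      have h2 : ∏ _i ∈ T j, 1 / (K : ℝ) ≤ ∏ i ∈ T j, Pr (G j i) :=
        prod_le_prod (fun _ _ => by positivity) (fun i hi => hp j hj i hi)
      refine le_trans ?_ h2
      rw [prod_const, one_div, one_div, inv_pow]
      exact inv_anti₀ (by positivity) (pow_le_pow_right₀ hK1 (hT j hj))
    have h2 := sum_le_sum h1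
    rw [sum_const, nsmul_eq_mul] at h2
    refine le_trans (le_of_eq ?_) h2
    ring
  refine (Pr_mono fun ω hω => ?_).trans (h.trans (le_of_eq ?_))
  · rw [le_abs]
    right
    have e : (S.card : ℝ) / (K : ℝ) ^ k = 2 * (S.card / (2 * (K : ℝ) ^ k)) := by
      field_simp
    linarith
  · congr 2
    rw [pow_mul']
    field_simp
    ring

/-- Markov for the number of coordinates in `H` -/
private theorem markov_H {ι : Type} [Fintype ι] [DecidableEq ι] (K : ℕ) (hK : 0 < K) (U : Finset ι)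
    (H : Finset (Fin K)) :
    Pr (fun ω : ι → Fin K => 3 * (U.card : ℝ) * H.card / K <
      cntFam U (fun x => {x}) (fun _ _ a => a ∈ H) ω) ≤ 1 / 3 := by
  classical
  have : Nonempty (Fin K) := ⟨⟨0, hK⟩⟩
  have hK0 : (0 : ℝ) < K := by exact_mod_cast hK
  have hmean : Ex (cntFam (Ω := Fin K) U (fun x => {x}) (fun _ _ a => a ∈ H)) =
      (U.card : ℝ) * H.card / K := by
    rw [Ex_cntFam]
    simp only [prod_singleton]
    rw [Pr_mem, sum_const, nsmul_eq_mul, Fintype.card_fin]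
    ring
  have hnn : ∀ ω : ι → Fin K, 0 ≤ cntFam U (fun x => {x}) (fun _ _ a => a ∈ H) ω := by
    intro ω
    unfold cntFam
    positivity
  rcases eq_or_lt_of_le (show 0 ≤ (U.card : ℝ) * H.card / K by positivity) with h0 | h0
  · have h1 : ∀ ω : ι → Fin K, ¬ (3 * (U.card : ℝ) * H.card / K <
        cntFam U (fun x => {x}) (fun _ _ a => a ∈ H) ω) := by
      intro ω hω
      have h2 : 0 < cntFam U (fun x => {x}) (fun _ _ a => a ∈ H) ω := by
        refine lt_of_le_of_lt ?_ hω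
        positivity
      unfold cntFam at h2
      have h3 := Nat.cast_pos.1 h2
      obtain ⟨x, hx⟩ := card_pos.1 h3
      rw [mf] at hx
      have hU : 0 < (U.card : ℝ) := by
        exact_mod_cast card_pos.2 ⟨x, hx.1⟩
      have hH : 0 < (H.card : ℝ) := by
        exact_mod_cast card_pos.2 ⟨ω x, hx.2 x (mem_singleton_self x)⟩
      have : 0 < (U.card : ℝ) * H.card / K := by positivity
      linarith
    have h2 : Pr (fun ω : ι → Fin K => 3 * (U.card : ℝ) * H.card / K <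
        cntFam U (fun x => {x}) (fun _ _ a => a ∈ H) ω) ≤ Ex (fun _ : ι → Fin K => (0 : ℝ)) := by
      unfold Pr
      refine Ex_mono fun ω => ?_
      rw [if_neg (h1 ω)]
    rw [Ex_const] at h2
    linarith
  · have h2 : Pr (fun ω : ι → Fin K => 3 * (U.card : ℝ) * H.card / K <
        cntFam U (fun x => {x}) (fun _ _ a => a ∈ H) ω) ≤
        Ex (fun ω : ι → Fin K => cntFam U (fun x => {x}) (fun _ _ a => a ∈ H) ω *
          (1 / (3 * ((U.card : ℝ) * H.card / K)))) := by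
      unfold Pr
      refine Ex_mono fun ω => ?_
      split_ifs with h3
      · rw [mul_one_div, le_div_iff₀ (by positivity), one_mul]
        refine le_trans (le_of_eq ?_) h3.le
        ring
      · have := hnn ω
        positivity
    rw [Ex_mul_const] at h2
    refine h2.trans (le_of_eq ?_)
    have h4 : Ex (fun ω : ι → Fin K => cntFam U (fun x => {x}) (fun _ _ a => a ∈ H) ω) =
      (U.card : ℝ) * H.card / K := hmean
    rw [h4]
    have hμ : ∀ μ : ℝ, 0 < μ → μ * (1 / (3 * μ)) = 1 / 3 := by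
      intro μ hμ
      field_simp
    exact hμ _ h0

open Classical in
theorem random_bits (K k : ℕ) (hK : 0 < K) (hk : 0 < k) (c : ℝ) (hc : 0 < c) :
    ∃ n₀ : ℕ, ∀ n : ℕ, n₀ ≤ n → ∀ {α : Type} (A U : Finset α) (H : Finset (Fin K)), U ⊆ A →
      ∀ {F J : Type} (Fam : Finset F) (S : F → Finset J) (T : F → J → Finset α)
        (G : F → J → α → Fin K → Prop) (m : F → ℕ),
        (Fam.card : ℝ) ≤ (n : ℝ) ^ 5 →
        (∀ f ∈ Fam, ∀ j ∈ S f, T f j ⊆ A ∧ (T f j).card ≤ k ∧ ∀ i ∈ T f j, ∃ a, G f j i a) →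
        (∀ f ∈ Fam, ∀ a, ((S f).filter fun j => a ∈ T f j).card ≤ m f) →
        (∀ f ∈ Fam, 0 < m f ∧ c * n * m f ≤ ((S f).card : ℝ)) →
        ∃ ω : α → Fin K,
          ((U.filter fun x => ω x ∈ H).card : ℝ) ≤ 3 * (U.card : ℝ) * H.card / K ∧
          ∀ f ∈ Fam, ((S f).card : ℝ) / (2 * (K : ℝ) ^ k) ≤
            (((S f).filter fun j => ∀ i ∈ T f j, G f j i (ω i)).card : ℝ) := by
  classical
  have hK0 : (0 : ℝ) < K := by exact_mod_cast hK
  have hk0 : (0 : ℝ) < k := by exact_mod_cast hk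
  obtain ⟨b, hb⟩ : ∃ b : ℝ, b = c / (8 * k * (K : ℝ) ^ (2 * k)) := ⟨_, rfl⟩
  have hb0 : 0 < b := by rw [hb]; positivity
  obtain ⟨n₁, hn₁⟩ := exists_n5 b hb0
  refine ⟨max n₁ 1, fun n hn α A U H hUA F J Fam S T G m hFam hT hdeg hm => ?_⟩
  have hn1 : n₁ ≤ n := le_trans (le_max_left _ _) hn
  have hn0 : (0 : ℝ) < n := by
    have : 1 ≤ n := le_trans (le_max_right _ _) hn
    exact_mod_cast this
  have : Nonempty (Fin K) := ⟨⟨0, hK⟩⟩
  obtain ⟨T', hT'⟩ : ∃ T' : F → J → Finset ↥A,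
      ∀ f j a, a ∈ T' f j ↔ (a : α) ∈ T f j :=
    ⟨fun f j => (univ : Finset ↥A).filter fun a => (a : α) ∈ T f j, fun f j a => by
      rw [mem_filter]
      exact ⟨fun h => h.2, fun h => ⟨mem_univ _, h⟩⟩⟩
  obtain ⟨U', hU'⟩ : ∃ U' : Finset ↥A, ∀ a, a ∈ U' ↔ (a : α) ∈ U :=
    ⟨(univ : Finset ↥A).filter fun a => (a : α) ∈ U, fun a => by
      rw [mem_filter]
      exact ⟨fun h => h.2, fun h => ⟨mem_univ _, h⟩⟩⟩
  have hUc : U'.card ≤ U.card := by
    rw [← card_image_of_injective U' Subtype.val_injective]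
    refine card_le_card fun a ha => ?_
    obtain ⟨x, hx, rfl⟩ := mem_image.1 ha
    exact (hU' x).1 hx
  have hTc : ∀ f ∈ Fam, ∀ j ∈ S f, (T' f j).card ≤ k := by
    intro f hf j hj
    refine le_trans ?_ (hT f hf j hj).2.1
    rw [← card_image_of_injective (T' f j) Subtype.val_injective]
    refine card_le_card fun a ha => ?_
    obtain ⟨x, hx, rfl⟩ := mem_image.1 ha
    exact (hT' f j x).1 hx
  have hTd : ∀ f ∈ Fam, ∀ a, ((S f).filter fun j => a ∈ T' f j).card ≤ m f := by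
    intro f hf a
    refine le_trans (card_le_card fun j hj => ?_) (hdeg f hf a)
    rw [mem_filter] at hj ⊢
    exact ⟨hj.1, (hT' f j a).1 hj.2⟩
  have h1 := markov_H (ι := ↥A) K hK U' H
  have h2 : ∀ f ∈ Fam, Pr (fun ω : ↥A → Fin K =>
      cntFam (S f) (T' f) (fun j (a : ↥A) => G f j a.1) ω <
        (S f).card / (2 * (K : ℝ) ^ k)) ≤ 2 * Real.exp (-(b * n)) := by
    intro f hf
    obtain ⟨hm0, hmS⟩ := hm f hf
    have hm1 : (0 : ℝ) < m f := by exact_mod_cast hm0
    have hSne : (S f).Nonempty := by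
      rw [← card_pos]
      have : (0 : ℝ) < (S f).card := lt_of_lt_of_le (by positivity) hmS
      exact_mod_cast this
    refine (fam_tail K k hK hk (S f) (T' f) _ (m f) hm0 (hTc f hf) ?_ ?_ hSne).trans ?_
    · intro j hj a ha
      exact (hT f hf j hj).2.2 a ((hT' f j a).1 ha)
    · intro a
      refine le_trans (card_le_card fun j hj => ?_) (hTd f hf a)
      rw [mem_filter] at hj ⊢
      exact hj
    · refine mul_le_mul_of_nonneg_left (Real.exp_le_exp.2 (neg_le_neg ?_)) (by norm_num)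
      rw [hb, div_mul_eq_mul_div, div_le_div_iff₀ (by positivity) (by positivity)]
      have h4 : (0 : ℝ) < 8 * k * (K : ℝ) ^ (2 * k) := by positivity
      nlinarith [mul_le_mul_of_nonneg_right hmS h4.le]
  have h3 : Pr (fun ω : ↥A → Fin K => (3 * (U'.card : ℝ) * H.card / K <
      cntFam U' (fun x => {x}) (fun _ _ a => a ∈ H) ω) ∨ ∃ f ∈ Fam,
      cntFam (S f) (T' f) (fun j (a : ↥A) => G f j a.1) ω <
        (S f).card / (2 * (K : ℝ) ^ k)) < 1 := by
    refine (Pr_or_le _ _).trans_lt ?_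
    have h4 : Pr (fun ω : ↥A → Fin K => ∃ f ∈ Fam,
      cntFam (S f) (T' f) (fun j (a : ↥A) => G f j a.1) ω <
        (S f).card / (2 * (K : ℝ) ^ k)) ≤ Fam.card * (2 * Real.exp (-(b * n))) := by
      refine (Pr_exists_le _ _).trans ((sum_le_sum h2).trans ?_)
      rw [sum_const, nsmul_eq_mul]
    have h5 : (Fam.card : ℝ) * (2 * Real.exp (-(b * n))) ≤
        (n : ℝ) ^ 5 * (2 * Real.exp (-(b * n))) :=
      mul_le_mul_of_nonneg_right hFam (by positivity)
    have h6 := hn₁ n hn1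
    linarith
  obtain ⟨ω, hω⟩ := exists_not_of_Pr_lt_one h3
  rw [not_or] at hω
  have hω1 := not_lt.1 hω.1
  have hωx : ∀ x (hx : x ∈ A), (if h : x ∈ A then ω ⟨x, h⟩ else ⟨0, hK⟩) = ω ⟨x, hx⟩ :=
    fun x hx => dif_pos hx
  refine ⟨fun x => if h : x ∈ A then ω ⟨x, h⟩ else ⟨0, hK⟩, ?_, ?_⟩
  · have h4 : 3 * (U'.card : ℝ) * H.card / K ≤ 3 * (U.card : ℝ) * H.card / K := by
      have : (U'.card : ℝ) ≤ U.card := by exact_mod_cast hUc
      gcongr
    refine le_trans ?_ (hω1.trans h4)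
    unfold cntFam
    norm_cast
    refine le_trans (card_le_card ?_) (card_image_le (f := Subtype.val))
    intro x hx
    rw [mem_filter] at hx
    have hxA := hUA hx.1
    have hx2 : (if h : x ∈ A then ω ⟨x, h⟩ else ⟨0, hK⟩) ∈ H := hx.2
    rw [hωx x hxA] at hx2
    refine mem_image.2 ⟨⟨x, hxA⟩, ?_, rfl⟩
    rw [mf]
    refine ⟨(hU' _).2 hx.1, fun i hi => ?_⟩
    rw [mem_singleton.1 hi]
    exact hx2
  · intro f hf
    have h4 := not_lt.1 fun h => hω.2 ⟨f, hf, h⟩
    refine h4.trans ?_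
    unfold cntFam
    norm_cast
    refine card_le_card fun j hj => ?_
    rw [mf] at hj ⊢
    refine ⟨hj.1, fun i hi => ?_⟩
    have hiA := (hT f hf j hj.1).1 hi
    show G f j i (if h : i ∈ A then ω ⟨i, h⟩ else ⟨0, hK⟩)
    rw [hωx i hiA]
    exact hj.2 ⟨i, hiA⟩ ((hT' f j _).2 hi)

end Pool.Agent.PGo.R
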