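import Pool.Agent.PGo.RCovD

/-!
# PGo-RDet2: deterministic count for (COV), groups `q = 0, ..., 4`

PLAN.  `nest3` with `M` = the odd `m < n` with `inR P.n (275, 285) (anc P.n m)` (not special), i.e.
`m = 2 t + 1`, `anc = 3 n - t`, `.15 n ≤ t ≤ .25 n` (so `.3 n ≤ m ≤ .5 n + 1`); at least `.09 n` elements;
`Y1`, `Y2` = integers in the ranges `rY1 q`, `rY2 q` (at least `.019 n`, `.09 n` elements), `N = 200`.
Let `a = anc m`, `a1 = anc (vx m 1)`, `a2 = anc (vx m (L-1))`, `vx m 1 = m + k` (or, if `m + k ≥ n`,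
impossible except near the end: `m + k < n` because `m ≤ .5 n + 1` and `2 k < n`: if `m + k ≥ n` put `m` into
`b0`; at most 3 values), `vx m (L-1) = (m + n - k) mod n` (`Par.vx_add_L`: `m + (L-1) k = m - k` mod `n`).
`b0` = the `m` with `m + k ≥ n`, or with `vx m 1` or `vx m (L-1)` special (at most 10 values).
`b1 m` = `bd P a1`, the `y1` with `2 y1 = 3 n`, the bad values for `δ5 = a - (y1 + d)` (`bd P (a - d)`),
`y1` with `2 y1 = a + a1 - d` and `2 y1 = a - a1 - d ...` (coincidences of `δ1 = |y1 - a1|` and `δ5`: `y1 - a1 = ± (a - d - y1)`; the sign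
with identical slopes gives `a1 = a - d`, i.e. `d = k / 2` for `m + k` odd, excluded by `gd P d`, impossible for `m + k` even
by the ranges), `y1 = a2`, `y1 = a2 - d`.
`b2 m y1` = `bd P a2`, `bd P y1`, `bd P (y1 + d)`, `2 y2 = 3 n`, and for every pair among
`δ1, δ5` (known) and `δ2 = |y2 - a2|, δ3 = |y1 - y2|, δ4 = |y1 + d - y2|` the at most two solutions `y2` of
`δ_i = δ_j`: `δ2 = w`: `a2 ± w`; `δ3 = w`: `y1 ± w`; `δ4 = w`: `y1 + d ± w`; `δ2 = δ3`: `2 y2 = a2 + y1` (or `y1 = a2`);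
`δ2 = δ4`: `2 y2 = a2 + y1 + d` (or `y1 = a2 - d`); `δ3 = δ4`: `2 y2 = 2 y1 + d` (or `d = 0`).
Ranges: `X = y1 + d` lies in `[2.01 n, 2.49 n]`, `X - y2`, `a - X` in `[.1 n, 1.3 n]`, the spokes are
at most `2 n` (`|y1 - a1| ≤ 1.95 n` because `m + k ≥ .3 n`), all by `omega`/`linarith` for each `q`
(`fin_cases q`, `simp [rD, rY1, rY2, rA, inR]`).
Result `.09 n * .018 n * .09 n ≥ 10 ^ (-5) n ^ 3`.
-/

noncomputable section

namespace Pool.Agent.PGo.R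

open Finset Pool.Agent.PGr

/-- integers `y` with `r.1 n ≤ 100 y ≤ r.2 n` -/
private def RDet2_I (n : ℕ) (r : ℤ × ℤ) : Finset ℤ :=
  Finset.Icc ((r.1 * n + 99) / 100) (r.2 * n / 100)

private theorem RDet2_mem {n : ℕ} {r : ℤ × ℤ} {y : ℤ} (h : y ∈ RDet2_I n r) : inR n r y := by
  unfold RDet2_I at h
  rw [Finset.mem_Icc] at h
  unfold inR
  omega

private theorem RDet2_card (n : ℕ) (r : ℤ × ℤ) :
    ((r.2 - r.1 : ℤ) : ℝ) * n - 98 ≤ 100 * ((RDet2_I n r).card : ℝ) := by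
  unfold RDet2_I
  rw [Int.card_Icc]
  have h1 : (r.2 - r.1) * n - 98 ≤
      100 * (((r.2 * n / 100 + 1 - (r.1 * n + 99) / 100).toNat : ℕ) : ℤ) := by
    have h2 := Int.self_le_toNat (r.2 * n / 100 + 1 - (r.1 * n + 99) / 100)
    have h3 : (r.2 - r.1) * (n : ℤ) = r.2 * n - r.1 * n := by ring
    omega
  exact_mod_cast h1

private theorem RDet2_range {n : ℕ} {q : Fin 6} (hq : q ≠ 5) {d y1 y2 : ℤ}
    (hr : inR n (rD q) d) (h1 : inR n (rY1 q) y1) (h2 : inR n (rY2 q) y2) :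
    (90 * (n : ℤ) ≤ 100 * y1 ∧ 100 * y1 ≤ 210 * n) ∧
    (201 * (n : ℤ) ≤ 100 * (y1 + d) ∧ 100 * (y1 + d) ≤ 249 * n) ∧
    (130 * (n : ℤ) ≤ 100 * y2 ∧ 100 * y2 ≤ 150 * n) ∧
    (10 * (n : ℤ) ≤ 100 * (y1 + d - y2) ∧ 100 * (y1 + d - y2) ≤ 130 * n) ∧
    100 * d ≤ 155 * n := by
  unfold inR at hr h1 h2
  fin_cases q
  · simp [rD, rY1, rY2] at hr h1 h2
    omega
  · simp [rD, rY1, rY2] at hr h1 h2
    omega
  · simp [rD, rY1, rY2] at hr h1 h2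
    omega
  · simp [rD, rY1, rY2] at hr h1 h2
    omega
  · simp [rD, rY1, rY2] at hr h1 h2
    omega
  · exact absurd rfl hq

private theorem RDet2_ne {x a b : ℤ} (h1 : a ≠ b) (h2 : 2 * x ≠ a + b) : |x - a| ≠ |x - b| := by
  intro h
  rcases abs_eq_abs.mp h with h3 | h3
  · exact h1 (by omega)
  · exact h2 (by omega)

private theorem RDet2_ne' {x a w : ℤ} (h1 : x ≠ a + w) (h2 : x ≠ a - w) : |x - a| ≠ w := by
  intro h
  rcases eq_or_eq_neg_of_abs_eq h with h3 | h3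
  · exact h1 (by omega)
  · exact h2 (by omega)

private def RDet2_b1 (P : Par) (d a a1 a2 : ℤ) : Finset ℤ :=
  (bd P a1 ∪ bd P (a - d)) ∪ {3 * (P.n : ℤ) / 2, (a1 + (a - d)) / 2, a2, a2 - d}

private def RDet2_b2 (P : Par) (d a a1 a2 y1 : ℤ) : Finset ℤ :=
  ((bd P a2 ∪ bd P y1) ∪ bd P (y1 + d)) ∪
  {3 * (P.n : ℤ) / 2, a2 + |y1 - a1|, a2 - |y1 - a1|, y1 + |y1 - a1|, y1 - |y1 - a1|,
    y1 + d + |y1 - a1|, y1 + d - |y1 - a1|, a2 + |y1 - (a - d)|, a2 - |y1 - (a - d)|,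
    y1 + |y1 - (a - d)|, y1 - |y1 - (a - d)|, y1 + d + |y1 - (a - d)|,
    y1 + d - |y1 - (a - d)|, (a2 + y1) / 2, (a2 + (y1 + d)) / 2, (y1 + (y1 + d)) / 2}

private theorem RDet2_b1_card (P : Par) (d a a1 a2 : ℤ) : (RDet2_b1 P d a a1 a2).card ≤ 200 := by
  unfold RDet2_b1
  have h1 := card_bd P a1
  have h2 := card_bd P (a - d)
  have h3 := card_union_le (bd P a1) (bd P (a - d))
  have h4 := card_union_le (bd P a1 ∪ bd P (a - d))
    ({3 * (P.n : ℤ) / 2, (a1 + (a - d)) / 2, a2, a2 - d} : Finset ℤ)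
  have h5 : ({3 * (P.n : ℤ) / 2, (a1 + (a - d)) / 2, a2, a2 - d} : Finset ℤ).card ≤ 4 :=
    card_le_four
  omega

private theorem RDet2_b2_card (P : Par) (d a a1 a2 y1 : ℤ) :
    (RDet2_b2 P d a a1 a2 y1).card ≤ 200 := by
  unfold RDet2_b2
  have h1 := card_bd P a2
  have h2 := card_bd P y1
  have h3 := card_bd P (y1 + d)
  have h4 := card_union_le (bd P a2) (bd P y1)
  have h5 := card_union_le (bd P a2 ∪ bd P y1) (bd P (y1 + d))
  refine (card_union_le _ _).trans ?_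
  have h6 : ∀ c0 c1 c2 c3 c4 c5 c6 c7 c8 c9 c10 c11 c12 c13 c14 c15 : ℤ,
      ({c0, c1, c2, c3, c4, c5, c6, c7, c8, c9, c10, c11, c12, c13, c14, c15} :
        Finset ℤ).card ≤ 16 := by
    intro c0 c1 c2 c3 c4 c5 c6 c7 c8 c9 c10 c11 c12 c13 c14 c15
    refine (card_insert_le _ _).trans (Nat.succ_le_succ ?_)
    refine (card_insert_le _ _).trans (Nat.succ_le_succ ?_)
    refine (card_insert_le _ _).trans (Nat.succ_le_succ ?_)
    refine (card_insert_le _ _).trans (Nat.succ_le_succ ?_)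
    refine (card_insert_le _ _).trans (Nat.succ_le_succ ?_)
    refine (card_insert_le _ _).trans (Nat.succ_le_succ ?_)
    refine (card_insert_le _ _).trans (Nat.succ_le_succ ?_)
    refine (card_insert_le _ _).trans (Nat.succ_le_succ ?_)
    refine (card_insert_le _ _).trans (Nat.succ_le_succ ?_)
    refine (card_insert_le _ _).trans (Nat.succ_le_succ ?_)
    refine (card_insert_le _ _).trans (Nat.succ_le_succ ?_)
    refine (card_insert_le _ _).trans (Nat.succ_le_succ ?_)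
    exact card_le_four
  refine (Nat.add_le_add le_rfl (h6 _ _ _ _ _ _ _ _ _ _ _ _ _ _ _ _)).trans ?_
  omega

private theorem RDet2_b1_spec {P : Par} {d a a1 a2 y : ℤ} (h : y ∉ RDet2_b1 P d a a1 a2) :
    y ∉ bd P a1 ∧ y ∉ bd P (a - d) ∧ 2 * y ≠ 3 * (P.n : ℤ) ∧ 2 * y ≠ a1 + (a - d) ∧ y ≠ a2 ∧
      y ≠ a2 - d := by
  unfold RDet2_b1 at h
  simp only [mem_union, mem_insert, mem_singleton, not_or] at h
  obtain ⟨⟨h1, h2⟩, h3, h4, h5, h6⟩ := h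
  refine ⟨h1, h2, ?_, ?_, h5, h6⟩
  · omega
  · omega

private theorem RDet2_b2_spec {P : Par} {d a a1 a2 y1 y : ℤ}
    (h : y ∉ RDet2_b2 P d a a1 a2 y1) :
    (y ∉ bd P a2 ∧ y ∉ bd P y1 ∧ y ∉ bd P (y1 + d)) ∧ 2 * y ≠ 3 * (P.n : ℤ) ∧
    (|y - a2| ≠ |y1 - a1| ∧ |y - y1| ≠ |y1 - a1| ∧ |y - (y1 + d)| ≠ |y1 - a1|) ∧
    (|y - a2| ≠ |y1 - (a - d)| ∧ |y - y1| ≠ |y1 - (a - d)| ∧
      |y - (y1 + d)| ≠ |y1 - (a - d)|) ∧
    2 * y ≠ a2 + y1 ∧ 2 * y ≠ a2 + (y1 + d) ∧ 2 * y ≠ y1 + (y1 + d) := by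
  unfold RDet2_b2 at h
  simp only [mem_union, mem_insert, mem_singleton, not_or] at h
  obtain ⟨⟨⟨h1, h2⟩, h3⟩, h4, e1, e2, e3, e4, e5, e6, f1, f2, f3, f4, f5, f6, g1, g2, g3⟩ := h
  refine ⟨⟨h1, h2, h3⟩, ?_, ⟨RDet2_ne' e1 e2, RDet2_ne' e3 e4, RDet2_ne' e5 e6⟩,
    ⟨RDet2_ne' f1 f2, RDet2_ne' f3 f4, RDet2_ne' f5 f6⟩, ?_, ?_, ?_⟩
  · omega
  · omega
  · omega
  · omega

/-- the bases -/
private def RDet2_M (n : ℕ) : Finset ℕ :=
  (Finset.Icc ((15 * n + 99) / 100) (25 * n / 100)).image (fun t => 2 * t + 1)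

private theorem RDet2_M_card (n : ℕ) : 10 * (n : ℝ) - 98 ≤ 100 * ((RDet2_M n).card : ℝ) := by
  unfold RDet2_M
  rw [card_image_of_injective _ (fun x y h => by
    have h2 : 2 * x + 1 = 2 * y + 1 := h
    omega), Nat.card_Icc]
  have h1 : 10 * n ≤ 100 * (25 * n / 100 + 1 - (15 * n + 99) / 100) + 98 := by omega
  have h2 : (10 : ℝ) * n ≤ 100 * ((25 * n / 100 + 1 - (15 * n + 99) / 100 : ℕ) : ℝ) + 98 := by
    exact_mod_cast h1
  linarith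

private theorem RDet2_M_spec {n m : ℕ} (hn : 10 ^ 6 ≤ n) (hm : m ∈ RDet2_M n) :
    m < n ∧ m % 2 = 1 ∧ ¬ spec n m ∧ 30 * n ≤ 100 * m ∧ m ≤ n / 2 + 1 ∧
      inR n (275, 285) (anc n m) := by
  unfold RDet2_M at hm
  rw [mem_image] at hm
  obtain ⟨t, ht, rfl⟩ := hm
  rw [Finset.mem_Icc] at ht
  have hs : ¬ spec n (2 * t + 1) := by
    unfold spec
    omega
  have h2 : (2 * t + 1) % 2 = 1 := by omega
  have h3 := anc_odd h2 hs
  refine ⟨by omega, h2, hs, by omega, by omega, ?_⟩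
  unfold inR
  push_cast at h3
  constructor
  · show 275 * (n : ℤ) ≤ 100 * anc n (2 * t + 1)
    omega
  · show 100 * anc n (2 * t + 1) ≤ 285 * (n : ℤ)
    omega

/-- the anchor of the next vertex -/
private theorem RDet2_a1 {P : Par} (h : P.Ok) (hn : 10 ^ 6 ≤ P.n) {d : ℤ} (hg : gd P d)
    (hd : 100 * d ≤ 155 * (P.n : ℤ)) {m : ℕ} (hm : m ∈ RDet2_M P.n) (h1 : m ≠ P.n / 2 + 1)
    (h2 : m ≠ P.n - 1 - P.k) :
    anc P.n (P.vx m 1) ≠ anc P.n m - d ∧ ∀ y : ℤ, 90 * (P.n : ℤ) ≤ 100 * y →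
      100 * y ≤ 210 * P.n → |y - anc P.n (P.vx m 1)| ≤ 2 * (P.n : ℤ) := by
  obtain ⟨m1, m2, m3, m4, m5, m6⟩ := RDet2_M_spec hn hm
  have hk := h.k_lt
  have hlt : m + P.k < P.n := by omega
  have hvx : P.vx m 1 = m + P.k := by
    unfold Par.vx
    rw [one_mul, Nat.mod_eq_of_lt hlt]
  rw [hvx]
  have ha := anc_odd m2 m3
  obtain ⟨hg1, -⟩ := hg
  rcases anc_cases hlt with ⟨c1, c2, c3⟩ | ⟨c1, c2, c3⟩ | ⟨c1, c2, c3⟩
  · push_cast at c3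
    refine ⟨?_, fun y hy hy' => ?_⟩
    · omega
    · rw [abs_le]
      constructor <;> omega
  · push_cast at c3
    refine ⟨?_, fun y hy hy' => ?_⟩
    · omega
    · rw [abs_le]
      constructor <;> omega
  · exfalso
    have := c2.2
    omega

private theorem RDet2_a2 {P : Par} (h : P.Ok) (hn : 10 ^ 6 ≤ P.n) (m j : ℕ) {y : ℤ}
    (hy : 130 * (P.n : ℤ) ≤ 100 * y) (hy' : 100 * y ≤ 150 * P.n) :
    |y - anc P.n (P.vx m j)| ≤ 2 * (P.n : ℤ) := by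
  have hlt := Par.vx_lt h m j
  rcases anc_cases hlt with ⟨c1, c2, c3⟩ | ⟨c1, c2, c3⟩ | ⟨c1, c2, c3⟩
  · rw [abs_le]
    constructor <;> omega
  · rw [abs_le]
    constructor <;> omega
  · rw [abs_le]
    constructor <;> omega

private theorem RDet2_key {P : Par} (h : P.Ok) (hn : 10 ^ 6 ≤ P.n) {q : Fin 6} (hq : q ≠ 5)
    {d : ℤ} (hd : 1 ≤ d) (hg : gd P d) (hr : inR P.n (rD q) d) {m : ℕ}
    (hm : m ∈ RDet2_M P.n) (h1 : m ≠ P.n / 2 + 1) (h2 : m ≠ P.n - 1 - P.k) {y1 : ℤ}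
    (hy1 : y1 ∈ RDet2_I P.n (rY1 q))
    (hb1 : y1 ∉ RDet2_b1 P d (anc P.n m) (anc P.n (P.vx m 1)) (anc P.n (P.vx m (P.L - 1))))
    {y2 : ℤ} (hy2 : y2 ∈ RDet2_I P.n (rY2 q))
    (hb2 : y2 ∉ RDet2_b2 P d (anc P.n m) (anc P.n (P.vx m 1)) (anc P.n (P.vx m (P.L - 1))) y1) :
    (m, y1, y2) ∈ SCov P q d := by
  obtain ⟨m1, m2, m3, m4, m5, m6⟩ := RDet2_M_spec hn hm
  have k1 := RDet2_mem hy1
  have k2 := RDet2_mem hy2
  obtain ⟨⟨u1, u2⟩, ⟨u3, u4⟩, ⟨u5, u6⟩, ⟨u7, u8⟩, u9⟩ := RDet2_range hq hr k1 k2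
  obtain ⟨v1, v2⟩ := RDet2_a1 h hn hg u9 hm h1 h2
  have v3 := RDet2_a2 h hn m (P.L - 1) u5 u6
  have v4 := v2 y1 u1 u2
  obtain ⟨p1, p2, p3, p4, p5, p6⟩ := RDet2_b1_spec hb1
  obtain ⟨⟨q1, q2, q3⟩, q4, ⟨q5, q6, q7⟩, ⟨q8, q9, q10⟩, q11, q12, q13⟩ := RDet2_b2_spec hb2
  have m7 : 275 * (P.n : ℤ) ≤ 100 * anc P.n m ∧ 100 * anc P.n m ≤ 285 * (P.n : ℤ) := m6
  have w5 : inR P.n (10, 130) |y1 - (anc P.n m - d)| := by
    unfold inR
    rw [abs_of_neg (by omega)]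
    constructor
    · show 10 * (P.n : ℤ) ≤ 100 * (-(y1 - (anc P.n m - d)))
      omega
    · show 100 * (-(y1 - (anc P.n m - d))) ≤ 130 * (P.n : ℤ)
      omega
  have w4 : inR P.n (10, 130) |y2 - (y1 + d)| := by
    unfold inR
    rw [abs_of_neg (by omega)]
    constructor
    · show 10 * (P.n : ℤ) ≤ 100 * (-(y2 - (y1 + d)))
      omega
    · show 100 * (-(y2 - (y1 + d))) ≤ 130 * (P.n : ℤ)
      omega
  have g1 : |y1 - anc P.n (P.vx m 1)| ∈ GD P ∅ := mem_GD_of_bd p1 v4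
  have g5 : |y1 - (anc P.n m - d)| ∈ GD P ∅ := mem_GD_of_bd p2 (by
    have := w5.2
    have h3 : 100 * |y1 - (anc P.n m - d)| ≤ 130 * (P.n : ℤ) := this
    omega)
  have g2 : |y2 - anc P.n (P.vx m (P.L - 1))| ∈ GD P ∅ := mem_GD_of_bd q1 v3
  have g3 : |y2 - y1| ∈ GD P ∅ := mem_GD_of_bd q2 (by
    rw [abs_le]
    constructor <;> omega)
  have g4 : |y2 - (y1 + d)| ∈ GD P ∅ := mem_GD_of_bd q3 (by
    have := w4.2
    have h3 : 100 * |y2 - (y1 + d)| ≤ 130 * (P.n : ℤ) := this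
    omega)
  have z1 : y1 ∈ zall P.n := mem_zall_of (by omega) (by omega) p3
  have z2 : y2 ∈ zall P.n := mem_zall_of (by omega) (by omega) q4
  have z3 : y1 + d ∈ Zo1 P := by
    unfold Zo1
    rw [mem_filter]
    exact ⟨mem_zall_of (by omega) (by omega) (by omega), Or.inr ⟨u3, u4⟩⟩
  have n15 : |y1 - (anc P.n m - d)| ≠ |y1 - anc P.n (P.vx m 1)| :=
    RDet2_ne (Ne.symm v1) (by rw [add_comm]; exact p4)
  have n23 : |y2 - anc P.n (P.vx m (P.L - 1))| ≠ |y2 - y1| := RDet2_ne (Ne.symm p5) q11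
  have n24 : |y2 - (y1 + d)| ≠ |y2 - anc P.n (P.vx m (P.L - 1))| :=
    RDet2_ne (by omega) (by rw [add_comm]; exact q12)
  have n34 : |y2 - (y1 + d)| ≠ |y2 - y1| := RDet2_ne (by omega) (by rw [add_comm]; exact q13)
  have eX : covX P q d (m, y1, y2) = y1 + d := by
    unfold covX
    rw [if_neg hq]
  have eE : covE P q d (m, y1, y2) = |y1 - (anc P.n m - d)| := by
    unfold covE
    rw [if_neg hq, eX]
    congr 1
    ring
  have eF : covF P q d (m, y1, y2) = |y2 - (y1 + d)| := by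
    unfold covF
    rw [eX, abs_sub_comm]
  have e3 : |y1 - y2| = |y2 - y1| := abs_sub_comm _ _
  have eA : rA q = (275, 285) := by
    fin_cases q
    · rfl
    · rfl
    · rfl
    · rfl
    · rfl
    · exact absurd rfl hq
  classical
  unfold SCov
  rw [mem_filter]
  refine ⟨?_, ?_, ?_, ?_⟩
  · rw [mem_product, mem_product, mem_range]
    exact ⟨m1, z1, z2⟩
  · unfold PlOk
    simp only [e3]
    rw [eA]
    exact ⟨⟨m1, m2, m3, m6⟩, ⟨z1, k1⟩, ⟨z2, k2⟩, g1, g2, g3, Ne.symm q5, Ne.symm q6, n23⟩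
  · unfold CovOk
    rw [eX, eE, eF]
    exact ⟨z3, mem_AAf_of g5 w5, mem_AAf_of g4 w4, Ne.symm q10⟩
  · unfold Sep
    rw [eX, eE, eF]
    simp only [e3]
    exact ⟨⟨by omega, by omega⟩, ⟨n15, Ne.symm q8, Ne.symm q9⟩, q7, n24, n34⟩

theorem det_cov_lt {P : Par} (h : P.Ok) (hn : 10 ^ 6 ≤ P.n) {q : Fin 6} (hq : q ≠ 5) {d : ℤ}
    (hd : d ∈ dall P.n) (hg : gd P d) (hr : inR P.n (rD q) d) :
    (P.n : ℝ) ^ 3 / 10 ^ 5 ≤ ((SCov P q d).card : ℝ) := by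
  classical
  have hnr : (10 : ℝ) ^ 6 ≤ P.n := by exact_mod_cast hn
  have hd1 : 1 ≤ d := (dall_range hd).1
  have c0 := RDet2_M_card P.n
  have c1 := RDet2_card P.n (rY1 q)
  have c2 := RDet2_card P.n (rY2 q)
  have w1 : (2 : ℝ) ≤ (((rY1 q).2 - (rY1 q).1 : ℤ) : ℝ) := by
    have : (2 : ℤ) ≤ (rY1 q).2 - (rY1 q).1 := by
      fin_cases q <;> simp [rY1]
    exact_mod_cast this
  have w2 : (10 : ℝ) ≤ (((rY2 q).2 - (rY2 q).1 : ℤ) : ℝ) := by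
    have : (10 : ℤ) ≤ (rY2 q).2 - (rY2 q).1 := by
      fin_cases q <;> simp [rY2]
    exact_mod_cast this
  have hn0 : (0 : ℝ) ≤ P.n := Nat.cast_nonneg _
  have w1' : 2 * (P.n : ℝ) ≤ (((rY1 q).2 - (rY1 q).1 : ℤ) : ℝ) * P.n :=
    mul_le_mul_of_nonneg_right w1 hn0
  have w2' : 10 * (P.n : ℝ) ≤ (((rY2 q).2 - (rY2 q).1 : ℤ) : ℝ) * P.n :=
    mul_le_mul_of_nonneg_right w2 hn0
  have key := nest3 (RDet2_M P.n) (RDet2_I P.n (rY1 q)) (RDet2_I P.n (rY2 q))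
    {P.n / 2 + 1, P.n - 1 - P.k}
    (fun m => RDet2_b1 P d (anc P.n m) (anc P.n (P.vx m 1)) (anc P.n (P.vx m (P.L - 1))))
    (fun m y1 => RDet2_b2 P d (anc P.n m) (anc P.n (P.vx m 1)) (anc P.n (P.vx m (P.L - 1))) y1)
    200 (card_le_two.trans (by norm_num)) (fun m => RDet2_b1_card _ _ _ _ _)
    (fun m y => RDet2_b2_card _ _ _ _ _ _) (9 / 100 * P.n) (19 / 1000 * P.n) (9 / 100 * P.n)
    (by push_cast; linarith) (by push_cast; linarith) (by push_cast; linarith)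
    (by positivity) (by positivity) (by positivity) (SCov P q d)
    (fun m hm hb y1 hy1 hb1 y2 hy2 hb2 => by
      simp only [mem_insert, mem_singleton, not_or] at hb
      exact RDet2_key h hn hq hd1 hg hr hm hb.1 hb.2 hy1 hb1 hy2 hb2)
  refine le_trans ?_ key
  have h3 : 0 ≤ (P.n : ℝ) ^ 3 := by positivity
  nlinarith [h3]

end Pool.Agent.PGo.R
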