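import Pool.Agent.PGo.RCovD

/-!
# PGo-RDet3: deterministic count for (COV), group `q = 5`

PLAN.  `nest3` with `M` = the odd `m < n`, not special, with `inR P.n (252, 254) (anc P.n m)`:
`m = 2 t + 1`, `anc = 3 n - t`, `.46 n ≤ t ≤ .48 n`, at least `.019 n` elements; `Y1`, `Y2` = integers in
`[1.2 n, 1.3 n]`, `[1.6 n, 1.7 n]`, `N = 200`.  `a = anc m`, `X = a - d` in `[.51 n, .99 n]`, `a1 = anc (vx m 1)`,
`a2 = anc (vx m (L-1))`; any anchor is in `[0, .5 n]` or in `[2.5 n, 3 n]` or special (`anc_cases`).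
`b0` = the `m` with `vx m 1` or `vx m (L-1)` special (at most 4 values: `vx m 1 = n - 1` determines `m`).
`b1 m` = `bd P a1`, `bd P X` (for `|X - y1|`), `2 y1 = 3 n`, `2 y1 = X + a1` (coincidence of `|y1 - a1|` and
`y1 - X`; the other case `X = a1` is impossible by the ranges, `a1 < .505 n` or `a1 > 2.5 n`), `y1 = a2`.
`b2 m y1` = `bd P a2`, `bd P y1`, `bd P X`, `2 y2 = 3 n`, and the at most two solutions `y2` of
`δ_i = δ_j` for the pairs of `δ1 = |y1 - a1|`, `E = |X - y1|` (known) and `δ2 = |y2 - a2|`, `δ3 = |y1 - y2|`, `F = |X - y2|`: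
`δ2 = w`: `a2 ± w`, `δ3 = w`: `y1 ± w`, `F = w`: `X ± w`, `δ2 = δ3`: `2 y2 = a2 + y1`, `δ2 = F`: `2 y2 = a2 + X` (or
`X = a2`, impossible by the ranges), `δ3 = F`: `2 y2 = y1 + X`.
-/

noncomputable section

namespace Pool.Agent.PGo.R

open Finset Pool.Agent.PGr

private theorem r3_anc {n v : ℕ} (hv : v < n) :
    0 ≤ anc n v ∧ anc n v ≤ 3 * n ∧
      (2 * anc n v ≤ n ∨ 2 * anc n v = 3 * n ∨ 5 * n ≤ 2 * anc n v) := by
  rcases anc_cases hv with ⟨_, _, h⟩ | ⟨_, _, h⟩ | ⟨_, _, h⟩ <;> omega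

private theorem r3_sol {x a w : ℤ} (h : |x - a| = w) : x = a + w ∨ x = a - w := by
  rcases abs_cases (x - a) with h1 | h1 <;> omega

private theorem r3_eq {x a b : ℤ} (h : |x - a| = |x - b|) : a = b ∨ x = (a + b) / 2 := by
  rcases abs_cases (x - a) with h1 | h1 <;> rcases abs_cases (x - b) with h2 | h2 <;> omega

private theorem r3_abs_le {x a c : ℤ} (h1 : x - a ≤ c) (h2 : a - x ≤ c) : |x - a| ≤ c := by
  rcases abs_cases (x - a) with h3 | h3 <;> omega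

theorem det_cov_five {P : Par} (h : P.Ok) (hn : 10 ^ 6 ≤ P.n) {d : ℤ}
    (hd : d ∈ dall P.n) (hg : gd P d) (hr : inR P.n (rD 5) d) :
    (P.n : ℝ) ^ 3 / 10 ^ 5 ≤ ((SCov P 5 d).card : ℝ) := by
  classical
  have hk := h.k_lt
  have hkp := h.k_pos
  have hr1 : 155 * (P.n : ℤ) ≤ 100 * d := hr.1
  have hr2 : 100 * d ≤ 201 * (P.n : ℤ) := hr.2
  obtain ⟨M, hM⟩ : ∃ M : Finset ℕ, M = (Finset.Icc (46 * P.n / 100 + 1) (48 * P.n / 100)).image
      (fun t => 2 * t + 1) := ⟨_, rfl⟩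
  obtain ⟨Y1, hY1⟩ : ∃ Y : Finset ℤ, Y = Finset.Icc (12 * (P.n : ℤ) / 10 + 1)
      (13 * (P.n : ℤ) / 10) := ⟨_, rfl⟩
  obtain ⟨Y2, hY2⟩ : ∃ Y : Finset ℤ, Y = Finset.Icc (16 * (P.n : ℤ) / 10 + 1)
      (17 * (P.n : ℤ) / 10) := ⟨_, rfl⟩
  obtain ⟨b1, hb1⟩ : ∃ b : ℕ → Finset ℤ, b = fun m => (bd P (anc P.n (P.vx m 1)) ∪
      bd P (anc P.n m - d)) ∪ {(anc P.n m - d + anc P.n (P.vx m 1)) / 2} := ⟨_, rfl⟩
  obtain ⟨ls, hls⟩ : ∃ ls : ℕ → ℤ → List ℤ, ls = fun m y =>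
      [anc P.n (P.vx m (P.L - 1)) + |y - anc P.n (P.vx m 1)|,
        anc P.n (P.vx m (P.L - 1)) - |y - anc P.n (P.vx m 1)|,
        y + |y - anc P.n (P.vx m 1)|, y - |y - anc P.n (P.vx m 1)|,
        anc P.n m - d + |y - anc P.n (P.vx m 1)|, anc P.n m - d - |y - anc P.n (P.vx m 1)|,
        anc P.n (P.vx m (P.L - 1)) + |y - (anc P.n m - d)|,
        anc P.n (P.vx m (P.L - 1)) - |y - (anc P.n m - d)|,
        y + |y - (anc P.n m - d)|, y - |y - (anc P.n m - d)|,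
        (anc P.n (P.vx m (P.L - 1)) + y) / 2,
        (anc P.n (P.vx m (P.L - 1)) + (anc P.n m - d)) / 2,
        (y + (anc P.n m - d)) / 2] := ⟨_, rfl⟩
  obtain ⟨b2, hb2⟩ : ∃ b : ℕ → ℤ → Finset ℤ, b = fun m y =>
      ((bd P (anc P.n (P.vx m (P.L - 1))) ∪ bd P y) ∪ bd P (anc P.n m - d)) ∪
        (ls m y).toFinset := ⟨_, rfl⟩
  have hb1c : ∀ m, (b1 m).card ≤ 200 := by
    intro m
    rw [hb1]
    have h1 := card_bd P (anc P.n (P.vx m 1))
    have h2 := card_bd P (anc P.n m - d)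
    have h3 := card_union_le (bd P (anc P.n (P.vx m 1)) ∪ bd P (anc P.n m - d))
      {(anc P.n m - d + anc P.n (P.vx m 1)) / 2}
    have h4 := card_union_le (bd P (anc P.n (P.vx m 1))) (bd P (anc P.n m - d))
    rw [card_singleton] at h3
    exact h3.trans (by omega)
  have hb2c : ∀ m y, (b2 m y).card ≤ 200 := by
    intro m y
    rw [hb2]
    have h1 := card_bd P (anc P.n (P.vx m (P.L - 1)))
    have h2 := card_bd P y
    have h2' := card_bd P (anc P.n m - d)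
    have h3 := card_union_le ((bd P (anc P.n (P.vx m (P.L - 1))) ∪ bd P y) ∪
      bd P (anc P.n m - d)) (ls m y).toFinset
    have h4 := card_union_le (bd P (anc P.n (P.vx m (P.L - 1))) ∪ bd P y)
      (bd P (anc P.n m - d))
    have h5 := card_union_le (bd P (anc P.n (P.vx m (P.L - 1)))) (bd P y)
    have h6 : (ls m y).toFinset.card ≤ 13 := by
      refine (List.toFinset_card_le _).trans ?_
      rw [hls]
      rfl
    exact h3.trans (by omega)
  have hMc : (P.n : ℝ) / 100 + ((200 : ℕ) : ℝ) ≤ (M.card : ℝ) := by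
    have h1 : M.card = 48 * P.n / 100 + 1 - (46 * P.n / 100 + 1) := by
      rw [hM, card_image_of_injective _ (fun a b hab => by
        have : 2 * a + 1 = 2 * b + 1 := hab
        omega), Nat.card_Icc]
    have h2 : P.n + 20000 ≤ 100 * M.card := by omega
    have h3 : (P.n : ℝ) + 20000 ≤ 100 * (M.card : ℝ) := by exact_mod_cast h2
    push_cast
    linarith
  have hY1c : (P.n : ℝ) / 20 + ((200 : ℕ) : ℝ) ≤ (Y1.card : ℝ) := by
    have h1 : Y1.card = (13 * (P.n : ℤ) / 10 + 1 - (12 * (P.n : ℤ) / 10 + 1)).toNat := by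
      rw [hY1, Int.card_Icc]
    have h2 : P.n + 4000 ≤ 20 * Y1.card := by omega
    have h3 : (P.n : ℝ) + 4000 ≤ 20 * (Y1.card : ℝ) := by exact_mod_cast h2
    push_cast
    linarith
  have hY2c : (P.n : ℝ) / 20 + ((200 : ℕ) : ℝ) ≤ (Y2.card : ℝ) := by
    have h1 : Y2.card = (17 * (P.n : ℤ) / 10 + 1 - (16 * (P.n : ℤ) / 10 + 1)).toNat := by
      rw [hY2, Int.card_Icc]
    have h2 : P.n + 4000 ≤ 20 * Y2.card := by omega
    have h3 : (P.n : ℝ) + 4000 ≤ 20 * (Y2.card : ℝ) := by exact_mod_cast h2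
    push_cast
    linarith
  have key := nest3 M Y1 Y2 ∅ b1 b2 200 (by simp) hb1c hb2c ((P.n : ℝ) / 100) ((P.n : ℝ) / 20)
    ((P.n : ℝ) / 20) hMc hY1c hY2c (by positivity) (by positivity) (by positivity) (SCov P 5 d) ?_
  · refine le_trans ?_ key
    have h1 : (0 : ℝ) ≤ (P.n : ℝ) ^ 3 := by positivity
    nlinarith
  intro m hm _ y1 hy1 hy1b y2 hy2 hy2b
  rw [hM, mem_image] at hm
  obtain ⟨t, ht, htm⟩ := hm
  rw [mem_Icc] at ht
  have hmn : m < P.n := by omega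
  have hmo : m % 2 = 1 := by omega
  have hms : ¬ spec P.n m := by
    unfold spec
    omega
  have ham := anc_odd hmo hms
  have h1n := P.vx_lt h m 1
  have h2n := P.vx_lt h m (P.L - 1)
  obtain ⟨a1, ha1⟩ : ∃ a1, a1 = anc P.n (P.vx m 1) := ⟨_, rfl⟩
  obtain ⟨a2, ha2⟩ : ∃ a2, a2 = anc P.n (P.vx m (P.L - 1)) := ⟨_, rfl⟩
  obtain ⟨a, ha⟩ : ∃ a, a = anc P.n m := ⟨_, rfl⟩
  have hA1 := r3_anc h1n
  have hA2 := r3_anc h2n
  rw [← ha1] at hA1
  rw [← ha2] at hA2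
  rw [← ha] at ham
  rw [hY1, mem_Icc] at hy1
  rw [hY2, mem_Icc] at hy2
  obtain ⟨X, hX⟩ : ∃ X, X = a - d := ⟨_, rfl⟩
  have ham1 : 252 * (P.n : ℤ) ≤ 100 * a := by omega
  have ham2 : 100 * a ≤ 254 * (P.n : ℤ) := by omega
  have hX1 : 51 * (P.n : ℤ) ≤ 100 * X := by omega
  have hX2 : 100 * X ≤ 99 * (P.n : ℤ) := by omega
  have hcX : covX P 5 d (m, y1, y2) = X := by
    unfold covX
    rw [if_pos rfl, hX, ha]
  have hcE : covE P 5 d (m, y1, y2) = |y1 - X| := by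
    unfold covE
    rw [if_pos rfl, hcX]
    exact abs_sub_comm _ _
  have hcF : covF P 5 d (m, y1, y2) = |y2 - X| := by
    unfold covF
    rw [hcX]
    exact abs_sub_comm _ _
  have hz1 : y1 ∈ zall P.n := mem_zall_of (by omega) (by omega) (by omega)
  have hz2 : y2 ∈ zall P.n := mem_zall_of (by omega) (by omega) (by omega)
  have hzX : X ∈ zall P.n := mem_zall_of (by omega) (by omega) (by omega)
  have q1 : |y1 - a1| ≤ 2 * (P.n : ℤ) := r3_abs_le (by omega) (by omega)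
  have q2 : |y2 - a2| ≤ 2 * (P.n : ℤ) := r3_abs_le (by omega) (by omega)
  have q3 : |y2 - y1| ≤ 2 * (P.n : ℤ) := r3_abs_le (by omega) (by omega)
  have q4 : |y1 - X| ≤ 2 * (P.n : ℤ) := r3_abs_le (by omega) (by omega)
  have q5 : |y2 - X| ≤ 2 * (P.n : ℤ) := r3_abs_le (by omega) (by omega)
  have z1 : a2 ≠ y1 := by omega
  have z2 : X ≠ a1 := by omega
  have z3 : X ≠ a2 := by omega
  have z4 : X ≠ y1 := by omega
  have z5 : X ≠ y2 := by omega
  have z6 : y1 - X ≠ y2 - X := by omega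
  have v4 : |y1 - X| = y1 - X := abs_of_nonneg (by omega)
  have v5 : |y2 - X| = y2 - X := abs_of_nonneg (by omega)
  have v3 : |y2 - y1| = y2 - y1 := abs_of_nonneg (by omega)
  have r4 : inR P.n (10, 130) |y1 - X| := by
    rw [v4]
    constructor
    · show 10 * (P.n : ℤ) ≤ 100 * (y1 - X)
      omega
    · show 100 * (y1 - X) ≤ 130 * (P.n : ℤ)
      omega
  have r5 : inR P.n (10, 130) |y2 - X| := by
    rw [v5]
    constructor
    · show 10 * (P.n : ℤ) ≤ 100 * (y2 - X)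
      omega
    · show 100 * (y2 - X) ≤ 130 * (P.n : ℤ)
      omega
  have w1 : inR P.n (rY1 5) y1 := by
    constructor
    · show 120 * (P.n : ℤ) ≤ 100 * y1
      omega
    · show 100 * y1 ≤ 130 * (P.n : ℤ)
      omega
  have w2 : inR P.n (rY2 5) y2 := by
    constructor
    · show 160 * (P.n : ℤ) ≤ 100 * y2
      omega
    · show 100 * y2 ≤ 170 * (P.n : ℤ)
      omega
  rw [hb1] at hy1b
  rw [hb2] at hy2b
  simp only [mem_union, mem_singleton, not_or] at hy1b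
  simp only [mem_union, List.mem_toFinset, hls, List.mem_cons, not_or, List.not_mem_nil,
    not_false_eq_true, and_true] at hy2b
  rw [← ha1, ← ha, ← hX] at hy1b
  rw [← ha1, ← ha2, ← ha, ← hX] at hy2b
  obtain ⟨⟨hy1a, hy1X⟩, hy1e⟩ := hy1b
  obtain ⟨⟨⟨hy2a, hy2y⟩, hy2X⟩, e1, e2, e3, e4, e5, e6, e7, e8, e9, e10, e11, e12, e13⟩ := hy2b
  have g1 : |y1 - a1| ∈ GD P ∅ := mem_GD_of_bd hy1a q1
  have g2 : |y2 - a2| ∈ GD P ∅ := mem_GD_of_bd hy2a q2
  have g3 : |y2 - y1| ∈ GD P ∅ := mem_GD_of_bd hy2y q3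
  have g4 : |y1 - X| ∈ GD P ∅ := mem_GD_of_bd hy1X q4
  have g5 : |y2 - X| ∈ GD P ∅ := mem_GD_of_bd hy2X q5
  -- the differences are different
  have n12 : |y1 - a1| ≠ |y2 - a2| := by
    intro hh
    rcases r3_sol hh.symm with h1 | h1
    · exact e1 h1
    · exact e2 h1
  have n13 : |y1 - a1| ≠ |y2 - y1| := by
    intro hh
    rcases r3_sol hh.symm with h1 | h1
    · exact e3 h1
    · exact e4 h1
  have n23 : |y2 - a2| ≠ |y2 - y1| := by
    intro hh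
    rcases r3_eq hh with h1 | h1
    · exact z1 h1
    · exact e11 h1
  have n41 : |y1 - X| ≠ |y1 - a1| := by
    intro hh
    rcases r3_eq hh with h1 | h1
    · exact z2 h1
    · exact hy1e h1
  have n42 : |y1 - X| ≠ |y2 - a2| := by
    intro hh
    rcases r3_sol hh.symm with h1 | h1
    · exact e7 h1
    · exact e8 h1
  have n43 : |y1 - X| ≠ |y2 - y1| := by
    intro hh
    rcases r3_sol hh.symm with h1 | h1
    · exact e9 h1
    · exact e10 h1
  have n51 : |y2 - X| ≠ |y1 - a1| := by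
    intro hh
    rcases r3_sol hh with h1 | h1
    · exact e5 h1
    · exact e6 h1
  have n52 : |y2 - X| ≠ |y2 - a2| := by
    intro hh
    rcases r3_eq hh with h1 | h1
    · exact z3 h1
    · exact e12 (by rw [h1, add_comm])
  have n53 : |y2 - X| ≠ |y2 - y1| := by
    intro hh
    rcases r3_eq hh with h1 | h1
    · exact z4 h1
    · exact e13 (by rw [h1, add_comm])
  have c3 : |y1 - y2| = |y2 - y1| := abs_sub_comm _ _
  unfold SCov
  rw [mem_filter]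
  refine ⟨?_, ?_, ?_, ?_⟩
  · rw [mem_product, mem_product, mem_range]
    exact ⟨hmn, hz1, hz2⟩
  · unfold PlOk
    dsimp only
    rw [← ha1, ← ha2, ← ha, c3]
    exact ⟨⟨hmn, hmo, hms, ⟨ham1, ham2⟩⟩, ⟨hz1, w1⟩, ⟨hz2, w2⟩, g1, g2, g3, n12, n13, n23⟩
  · unfold CovOk
    rw [hcX, hcE, hcF]
    refine ⟨?_, mem_AAf_of g4 r4, mem_AAf_of g5 r5, ?_⟩
    · unfold Zo1
      rw [mem_filter]
      exact ⟨hzX, Or.inl ⟨hX1, hX2⟩⟩
    · rw [v4, v5]
      exact z6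
  · unfold Sep
    rw [hcX, hcE, hcF]
    dsimp only
    rw [← ha1, ← ha2, c3]
    exact ⟨⟨z4, z5⟩, ⟨n41, n42, n43⟩, ⟨n51, n52, n53⟩⟩

end Pool.Agent.PGo.R
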