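import Pool.Agent.PGo.RCovD

/-!
# PGo-RDet4: deterministic count for (EXC)

PLAN.  `d` exceptional: `2 d = k` or `2 d = n - k`; so `d < n / 2`.  Let `w = vx m 1`, `w' = vx m 2 = (w + k) mod n`,
`a1 = anc w`, `a2 = anc w'`.  Case `2 d = k`: `M` = the `m < n` with `w` odd, not special.  Then `a2 ≠ a1 + d`:
`w + k < n`: `w + k` odd, `a2 = a1 - d` (or special: exclude); `w + k ≥ n`: `w + k - n` odd (`n` even):
`a2 = a1 + (n - k)/2 ≠ a1 + k / 2`, or even: `a2 ≤ n/2 < a1`.  Case `2 d = n - k` (and `2 d ≠ k`): `M` = the `m` with `w` even: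
`w + k < n`: `a2 = a1 + k / 2` (`w + k` even) or `a2` high or special; `w + k ≥ n`: `a2 = a1 - d` (`w + k - n` even because
`n - k` is even).  In all cases `a2 ≠ a1 + d`.  `m ↦ vx m 1` is a bijection of `[0, n)` so `|M| ≥ n/2 - 2`
(`vx m 1 = w` for `m = (w + n - k) mod n`).
`nest2`: `b0` = the `m` with `vx m 1` or `vx m 2` special; `Y1` = integers in `[1.1 n, 1.4 n]`;
`b1 m` = `bd P a1`, `bd P (a2 - d)` (for `|y1 + d - a2|`), `2 y1 = 3 n`, `2 (y1 + d) = 3 n`, `2 y1 = a1 + a2 - d`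
(the case `y1 - a1 = -(y1 + d - a2)`; the case `y1 - a1 = y1 + d - a2` is excluded by `a2 ≠ a1 + d`).
Ranges: `y1 + d ≤ 1.9 n + 1`, all spokes at most `2 n`.
-/

noncomputable section

namespace Pool.Agent.PGo.R

open Finset Pool.Agent.PGr

private theorem r4_anc {n v : ℕ} (hv : v < n) :
    0 ≤ anc n v ∧ anc n v ≤ 3 * n ∧
      (2 * anc n v ≤ n ∨ 2 * anc n v = 3 * n ∨ 5 * n ≤ 2 * anc n v) := by
  rcases anc_cases hv with ⟨_, _, h⟩ | ⟨_, _, h⟩ | ⟨_, _, h⟩ <;> omega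

private theorem r4_eq {x y a b : ℤ} (h : |x - a| = |y - b|) : x - a = y - b ∨ x - a = b - y := by
  rcases abs_cases (x - a) with h1 | h1 <;> rcases abs_cases (y - b) with h2 | h2 <;> omega

private theorem r4_abs_le {x a c : ℤ} (h1 : x - a ≤ c) (h2 : a - x ≤ c) : |x - a| ≤ c := by
  rcases abs_cases (x - a) with h3 | h3 <;> omega

/-- the anchors of two neighbours do not differ by `d` -/
private theorem r4_ne {n k w w' : ℕ} {d : ℤ} (hk : 2 * k < n) (hkp : 0 < k) (hw : w < n)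
    (hw' : w' < n) (hww : w' = w + k ∨ w' + n = w + k) (hd0 : 1 ≤ d)
    (hc : (2 * d = k ∧ w % 2 = 1 ∧ w + 1 < n) ∨ (2 * d = n - k ∧ w % 2 = 0)) :
    anc n w' ≠ anc n w + d := by
  rcases hc with ⟨h1, h2, h3⟩ | ⟨h1, h2⟩
  · rcases anc_cases hw with ⟨h4, _, h5⟩ | ⟨h4, h6, h5⟩ | ⟨h4, h6, h5⟩
    · omega
    · rcases anc_cases hw' with ⟨h7, _, h8⟩ | ⟨h7, h9, h8⟩ | ⟨h7, h9, h8⟩
      · omega
      · rcases hww with hww | hww <;> omega
      · omega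
    · exact absurd h6.2 (by omega)
  · rcases anc_cases hw with ⟨h4, _, h5⟩ | ⟨h4, h6, h5⟩ | ⟨h4, h6, h5⟩
    · rcases anc_cases hw' with ⟨h7, _, h8⟩ | ⟨h7, h9, h8⟩ | ⟨h7, h9, h8⟩
      · rcases hww with hww | hww <;> omega
      · omega
      · omega
    · omega
    · omega

theorem det_exc {P : Par} (h : P.Ok) (hn : 10 ^ 6 ≤ P.n) {d : ℤ}
    (hd : d ∈ dall P.n) (hg : ¬ gd P d) :
    (P.n : ℝ) ^ 2 / 100 ≤ ((SExc P d).card : ℝ) := by
  classical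
  have hk := h.k_lt
  have hkp := h.k_pos
  have hdr := dall_range hd
  have hg' : 2 * d = P.k ∨ 2 * d = (P.n : ℤ) - P.k := by
    unfold gd at hg
    by_contra hcon
    rw [not_or] at hcon
    exact hg hcon
  obtain ⟨r, hr⟩ : ∃ r : ℕ, (2 * d = P.k ∧ r = 1) ∨ (2 * d = (P.n : ℤ) - P.k ∧ r = 0) := by
    rcases hg' with h1 | h1
    · exact ⟨1, Or.inl ⟨h1, rfl⟩⟩
    · exact ⟨0, Or.inr ⟨h1, rfl⟩⟩
  have hr1 : r ≤ 1 := by omega
  have hd2 : 2 * d < P.n := by omega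
  obtain ⟨M, hM⟩ : ∃ M : Finset ℕ, M = (Finset.range (P.n / 2 - 1)).image
      (fun t => (2 * t + r + (P.n - P.k)) % P.n) := ⟨_, rfl⟩
  obtain ⟨Y1, hY1⟩ : ∃ Y : Finset ℤ, Y = Finset.Icc (11 * (P.n : ℤ) / 10 + 1)
      (14 * (P.n : ℤ) / 10) := ⟨_, rfl⟩
  obtain ⟨b1, hb1⟩ : ∃ b : ℕ → Finset ℤ, b = fun m => (bd P (anc P.n (P.vx m 1)) ∪
      bd P (anc P.n (P.vx m 2) - d)) ∪
      {3 * (P.n : ℤ) / 2 - d, (anc P.n (P.vx m 1) + anc P.n (P.vx m 2) - d) / 2} := ⟨_, rfl⟩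
  have hb1c : ∀ m, (b1 m).card ≤ 200 := by
    intro m
    rw [hb1]
    have h1 := card_bd P (anc P.n (P.vx m 1))
    have h2 := card_bd P (anc P.n (P.vx m 2) - d)
    have h3 := card_union_le (bd P (anc P.n (P.vx m 1)) ∪ bd P (anc P.n (P.vx m 2) - d))
      {3 * (P.n : ℤ) / 2 - d, (anc P.n (P.vx m 1) + anc P.n (P.vx m 2) - d) / 2}
    have h4 := card_union_le (bd P (anc P.n (P.vx m 1))) (bd P (anc P.n (P.vx m 2) - d))
    have h5 := card_le_two (a := 3 * (P.n : ℤ) / 2 - d)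
      (b := (anc P.n (P.vx m 1) + anc P.n (P.vx m 2) - d) / 2)
    exact h3.trans (by omega)
  have hMc : (P.n : ℝ) / 4 + ((200 : ℕ) : ℝ) ≤ (M.card : ℝ) := by
    have h1 : M.card = P.n / 2 - 1 := by
      rw [hM, card_image_of_injOn, card_range]
      intro a ha b hb hab
      have ha' : a < P.n / 2 - 1 := mem_range.1 (mem_coe.1 ha)
      have hb' : b < P.n / 2 - 1 := mem_range.1 (mem_coe.1 hb)
      have h2 : (2 * a + r) ≡ (2 * b + r) [MOD P.n] :=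
        Nat.ModEq.add_right_cancel' (P.n - P.k) hab
      have h3 : (2 * a + r) % P.n = (2 * b + r) % P.n := h2
      rw [Nat.mod_eq_of_lt (by omega), Nat.mod_eq_of_lt (by omega)] at h3
      omega
    have h2 : P.n + 800 ≤ 4 * M.card := by omega
    have h3 : (P.n : ℝ) + 800 ≤ 4 * (M.card : ℝ) := by exact_mod_cast h2
    push_cast
    linarith
  have hY1c : (P.n : ℝ) / 10 + ((200 : ℕ) : ℝ) ≤ (Y1.card : ℝ) := by
    have h1 : Y1.card = (14 * (P.n : ℤ) / 10 + 1 - (11 * (P.n : ℤ) / 10 + 1)).toNat := by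
      rw [hY1, Int.card_Icc]
    have h2 : P.n + 2000 ≤ 10 * Y1.card := by omega
    have h3 : (P.n : ℝ) + 2000 ≤ 10 * (Y1.card : ℝ) := by exact_mod_cast h2
    push_cast
    linarith
  have key := nest2 M Y1 ∅ b1 200 (by simp) hb1c ((P.n : ℝ) / 4) ((P.n : ℝ) / 10)
    hMc hY1c (by positivity) (by positivity) (SExc P d) ?_
  · refine le_trans ?_ key
    have h1 : (0 : ℝ) ≤ (P.n : ℝ) ^ 2 := by positivity
    nlinarith
  intro m hm _ y1 hy1 hy1b
  rw [hM, mem_image] at hm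
  obtain ⟨t, ht, htm⟩ := hm
  rw [mem_range] at ht
  have hmn : m < P.n := by
    rw [← htm]
    exact Nat.mod_lt _ h.n_pos
  have hw : P.vx m 1 = 2 * t + r := by
    unfold Par.vx
    rw [← htm, Nat.mod_add_mod, one_mul, show 2 * t + r + (P.n - P.k) + P.k = 2 * t + r + P.n by
      omega, Nat.add_mod_right, Nat.mod_eq_of_lt (by omega)]
  have hw' : P.vx m 2 = (P.vx m 1 + P.k) % P.n := by
    have h1 := P.vx_vx m 1 1
    rw [← h1]
    unfold Par.vx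
    rw [one_mul]
  have h1n := P.vx_lt h m 1
  have h2n := P.vx_lt h m 2
  have hww : P.vx m 2 = P.vx m 1 + P.k ∨ P.vx m 2 + P.n = P.vx m 1 + P.k := by
    rw [hw']
    rcases Nat.lt_or_ge (P.vx m 1 + P.k) P.n with h1 | h1
    · left
      exact Nat.mod_eq_of_lt h1
    · right
      rw [Nat.mod_eq_sub_mod h1, Nat.mod_eq_of_lt (by omega)]
      omega
  have hne : anc P.n (P.vx m 2) ≠ anc P.n (P.vx m 1) + d := by
    apply r4_ne hk hkp h1n h2n hww hdr.1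
    rw [hw]
    omega
  obtain ⟨a1, ha1⟩ : ∃ a1, a1 = anc P.n (P.vx m 1) := ⟨_, rfl⟩
  obtain ⟨a2, ha2⟩ : ∃ a2, a2 = anc P.n (P.vx m 2) := ⟨_, rfl⟩
  have hA1 := r4_anc h1n
  have hA2 := r4_anc h2n
  rw [← ha1] at hA1 hne
  rw [← ha2] at hA2 hne
  rw [hY1, mem_Icc] at hy1
  have hd1 := hdr.1
  have hz1 : y1 ∈ zall P.n := mem_zall_of (by omega) (by omega) (by omega)
  have hz2 : 2 * (y1 + d) ≠ 3 * (P.n : ℤ) → y1 + d ∈ zall P.n := fun hq =>
    mem_zall_of (by omega) (by omega) hq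
  have q1 : |y1 - a1| ≤ 2 * (P.n : ℤ) := r4_abs_le (by omega) (by omega)
  have q2 : |y1 - (a2 - d)| ≤ 2 * (P.n : ℤ) := r4_abs_le (by omega) (by omega)
  have w1 : inR P.n (110, 140) y1 := by
    constructor
    · show 110 * (P.n : ℤ) ≤ 100 * y1
      omega
    · show 100 * y1 ≤ 140 * (P.n : ℤ)
      omega
  rw [hb1] at hy1b
  simp only [mem_union, mem_singleton, mem_insert, not_or] at hy1b
  rw [← ha1, ← ha2] at hy1b
  obtain ⟨⟨hy1a, hy1X⟩, e1, e2⟩ := hy1b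
  have g1 : |y1 - a1| ∈ GD P ∅ := mem_GD_of_bd hy1a q1
  have g2 : |y1 - (a2 - d)| ∈ GD P ∅ := mem_GD_of_bd hy1X q2
  have hz2' : y1 + d ∈ zall P.n := hz2 (by omega)
  have c1 : |y1 + d - a2| = |y1 - (a2 - d)| := by
    congr 1
    ring
  have n1 : |y1 - a1| ≠ |y1 + d - a2| := by
    intro hh
    rcases r4_eq hh with h1 | h1
    · exact hne (by linarith)
    · exact e2 (by omega)
  unfold SExc
  rw [mem_filter]
  refine ⟨?_, ?_⟩
  · rw [mem_product, mem_range]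
    exact ⟨hmn, hz1⟩
  · unfold ExcOk
    dsimp only
    rw [← ha1, ← ha2]
    refine ⟨hmn, ⟨hz1, w1⟩, hz2', g1, ?_, n1⟩
    rw [c1]
    exact g2

end Pool.Agent.PGo.R
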