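import Pool.Agent.PGo.RFam

/-!
# PGo-RMul: every bit is used by few configurations

PLAN.  `dfi`, `svp`: the label `x = t.2.1` is `i.2` or one of `anc ± i.2`, `z1 ± i.2`, `z2 ± i.2`: at most 7.
`exc`: pairs `(m, y1)`; label bits: `y1` or `y1 + d` given: at most `2 n`; difference bits: for given `m` at most
4 values of `y1`: `4 n`.
`cov`: `t ∈ SCov`; `up3_y`, `up3_z`, `up3_m` of RNest.lean with `card zall ≤ 2 n + 2`: labels: `y1 = w`, `y2 = w`: `≤ n (2n+2)`;
`X = w`: for `q < 5` `y1 = w - d`; for `q = 5` `anc m = w + d`, one `m` (odd, not special: `anc_odd`), `(2n+2)^2`;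
differences: `δ1`: two `y1` for each `m`; `δ2`, `δ3`, `covF`: two `y2` for each `(m, y1)`; `covE`: two `y1` for each `m`.
Sum at most `200 n ^ 2`.
-/

noncomputable section

namespace Pool.Agent.PGo.R

open Finset Pool.Agent.PGr

private theorem rmul_ab {x a w : ℤ} (h : w = |x - a|) : x = a + w ∨ x = a - w := by
  rcases abs_choice (x - a) with h' | h' <;> rw [h'] at h
  · left
    omega
  · right
    omega

private theorem rmul_card7 {α : Type*} [DecidableEq α] (a b c d e f g : α) :
    ({a, b, c, d, e, f, g} : Finset α).card ≤ 7 :=
  (Finset.card_insert_le _ _).trans (Nat.succ_le_succ Finset.card_le_six)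

open Classical in
private theorem rmul_two (a z1 z2 : ℤ) (i : Bool × ℤ) (S : Finset ℤ)
    (T : ℕ × ℤ × ℤ → Finset (Bool × ℤ))
    (hT : ∀ x ∈ S, i ∈ T (0, x, 0) → i = (true, x) ∨ i = (false, |x - a|) ∨
      i = (false, |x - z1|) ∨ i = (false, |x - z2|)) :
    (((S.image fun x => ((0 : ℕ), x, (0 : ℤ))).filter fun t => i ∈ T t).card) ≤ 10 := by
  have hsub : ((S.image fun x => ((0 : ℕ), x, (0 : ℤ))).filter fun t => i ∈ T t) ⊆
      (({i.2, a + i.2, a - i.2, z1 + i.2, z1 - i.2, z2 + i.2, z2 - i.2} : Finset ℤ).image
        fun x => ((0 : ℕ), x, (0 : ℤ))) := by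
    intro t ht
    rw [Finset.mem_filter, Finset.mem_image] at ht
    obtain ⟨⟨x, hx, rfl⟩, hi⟩ := ht
    rw [Finset.mem_image]
    refine ⟨x, ?_, rfl⟩
    simp only [Finset.mem_insert, Finset.mem_singleton]
    rcases hT x hx hi with h | h | h | h
    · left
      rw [h]
    · rcases rmul_ab (congrArg Prod.snd h) with h | h
      · right; left; exact h
      · right; right; left; exact h
    · rcases rmul_ab (congrArg Prod.snd h) with h | h
      · right; right; right; left; exact h
      · right; right; right; right; left; exact h
    · rcases rmul_ab (congrArg Prod.snd h) with h | h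
      · right; right; right; right; right; left; exact h
      · right; right; right; right; right; right; exact h
  refine (Finset.card_le_card hsub).trans (Finset.card_image_le.trans ?_)
  exact (rmul_card7 _ _ _ _ _ _ _).trans (by norm_num)

open Classical in
private theorem rmul_exc (P : Par) (d : ℤ) (i : Bool × ℤ) :
    ((Sf P (Fm.exc d)).filter fun t => i ∈ Tf P (Fm.exc d) t).card ≤ 30 * P.n := by
  have h1 := up3_y (range P.n) (zall P.n) {0}
    ((Sf P (Fm.exc d)).filter fun t => i ∈ Tf P (Fm.exc d) t) (by
      intro t ht
      rw [Finset.mem_filter] at ht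
      have ht1 := ht.1
      simp only [Sf, Finset.mem_image] at ht1
      obtain ⟨u, hu, rfl⟩ := ht1
      simp only [SExc, Finset.mem_filter, Finset.mem_product] at hu
      simp only [Finset.mem_product, Finset.mem_singleton]
      exact ⟨hu.1.1, hu.1.2, trivial⟩) 6
    (fun m => {i.2, i.2 - d, anc P.n (P.vx m 1) + i.2, anc P.n (P.vx m 1) - i.2,
      anc P.n (P.vx m 2) + i.2 - d, anc P.n (P.vx m 2) - i.2 - d})
    (fun m => Finset.card_le_six) (by
      intro t ht
      rw [Finset.mem_filter] at ht
      have ht2 := ht.2
      simp only [Tf, Finset.mem_insert, Finset.mem_singleton] at ht2 ⊢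
      rcases ht2 with h | h | h | h
      · left
        rw [h]
      · right; left
        rw [h]
        ring
      · rcases rmul_ab (congrArg Prod.snd h) with h | h
        · right; right; left; exact h
        · right; right; right; left; exact h
      · rcases rmul_ab (congrArg Prod.snd h) with h | h
        · right; right; right; right; left
          linarith
        · right; right; right; right; right
          linarith)
  refine h1.trans ?_
  rw [Finset.card_range, Finset.card_singleton]
  omega

open Classical in
private theorem rmul_cov {P : Par} (h : P.Ok) (hn : 10 ^ 6 ≤ P.n) (q : Fin 6) (d : ℤ)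
    (i : Bool × ℤ) :
    ((Sf P (Fm.cov q d)).filter fun t => i ∈ Tf P (Fm.cov q d) t).card ≤ 200 * P.n ^ 2 := by
  have _ := h
  set S := (Sf P (Fm.cov q d)).filter fun t => i ∈ Tf P (Fm.cov q d) t with hS
  have hsub : S ⊆ range P.n ×ˢ zall P.n ×ˢ zall P.n := by
    intro t ht
    rw [hS, Finset.mem_filter] at ht
    have ht1 := ht.1
    simp only [Sf, SCov, Finset.mem_filter] at ht1
    exact ht1.1
  let B1 : ℕ → Finset ℤ := fun m => {i.2, i.2 - d, anc P.n (P.vx m 1) + i.2,
    anc P.n (P.vx m 1) - i.2, anc P.n m - d + i.2, anc P.n m - d - i.2}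
  let B2 : ℕ → ℤ → Finset ℤ := fun m y => {i.2, anc P.n (P.vx m (P.L - 1)) + i.2,
    anc P.n (P.vx m (P.L - 1)) - i.2, y + i.2, y - i.2, covX P q d (m, y, 0) + i.2,
    covX P q d (m, y, 0) - i.2}
  let B3 : Finset ℕ := (range P.n).filter fun m => m % 2 = 1 ∧ ¬ spec P.n m ∧
    anc P.n m = i.2 + d
  have hB3 : B3.card ≤ 1 := by
    rw [Finset.card_le_one]
    intro m hm m' hm'
    simp only [B3, Finset.mem_filter] at hm hm'
    have e1 := anc_odd hm.2.1 hm.2.2.1
    have e2 := anc_odd hm'.2.1 hm'.2.2.1
    rw [hm.2.2.2] at e1
    rw [hm'.2.2.2] at e2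
    have e3 : (m : ℤ) = m' := by linarith
    exact_mod_cast e3
  have h1 := up3_y (range P.n) (zall P.n) (zall P.n) (S.filter fun t => t.2.1 ∈ B1 t.1)
    ((Finset.filter_subset _ _).trans hsub) 6 B1 (fun m => Finset.card_le_six)
    (fun t ht => (Finset.mem_filter.1 ht).2)
  have h2 := up3_z (range P.n) (zall P.n) (zall P.n) (S.filter fun t => t.2.2 ∈ B2 t.1 t.2.1)
    ((Finset.filter_subset _ _).trans hsub) 7 B2 (fun m y => rmul_card7 _ _ _ _ _ _ _)
    (fun t ht => (Finset.mem_filter.1 ht).2)
  have h3 := up3_m (range P.n) (zall P.n) (zall P.n) (S.filter fun t => t.1 ∈ B3)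
    ((Finset.filter_subset _ _).trans hsub) 1 B3 hB3
    (fun t ht => (Finset.mem_filter.1 ht).2)
  have hcov : S ⊆ ((S.filter fun t => t.2.1 ∈ B1 t.1) ∪
      (S.filter fun t => t.2.2 ∈ B2 t.1 t.2.1)) ∪ (S.filter fun t => t.1 ∈ B3) := by
    intro t ht
    have hkey : t.2.1 ∈ B1 t.1 ∨ t.2.2 ∈ B2 t.1 t.2.1 ∨ t.1 ∈ B3 := by
      have ht' := ht
      rw [hS, Finset.mem_filter] at ht'
      obtain ⟨ht1, ht2⟩ := ht'
      simp only [Sf, SCov, Finset.mem_filter] at ht1
      obtain ⟨⟨hm1, hm2, hm3, -⟩, -⟩ := ht1.2.1
      have hX : covX P q d (t.1, t.2.1, 0) = covX P q d t := by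
        unfold covX
        split_ifs <;> rfl
      simp only [Tf, Finset.mem_insert, Finset.mem_singleton] at ht2
      rcases ht2 with h | h | h | h | h | h | h | h
      · left
        simp only [B1, Finset.mem_insert]
        left
        rw [h]
      · right; left
        simp only [B2, Finset.mem_insert]
        left
        rw [h]
      · by_cases hq : q = 5
        · right; right
          simp only [B3, Finset.mem_filter, Finset.mem_range]
          refine ⟨hm1, hm2, hm3, ?_⟩
          rw [h]
          show anc P.n t.1 = covX P q d t + d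
          unfold covX
          rw [if_pos hq]
          ring
        · left
          simp only [B1, Finset.mem_insert]
          right; left
          rw [h]
          show t.2.1 = covX P q d t - d
          unfold covX
          rw [if_neg hq]
          ring
      · left
        simp only [B1, Finset.mem_insert]
        rcases rmul_ab (congrArg Prod.snd h) with h | h
        · right; right; left; exact h
        · right; right; right; left; exact h
      · right; left
        simp only [B2, Finset.mem_insert]
        rcases rmul_ab (congrArg Prod.snd h) with h | h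
        · right; left; exact h
        · right; right; left; exact h
      · right; left
        simp only [B2, Finset.mem_insert]
        rcases rmul_ab (congrArg Prod.snd h) with h | h
        · right; right; right; right; left
          linarith
        · right; right; right; left
          linarith
      · left
        simp only [B1, Finset.mem_insert, Finset.mem_singleton]
        have h4 : i.2 = covE P q d t := congrArg Prod.snd h
        unfold covE at h4
        by_cases hq : q = 5
        · rw [if_pos hq] at h4
          have h5 : covX P q d t = anc P.n t.1 - d := by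
            unfold covX
            rw [if_pos hq]
          rcases rmul_ab h4 with h6 | h6
          · right; right; right; right; right
            linarith
          · right; right; right; right; left
            linarith
        · rw [if_neg hq] at h4
          have h5 : covX P q d t = t.2.1 + d := by
            unfold covX
            rw [if_neg hq]
          rcases rmul_ab h4 with h6 | h6
          · right; right; right; right; left
            linarith
          · right; right; right; right; right
            linarith
      · right; left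
        simp only [B2, Finset.mem_insert, Finset.mem_singleton]
        have h4 : i.2 = covF P q d t := congrArg Prod.snd h
        unfold covF at h4
        rw [hX]
        rcases rmul_ab h4 with h6 | h6
        · right; right; right; right; right; right
          linarith
        · right; right; right; right; right; left
          linarith
    rcases hkey with h | h | h
    · exact Finset.mem_union_left _ (Finset.mem_union_left _ (Finset.mem_filter.2 ⟨ht, h⟩))
    · exact Finset.mem_union_left _ (Finset.mem_union_right _ (Finset.mem_filter.2 ⟨ht, h⟩))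
    · exact Finset.mem_union_right _ (Finset.mem_filter.2 ⟨ht, h⟩)
  have hz : (zall P.n).card ≤ 2 * P.n + 2 := zall_card_le (by omega)
  have h4 := Finset.card_le_card hcov
  have h5 := Finset.card_union_le ((S.filter fun t => t.2.1 ∈ B1 t.1) ∪
      (S.filter fun t => t.2.2 ∈ B2 t.1 t.2.1)) (S.filter fun t => t.1 ∈ B3)
  have h6 := Finset.card_union_le (S.filter fun t => t.2.1 ∈ B1 t.1)
      (S.filter fun t => t.2.2 ∈ B2 t.1 t.2.1)
  rw [Finset.card_range] at h1 h2
  have h7 : P.n * (zall P.n).card ≤ P.n * (2 * P.n + 2) := Nat.mul_le_mul_left _ hz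
  have h8 : (zall P.n).card * (zall P.n).card ≤ (2 * P.n + 2) * (2 * P.n + 2) :=
    Nat.mul_le_mul hz hz
  nlinarith

open Classical in
theorem mul_le {P : Par} (h : P.Ok) (hn : 10 ^ 6 ≤ P.n) (f : Fm) (i : Bool × ℤ) :
    ((Sf P f).filter fun t => i ∈ Tf P f t).card ≤ mf P f := by
  cases f with
  | dfi v z1 z2 =>
    exact rmul_two (anc P.n v) z1 z2 i _ _ (fun x _ hi => by
      simpa only [Tf, Finset.mem_insert, Finset.mem_singleton] using hi)
  | svp v z1 z2 =>
    exact rmul_two (anc P.n v) z1 z2 i _ _ (fun x _ hi => by
      simpa only [Tf, Finset.mem_insert, Finset.mem_singleton] using hi)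
  | cov q d => exact rmul_cov h hn q d i
  | exc d => exact rmul_exc P d i

end Pool.Agent.PGo.R
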