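import Pool.Agent.PGo.RFin
import Pool.Agent.PGo.RMul
import Pool.Agent.PGo.RB
import Pool.Agent.PGo.RDet2
import Pool.Agent.PGo.RDet3
import Pool.Agent.PGo.RDet4

/-!
# PGo-RBitsM: the bits exist

PLAN.  `sf_lower`: `det_def`, `det_svp` (with `mf = 10`: `n / 50 ≥ c n 10`), `det_cov_lt`, `det_cov_five`
(`n ^ 3 / 10 ^ 5 ≥ c n 200 n ^ 2`), `det_exc` (`n ^ 2 / 100 ≥ c n 30 n`) give the claim with `c = 1 / (2 * 10 ^ 7)`
(images under injective maps have the same number of elements).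
`bits`: `random_bits K0 8` with `A := Abits P`, `U := (zall P.n).image (fun x => (true, x))`,
`H := {0, 1}`, `Fam` from `exists_fam` (intersected with `FmOk`: `Fam.filter (FmOk P)`), `S := Sf P`, `T := Tf P`, `G := Gf P K0`, `m := mf P` (positive).
`n₀` for `n = P.n ≥ g`.  Put `LAM1 := (Zo1 P).filter (ω (true, ·) = 0)`, `LAM2 := (Zo2 P).filter (ω (true, ·) = 1)`,
`PP := (zall P.n).filter (2 ≤ ω (true, ·))`, `A := (AAf P).filter (ω (false, ·) odd)`.  `lamc`: `LAM1 ∪ LAM2` injects into the set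
counted in the first conclusion, `3 (2 n + 2) 2 / K0 ≤ 20 n / K0`.  For each `f` the successful configurations
satisfy the conclusion of the corresponding field of `Bits`: e.g. `dfi`: `x ∈ Zo2`, label bit `1`, the three differences in `AAf`
with odd bits; `svp`: the differences are in `GD P ∅`, even bits, so not in `A`, so in `GD P A`; `cov`, `exc` similarly.
The constant `c' = (1 / (2 * 10 ^ 7)) / (2 K0 ^ 8)` works (`|S f| ≥ ...`: `dfi`: `n / 50 / (2 K0 ^ 8)` and so on).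
`A_card`: from `defi` for one choice of `v, z1, z2` (e.g. `v = 0`, `z1 = n`, `z2 = n + 1`): the map `x ↦ |x - anc|` from the counted
set to `A` is at most 2-to-1; so replace `c'` by `c' / 2`.
-/

noncomputable section

namespace Pool.Agent.PGo.R

open Finset Pool.Agent.PGr

theorem sf_lower {P : Par} (h : P.Ok) (hn : 10 ^ 6 ≤ P.n) {f : Fm} (hf : FmOk P f) :
    1 / (2 * 10 ^ 7) * (P.n : ℝ) * mf P f ≤ ((Sf P f).card : ℝ) := by
  have hn0 : (0 : ℝ) ≤ (P.n : ℝ) := Nat.cast_nonneg _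
  cases f with
  | dfi v z1 z2 =>
    obtain ⟨hv, h1, h2, h12, h1a, h2a⟩ := hf
    have h3 := det_def h hn hv h1 h2 h12 h1a h2a
    have h4 : (Sf P (Fm.dfi v z1 z2)).card =
        ((Zo2 P).filter fun x => Df3 (AAf P) x (anc P.n v) z1 z2).card := by
      unfold Sf
      rw [Finset.card_image_of_injective]
      intro x y hxy
      exact congrArg (fun t : ℕ × ℤ × ℤ => t.2.1) hxy
    rw [h4]
    refine le_trans ?_ h3
    show 1 / (2 * 10 ^ 7) * (P.n : ℝ) * ((10 : ℕ) : ℝ) ≤ _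
    push_cast
    linarith
  | svp v z1 z2 =>
    obtain ⟨hv, h1, h2, h12, h1a, h2a⟩ := hf
    have h3 := det_svp h hn hv h1 h2 h12 h1a h2a
    have h4 : (Sf P (Fm.svp v z1 z2)).card =
        ((zall P.n).filter fun y => inR P.n (110, 190) y ∧
          Df3 (GD P ∅) y (anc P.n v) z1 z2).card := by
      unfold Sf
      rw [Finset.card_image_of_injective]
      intro x y hxy
      exact congrArg (fun t : ℕ × ℤ × ℤ => t.2.1) hxy
    rw [h4]
    refine le_trans ?_ h3
    show 1 / (2 * 10 ^ 7) * (P.n : ℝ) * ((10 : ℕ) : ℝ) ≤ _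
    push_cast
    linarith
  | cov q d =>
    obtain ⟨hd, hg, hr⟩ := hf
    have h3 : (P.n : ℝ) ^ 3 / 10 ^ 5 ≤ ((SCov P q d).card : ℝ) := by
      by_cases hq : q = 5
      · subst hq
        exact det_cov_five h hn hd hg hr
      · exact det_cov_lt h hn hq hd hg hr
    refine le_trans (le_of_eq ?_) h3
    show 1 / (2 * 10 ^ 7) * (P.n : ℝ) * ((200 * P.n ^ 2 : ℕ) : ℝ) = _
    push_cast
    ring
  | exc d =>
    obtain ⟨hd, hg⟩ := hf
    have h3 := det_exc h hn hd hg
    have h4 : (Sf P (Fm.exc d)).card = (SExc P d).card := by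
      unfold Sf
      rw [Finset.card_image_of_injective]
      intro x y hxy
      exact Prod.ext (congrArg (fun t : ℕ × ℤ × ℤ => t.1) hxy)
        (congrArg (fun t : ℕ × ℤ × ℤ => t.2.1) hxy)
    rw [h4]
    refine le_trans ?_ h3
    show 1 / (2 * 10 ^ 7) * (P.n : ℝ) * ((30 * P.n : ℕ) : ℝ) ≤ _
    push_cast
    nlinarith [mul_nonneg hn0 hn0]

theorem bits {L p : ℕ} (h : Adm L p) : BitsStat L p := by
  classical
  intro K0 hK8 _
  have hK0 : 0 < K0 := by omega
  have hK1 : 1 < K0 := by omega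
  obtain ⟨n₀, hn₀⟩ := random_bits K0 8 hK0 (by norm_num) (1 / (2 * 10 ^ 7)) (by norm_num)
  have hKr : (0 : ℝ) < (K0 : ℝ) := by exact_mod_cast hK0
  have hden : (0 : ℝ) < 2 * (K0 : ℝ) ^ 8 := by positivity
  refine ⟨1 / (2 * 10 ^ 7) / (2 * (K0 : ℝ) ^ 8), by positivity, max (10 ^ 6) n₀, ?_⟩
  intro g hg
  have hg6 : 10 ^ 6 ≤ g := le_trans (le_max_left _ _) hg
  have hgn : n₀ ≤ g := le_trans (le_max_right _ _) hg
  set P : Par := Par.mk L p g with hPdef
  have hP : P.Ok := ⟨h, show 0 < g by omega⟩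
  have hPn : g ≤ P.n := hP.g_le_n
  have hn : 10 ^ 6 ≤ P.n := le_trans hg6 hPn
  have hnr : (10 ^ 6 : ℝ) ≤ (P.n : ℝ) := by exact_mod_cast hn
  have hn0 : (0 : ℝ) ≤ (P.n : ℝ) := Nat.cast_nonneg _
  obtain ⟨Fam0, hFam0, hFam⟩ := exists_fam (P := P) hn
  have hzU : (zall P.n).image (fun x => ((true, x) : Bool × ℤ)) ⊆ Abits P := by
    intro i hi
    obtain ⟨x, hx, rfl⟩ := Finset.mem_image.1 hi
    have h1 := zall_range (n := P.n) (by omega) hx
    refine Finset.mem_product.2 ⟨Finset.mem_univ _, Finset.mem_Icc.2 ⟨?_, ?_⟩⟩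
    · show -(10 * (P.n : ℤ)) ≤ x
      omega
    · show x ≤ 10 * (P.n : ℤ)
      omega
  let H : Finset (Fin K0) := {⟨0, hK0⟩, ⟨1, hK1⟩}
  have hFm : ∀ f ∈ Fam0.filter (FmOk P), FmOk P f := fun f hf => (Finset.mem_filter.1 hf).2
  obtain ⟨ω, hω1, hω2⟩ := hn₀ P.n (le_trans hgn hPn) (Abits P)
    ((zall P.n).image (fun x => ((true, x) : Bool × ℤ))) H hzU (Fam0.filter (FmOk P)) (Sf P) (Tf P)
    (Gf P K0) (mf P)
    (le_trans (by exact_mod_cast Finset.card_filter_le _ _) hFam0)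
    (fun f hf j hj => ⟨tf_sub hP hn (hFm f hf) hj, tf_card P f j, fun i hi => gf_sat hK8 hj hi⟩)
    (fun f _ a => by
      refine le_trans (le_of_eq (congrArg Finset.card ?_)) (mul_le hP hn f a)
      ext j
      simp only [Finset.mem_filter])
    (fun f hf => ⟨by
      cases f with
      | dfi v z1 z2 => exact (by norm_num : 0 < 10)
      | svp v z1 z2 => exact (by norm_num : 0 < 10)
      | cov q d => exact Nat.mul_pos (by norm_num) (pow_pos (by omega) 2)
      | exc d => exact Nat.mul_pos (by norm_num) (by omega), sf_lower hP hn (hFm f hf)⟩)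
  have hmem : ∀ f, FmOk P f → f ∈ Fam0.filter (FmOk P) := fun f hf =>
    Finset.mem_filter.2 ⟨hFam f hf, hf⟩
  -- the number of successes
  have hsucc : ∀ f, FmOk P f → 1 / (2 * 10 ^ 7) / (2 * (K0 : ℝ) ^ 8) * ((P.n : ℝ) * mf P f) ≤
      (((Sf P f).filter fun j => ∀ i ∈ Tf P f j, Gf P K0 f j i (ω i)).card : ℝ) := by
    intro f hf
    refine le_trans ?_ (hω2 f (hmem f hf))
    have h1 := sf_lower hP hn hf
    rw [div_mul_eq_mul_div, ← mul_assoc]
    exact div_le_div_of_nonneg_right h1 hden.le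
  set LAM1 : Finset ℤ := (Zo1 P).filter (fun x => (ω (true, x)).1 = 0) with hLAM1
  set LAM2 : Finset ℤ := (Zo2 P).filter (fun x => (ω (true, x)).1 = 1) with hLAM2
  set PP : Finset ℤ := (zall P.n).filter (fun x => 2 ≤ (ω (true, x)).1) with hPP
  set A : Finset ℤ := (AAf P).filter (fun d => (ω (false, d)).1 % 2 = 1) with hA
  have hc0 : (0 : ℝ) ≤ 1 / (2 * 10 ^ 7) / (2 * (K0 : ℝ) ^ 8) := by positivity
  have hAmem : ∀ d ∈ AAf P, (ω (false, d)).1 % 2 = 1 → d ∈ A := fun d h1 h2 =>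
    Finset.mem_filter.2 ⟨h1, h2⟩
  have hGDmem : ∀ d ∈ GD P ∅, (ω (false, d)).1 % 2 = 0 → d ∈ GD P A := by
    intro d h1 h2
    unfold GD at h1 ⊢
    rw [Finset.mem_filter, Finset.mem_sdiff] at h1 ⊢
    refine ⟨⟨h1.1.1, fun h3 => ?_⟩, h1.2⟩
    have h4 := (Finset.mem_filter.1 h3).2
    omega
  have defi : ∀ v < P.n, ∀ z1 z2 : ℤ, inR P.n (70, 230) z1 → inR P.n (70, 230) z2 → z1 ≠ z2 →
      z1 ≠ anc P.n v → z2 ≠ anc P.n v →
      1 / (2 * 10 ^ 7) / (2 * (K0 : ℝ) ^ 8) * P.n ≤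
        ((LAM2.filter fun x => Df3 A x (anc P.n v) z1 z2).card : ℝ) := by
    intro v hv z1 z2 h1 h2 h12 h1a h2a
    have h3 := hsucc (Fm.dfi v z1 z2) ⟨hv, h1, h2, h12, h1a, h2a⟩
    have h4 : ((Sf P (Fm.dfi v z1 z2)).filter fun j => ∀ i ∈ Tf P (Fm.dfi v z1 z2) j,
        Gf P K0 (Fm.dfi v z1 z2) j i (ω i)).card ≤
        (LAM2.filter fun x => Df3 A x (anc P.n v) z1 z2).card := by
      refine Finset.card_le_card_of_injOn (fun t => t.2.1) ?_ ?_
      · intro t ht
        rw [Finset.mem_coe, Finset.mem_filter] at ht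
        obtain ⟨ht1, ht2⟩ := ht
        unfold Sf at ht1
        obtain ⟨x, hx, rfl⟩ := Finset.mem_image.1 ht1
        rw [Finset.mem_filter] at hx
        obtain ⟨hx1, hx2, hx3, hx4, hx5⟩ := hx
        have g1 := (ht2 (true, x) (by simp [Tf])).1 rfl
        have g2 := (ht2 (false, |x - anc P.n v|) (by simp [Tf])).2 rfl
        have g3 := (ht2 (false, |x - z1|) (by simp [Tf])).2 rfl
        have g4 := (ht2 (false, |x - z2|) (by simp [Tf])).2 rfl
        refine Finset.mem_coe.2 (Finset.mem_filter.2 ⟨Finset.mem_filter.2 ⟨hx1, g1⟩, ?_⟩)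
        exact ⟨hAmem _ hx2 g2, hAmem _ hx3 g3, hAmem _ hx4 g4, hx5⟩
      · intro t ht t' ht' hxy
        rw [Finset.mem_coe, Finset.mem_filter] at ht ht'
        unfold Sf at ht ht'
        obtain ⟨x, _, rfl⟩ := Finset.mem_image.1 ht.1
        obtain ⟨y, _, rfl⟩ := Finset.mem_image.1 ht'.1
        have : x = y := hxy
        rw [this]
    have h5 : (((Sf P (Fm.dfi v z1 z2)).filter fun j => ∀ i ∈ Tf P (Fm.dfi v z1 z2) j,
        Gf P K0 (Fm.dfi v z1 z2) j i (ω i)).card : ℝ) ≤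
        ((LAM2.filter fun x => Df3 A x (anc P.n v) z1 z2).card : ℝ) := by exact_mod_cast h4
    refine le_trans ?_ (h3.trans h5)
    refine mul_le_mul_of_nonneg_left ?_ hc0
    show (P.n : ℝ) ≤ (P.n : ℝ) * ((10 : ℕ) : ℝ)
    push_cast
    linarith
  refine ⟨LAM1, LAM2, PP, A, ?_⟩
  refine
    { lam1 := ?_, lam2 := ?_, lam2r := ?_, pp := ?_, dis12 := ?_, disP1 := ?_, disP2 := ?_,
      lamc := ?_, A_sub := ?_, A_card := ?_, defi := defi, svp := ?_, cov := ?_, exc := ?_ }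
  · exact (Finset.filter_subset _ _).trans (Finset.filter_subset _ _)
  · exact (Finset.filter_subset _ _).trans (Finset.filter_subset _ _)
  · intro x hx
    exact (Finset.mem_filter.1 (Finset.mem_filter.1 hx).1).2
  · exact Finset.filter_subset _ _
  · rw [Finset.disjoint_left]
    intro x h1 h2
    have h3 := (Finset.mem_filter.1 h1).2
    have h4 := (Finset.mem_filter.1 h2).2
    omega
  · rw [Finset.disjoint_left]
    intro x h1 h2
    have h3 := (Finset.mem_filter.1 h1).2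
    have h4 := (Finset.mem_filter.1 h2).2
    omega
  · rw [Finset.disjoint_left]
    intro x h1 h2
    have h3 := (Finset.mem_filter.1 h1).2
    have h4 := (Finset.mem_filter.1 h2).2
    omega
  · have h1 : (LAM1 ∪ LAM2).card ≤ (((zall P.n).image (fun x => ((true, x) : Bool × ℤ))).filter
        fun x => ω x ∈ H).card := by
      refine Finset.card_le_card_of_injOn (fun x => ((true, x) : Bool × ℤ)) ?_ ?_
      · intro x hx
        rw [Finset.mem_coe, Finset.mem_union] at hx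
        rw [Finset.mem_coe, Finset.mem_filter]
        rcases hx with hx | hx
        · have h2 := Finset.mem_filter.1 hx
          refine ⟨Finset.mem_image_of_mem _ (Finset.filter_subset _ _ h2.1), ?_⟩
          refine Finset.mem_insert.2 (Or.inl (Fin.ext h2.2))
        · have h2 := Finset.mem_filter.1 hx
          refine ⟨Finset.mem_image_of_mem _ (Finset.filter_subset _ _ h2.1), ?_⟩
          refine Finset.mem_insert.2 (Or.inr (Finset.mem_singleton.2 (Fin.ext h2.2)))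
      · intro x _ y _ hxy
        exact congrArg Prod.snd hxy
    have h2 : ((LAM1 ∪ LAM2).card : ℝ) ≤ _ := le_trans (by exact_mod_cast h1) hω1
    refine h2.trans ?_
    refine div_le_div_of_nonneg_right ?_ hKr.le
    have h3 : ((((zall P.n).image (fun x => ((true, x) : Bool × ℤ))).card : ℕ) : ℝ) ≤
        2 * P.n + 2 := by
      exact_mod_cast Finset.card_image_le.trans (zall_card_le (n := P.n) (by omega))
    have h4 : ((H.card : ℕ) : ℝ) ≤ 2 := by exact_mod_cast Finset.card_le_two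
    have h5 : 3 * ((((zall P.n).image (fun x => ((true, x) : Bool × ℤ))).card : ℕ) : ℝ) *
        ((H.card : ℕ) : ℝ) ≤ 3 * (2 * P.n + 2) * 2 :=
      mul_le_mul (mul_le_mul_of_nonneg_left h3 (by norm_num)) h4 (Nat.cast_nonneg _)
        (by positivity)
    linarith
  · exact Finset.filter_subset _ _
  · have ha : anc P.n 0 = 0 := by
      have := anc_even (n := P.n) (v := 0) rfl
      push_cast at this
      omega
    have h1 := defi 0 (by omega) (P.n : ℤ) ((P.n : ℤ) + 1)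
      ⟨by show (70 : ℤ) * _ ≤ _; omega, by show _ ≤ (230 : ℤ) * _; omega⟩
      ⟨by show (70 : ℤ) * _ ≤ _; omega, by show _ ≤ (230 : ℤ) * _; omega⟩ (by omega)
      (by rw [ha]; omega) (by rw [ha]; omega)
    refine h1.trans ?_
    have h2 : (LAM2.filter fun x => Df3 A x (anc P.n 0) (P.n : ℤ) ((P.n : ℤ) + 1)).card ≤
        A.card := by
      refine Finset.card_le_card ?_
      intro x hx
      rw [Finset.mem_filter] at hx
      have h3 := hx.2.1
      have h4 := zall_range (n := P.n) (by omega)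
        (Finset.filter_subset _ _ (Finset.mem_filter.1 hx.1).1)
      rw [ha, sub_zero, abs_of_nonneg (by omega)] at h3
      exact h3
    exact_mod_cast h2
  · intro v hv z1 z2 h1 h2 h12 h1a h2a
    have h3 := hsucc (Fm.svp v z1 z2) ⟨hv, h1, h2, h12, h1a, h2a⟩
    have h4 : ((Sf P (Fm.svp v z1 z2)).filter fun j => ∀ i ∈ Tf P (Fm.svp v z1 z2) j,
        Gf P K0 (Fm.svp v z1 z2) j i (ω i)).card ≤
        (PP.filter fun y => inR P.n (110, 190) y ∧ Df3 (GD P A) y (anc P.n v) z1 z2).card := by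
      refine Finset.card_le_card_of_injOn (fun t => t.2.1) ?_ ?_
      · intro t ht
        rw [Finset.mem_coe, Finset.mem_filter] at ht
        obtain ⟨ht1, ht2⟩ := ht
        unfold Sf at ht1
        obtain ⟨x, hx, rfl⟩ := Finset.mem_image.1 ht1
        rw [Finset.mem_filter] at hx
        obtain ⟨hx1, hx0, hx2, hx3, hx4, hx5⟩ := hx
        have g1 := (ht2 (true, x) (by simp [Tf])).1 rfl
        have g2 := (ht2 (false, |x - anc P.n v|) (by simp [Tf])).2 rfl
        have g3 := (ht2 (false, |x - z1|) (by simp [Tf])).2 rfl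
        have g4 := (ht2 (false, |x - z2|) (by simp [Tf])).2 rfl
        refine Finset.mem_coe.2 (Finset.mem_filter.2 ⟨Finset.mem_filter.2 ⟨hx1, g1⟩, hx0, ?_⟩)
        exact ⟨hGDmem _ hx2 g2, hGDmem _ hx3 g3, hGDmem _ hx4 g4, hx5⟩
      · intro t ht t' ht' hxy
        rw [Finset.mem_coe, Finset.mem_filter] at ht ht'
        unfold Sf at ht ht'
        obtain ⟨x, _, rfl⟩ := Finset.mem_image.1 ht.1
        obtain ⟨y, _, rfl⟩ := Finset.mem_image.1 ht'.1
        have : x = y := hxy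
        rw [this]
    have h5 : (((Sf P (Fm.svp v z1 z2)).filter fun j => ∀ i ∈ Tf P (Fm.svp v z1 z2) j,
        Gf P K0 (Fm.svp v z1 z2) j i (ω i)).card : ℝ) ≤
        ((PP.filter fun y => inR P.n (110, 190) y ∧
          Df3 (GD P A) y (anc P.n v) z1 z2).card : ℝ) := by exact_mod_cast h4
    refine le_trans ?_ (h3.trans h5)
    refine mul_le_mul_of_nonneg_left ?_ hc0
    show (P.n : ℝ) ≤ (P.n : ℝ) * ((10 : ℕ) : ℝ)
    push_cast
    linarith
  · intro q d hd hgd hr
    have h3 := hsucc (Fm.cov q d) ⟨hd, hgd, hr⟩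
    have h4 : ((Sf P (Fm.cov q d)).filter fun j => ∀ i ∈ Tf P (Fm.cov q d) j,
        Gf P K0 (Fm.cov q d) j i (ω i)).card ≤
        ((range P.n ×ˢ zall P.n ×ˢ zall P.n).filter fun t =>
          PlOk P PP A q t ∧ CovOk P LAM1 A q d t).card := by
      refine Finset.card_le_card ?_
      intro t ht
      rw [Finset.mem_filter] at ht
      obtain ⟨ht1, ht2⟩ := ht
      have ht3 : t ∈ SCov P q d := ht1
      unfold SCov at ht3
      rw [Finset.mem_filter] at ht3
      obtain ⟨hr0, ⟨hm, ⟨hy1, hy1r⟩, ⟨hy2, hy2r⟩, hd1, hd2, hd3, hne⟩, ⟨hX, hE, hF, hEF⟩, -⟩ := ht3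
      have g1 := (ht2 (true, covX P q d t) (by simp [Tf])).1 rfl
      have g2 := (ht2 (true, t.2.1) (by simp [Tf])).2.1 rfl
      have g3 := (ht2 (true, t.2.2) (by simp [Tf])).2.2.1 rfl
      have g4 := (ht2 (false, covE P q d t) (by simp [Tf])).2.2.2.1 rfl
      have g5 := (ht2 (false, covF P q d t) (by simp [Tf])).2.2.2.2.1 rfl
      have g6 := (ht2 (false, |t.2.1 - anc P.n (P.vx t.1 1)|) (by simp [Tf])).2.2.2.2.2.1 rfl
      have g7 := (ht2 (false, |t.2.2 - anc P.n (P.vx t.1 (P.L - 1))|)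
        (by simp [Tf])).2.2.2.2.2.2.1 rfl
      have g8 := (ht2 (false, |t.2.1 - t.2.2|) (by simp [Tf])).2.2.2.2.2.2.2 rfl
      rw [Finset.mem_filter]
      refine ⟨hr0, ⟨hm, ⟨Finset.mem_filter.2 ⟨hy1, g2⟩, hy1r⟩, ⟨Finset.mem_filter.2 ⟨hy2, g3⟩, hy2r⟩,
        hGDmem _ hd1 g6, hGDmem _ hd2 g7, hGDmem _ hd3 g8, hne⟩,
        ⟨Finset.mem_filter.2 ⟨hX, g1⟩, hAmem _ hE g4, hAmem _ hF g5, hEF⟩⟩
    have h5 : (((Sf P (Fm.cov q d)).filter fun j => ∀ i ∈ Tf P (Fm.cov q d) j,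
        Gf P K0 (Fm.cov q d) j i (ω i)).card : ℝ) ≤
        (((range P.n ×ˢ zall P.n ×ˢ zall P.n).filter fun t =>
          PlOk P PP A q t ∧ CovOk P LAM1 A q d t).card : ℝ) := by exact_mod_cast h4
    refine le_trans ?_ (h3.trans h5)
    refine mul_le_mul_of_nonneg_left ?_ hc0
    show (P.n : ℝ) ^ 3 ≤ (P.n : ℝ) * ((200 * P.n ^ 2 : ℕ) : ℝ)
    push_cast
    nlinarith [pow_nonneg hn0 3]
  · intro d hd hgd
    have h3 := hsucc (Fm.exc d) ⟨hd, hgd⟩
    have h4 : ((Sf P (Fm.exc d)).filter fun j => ∀ i ∈ Tf P (Fm.exc d) j,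
        Gf P K0 (Fm.exc d) j i (ω i)).card ≤
        ((range P.n ×ˢ zall P.n).filter fun t => ExcOk P PP A d t).card := by
      refine Finset.card_le_card_of_injOn (fun t => (t.1, t.2.1)) ?_ ?_
      · intro t ht
        rw [Finset.mem_coe, Finset.mem_filter] at ht
        obtain ⟨ht1, ht2⟩ := ht
        unfold Sf at ht1
        obtain ⟨x, hx, rfl⟩ := Finset.mem_image.1 ht1
        unfold SExc at hx
        rw [Finset.mem_filter] at hx
        obtain ⟨hx0, hx1, ⟨hx2, hx3⟩, hx4, hx5, hx6, hx7⟩ := hx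
        have g1 := (ht2 (true, x.2) (by simp [Tf])).1 rfl
        have g2 := (ht2 (true, x.2 + d) (by simp [Tf])).1 rfl
        have g3 := (ht2 (false, |x.2 - anc P.n (P.vx x.1 1)|) (by simp [Tf])).2 rfl
        have g4 := (ht2 (false, |x.2 + d - anc P.n (P.vx x.1 2)|) (by simp [Tf])).2 rfl
        refine Finset.mem_coe.2 (Finset.mem_filter.2 ⟨hx0, hx1,
          ⟨Finset.mem_filter.2 ⟨hx2, g1⟩, hx3⟩, Finset.mem_filter.2 ⟨hx4, g2⟩,
          hGDmem _ hx5 g3, hGDmem _ hx6 g4, hx7⟩)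
      · intro t ht t' ht' hxy
        rw [Finset.mem_coe, Finset.mem_filter] at ht ht'
        unfold Sf at ht ht'
        obtain ⟨x, _, rfl⟩ := Finset.mem_image.1 ht.1
        obtain ⟨y, _, rfl⟩ := Finset.mem_image.1 ht'.1
        have : x = y := hxy
        rw [this]
    have h5 : (((Sf P (Fm.exc d)).filter fun j => ∀ i ∈ Tf P (Fm.exc d) j,
        Gf P K0 (Fm.exc d) j i (ω i)).card : ℝ) ≤
        (((range P.n ×ˢ zall P.n).filter fun t => ExcOk P PP A d t).card : ℝ) := by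
      exact_mod_cast h4
    refine le_trans ?_ (h3.trans h5)
    refine mul_le_mul_of_nonneg_left ?_ hc0
    show (P.n : ℝ) ^ 2 ≤ (P.n : ℝ) * ((30 * P.n : ℕ) : ℝ)
    push_cast
    nlinarith [mul_nonneg hn0 hn0]

end Pool.Agent.PGo.R
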