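import Pool.Agent.PGo.AFin
import Pool.Agent.PGo.AGfin
import Pool.Agent.PGo.APlant
import Pool.Agent.PGo.RBitsM
import Pool.Agent.PGo.R1M

/-!
# PGo: Theorem A
-/

namespace Pool.Agent.PGo

theorem thmA {L p : ℕ} (hA : Adm L p) : ThmA L p :=
  A.thmA_of_parts hA (R.bits hA) (R.r1 hA) (A.absStat hA (A.plant hA)) A.absorbStat

end Pool.Agent.PGo
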