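import Pool.Agent.PGo.ABase

/-!
# PGo part A: the planted configuration (`Plan`) and the reduction of Theorem A

`PR` = cover packs and packs of the exceptional differences, `PA` = packs of the absorber, `R1` = reserved
differences, `X` = differences always used by the absorber, `m` = number of absorbed
differences of `R1`.
-/

noncomputable section

namespace Pool.Agent.PGo.A

open Finset Pool.Agent.PGr Pool.Agent.PGo.R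

/-- The planted configuration. -/
structure Plan (P : Par) (κ cD cC : ℝ) (m : ℕ) (LAM1 LAM2 : Finset ℤ)
    (PR PA : Finset (Pack P)) (R1 X : Finset ℤ) : Prop where
  l1 : LAM1 ⊆ zall P.n
  l2 : LAM2 ⊆ zall P.n
  l2w : ∀ x ∈ LAM2, inR P.n (70, 230) x
  l12 : Disjoint LAM1 LAM2
  lc : ((LAM1 ∪ LAM2).card : ℝ) ≤ κ * P.n
  R_sub : R1 ⊆ dall P.n
  X_sub : X ⊆ dall P.n
  XR : Disjoint X R1
  fam : PFam P (zall P.n \ (LAM1 ∪ LAM2)) (dall P.n \ (R1 ∪ X)) (PR ∪ PA)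
  dj : Disjoint PR PA
  JG : ∀ p ∈ PR, p.J = ∅ ∧ p.G = ∅
  cover : ∀ d ∈ dall P.n, d ∉ UD PR → CovM LAM1 R1 PR (cC * P.n) d
  deflt : Sup P LAM2 R1 (70, 230) cD
  absorb : ∀ R' ⊆ R1, R'.card = m → ∃ z : Pack P → ℤ, (∀ p ∈ PA, z p ∈ p.J) ∧
    DS PA z = pGG PA ∪ X ∪ R' ∧ (pGG PA ∪ X ∪ R').card = 3 * PA.card
  cnt1 : (pGG PA).card + X.card + m = 3 * PA.card
  cnt2 : R1.card = m + 3 * PR.card
  szP : ((PR.card + PA.card : ℕ) : ℝ) ≤ κ * P.n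
  szR : ((R1.card + X.card : ℕ) : ℝ) ≤ κ * P.n
  szD : 100 * P.L * (PR.card : ℝ) ≤ cD * P.n

/-- Existence of the planted configuration. -/
def PlanEx (L p : ℕ) : Prop := ∀ κ : ℝ, 0 < κ → ∃ cD cC : ℝ, 0 < cD ∧ 0 < cC ∧ ∃ g0 : ℕ,
  ∀ g : ℕ, g0 ≤ g → ∃ (m : ℕ) (LAM1 LAM2 : Finset ℤ) (PR PA : Finset (Pack (Par.mk L p g)))
    (R1 X : Finset ℤ), Plan (Par.mk L p g) κ cD cC m LAM1 LAM2 PR PA R1 X

/-- the main cycles -/
def mainI (P : Par) (Ps : Finset (Pack P)) : Finset ℕ := range P.g \ UC Ps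

/-- the main labels -/
def mainZ (P : Par) (LAM1 LAM2 : Finset ℤ) (Ps : Finset (Pack P)) : Finset ℤ :=
  zall P.n \ (LAM1 ∪ LAM2 ∪ UL Ps)

/-- the main differences -/
def mainD (P : Par) (Ps : Finset (Pack P)) (R1 X : Finset ℤ) : Finset ℤ :=
  dall P.n \ (UD Ps ∪ X ∪ R1)

/-- Completion. -/
def PlanComp (L p : ℕ) : Prop := ∀ κ cD cC : ℝ, 0 < κ → 0 < cD → 0 < cC → ∃ η : ℝ, 0 < η ∧
  ∃ g0 : ℕ, ∀ g : ℕ, g0 ≤ g → ∀ (m : ℕ) (LAM1 LAM2 : Finset ℤ)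
    (PR PA : Finset (Pack (Par.mk L p g))) (R1 X : Finset ℤ),
    Plan (Par.mk L p g) κ cD cC m LAM1 LAM2 PR PA R1 X →
    ∀ (J : Finset ℕ) (Y : ℕ → Fin L → ℤ), J ⊆ mainI (Par.mk L p g) (PR ∪ PA) →
      ((mainI (Par.mk L p g) (PR ∪ PA) \ J).card : ℝ) ≤ η * g →
      (Par.mk L p g).Fam (mainZ (Par.mk L p g) LAM1 LAM2 (PR ∪ PA))
        (mainD (Par.mk L p g) (PR ∪ PA) R1 X) J Y →
      ∃ (J' : Finset ℕ) (Y' : ℕ → Fin L → ℤ), J'.card = g ∧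
        (Par.mk L p g).Fam (zall (Par.mk L p g).n) (dall (Par.mk L p g).n) J' Y'

/-- The counts. -/
def PlanCnt (L p : ℕ) : Prop := ∀ κ cD cC : ℝ, 0 < κ → ∃ g0 : ℕ, ∀ g : ℕ, g0 ≤ g →
  ∀ (m : ℕ) (LAM1 LAM2 : Finset ℤ) (PR PA : Finset (Pack (Par.mk L p g))) (R1 X : Finset ℤ),
    Plan (Par.mk L p g) κ cD cC m LAM1 LAM2 PR PA R1 X →
    2 * L * (mainI (Par.mk L p g) (PR ∪ PA)).card =
      (mainD (Par.mk L p g) (PR ∪ PA) R1 X).card ∧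
    ((range g \ mainI (Par.mk L p g) (PR ∪ PA)).card : ℝ) ≤ 20 * L ^ 2 * κ * g ∧
    ((zall (Par.mk L p g).n \ mainZ (Par.mk L p g) LAM1 LAM2 (PR ∪ PA)).card : ℝ) ≤
      20 * L ^ 2 * κ * g ∧
    ((dall (Par.mk L p g).n \ mainD (Par.mk L p g) (PR ∪ PA) R1 X).card : ℝ) ≤
      20 * L ^ 2 * κ * g

theorem thmA_of {L p : ℕ} (hA : Adm L p) (h1 : PlanEx L p) (h2 : PlanComp L p)
    (h3 : PlanCnt L p) : ThmA L p := by
  intro κ hκ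
  have hL : (0 : ℝ) < L := by exact_mod_cast hA.L_pos
  have hκ' : 0 < κ / (20 * (L : ℝ) ^ 2) := by positivity
  obtain ⟨cD, cC, hcD, hcC, g1, h1⟩ := h1 _ hκ'
  obtain ⟨η, hη, g2, h2⟩ := h2 _ cD cC hκ' hcD hcC
  obtain ⟨g3, h3⟩ := h3 _ cD cC hκ'
  refine ⟨η, hη, max g1 (max g2 g3), ?_⟩
  intro g hg
  have hg1 : g1 ≤ g := le_trans (le_max_left _ _) hg
  have hg2 : g2 ≤ g := le_trans (le_trans (le_max_left _ _) (le_max_right _ _)) hg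
  have hg3 : g3 ≤ g := le_trans (le_trans (le_max_right _ _) (le_max_right _ _)) hg
  obtain ⟨m, LAM1, LAM2, PR, PA, R1, X, hP⟩ := h1 g hg1
  obtain ⟨c1, c2, c3, c4⟩ := h3 g hg3 m LAM1 LAM2 PR PA R1 X hP
  have e : 20 * (L : ℝ) ^ 2 * (κ / (20 * (L : ℝ) ^ 2)) * g = κ * g := by
    field_simp
  rw [e] at c2 c3 c4
  exact ⟨mainI _ (PR ∪ PA), mainZ _ LAM1 LAM2 (PR ∪ PA), mainD _ (PR ∪ PA) R1 X, sdiff_subset,
    c2, sdiff_subset, c3, sdiff_subset, c4, c1, h2 g hg2 m LAM1 LAM2 PR PA R1 X hP⟩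

end Pool.Agent.PGo.A
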