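import Mathlib
import Pool.Agent.PGr.Defs

/-!
# PGo: inner cycles of bounded odd length, common definitions (paper: pgo_paper.md)

`n = L * g`, `k = p * g`, `L` odd and fixed, `p` coprime to `L`, `g` large. The inner cycle through
the vertex `m` consists of the vertices `m + j k mod n`, `j < L`. A labelled cycle is a pair
`(m, x)`, `m < n` a base vertex, `x : Fin L → ℤ`, the label of `m + j k` is `x j`.
-/

noncomputable section

namespace Pool.Agent.PGo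

open Finset Pool.Agent.PGr

/-- cyclic successor in `Fin L` -/
def nxt {L : ℕ} (j : Fin L) : Fin L := ⟨(j.1 + 1) % L, Nat.mod_lt _ (by have := j.2; omega)⟩

/-- cyclic predecessor in `Fin L` -/
def prv {L : ℕ} (j : Fin L) : Fin L := ⟨(j.1 + (L - 1)) % L, Nat.mod_lt _ (by have := j.2; omega)⟩

/-- rotation in `Fin L` -/
def rot {L : ℕ} (i j : Fin L) : Fin L := ⟨(i.1 + j.1) % L, Nat.mod_lt _ (by have := j.2; omega)⟩

/-- The labels strictly between `n/2` and `5n/2`. -/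
def ZB (n : ℕ) : Finset ℤ := (Icc (0 : ℤ) (3 * n)).filter (fun x => (n : ℤ) < 2 * x ∧ 2 * x < 5 * n)

/-- Admissible pairs: `L` is the length of the inner cycles, `p = k / g`. -/
structure Adm (L p : ℕ) : Prop where
  three : 3 ≤ L
  odd : Odd L
  p_pos : 1 ≤ p
  p_lt : 2 * p < L
  cop : Nat.Coprime p L

/-- The parameters: length of the inner cycles, `k / g`, number of the inner cycles. -/
structure Par where
  L : ℕ
  p : ℕ
  g : ℕ

namespace Par

variable (P : Par)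

/-- number of inner vertices -/
def n : ℕ := P.L * P.g
/-- the jump -/
def k : ℕ := P.p * P.g

/-- The `j`-th vertex of the inner cycle through `m`. -/
def vx (m j : ℕ) : ℕ := (m + j * P.k) % P.n

/-- The differences of a labelled cycle: `(true, j)` spoke, `(false, j)` edge between the vertices
`j` and `j + 1` of the cycle. -/
def df (m : ℕ) (x : Fin P.L → ℤ) (i : Bool × Fin P.L) : ℤ :=
  if i.1 then |x i.2 - anc P.n (P.vx m i.2)| else |x i.2 - x (nxt i.2)|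

/-- Correctly labelled cycle with labels in `Z` and differences in `D`. -/
structure OkC (Z D : Finset ℤ) (m : ℕ) (x : Fin P.L → ℤ) : Prop where
  lab : ∀ j, x j ∈ Z
  labi : Function.Injective x
  dif : ∀ i, P.df m x i ∈ D
  difi : Function.Injective (P.df m x)

/-- Family of labelled cycles with bases in `J` (in different cycles), all labels different, all
differences different. -/
structure Fam (Z D : Finset ℤ) (J : Finset ℕ) (X : ℕ → Fin P.L → ℤ) : Prop where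
  lt : ∀ m ∈ J, m < P.n
  res : ∀ m ∈ J, ∀ m' ∈ J, m % P.g = m' % P.g → m = m'
  ok : ∀ m ∈ J, P.OkC Z D m (X m)
  lab : ∀ m ∈ J, ∀ m' ∈ J, m ≠ m' → ∀ j j', X m j ≠ X m' j'
  dif : ∀ m ∈ J, ∀ m' ∈ J, m ≠ m' → ∀ i i', P.df m (X m) i ≠ P.df m' (X m') i'

/-- all label vectors with labels strictly between `n/2` and `5n/2` -/
def box : Finset (Fin P.L → ℤ) := Fintype.piFinset (fun _ => ZB P.n)

/-- The inner cycle through `m` contains no special vertex. -/
def good (m : ℕ) : Prop := ∀ j < P.L, ¬ spec P.n (P.vx m j)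

instance (m : ℕ) : Decidable (P.good m) := by unfold good; infer_instance

/-- A weight system: nonnegative weights of the labelled cycles `(r, x)`, `r < g`, of size
`O(n^(-L))`, total weight one for every cycle, degrees of labels at most `49/50`, degrees of
differences `1 ± ε` except for few differences, weight at least `c n^(-L)` if all labels except
the one of the vertex `j` lie in `[n, 2n]`. -/
structure WS (C c ε : ℝ) (W : ℕ → (Fin P.L → ℤ) → ℝ) : Prop where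
  nonneg : ∀ r x, 0 ≤ W r x
  supp : ∀ r x, W r x ≠ 0 → r < P.g ∧ P.good r ∧ x ∈ P.box ∧
    ∀ j, |x j - anc P.n (P.vx r j)| ≤ 2 * (P.n : ℤ)
  le : ∀ r x, W r x ≤ C / (P.n : ℝ) ^ P.L
  cyc : ∀ r < P.g, P.good r → ∑ x ∈ P.box, W r x = 1
  low : ∀ r < P.g, P.good r → ∀ x ∈ P.box, ∀ j,
    (∀ i, i ≠ j → (P.n : ℤ) ≤ x i ∧ x i ≤ 2 * P.n) → |x j - anc P.n (P.vx r j)| ≤ 2 * (P.n : ℤ) →
    c / (P.n : ℝ) ^ P.L ≤ W r x
  lab : ∀ z : ℤ, ∑ r ∈ range P.g, ∑ x ∈ P.box,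
    W r x * ((univ.filter (fun j : Fin P.L => x j = z)).card : ℝ) ≤ 49 / 50
  dif : ∃ Bd : Finset ℤ, (Bd.card : ℝ) ≤ ε * P.n ∧ ∀ d : ℤ, 1 ≤ d → d ≤ 2 * P.n → d ∉ Bd →
    |∑ r ∈ range P.g, ∑ x ∈ P.box,
      W r x * ((univ.filter (fun i : Bool × Fin P.L => P.df r x i = d)).card : ℝ) - 1| ≤ ε

end Par

/-! ## The three theorems -/

/-- Theorem W: weight systems exist. -/
def ThmW (L p : ℕ) : Prop :=
  ∃ C c : ℝ, 0 < C ∧ 0 < c ∧ ∀ ε : ℝ, 0 < ε → ∃ g0 : ℕ, ∀ g : ℕ, g0 ≤ g →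
    ∃ W, (Par.mk L p g).WS C c ε W

/-- Theorem M: from a weight system to a labelling of almost all cycles. -/
def ThmM (L p : ℕ) : Prop :=
  ∀ C c : ℝ, 0 < C → 0 < c → ∃ κ : ℝ, 0 < κ ∧ ∀ η : ℝ, 0 < η → ∃ ε : ℝ, 0 < ε ∧ ∃ g0 : ℕ,
    ∀ g : ℕ, g0 ≤ g → ∀ W, (Par.mk L p g).WS C c ε W →
    ∀ (I : Finset ℕ) (Z0 D0 : Finset ℤ), I ⊆ range g → ((range g \ I).card : ℝ) ≤ κ * g →
      Z0 ⊆ zall (Par.mk L p g).n → ((zall (Par.mk L p g).n \ Z0).card : ℝ) ≤ κ * g →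
      D0 ⊆ dall (Par.mk L p g).n → ((dall (Par.mk L p g).n \ D0).card : ℝ) ≤ κ * g →
      2 * L * I.card ≤ D0.card →
      ∃ (J : Finset ℕ) (X : ℕ → Fin L → ℤ), J ⊆ I ∧ ((I \ J).card : ℝ) ≤ η * g ∧
        (Par.mk L p g).Fam Z0 D0 J X

/-- Theorem A: reservation and absorption. -/
def ThmA (L p : ℕ) : Prop :=
  ∀ κ : ℝ, 0 < κ → ∃ η : ℝ, 0 < η ∧ ∃ g0 : ℕ, ∀ g : ℕ, g0 ≤ g →
    ∃ (I : Finset ℕ) (Z0 D0 : Finset ℤ), I ⊆ range g ∧ ((range g \ I).card : ℝ) ≤ κ * g ∧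
      Z0 ⊆ zall (Par.mk L p g).n ∧ ((zall (Par.mk L p g).n \ Z0).card : ℝ) ≤ κ * g ∧
      D0 ⊆ dall (Par.mk L p g).n ∧ ((dall (Par.mk L p g).n \ D0).card : ℝ) ≤ κ * g ∧
      2 * L * I.card = D0.card ∧
      ∀ (J : Finset ℕ) (X : ℕ → Fin L → ℤ), J ⊆ I → ((I \ J).card : ℝ) ≤ η * g →
        (Par.mk L p g).Fam Z0 D0 J X →
        ∃ (J' : Finset ℕ) (X' : ℕ → Fin L → ℤ), J'.card = g ∧
          (Par.mk L p g).Fam (zall (Par.mk L p g).n) (dall (Par.mk L p g).n) J' X'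

end Pool.Agent.PGo
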