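import Pool.Agent.PGo.KoIo

/-!
# PGo-KoCap: capacity of the labels

PLAN. (model: Pool/Agent/PGr/KCap.lean.) `x = ⌊t⌋₊ < 12`. If `t` is not an integer: `HH s i t` on the cell `x`, `HH s i (12 - t)` on the cell `11 - x` with the local
coordinate `1 - (t - x)`, so the left side is affine in `t - x` and the two end values are bounded by `cap_cell` (`19/20 ≤ 24/25`); `wv s true t = lI s x`,
`wv s true (12 - t) = lI s (11 - x)`. If `t = x` (`1 ≤ x ≤ 11`): `cap_mesh`, `wv s true x = lJ s x`. Do not unfold the tables.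
-/

noncomputable section

namespace Pool.Agent.PGo.K

open Finset Pool.Agent.PGr PGrK

private theorem wv_cell {s x : ℕ} {t : ℝ} (h1 : (x : ℝ) < t) (h2 : t < (x : ℝ) + 1) :
    wv s true t = (lI s x : ℝ) := by
  unfold wv lI wB
  by_cases hx : 3 ≤ x ∧ x < 9
  · have h3 : (3 : ℝ) ≤ x := by exact_mod_cast hx.1
    have h4 : (x : ℝ) + 1 ≤ 9 := by exact_mod_cast hx.2
    have hf : ⌊t - 3⌋₊ = x - 3 := by
      rw [Nat.floor_eq_iff (by linarith)]
      rw [Nat.cast_sub hx.1]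
      push_cast
      constructor <;> linarith
    rw [if_pos ⟨by linarith, by linarith⟩, if_pos hx, hf, min_eq_right (by omega)]
    simp only [if_true]
  · rw [if_neg hx, if_neg]
    · simp
    · rintro ⟨h3, h4⟩
      apply hx
      constructor
      · by_contra hc
        have h5 : x + 1 ≤ 3 := by omega
        have h6 : (x : ℝ) + 1 ≤ 3 := by exact_mod_cast h5
        linarith
      · by_contra hc
        have h5 : 9 ≤ x := by omega
        have h6 : (9 : ℝ) ≤ x := by exact_mod_cast h5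
        linarith

private theorem wv_mesh {s x : ℕ} {t : ℝ} (h1 : t = (x : ℝ)) :
    wv s true t = (lJ s x : ℝ) := by
  subst h1
  unfold wv lJ lI wB
  by_cases hx : 3 ≤ x ∧ x ≤ 9
  · have h3 : (3 : ℝ) ≤ x := by exact_mod_cast hx.1
    have h4 : (x : ℝ) ≤ 9 := by exact_mod_cast hx.2
    have hf : ⌊(x : ℝ) - 3⌋₊ = x - 3 := by
      rw [Nat.floor_eq_iff (by linarith)]
      rw [Nat.cast_sub hx.1]
      push_cast
      constructor <;> linarith
    rw [if_pos ⟨h3, h4⟩, hf]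
    by_cases h9 : x = 9
    · subst h9
      norm_num
    · rw [if_neg h9, if_pos (show 3 ≤ x ∧ x < 9 from ⟨hx.1, by omega⟩),
        min_eq_right (show x - 3 ≤ 5 by omega)]
      simp only [if_true]
  · rw [if_neg, if_neg (by omega), if_neg (by omega)]
    · simp
    · rintro ⟨h3, h4⟩
      exact hx ⟨by exact_mod_cast h3, by exact_mod_cast h4⟩

private theorem cap_alg {m W Wb ab R dn S1 S2 L v K : ℝ} (hW : 0 < W) (hWb : 0 < Wb)
    (hdn : 0 < dn) (hv0 : 0 ≤ v) (hv1 : v ≤ 1)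
    (h1 : m * Wb * S1 + 36 * W * dn * ab * L ≤ K * (12 * W * dn * Wb))
    (h2 : m * Wb * S2 + 36 * W * dn * ab * L ≤ K * (12 * W * dn * Wb)) (hK : K ≤ 24 / 25 * R) :
    m * (1 / (6 * W) * (((1 - v) * S1 + v * S2) / (2 * dn))) + ab * (3 / Wb * L) ≤
      24 / 25 * R := by
  refine le_trans ?_ hK
  have e : m * (1 / (6 * W) * (((1 - v) * S1 + v * S2) / (2 * dn))) + ab * (3 / Wb * L) =
      ((1 - v) * (m * Wb * S1 + 36 * W * dn * ab * L) +
        v * (m * Wb * S2 + 36 * W * dn * ab * L)) / (12 * W * dn * Wb) := by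
    field_simp
    ring
  rw [e, div_le_iff₀ (by positivity)]
  have h3 := mul_le_mul_of_nonneg_left h1 (sub_nonneg.2 hv1)
  have h4 := mul_le_mul_of_nonneg_left h2 hv0
  calc _ ≤ (1 - v) * (K * (12 * W * dn * Wb)) + v * (K * (12 * W * dn * Wb)) :=
        add_le_add h3 h4
    _ = K * (12 * W * dn * Wb) := by ring

theorem cap_t {s : ℕ} (hs : s < 4) {t : ℝ} (h0 : 0 < t) (h12 : t < 12) :
    (muI s : ℝ) * (1 / (6 * (WtI s : ℝ)) * ∑ i ∈ range 6, (HH s i t + HH s i (12 - t))) +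
      (abI s : ℝ) * (3 / (WbI s : ℝ) * (wv s true t + wv s true (12 - t))) ≤
        24 / 25 * RI s := by
  have hW : (0 : ℝ) < (WtI s : ℝ) := by
    have : 0 < WtI s := by
      unfold WtI
      split_ifs <;> norm_num
    exact_mod_cast this
  have hWb : (0 : ℝ) < (WbI s : ℝ) := by
    have : 0 < WbI s := by
      unfold WbI
      split_ifs <;> norm_num
    exact_mod_cast this
  have hR : (0 : ℝ) < (RI s : ℝ) := by
    have : 0 < RI s := by
      unfold RI
      split_ifs <;> norm_num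
    exact_mod_cast this
  have hdn : (0 : ℝ) < (den s : ℝ) := by
    exact_mod_cast Pool.Agent.PGo.den_pos s hs
  obtain ⟨x, hx⟩ : ∃ x : ℕ, x = ⌊t⌋₊ := ⟨_, rfl⟩
  have hx1 : (x : ℝ) ≤ t := by
    rw [hx]
    exact Nat.floor_le h0.le
  have hx2 : t < (x : ℝ) + 1 := by
    rw [hx]
    exact Nat.lt_floor_add_one t
  have hx12 : x < 12 := by
    rw [hx]
    apply (Nat.floor_lt' (by norm_num)).2
    push_cast
    exact h12
  rcases hx1.eq_or_lt with hxt | hxt
  · -- mesh point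
    have hxp : 1 ≤ x := by
      have : (0 : ℝ) < x := by linarith
      exact_mod_cast this
    have hc12 : ((12 - x : ℕ) : ℝ) = 12 - (x : ℝ) := by
      rw [Nat.cast_sub hx12.le]
      norm_num
    have e1 : ∀ i ∈ range 6, HH s i t + HH s i (12 - t) =
        ((1 - 0) * ((Q0 s i x + Q0 s i (12 - x) : ℤ) : ℝ) +
          0 * ((Q0 s i x + Q0 s i (12 - x) : ℤ) : ℝ)) / (2 * den s) := by
      intro i hi
      rw [HH_cell hs (mem_range.1 hi) hx12 hxt.le hx2,
        HH_cell hs (mem_range.1 hi) (show 12 - x < 12 by omega)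
          (by rw [hc12]; linarith) (by rw [hc12]; linarith)]
      rw [hc12, ← hxt]
      push_cast
      ring
    rw [sum_congr rfl e1, ← sum_div, sum_add_distrib, ← mul_sum, ← mul_sum, ← Int.cast_sum,
      wv_mesh hxt.symm, wv_mesh (x := 12 - x) (by rw [hc12, hxt]), ← Int.cast_add]
    have h3 := cap_mesh s hs x (by omega)
    have h4 : (25 : ℝ) * ((muI s : ℝ) * (WbI s : ℝ) *
        ((∑ i ∈ range 6, (Q0 s i x + Q0 s i (12 - x)) : ℤ) : ℝ)
        + 36 * (WtI s : ℝ) * (den s : ℝ) * (abI s : ℝ) * ((lJ s x + lJ s (12 - x) : ℤ) : ℝ))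
        ≤ 48 * (6 * (WtI s : ℝ) * (den s : ℝ) * (WbI s : ℝ) * (RI s : ℝ)) := by
      exact_mod_cast h3
    have h5 : (muI s : ℝ) * (WbI s : ℝ) *
        ((∑ i ∈ range 6, (Q0 s i x + Q0 s i (12 - x)) : ℤ) : ℝ)
        + 36 * (WtI s : ℝ) * (den s : ℝ) * (abI s : ℝ) * ((lJ s x + lJ s (12 - x) : ℤ) : ℝ)
        ≤ (24 / 25 * (RI s : ℝ)) * (12 * (WtI s : ℝ) * (den s : ℝ) * (WbI s : ℝ)) := by
      linarith
    exact cap_alg hW hWb hdn (le_refl 0) zero_le_one h5 h5 (le_refl _)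
  · -- inside of a cell
    have hc11 : ((11 - x : ℕ) : ℝ) = 11 - (x : ℝ) := by
      rw [Nat.cast_sub (by omega)]
      norm_num
    have e1 : ∀ i ∈ range 6, HH s i t + HH s i (12 - t) =
        ((1 - (t - x)) * ((Q0 s i x + Q2 s i (11 - x) : ℤ) : ℝ) +
          (t - x) * ((Q2 s i x + Q0 s i (11 - x) : ℤ) : ℝ)) / (2 * den s) := by
      intro i hi
      rw [HH_cell hs (mem_range.1 hi) hx12 hxt.le hx2,
        HH_cell hs (mem_range.1 hi) (show 11 - x < 12 by omega)
          (by rw [hc11]; linarith) (by rw [hc11]; linarith)]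
      rw [hc11]
      push_cast
      ring
    rw [sum_congr rfl e1, ← sum_div, sum_add_distrib, ← mul_sum, ← mul_sum, ← Int.cast_sum,
      ← Int.cast_sum, wv_cell hxt hx2,
      wv_cell (x := 11 - x) (by rw [hc11]; linarith) (by rw [hc11]; linarith), ← Int.cast_add]
    obtain ⟨h3, h3'⟩ := cap_cell s hs x hx12
    have h4 : (10 : ℝ) * ((muI s : ℝ) * (WbI s : ℝ) *
        ((∑ i ∈ range 6, (Q0 s i x + Q2 s i (11 - x)) : ℤ) : ℝ)
        + 36 * (WtI s : ℝ) * (den s : ℝ) * (abI s : ℝ) * ((lI s x + lI s (11 - x) : ℤ) : ℝ))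
        ≤ 19 * (6 * (WtI s : ℝ) * (den s : ℝ) * (WbI s : ℝ) * (RI s : ℝ)) := by
      exact_mod_cast h3
    have h4' : (10 : ℝ) * ((muI s : ℝ) * (WbI s : ℝ) *
        ((∑ i ∈ range 6, (Q2 s i x + Q0 s i (11 - x)) : ℤ) : ℝ)
        + 36 * (WtI s : ℝ) * (den s : ℝ) * (abI s : ℝ) * ((lI s x + lI s (11 - x) : ℤ) : ℝ))
        ≤ 19 * (6 * (WtI s : ℝ) * (den s : ℝ) * (WbI s : ℝ) * (RI s : ℝ)) := by
      exact_mod_cast h3'
    refine cap_alg (K := 19 / 20 * (RI s : ℝ)) hW hWb hdn (by linarith) (by linarith) ?_ ?_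
      (by linarith)
    · linarith
    · linarith

end Pool.Agent.PGo.K
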