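import Pool.Agent.PGo.KoDefs

/-!
# PGo-KoBl: the density of the black differences

PLAN. `lam (m + δ)` for an integer `m` is `1 - δ` (`m = 0`), `δ` (`m = -1`), `0` otherwise (`0 ≤ δ ≤ 1`), and `lam (m - δ) = lam (-m + δ)`. So
`lam (m ± δ) = (1 - δ) lam m + δ lam (m ± 1)` for integers `m`; hence both sides are `(1 - δ) f(k) + δ f(k+1)` with `f(k)` the value at the integer `k`
(`k ≤ 12`), and `f(k) = BK s k / SCI s` is a finite computation: write `lam (m : ℤ) = if m = 0 then 1 else 0`, clear denominators, get an identity between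
finite sums of integers, `decide +kernel` for all `s < 4`, `k < 13` (or `interval_cases s <;> interval_cases k <;> norm_num`).
In `InL 3`: `1/3 (w_i w_j) + 2/3 (w_i w'_j)`, `wB 3 true = fI`, `wB 3 false = frI`, `WbI s = 8` or `20`. Scale: `s = 1`: `3 SpL + InL`,
`3 * 2/8 = 24/32`, `6/64 = 3/32`; `s = 2, 3`: `2 * 2/20 = 40/200`, `6/400 = 3/200`.
-/

noncomputable section

namespace Pool.Agent.PGo.K

open Finset Pool.Agent.PGr PGrK

private theorem bl_lam_add (m : ℤ) {δ : ℝ} (h0 : 0 ≤ δ) (h1 : δ ≤ 1) :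
    lam ((m : ℝ) + δ) = (1 - δ) * (if m = 0 then 1 else 0) + δ * (if m + 1 = 0 then 1 else 0) := by
  unfold lam
  rcases lt_trichotomy m (-1) with h | h | h
  · have h2 : m ≤ -2 := by omega
    have h3 : (m : ℝ) ≤ -2 := by exact_mod_cast h2
    rw [if_neg (by omega), if_neg (by omega), abs_of_nonpos (by linarith)]
    rw [max_eq_left (by linarith)]; ring
  · subst h
    rw [if_neg (by norm_num), if_pos (by norm_num)]
    have : ((-1 : ℤ) : ℝ) + δ ≤ 0 := by push_cast; linarith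
    rw [abs_of_nonpos this, max_eq_right (by push_cast; linarith)]
    push_cast; ring
  · rcases lt_trichotomy m 0 with h' | h' | h'
    · omega
    · subst h'
      rw [if_pos rfl, if_neg (by norm_num)]
      have : 0 ≤ ((0 : ℤ) : ℝ) + δ := by push_cast; linarith
      rw [abs_of_nonneg this, max_eq_right (by push_cast; linarith)]
      push_cast; ring
    · have h2 : 1 ≤ m := by omega
      have h3 : (1 : ℝ) ≤ m := by exact_mod_cast h2
      rw [if_neg (by omega), if_neg (by omega), abs_of_nonneg (by linarith)]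
      rw [max_eq_left (by linarith)]; ring

private theorem bl_lam_neg (x : ℝ) : lam (-x) = lam x := by
  unfold lam; rw [abs_neg]

private theorem bl_lam_sub (m : ℤ) {δ : ℝ} (h0 : 0 ≤ δ) (h1 : δ ≤ 1) :
    lam ((m : ℝ) - δ) = (1 - δ) * (if m = 0 then 1 else 0) + δ * (if m - 1 = 0 then 1 else 0) := by
  have h := bl_lam_add (-m) h0 h1
  rw [← bl_lam_neg] at h
  have e : -(((-m : ℤ) : ℝ) + δ) = (m : ℝ) - δ := by push_cast; ring
  rw [e] at h
  rw [h]
  have e1 : (-m = 0) ↔ (m = 0) := by omega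
  have e2 : (-m + 1 = 0) ↔ (m - 1 = 0) := by omega
  simp only [e1, e2]

private def spZ (s k : ℕ) : ℤ :=
  ∑ i ∈ range 6, ∑ c ∈ range 3, if i + k = 9 + c then wB s true i else 0

private def inZ (s : ℕ) (b : Bool) (k : ℕ) : ℤ :=
  ∑ i ∈ range 6, ∑ j ∈ range 6, (wB s true i * wB s b j) *
    ((if i + k = j then 1 else 0) + (if i = j + k then 1 else 0))

private theorem bl_sp (s k : ℕ) {δ : ℝ} (h0 : 0 ≤ δ) (h1 : δ ≤ 1) :
    SpL s ((k : ℝ) + δ) = 2 / (WbI s : ℝ) * ((1 - δ) * (spZ s k : ℝ) + δ * (spZ s (k + 1) : ℝ)) := by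
  unfold SpL spZ
  congr 1
  push_cast
  rw [mul_sum, mul_sum, ← sum_add_distrib]
  refine sum_congr rfl fun i _ => ?_
  rw [mul_sum, mul_sum, ← sum_add_distrib]
  refine sum_congr rfl fun c _ => ?_
  have e : (i : ℝ) - 9 + ((k : ℝ) + δ) - c = (((i : ℤ) - 9 + k - c : ℤ) : ℝ) + δ := by
    push_cast; ring
  rw [e, bl_lam_add _ h0 h1]
  have e1 : ((i : ℤ) - 9 + k - c = 0) ↔ (i + k = 9 + c) := by omega
  have e2 : ((i : ℤ) - 9 + k - c + 1 = 0) ↔ (i + (k + 1) = 9 + c) := by omega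
  simp only [e1, e2]
  split_ifs <;> ring

private theorem bl_in (s : ℕ) (b : Bool) (k : ℕ) {δ : ℝ} (h0 : 0 ≤ δ) (h1 : δ ≤ 1) :
    InB s b ((k : ℝ) + δ) =
      6 / (WbI s : ℝ) ^ 2 * ((1 - δ) * (inZ s b k : ℝ) + δ * (inZ s b (k + 1) : ℝ)) := by
  unfold InB inZ
  congr 1
  push_cast
  rw [mul_sum, mul_sum, ← sum_add_distrib]
  refine sum_congr rfl fun i _ => ?_
  rw [mul_sum, mul_sum, ← sum_add_distrib]
  refine sum_congr rfl fun j _ => ?_
  have e : (i : ℝ) - j + ((k : ℝ) + δ) = (((i : ℤ) - j + k : ℤ) : ℝ) + δ := by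
    push_cast; ring
  have e' : (i : ℝ) - j - ((k : ℝ) + δ) = (((i : ℤ) - j - k : ℤ) : ℝ) - δ := by
    push_cast; ring
  rw [e, e', bl_lam_add _ h0 h1, bl_lam_sub _ h0 h1]
  have e1 : ((i : ℤ) - j + k = 0) ↔ (i + k = j) := by omega
  have e2 : ((i : ℤ) - j + k + 1 = 0) ↔ (i + (k + 1) = j) := by omega
  have e3 : ((i : ℤ) - j - k = 0) ↔ (i = j + k) := by omega
  have e4 : ((i : ℤ) - j - k - 1 = 0) ↔ (i = j + (k + 1)) := by omega
  simp only [e1, e2, e3, e4]
  split_ifs <;> ring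

private theorem bl_int : ∀ s < 4, ∀ k < 13,
    BK s k = (if s = 0 then spZ s k else if s = 1 then 24 * spZ s k + 3 * inZ s true k
      else if s = 2 then 40 * spZ s k + 3 * inZ s true k
      else 40 * spZ s k + inZ s true k + 2 * inZ s false k) := by
  decide +kernel

theorem black_val {s k : ℕ} (hs : s < 4) (hk : k < 12) {δ : ℝ} (h0 : 0 ≤ δ) (h1 : δ ≤ 1) :
    (abI s : ℝ) * SpL s ((k : ℝ) + δ) + (if s = 0 then 0 else InL s ((k : ℝ) + δ)) =
      ((BK s k : ℝ) * (1 - δ) + (BK s (k + 1) : ℝ) * δ) / (SCI s : ℝ) := by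
  rw [bl_int s hs k (by omega), bl_int s hs (k + 1) (by omega), bl_sp s k h0 h1]
  unfold InL
  rw [bl_in s true k h0 h1, bl_in s false k h0 h1]
  interval_cases s
  · simp [abI, WbI, SCI]
    ring
  · simp [abI, WbI, SCI]
    ring
  · simp [abI, WbI, SCI]
    ring
  · simp [abI, WbI, SCI]
    ring

end Pool.Agent.PGo.K
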