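import Pool.Agent.PGo.KoHJ
import Pool.Agent.PGo.KoBl

/-!
# PGo-KoId: the density identity

PLAN. `dg_val`: `HI_dcell`, `dcell_eq` in KoForm (the definitions `K.dq0` and `Pool.Agent.PGo.dq0` have the same text, `rfl` after unfolding).
`ident`: `τ = k + δ` with `k < 12`, `0 < δ ≤ 1` (`k = ⌈τ⌉₊ - 1`). Insert `HJ_plus`, `HJ_minus`, `dg_val`, `black_val` (do not unfold the tables: `den s`, `WtI s`, … stay
symbols), both sides are polynomials of degree 2 in `δ`; coefficients by `deg_facts` (cast to `ℝ`, `push_cast`); `den_pos`, `WtI s > 0`, `SCI s > 0`.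
-/

noncomputable section

namespace Pool.Agent.PGo.K

open Finset Pool.Agent.PGr PGrK

theorem dg_val {s p c k : ℕ} (hc : c < 3) (hk : k < 12) {δ : ℝ} (h0 : 0 < δ) (h1 : δ ≤ 1) :
    dg s p c ((k : ℝ) + δ) = ((Pool.Agent.PGo.dq0 s p k c : ℝ) +
      (Pool.Agent.PGo.dq1 s p k c : ℝ) * δ + (Pool.Agent.PGo.dq2 s p k c : ℝ) * δ ^ 2) /
        (2 * den s) := by
  have h := (HI_dcell (s := s) (p := p) hk hc h0.le h1 (Or.inl h0)).integral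
  rw [dcell_eq] at h
  exact h

private theorem WtI_pos {s : ℕ} (hs : s < 4) : (0 : ℝ) < (WtI s : ℝ) := by
  have h : ∀ s < 4, 0 < WtI s := by decide +kernel
  exact_mod_cast h s hs

private theorem SCI_pos {s : ℕ} (hs : s < 4) : (0 : ℝ) < (SCI s : ℝ) := by
  have h : ∀ s < 4, 0 < SCI s := by decide +kernel
  exact_mod_cast h s hs

private theorem denR_pos {s : ℕ} (hs : s < 4) : (0 : ℝ) < (den s : ℝ) := by
  exact_mod_cast Pool.Agent.PGo.den_pos s hs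

private theorem triple_sum (W : ℕ → ℕ → ℕ → ℝ) (q0 q1 q2 : ℕ → ℕ → ℕ → ℝ) (δ D : ℝ) :
    ∑ c ∈ range 3, ∑ i ∈ range 6, ∑ j ∈ range 6,
      W c i j * ((q0 c i j + q1 c i j * δ + q2 c i j * δ ^ 2) / D) =
    ((∑ c ∈ range 3, ∑ i ∈ range 6, ∑ j ∈ range 6, W c i j * q0 c i j) +
      (∑ c ∈ range 3, ∑ i ∈ range 6, ∑ j ∈ range 6, W c i j * q1 c i j) * δ +
      (∑ c ∈ range 3, ∑ i ∈ range 6, ∑ j ∈ range 6, W c i j * q2 c i j) * δ ^ 2) / D := by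
  simp only [Finset.sum_mul, ← Finset.sum_add_distrib, Finset.sum_div]
  refine Finset.sum_congr rfl fun c _ => Finset.sum_congr rfl fun i _ =>
    Finset.sum_congr rfl fun j _ => ?_
  ring

private theorem single_sum (g0 g1 g2 m0 m1 m2 : ℕ → ℝ) (δ D : ℝ) :
    ∑ i ∈ range 6, ((g0 i + g1 i * δ + g2 i * δ ^ 2) / D + (m0 i + m1 i * δ + m2 i * δ ^ 2) / D) =
    ((∑ i ∈ range 6, (g0 i + m0 i)) + (∑ i ∈ range 6, (g1 i + m1 i)) * δ +
      (∑ i ∈ range 6, (g2 i + m2 i)) * δ ^ 2) / D := by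
  simp only [Finset.sum_mul, ← Finset.sum_add_distrib, Finset.sum_div]
  refine Finset.sum_congr rfl fun i _ => ?_
  ring

private theorem SkL_val {s k : ℕ} (hs : s < 4) (hk : k < 12) {δ : ℝ} (h0 : 0 < δ) (h1 : δ ≤ 1) :
    SkL s ((k : ℝ) + δ) =
      ((((∑ c ∈ range 3, ∑ i ∈ range 6, ∑ j ∈ range 6,
          wI s c i j * Pool.Agent.PGo.dq0 s (cI i j) k c)
        + ∑ i ∈ range 6, (gp0 s i (i + 3 + k) + gm0 s i (i + 2 - k)) : ℤ) : ℝ) +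
      (((∑ c ∈ range 3, ∑ i ∈ range 6, ∑ j ∈ range 6,
          wI s c i j * Pool.Agent.PGo.dq1 s (cI i j) k c)
        + ∑ i ∈ range 6, (gp1 s i (i + 3 + k) + gm1 s i (i + 2 - k)) : ℤ) : ℝ) * δ +
      (((∑ c ∈ range 3, ∑ i ∈ range 6, ∑ j ∈ range 6,
          wI s c i j * Pool.Agent.PGo.dq2 s (cI i j) k c)
        + ∑ i ∈ range 6, (gp2 s i (i + 3 + k) + gm2 s i (i + 2 - k)) : ℤ) : ℝ) * δ ^ 2) /
        (6 * WtI s * den s) := by
  have hW := WtI_pos hs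
  have hD := denR_pos hs
  have e1 : ∑ c ∈ range 3, ∑ i ∈ range 6, ∑ j ∈ range 6,
      (wI s c i j : ℝ) * dg s (cI i j) c ((k : ℝ) + δ) =
      ∑ c ∈ range 3, ∑ i ∈ range 6, ∑ j ∈ range 6, (wI s c i j : ℝ) *
        (((Pool.Agent.PGo.dq0 s (cI i j) k c : ℝ) + (Pool.Agent.PGo.dq1 s (cI i j) k c : ℝ) * δ +
          (Pool.Agent.PGo.dq2 s (cI i j) k c : ℝ) * δ ^ 2) / (2 * den s)) := by
    refine Finset.sum_congr rfl fun c hc => Finset.sum_congr rfl fun i _ =>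
      Finset.sum_congr rfl fun j _ => ?_
    rw [dg_val (Finset.mem_range.1 hc) hk h0 h1]
  have e2 : ∑ i ∈ range 6, (HJ s i ((k : ℝ) + δ) + HJ s i (-((k : ℝ) + δ))) =
      ∑ i ∈ range 6, (((gp0 s i (i + 3 + k) : ℝ) + (gp1 s i (i + 3 + k) : ℝ) * δ +
          (gp2 s i (i + 3 + k) : ℝ) * δ ^ 2) / (4 * den s) +
        ((gm0 s i (i + 2 - k) : ℝ) + (gm1 s i (i + 2 - k) : ℝ) * δ +
          (gm2 s i (i + 2 - k) : ℝ) * δ ^ 2) / (4 * den s)) := by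
    refine Finset.sum_congr rfl fun i hi => ?_
    rw [HJ_plus hs (Finset.mem_range.1 hi) h0.le h1, HJ_minus hs (Finset.mem_range.1 hi) h0.le h1]
  unfold SkL
  rw [e1, e2]
  rw [triple_sum (fun c i j => (wI s c i j : ℝ))
    (fun c i j => (Pool.Agent.PGo.dq0 s (cI i j) k c : ℝ))
    (fun c i j => (Pool.Agent.PGo.dq1 s (cI i j) k c : ℝ))
    (fun c i j => (Pool.Agent.PGo.dq2 s (cI i j) k c : ℝ)) δ (2 * den s)]
  rw [single_sum (fun i => (gp0 s i (i + 3 + k) : ℝ)) (fun i => (gp1 s i (i + 3 + k) : ℝ))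
    (fun i => (gp2 s i (i + 3 + k) : ℝ)) (fun i => (gm0 s i (i + 2 - k) : ℝ))
    (fun i => (gm1 s i (i + 2 - k) : ℝ)) (fun i => (gm2 s i (i + 2 - k) : ℝ)) δ (4 * den s)]
  push_cast
  field_simp
  ring

theorem ident {s : ℕ} (hs : s < 4) {τ : ℝ} (h0 : 0 < τ) (h12 : τ ≤ 12) :
    (abI s : ℝ) * SpL s τ + (if s = 0 then 0 else InL s τ) + (muI s : ℝ) * SkL s τ = RI s := by
  obtain ⟨k, δ, hk, h0', h1', rfl⟩ : ∃ (k : ℕ) (δ : ℝ), k < 12 ∧ 0 < δ ∧ δ ≤ 1 ∧ τ = k + δ := by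
    have hc : 1 ≤ ⌈τ⌉₊ := Nat.one_le_ceil_iff.2 h0
    have hc12 : ⌈τ⌉₊ ≤ 12 := Nat.ceil_le.2 (by exact_mod_cast h12)
    have h3 : ((⌈τ⌉₊ - 1 : ℕ) : ℝ) = (⌈τ⌉₊ : ℝ) - 1 := by
      rw [Nat.cast_sub hc]
      simp
    have h4 : τ ≤ ⌈τ⌉₊ := Nat.le_ceil τ
    have h5 : (⌈τ⌉₊ : ℝ) < τ + 1 := Nat.ceil_lt_add_one h0.le
    refine ⟨⌈τ⌉₊ - 1, τ - ((⌈τ⌉₊ - 1 : ℕ) : ℝ), by omega, ?_, ?_, by ring⟩
    · rw [h3]; linarith
    · rw [h3]; linarith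
  rw [black_val hs hk h0'.le h1', SkL_val hs hk h0' h1']
  have hW := WtI_pos hs
  have hD := denR_pos hs
  have hS := SCI_pos hs
  obtain ⟨f0, f1, f2⟩ := deg_facts s hs k hk
  generalize (∑ c ∈ range 3, ∑ i ∈ range 6, ∑ j ∈ range 6,
      wI s c i j * Pool.Agent.PGo.dq0 s (cI i j) k c)
        + ∑ i ∈ range 6, (gp0 s i (i + 3 + k) + gm0 s i (i + 2 - k)) = A0 at *
  generalize (∑ c ∈ range 3, ∑ i ∈ range 6, ∑ j ∈ range 6,
      wI s c i j * Pool.Agent.PGo.dq1 s (cI i j) k c)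
        + ∑ i ∈ range 6, (gp1 s i (i + 3 + k) + gm1 s i (i + 2 - k)) = A1 at *
  generalize (∑ c ∈ range 3, ∑ i ∈ range 6, ∑ j ∈ range 6,
      wI s c i j * Pool.Agent.PGo.dq2 s (cI i j) k c)
        + ∑ i ∈ range 6, (gp2 s i (i + 3 + k) + gm2 s i (i + 2 - k)) = A2 at *
  have g0 : (muI s : ℝ) * SCI s * A0 + 6 * WtI s * den s * BK s k =
      6 * WtI s * den s * SCI s * RI s := by exact_mod_cast f0
  have g1 : (muI s : ℝ) * SCI s * A1 + 6 * WtI s * den s * (BK s (k + 1) - BK s k) = 0 := by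
    exact_mod_cast f1
  have g2 : (muI s : ℝ) * SCI s * A2 = 0 := by exact_mod_cast f2
  have hne : (SCI s : ℝ) * (6 * WtI s * den s) ≠ 0 := by positivity
  rw [div_add' _ _ _ hS.ne', div_eq_iff hS.ne']
  have e : (muI s : ℝ) * (((A0 : ℝ) + (A1 : ℝ) * δ + (A2 : ℝ) * δ ^ 2) / (6 * WtI s * den s)) *
      SCI s = (muI s * SCI s * A0 + muI s * SCI s * A1 * δ + muI s * SCI s * A2 * δ ^ 2) /
        (6 * WtI s * den s) := by ring
  rw [e]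
  have hne2 : (6 : ℝ) * WtI s * den s ≠ 0 := by positivity
  have e2 : (muI s : ℝ) * SCI s * A0 + muI s * SCI s * A1 * δ + muI s * SCI s * A2 * δ ^ 2 =
      (6 * WtI s * den s) * (SCI s * RI s - BK s k - (BK s (k + 1) - BK s k) * δ) := by
    linear_combination g0 + δ * g1 + δ ^ 2 * g2
  rw [e2, mul_div_cancel_left₀ _ hne2]
  ring

end Pool.Agent.PGo.K
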