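import Pool.Agent.PGo.KoDefs
import Pool.Agent.PGr.KDisc

/-!
# PGo-KoDsv: discrepancies of the anchors

`Disc`, `disc_of`, `sum_ind_card`, `ap_up`, `ap_lo` are in Pool/Agent/PGr (KQuad, KDisc; namespace `PGrK`).

PLAN. `disc_Vc`: `h = eh n = 6 / n`, `v = 2 m + e`, `am n v = 3 - h m`, the integers `m` of an interval; for `e = 0` the points are in `(c, c + 1]`, for
`e = 1` in `(c + h/2, c + 1 + h/2]`: some points may be outside `[c, c+1]`, so `disc_of` does not apply directly. Either apply `disc_of` to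
the points inside and add the at most one point outside (it changes the weighted count by at most `h`), or
bound for an arbitrary order connected set `I` the number of points in `I` directly: `I ∩ [c, c+1]` is sandwiched between `Ioo p q` and `Icc p q` (see the proof of
`disc_of`). Reverse the order of an arithmetic progression by `j ↦ N - 1 - j` (the points are `x0 + h j` with `x0` the smallest one, `x0 ≤ c + 2 h`,
`x0 + h N ≥ c + 1`). At most one vertex is missing (the special one), which again changes the weighted count by at most `h`. The constant `10` is generous.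
`vs_split`: every `v < n` lies in exactly one column (`Finset.sum_fiberwise`, or `Finset.sum_biUnion`). `am_mem`: `v ≤ n - 1`.
-/

noncomputable section

namespace Pool.Agent.PGo.K

open Finset Pool.Agent.PGr PGrK

private def Wc (n c e : ℕ) : Finset ℕ :=
  (range n).filter (fun v => v % 2 = e ∧ (2 - c) * n ≤ 3 * v ∧ 3 * v < (3 - c) * n)

private theorem Vc_eq (n c e : ℕ) : Vc n c e = (Wc n c e).filter (fun v => ¬ spec n v) := by
  unfold Vc vs Wc
  rw [Finset.filter_filter, Finset.filter_filter]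
  apply Finset.filter_congr
  intro v _
  exact and_comm

private theorem sum_Vc_le {n c e : ℕ} (f : ℕ → ℝ) (h0 : ∀ v, 0 ≤ f v) (h1 : ∀ v, f v ≤ 1) :
    ∑ v ∈ Vc n c e, f v ≤ ∑ v ∈ Wc n c e, f v ∧
      ∑ v ∈ Wc n c e, f v ≤ ∑ v ∈ Vc n c e, f v + 1 := by
  rw [Vc_eq]
  have hs := Finset.sum_filter_add_sum_filter_not (Wc n c e) (fun v => ¬ spec n v) f
  have h2 : 0 ≤ ∑ v ∈ (Wc n c e).filter (fun v => ¬ ¬ spec n v), f v :=
    Finset.sum_nonneg (fun v _ => h0 v)
  have h3 : ∑ v ∈ (Wc n c e).filter (fun v => ¬ ¬ spec n v), f v ≤ 1 := by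
    have hsub : (Wc n c e).filter (fun v => ¬ ¬ spec n v) ⊆ {n - 1} := by
      intro v hv
      rw [Finset.mem_filter] at hv
      have := not_not.1 hv.2
      unfold spec at this
      rw [Finset.mem_singleton]
      omega
    calc ∑ v ∈ (Wc n c e).filter (fun v => ¬ ¬ spec n v), f v
        ≤ ∑ v ∈ ({n - 1} : Finset ℕ), f v :=
          Finset.sum_le_sum_of_subset_of_nonneg hsub (fun v _ _ => h0 v)
      _ = f (n - 1) := Finset.sum_singleton _ _
      _ ≤ 1 := h1 _
  constructor <;> linarith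

private theorem sum_Wc {n c e : ℕ} (hn : 1 ≤ n) (he : e < 2) (f : ℝ → ℝ) :
    ∑ v ∈ Wc n c e, f (am n v) =
      ∑ j ∈ range (((3 - c) * n + 5 - 3 * e) / 6 - ((2 - c) * n + 5 - 3 * e) / 6),
        f ((3 - eh n * ((((3 - c) * n + 5 - 3 * e) / 6 : ℕ) - 1)) + eh n * (j : ℝ)) := by
  have hX : (3 - c) * n ≤ 3 * n := Nat.mul_le_mul_right n (by omega)
  unfold Wc
  generalize (3 - c) * n = X at hX
  generalize (2 - c) * n = Y
  refine Finset.sum_nbij' (fun v => (X + 5 - 3 * e) / 6 - 1 - v / 2)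
    (fun j => 2 * ((X + 5 - 3 * e) / 6 - 1 - j) + e) ?_ ?_ ?_ ?_ ?_
  · intro v hv
    rw [Finset.mem_filter, Finset.mem_range] at hv
    rw [Finset.mem_range]
    omega
  · intro j hj
    rw [Finset.mem_range] at hj
    rw [Finset.mem_filter, Finset.mem_range]
    refine ⟨?_, ?_, ?_, ?_⟩ <;> omega
  · intro v hv
    rw [Finset.mem_filter, Finset.mem_range] at hv
    omega
  · intro j hj
    rw [Finset.mem_range] at hj
    omega
  · intro v hv
    rw [Finset.mem_filter, Finset.mem_range] at hv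
    have h1 : v / 2 + 1 ≤ (X + 5 - 3 * e) / 6 := by omega
    have h2 : (((X + 5 - 3 * e) / 6 - 1 - v / 2 : ℕ) : ℝ) =
        (((X + 5 - 3 * e) / 6 : ℕ) : ℝ) - 1 - ((v / 2 : ℕ) : ℝ) := by
      rw [Nat.cast_sub (by omega), Nat.cast_sub (by omega), Nat.cast_one]
    simp only [h2]
    unfold am
    congr 1
    ring

theorem disc_Vc {n c e : ℕ} (hn : 1 ≤ n) (hc : c < 3) (he : e < 2) :
    Disc (Vc n c e) (am n) (eh n) 1 (c : ℝ) ((c : ℝ) + 1) (10 * eh n) := by
  have hnr : (0 : ℝ) < (n : ℝ) := by exact_mod_cast hn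
  have hh : 0 < eh n := by unfold eh; positivity
  have hhn : eh n * (n : ℝ) = 6 := by unfold eh; field_simp
  obtain ⟨M1, hM1⟩ : ∃ M1, M1 = ((3 - c) * n + 5 - 3 * e) / 6 := ⟨_, rfl⟩
  obtain ⟨M0, hM0⟩ : ∃ M0, M0 = ((2 - c) * n + 5 - 3 * e) / 6 := ⟨_, rfl⟩
  have hXr : (((3 - c) * n : ℕ) : ℝ) = (3 - (c : ℝ)) * n := by
    rw [Nat.cast_mul, Nat.cast_sub (by omega)]; norm_num
  have hYr : (((2 - c) * n : ℕ) : ℝ) = (2 - (c : ℝ)) * n := by
    rw [Nat.cast_mul, Nat.cast_sub (by omega)]; norm_num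
  have hXY : (3 - c) * n = (2 - c) * n + n := by
    have : 3 - c = (2 - c) + 1 := by omega
    rw [this]; ring
  have n1 : 6 * M1 ≤ (3 - c) * n + 5 := by omega
  have n2 : (3 - c) * n ≤ 6 * M1 + 3 := by omega
  have n3 : 6 * M0 ≤ (2 - c) * n + 5 := by omega
  have n4 : (2 - c) * n ≤ 6 * M0 + 3 := by omega
  have n5 : M0 ≤ M1 := by omega
  have r1 : 6 * (M1 : ℝ) ≤ (3 - (c : ℝ)) * n + 5 := by
    rw [← hXr]; exact_mod_cast n1
  have r2 : (3 - (c : ℝ)) * n ≤ 6 * (M1 : ℝ) + 3 := by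
    rw [← hXr]; exact_mod_cast n2
  have r3 : 6 * (M0 : ℝ) ≤ (2 - (c : ℝ)) * n + 5 := by
    rw [← hYr]; exact_mod_cast n3
  have r4 : (2 - (c : ℝ)) * n ≤ 6 * (M0 : ℝ) + 3 := by
    rw [← hYr]; exact_mod_cast n4
  -- multiply by h / 6
  have s1 : eh n * (M1 : ℝ) ≤ (3 - (c : ℝ)) + 5 / 6 * eh n := by
    have := mul_le_mul_of_nonneg_left r1 hh.le
    have e1 : eh n * ((3 - (c : ℝ)) * n + 5) = (3 - (c : ℝ)) * (eh n * n) + 5 * eh n := by ring
    rw [e1, hhn] at this
    linarith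
  have s2 : (3 - (c : ℝ)) - 1 / 2 * eh n ≤ eh n * (M1 : ℝ) := by
    have := mul_le_mul_of_nonneg_left r2 hh.le
    have e1 : eh n * ((3 - (c : ℝ)) * n) = (3 - (c : ℝ)) * (eh n * n) := by ring
    rw [e1, hhn] at this
    linarith
  have s3 : eh n * (M0 : ℝ) ≤ (2 - (c : ℝ)) + 5 / 6 * eh n := by
    have := mul_le_mul_of_nonneg_left r3 hh.le
    have e1 : eh n * ((2 - (c : ℝ)) * n + 5) = (2 - (c : ℝ)) * (eh n * n) + 5 * eh n := by ring
    rw [e1, hhn] at this
    linarith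
  have s4 : (2 - (c : ℝ)) - 1 / 2 * eh n ≤ eh n * (M0 : ℝ) := by
    have := mul_le_mul_of_nonneg_left r4 hh.le
    have e1 : eh n * ((2 - (c : ℝ)) * n) = (2 - (c : ℝ)) * (eh n * n) := by ring
    rw [e1, hhn] at this
    linarith
  have hNr : (((M1 - M0 : ℕ) : ℕ) : ℝ) = (M1 : ℝ) - (M0 : ℝ) := Nat.cast_sub n5
  obtain ⟨x0, hx0⟩ : ∃ x0 : ℝ, x0 = 3 - eh n * ((M1 : ℝ) - 1) := ⟨_, rfl⟩
  have t1 : (c : ℝ) ≤ x0 := by rw [hx0]; linarith
  have t2 : x0 ≤ (c : ℝ) + 3 / 2 * eh n := by rw [hx0]; linarith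
  have t3 : x0 + eh n * ((M1 - M0 : ℕ) : ℝ) = 3 + eh n - eh n * (M0 : ℝ) := by
    rw [hx0, hNr]; ring
  have t4 : (c : ℝ) + 1 ≤ x0 + eh n * ((M1 - M0 : ℕ) : ℝ) := by rw [t3]; linarith
  have D : Disc (range (M1 - M0)) (fun j : ℕ => x0 + eh n * (j : ℝ)) (eh n) 1 (c : ℝ)
      ((c : ℝ) + 1 + eh n) (4 * eh n) := by
    refine disc_of hh.le (by linarith) ?_ ?_ ?_
    · intro j hj
      have hj1 : (j : ℝ) ≤ ((M1 - M0 : ℕ) : ℝ) - 1 := by
        have : j + 1 ≤ M1 - M0 := Finset.mem_range.1 hj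
        have : (j : ℝ) + 1 ≤ ((M1 - M0 : ℕ) : ℝ) := by exact_mod_cast this
        linarith
      have hj0 : (0 : ℝ) ≤ eh n * (j : ℝ) := mul_nonneg hh.le (Nat.cast_nonneg j)
      have hj2 := mul_le_mul_of_nonneg_left hj1 hh.le
      have hj3 : eh n * (((M1 - M0 : ℕ) : ℝ) - 1) = eh n * ((M1 - M0 : ℕ) : ℝ) - eh n := by ring
      rw [hj3] at hj2
      constructor
      · show (c : ℝ) ≤ x0 + eh n * (j : ℝ)
        linarith
      · show x0 + eh n * (j : ℝ) ≤ (c : ℝ) + 1 + eh n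
        linarith
    · intro p q hp hpq hq
      have hup := ap_up x0 (eh n) hh (M1 - M0) hpq
      have h6 := mul_le_mul_of_nonneg_left hup hh.le
      have h7 : eh n * ((q - p) / eh n + 1) = (q - p) + eh n := by field_simp
      rw [h7] at h6
      linarith
    · intro p q hp hpq hq
      have hlo := ap_lo x0 (eh n) hh (M1 - M0) p q
      have h6 := mul_le_mul_of_nonneg_left hlo hh.le
      have h7 : eh n * ((min q (x0 + eh n * ((M1 - M0 : ℕ) : ℝ)) - max p x0) / eh n - 1) =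
          min q (x0 + eh n * ((M1 - M0 : ℕ) : ℝ)) - max p x0 - eh n := by
        field_simp
      rw [h7] at h6
      have h9 : q - eh n ≤ min q (x0 + eh n * ((M1 - M0 : ℕ) : ℝ)) :=
        le_min (by linarith) (by linarith)
      have h10 : max p x0 ≤ p + 3 / 2 * eh n := max_le (by linarith) (by linarith)
      linarith
  intro I hI
  have hD := D I hI
  have hsum := sum_Wc (c := c) hn he (I.indicator (fun _ => (1 : ℝ)))
  rw [← hM1, ← hM0, ← hx0] at hsum
  rw [← hsum] at hD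
  have hle := sum_Vc_le (n := n) (c := c) (e := e) (fun v => I.indicator (fun _ => (1 : ℝ)) (am n v))
    (fun v => (ind_bd I _).1) (fun v => (ind_bd I _).2)
  have hvol1 : MeasureTheory.volume.real (I ∩ Set.Icc (c : ℝ) ((c : ℝ) + 1)) ≤
      MeasureTheory.volume.real (I ∩ Set.Icc (c : ℝ) ((c : ℝ) + 1 + eh n)) := by
    apply MeasureTheory.measureReal_mono
    · intro x hx
      exact ⟨hx.1, hx.2.1, by linarith [hx.2.2]⟩
    · exact ((MeasureTheory.measure_mono Set.inter_subset_right).trans_lt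
        isCompact_Icc.measure_lt_top).ne
  have hvol2 : MeasureTheory.volume.real (I ∩ Set.Icc (c : ℝ) ((c : ℝ) + 1 + eh n)) ≤
      MeasureTheory.volume.real (I ∩ Set.Icc (c : ℝ) ((c : ℝ) + 1)) + eh n := by
    have hsub : I ∩ Set.Icc (c : ℝ) ((c : ℝ) + 1 + eh n) ⊆
        (I ∩ Set.Icc (c : ℝ) ((c : ℝ) + 1)) ∪ Set.Icc ((c : ℝ) + 1) ((c : ℝ) + 1 + eh n) := by
      intro x hx
      rcases le_total x ((c : ℝ) + 1) with h | h
      · exact Or.inl ⟨hx.1, hx.2.1, h⟩
      · exact Or.inr ⟨h, hx.2.2⟩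
    have hfin : MeasureTheory.volume ((I ∩ Set.Icc (c : ℝ) ((c : ℝ) + 1)) ∪
        Set.Icc ((c : ℝ) + 1) ((c : ℝ) + 1 + eh n)) ≠ ⊤ := by
      apply ne_of_lt
      refine (MeasureTheory.measure_union_le _ _).trans_lt ?_
      exact ENNReal.add_lt_top.2 ⟨(MeasureTheory.measure_mono Set.inter_subset_right).trans_lt
        isCompact_Icc.measure_lt_top, isCompact_Icc.measure_lt_top⟩
    refine (MeasureTheory.measureReal_mono hsub hfin).trans ?_
    refine (MeasureTheory.measureReal_union_le _ _).trans ?_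
    rw [Real.volume_real_Icc_of_le (by linarith)]
    linarith
  have h5 := mul_le_mul_of_nonneg_left hle.1 hh.le
  have h6 := mul_le_mul_of_nonneg_left hle.2 hh.le
  rw [mul_add, mul_one] at h6
  rw [abs_le] at hD ⊢
  constructor <;> linarith [hD.1, hD.2]

theorem vs_split (n : ℕ) (F : ℕ → ℝ) :
    ∑ v ∈ vs n, F v = ∑ c ∈ range 3, ∑ e ∈ range 2, ∑ v ∈ Vc n c e, F v := by
  unfold Vc
  simp only [Finset.sum_filter, Finset.sum_range_succ, Finset.sum_range_zero, zero_add]
  simp only [← Finset.sum_add_distrib]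
  apply Finset.sum_congr rfl
  intro v hv
  have hvn : v < n := by
    unfold vs at hv
    exact Finset.mem_range.1 (Finset.mem_filter.1 hv).1
  rcases Nat.mod_two_eq_zero_or_one v with h | h
  · rcases lt_or_ge (3 * v) n with h1 | h1
    · rw [if_neg, if_neg, if_neg, if_neg, if_pos, if_neg]
      · ring
      all_goals omega
    · rcases lt_or_ge (3 * v) (2 * n) with h2 | h2
      · rw [if_neg, if_neg, if_pos, if_neg, if_neg, if_neg]
        · ring
        all_goals omega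
      · rw [if_pos, if_neg, if_neg, if_neg, if_neg, if_neg]
        · ring
        all_goals omega
  · rcases lt_or_ge (3 * v) n with h1 | h1
    · rw [if_neg, if_neg, if_neg, if_neg, if_neg, if_pos]
      · ring
      all_goals omega
    · rcases lt_or_ge (3 * v) (2 * n) with h2 | h2
      · rw [if_neg, if_neg, if_neg, if_pos, if_neg, if_neg]
        · ring
        all_goals omega
      · rw [if_neg, if_pos, if_neg, if_neg, if_neg, if_neg]
        · ring
        all_goals omega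

theorem card_vs (n : ℕ) : ((vs n).card : ℝ) ≤ n := by
  have h : (vs n).card ≤ n := by
    unfold vs
    exact (Finset.card_filter_le _ _).trans (Finset.card_range n).le
  exact_mod_cast h

theorem am_mem {n v : ℕ} (hv : v ∈ vs n) : 0 < am n v ∧ am n v ≤ 3 := by
  have hvn : v < n := by
    unfold vs at hv
    exact Finset.mem_range.1 (Finset.mem_filter.1 hv).1
  have hn : (0 : ℝ) < (n : ℝ) := by exact_mod_cast (by omega : 0 < n)
  have h2 : 2 * (v / 2) + 1 ≤ n := by omega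
  have h2r : 2 * ((v / 2 : ℕ) : ℝ) + 1 ≤ (n : ℝ) := by exact_mod_cast h2
  have h3 : (0 : ℝ) ≤ ((v / 2 : ℕ) : ℝ) := Nat.cast_nonneg _
  have h4 : eh n * ((v / 2 : ℕ) : ℝ) < 3 := by
    unfold eh
    rw [div_mul_eq_mul_div, div_lt_iff₀ hn]
    linarith
  have h5 : 0 ≤ eh n * ((v / 2 : ℕ) : ℝ) := by unfold eh; positivity
  unfold am
  constructor <;> linarith

end Pool.Agent.PGo.K
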