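import Pool.Agent.PGo.KoLaw

/-!
# PGo-KoLa: the laws of the black labels

PLAN. `h = eh n = 6 / n`, `Z = ∑ z ∈ [n, 2n], wt s (z / n)`: `n + 1 ≤ Z ≤ 7 (n + 1)` (`1 ≤ wt ≤ 7`), and `|h Z - Wb| ≤ 200 h` (`Z_bd`). For `b = false` the sum over
`ZB n` is `Z / Z` by the reflection `y ↦ 3 n - y` of `[n, 2n]`. `le`: `7 / Z ≤ 7 / n = 7 h / 6`; `low`: `1 / Z ≥ 1 / (14 n)`. `li ≤ 7 h / 8`, `∑ li ≤ (n + 1) 7 h / 8`.
`lali`, `b = true`: `la = w / Z`, `li = h w / Wb` (`wt_ci`), so `|la - li| = w |Wb - h Z| / (Z Wb) ≤ C h^2` for each of the at most `n + 1 ≤ 2 n` labels.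
`b = false`: the same with `w' = wt s (3 - y / n)`, except for the at most 7 labels of `wt_fl`, where `|la - li| ≤ C h`.
`WbI s ∈ {8, 20}`.
-/

noncomputable section

namespace Pool.Agent.PGo.K

open Finset Pool.Agent.PGr PGrK

private theorem kl_wt (s : ℕ) (Y : ℝ) : 1 ≤ wt s Y ∧ wt s Y ≤ 7 := by
  unfold wt
  split_ifs <;> norm_num

private theorem kl_Wb (s : ℕ) : (8 : ℝ) ≤ (WbI s : ℝ) := by
  unfold WbI
  split_ifs <;> norm_num

private theorem kl_fI (i : ℕ) : 0 ≤ fI i ∧ fI i ≤ 7 := by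
  unfold fI
  split_ifs <;> norm_num

private theorem kl_wB (s : ℕ) (b : Bool) (i : ℕ) : (0 : ℝ) ≤ (wB s b i : ℝ) ∧ (wB s b i : ℝ) ≤ 7 := by
  have h : 0 ≤ wB s b i ∧ wB s b i ≤ 7 := by
    unfold wB
    split_ifs
    · unfold nuI
      split_ifs <;> norm_num
    · exact kl_fI i
    · exact kl_fI (5 - i)
  exact ⟨by exact_mod_cast h.1, by exact_mod_cast h.2⟩

private theorem kl_card (n : ℕ) : ((Icc (n : ℤ) (2 * n)).card : ℝ) = n + 1 := by
  rw [Int.card_Icc]
  have h : (2 * (n : ℤ) + 1 - n).toNat = n + 1 := by omega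
  rw [h]
  push_cast
  ring

private theorem kl_Z (s n : ℕ) : (n : ℝ) + 1 ≤ ∑ z ∈ Icc (n : ℤ) (2 * n), wt s ((z : ℝ) / n) ∧
    ∑ z ∈ Icc (n : ℤ) (2 * n), wt s ((z : ℝ) / n) ≤ 7 * ((n : ℝ) + 1) := by
  constructor
  · have h := Finset.card_nsmul_le_sum (Icc (n : ℤ) (2 * n)) (fun z => wt s ((z : ℝ) / n)) 1
      (fun z _ => (kl_wt s _).1)
    rw [nsmul_eq_mul, kl_card, mul_one] at h
    exact h
  · have h := Finset.sum_le_card_nsmul (Icc (n : ℤ) (2 * n)) (fun z => wt s ((z : ℝ) / n)) 7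
      (fun z _ => (kl_wt s _).2)
    rw [nsmul_eq_mul, kl_card] at h
    linarith

private theorem kl_h {n : ℕ} (hn : 1 ≤ n) : 0 < eh n ∧ eh n * n = 6 := by
  have h1 : (0 : ℝ) < n := by exact_mod_cast hn
  unfold eh
  constructor
  · positivity
  · field_simp

private theorem kl_refl (s : ℕ) {n : ℕ} (hn : 1 ≤ n) :
    ∑ y ∈ Icc (n : ℤ) (2 * n), wt s (3 - (y : ℝ) / n) =
      ∑ y ∈ Icc (n : ℤ) (2 * n), wt s ((y : ℝ) / n) := by
  have h1 : (0 : ℝ) < n := by exact_mod_cast hn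
  apply Finset.sum_nbij' (fun y => 3 * (n : ℤ) - y) (fun y => 3 * (n : ℤ) - y)
  · intro y hy
    rw [mem_Icc] at hy ⊢
    omega
  · intro y hy
    rw [mem_Icc] at hy ⊢
    omega
  · intro y _
    ring
  · intro y _
    ring
  · intro y _
    have : (3 : ℝ) - (y : ℝ) / n = ((3 * (n : ℤ) - y : ℤ) : ℝ) / n := by
      push_cast
      field_simp
    rw [this]

private theorem kl_zb {n : ℕ} (hn : 1 ≤ n) (f : ℤ → ℝ) (hf : ∀ y, y ∉ Icc (n : ℤ) (2 * n) → f y = 0) :
    ∑ y ∈ ZB n, f y = ∑ y ∈ Icc (n : ℤ) (2 * n), f y :=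
  (Finset.sum_subset (Icc_ZB hn) (fun y _ hy => hf y hy)).symm

private theorem kl_bad {n : ℕ} (hn : 1 ≤ n) (s : ℕ) (b : Bool) :
    (((Icc (n : ℤ) (2 * n)).filter
      (fun y : ℤ => wt s (if b then (y : ℝ) / n else 3 - (y : ℝ) / n) ≠
        (wB s b (ci n y) : ℝ))).card : ℝ) ≤ 7 := by
  cases b
  · simpa using wt_fl hn s
  · have h : (Icc (n : ℤ) (2 * n)).filter
      (fun y : ℤ => wt s (if true = true then (y : ℝ) / n else 3 - (y : ℝ) / n) ≠
        (wB s true (ci n y) : ℝ)) = ∅ := by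
      apply Finset.filter_eq_empty_iff.2
      intro y hy
      simp only [if_true, ne_eq, not_not]
      exact wt_ci hn s hy
    rw [h]
    simp

private theorem kl_diff {n : ℕ} (hn : 1 ≤ n) {s : ℕ} (hs : s < 4) (b : Bool) {y : ℤ}
    (hy : y ∈ Icc (n : ℤ) (2 * n))
    (hw : wt s (if b then (y : ℝ) / n else 3 - (y : ℝ) / n) = (wB s b (ci n y) : ℝ)) :
    |la s n b y - li s n b y| ≤ 175 * eh n / n := by
  have h1 : (1 : ℝ) ≤ n := by exact_mod_cast hn
  have hh := (kl_h hn).1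
  have hZ := (kl_Z s n).1
  have hW := kl_Wb s
  have hd := Z_bd hn hs
  have hB := kl_wB s b (ci n y)
  unfold la li
  rw [if_pos hy, if_pos hy, hw]
  generalize (∑ z ∈ Icc (n : ℤ) (2 * n), wt s ((z : ℝ) / n)) = Z at *
  generalize (WbI s : ℝ) = W at *
  generalize (wB s b (ci n y) : ℝ) = w at *
  have hZ0 : 0 < Z := by linarith
  have hW0 : 0 < W := by linarith
  have e : w / Z - eh n / W * w = -(w * (eh n * Z - W) / (Z * W)) := by
    field_simp
    ring
  rw [e, abs_neg, abs_div, abs_mul, abs_of_nonneg hB.1, abs_of_pos (mul_pos hZ0 hW0)]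
  rw [div_le_div_iff₀ (mul_pos hZ0 hW0) (by linarith)]
  have q1 : w * |eh n * Z - W| ≤ 7 * (200 * eh n) :=
    mul_le_mul hB.2 hd (abs_nonneg _) (by norm_num)
  have q2 : (n : ℝ) * 8 ≤ Z * W := mul_le_mul (by linarith) hW (by norm_num) hZ0.le
  calc w * |eh n * Z - W| * n ≤ 7 * (200 * eh n) * n := mul_le_mul_of_nonneg_right q1 (by linarith)
    _ = 175 * eh n * (n * 8) := by ring
    _ ≤ 175 * eh n * (Z * W) := mul_le_mul_of_nonneg_left q2 (by positivity)

private theorem kl_le {n : ℕ} (hn : 1 ≤ n) (s : ℕ) (b : Bool) (y : ℤ) :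
    0 ≤ la s n b y ∧ la s n b y ≤ 2 * eh n := by
  have h1 : (1 : ℝ) ≤ n := by exact_mod_cast hn
  have hh := kl_h hn
  have hZ := (kl_Z s n).1
  unfold la
  split_ifs with hy hb
  · have hw := kl_wt s ((y : ℝ) / n)
    refine ⟨div_nonneg (by linarith) (by linarith), ?_⟩
    rw [div_le_iff₀ (by linarith)]
    calc _ ≤ (7 : ℝ) := hw.2
      _ ≤ 2 * (eh n * n) := by rw [hh.2]; norm_num
      _ = 2 * eh n * n := by ring
      _ ≤ _ := mul_le_mul_of_nonneg_left (by linarith) (by linarith)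
  · have hw := kl_wt s (3 - (y : ℝ) / n)
    refine ⟨div_nonneg (by linarith) (by linarith), ?_⟩
    rw [div_le_iff₀ (by linarith)]
    calc _ ≤ (7 : ℝ) := hw.2
      _ ≤ 2 * (eh n * n) := by rw [hh.2]; norm_num
      _ = 2 * eh n * n := by ring
      _ ≤ _ := mul_le_mul_of_nonneg_left (by linarith) (by linarith)
  · exact ⟨le_rfl, by linarith⟩

private theorem kl_lile {n : ℕ} (hn : 1 ≤ n) (s : ℕ) (b : Bool) (y : ℤ) :
    0 ≤ li s n b y ∧ li s n b y ≤ eh n := by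
  have hh := kl_h hn
  have hW := kl_Wb s
  have hB := kl_wB s b (ci n y)
  unfold li
  split_ifs with hy
  · refine ⟨mul_nonneg (div_nonneg hh.1.le (by linarith)) hB.1, ?_⟩
    rw [div_mul_eq_mul_div, div_le_iff₀ (by linarith)]
    exact mul_le_mul_of_nonneg_left (by linarith) hh.1.le
  · exact ⟨le_rfl, hh.1.le⟩

/-- properties of the laws -/
structure LaP (C : ℝ) (s n : ℕ) (b : Bool) : Prop where
  nonneg : ∀ y, 0 ≤ la s n b y
  supp : ∀ y, y ∉ Icc (n : ℤ) (2 * n) → la s n b y = 0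
  le : ∀ y, la s n b y ≤ C * eh n
  low : ∀ y ∈ Icc (n : ℤ) (2 * n), eh n / C ≤ la s n b y
  sum : ∑ y ∈ ZB n, la s n b y = 1
  linn : ∀ y, 0 ≤ li s n b y
  lile : ∀ y, li s n b y ≤ C * eh n
  lisum : ∑ y ∈ ZB n, li s n b y ≤ C
  lali : ∑ y ∈ ZB n, |la s n b y - li s n b y| ≤ C * eh n

theorem la_props : ∃ C : ℝ, 0 < C ∧ ∀ n : ℕ, 1 ≤ n → ∀ s < 4, ∀ b, LaP C s n b := by
  classical
  refine ⟨400, by norm_num, ?_⟩
  intro n hn s hs b
  have h1 : (1 : ℝ) ≤ n := by exact_mod_cast hn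
  have hh := kl_h hn
  have hZ := kl_Z s n
  have hZ0 : 0 < ∑ z ∈ Icc (n : ℤ) (2 * n), wt s ((z : ℝ) / n) := by linarith [hZ.1]
  have la0 : ∀ y, y ∉ Icc (n : ℤ) (2 * n) → la s n b y = 0 := by
    intro y hy
    unfold la
    rw [if_neg hy]
  have li0 : ∀ y, y ∉ Icc (n : ℤ) (2 * n) → li s n b y = 0 := by
    intro y hy
    unfold li
    rw [if_neg hy]
  constructor
  · exact fun y => (kl_le hn s b y).1
  · exact la0
  · intro y
    have := (kl_le hn s b y).2
    linarith [hh.1]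
  · intro y hy
    unfold la
    rw [if_pos hy, le_div_iff₀ hZ0]
    have hw := (kl_wt s (if b then (y : ℝ) / n else 3 - (y : ℝ) / n)).1
    refine le_trans ?_ hw
    calc eh n / 400 * ∑ z ∈ Icc (n : ℤ) (2 * n), wt s ((z : ℝ) / n) ≤
        eh n / 400 * (7 * ((n : ℝ) + 1)) := mul_le_mul_of_nonneg_left hZ.2 (by linarith [hh.1])
      _ ≤ eh n / 400 * (7 * (2 * n)) :=
        mul_le_mul_of_nonneg_left (by linarith) (by linarith [hh.1])
      _ = (eh n * n) * 14 / 400 := by ring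
      _ ≤ 1 := by rw [hh.2]; norm_num
  · rw [kl_zb hn _ la0]
    have e : ∀ y ∈ Icc (n : ℤ) (2 * n), la s n b y =
        wt s (if b then (y : ℝ) / n else 3 - (y : ℝ) / n) /
          ∑ z ∈ Icc (n : ℤ) (2 * n), wt s ((z : ℝ) / n) := by
      intro y hy
      unfold la
      rw [if_pos hy]
    rw [Finset.sum_congr rfl e, ← Finset.sum_div]
    have e2 : ∑ y ∈ Icc (n : ℤ) (2 * n), wt s (if b then (y : ℝ) / n else 3 - (y : ℝ) / n) =
        ∑ z ∈ Icc (n : ℤ) (2 * n), wt s ((z : ℝ) / n) := by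
      cases b
      · simpa using kl_refl s hn
      · simp
    rw [e2, div_self hZ0.ne']
  · exact fun y => (kl_lile hn s b y).1
  · intro y
    have := (kl_lile hn s b y).2
    linarith [hh.1]
  · rw [kl_zb hn _ li0]
    have h := Finset.sum_le_card_nsmul (Icc (n : ℤ) (2 * n)) (fun y => li s n b y) (eh n)
      (fun y _ => (kl_lile hn s b y).2)
    rw [nsmul_eq_mul, kl_card] at h
    refine h.trans ?_
    calc ((n : ℝ) + 1) * eh n ≤ (2 * n) * eh n := mul_le_mul_of_nonneg_right (by linarith) hh.1.le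
      _ = 2 * (eh n * n) := by ring
      _ ≤ 400 := by rw [hh.2]; norm_num
  · rw [kl_zb hn (fun y => |la s n b y - li s n b y|) (fun y hy => by
      show |la s n b y - li s n b y| = 0
      rw [la0 y hy, li0 y hy, sub_zero, abs_zero])]
    have hb := kl_bad hn s b
    have hpt : ∀ y ∈ Icc (n : ℤ) (2 * n), |la s n b y - li s n b y| ≤ 175 * eh n / n +
        (if wt s (if b then (y : ℝ) / n else 3 - (y : ℝ) / n) ≠ (wB s b (ci n y) : ℝ) then
          3 * eh n else 0) := by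
      intro y hy
      by_cases hw : wt s (if b then (y : ℝ) / n else 3 - (y : ℝ) / n) = (wB s b (ci n y) : ℝ)
      · rw [if_neg (not_not.2 hw), add_zero]
        exact kl_diff hn hs b hy hw
      · rw [if_pos hw]
        have a1 := kl_le hn s b y
        have a2 := kl_lile hn s b y
        have a3 : |la s n b y - li s n b y| ≤ 3 * eh n := by
          rw [abs_le]
          constructor <;> linarith
        have a4 : 0 ≤ 175 * eh n / n := by
          have := hh.1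
          positivity
        linarith
    refine (Finset.sum_le_sum hpt).trans ?_
    rw [Finset.sum_add_distrib, Finset.sum_const, nsmul_eq_mul, kl_card, ← Finset.sum_filter,
      Finset.sum_const, nsmul_eq_mul]
    have q1 : ((n : ℝ) + 1) * (175 * eh n / n) ≤ 350 * eh n := by
      have hn0 : (0 : ℝ) < n := by linarith
      rw [mul_div_assoc', div_le_iff₀ hn0]
      calc ((n : ℝ) + 1) * (175 * eh n) ≤ (2 * n) * (175 * eh n) :=
            mul_le_mul_of_nonneg_right (by linarith) (by linarith [hh.1])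
        _ = 350 * eh n * n := by ring
    have q2 := mul_le_mul_of_nonneg_right hb (by linarith [hh.1] : (0 : ℝ) ≤ 3 * eh n)
    linarith [hh.1]

end Pool.Agent.PGo.K
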