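import Pool.Agent.PGo.KoRed
import Pool.Agent.PGo.KoLa
import Pool.Agent.PGo.KoDsv

/-!
# PGo-KoIn: the inner edges between black vertices

PLAN. `Sin_red`. For `d ≥ 1` and laws `b`: `G b := ∑ y y' ∈ ZB n, la true y * la b y' * 1[|y - y'| = d] = ∑ y, la true y (la b (y + d) + la b (y - d))`. With `LaP` (`le`, `lile`,
`lali`): replacing `la` by `li` costs at most `2 C h * C h` twice, i.e. `O(h^2)`; there are at most `n` vertices and `h n = 6`. Here `la s n (st v (nbp n k v)) y'` is first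
replaced by `li s n (st v (nbp n k v)) y' = li s n (be1 s c) y'` (`Ptn`, `v ∈ Vc n c e`, `vs_split`).
`∑ y y', li true y * li b y' * 1[|y - y'| = d] = (h / Wb)^2 ∑ i j, w_i w'_j (#{y ∈ [n,2n] : tm y ∈ Ic i, tm y + τ ∈ Ic j} + #{… tm y - τ ∈ Ic j})` (`li_wv`, `wv_eq`,
`tm n (y ± d) = tm n y ± h d`), and `h #{…} = lam (i - j ± τ) + O(10 h)` (`disc_Icc`, `vol_IcIc`). So `G = h / 6 * InB s b τ + O(h^2)`.
Number of vertices in the column `c`: `h #(Vc n c 0 ∪ Vc n c 1) = 2 + O(h)` (`disc_Vc` with `univ`), and `InL`: for `s ≠ 3` all `be1 s c = true`, `InL = InB true`; for `s = 3`,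
`be1 3 0 = true`, `be1 3 1 = be1 3 2 = false`. `InB` is bounded by a constant.
-/

noncomputable section

namespace Pool.Agent.PGo.K

open Finset Pool.Agent.PGr PGrK MeasureTheory

/-- the number of pairs at the distance `d`, weighted -/
private def Gf (n : ℕ) (d : ℤ) (f g : ℤ → ℝ) : ℝ :=
  ∑ y ∈ ZB n, ∑ y' ∈ ZB n, f y * g y' * (if |y - y'| = d then 1 else 0)

private theorem filt_sub (S : Finset ℤ) (y d : ℤ) :
    S.filter (fun y' => |y - y'| = d) ⊆ {y - d, y + d} := by
  intro x hx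
  rw [mem_filter] at hx
  rw [mem_insert, mem_singleton]
  rcases abs_cases (y - x) with ⟨h, _⟩ | ⟨h, _⟩
  · left; omega
  · right; omega

private theorem two_le (S : Finset ℤ) (y d : ℤ) {g : ℤ → ℝ} {M : ℝ} (h0 : ∀ x, 0 ≤ g x)
    (hM : ∀ x, g x ≤ M) :
    ∑ y' ∈ S, g y' * (if |y - y'| = d then 1 else 0) ≤ 2 * M := by
  have hM0 : 0 ≤ M := (h0 0).trans (hM 0)
  have h1 : ∑ y' ∈ S, g y' * (if |y - y'| = d then 1 else 0)
      = ∑ y' ∈ S.filter (fun y' => |y - y'| = d), g y' := by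
    rw [sum_filter]
    apply sum_congr rfl
    intro x _
    split_ifs <;> simp
  rw [h1]
  have h2 : ∑ y' ∈ S.filter (fun y' => |y - y'| = d), g y'
      ≤ ∑ y' ∈ S.filter (fun y' => |y - y'| = d), M := sum_le_sum (fun x _ => hM x)
  have h3 : (S.filter (fun y' => |y - y'| = d)).card ≤ 2 :=
    (card_le_card (filt_sub S y d)).trans card_le_two
  have h4 : ((S.filter (fun y' => |y - y'| = d)).card : ℝ) ≤ 2 := by exact_mod_cast h3
  rw [sum_const, nsmul_eq_mul] at h2
  exact h2.trans (mul_le_mul_of_nonneg_right h4 hM0)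

private theorem two_le' (S : Finset ℤ) (y d : ℤ) {g : ℤ → ℝ} {M : ℝ} (h0 : ∀ x, 0 ≤ g x)
    (hM : ∀ x, g x ≤ M) :
    ∑ y' ∈ S, g y' * (if |y' - y| = d then 1 else 0) ≤ 2 * M := by
  have := two_le S y d h0 hM
  refine Eq.trans_le ?_ this
  apply sum_congr rfl
  intro x _
  rw [abs_sub_comm]

private theorem Gf_la_li {C : ℝ} {s n : ℕ} {b b' : Bool} (d : ℤ)
    (h1 : LaP C s n b) (h2 : LaP C s n b') :
    |Gf n d (la s n b) (la s n b') - Gf n d (li s n b) (li s n b')| ≤
      4 * C ^ 2 * eh n ^ 2 := by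
  have hCh : 0 ≤ C * eh n := (h1.nonneg 0).trans (h1.le 0)
  have key : ∀ y y' : ℤ, |la s n b y * la s n b' y' * (if |y - y'| = d then 1 else 0) -
      li s n b y * li s n b' y' * (if |y - y'| = d then 1 else 0)| ≤
      |la s n b y - li s n b y| * (la s n b' y' * (if |y - y'| = d then 1 else 0)) +
      |la s n b' y' - li s n b' y'| * (li s n b y * (if |y - y'| = d then 1 else 0)) := by
    intro y y'
    have e1 : la s n b y * la s n b' y' * (if |y - y'| = d then (1 : ℝ) else 0) -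
      li s n b y * li s n b' y' * (if |y - y'| = d then (1 : ℝ) else 0) =
      (la s n b y - li s n b y) * (la s n b' y' * (if |y - y'| = d then 1 else 0)) +
      (la s n b' y' - li s n b' y') * (li s n b y * (if |y - y'| = d then 1 else 0)) := by ring
    rw [e1]
    refine (abs_add_le _ _).trans ?_
    rw [abs_mul (la s n b y - li s n b y), abs_mul (la s n b' y' - li s n b' y')]
    have hi : (0 : ℝ) ≤ (if |y - y'| = d then 1 else 0) := by split_ifs <;> norm_num
    rw [abs_of_nonneg (mul_nonneg (h2.nonneg y') hi), abs_of_nonneg (mul_nonneg (h1.linn y) hi)]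
  have s1 : |Gf n d (la s n b) (la s n b') - Gf n d (li s n b) (li s n b')| ≤
      ∑ y ∈ ZB n, ∑ y' ∈ ZB n,
      (|la s n b y - li s n b y| * (la s n b' y' * (if |y - y'| = d then 1 else 0)) +
      |la s n b' y' - li s n b' y'| * (li s n b y * (if |y - y'| = d then 1 else 0))) := by
    unfold Gf
    rw [← sum_sub_distrib]
    refine (abs_sum_le_sum_abs _ _).trans (sum_le_sum fun y _ => ?_)
    rw [← sum_sub_distrib]
    exact (abs_sum_le_sum_abs _ _).trans (sum_le_sum fun y' _ => key y y')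
  have s2 : ∑ y ∈ ZB n, ∑ y' ∈ ZB n,
      |la s n b y - li s n b y| * (la s n b' y' * (if |y - y'| = d then 1 else 0)) ≤
      C * eh n * (2 * (C * eh n)) := by
    have : ∀ y ∈ ZB n, ∑ y' ∈ ZB n,
        |la s n b y - li s n b y| * (la s n b' y' * (if |y - y'| = d then 1 else 0)) ≤
        |la s n b y - li s n b y| * (2 * (C * eh n)) := by
      intro y _
      rw [← mul_sum]
      exact mul_le_mul_of_nonneg_left (two_le _ _ _ h2.nonneg h2.le) (abs_nonneg _)
    refine (sum_le_sum this).trans ?_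
    rw [← sum_mul]
    exact mul_le_mul_of_nonneg_right h1.lali (by linarith)
  have s3 : ∑ y ∈ ZB n, ∑ y' ∈ ZB n,
      |la s n b' y' - li s n b' y'| * (li s n b y * (if |y - y'| = d then 1 else 0)) ≤
      C * eh n * (2 * (C * eh n)) := by
    rw [sum_comm]
    have : ∀ y' ∈ ZB n, ∑ y ∈ ZB n,
        |la s n b' y' - li s n b' y'| * (li s n b y * (if |y - y'| = d then 1 else 0)) ≤
        |la s n b' y' - li s n b' y'| * (2 * (C * eh n)) := by
      intro y' _
      rw [← mul_sum]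
      exact mul_le_mul_of_nonneg_left (two_le' _ _ _ h1.linn h1.lile) (abs_nonneg _)
    refine (sum_le_sum this).trans ?_
    rw [← sum_mul]
    exact mul_le_mul_of_nonneg_right h2.lali (by linarith)
  have s4 : ∑ y ∈ ZB n, ∑ y' ∈ ZB n,
      (|la s n b y - li s n b y| * (la s n b' y' * (if |y - y'| = d then 1 else 0)) +
      |la s n b' y' - li s n b' y'| * (li s n b y * (if |y - y'| = d then 1 else 0))) =
      ∑ y ∈ ZB n, ∑ y' ∈ ZB n,
      |la s n b y - li s n b y| * (la s n b' y' * (if |y - y'| = d then 1 else 0)) +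
      ∑ y ∈ ZB n, ∑ y' ∈ ZB n,
      |la s n b' y' - li s n b' y'| * (li s n b y * (if |y - y'| = d then 1 else 0)) := by
    rw [← sum_add_distrib]
    apply sum_congr rfl
    intro y _
    rw [← sum_add_distrib]
  rw [s4] at s1
  calc _ ≤ _ := s1
    _ ≤ C * eh n * (2 * (C * eh n)) + C * eh n * (2 * (C * eh n)) := add_le_add s2 s3
    _ = 4 * C ^ 2 * eh n ^ 2 := by ring

private theorem li_supp {s n : ℕ} {b : Bool} {y : ℤ} (hy : y ∉ Icc (n : ℤ) (2 * n)) :
    li s n b y = 0 := by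
  unfold li; rw [if_neg hy]

/-- the inner sum -/
private theorem inner_sum {n : ℕ} (hn : 1 ≤ n) (s : ℕ) (b : Bool) (y d : ℤ) (hd : 1 ≤ d) :
    ∑ y' ∈ ZB n, li s n b y' * (if |y - y'| = d then 1 else 0) =
      li s n b (y + d) + li s n b (y - d) := by
  have e1 : ∀ y' : ℤ, li s n b y' * (if |y - y'| = d then (1 : ℝ) else 0) =
      (if y + d = y' then li s n b y' else 0) + (if y - d = y' then li s n b y' else 0) := by
    intro y'
    by_cases h1 : y + d = y'
    · have h2 : ¬ (y - d = y') := by omega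
      have h3 : |y - y'| = d := by rw [← h1]; rw [show y - (y + d) = -d by ring, abs_neg]; exact abs_of_nonneg (by omega)
      rw [if_pos h1, if_neg h2, if_pos h3]; ring
    · by_cases h2 : y - d = y'
      · have h3 : |y - y'| = d := by rw [← h2]; rw [show y - (y - d) = d by ring]; exact abs_of_nonneg (by omega)
        rw [if_neg h1, if_pos h2, if_pos h3]; ring
      · have h3 : ¬ (|y - y'| = d) := by
          intro h
          rcases abs_cases (y - y') with ⟨h', _⟩ | ⟨h', _⟩ <;> omega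
        rw [if_neg h1, if_neg h2, if_neg h3]; ring
  rw [sum_congr rfl (fun y' _ => e1 y'), sum_add_distrib, sum_ite_eq, sum_ite_eq]
  have e2 : ∀ z : ℤ, (if z ∈ ZB n then li s n b z else 0) = li s n b z := by
    intro z
    by_cases hz : z ∈ ZB n
    · rw [if_pos hz]
    · rw [if_neg hz, li_supp]
      exact fun h => hz (Icc_ZB hn h)
  rw [e2, e2]

/-- number of pairs of cells -/
private theorem cell_pair {n : ℕ} (hn : 1 ≤ n) {i j : ℕ} (hi : i < 6) (hj : j < 6) (x : ℝ) :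
    |eh n * (∑ y ∈ Icc (n : ℤ) (2 * n), (Ic i).indicator (fun _ => (1 : ℝ)) (tm n y) *
      (Ic j).indicator (fun _ => (1 : ℝ)) (tm n y + x)) - lam ((i : ℝ) - j + x)| ≤ 10 * eh n := by
  have hoc : (Ic i ∩ {t | t + x ∈ Ic j}).OrdConnected := by
    refine (Ic_oc i).inter ⟨fun a ha b hb c hc => ?_⟩
    exact (Ic_oc j).out ha hb ⟨by linarith [hc.1], by linarith [hc.2]⟩
  have h := disc_Icc hn (Ic i ∩ {t | t + x ∈ Ic j}) hoc
  rw [vol_IcIc hi hj x, one_mul] at h
  have e : ∑ y ∈ Icc (n : ℤ) (2 * n), (Ic i).indicator (fun _ => (1 : ℝ)) (tm n y) *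
      (Ic j).indicator (fun _ => (1 : ℝ)) (tm n y + x) =
      ∑ y ∈ Icc (n : ℤ) (2 * n), (Ic i ∩ {t | t + x ∈ Ic j}).indicator
        (fun _ => (1 : ℝ)) (tm n y) := by
    apply sum_congr rfl
    intro y _
    by_cases h1 : tm n y ∈ Ic i
    · by_cases h2 : tm n y + x ∈ Ic j
      · rw [Set.indicator_of_mem h1, Set.indicator_of_mem h2,
          Set.indicator_of_mem (show tm n y ∈ Ic i ∩ {t | t + x ∈ Ic j} from ⟨h1, h2⟩)]
        ring
      · rw [Set.indicator_of_notMem h2, mul_zero,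
          Set.indicator_of_notMem (fun h' : tm n y ∈ Ic i ∩ {t | t + x ∈ Ic j} => h2 h'.2)]
    · rw [Set.indicator_of_notMem h1, zero_mul,
          Set.indicator_of_notMem (fun h' : tm n y ∈ Ic i ∩ {t | t + x ∈ Ic j} => h1 h'.1)]
  rw [e]
  exact h

private theorem Gf_li_eq {n : ℕ} (hn : 1 ≤ n) (s : ℕ) (b : Bool) (d : ℤ) (hd : 1 ≤ d) :
    Gf n d (li s n true) (li s n b) = eh n / (WbI s : ℝ) ^ 2 *
      ∑ i ∈ range 6, ∑ j ∈ range 6, (wB s true i : ℝ) * (wB s b j : ℝ) *
      (eh n * (∑ y ∈ Icc (n : ℤ) (2 * n), (Ic i).indicator (fun _ => (1 : ℝ)) (tm n y) *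
        (Ic j).indicator (fun _ => (1 : ℝ)) (tm n y + eh n * d)) +
       eh n * (∑ y ∈ Icc (n : ℤ) (2 * n), (Ic i).indicator (fun _ => (1 : ℝ)) (tm n y) *
        (Ic j).indicator (fun _ => (1 : ℝ)) (tm n y + (-(eh n * d))))) := by
  have e1 : Gf n d (li s n true) (li s n b) =
      ∑ y ∈ Icc (n : ℤ) (2 * n), li s n true y * (li s n b (y + d) + li s n b (y - d)) := by
    unfold Gf
    have : ∀ y ∈ ZB n, ∑ y' ∈ ZB n, li s n true y * li s n b y' *
        (if |y - y'| = d then (1 : ℝ) else 0) =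
        li s n true y * (li s n b (y + d) + li s n b (y - d)) := by
      intro y _
      rw [← inner_sum hn s b y d hd, mul_sum]
      apply sum_congr rfl
      intro y' _
      ring
    rw [sum_congr rfl this]
    symm
    apply sum_subset (Icc_ZB hn)
    intro y _ hy
    rw [li_supp hy, zero_mul]
  have t1 : ∀ y : ℤ, tm n (y + d) = tm n y + eh n * d := by
    intro y; unfold tm; push_cast; ring
  have t2 : ∀ y : ℤ, tm n (y - d) = tm n y + (-(eh n * d)) := by
    intro y; unfold tm; push_cast; ring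
  rw [e1]
  have e2 : ∀ y : ℤ, li s n true y * (li s n b (y + d) + li s n b (y - d)) =
      ∑ i ∈ range 6, ∑ j ∈ range 6, eh n / (WbI s : ℝ) ^ 2 * ((wB s true i : ℝ) * (wB s b j : ℝ) *
      (eh n * ((Ic i).indicator (fun _ => (1 : ℝ)) (tm n y) *
        (Ic j).indicator (fun _ => (1 : ℝ)) (tm n y + eh n * d)) +
       eh n * ((Ic i).indicator (fun _ => (1 : ℝ)) (tm n y) *
        (Ic j).indicator (fun _ => (1 : ℝ)) (tm n y + (-(eh n * d)))))) := by
    intro y
    rw [li_wv hn, li_wv hn, li_wv hn, t1, t2, wv_eq, wv_eq, wv_eq]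
    rw [← mul_add, ← sum_add_distrib]
    rw [show ∀ A B : ℝ, (eh n / (WbI s : ℝ) * A) * (eh n / (WbI s : ℝ) * B) =
      (eh n / (WbI s : ℝ)) * (eh n / (WbI s : ℝ)) * (A * B) from fun A B => by ring]
    rw [sum_mul_sum, mul_sum]
    apply sum_congr rfl
    intro i _
    rw [mul_sum]
    apply sum_congr rfl
    intro j _
    rw [div_mul_div_comm, ← pow_two (WbI s : ℝ)]
    ring
  rw [sum_congr rfl (fun y _ => e2 y), sum_comm, mul_sum]
  apply sum_congr rfl
  intro i _
  rw [sum_comm, mul_sum]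
  apply sum_congr rfl
  intro j _
  rw [← mul_sum, ← mul_sum, sum_add_distrib, ← mul_sum, ← mul_sum]

private theorem Wb_pos {s : ℕ} : (0 : ℝ) < (WbI s : ℝ) := by
  unfold WbI; split_ifs <;> norm_num

private theorem wB_sumR {s : ℕ} (hs : s < 4) (b : Bool) :
    ∑ i ∈ range 6, (wB s b i : ℝ) = (WbI s : ℝ) := by
  rw [← wB_sum s hs b]; push_cast; rfl

private theorem wB_nn {s : ℕ} (hs : s < 4) (b : Bool) {i : ℕ} (hi : i < 6) :
    (0 : ℝ) ≤ (wB s b i : ℝ) := by
  have := (wB_pos s hs b i hi).1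
  have h : (0 : ℤ) ≤ wB s b i := by omega
  exact_mod_cast h

private theorem Gf_li_bd {n : ℕ} (hn : 1 ≤ n) {s : ℕ} (hs : s < 4) (b : Bool) (d : ℤ)
    (hd : 1 ≤ d) :
    |Gf n d (li s n true) (li s n b) - eh n / 6 * InB s b (eh n * d)| ≤ 20 * eh n ^ 2 := by
  obtain ⟨hh, -, -⟩ := eh_pos hn
  have hW := Wb_pos (s := s)
  rw [Gf_li_eq hn s b d hd]
  unfold InB
  have e : ∀ A B : ℝ, eh n / (WbI s : ℝ) ^ 2 * A - eh n / 6 * (6 / (WbI s : ℝ) ^ 2 * B) =
      eh n / (WbI s : ℝ) ^ 2 * (A - B) := by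
    intro A B
    field_simp
  rw [e, ← sum_sub_distrib, abs_mul, abs_of_nonneg (by positivity)]
  have h1 : |∑ i ∈ range 6, (∑ j ∈ range 6, (wB s true i : ℝ) * (wB s b j : ℝ) *
      (eh n * (∑ y ∈ Icc (n : ℤ) (2 * n), (Ic i).indicator (fun _ => (1 : ℝ)) (tm n y) *
        (Ic j).indicator (fun _ => (1 : ℝ)) (tm n y + eh n * d)) +
       eh n * (∑ y ∈ Icc (n : ℤ) (2 * n), (Ic i).indicator (fun _ => (1 : ℝ)) (tm n y) *
        (Ic j).indicator (fun _ => (1 : ℝ)) (tm n y + (-(eh n * d))))) -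
      ∑ j ∈ range 6, (wB s true i : ℝ) * (wB s b j : ℝ) *
        (lam ((i : ℝ) - j + eh n * d) + lam ((i : ℝ) - j - eh n * d)))| ≤
      ∑ i ∈ range 6, ∑ j ∈ range 6, (wB s true i : ℝ) * (wB s b j : ℝ) * (20 * eh n) := by
    refine (abs_sum_le_sum_abs _ _).trans (sum_le_sum fun i hi => ?_)
    rw [← sum_sub_distrib]
    refine (abs_sum_le_sum_abs _ _).trans (sum_le_sum fun j hj => ?_)
    rw [mem_range] at hi hj
    rw [← mul_sub, abs_mul, abs_of_nonneg (mul_nonneg (wB_nn hs true hi) (wB_nn hs b hj))]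
    refine mul_le_mul_of_nonneg_left ?_ (mul_nonneg (wB_nn hs true hi) (wB_nn hs b hj))
    have c1 := cell_pair hn hi hj (eh n * d)
    have c2 := cell_pair hn hi hj (-(eh n * d))
    rw [← sub_eq_add_neg] at c2
    rw [abs_le] at c1 c2 ⊢
    constructor <;> linarith [c1.1, c1.2, c2.1, c2.2]
  have h2 : ∑ i ∈ range 6, ∑ j ∈ range 6, (wB s true i : ℝ) * (wB s b j : ℝ) * (20 * eh n) =
      (WbI s : ℝ) ^ 2 * (20 * eh n) := by
    have : ∀ i ∈ range 6, ∑ j ∈ range 6, (wB s true i : ℝ) * (wB s b j : ℝ) * (20 * eh n) =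
        (wB s true i : ℝ) * ((WbI s : ℝ) * (20 * eh n)) := by
      intro i _
      rw [← sum_mul, ← mul_sum, wB_sumR hs b]; ring
    rw [sum_congr rfl this, ← sum_mul, wB_sumR hs true]; ring
  rw [h2] at h1
  refine (mul_le_mul_of_nonneg_left h1 (by positivity)).trans (le_of_eq ?_)
  field_simp

private theorem lam_bd (x : ℝ) : 0 ≤ lam x ∧ lam x ≤ 1 := by
  unfold lam
  constructor
  · exact le_max_left _ _
  · exact max_le (by norm_num) (by linarith [abs_nonneg x])

private theorem InB_bd {s : ℕ} (hs : s < 4) (b : Bool) (τ : ℝ) : |InB s b τ| ≤ 12 := by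
  have hW := Wb_pos (s := s)
  unfold InB
  rw [abs_mul, abs_of_nonneg (by positivity)]
  have h1 : |∑ i ∈ range 6, ∑ j ∈ range 6, (wB s true i : ℝ) * (wB s b j : ℝ) *
        (lam ((i : ℝ) - j + τ) + lam ((i : ℝ) - j - τ))| ≤
      ∑ i ∈ range 6, ∑ j ∈ range 6, (wB s true i : ℝ) * (wB s b j : ℝ) * 2 := by
    refine (abs_sum_le_sum_abs _ _).trans (sum_le_sum fun i hi => ?_)
    refine (abs_sum_le_sum_abs _ _).trans (sum_le_sum fun j hj => ?_)
    rw [mem_range] at hi hj
    rw [abs_mul, abs_of_nonneg (mul_nonneg (wB_nn hs true hi) (wB_nn hs b hj))]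
    refine mul_le_mul_of_nonneg_left ?_ (mul_nonneg (wB_nn hs true hi) (wB_nn hs b hj))
    have a1 := lam_bd ((i : ℝ) - j + τ)
    have a2 := lam_bd ((i : ℝ) - j - τ)
    rw [abs_le]
    constructor <;> linarith [a1.1, a1.2, a2.1, a2.2]
  have h2 : ∑ i ∈ range 6, ∑ j ∈ range 6, (wB s true i : ℝ) * (wB s b j : ℝ) * 2 =
      (WbI s : ℝ) ^ 2 * 2 := by
    have : ∀ i ∈ range 6, ∑ j ∈ range 6, (wB s true i : ℝ) * (wB s b j : ℝ) * 2 =
        (wB s true i : ℝ) * ((WbI s : ℝ) * 2) := by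
      intro i _
      rw [← sum_mul, ← mul_sum, wB_sumR hs b]; ring
    rw [sum_congr rfl this, ← sum_mul, wB_sumR hs true]; ring
  rw [h2] at h1
  refine (mul_le_mul_of_nonneg_left h1 (by positivity)).trans (le_of_eq ?_)
  field_simp
  norm_num

private theorem card_Vc {n c e : ℕ} (hn : 1 ≤ n) (hc : c < 3) (he : e < 2) :
    |eh n * ((Vc n c e).card : ℝ) - 1| ≤ 10 * eh n := by
  have h := disc_Vc hn hc he Set.univ Set.ordConnected_univ
  rw [Set.univ_inter, Real.volume_real_Icc_of_le (by linarith)] at h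
  simp only [Set.indicator_univ, sum_const, nsmul_eq_mul, mul_one, one_mul] at h
  rw [show (c : ℝ) + 1 - c = 1 by ring] at h
  exact h

private theorem InL_eq {s : ℕ} (τ : ℝ) :
    InL s τ = ∑ c ∈ range 3, ∑ _e ∈ range 2, 1 / 6 * InB s (be1 s c) τ := by
  unfold InL
  simp only [sum_const, card_range, sum_range_succ, range_zero, sum_empty]
  by_cases h : s = 3
  · subst h
    simp [be1]
    ring
  · simp [be1, h]
    ring

theorem In_lim : ∃ C : ℝ, 0 < C ∧ ∀ n : ℕ, 1 ≤ n → ∀ s < 4, ∀ k : ℕ, Ptn s n k →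
    ∀ d : ℤ, 1 ≤ d → |Sin s n k d - InL s (eh n * d)| ≤ C * eh n := by
  obtain ⟨C, hC, hP⟩ := la_props
  refine ⟨6 * ((4 * C ^ 2 + 20) * 61 + 20), by positivity, ?_⟩
  intro n hn s hs k hpt d hd
  obtain ⟨hh, hh6, -⟩ := eh_pos hn
  rw [Sin_red hn, vs_split, InL_eq, ← sum_sub_distrib]
  have key : ∀ c ∈ range 3, ∀ e ∈ range 2,
      |∑ v ∈ Vc n c e, ∑ y ∈ ZB n, ∑ y' ∈ ZB n,
        la s n true y * la s n (st v (nbp n k v)) y' * (if |y - y'| = d then 1 else 0) -
        1 / 6 * InB s (be1 s c) (eh n * d)| ≤ ((4 * C ^ 2 + 20) * 61 + 20) * eh n := by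
    intro c hc e he
    rw [mem_range] at hc he
    have hv : ∀ v ∈ Vc n c e, |∑ y ∈ ZB n, ∑ y' ∈ ZB n,
        la s n true y * la s n (st v (nbp n k v)) y' * (if |y - y'| = d then 1 else 0) -
        eh n / 6 * InB s (be1 s c) (eh n * d)| ≤ (4 * C ^ 2 + 20) * eh n ^ 2 := by
      intro v hv
      have h1 := Gf_la_li d (hP n hn s hs true) (hP n hn s hs (st v (nbp n k v)))
      have h2 : li s n (st v (nbp n k v)) = li s n (be1 s c) := by
        funext y
        exact (hpt c hc e he v hv y).1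
      rw [h2] at h1
      have h3 := Gf_li_bd hn hs (be1 s c) d hd
      have h4 : ∑ y ∈ ZB n, ∑ y' ∈ ZB n,
        la s n true y * la s n (st v (nbp n k v)) y' * (if |y - y'| = d then 1 else 0) =
        Gf n d (la s n true) (la s n (st v (nbp n k v))) := rfl
      rw [h4]
      have h5 := abs_sub_le (Gf n d (la s n true) (la s n (st v (nbp n k v))))
        (Gf n d (li s n true) (li s n (be1 s c))) (eh n / 6 * InB s (be1 s c) (eh n * d))
      linarith
    have hsum : |∑ v ∈ Vc n c e, (∑ y ∈ ZB n, ∑ y' ∈ ZB n,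
        la s n true y * la s n (st v (nbp n k v)) y' * (if |y - y'| = d then 1 else 0) -
        eh n / 6 * InB s (be1 s c) (eh n * d))| ≤
        ((Vc n c e).card : ℝ) * ((4 * C ^ 2 + 20) * eh n ^ 2) := by
      refine (abs_sum_le_sum_abs _ _).trans ?_
      refine (sum_le_sum hv).trans ?_
      rw [sum_const, nsmul_eq_mul]
    rw [sum_sub_distrib, sum_const, nsmul_eq_mul] at hsum
    have hcard := card_Vc hn hc he
    have hb := InB_bd hs (be1 s c) (eh n * d)
    have hK : (0 : ℝ) ≤ (4 * C ^ 2 + 20) * eh n := by positivity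
    have hc2 : eh n * ((Vc n c e).card : ℝ) ≤ 61 := by
      have := (abs_le.mp hcard).2
      linarith
    have h6 : ((Vc n c e).card : ℝ) * ((4 * C ^ 2 + 20) * eh n ^ 2) ≤
        (4 * C ^ 2 + 20) * eh n * 61 := by
      have : ((Vc n c e).card : ℝ) * ((4 * C ^ 2 + 20) * eh n ^ 2) =
        (4 * C ^ 2 + 20) * eh n * (eh n * ((Vc n c e).card : ℝ)) := by ring
      rw [this]
      exact mul_le_mul_of_nonneg_left hc2 hK
    have h7 : |((Vc n c e).card : ℝ) * (eh n / 6 * InB s (be1 s c) (eh n * d)) -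
        1 / 6 * InB s (be1 s c) (eh n * d)| ≤ 20 * eh n := by
      have e1 : ((Vc n c e).card : ℝ) * (eh n / 6 * InB s (be1 s c) (eh n * d)) -
        1 / 6 * InB s (be1 s c) (eh n * d) =
        (eh n * ((Vc n c e).card : ℝ) - 1) * (1 / 6 * InB s (be1 s c) (eh n * d)) := by ring
      rw [e1, abs_mul, abs_mul, abs_of_pos (show (0 : ℝ) < 1 / 6 by norm_num)]
      calc |eh n * ((Vc n c e).card : ℝ) - 1| * (1 / 6 * |InB s (be1 s c) (eh n * d)|)
          ≤ (10 * eh n) * (1 / 6 * 12) := by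
            apply mul_le_mul hcard _ (by positivity) (by positivity)
            linarith
        _ = 20 * eh n := by ring
    have h8 := abs_sub_le (∑ v ∈ Vc n c e, ∑ y ∈ ZB n, ∑ y' ∈ ZB n,
        la s n true y * la s n (st v (nbp n k v)) y' * (if |y - y'| = d then 1 else 0))
      (((Vc n c e).card : ℝ) * (eh n / 6 * InB s (be1 s c) (eh n * d)))
      (1 / 6 * InB s (be1 s c) (eh n * d))
    linarith
  refine (abs_sum_le_sum_abs _ _).trans ?_
  have h9 : ∀ c ∈ range 3, |∑ e ∈ range 2, ∑ v ∈ Vc n c e, ∑ y ∈ ZB n, ∑ y' ∈ ZB n,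
        la s n true y * la s n (st v (nbp n k v)) y' * (if |y - y'| = d then 1 else 0) -
        ∑ _e ∈ range 2, 1 / 6 * InB s (be1 s c) (eh n * d)| ≤
        2 * (((4 * C ^ 2 + 20) * 61 + 20) * eh n) := by
    intro c hc
    rw [← sum_sub_distrib]
    refine (abs_sum_le_sum_abs _ _).trans ((sum_le_sum fun e he => key c hc e he).trans ?_)
    rw [sum_const, card_range, nsmul_eq_mul]
    push_cast
    exact le_refl _
  refine (sum_le_sum h9).trans ?_
  rw [sum_const, card_range, nsmul_eq_mul]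
  push_cast
  linarith

end Pool.Agent.PGo.K
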