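import Pool.Agent.PGo.KoRed
import Pool.Agent.PGo.KoLa
import Pool.Agent.PGo.KoDsv

/-!
# PGo-KoLb: the labels of the black vertices

PLAN. `t = tm n z`; for odd `v`: `rf n v z = z`, for even `v`: `rf n v z = 3 n - z`, `tm n (3 n - z) = 12 - t`.
`Ll_lim`: `Ll_red`; `la true y ≤ h / Wb * wv s true (tm n y) + C h^2` for all `y` (`la = wt / Z` on `[n, 2n]`, `wt_ci`, `Z_bd`, `li_wv`; the denominator of `la` is `Z` by definition,
`Z ≥ n + 1`); at most `(n + 1) / 2` vertices of each parity. `h n = 6`.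
`Lk_out`: `rf n v z ∉ ZB n` (`rf_mem`), `Kn = 0`. `Ll_out`: `la` vanishes outside `[n, 2n] ⊆ ZB n` (`Icc_ZB`, `rf_mem`).
-/

noncomputable section

namespace Pool.Agent.PGo.K

open Finset Pool.Agent.PGr PGrK

private theorem lb_cnt (n : ℕ) : ((range n).filter (fun v => v % 2 = 1)).card = n / 2 ∧
    ((range n).filter (fun v => ¬ v % 2 = 1)).card = (n + 1) / 2 := by
  induction n with
  | zero => exact ⟨rfl, rfl⟩
  | succ n ih =>
    obtain ⟨h1, h2⟩ := ih
    have hn : ∀ p : ℕ → Prop, ∀ [DecidablePred p], n ∉ (range n).filter p := fun p _ h =>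
      absurd (mem_range.1 (mem_filter.1 h).1) (lt_irrefl n)
    rw [range_add_one, filter_insert, filter_insert]
    by_cases h : n % 2 = 1
    · rw [if_pos h, if_neg (not_not.2 h), card_insert_of_notMem (hn _), h1, h2]
      omega
    · rw [if_neg h, if_pos h, card_insert_of_notMem (hn _), h1, h2]
      omega

private theorem lb_wt (s : ℕ) (Y : ℝ) : 1 ≤ wt s Y ∧ wt s Y ≤ 7 := by
  unfold wt
  split_ifs <;> norm_num

private theorem lb_Z (s n : ℕ) : (n : ℝ) ≤ ∑ z ∈ Icc (n : ℤ) (2 * n), wt s ((z : ℝ) / n) := by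
  have h1 : ∑ z ∈ Icc (n : ℤ) (2 * n), (1 : ℝ) ≤ ∑ z ∈ Icc (n : ℤ) (2 * n), wt s ((z : ℝ) / n) :=
    Finset.sum_le_sum fun z _ => (lb_wt s _).1
  rw [Finset.sum_const, Int.card_Icc, nsmul_eq_mul, mul_one] at h1
  have h2 : (2 * (n : ℤ) + 1 - n).toNat = n + 1 := by omega
  rw [h2] at h1
  push_cast at h1
  linarith

private theorem lb_Wb (s : ℕ) : (8 : ℝ) ≤ (WbI s : ℝ) := by
  unfold WbI
  split_ifs <;> norm_num

private theorem lb_la {n : ℕ} (hn : 1 ≤ n) {s : ℕ} (hs : s < 4) (y : ℤ) :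
    la s n true y ≤ eh n / (WbI s : ℝ) * wv s true (tm n y) + 30 * eh n ^ 2 := by
  have hn0 : (0 : ℝ) < n := by exact_mod_cast hn
  have hh : 0 < eh n := by
    unfold eh
    positivity
  have hW := lb_Wb s
  by_cases hy : y ∈ Icc (n : ℤ) (2 * n)
  · have hZ := lb_Z s n
    have hZb := Z_bd hn hs
    rw [← li_wv hn]
    unfold la li
    rw [if_pos hy, if_pos hy, if_pos rfl, wt_ci hn s hy]
    rw [← wt_ci hn s hy]
    have hw := lb_wt s ((y : ℝ) / n)
    generalize wt s ((y : ℝ) / n) = w at *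
    generalize ∑ z ∈ Icc (n : ℤ) (2 * n), wt s ((z : ℝ) / n) = Z at *
    generalize (WbI s : ℝ) = W at *
    have hZ0 : 0 < Z := lt_of_lt_of_le hn0 hZ
    have hW0 : 0 < W := by linarith
    have h1 : W - eh n * Z ≤ 200 * eh n := by
      have := (abs_le.1 hZb).1
      linarith
    have h2 : 6 ≤ eh n * Z := by
      have e : eh n * n = 6 := by
        unfold eh
        field_simp
      calc (6 : ℝ) = eh n * n := e.symm
        _ ≤ eh n * Z := mul_le_mul_of_nonneg_left hZ hh.le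
    have h3 : w / Z - eh n / W * w = w * (W - eh n * Z) / (Z * W) := by
      field_simp
    have h4 : w * (W - eh n * Z) / (Z * W) ≤ 30 * eh n ^ 2 := by
      rw [div_le_iff₀ (mul_pos hZ0 hW0)]
      have h5 : w * (W - eh n * Z) ≤ 7 * (200 * eh n) := by
        calc w * (W - eh n * Z) ≤ w * (200 * eh n) := mul_le_mul_of_nonneg_left h1 (by linarith)
          _ ≤ 7 * (200 * eh n) := mul_le_mul_of_nonneg_right hw.2 (by positivity)
      have h6 : 6 * 8 ≤ (eh n * Z) * W := mul_le_mul h2 hW (by norm_num) (by positivity)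
      have h7 : 30 * eh n * (6 * 8) ≤ 30 * eh n * ((eh n * Z) * W) :=
        mul_le_mul_of_nonneg_left h6 (by positivity)
      calc w * (W - eh n * Z) ≤ 7 * (200 * eh n) := h5
        _ ≤ 30 * eh n * (6 * 8) := by linarith
        _ ≤ 30 * eh n * ((eh n * Z) * W) := h7
        _ = 30 * eh n ^ 2 * (Z * W) := by ring
    linarith
  · unfold la
    rw [if_neg hy]
    have h1 := (wv_bd hs true (tm n y)).1
    have hW0 : (0 : ℝ) < (WbI s : ℝ) := by linarith
    positivity

private theorem lb_part {n : ℕ} (hn : 1 ≤ n) {s : ℕ} (hs : s < 4) (y : ℤ) {k : ℕ}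
    (hk : 2 * k ≤ n + 1) :
    (k : ℝ) * la s n true y ≤ 3 / (WbI s : ℝ) * wv s true (tm n y) + 200 * eh n := by
  have hn0 : (0 : ℝ) < n := by exact_mod_cast hn
  have hn1 : (1 : ℝ) ≤ n := by exact_mod_cast hn
  have hh : 0 < eh n := by
    unfold eh
    positivity
  have e6 : eh n * n = 6 := by
    unfold eh
    field_simp
  have hh6 : eh n ≤ 6 := by
    rw [← e6]
    exact le_mul_of_one_le_right hh.le hn1
  have hW := lb_Wb s
  have hwv := wv_bd hs true (tm n y)
  have h1 := lb_la hn hs y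
  have hkh : (k : ℝ) * eh n ≤ 3 + eh n / 2 := by
    have h2 : (2 : ℝ) * k ≤ n + 1 := by exact_mod_cast hk
    have h3 : eh n * (2 * k) ≤ eh n * (n + 1) := mul_le_mul_of_nonneg_left h2 hh.le
    rw [mul_add, e6, mul_one] at h3
    linarith
  generalize wv s true (tm n y) = w at *
  generalize (WbI s : ℝ) = W at *
  have hW0 : 0 < W := by linarith
  have h4 : (k : ℝ) * la s n true y ≤ k * (eh n / W * w + 30 * eh n ^ 2) :=
    mul_le_mul_of_nonneg_left h1 (Nat.cast_nonneg k)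
  have h5 : (k : ℝ) * (eh n / W * w + 30 * eh n ^ 2) =
      (k * eh n) * (w / W) + (k * eh n) * (30 * eh n) := by
    field_simp
  have h6 : w / W ≤ 7 / 8 := by
    rw [div_le_div_iff₀ hW0 (by norm_num)]
    nlinarith [hwv.2]
  have h7 : 0 ≤ w / W := div_nonneg hwv.1 hW0.le
  have h8 : (k * eh n) * (w / W) ≤ (3 + eh n / 2) * (w / W) := mul_le_mul_of_nonneg_right hkh h7
  have h9 : (k * eh n) * (30 * eh n) ≤ (3 + eh n / 2) * (30 * eh n) :=
    mul_le_mul_of_nonneg_right hkh (by positivity)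
  have h10 : (3 + eh n / 2) * (30 * eh n) ≤ 6 * (30 * eh n) :=
    mul_le_mul_of_nonneg_right (by linarith) (by positivity)
  have h11 : eh n / 2 * (w / W) ≤ eh n / 2 * (7 / 8) := mul_le_mul_of_nonneg_left h6 (by positivity)
  have h12 : 3 / W * w = 3 * (w / W) := by ring
  rw [h12]
  rw [h5] at h4
  nlinarith

theorem Ll_lim : ∃ C : ℝ, 0 < C ∧ ∀ n : ℕ, 1 ≤ n → ∀ s < 4, ∀ z : ℤ,
    Ll s n z ≤ 3 / (WbI s : ℝ) * (wv s true (tm n z) + wv s true (12 - tm n z)) + C * eh n := by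

  refine ⟨400, by norm_num, ?_⟩
  intro n hn s hs z
  have hn0 : (0 : ℝ) < n := by exact_mod_cast hn
  rw [Ll_red hn]
  have h1 : ∀ v ∈ vs n, la s n true (rf n v z) =
      if v % 2 = 1 then la s n true z else la s n true (3 * (n : ℤ) - z) := by
    intro v _
    unfold rf
    split_ifs <;> rfl
  rw [Finset.sum_congr rfl h1, Finset.sum_ite, Finset.sum_const, Finset.sum_const, nsmul_eq_mul,
    nsmul_eq_mul]
  have hsub : vs n ⊆ range n := by
    unfold vs
    exact filter_subset _ _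
  have hc := lb_cnt n
  have k1 : 2 * ((vs n).filter (fun v => v % 2 = 1)).card ≤ n + 1 := by
    have := card_le_card (filter_subset_filter (fun v => v % 2 = 1) hsub)
    omega
  have k2 : 2 * ((vs n).filter (fun v => ¬ v % 2 = 1)).card ≤ n + 1 := by
    have := card_le_card (filter_subset_filter (fun v => ¬ v % 2 = 1) hsub)
    omega
  have p1 := lb_part hn hs z k1
  have p2 := lb_part hn hs (3 * (n : ℤ) - z) k2
  have ht : tm n (3 * (n : ℤ) - z) = 12 - tm n z := by
    unfold tm eh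
    push_cast
    field_simp
    ring
  rw [ht] at p2
  rw [mul_add]
  linarith


theorem Ll_out {n : ℕ} (hn : 1 ≤ n) (s : ℕ) {z : ℤ} (hz : z ∉ ZB n) : Ll s n z = 0 := by

  rw [Ll_red hn]
  refine Finset.sum_eq_zero fun v _ => ?_
  unfold la
  rw [if_neg]
  intro h
  exact hz ((rf_mem n v z).1 (Icc_ZB hn h))


theorem Lk_out {n : ℕ} (hn : 1 ≤ n) (s k : ℕ) {z : ℤ} (hz : z ∉ ZB n) : Lk s n k z = 0 := by

  rw [Lk_red hn]
  refine Finset.sum_eq_zero fun v _ => Finset.sum_eq_zero fun y _ => Finset.sum_eq_zero fun y' _ => ?_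
  unfold Kn
  rw [if_neg, mul_zero]
  intro h
  exact hz ((rf_mem n v z).1 h)


end Pool.Agent.PGo.K
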