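import Pool.Agent.PGo.KoFd

/-!
# PGo, section 3: facts about the integer tables (definitions: KoFd.lean)
-/

namespace Pool.Agent.PGo

theorem N_facts2 : ∀ s < 4, ∀ p < 6, ∀ c < 3, NF2 s p c := by
  decide +kernel

theorem N_facts {s p c x j : ℕ} (hs : s < 4) (hp : p < 6) (hc : c < 3) (hx : x < 12)
    (hj : j < 6) :
    (if (if j < 3 then c < x else c ≤ x) then
      den s ≤ 200 * N s p c x j ∧ N s p c x j ≤ 12 * den s else N s p c x j = 0) :=
  N_facts2 s hs p hp c hc x hx j hj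

/-- mass: the vertical line integrals are 6 -/
theorem vert_facts : ∀ s < 4, ∀ p < 6, ∀ c < 3,
    (∑ x ∈ Finset.range 12, (N s p c x 3 + N s p c x 4)) = 12 * den s ∧
    (∑ x ∈ Finset.range 12, (N s p c x 0 - N s p c x 3 - N s p c x 4 + N s p c x 5)) = 0 ∧
    (∑ x ∈ Finset.range 12, (-2 * N s p c x 0 + N s p c x 1 + N s p c x 2 + N s p c x 3
      + N s p c x 4 - 2 * N s p c x 5)) = 0 := by
  decide +kernel

/-- linearity of the horizontal integrals on the cells -/
theorem lin_facts : ∀ s < 4, ∀ i < 6, ∀ x < 12, 2 * Q1 s i x = Q0 s i x + Q2 s i x := by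
  decide +kernel

/-- the density identity: coefficients of `1, d, d^2` at the difference `k + d` -/
theorem deg_facts : ∀ s < 4, ∀ k < 12,
    muI s * SCI s * ((∑ c ∈ Finset.range 3, ∑ i ∈ Finset.range 6, ∑ j ∈ Finset.range 6,
        wI s c i j * dq0 s (cI i j) k c)
      + ∑ i ∈ Finset.range 6, (gp0 s i (i + 3 + k) + gm0 s i (i + 2 - k)))
      + 6 * WtI s * den s * BK s k = 6 * WtI s * den s * SCI s * RI s ∧
    muI s * SCI s * ((∑ c ∈ Finset.range 3, ∑ i ∈ Finset.range 6, ∑ j ∈ Finset.range 6,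
        wI s c i j * dq1 s (cI i j) k c)
      + ∑ i ∈ Finset.range 6, (gp1 s i (i + 3 + k) + gm1 s i (i + 2 - k)))
      + 6 * WtI s * den s * (BK s (k + 1) - BK s k) = 0 ∧
    muI s * SCI s * ((∑ c ∈ Finset.range 3, ∑ i ∈ Finset.range 6, ∑ j ∈ Finset.range 6,
        wI s c i j * dq2 s (cI i j) k c)
      + ∑ i ∈ Finset.range 6, (gp2 s i (i + 3 + k) + gm2 s i (i + 2 - k))) = 0 := by
  decide +kernel

/-- capacity, inside of the cells: labels `X` and `3 - X` together -/
theorem cap_cell : ∀ s < 4, ∀ x < 12,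
    10 * (muI s * WbI s * (∑ i ∈ Finset.range 6, (Q0 s i x + Q2 s i (11 - x)))
        + 36 * WtI s * den s * abI s * (lI s x + lI s (11 - x)))
      ≤ 19 * (6 * WtI s * den s * WbI s * RI s) ∧
    10 * (muI s * WbI s * (∑ i ∈ Finset.range 6, (Q2 s i x + Q0 s i (11 - x)))
        + 36 * WtI s * den s * abI s * (lI s x + lI s (11 - x)))
      ≤ 19 * (6 * WtI s * den s * WbI s * RI s) := by
  decide +kernel

/-- capacity at the mesh points -/
theorem cap_mesh : ∀ s < 4, ∀ x < 13,
    25 * (muI s * WbI s * (∑ i ∈ Finset.range 6, (Q0 s i x + Q0 s i (12 - x)))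
        + 36 * WtI s * den s * abI s * (lJ s x + lJ s (12 - x)))
      ≤ 48 * (6 * WtI s * den s * WbI s * RI s) := by
  decide +kernel

end Pool.Agent.PGo
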