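import Pool.Agent.PGo.KoDefs
import Pool.Agent.PGo.KoFact

/-!
# PGo-KoIo: the horizontal integrals

PLAN. `io_bd`: `ker_bd`; integrability on the column from `HI_hcell` (inside `[0, 12)`) and `ker_outside`.
`HH_cell`: `io s p c t = hcell s p c x (t - x)` (`HI_hcell`), `hcell_eq`; the sum over `c, j` with the weights gives
`(Q0 (1-v)^2 + 2 Q1 v (1-v) + Q2 v^2) / (2 den)`, `lin_facts`. `cI i j < 6`: `c_facts`.
`HH_out`: `ker_outside`.
-/

noncomputable section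

namespace Pool.Agent.PGo.K

open Finset Pool.Agent.PGr PGrK

private theorem koio_bd {f : ℝ → ℝ} (h : ∀ x, 0 ≤ f x ∧ f x ≤ 12) (c : ℝ) :
    0 ≤ (∫ a in c..(c + 1), f a) ∧ (∫ a in c..(c + 1), f a) ≤ 12 := by
  constructor
  · exact intervalIntegral.integral_nonneg_of_forall (by linarith) (fun x => (h x).1)
  · have h1 := intervalIntegral.norm_integral_le_of_norm_le_const (a := c) (b := c + 1)
      (f := f) (C := 12) (fun x _ => by
        rw [Real.norm_eq_abs, abs_of_nonneg (h x).1]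
        exact (h x).2)
    have h2 : |c + 1 - c| = 1 := by
      rw [add_sub_cancel_left]
      exact abs_one
    rw [h2, mul_one] at h1
    exact (le_abs_self _).trans h1

theorem io_bd {s p c : ℕ} (hs : s < 4) (hp : p < 6) (hc : c < 3) (t : ℝ) :
    0 ≤ io s p c t ∧ io s p c t ≤ 12 :=
  koio_bd (fun a => ker_bd hs hp a t) _

theorem dg_bd {s p c : ℕ} (hs : s < 4) (hp : p < 6) (hc : c < 3) (τ : ℝ) :
    0 ≤ dg s p c τ ∧ dg s p c τ ≤ 12 :=
  koio_bd (fun a => ker_bd hs hp a (a + 12 - τ)) _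

theorem HH_cell {s i x : ℕ} (hs : s < 4) (hi : i < 6) (hx : x < 12) {t : ℝ} (h1 : (x : ℝ) ≤ t)
    (h2 : t < (x : ℝ) + 1) :
    HH s i t = ((Q0 s i x : ℝ) * (1 - (t - x)) + (Q2 s i x : ℝ) * (t - x)) / (2 * den s) := by
  have hd := (den_posR s).ne'
  have hio : ∀ c ∈ range 3, ∀ p, io s p c t = hcell s p c x (t - x) := fun c hc p =>
    (HI_hcell (s := s) (p := p) (mem_range.1 hc) hx h1 h2).integral
  set v := t - (x : ℝ) with hv
  have e0 : (Q0 s i x : ℝ) = ∑ c ∈ range 3, ∑ j ∈ range 6,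
      (wI s c i j : ℝ) * ((N s (cI i j) c x 0 : ℝ) + (N s (cI i j) c x 1 : ℝ)) := by
    unfold Q0
    push_cast
    rfl
  have e1 : (Pool.Agent.PGo.Q1 s i x : ℝ) = ∑ c ∈ range 3, ∑ j ∈ range 6,
      (wI s c i j : ℝ) * ((N s (cI i j) c x 2 : ℝ) + (N s (cI i j) c x 3 : ℝ)) := by
    unfold Pool.Agent.PGo.Q1
    push_cast
    rfl
  have e2 : (Q2 s i x : ℝ) = ∑ c ∈ range 3, ∑ j ∈ range 6,
      (wI s c i j : ℝ) * ((N s (cI i j) c x 4 : ℝ) + (N s (cI i j) c x 5 : ℝ)) := by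
    unfold Q2
    push_cast
    rfl
  have hlin : 2 * (Pool.Agent.PGo.Q1 s i x : ℝ) = (Q0 s i x : ℝ) + (Q2 s i x : ℝ) := by
    exact_mod_cast lin_facts s hs i hi x hx
  have hH : HH s i t = (Q0 s i x : ℝ) * ((1 - v) ^ 2 / (2 * den s)) +
      (Pool.Agent.PGo.Q1 s i x : ℝ) * (v * (1 - v) / den s) +
      (Q2 s i x : ℝ) * (v ^ 2 / (2 * den s)) := by
    rw [e0, e1, e2]
    unfold HH
    simp only [sum_mul]
    rw [← sum_add_distrib, ← sum_add_distrib]
    refine sum_congr rfl fun c hc => ?_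
    rw [← sum_add_distrib, ← sum_add_distrib]
    refine sum_congr rfl fun j _ => ?_
    rw [hio c hc, hcell_eq]
    push_cast
    field_simp
  rw [hH]
  have h3 : (Pool.Agent.PGo.Q1 s i x : ℝ) = ((Q0 s i x : ℝ) + (Q2 s i x : ℝ)) / 2 := by
    linarith
  rw [h3]
  field_simp
  ring

theorem HH_out {s i : ℕ} {t : ℝ} (h : t < 0 ∨ 12 ≤ t) : HH s i t = 0 := by
  have hio : ∀ c p, io s p c t = 0 := by
    intro c p
    unfold io
    have : ∀ a, ker s p a t = 0 := fun a => ker_outside h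
    simp only [this]
    simp
  unfold HH
  simp only [hio]
  simp

private theorem koio_Q : ∀ s < 4, ∀ i < 6, ∀ x < 12, 0 ≤ Q0 s i x ∧ 0 ≤ Q2 s i x := by
  decide +kernel

theorem Q_nonneg {s i x : ℕ} (hs : s < 4) (hi : i < 6) (hx : x < 12) :
    0 ≤ Q0 s i x ∧ 0 ≤ Q2 s i x :=
  koio_Q s hs i hi x hx

private theorem koio_w : ∀ s < 4, ∀ i < 6,
    ∑ c ∈ range 3, ∑ j ∈ range 6, wI s c i j ≤ 2400 := by
  decide +kernel

theorem HH_bd {s i : ℕ} (hs : s < 4) (hi : i < 6) (t : ℝ) : 0 ≤ HH s i t ∧ HH s i t ≤ 30000 := by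
  have hw : ∀ c ∈ range 3, ∀ j ∈ range 6, (0 : ℝ) ≤ (wI s c i j : ℝ) := by
    intro c hc j hj
    have := (w_comm s hs c (mem_range.1 hc) i hi j (mem_range.1 hj)).2
    exact_mod_cast this.le
  have hp : ∀ j ∈ range 6, cI i j < 6 := fun j hj => (c_facts i hi j (mem_range.1 hj)).2
  constructor
  · refine sum_nonneg fun c hc => sum_nonneg fun j hj => mul_nonneg (hw c hc j hj) ?_
    exact (io_bd hs (hp j hj) (mem_range.1 hc) t).1
  · have h1 : HH s i t ≤ ∑ c ∈ range 3, ∑ j ∈ range 6, (wI s c i j : ℝ) * 12 := by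
      refine sum_le_sum fun c hc => sum_le_sum fun j hj => ?_
      exact mul_le_mul_of_nonneg_left (io_bd hs (hp j hj) (mem_range.1 hc) t).2 (hw c hc j hj)
    have h2 : (∑ c ∈ range 3, ∑ j ∈ range 6, (wI s c i j : ℝ)) ≤ 2400 := by
      exact_mod_cast koio_w s hs i hi
    simp only [← sum_mul] at h1
    linarith

end Pool.Agent.PGo.K
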