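import Pool.Agent.PGo.KoLa

/-!
# PGo-KoLc: sums against the laws

PLAN. `li_cell`: on `[n, 2n] ⊆ ZB n` (`Icc_ZB`), `li s n b y = h / Wb * wB s b (ci n y)`: group the labels by `ci n y < 6` (`Finset.sum_fiberwise_of_maps_to`):
the sum is `∑ i < 6, wB s b i / Wb * F i * (h #{ci = i})`, `card_ci`, `wB_pos`.
`la_li2`: `|∑∑ (la la' - li li') F| ≤ M ∑∑ (|la - li| la' + li |la' - li'|)` (both laws vanish outside `[n, 2n]`, `LaP.supp`, definition of `li`), then `LaP.lali`,
`LaP.sum`, `LaP.lisum`.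
-/

noncomputable section

namespace Pool.Agent.PGo.K

open Finset Pool.Agent.PGr PGrK

private theorem lc_W {s : ℕ} : (1 : ℝ) ≤ (WbI s : ℝ) := by
  unfold WbI
  split_ifs <;> norm_num

theorem li_cell : ∃ C : ℝ, 0 < C ∧ ∀ n : ℕ, 1 ≤ n → ∀ s < 4, ∀ b, ∀ (F : ℕ → ℝ) (M : ℝ),
    (∀ i < 6, |F i| ≤ M) →
    |∑ y ∈ ZB n, li s n b y * F (ci n y) - ∑ i ∈ range 6, (wB s b i : ℝ) / (WbI s : ℝ) * F i| ≤
      C * M * eh n := by
  refine ⟨420, by norm_num, ?_⟩
  intro n hn s hs b F M hF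
  have hM : 0 ≤ M := le_trans (abs_nonneg _) (hF 0 (by norm_num))
  have hh : 0 ≤ eh n := by unfold eh; positivity
  have hW := lc_W (s := s)
  have h1 : ∑ y ∈ ZB n, li s n b y * F (ci n y) =
      ∑ y ∈ Icc (n : ℤ) (2 * n), eh n / (WbI s : ℝ) * (wB s b (ci n y) : ℝ) * F (ci n y) := by
    symm
    rw [← Finset.sum_subset (Icc_ZB hn)]
    · refine Finset.sum_congr rfl fun y hy => ?_
      unfold li
      rw [if_pos hy]
    · intro y _ hy
      unfold li
      rw [if_neg hy, zero_mul]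
  have h2 : ∑ y ∈ Icc (n : ℤ) (2 * n), eh n / (WbI s : ℝ) * (wB s b (ci n y) : ℝ) * F (ci n y) =
      ∑ i ∈ range 6, (wB s b i : ℝ) / (WbI s : ℝ) * F i *
        (eh n * (((Icc (n : ℤ) (2 * n)).filter (fun y => ci n y = i)).card : ℝ)) := by
    rw [← Finset.sum_fiberwise_of_maps_to (t := range 6) (g := fun y => ci n y)
      (fun y _ => mem_range.2 (ci_lt n y))]
    refine Finset.sum_congr rfl fun i _ => ?_
    have h3 : ∀ y ∈ (Icc (n : ℤ) (2 * n)).filter (fun y => ci n y = i),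
        eh n / (WbI s : ℝ) * (wB s b (ci n y) : ℝ) * F (ci n y) =
          eh n / (WbI s : ℝ) * (wB s b i : ℝ) * F i := by
      intro y hy
      rw [(mem_filter.1 hy).2]
    rw [Finset.sum_congr rfl h3, Finset.sum_const, nsmul_eq_mul]
    ring
  rw [h1, h2, ← Finset.sum_sub_distrib]
  refine (Finset.abs_sum_le_sum_abs _ _).trans ?_
  have h4 : ∀ i ∈ range 6, |(wB s b i : ℝ) / (WbI s : ℝ) * F i *
      (eh n * (((Icc (n : ℤ) (2 * n)).filter (fun y => ci n y = i)).card : ℝ)) -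
      (wB s b i : ℝ) / (WbI s : ℝ) * F i| ≤ 7 * M * (10 * eh n) := by
    intro i hi
    rw [mem_range] at hi
    have e1 : (wB s b i : ℝ) / (WbI s : ℝ) * F i *
      (eh n * (((Icc (n : ℤ) (2 * n)).filter (fun y => ci n y = i)).card : ℝ)) -
      (wB s b i : ℝ) / (WbI s : ℝ) * F i = (wB s b i : ℝ) / (WbI s : ℝ) * F i *
      (eh n * (((Icc (n : ℤ) (2 * n)).filter (fun y => ci n y = i)).card : ℝ) - 1) := by ring
    rw [e1, abs_mul, abs_mul]
    obtain ⟨w1, w2⟩ := wB_pos s hs b i hi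
    have w1' : (1 : ℝ) ≤ (wB s b i : ℝ) := by exact_mod_cast w1
    have w2' : (wB s b i : ℝ) ≤ 7 := by exact_mod_cast w2
    have e2 : |(wB s b i : ℝ) / (WbI s : ℝ)| ≤ 7 := by
      rw [abs_of_nonneg (by positivity), div_le_iff₀ (by linarith)]
      nlinarith
    have e3 := hF i hi
    have e4 := card_ci hn hi
    have e5 := abs_nonneg (F i)
    have e6 := abs_nonneg ((wB s b i : ℝ) / (WbI s : ℝ))
    gcongr
  refine (Finset.sum_le_sum h4).trans (le_of_eq ?_)
  rw [Finset.sum_const, card_range, nsmul_eq_mul]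
  push_cast
  ring

private theorem lc_out {C : ℝ} {s n : ℕ} {b : Bool} {y : ℤ}
    (hy : y ∉ Icc (n : ℤ) (2 * n)) (h : LaP C s n b) : la s n b y = 0 ∧ li s n b y = 0 := by
  refine ⟨h.supp y hy, ?_⟩
  unfold li
  rw [if_neg hy]

theorem la_li2 : ∃ C : ℝ, 0 < C ∧ ∀ n : ℕ, 1 ≤ n → ∀ s < 4, ∀ b b', ∀ (F : ℤ → ℤ → ℝ) (M : ℝ),
    (∀ y ∈ Icc (n : ℤ) (2 * n), ∀ y' ∈ Icc (n : ℤ) (2 * n), |F y y'| ≤ M) →
    |∑ y ∈ ZB n, ∑ y' ∈ ZB n, la s n b y * la s n b' y' * F y y' -
      ∑ y ∈ ZB n, ∑ y' ∈ ZB n, li s n b y * li s n b' y' * F y y'| ≤ C * M * eh n := by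
  obtain ⟨C, hC, hla⟩ := la_props
  refine ⟨C * (1 + C), by positivity, ?_⟩
  intro n hn s hs b b' F M hF
  have hn' : (n : ℤ) ∈ Icc (n : ℤ) (2 * n) := by
    rw [mem_Icc]
    omega
  have hM : 0 ≤ M := le_trans (abs_nonneg _) (hF n hn' n hn')
  have hh : 0 ≤ eh n := by unfold eh; positivity
  have P := hla n hn s hs b
  have P' := hla n hn s hs b'
  have key : ∀ y y' : ℤ, |la s n b y * la s n b' y' * F y y' - li s n b y * li s n b' y' * F y y'| ≤
      M * (|la s n b y - li s n b y| * la s n b' y' + li s n b y * |la s n b' y' - li s n b' y'|) := by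
    intro y y'
    by_cases hy : y ∈ Icc (n : ℤ) (2 * n)
    · by_cases hy' : y' ∈ Icc (n : ℤ) (2 * n)
      · have e1 : la s n b y * la s n b' y' * F y y' - li s n b y * li s n b' y' * F y y' =
            F y y' * ((la s n b y - li s n b y) * la s n b' y' +
              li s n b y * (la s n b' y' - li s n b' y')) := by ring
        rw [e1, abs_mul]
        have e2 : |(la s n b y - li s n b y) * la s n b' y' +
              li s n b y * (la s n b' y' - li s n b' y')| ≤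
            |la s n b y - li s n b y| * la s n b' y' + li s n b y * |la s n b' y' - li s n b' y'| := by
          refine (abs_add_le _ _).trans ?_
          rw [abs_mul, abs_mul, abs_of_nonneg (P'.nonneg y'), abs_of_nonneg (P.linn y)]
        have e3 := hF y hy y' hy'
        have e4 := abs_nonneg (F y y')
        gcongr
      · rw [(lc_out hy' P').1, (lc_out hy' P').2]
        simp
    · rw [(lc_out hy P).1, (lc_out hy P).2]
      simp
  rw [← Finset.sum_sub_distrib]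
  have s1 : ∀ y ∈ ZB n, |∑ y' ∈ ZB n, la s n b y * la s n b' y' * F y y' -
      ∑ y' ∈ ZB n, li s n b y * li s n b' y' * F y y'| ≤
      ∑ y' ∈ ZB n, M * (|la s n b y - li s n b y| * la s n b' y' +
        li s n b y * |la s n b' y' - li s n b' y'|) := by
    intro y _
    rw [← Finset.sum_sub_distrib]
    exact (Finset.abs_sum_le_sum_abs _ _).trans (Finset.sum_le_sum fun y' _ => key y y')
  refine (Finset.abs_sum_le_sum_abs _ _).trans ((Finset.sum_le_sum s1).trans ?_)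
  have s2 : ∑ y ∈ ZB n, ∑ y' ∈ ZB n, M * (|la s n b y - li s n b y| * la s n b' y' +
        li s n b y * |la s n b' y' - li s n b' y'|) =
      M * ((∑ y ∈ ZB n, |la s n b y - li s n b y|) * (∑ y' ∈ ZB n, la s n b' y') +
        (∑ y ∈ ZB n, li s n b y) * (∑ y' ∈ ZB n, |la s n b' y' - li s n b' y'|)) := by
    rw [Finset.sum_mul_sum, Finset.sum_mul_sum, ← Finset.sum_add_distrib, Finset.mul_sum]
    refine Finset.sum_congr rfl fun y _ => ?_
    rw [← Finset.sum_add_distrib, Finset.mul_sum]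
  rw [s2, P'.sum, mul_one]
  have t1 := P.lali
  have t2 := P.lisum
  have t3 := P'.lali
  have t4 : 0 ≤ ∑ y ∈ ZB n, li s n b y := Finset.sum_nonneg fun y _ => P.linn y
  have t5 : 0 ≤ ∑ y' ∈ ZB n, |la s n b' y' - li s n b' y'| :=
    Finset.sum_nonneg fun y _ => abs_nonneg _
  calc M * ((∑ y ∈ ZB n, |la s n b y - li s n b y|) +
        (∑ y ∈ ZB n, li s n b y) * (∑ y' ∈ ZB n, |la s n b' y' - li s n b' y'|))
      ≤ M * (C * eh n + C * (C * eh n)) := by gcongr
    _ = C * (1 + C) * M * eh n := by ring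

end Pool.Agent.PGo.K
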