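import Pool.Agent.PGo.KoDsc

/-!
# PGo-KoMas: the normalised kernel

PLAN. `mass_bd`: `quad_kl` with `disc_ZB`, `kl s p a 0 0 1 univ t = ker s p a t` and `HI_vert` (`∫_0^12 ker s p a t dt = 6`).
Let `M = ∑ z ∈ ZB n, ker s p a (tm n z)`, so `|h M - 6| ≤ 9000 h`. For `n ≥ n0` (`9000 h ≤ 3`): `3 ≤ h M ≤ 9`.
`Kn = ker / M` on `ZB n`: `0 ≤ Kn ≤ 12 h / 3` (`ker_bd`), `∑ Kn = 1`, `|Kn - h/6 ker| = ker h |6 - h M| / (6 h M) ≤ C h^2` on `ZB n`; outside `ZB n`
both are zero: `x ∉ ZB n` means `tm n x ≤ 0 < a` (`ker_zero`) or `tm n x ≥ 12` (`ker_outside`). Lower bound: `ker_lo` (`tm n x < 12` for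
`x ∈ ZB n`). Support: `ker_zero`.
-/

noncomputable section

namespace Pool.Agent.PGo.K

open Finset Pool.Agent.PGr PGrK

theorem mass_bd {n s p : ℕ} (hn : 1 ≤ n) (hs : s < 4) (hp : p < 6) {a : ℝ} (h0 : 0 ≤ a)
    (h3 : a ≤ 3) : |eh n * ∑ z ∈ ZB n, ker s p a (tm n z) - 6| ≤ 9000 * eh n := by
  have hq := quad_kl (ZB n) (tm n) (al := 0) (be := 12) (by norm_num) (disc_ZB hn) hs hp a 0 0 1
    (J := Set.univ) Set.ordConnected_univ
  have hk : ∀ t, kl s p a 0 0 1 Set.univ t = ker s p a t := by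
    intro t
    unfold kl
    rw [Set.indicator_univ]
    congr 1 <;> ring
  simp only [hk] at hq
  have hv := (HI_vert hs hp h0 h3).integral
  rw [hv, one_mul] at hq
  linarith

/-- properties of the normalised kernel -/
structure KnP (C : ℝ) (s n p : ℕ) (a : ℝ) : Prop where
  nonneg : ∀ x, 0 ≤ Kn s n p a x
  le : ∀ x, Kn s n p a x ≤ C * eh n
  sum : ∑ x ∈ ZB n, Kn s n p a x = 1
  approx : ∀ x, |Kn s n p a x - eh n / 6 * ker s p a (tm n x)| ≤ C * eh n ^ 2
  low : ∀ x ∈ ZB n, a ≤ tm n x → eh n / C ≤ Kn s n p a x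
  supp : ∀ x, Kn s n p a x ≠ 0 → x ∈ ZB n ∧ a ≤ tm n x

theorem Kn_props : ∃ (C : ℝ) (n0 : ℕ), 0 < C ∧ 1 ≤ n0 ∧ ∀ n : ℕ, n0 ≤ n → ∀ s < 4, ∀ p < 6,
    ∀ a : ℝ, 0 < a → a ≤ 3 → KnP C s n p a := by
  refine ⟨6000, 18000, by norm_num, by norm_num, ?_⟩
  intro n hn s hs p hp a ha ha3
  have hn1 : 1 ≤ n := le_trans (by norm_num) hn
  obtain ⟨hh, hh6, hhn⟩ := eh_pos hn1
  have hm := mass_bd hn1 hs hp ha.le ha3
  set h := eh n with hhdef
  set M := ∑ z ∈ ZB n, ker s p a (tm n z) with hMdef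
  have hnR : (18000 : ℝ) ≤ n := by exact_mod_cast hn
  have hh3 : 9000 * h ≤ 3 := by nlinarith
  have hm1 := abs_le.1 hm
  have hM3 : 3 ≤ h * M := by linarith [hm1.1]
  have hM9 : h * M ≤ 9 := by linarith [hm1.2]
  have hMpos : 0 < M := by
    by_contra hcon
    push Not at hcon
    nlinarith
  have hout : ∀ x, x ∉ ZB n → ker s p a (tm n x) = 0 := by
    intro x hx
    have hx1 : 2 * x ≤ n ∨ 5 * (n : ℤ) ≤ 2 * x := by
      by_contra hcon
      push Not at hcon
      apply hx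
      unfold ZB
      rw [mem_filter, mem_Icc]
      omega
    rcases hx1 with hx1 | hx1
    · have h1 : (2 : ℝ) * x ≤ n := by exact_mod_cast hx1
      apply ker_zero hs hp
      unfold tm
      rw [← hhdef]
      nlinarith
    · have h1 : (5 : ℝ) * n ≤ 2 * x := by exact_mod_cast hx1
      apply ker_outside
      right
      unfold tm
      rw [← hhdef]
      nlinarith
  have hK : ∀ x ∈ ZB n, Kn s n p a x = ker s p a (tm n x) / M := by
    intro x hx
    unfold Kn
    rw [if_pos hx]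
  have hK0 : ∀ x, x ∉ ZB n → Kn s n p a x = 0 := by
    intro x hx
    unfold Kn
    rw [if_neg hx]
  constructor
  · intro x
    by_cases hx : x ∈ ZB n
    · rw [hK x hx]
      exact div_nonneg (ker_nonneg hs hp _ _) hMpos.le
    · rw [hK0 x hx]
  · intro x
    by_cases hx : x ∈ ZB n
    · rw [hK x hx, div_le_iff₀ hMpos]
      have h1 := (ker_bd hs hp a (tm n x)).2
      nlinarith
    · rw [hK0 x hx]
      positivity
  · rw [sum_congr rfl hK, ← sum_div]
    exact div_self hMpos.ne'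
  · intro x
    by_cases hx : x ∈ ZB n
    · rw [hK x hx]
      have h1 := ker_bd hs hp a (tm n x)
      set k := ker s p a (tm n x) with hk
      have h2 : k / M - h / 6 * k = k * (6 - h * M) / (6 * M) := by
        field_simp
      rw [h2, abs_div, abs_mul, abs_of_nonneg h1.1, abs_of_pos (by positivity : 0 < 6 * M),
        div_le_iff₀ (by positivity)]
      have h3 : |6 - h * M| ≤ 9000 * h := by
        rw [abs_sub_comm]
        exact hm
      calc k * |6 - h * M| ≤ 12 * (9000 * h) :=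
            mul_le_mul h1.2 h3 (abs_nonneg _) (by norm_num)
        _ ≤ 6000 * h ^ 2 * (6 * M) := by nlinarith
    · rw [hK0 x hx, hout x hx]
      simp
      positivity
  · intro x hx hax
    rw [hK x hx, le_div_iff₀ hMpos]
    have hx2 := (mem_filter.1 hx).2.2
    have h1 : (2 : ℝ) * x < 5 * n := by exact_mod_cast hx2
    have ht : tm n x < 12 := by
      unfold tm
      rw [← hhdef]
      nlinarith
    have h2 := ker_lo hs hp ha.le ha3 hax ht
    nlinarith
  · intro x hx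
    by_cases hx1 : x ∈ ZB n
    · refine ⟨hx1, ?_⟩
      by_contra hcon
      push Not at hcon
      apply hx
      rw [hK x hx1, ker_zero hs hp hcon, zero_div]
    · exact absurd (hK0 x hx1) hx

end Pool.Agent.PGo.K
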