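import Pool.Agent.PGo.KoMas
import Pool.Agent.PGo.KoLa
import Pool.Agent.PGo.KoDsv

/-!
# PGo-KoStA: the differences of an item at one vertex

PLAN. For a centre `c0` and `d ≥ 1`: `∑ x ∈ ZB n, Kn x * 1[|x - c0| = d] = Kn (c0 + d) + Kn (c0 - d)` (`Kn` vanishes outside `ZB n`). By `KnP.approx` each value
is within `C h^2` of `h/6 ker s p a (tm n _)`; `tm n (y ± d) = tm n y ± h d`; for `c0 = an n v`: `tm n (an - d) = am + 12 - h d`,
`tm n (an + d) = am + 12 + h d ≥ 12`, so `ker = 0` (`ker_outside`). Hence for fixed `y, y'` the sum over `x` is within `6 C h^2` of `h/6 R5`; multiply by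
`la y la' y' ≥ 0` and sum (`LaP.sum` = 1). `cla (grp _) (grp _) < 6` (`grp < 3`; `interval_cases`/`unfold`, `split_ifs`). `0 < am n v ≤ 3`: `am_mem`.
-/

noncomputable section

namespace Pool.Agent.PGo.K

open Finset Pool.Agent.PGr PGrK

theorem cla_lt (Y Y' : ℝ) : cla (grp Y) (grp Y') < 6 := by
  unfold cla grp
  split_ifs <;> omega

private theorem stA_Kn_zero {s n p : ℕ} {a : ℝ} {x : ℤ} (hx : x ∉ ZB n) : Kn s n p a x = 0 := by
  unfold Kn
  rw [if_neg hx]

private theorem stA_ind {s n p : ℕ} {a : ℝ} (c0 d : ℤ) (hd : 1 ≤ d) :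
    ∑ x ∈ ZB n, Kn s n p a x * (if |x - c0| = d then (1 : ℝ) else 0) =
      Kn s n p a (c0 + d) + Kn s n p a (c0 - d) := by
  have h1 : ∀ x ∈ ZB n, Kn s n p a x * (if |x - c0| = d then (1 : ℝ) else 0) =
      (if x = c0 + d then Kn s n p a x else 0) + (if x = c0 - d then Kn s n p a x else 0) := by
    intro x _
    have h2 : |x - c0| = d ↔ x = c0 + d ∨ x = c0 - d := by
      rw [abs_eq (by omega)]
      constructor
      · rintro (h | h)
        · left; omega
        · right; omega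
      · rintro (h | h)
        · left; omega
        · right; omega
    by_cases hA : x = c0 + d
    · have hB : ¬ x = c0 - d := by omega
      rw [if_pos (h2.2 (Or.inl hA)), if_pos hA, if_neg hB]
      ring
    · by_cases hB : x = c0 - d
      · rw [if_pos (h2.2 (Or.inr hB)), if_neg hA, if_pos hB]
        ring
      · have hC : ¬ |x - c0| = d := fun h => (h2.1 h).elim hA hB
        rw [if_neg hA, if_neg hB, if_neg hC]
        ring
  rw [sum_congr rfl h1, sum_add_distrib, sum_ite_eq', sum_ite_eq']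
  congr 1
  · split_ifs with h
    · rfl
    · rw [stA_Kn_zero h]
  · split_ifs with h
    · rfl
    · rw [stA_Kn_zero h]

private theorem stA_tm_add (n : ℕ) (y d : ℤ) : tm n (y + d) = tm n y + eh n * d := by
  unfold tm
  push_cast
  ring

private theorem stA_tm_sub (n : ℕ) (y d : ℤ) : tm n (y - d) = tm n y - eh n * d := by
  unfold tm
  push_cast
  ring

private theorem stA_tm_an {n : ℕ} (hn : 1 ≤ n) (v : ℕ) : tm n (an n v) = am n v + 12 := by
  unfold tm an am
  have hn0 : (n : ℝ) ≠ 0 := by positivity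
  have h6 : eh n * (n : ℝ) = 6 := by
    unfold eh
    field_simp
  simp only [Int.cast_sub, Int.cast_mul, Int.cast_natCast, Int.cast_ofNat]
  linear_combination 3 * h6

private theorem stA_inner {C : ℝ} {s n p : ℕ} {v : ℕ} (hn : 1 ≤ n)
    (hK : KnP C s n p (am n v)) (ha : 0 < am n v) (y y' d : ℤ) (hd : 1 ≤ d) :
    |∑ x ∈ ZB n, Kn s n p (am n v) x *
      ((if |x - an n v| = d then (1 : ℝ) else 0) + (if |x - y| = d then 1 else 0) +
      (if |x - y'| = d then 1 else 0)) -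
      eh n / 6 * R5 s p (am n v) (tm n y) (tm n y') (eh n * d)| ≤ 6 * C * eh n ^ 2 := by
  have h1 : ∑ x ∈ ZB n, Kn s n p (am n v) x *
      ((if |x - an n v| = d then (1 : ℝ) else 0) + (if |x - y| = d then 1 else 0) +
      (if |x - y'| = d then 1 else 0)) =
      (Kn s n p (am n v) (an n v + d) + Kn s n p (am n v) (an n v - d)) +
      (Kn s n p (am n v) (y + d) + Kn s n p (am n v) (y - d)) +
      (Kn s n p (am n v) (y' + d) + Kn s n p (am n v) (y' - d)) := by
    rw [← stA_ind (an n v) d hd, ← stA_ind y d hd, ← stA_ind y' d hd, ← sum_add_distrib,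
      ← sum_add_distrib]
    refine sum_congr rfl fun x _ => ?_
    ring
  rw [h1]
  have heh : 0 ≤ eh n := by
    unfold eh
    positivity
  have hd0 : (0 : ℝ) ≤ (d : ℝ) := by
    have : (0 : ℤ) ≤ d := by omega
    exact_mod_cast this
  have e1 := hK.approx (an n v + d)
  have e2 := hK.approx (an n v - d)
  have e3 := hK.approx (y + d)
  have e4 := hK.approx (y - d)
  have e5 := hK.approx (y' + d)
  have e6 := hK.approx (y' - d)
  rw [stA_tm_add, stA_tm_an hn, ker_outside (Or.inr (by nlinarith [mul_nonneg heh hd0]))] at e1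
  rw [stA_tm_sub, stA_tm_an hn] at e2
  rw [stA_tm_add] at e3 e5
  rw [stA_tm_sub] at e4 e6
  unfold R5
  rw [abs_le] at *
  constructor <;> linarith [e1.1, e1.2, e2.1, e2.2, e3.1, e3.2, e4.1, e4.2, e5.1, e5.2, e6.1, e6.2]

theorem StA : ∃ (C : ℝ) (n0 : ℕ), 0 < C ∧ 1 ≤ n0 ∧ ∀ n : ℕ, n0 ≤ n → ∀ s < 4, ∀ b b' : Bool,
    ∀ d : ℤ, 1 ≤ d → ∀ v ∈ vs n,
    |TT s n b b' d v - eh n / 6 * ∑ y ∈ ZB n, ∑ y' ∈ ZB n, la s n b y * la s n b' y' *
      R5 s (cla (grp ((y : ℝ) / n)) (grp ((y' : ℝ) / n))) (am n v) (tm n y) (tm n y')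
        (eh n * d)| ≤ C * eh n ^ 2 := by
  obtain ⟨C, n0, hC, hn0, hK⟩ := Kn_props
  obtain ⟨C', hC', hL⟩ := la_props
  refine ⟨6 * C, n0, by positivity, hn0, ?_⟩
  intro n hn s hs b b' d hd v hv
  have hn1 : 1 ≤ n := le_trans hn0 hn
  obtain ⟨ha0, ha3⟩ := am_mem hv
  have hLb := hL n hn1 s hs b
  have hLb' := hL n hn1 s hs b'
  have h1 : TT s n b b' d v - eh n / 6 * ∑ y ∈ ZB n, ∑ y' ∈ ZB n, la s n b y * la s n b' y' *
      R5 s (cla (grp ((y : ℝ) / n)) (grp ((y' : ℝ) / n))) (am n v) (tm n y) (tm n y')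
        (eh n * d) =
      ∑ y ∈ ZB n, ∑ y' ∈ ZB n, la s n b y * la s n b' y' *
        (∑ x ∈ ZB n, Kn s n (cla (grp ((y : ℝ) / n)) (grp ((y' : ℝ) / n))) (am n v) x *
          ((if |x - an n v| = d then (1 : ℝ) else 0) + (if |x - y| = d then 1 else 0) +
          (if |x - y'| = d then 1 else 0)) -
          eh n / 6 * R5 s (cla (grp ((y : ℝ) / n)) (grp ((y' : ℝ) / n))) (am n v) (tm n y)
            (tm n y') (eh n * d)) := by
    unfold TT
    rw [mul_sum, ← sum_sub_distrib]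
    refine sum_congr rfl fun y _ => ?_
    rw [mul_sum, ← sum_sub_distrib]
    refine sum_congr rfl fun y' _ => ?_
    rw [mul_sub, mul_sum]
    congr 1
    · refine sum_congr rfl fun x _ => ?_
      ring
    · ring
  rw [h1]
  have h2 : ∑ y ∈ ZB n, ∑ y' ∈ ZB n, la s n b y * la s n b' y' * (6 * C * eh n ^ 2) =
      6 * C * eh n ^ 2 := by
    have : ∀ y ∈ ZB n, ∑ y' ∈ ZB n, la s n b y * la s n b' y' * (6 * C * eh n ^ 2) =
        la s n b y * (6 * C * eh n ^ 2) := by
      intro y _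
      rw [← sum_mul, ← mul_sum, hLb'.sum]
      ring
    rw [sum_congr rfl this, ← sum_mul, hLb.sum]
    ring
  calc _ ≤ ∑ y ∈ ZB n, |∑ y' ∈ ZB n, la s n b y * la s n b' y' *
        (∑ x ∈ ZB n, Kn s n (cla (grp ((y : ℝ) / n)) (grp ((y' : ℝ) / n))) (am n v) x *
          ((if |x - an n v| = d then (1 : ℝ) else 0) + (if |x - y| = d then 1 else 0) +
          (if |x - y'| = d then 1 else 0)) -
          eh n / 6 * R5 s (cla (grp ((y : ℝ) / n)) (grp ((y' : ℝ) / n))) (am n v) (tm n y)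
            (tm n y') (eh n * d))| := abs_sum_le_sum_abs _ _
    _ ≤ ∑ y ∈ ZB n, ∑ y' ∈ ZB n, la s n b y * la s n b' y' * (6 * C * eh n ^ 2) := by
        refine sum_le_sum fun y _ => ?_
        refine (abs_sum_le_sum_abs _ _).trans ?_
        refine sum_le_sum fun y' _ => ?_
        have hnn : 0 ≤ la s n b y * la s n b' y' := mul_nonneg (hLb.nonneg y) (hLb'.nonneg y')
        rw [abs_mul, abs_of_nonneg hnn]
        refine mul_le_mul_of_nonneg_left ?_ hnn
        exact stA_inner hn1 (hK n hn s hs _ (cla_lt _ _) _ ha0 ha3) ha0 y y' d hd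
    _ = 6 * C * eh n ^ 2 := h2

end Pool.Agent.PGo.K
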