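import Pool.Agent.PGo.KoTab
import Pool.Agent.PGr.KInt
set_option autoImplicit false

/-!
PGo-K: basic properties of the kernel in mesh coordinates.
-/

open MeasureTheory intervalIntegral Set

namespace Pool.Agent.PGo.K

open PGrK (HI)

theorem N_facts (s : ℕ) (hs : s < 4) : ∀ p < 6, ∀ c < 3, ∀ x < 12, ∀ j < 6,
    (if (if j < 3 then c < x else c ≤ x) then
      den s ≤ 120 * N s p c x j ∧ N s p c x j ≤ 12 * den s else N s p c x j = 0) := by
  interval_cases s <;> decide +kernel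

theorem den_pos (s : ℕ) : 0 < den s := by
  unfold den
  split <;> norm_num

theorem den_posR (s : ℕ) : (0 : ℝ) < (den s : ℝ) := by exact_mod_cast den_pos s

theorem T_lo {s p c x j : ℕ} (hs : s < 4) (hp : p < 6) (hc : c < 3) (hx : x < 12) (hj : j < 6)
    (h : if j < 3 then c < x else c ≤ x) : 1 / 120 ≤ T s p c x j ∧ T s p c x j ≤ 12 := by
  have := N_facts s hs p hp c hc x hx j hj
  rw [if_pos h] at this
  obtain ⟨h1, h2⟩ := this
  have h1' : (den s : ℝ) ≤ 120 * (N s p c x j : ℝ) := by exact_mod_cast h1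
  have h2' : (N s p c x j : ℝ) ≤ 12 * (den s : ℝ) := by exact_mod_cast h2
  have hd := den_posR s
  unfold T
  constructor
  · rw [div_le_div_iff₀ (by norm_num) hd]; linarith
  · rw [div_le_iff₀ hd]; linarith

theorem T_zero {s p c x j : ℕ} (hs : s < 4) (hp : p < 6) (hc : c < 3) (hx : x < 12) (hj : j < 6)
    (h : ¬ (if j < 3 then c < x else c ≤ x)) : T s p c x j = 0 := by
  have := N_facts s hs p hp c hc x hx j hj
  rw [if_neg h] at this
  simp [T, this]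

theorem T_nonneg {s p c x j : ℕ} (hs : s < 4) (hp : p < 6) (hc : c < 3) (hx : x < 12) (hj : j < 6) :
    0 ≤ T s p c x j ∧ T s p c x j ≤ 12 := by
  by_cases h : (if j < 3 then c < x else c ≤ x)
  · have := T_lo hs hp hc hx hj h
    exact ⟨by linarith [this.1], this.2⟩
  · rw [T_zero hs hp hc hx hj h]; norm_num

theorem bary_le {t0 t1 t2 w0 w1 w2 lo hi : ℝ} (h0 : 0 ≤ w0) (h1 : 0 ≤ w1) (h2 : 0 ≤ w2)
    (hw : w0 + w1 + w2 = 1) (l0 : lo ≤ t0) (l1 : lo ≤ t1) (l2 : lo ≤ t2)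
    (u0 : t0 ≤ hi) (u1 : t1 ≤ hi) (u2 : t2 ≤ hi) :
    lo ≤ t0 * w0 + t1 * w1 + t2 * w2 ∧ t0 * w0 + t1 * w1 + t2 * w2 ≤ hi := by
  have e1 : lo * (w0 + w1 + w2) = lo := by rw [hw, mul_one]
  have e2 : hi * (w0 + w1 + w2) = hi := by rw [hw, mul_one]
  constructor
  · nlinarith [mul_nonneg h0 (sub_nonneg.2 l0), mul_nonneg h1 (sub_nonneg.2 l1),
      mul_nonneg h2 (sub_nonneg.2 l2)]
  · nlinarith [mul_nonneg h0 (sub_nonneg.2 u0), mul_nonneg h1 (sub_nonneg.2 u1),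
      mul_nonneg h2 (sub_nonneg.2 u2)]

theorem Lw_bd {s p c x : ℕ} (hs : s < 4) (hp : p < 6) (hc : c < 3) (hx : x < 12) {u v : ℝ} (hu : u ≤ 1)
    (hv : 0 ≤ v) (huv : v ≤ u) : 0 ≤ Lw s p c x u v ∧ Lw s p c x u v ≤ 12 := by
  unfold Lw
  exact bary_le (by linarith) (by linarith) hv (by ring)
    (T_nonneg hs hp hc hx (by norm_num)).1 (T_nonneg hs hp hc hx (by norm_num)).1
    (T_nonneg hs hp hc hx (by norm_num)).1 (T_nonneg hs hp hc hx (by norm_num)).2
    (T_nonneg hs hp hc hx (by norm_num)).2 (T_nonneg hs hp hc hx (by norm_num)).2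

theorem Up_bd {s p c x : ℕ} (hs : s < 4) (hp : p < 6) (hc : c < 3) (hx : x < 12) {u v : ℝ} (hu : 0 ≤ u)
    (hv : v ≤ 1) (huv : u ≤ v) : 0 ≤ Up s p c x u v ∧ Up s p c x u v ≤ 12 := by
  unfold Up
  exact bary_le (by linarith) (by linarith) hu (by ring)
    (T_nonneg hs hp hc hx (by norm_num)).1 (T_nonneg hs hp hc hx (by norm_num)).1
    (T_nonneg hs hp hc hx (by norm_num)).1 (T_nonneg hs hp hc hx (by norm_num)).2
    (T_nonneg hs hp hc hx (by norm_num)).2 (T_nonneg hs hp hc hx (by norm_num)).2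

theorem Lw_lo {s p c x : ℕ} (hs : s < 4) (hp : p < 6) (hc : c < 3) (hx : x < 12) (hcx : c < x) {u v : ℝ}
    (hu : u ≤ 1) (hv : 0 ≤ v) (huv : v ≤ u) : 1 / 120 ≤ Lw s p c x u v := by
  unfold Lw
  refine (bary_le (lo := 1 / 120) (hi := 12) (w0 := 1 - u) (w1 := u - v) (w2 := v)
    (by linarith) (by linarith) hv (by ring) ?_ ?_ ?_ ?_ ?_ ?_).1
  · exact (T_lo hs hp hc hx (by norm_num) (by simpa using hcx)).1
  · exact (T_lo hs hp hc hx (by norm_num) (by simpa using hcx)).1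
  · exact (T_lo hs hp hc hx (by norm_num) (by simpa using hcx)).1
  · exact (T_lo hs hp hc hx (by norm_num) (by simpa using hcx)).2
  · exact (T_lo hs hp hc hx (by norm_num) (by simpa using hcx)).2
  · exact (T_lo hs hp hc hx (by norm_num) (by simpa using hcx)).2

theorem Up_lo {s p c x : ℕ} (hs : s < 4) (hp : p < 6) (hc : c < 3) (hx : x < 12) (hcx : c ≤ x) {u v : ℝ}
    (hu : 0 ≤ u) (hv : v ≤ 1) (huv : u ≤ v) : 1 / 120 ≤ Up s p c x u v := by
  unfold Up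
  refine (bary_le (lo := 1 / 120) (hi := 12) (w0 := 1 - v) (w1 := v - u) (w2 := u)
    (by linarith) (by linarith) hu (by ring) ?_ ?_ ?_ ?_ ?_ ?_).1
  · exact (T_lo hs hp hc hx (by norm_num) (by simpa using hcx)).1
  · exact (T_lo hs hp hc hx (by norm_num) (by simpa using hcx)).1
  · exact (T_lo hs hp hc hx (by norm_num) (by simpa using hcx)).1
  · exact (T_lo hs hp hc hx (by norm_num) (by simpa using hcx)).2
  · exact (T_lo hs hp hc hx (by norm_num) (by simpa using hcx)).2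
  · exact (T_lo hs hp hc hx (by norm_num) (by simpa using hcx)).2

theorem Lw_zero {s p c x : ℕ} (hs : s < 4) (hp : p < 6) (hc : c < 3) (hx : x < 12) (hcx : ¬ c < x) (u v : ℝ) :
    Lw s p c x u v = 0 := by
  unfold Lw
  rw [T_zero hs hp hc hx (by norm_num : (0:ℕ) < 6) (by simpa using hcx),
    T_zero hs hp hc hx (by norm_num : (1:ℕ) < 6) (by simpa using hcx),
    T_zero hs hp hc hx (by norm_num : (2:ℕ) < 6) (by simpa using hcx)]
  ring

theorem Up_zero {s p c x : ℕ} (hs : s < 4) (hp : p < 6) (hc : c < 3) (hx : x < 12) (hcx : ¬ c ≤ x) (u v : ℝ) :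
    Up s p c x u v = 0 := by
  unfold Up
  rw [T_zero hs hp hc hx (by norm_num : (3:ℕ) < 6) (by simpa using hcx),
    T_zero hs hp hc hx (by norm_num : (4:ℕ) < 6) (by simpa using hcx),
    T_zero hs hp hc hx (by norm_num : (5:ℕ) < 6) (by simpa using hcx)]
  ring

theorem cellv_bd {s p c x : ℕ} (hs : s < 4) (hp : p < 6) (hc : c < 3) (hx : x < 12) {u v : ℝ} (hu0 : 0 ≤ u)
    (hu : u ≤ 1) (hv0 : 0 ≤ v) (hv : v ≤ 1) : 0 ≤ cellv s p c x u v ∧ cellv s p c x u v ≤ 12 := by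
  unfold cellv
  split_ifs with h
  · exact Lw_bd hs hp hc hx hu hv0 h.le
  · exact Up_bd hs hp hc hx hu0 hv (not_lt.1 h)

theorem col_lt (a : ℝ) : col a < 3 := by
  unfold col; split_ifs <;> norm_num

theorem col_bd {a : ℝ} (h0 : 0 ≤ a) (h2 : a ≤ 3) :
    0 ≤ a - (col a : ℝ) ∧ a - (col a : ℝ) ≤ 1 := by
  unfold col
  split_ifs with h h'
  · push_cast; constructor <;> linarith
  · push_cast; constructor <;> linarith [not_lt.1 h]
  · push_cast; constructor <;> linarith [not_lt.1 h']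

theorem floor_bd {t : ℝ} (h0 : 0 ≤ t) :
    0 ≤ t - (⌊t⌋₊ : ℝ) ∧ t - (⌊t⌋₊ : ℝ) < 1 := by
  constructor
  · linarith [Nat.floor_le h0]
  · linarith [Nat.lt_floor_add_one t]

theorem floor_lt12 {t : ℝ} (h : t < 12) : ⌊t⌋₊ < 12 := by
  apply (Nat.floor_lt' (by norm_num)).2
  exact_mod_cast h

theorem ker_bd {s p : ℕ} (hs : s < 4) (hp : p < 6) (a t : ℝ) : 0 ≤ ker s p a t ∧ ker s p a t ≤ 12 := by
  unfold ker
  split_ifs with h
  · obtain ⟨h1, h2, h3, h4⟩ := h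
    exact cellv_bd hs hp (col_lt a) (floor_lt12 h4) (col_bd h1 h2).1 (col_bd h1 h2).2
      (floor_bd h3).1 (floor_bd h3).2.le
  · norm_num

theorem ker_nonneg {s p : ℕ} (hs : s < 4) (hp : p < 6) (a t : ℝ) : 0 ≤ ker s p a t := (ker_bd hs hp a t).1

/-- the kernel is at least `1/50` where `A - X ≤ 2` (mesh coordinates: `a ≤ t`). -/
theorem ker_lo {s p : ℕ} (hs : s < 4) (hp : p < 6) {a t : ℝ} (h0 : 0 ≤ a) (h2 : a ≤ 3) (hat : a ≤ t)
    (ht : t < 12) : 1 / 120 ≤ ker s p a t := by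
  have ht0 : 0 ≤ t := le_trans h0 hat
  unfold ker
  rw [if_pos ⟨h0, h2, ht0, ht⟩]
  have hc := col_bd h0 h2
  have hf := floor_bd ht0
  unfold cellv
  split_ifs with h
  · refine Lw_lo hs hp (col_lt a) (floor_lt12 ht) ?_ hc.2 hf.1 h.le
    by_contra hcon
    push Not at hcon
    have : (⌊t⌋₊ : ℝ) ≤ (col a : ℝ) := by exact_mod_cast hcon
    linarith
  · refine Up_lo hs hp (col_lt a) (floor_lt12 ht) ?_ hc.1 hf.2.le (not_lt.1 h)
    by_contra hcon
    push Not at hcon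
    have : (⌊t⌋₊ : ℝ) + 1 ≤ (col a : ℝ) := by exact_mod_cast hcon
    linarith

/-- the kernel vanishes where `A - X > 2`. -/
theorem ker_zero {s p : ℕ} (hs : s < 4) (hp : p < 6) {a t : ℝ} (hat : t < a) : ker s p a t = 0 := by
  unfold ker
  split_ifs with h
  · obtain ⟨h0, h2, ht0, ht⟩ := h
    have hc := col_bd h0 h2
    have hf := floor_bd ht0
    unfold cellv
    split_ifs with h
    · by_cases hcx : col a < ⌊t⌋₊
      · exfalso
        have : (col a : ℝ) + 1 ≤ (⌊t⌋₊ : ℝ) := by exact_mod_cast hcx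
        linarith
      · exact Lw_zero hs hp (col_lt a) (floor_lt12 ht) hcx _ _
    · by_cases hcx : col a ≤ ⌊t⌋₊
      · exfalso
        have : (col a : ℝ) ≤ (⌊t⌋₊ : ℝ) := by exact_mod_cast hcx
        linarith [not_lt.1 h]
      · exact Up_zero hs hp (col_lt a) (floor_lt12 ht) hcx _ _
  · rfl

theorem ker_outside {s p : ℕ} {a t : ℝ} (h : t < 0 ∨ 12 ≤ t) : ker s p a t = 0 := by
  unfold ker
  rw [if_neg]
  rintro ⟨_, _, h3, h4⟩
  rcases h with h | h <;> linarith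

theorem ker_outside_a {s p : ℕ} {a t : ℝ} (h : a < 0 ∨ 3 < a) : ker s p a t = 0 := by
  unfold ker
  rw [if_neg]
  rintro ⟨h1, h2, _, _⟩
  rcases h with h | h <;> linarith

theorem col_of {c : ℕ} (hc : c < 3) {a : ℝ} (ha : a ∈ Ioo (c : ℝ) ((c : ℝ) + 1)) : col a = c := by
  obtain ⟨h1, h2⟩ := ha
  unfold col
  interval_cases c
  · push_cast at h1 h2
    rw [if_pos (by linarith)]
  · push_cast at h1 h2
    rw [if_neg (by linarith), if_pos (by linarith)]
  · push_cast at h1 h2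
    rw [if_neg (by linarith), if_neg (by linarith)]

theorem floor_of {x : ℕ} {t : ℝ} (h1 : (x : ℝ) ≤ t) (h2 : t < (x : ℝ) + 1) : ⌊t⌋₊ = x := by
  rw [Nat.floor_eq_iff (le_trans (Nat.cast_nonneg x) h1)]
  exact ⟨h1, h2⟩

theorem ker_cell {s p x : ℕ} (hx : x < 12) {a t : ℝ} (ha0 : 0 ≤ a) (ha2 : a ≤ 3)
    (ht : (x : ℝ) ≤ t) (ht' : t < (x : ℝ) + 1) :
    ker s p a t = cellv s p (col a) x (a - (col a : ℝ)) (t - (x : ℝ)) := by
  have h8 : (x : ℝ) + 1 ≤ 12 := by exact_mod_cast hx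
  unfold ker
  rw [if_pos ⟨ha0, ha2, le_trans (Nat.cast_nonneg x) ht, by linarith⟩, floor_of ht ht']

theorem ker_cell' {s p c x : ℕ} (hc : c < 3) (hx : x < 12) {a t : ℝ}
    (ha : a ∈ Ioo (c : ℝ) ((c : ℝ) + 1)) (ht : (x : ℝ) ≤ t) (ht' : t < (x : ℝ) + 1) :
    ker s p a t = cellv s p c x (a - (c : ℝ)) (t - (x : ℝ)) := by
  have hc2 : (c : ℝ) + 1 ≤ 3 := by exact_mod_cast hc
  rw [ker_cell hx (le_trans (Nat.cast_nonneg c) ha.1.le) (by linarith [ha.2]) ht ht',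
    col_of hc ha]

end Pool.Agent.PGo.K
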