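import Pool.Agent.PGo.KoDsv
import Pool.Agent.PGo.KoBase

/-!
# PGo-KoV: quadrature over the anchors

`quad_kl` (KoLine) with `disc_Vc`, `J = univ`: `kl s p 0 1 X 0 univ a = ker s p a X`,
`kl s p 0 1 (12 - τ) 1 univ a = ker s p a (a + 12 - τ)`; constant `9000`; `quad_R5` has five terms.
-/

noncomputable section

namespace Pool.Agent.PGo.K

open Finset Pool.Agent.PGr PGrK

private theorem kl_io (s p : ℕ) (X a : ℝ) : kl s p 0 1 X 0 Set.univ a = ker s p a X := by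
  unfold kl
  rw [Set.indicator_univ]
  ring_nf

private theorem kl_dg (s p : ℕ) (τ a : ℝ) :
    kl s p 0 1 (12 - τ) 1 Set.univ a = ker s p a (a + 12 - τ) := by
  unfold kl
  rw [Set.indicator_univ]
  congr 1
  · ring
  · ring

private theorem q_io {n : ℕ} (hn : 1 ≤ n) {s : ℕ} (hs : s < 4) {p : ℕ} (hp : p < 6) {c : ℕ}
    (hc : c < 3) {e : ℕ} (he : e < 2) (X : ℝ) :
    |eh n * ∑ v ∈ Vc n c e, ker s p (am n v) X - io s p c X| ≤ 9000 * eh n := by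
  have h := quad_kl (Vc n c e) (am n) (by linarith : (c : ℝ) ≤ (c : ℝ) + 1) (disc_Vc hn hc he)
    hs hp 0 1 X 0 Set.ordConnected_univ
  simp only [kl_io, one_mul] at h
  unfold io
  linarith

private theorem q_dg {n : ℕ} (hn : 1 ≤ n) {s : ℕ} (hs : s < 4) {p : ℕ} (hp : p < 6) {c : ℕ}
    (hc : c < 3) {e : ℕ} (he : e < 2) (τ : ℝ) :
    |eh n * ∑ v ∈ Vc n c e, ker s p (am n v) (am n v + 12 - τ) - dg s p c τ| ≤ 9000 * eh n := by
  have h := quad_kl (Vc n c e) (am n) (by linarith : (c : ℝ) ≤ (c : ℝ) + 1) (disc_Vc hn hc he)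
    hs hp 0 1 (12 - τ) 1 Set.ordConnected_univ
  simp only [kl_dg, one_mul] at h
  unfold dg
  linarith

theorem quad_io : ∃ C : ℝ, 0 < C ∧ ∀ n : ℕ, 1 ≤ n → ∀ s < 4, ∀ p < 6, ∀ c < 3, ∀ e < 2,
    ∀ X : ℝ, |eh n * ∑ v ∈ Vc n c e, ker s p (am n v) X - io s p c X| ≤ C * eh n :=
  ⟨9000, by norm_num, fun _ hn _ hs _ hp _ hc _ he X => q_io hn hs hp hc he X⟩

theorem quad_R5 : ∃ C : ℝ, 0 < C ∧ ∀ n : ℕ, 1 ≤ n → ∀ s < 4, ∀ p < 6, ∀ c < 3, ∀ e < 2,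
    ∀ t t' τ : ℝ, |eh n * ∑ v ∈ Vc n c e, R5 s p (am n v) t t' τ - I5 s p c t t' τ| ≤
      C * eh n := by
  refine ⟨45000, by norm_num, fun n hn s hs p hp c hc e he t t' τ => ?_⟩
  have h0 := q_dg hn hs hp hc he τ
  have h1 := q_io hn hs hp hc he (t + τ)
  have h2 := q_io hn hs hp hc he (t - τ)
  have h3 := q_io hn hs hp hc he (t' + τ)
  have h4 := q_io hn hs hp hc he (t' - τ)
  unfold R5 I5
  simp only [Finset.sum_add_distrib, mul_add]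
  rw [abs_le] at h0 h1 h2 h3 h4 ⊢
  constructor <;> linarith [h0.1, h0.2, h1.1, h1.2, h2.1, h2.2, h3.1, h3.2, h4.1, h4.2]

end Pool.Agent.PGo.K
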