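import Pool.Agent.PGo.KoRed
import Pool.Agent.PGo.KoMas
import Pool.Agent.PGo.KoLc
import Pool.Agent.PGo.KoIo
import Pool.Agent.PGo.KoV
import Pool.Agent.PGo.KoStA

/-!
# PGo-KoLk: the labels of the items

PLAN. (model: Pool/Agent/PGo/KoSk.lean, the same steps.) `t = tm n z`; for `v ∈ Vc n c 1` (odd `v`): `rf n v z = z`, for `v ∈ Vc n c 0`: `rf n v z = 3 n - z`,
`tm n (3 n - z) = 12 - t`.
`Lk_red`, `vs_split`; `KnP.approx`: `Kn ≤ h / 6 ker s p (am n v) (tm n (rf n v z)) + C h^2` (`cla_lt` in KoStA, `am_mem`; `LaP.sum`); `la_li2` with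
`F y y' = ker s (cla …) (am n v) (tm n (rf n v z))` (`|F| ≤ 12`, `ker_bd`), `Ptn`; on the support `cla (grp _) (grp _) = cI (ci n y) (ci n y')` (`grp_ci`; `cla = claI`, `rfl`);
exchange the sums and use `quad_io`: `h ∑ v ∈ Vc n c e, ker s p (am n v) X = io s p c X + O(h)`; then `li_cell` twice, `wB_wI`, symmetry of `cI` (`c_facts`; exchange `i, j` and
average): `1/6 ∑ c, ∑ i j, wI s c i j / Wt * io s (cI i j) c X = 1 / (6 Wt) ∑ i, HH s i X` with `X = t` (`e = 1`), `X = 12 - t` (`e = 0`).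
-/

noncomputable section

namespace Pool.Agent.PGo.K

open Finset Pool.Agent.PGr PGrK

private theorem dsum_le {ι κ : Type*} {S : Finset ι} {T : Finset κ} {f : ι → ℝ} {g : κ → ℝ}
    {A B E : ℝ} {D : ι → κ → ℝ} (hf : ∀ i, 0 ≤ f i) (hg : ∀ j, 0 ≤ g j)
    (hA : ∑ i ∈ S, f i ≤ A) (hB : ∑ j ∈ T, g j ≤ B) (hE : 0 ≤ E)
    (hD : ∀ i ∈ S, ∀ j ∈ T, f i ≠ 0 → g j ≠ 0 → |D i j| ≤ E) :
    |∑ i ∈ S, ∑ j ∈ T, f i * g j * D i j| ≤ A * B * E := by
  have hA0 : 0 ≤ A := (Finset.sum_nonneg fun i _ => hf i).trans hA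
  have h1 : ∀ i ∈ S, |∑ j ∈ T, f i * g j * D i j| ≤ f i * (B * E) := by
    intro i hi
    refine (Finset.abs_sum_le_sum_abs _ _).trans ?_
    have h2 : ∀ j ∈ T, |f i * g j * D i j| ≤ f i * (g j * E) := by
      intro j hj
      by_cases hfi : f i = 0
      · simp [hfi]
      by_cases hgj : g j = 0
      · simp [hgj]
      rw [abs_mul, abs_of_nonneg (mul_nonneg (hf i) (hg j)), mul_assoc]
      exact mul_le_mul_of_nonneg_left (mul_le_mul_of_nonneg_left (hD i hi j hj hfi hgj) (hg j))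
        (hf i)
    refine (Finset.sum_le_sum h2).trans ?_
    rw [← Finset.mul_sum, ← Finset.sum_mul]
    exact mul_le_mul_of_nonneg_left (mul_le_mul_of_nonneg_right hB hE) (hf i)
  have hB0 : 0 ≤ B := (Finset.sum_nonneg fun i _ => hg i).trans hB
  refine (Finset.abs_sum_le_sum_abs _ _).trans ((Finset.sum_le_sum h1).trans ?_)
  rw [← Finset.sum_mul, mul_assoc]
  exact mul_le_mul_of_nonneg_right hA (mul_nonneg hB0 hE)

private theorem WbI_pos (s : ℕ) : (0 : ℝ) < (WbI s : ℝ) := by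
  unfold WbI
  split_ifs <;> norm_num

private theorem WtI_pos (s : ℕ) : (0 : ℝ) < (WtI s : ℝ) := by
  unfold WtI
  split_ifs <;> norm_num

private theorem wsum_one {s : ℕ} (hs : s < 4) (b : Bool) :
    ∑ i ∈ range 6, (wB s b i : ℝ) / (WbI s : ℝ) = 1 := by
  rw [← Finset.sum_div, div_eq_one_iff_eq (WbI_pos s).ne']
  exact_mod_cast wB_sum s hs b

private theorem wq_nonneg {s : ℕ} (hs : s < 4) (b : Bool) {i : ℕ} (hi : i < 6) :
    0 ≤ (wB s b i : ℝ) / (WbI s : ℝ) := by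
  have h1 : (1 : ℤ) ≤ wB s b i := (wB_pos s hs b i hi).1
  have h2 : (1 : ℝ) ≤ (wB s b i : ℝ) := by exact_mod_cast h1
  exact div_nonneg (by linarith) (WbI_pos s).le

private theorem wsum_le {s : ℕ} (hs : s < 4) (b : Bool) (F : ℕ → ℝ) {M : ℝ}
    (hF : ∀ i < 6, |F i| ≤ M) : |∑ i ∈ range 6, (wB s b i : ℝ) / (WbI s : ℝ) * F i| ≤ M := by
  refine (Finset.abs_sum_le_sum_abs _ _).trans ?_
  have h1 : ∀ i ∈ range 6, |(wB s b i : ℝ) / (WbI s : ℝ) * F i| ≤
      (wB s b i : ℝ) / (WbI s : ℝ) * M := by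
    intro i hi
    have hi' := Finset.mem_range.1 hi
    rw [abs_mul, abs_of_nonneg (wq_nonneg hs b hi')]
    exact mul_le_mul_of_nonneg_left (hF i hi') (wq_nonneg hs b hi')
  refine (Finset.sum_le_sum h1).trans (le_of_eq ?_)
  rw [← Finset.sum_mul, wsum_one hs b, one_mul]

private theorem lili : ∃ C : ℝ, 0 < C ∧ ∀ n : ℕ, 1 ≤ n → ∀ s < 4, ∀ b b' : Bool, ∀ F : ℕ → ℕ → ℝ,
    (∀ i < 6, ∀ j < 6, |F i j| ≤ 12) →
    |∑ y ∈ ZB n, ∑ y' ∈ ZB n, li s n b y * li s n b' y' * F (ci n y) (ci n y') -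
      ∑ i ∈ range 6, ∑ j ∈ range 6, (wB s b i : ℝ) / (WbI s : ℝ) *
        ((wB s b' j : ℝ) / (WbI s : ℝ)) * F i j| ≤ C * eh n := by
  obtain ⟨C5, hC5, H5⟩ := li_cell
  obtain ⟨C4, hC4, H4⟩ := la_props
  refine ⟨(C4 + 1) * (C5 * 12), by positivity, ?_⟩
  intro n hn s hs b b' F hF
  obtain ⟨he0, -, -⟩ := eh_pos hn
  set G : ℕ → ℝ := fun i => ∑ j ∈ range 6, (wB s b' j : ℝ) / (WbI s : ℝ) * F i j with hG
  have hL := H4 n hn s hs b
  have eA : |∑ y ∈ ZB n, ∑ y' ∈ ZB n, li s n b y * li s n b' y' * F (ci n y) (ci n y') -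
      ∑ y ∈ ZB n, li s n b y * G (ci n y)| ≤ C4 * (C5 * 12 * eh n) := by
    rw [← Finset.sum_sub_distrib]
    refine (Finset.abs_sum_le_sum_abs _ _).trans ?_
    have h1 : ∀ y ∈ ZB n, |∑ y' ∈ ZB n, li s n b y * li s n b' y' * F (ci n y) (ci n y') -
        li s n b y * G (ci n y)| ≤ li s n b y * (C5 * 12 * eh n) := by
      intro y _
      have e1 : ∑ y' ∈ ZB n, li s n b y * li s n b' y' * F (ci n y) (ci n y') =
          li s n b y * ∑ y' ∈ ZB n, li s n b' y' * F (ci n y) (ci n y') := by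
        rw [Finset.mul_sum]
        exact Finset.sum_congr rfl fun y' _ => by ring
      rw [e1, ← mul_sub, abs_mul, abs_of_nonneg (hL.linn y)]
      exact mul_le_mul_of_nonneg_left (H5 n hn s hs b' (F (ci n y)) 12
        (fun j hj => hF _ (ci_lt n y) j hj)) (hL.linn y)
    refine (Finset.sum_le_sum h1).trans ?_
    rw [← Finset.sum_mul]
    exact mul_le_mul_of_nonneg_right hL.lisum (by positivity)
  have eB := H5 n hn s hs b G 12 (fun i hi => wsum_le hs b' (F i) (fun j hj => hF i hi j hj))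
  have eC : ∑ i ∈ range 6, (wB s b i : ℝ) / (WbI s : ℝ) * G i =
      ∑ i ∈ range 6, ∑ j ∈ range 6, (wB s b i : ℝ) / (WbI s : ℝ) *
        ((wB s b' j : ℝ) / (WbI s : ℝ)) * F i j := by
    refine Finset.sum_congr rfl fun i _ => ?_
    rw [hG, Finset.mul_sum]
    exact Finset.sum_congr rfl fun j _ => by ring
  rw [eC] at eB
  rw [abs_le] at eA eB ⊢
  constructor <;> nlinarith [eA.1, eA.2, eB.1, eB.2]

private theorem wB_sym {s c : ℕ} (hs : s < 4) (hc : c < 3) (F : ℕ → ℕ → ℝ)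
    (hF : ∀ i < 6, ∀ j < 6, F i j = F j i) :
    ∑ i ∈ range 6, ∑ j ∈ range 6, (wB s (be1 s c) i : ℝ) / (WbI s : ℝ) *
        ((wB s (be2 s c) j : ℝ) / (WbI s : ℝ)) * F i j =
      1 / (WtI s : ℝ) * ∑ i ∈ range 6, ∑ j ∈ range 6, (wI s c i j : ℝ) * F i j := by
  have e1 : ∑ i ∈ range 6, ∑ j ∈ range 6, (wB s (be1 s c) i : ℝ) / (WbI s : ℝ) *
        ((wB s (be2 s c) j : ℝ) / (WbI s : ℝ)) * F i j =
      ∑ i ∈ range 6, ∑ j ∈ range 6, (wB s (be2 s c) i : ℝ) / (WbI s : ℝ) *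
        ((wB s (be1 s c) j : ℝ) / (WbI s : ℝ)) * F i j := by
    rw [Finset.sum_comm]
    refine Finset.sum_congr rfl fun i hi => Finset.sum_congr rfl fun j hj => ?_
    rw [hF j (Finset.mem_range.1 hj) i (Finset.mem_range.1 hi)]
    ring
  have e2 : (∑ i ∈ range 6, ∑ j ∈ range 6, (wB s (be1 s c) i : ℝ) / (WbI s : ℝ) *
        ((wB s (be2 s c) j : ℝ) / (WbI s : ℝ)) * F i j) +
      ∑ i ∈ range 6, ∑ j ∈ range 6, (wB s (be2 s c) i : ℝ) / (WbI s : ℝ) *
        ((wB s (be1 s c) j : ℝ) / (WbI s : ℝ)) * F i j =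
      2 * (1 / (WtI s : ℝ) * ∑ i ∈ range 6, ∑ j ∈ range 6, (wI s c i j : ℝ) * F i j) := by
    rw [← Finset.sum_add_distrib, Finset.mul_sum, Finset.mul_sum]
    refine Finset.sum_congr rfl fun i hi => ?_
    rw [← Finset.sum_add_distrib, Finset.mul_sum, Finset.mul_sum]
    refine Finset.sum_congr rfl fun j hj => ?_
    have h1 := wB_wI s hs c hc i (Finset.mem_range.1 hi) j (Finset.mem_range.1 hj)
    have h2 : (WtI s : ℝ) * ((wB s (be1 s c) i : ℝ) * wB s (be2 s c) j +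
        (wB s (be2 s c) i : ℝ) * wB s (be1 s c) j) = 2 * (WbI s : ℝ) ^ 2 * wI s c i j := by
      exact_mod_cast h1
    have hb := WbI_pos s
    have ht := WtI_pos s
    field_simp
    linear_combination F i j * h2
  linarith [e1, e2]

private theorem kio_bd {s p c : ℕ} (hs : s < 4) (hp : p < 6) (hc : c < 3) (t : ℝ) :
    |io s p c t| ≤ 12 := by
  have h := io_bd hs hp hc t
  rw [abs_of_nonneg h.1]
  exact h.2

private theorem tm_rf {n : ℕ} (hn : 1 ≤ n) {v e : ℕ} (hv : v % 2 = e) (z : ℤ) :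
    tm n (rf n v z) = if e = 1 then tm n z else 12 - tm n z := by
  obtain ⟨-, -, hen⟩ := eh_pos hn
  unfold rf
  by_cases h : e = 1
  · rw [if_pos (hv.trans h), if_pos h]
  · rw [if_neg (fun h1 => h (hv.symm.trans h1)), if_neg h]
    unfold tm
    push_cast
    linear_combination 3 * hen

theorem Lk_lim : ∃ (C : ℝ) (n0 : ℕ), 0 < C ∧ 1 ≤ n0 ∧ ∀ n : ℕ, n0 ≤ n → ∀ s < 4, ∀ k : ℕ,
    Ptn s n k → ∀ z : ℤ,
    Lk s n k z ≤ 1 / (6 * (WtI s : ℝ)) * ∑ i ∈ range 6, (HH s i (tm n z) + HH s i (12 - tm n z)) +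
      C * eh n := by
  obtain ⟨C1, n1, hC1, hn1, H1⟩ := Kn_props
  obtain ⟨C2, hC2, H2⟩ := la_li2
  obtain ⟨C3, hC3, H3⟩ := quad_io
  obtain ⟨C4, hC4, H4⟩ := la_props
  obtain ⟨C5, hC5, H5⟩ := lili
  refine ⟨6 * C1 + C2 * 12 + C3 * C4 ^ 2 + C5, n1, by positivity, hn1, ?_⟩
  intro n hn s hs k hP z
  have hn' : 1 ≤ n := hn1.trans hn
  obtain ⟨he0, he6, hen⟩ := eh_pos hn'
  set h := eh n with hh
  set X : ℕ → ℝ := fun e => if e = 1 then tm n z else 12 - tm n z with hX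
  -- step A
  have eA : |Lk s n k z - ∑ v ∈ vs n, h / 6 * ∑ y ∈ ZB n, ∑ y' ∈ ZB n,
      la s n (st v (nbp n k v)) y * la s n (st v (nbm n k v)) y' *
      ker s (cla (grp ((y : ℝ) / n)) (grp ((y' : ℝ) / n))) (am n v) (tm n (rf n v z))| ≤
      6 * C1 * h := by
    rw [Lk_red hn', ← Finset.sum_sub_distrib]
    refine (Finset.abs_sum_le_sum_abs _ _).trans ?_
    have hb : ∀ v ∈ vs n, |∑ y ∈ ZB n, ∑ y' ∈ ZB n,
        la s n (st v (nbp n k v)) y * la s n (st v (nbm n k v)) y' *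
        Kn s n (cla (grp ((y : ℝ) / n)) (grp ((y' : ℝ) / n))) (am n v) (rf n v z) -
        h / 6 * ∑ y ∈ ZB n, ∑ y' ∈ ZB n,
        la s n (st v (nbp n k v)) y * la s n (st v (nbm n k v)) y' *
        ker s (cla (grp ((y : ℝ) / n)) (grp ((y' : ℝ) / n))) (am n v) (tm n (rf n v z))| ≤
        1 * 1 * (C1 * h ^ 2) := by
      intro v hv
      have hL1 := H4 n hn' s hs (st v (nbp n k v))
      have hL2 := H4 n hn' s hs (st v (nbm n k v))
      obtain ⟨ha0, ha3⟩ := am_mem hv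
      have e1 : ∑ y ∈ ZB n, ∑ y' ∈ ZB n,
          la s n (st v (nbp n k v)) y * la s n (st v (nbm n k v)) y' *
          Kn s n (cla (grp ((y : ℝ) / n)) (grp ((y' : ℝ) / n))) (am n v) (rf n v z) -
          h / 6 * ∑ y ∈ ZB n, ∑ y' ∈ ZB n,
          la s n (st v (nbp n k v)) y * la s n (st v (nbm n k v)) y' *
          ker s (cla (grp ((y : ℝ) / n)) (grp ((y' : ℝ) / n))) (am n v) (tm n (rf n v z)) =
          ∑ y ∈ ZB n, ∑ y' ∈ ZB n,
          la s n (st v (nbp n k v)) y * la s n (st v (nbm n k v)) y' *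
          (Kn s n (cla (grp ((y : ℝ) / n)) (grp ((y' : ℝ) / n))) (am n v) (rf n v z) -
            h / 6 * ker s (cla (grp ((y : ℝ) / n)) (grp ((y' : ℝ) / n))) (am n v)
              (tm n (rf n v z))) := by
        rw [Finset.mul_sum, ← Finset.sum_sub_distrib]
        refine Finset.sum_congr rfl fun y _ => ?_
        rw [Finset.mul_sum, ← Finset.sum_sub_distrib]
        refine Finset.sum_congr rfl fun y' _ => ?_
        ring
      rw [e1]
      refine dsum_le hL1.nonneg hL2.nonneg hL1.sum.le hL2.sum.le (by positivity) ?_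
      intro y _ y' _ _ _
      exact (H1 n hn s hs _ (cla_lt _ _) (am n v) ha0 ha3).approx (rf n v z)
    refine (Finset.sum_le_sum hb).trans ?_
    rw [Finset.sum_const, nsmul_eq_mul]
    have hc := card_vs n
    have : ((vs n).card : ℝ) * (1 * 1 * (C1 * h ^ 2)) ≤ n * (1 * 1 * (C1 * h ^ 2)) :=
      mul_le_mul_of_nonneg_right hc (by positivity)
    refine this.trans (le_of_eq ?_)
    calc (n : ℝ) * (1 * 1 * (C1 * h ^ 2)) = C1 * h * (h * n) := by ring
      _ = 6 * C1 * h := by rw [hen]; ring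
  -- step B
  have eB : |∑ v ∈ vs n, h / 6 * ∑ y ∈ ZB n, ∑ y' ∈ ZB n,
      la s n (st v (nbp n k v)) y * la s n (st v (nbm n k v)) y' *
      ker s (cla (grp ((y : ℝ) / n)) (grp ((y' : ℝ) / n))) (am n v) (tm n (rf n v z)) -
      ∑ v ∈ vs n, h / 6 * ∑ y ∈ ZB n, ∑ y' ∈ ZB n,
      li s n (st v (nbp n k v)) y * li s n (st v (nbm n k v)) y' *
      ker s (cla (grp ((y : ℝ) / n)) (grp ((y' : ℝ) / n))) (am n v) (tm n (rf n v z))| ≤
      C2 * 12 * h := by
    rw [← Finset.sum_sub_distrib]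
    refine (Finset.abs_sum_le_sum_abs _ _).trans ?_
    have hb : ∀ v ∈ vs n, |h / 6 * ∑ y ∈ ZB n, ∑ y' ∈ ZB n,
      la s n (st v (nbp n k v)) y * la s n (st v (nbm n k v)) y' *
      ker s (cla (grp ((y : ℝ) / n)) (grp ((y' : ℝ) / n))) (am n v) (tm n (rf n v z)) -
      h / 6 * ∑ y ∈ ZB n, ∑ y' ∈ ZB n,
      li s n (st v (nbp n k v)) y * li s n (st v (nbm n k v)) y' *
      ker s (cla (grp ((y : ℝ) / n)) (grp ((y' : ℝ) / n))) (am n v) (tm n (rf n v z))| ≤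
      h / 6 * (C2 * 12 * h) := by
      intro v _
      rw [← mul_sub, abs_mul, abs_of_nonneg (by positivity : (0 : ℝ) ≤ h / 6)]
      refine mul_le_mul_of_nonneg_left ?_ (by positivity)
      refine H2 n hn' s hs _ _ (fun y y' =>
        ker s (cla (grp ((y : ℝ) / n)) (grp ((y' : ℝ) / n))) (am n v) (tm n (rf n v z))) 12
        (fun y _ y' _ => ?_)
      have hk := ker_bd hs (cla_lt ((y : ℝ) / n) ((y' : ℝ) / n)) (am n v) (tm n (rf n v z))
      rw [abs_of_nonneg hk.1]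
      exact hk.2
    refine (Finset.sum_le_sum hb).trans ?_
    rw [Finset.sum_const, nsmul_eq_mul]
    have hc := card_vs n
    have : ((vs n).card : ℝ) * (h / 6 * (C2 * 12 * h)) ≤ n * (h / 6 * (C2 * 12 * h)) :=
      mul_le_mul_of_nonneg_right hc (by positivity)
    refine this.trans (le_of_eq ?_)
    calc (n : ℝ) * (h / 6 * (C2 * 12 * h)) = (h * n) / 6 * (C2 * 12 * h) := by ring
      _ = C2 * 12 * h := by rw [hen]; ring
  -- step C
  have eC : ∑ v ∈ vs n, h / 6 * ∑ y ∈ ZB n, ∑ y' ∈ ZB n,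
      li s n (st v (nbp n k v)) y * li s n (st v (nbm n k v)) y' *
      ker s (cla (grp ((y : ℝ) / n)) (grp ((y' : ℝ) / n))) (am n v) (tm n (rf n v z)) =
      ∑ c ∈ range 3, ∑ e ∈ range 2, 1 / 6 * ∑ y ∈ ZB n, ∑ y' ∈ ZB n,
        li s n (be1 s c) y * li s n (be2 s c) y' * (h * ∑ v ∈ Vc n c e,
          ker s (cla (grp ((y : ℝ) / n)) (grp ((y' : ℝ) / n))) (am n v) (X e)) := by
    rw [vs_split]
    refine Finset.sum_congr rfl (fun c hc => Finset.sum_congr rfl (fun e he => ?_))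
    have hc' := Finset.mem_range.1 hc
    have he' := Finset.mem_range.1 he
    calc ∑ v ∈ Vc n c e, h / 6 * ∑ y ∈ ZB n, ∑ y' ∈ ZB n,
          li s n (st v (nbp n k v)) y * li s n (st v (nbm n k v)) y' *
          ker s (cla (grp ((y : ℝ) / n)) (grp ((y' : ℝ) / n))) (am n v) (tm n (rf n v z))
        = ∑ v ∈ Vc n c e, ∑ y ∈ ZB n, ∑ y' ∈ ZB n, h / 6 * (
          li s n (be1 s c) y * li s n (be2 s c) y' *
          ker s (cla (grp ((y : ℝ) / n)) (grp ((y' : ℝ) / n))) (am n v) (X e)) := by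
          refine Finset.sum_congr rfl (fun v hv => ?_)
          have hv2 : v % 2 = e := by
            unfold Vc at hv
            exact ((Finset.mem_filter.1 hv).2).1
          rw [Finset.mul_sum]
          refine Finset.sum_congr rfl (fun y _ => ?_)
          rw [Finset.mul_sum]
          refine Finset.sum_congr rfl (fun y' _ => ?_)
          rw [(hP c hc' e he' v hv y).1, (hP c hc' e he' v hv y').2, tm_rf hn' hv2 z]
      _ = 1 / 6 * ∑ y ∈ ZB n, ∑ y' ∈ ZB n,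
        li s n (be1 s c) y * li s n (be2 s c) y' * (h * ∑ v ∈ Vc n c e,
          ker s (cla (grp ((y : ℝ) / n)) (grp ((y' : ℝ) / n))) (am n v) (X e)) := by
          rw [Finset.sum_comm, Finset.mul_sum]
          refine Finset.sum_congr rfl (fun y _ => ?_)
          rw [Finset.sum_comm, Finset.mul_sum]
          refine Finset.sum_congr rfl (fun y' _ => ?_)
          rw [Finset.mul_sum, Finset.mul_sum, Finset.mul_sum]
          refine Finset.sum_congr rfl (fun v _ => ?_)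
          ring
  -- steps D and E
  have eD : ∀ c < 3, ∀ e < 2, |∑ y ∈ ZB n, ∑ y' ∈ ZB n,
        li s n (be1 s c) y * li s n (be2 s c) y' * (h * ∑ v ∈ Vc n c e,
          ker s (cla (grp ((y : ℝ) / n)) (grp ((y' : ℝ) / n))) (am n v) (X e)) -
      1 / (WtI s : ℝ) * ∑ i ∈ range 6, ∑ j ∈ range 6,
        (wI s c i j : ℝ) * io s (cI i j) c (X e)| ≤ C4 * C4 * (C3 * h) + C5 * h := by
    intro c hc e he
    have hL1 := H4 n hn' s hs (be1 s c)
    have hL2 := H4 n hn' s hs (be2 s c)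
    have e1 : |∑ y ∈ ZB n, ∑ y' ∈ ZB n,
        li s n (be1 s c) y * li s n (be2 s c) y' * (h * ∑ v ∈ Vc n c e,
          ker s (cla (grp ((y : ℝ) / n)) (grp ((y' : ℝ) / n))) (am n v) (X e)) -
        ∑ y ∈ ZB n, ∑ y' ∈ ZB n, li s n (be1 s c) y * li s n (be2 s c) y' *
          io s (cI (ci n y) (ci n y')) c (X e)| ≤ C4 * C4 * (C3 * h) := by
      have e2 : ∑ y ∈ ZB n, ∑ y' ∈ ZB n,
        li s n (be1 s c) y * li s n (be2 s c) y' * (h * ∑ v ∈ Vc n c e,
          ker s (cla (grp ((y : ℝ) / n)) (grp ((y' : ℝ) / n))) (am n v) (X e)) -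
        ∑ y ∈ ZB n, ∑ y' ∈ ZB n, li s n (be1 s c) y * li s n (be2 s c) y' *
          io s (cI (ci n y) (ci n y')) c (X e) =
        ∑ y ∈ ZB n, ∑ y' ∈ ZB n,
        li s n (be1 s c) y * li s n (be2 s c) y' * (h * ∑ v ∈ Vc n c e,
          ker s (cla (grp ((y : ℝ) / n)) (grp ((y' : ℝ) / n))) (am n v) (X e) -
          io s (cI (ci n y) (ci n y')) c (X e)) := by
        rw [← Finset.sum_sub_distrib]
        refine Finset.sum_congr rfl fun y _ => ?_
        rw [← Finset.sum_sub_distrib]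
        refine Finset.sum_congr rfl fun y' _ => ?_
        ring
      rw [e2]
      refine dsum_le hL1.linn hL2.linn hL1.lisum hL2.lisum (by positivity) ?_
      intro y _ y' _ hy hy'
      have hyI : y ∈ Icc (n : ℤ) (2 * n) := by
        by_contra hcon
        exact hy (by unfold li; rw [if_neg hcon])
      have hyI' : y' ∈ Icc (n : ℤ) (2 * n) := by
        by_contra hcon
        exact hy' (by unfold li; rw [if_neg hcon])
      have ecl : cla (grp ((y : ℝ) / n)) (grp ((y' : ℝ) / n)) = cI (ci n y) (ci n y') := by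
        rw [grp_ci hn' hyI, grp_ci hn' hyI']
        rfl
      rw [ecl]
      exact H3 n hn' s hs _ (c_facts _ (ci_lt n y) _ (ci_lt n y')).2 c hc e he (X e)
    have e3 := H5 n hn' s hs (be1 s c) (be2 s c) (fun i j => io s (cI i j) c (X e))
      (fun i hi j hj => kio_bd hs (c_facts i hi j hj).2 hc (X e))
    have e4 := wB_sym hs hc (fun i j => io s (cI i j) c (X e)) (fun i hi j hj => by
      rw [(c_facts i hi j hj).1])
    rw [e4] at e3
    rw [abs_le] at e1 e3 ⊢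
    constructor <;> linarith [e1.1, e1.2, e3.1, e3.2]
  have eE : |∑ c ∈ range 3, ∑ e ∈ range 2, 1 / 6 * ∑ y ∈ ZB n, ∑ y' ∈ ZB n,
        li s n (be1 s c) y * li s n (be2 s c) y' * (h * ∑ v ∈ Vc n c e,
          ker s (cla (grp ((y : ℝ) / n)) (grp ((y' : ℝ) / n))) (am n v) (X e)) -
      ∑ c ∈ range 3, ∑ e ∈ range 2, 1 / 6 * (1 / (WtI s : ℝ) * ∑ i ∈ range 6, ∑ j ∈ range 6,
        (wI s c i j : ℝ) * io s (cI i j) c (X e))| ≤ C4 * C4 * (C3 * h) + C5 * h := by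
    rw [← Finset.sum_sub_distrib]
    refine (Finset.abs_sum_le_sum_abs _ _).trans ?_
    have hb : ∀ c ∈ range 3, |∑ e ∈ range 2, 1 / 6 * ∑ y ∈ ZB n, ∑ y' ∈ ZB n,
        li s n (be1 s c) y * li s n (be2 s c) y' * (h * ∑ v ∈ Vc n c e,
          ker s (cla (grp ((y : ℝ) / n)) (grp ((y' : ℝ) / n))) (am n v) (X e)) -
        ∑ e ∈ range 2, 1 / 6 * (1 / (WtI s : ℝ) * ∑ i ∈ range 6, ∑ j ∈ range 6,
        (wI s c i j : ℝ) * io s (cI i j) c (X e))| ≤
        2 * (1 / 6 * (C4 * C4 * (C3 * h) + C5 * h)) := by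
      intro c hc
      have hc' := Finset.mem_range.1 hc
      rw [← Finset.sum_sub_distrib]
      refine (Finset.abs_sum_le_sum_abs _ _).trans ?_
      have hb2 : ∀ e ∈ range 2, |1 / 6 * ∑ y ∈ ZB n, ∑ y' ∈ ZB n,
          li s n (be1 s c) y * li s n (be2 s c) y' * (h * ∑ v ∈ Vc n c e,
          ker s (cla (grp ((y : ℝ) / n)) (grp ((y' : ℝ) / n))) (am n v) (X e)) -
          1 / 6 * (1 / (WtI s : ℝ) * ∑ i ∈ range 6, ∑ j ∈ range 6,
          (wI s c i j : ℝ) * io s (cI i j) c (X e))| ≤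
          1 / 6 * (C4 * C4 * (C3 * h) + C5 * h) := by
        intro e he
        rw [← mul_sub, abs_mul, abs_of_nonneg (by norm_num : (0 : ℝ) ≤ 1 / 6)]
        exact mul_le_mul_of_nonneg_left (eD c hc' e (Finset.mem_range.1 he)) (by norm_num)
      refine (Finset.sum_le_sum hb2).trans (le_of_eq ?_)
      rw [Finset.sum_const, Finset.card_range]
      simp only [nsmul_eq_mul]
      push_cast
      ring
    refine (Finset.sum_le_sum hb).trans (le_of_eq ?_)
    rw [Finset.sum_const, Finset.card_range]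
    simp only [nsmul_eq_mul]
    push_cast
    ring
  have eF : ∑ c ∈ range 3, ∑ e ∈ range 2, 1 / 6 * (1 / (WtI s : ℝ) * ∑ i ∈ range 6,
        ∑ j ∈ range 6, (wI s c i j : ℝ) * io s (cI i j) c (X e)) =
      1 / (6 * (WtI s : ℝ)) * ∑ i ∈ range 6, (HH s i (tm n z) + HH s i (12 - tm n z)) := by
    have key : ∀ x : ℝ, ∑ c ∈ range 3, 1 / 6 * (1 / (WtI s : ℝ) * ∑ i ∈ range 6,
        ∑ j ∈ range 6, (wI s c i j : ℝ) * io s (cI i j) c x) =
        1 / (6 * (WtI s : ℝ)) * ∑ i ∈ range 6, HH s i x := by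
      intro x
      unfold HH
      rw [Finset.sum_comm (s := range 6) (t := range 3), Finset.mul_sum]
      refine Finset.sum_congr rfl fun c _ => ?_
      rw [← mul_assoc]
      congr 1
      rw [one_div_mul_one_div]
    have e1 : ∀ c ∈ range 3, ∑ e ∈ range 2, 1 / 6 * (1 / (WtI s : ℝ) * ∑ i ∈ range 6,
        ∑ j ∈ range 6, (wI s c i j : ℝ) * io s (cI i j) c (X e)) =
        1 / 6 * (1 / (WtI s : ℝ) * ∑ i ∈ range 6,
        ∑ j ∈ range 6, (wI s c i j : ℝ) * io s (cI i j) c (12 - tm n z)) +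
        1 / 6 * (1 / (WtI s : ℝ) * ∑ i ∈ range 6,
        ∑ j ∈ range 6, (wI s c i j : ℝ) * io s (cI i j) c (tm n z)) := by
      intro c _
      rw [Finset.sum_range_succ, Finset.sum_range_one]
      simp only [hX, if_true]
      rw [if_neg (by norm_num : ¬ ((0 : ℕ) = 1))]
    rw [Finset.sum_congr rfl e1, Finset.sum_add_distrib, key, key, ← mul_add,
      ← Finset.sum_add_distrib]
    congr 1
    exact Finset.sum_congr rfl fun i _ => by ring
  rw [eC] at eB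
  rw [eF] at eE
  rw [abs_le] at eA eB eE
  nlinarith [eA.1, eA.2, eB.1, eB.2, eE.1, eE.2]

end Pool.Agent.PGo.K
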