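import Pool.Agent.PGo.KoDefs

/-!
# PGo-KoPt: the pattern of the types

PLAN. `Ptn01`: for `s < 2`, `wB s b = nuI` does not depend on `b`, so `li s n b` does not depend on `b`. `Ptn2`: `n = 3 g`, `g` even, `v + g` and `v + 2 g` modulo `3 g` have the
parity of `v`, so `st = true`; `be1 2 c = be2 2 c = true`. `Ptn3`: `g` odd, `v < 3 g`, the column of `v`: `c = 0`: `2 g ≤ v < 3 g`, `(v + g) % (3 g) = v - 2 g`,
`(v + (3 g - g)) % (3 g) = v - g`; `c = 1`: `g ≤ v < 2 g`: `v + g`, `v - g`; `c = 2`: `v < g`: `v + g`, `v + 2 g` (`Nat.mod_eq_of_lt`, `Nat.add_mod_right`, `omega`).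
`st v w = decide (v % 2 = w % 2)`.
-/

noncomputable section

namespace Pool.Agent.PGo.K

open Finset Pool.Agent.PGr

theorem Ptn01 {s : ℕ} (hs : s < 2) (n k : ℕ) : Ptn s n k := by
  intro c _ e _ v _ y
  simp [li, wB, hs]

theorem Ptn2 {g : ℕ} (hg : Even g) : Ptn 2 (3 * g) g := by
  intro c hc e he v hv y
  have hvn : v < 3 * g := by
    have h := (mem_filter.1 hv).1
    exact mem_range.1 (mem_filter.1 h).1
  obtain ⟨r, hr⟩ := hg
  have h1 : st v (nbp (3 * g) g v) = true := by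
    unfold st nbp
    rw [decide_eq_true_eq]
    rcases lt_or_ge (v + g) (3 * g) with h | h
    · rw [Nat.mod_eq_of_lt h]; omega
    · rw [Nat.mod_eq_sub_mod h, Nat.mod_eq_of_lt (show v + g - 3 * g < 3 * g by omega)]; omega
  have h2 : st v (nbm (3 * g) g v) = true := by
    unfold st nbm
    rw [decide_eq_true_eq]
    rcases lt_or_ge (v + (3 * g - g)) (3 * g) with h | h
    · rw [Nat.mod_eq_of_lt h]; omega
    · rw [Nat.mod_eq_sub_mod h,
        Nat.mod_eq_of_lt (show v + (3 * g - g) - 3 * g < 3 * g by omega)]; omega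
  rw [h1, h2]
  exact ⟨rfl, rfl⟩

theorem Ptn3 {g : ℕ} (hg : Odd g) : Ptn 3 (3 * g) g := by
  intro c hc e he v hv y
  have hvn : v < 3 * g := by
    have h := (mem_filter.1 hv).1
    exact mem_range.1 (mem_filter.1 h).1
  obtain ⟨-, hv1, hv2⟩ := (mem_filter.1 hv).2
  obtain ⟨r, hr⟩ := hg
  have h1 : decide (v % 2 = (v + g) % (3 * g) % 2) = decide (c = 0) := by
    rw [decide_eq_decide]
    rcases lt_or_ge (v + g) (3 * g) with h | h
    · rw [Nat.mod_eq_of_lt h]
      interval_cases c <;> norm_num at hv1 hv2 ⊢ <;> omega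
    · rw [Nat.mod_eq_sub_mod h, Nat.mod_eq_of_lt (show v + g - 3 * g < 3 * g by omega)]
      interval_cases c <;> norm_num at hv1 hv2 ⊢ <;> omega
  have h2 : decide (v % 2 = (v + (3 * g - g)) % (3 * g) % 2) = decide (c = 2) := by
    rw [decide_eq_decide]
    rcases lt_or_ge (v + (3 * g - g)) (3 * g) with h | h
    · rw [Nat.mod_eq_of_lt h]
      interval_cases c <;> norm_num at hv1 hv2 ⊢ <;> omega
    · rw [Nat.mod_eq_sub_mod h,
        Nat.mod_eq_of_lt (show v + (3 * g - g) - 3 * g < 3 * g by omega)]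
      interval_cases c <;> norm_num at hv1 hv2 ⊢ <;> omega
  have h3 : st v (nbp (3 * g) g v) = be1 3 c := by
    unfold st nbp be1
    rw [if_pos rfl]
    exact h1
  have h4 : st v (nbm (3 * g) g v) = be2 3 c := by
    unfold st nbm be2
    rw [if_pos rfl]
    exact h2
  rw [h3, h4]
  exact ⟨rfl, rfl⟩

end Pool.Agent.PGo.K
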