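import Pool.Agent.PGo.KoQH
import Pool.Agent.PGo.KoLc

/-!
# PGo-KoStD: the limit of the item part

PLAN. Split `I5` into the diagonal part, the `t` part `io (t + τ) + io (t - τ)` and the `t'` part.
Diagonal: `li_cell` twice (`F i = dg s (cI i j) c τ`, `|F| ≤ 12`, `dg_bd`; `LaP.lisum` of `la_props` for the other sum): `≈ ∑ i j, wB (be1) i wB (be2) j / Wb^2 dg s (cI i j) c τ`
`= ∑ i j, wI s c i j / Wt * dg …` by `wB_wI` and the symmetry `cI i j = cI j i` (`c_facts`; exchange `i, j` and average).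
`t` part: for fixed `y` apply `li_cell` to the sum over `y'` (`F j = io s (cI (ci n y) j) c (tm n y ± τ)`, `io_bd`): `≈ ∑ y, li (be1) y ∑ j, wB (be2) j / Wb * io …`; the `t'` part in
the same way with `be1`, `be2` exchanged (`cI` symmetric). Their sum has the coefficient (on `[n, 2n]`, `li s n b y = h / Wb * wB s b (ci n y)`)
`h / Wb^2 (wB (be1) i wB (be2) j + wB (be2) i wB (be1) j) = 2 h / Wt * wI s c i j` (`wB_wI`), `i = ci n y`. Sum over `c`: `∑ c j, wI s c i j io s (cI i j) c (t ± τ) = HH s i (t ± τ)`.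
So `(1/3) * (2 h / Wt) ∑ y ∈ [n, 2n], (HH s (ci n y) (tm n y + τ) + HH s (ci n y) (tm n y - τ))`, and `quadH` with `τ` and `-τ`.
-/

noncomputable section

namespace Pool.Agent.PGo.K

open Finset Pool.Agent.PGr PGrK

private theorem wb_pos (s : ℕ) : (0 : ℝ) < WbI s := by
  have : 0 < WbI s := by unfold WbI; split_ifs <;> norm_num
  exact_mod_cast this

private theorem wt_pos (s : ℕ) : (0 : ℝ) < WtI s := by
  have : 0 < WtI s := by unfold WtI; split_ifs <;> norm_num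
  exact_mod_cast this

private theorem li_single : ∃ C : ℝ, 0 < C ∧ ∀ n : ℕ, 1 ≤ n → ∀ s < 4, ∀ b b' : Bool,
    ∀ (G : ℤ → ℕ → ℝ) (M : ℝ), (∀ y, ∀ j < 6, |G y j| ≤ M) →
    |∑ y ∈ ZB n, ∑ y' ∈ ZB n, li s n b y * li s n b' y' * G y (ci n y') -
      ∑ y ∈ ZB n, li s n b y * ∑ j ∈ range 6, (wB s b' j : ℝ) / (WbI s : ℝ) * G y j| ≤
      C * M * eh n := by
  obtain ⟨C1, hC1, H1⟩ := li_cell
  obtain ⟨C4, hC4, H4⟩ := la_props
  refine ⟨C4 * C1, by positivity, ?_⟩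
  intro n hn s hs b b' G M hM
  have hL := H4 n hn s hs b
  obtain ⟨he0, he6, hen⟩ := eh_pos hn
  have hM0 : 0 ≤ M := (abs_nonneg _).trans (hM 0 0 (by norm_num))
  rw [← Finset.sum_sub_distrib]
  refine (Finset.abs_sum_le_sum_abs _ _).trans ?_
  have hb : ∀ y ∈ ZB n, |∑ y' ∈ ZB n, li s n b y * li s n b' y' * G y (ci n y') -
      li s n b y * ∑ j ∈ range 6, (wB s b' j : ℝ) / (WbI s : ℝ) * G y j| ≤
      li s n b y * (C1 * M * eh n) := by
    intro y _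
    have e1 : ∑ y' ∈ ZB n, li s n b y * li s n b' y' * G y (ci n y') =
        li s n b y * ∑ y' ∈ ZB n, li s n b' y' * G y (ci n y') := by
      rw [Finset.mul_sum]
      exact Finset.sum_congr rfl (fun y' _ => by ring)
    rw [e1, ← mul_sub, abs_mul, abs_of_nonneg (hL.linn y)]
    exact mul_le_mul_of_nonneg_left (H1 n hn s hs b' (fun j => G y j) M (hM y)) (hL.linn y)
  refine (Finset.sum_le_sum hb).trans ?_
  rw [← Finset.sum_mul]
  refine (mul_le_mul_of_nonneg_right hL.lisum (by positivity)).trans (le_of_eq ?_)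
  ring

private theorem li_double : ∃ C : ℝ, 0 < C ∧ ∀ n : ℕ, 1 ≤ n → ∀ s < 4, ∀ b b' : Bool,
    ∀ (G : ℕ → ℕ → ℝ) (M : ℝ), (∀ i < 6, ∀ j < 6, |G i j| ≤ M) →
    |∑ y ∈ ZB n, ∑ y' ∈ ZB n, li s n b y * li s n b' y' * G (ci n y) (ci n y') -
      ∑ i ∈ range 6, (wB s b i : ℝ) / (WbI s : ℝ) *
        ∑ j ∈ range 6, (wB s b' j : ℝ) / (WbI s : ℝ) * G i j| ≤ C * M * eh n := by
  obtain ⟨C1, hC1, H1⟩ := li_cell
  obtain ⟨C2, hC2, H2⟩ := li_single
  refine ⟨C2 + C1, by positivity, ?_⟩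
  intro n hn s hs b b' G M hM
  have hM0 : 0 ≤ M := (abs_nonneg _).trans (hM 0 (by norm_num) 0 (by norm_num))
  have h2 := H2 n hn s hs b b' (fun y j => G (ci n y) j) M (fun y j hj => hM _ (ci_lt n y) _ hj)
  have hF : ∀ i < 6, |∑ j ∈ range 6, (wB s b' j : ℝ) / (WbI s : ℝ) * G i j| ≤ M := by
    intro i hi
    refine (Finset.abs_sum_le_sum_abs _ _).trans ?_
    have hb : ∀ j ∈ range 6, |(wB s b' j : ℝ) / (WbI s : ℝ) * G i j| ≤
        (wB s b' j : ℝ) / (WbI s : ℝ) * M := by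
      intro j hj
      have hj' := Finset.mem_range.1 hj
      have hw : (0 : ℝ) ≤ wB s b' j := by
        have := (wB_pos s hs b' j hj').1
        have h0 : (0 : ℤ) ≤ wB s b' j := by omega
        exact_mod_cast h0
      have hq : (0 : ℝ) ≤ (wB s b' j : ℝ) / (WbI s : ℝ) := div_nonneg hw (wb_pos s).le
      rw [abs_mul, abs_of_nonneg hq]
      exact mul_le_mul_of_nonneg_left (hM i hi j hj') hq
    refine (Finset.sum_le_sum hb).trans (le_of_eq ?_)
    rw [← Finset.sum_mul, ← Finset.sum_div]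
    have := wB_sum s hs b'
    have h3 : (∑ j ∈ range 6, (wB s b' j : ℝ)) = WbI s := by exact_mod_cast this
    rw [h3, div_self (wb_pos s).ne', one_mul]
  have h1 := H1 n hn s hs b
    (fun i => ∑ j ∈ range 6, (wB s b' j : ℝ) / (WbI s : ℝ) * G i j) M hF
  rw [abs_le] at h1 h2 ⊢
  constructor <;> nlinarith [h1.1, h1.2, h2.1, h2.2]

private theorem sym_sum {s c : ℕ} (hs : s < 4) (hc : c < 3) (D : ℕ → ℝ) :
    ∑ i ∈ range 6, (wB s (be1 s c) i : ℝ) / (WbI s : ℝ) *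
      ∑ j ∈ range 6, (wB s (be2 s c) j : ℝ) / (WbI s : ℝ) * D (cI i j) =
    1 / (WtI s : ℝ) * ∑ i ∈ range 6, ∑ j ∈ range 6, (wI s c i j : ℝ) * D (cI i j) := by
  have hW := wb_pos s
  have hT := wt_pos s
  have e1 : ∑ i ∈ range 6, (wB s (be1 s c) i : ℝ) / (WbI s : ℝ) *
      ∑ j ∈ range 6, (wB s (be2 s c) j : ℝ) / (WbI s : ℝ) * D (cI i j) =
      ∑ i ∈ range 6, ∑ j ∈ range 6, ((wB s (be1 s c) i : ℝ) * (wB s (be2 s c) j : ℝ)) /
        (WbI s : ℝ) ^ 2 * D (cI i j) := by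
    refine Finset.sum_congr rfl (fun i _ => ?_)
    rw [Finset.mul_sum]
    refine Finset.sum_congr rfl (fun j _ => ?_)
    field_simp
  have e2 : ∑ i ∈ range 6, ∑ j ∈ range 6, ((wB s (be1 s c) i : ℝ) * (wB s (be2 s c) j : ℝ)) /
        (WbI s : ℝ) ^ 2 * D (cI i j) =
      ∑ i ∈ range 6, ∑ j ∈ range 6, ((wB s (be2 s c) i : ℝ) * (wB s (be1 s c) j : ℝ)) /
        (WbI s : ℝ) ^ 2 * D (cI i j) := by
    rw [Finset.sum_comm]
    refine Finset.sum_congr rfl (fun i hi => Finset.sum_congr rfl (fun j hj => ?_))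
    rw [(c_facts j (Finset.mem_range.1 hj) i (Finset.mem_range.1 hi)).1]
    ring
  have e3 : ∑ i ∈ range 6, ∑ j ∈ range 6, ((wB s (be1 s c) i : ℝ) * (wB s (be2 s c) j : ℝ)) /
        (WbI s : ℝ) ^ 2 * D (cI i j) +
      ∑ i ∈ range 6, ∑ j ∈ range 6, ((wB s (be2 s c) i : ℝ) * (wB s (be1 s c) j : ℝ)) /
        (WbI s : ℝ) ^ 2 * D (cI i j) =
      2 * (1 / (WtI s : ℝ) * ∑ i ∈ range 6, ∑ j ∈ range 6, (wI s c i j : ℝ) * D (cI i j)) := by
    rw [← Finset.sum_add_distrib, Finset.mul_sum, Finset.mul_sum]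
    refine Finset.sum_congr rfl (fun i hi => ?_)
    rw [← Finset.sum_add_distrib, Finset.mul_sum, Finset.mul_sum]
    refine Finset.sum_congr rfl (fun j hj => ?_)
    have h := wB_wI s hs c hc i (Finset.mem_range.1 hi) j (Finset.mem_range.1 hj)
    have h' : (WtI s : ℝ) * ((wB s (be1 s c) i : ℝ) * (wB s (be2 s c) j : ℝ) +
        (wB s (be2 s c) i : ℝ) * (wB s (be1 s c) j : ℝ)) = 2 * (WbI s : ℝ) ^ 2 * (wI s c i j : ℝ) := by
      exact_mod_cast h
    field_simp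
    linear_combination (D (cI i j)) * h'
  rw [e1]
  linarith [e2, e3]

/-- the free label: coefficient of both neighbours together -/
private theorem free_sum {s c : ℕ} (hs : s < 4) (hc : c < 3) (n : ℕ) (K : ℕ → ℤ → ℝ) :
    ∑ y ∈ ZB n, li s n (be1 s c) y * ∑ j ∈ range 6, (wB s (be2 s c) j : ℝ) / (WbI s : ℝ) *
        K (cI (ci n y) j) y +
      ∑ y ∈ ZB n, li s n (be2 s c) y * ∑ j ∈ range 6, (wB s (be1 s c) j : ℝ) / (WbI s : ℝ) *
        K (cI (ci n y) j) y =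
    ∑ y ∈ ZB n, if y ∈ Icc (n : ℤ) (2 * n) then
      2 * eh n / (WtI s : ℝ) * ∑ j ∈ range 6, (wI s c (ci n y) j : ℝ) * K (cI (ci n y) j) y
      else 0 := by
  have hW := wb_pos s
  have hT := wt_pos s
  rw [← Finset.sum_add_distrib]
  refine Finset.sum_congr rfl (fun y _ => ?_)
  unfold li
  split_ifs with hy
  · rw [Finset.mul_sum, Finset.mul_sum, Finset.mul_sum, ← Finset.sum_add_distrib]
    refine Finset.sum_congr rfl (fun j hj => ?_)
    have h := wB_wI s hs c hc (ci n y) (ci_lt n y) j (Finset.mem_range.1 hj)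
    have h' : (WtI s : ℝ) * ((wB s (be1 s c) (ci n y) : ℝ) * (wB s (be2 s c) j : ℝ) +
        (wB s (be2 s c) (ci n y) : ℝ) * (wB s (be1 s c) j : ℝ)) =
        2 * (WbI s : ℝ) ^ 2 * (wI s c (ci n y) j : ℝ) := by
      exact_mod_cast h
    field_simp
    linear_combination (eh n * K (cI (ci n y) j) y) * h'
  · ring

private theorem HH_sum {s : ℕ} {n : ℕ} (hn : 1 ≤ n) (x : ℝ) :
    ∑ c ∈ range 3, (1 / 3 : ℝ) * ∑ y ∈ ZB n, (if y ∈ Icc (n : ℤ) (2 * n) then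
      2 * eh n / (WtI s : ℝ) * ∑ j ∈ range 6, (wI s c (ci n y) j : ℝ) *
        io s (cI (ci n y) j) c (tm n y + x) else 0) =
    2 / (3 * (WtI s : ℝ)) * (eh n * ∑ y ∈ Icc (n : ℤ) (2 * n), HH s (ci n y) (tm n y + x)) := by
  have hT := wt_pos s
  have e1 : ∀ c : ℕ, ∑ y ∈ ZB n, (if y ∈ Icc (n : ℤ) (2 * n) then
      2 * eh n / (WtI s : ℝ) * ∑ j ∈ range 6, (wI s c (ci n y) j : ℝ) *
        io s (cI (ci n y) j) c (tm n y + x) else 0) =
      ∑ y ∈ Icc (n : ℤ) (2 * n), 2 * eh n / (WtI s : ℝ) * ∑ j ∈ range 6,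
        (wI s c (ci n y) j : ℝ) * io s (cI (ci n y) j) c (tm n y + x) := by
    intro c
    rw [← Finset.sum_filter]
    refine Finset.sum_congr ?_ (fun _ _ => rfl)
    ext y
    rw [Finset.mem_filter]
    exact ⟨fun h => h.2, fun h => ⟨Icc_ZB hn h, h⟩⟩
  simp only [e1]
  have e2 : ∀ c : ℕ, (1 / 3 : ℝ) * ∑ y ∈ Icc (n : ℤ) (2 * n), 2 * eh n / (WtI s : ℝ) *
      ∑ j ∈ range 6, (wI s c (ci n y) j : ℝ) * io s (cI (ci n y) j) c (tm n y + x) =
      ∑ y ∈ Icc (n : ℤ) (2 * n), 2 / (3 * (WtI s : ℝ)) * (eh n *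
      ∑ j ∈ range 6, (wI s c (ci n y) j : ℝ) * io s (cI (ci n y) j) c (tm n y + x)) := by
    intro c
    rw [Finset.mul_sum]
    refine Finset.sum_congr rfl (fun y _ => ?_)
    field_simp
  simp only [e2]
  rw [Finset.sum_comm, Finset.mul_sum, Finset.mul_sum]
  refine Finset.sum_congr rfl (fun y _ => ?_)
  unfold HH
  rw [Finset.mul_sum, Finset.mul_sum]

theorem StD : ∃ C : ℝ, 0 < C ∧ ∀ n : ℕ, 1 ≤ n → ∀ s < 4, ∀ τ : ℝ,
    |∑ c ∈ range 3, (1 / 3 : ℝ) * ∑ y ∈ ZB n, ∑ y' ∈ ZB n, li s n (be1 s c) y *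
      li s n (be2 s c) y' * I5 s (cI (ci n y) (ci n y')) c (tm n y) (tm n y') τ - SkL s τ| ≤
      C * eh n := by
  obtain ⟨C1, hC1, H1⟩ := li_single
  obtain ⟨C2, hC2, H2⟩ := li_double
  obtain ⟨C3, hC3, H3⟩ := quadH
  refine ⟨C2 * 12 + 4 * (C1 * 12) + 2 * C3, by positivity, ?_⟩
  intro n hn s hs τ
  obtain ⟨he0, he6, hen⟩ := eh_pos hn
  have hT := wt_pos s
  -- the column sums
  have hcol : ∀ c ∈ range 3, |∑ y ∈ ZB n, ∑ y' ∈ ZB n, li s n (be1 s c) y *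
      li s n (be2 s c) y' * I5 s (cI (ci n y) (ci n y')) c (tm n y) (tm n y') τ -
      (1 / (WtI s : ℝ) * ∑ i ∈ range 6, ∑ j ∈ range 6, (wI s c i j : ℝ) * dg s (cI i j) c τ +
      (∑ y ∈ ZB n, (if y ∈ Icc (n : ℤ) (2 * n) then
      2 * eh n / (WtI s : ℝ) * ∑ j ∈ range 6, (wI s c (ci n y) j : ℝ) *
        io s (cI (ci n y) j) c (tm n y + τ) else 0) +
      ∑ y ∈ ZB n, (if y ∈ Icc (n : ℤ) (2 * n) then
      2 * eh n / (WtI s : ℝ) * ∑ j ∈ range 6, (wI s c (ci n y) j : ℝ) *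
        io s (cI (ci n y) j) c (tm n y + -τ) else 0)))| ≤
      (C2 * 12 + 4 * (C1 * 12)) * eh n := by
    intro c hc
    have hc' := Finset.mem_range.1 hc
    have hcI : ∀ i < 6, ∀ j < 6, cI i j < 6 := fun i hi j hj => (c_facts i hi j hj).2
    have hab : ∀ p < 6, ∀ t : ℝ, |io s p c t| ≤ 12 := by
      intro p hp t
      have := io_bd hs hp hc' t
      rw [abs_of_nonneg this.1]
      exact this.2
    have d1 := H2 n hn s hs (be1 s c) (be2 s c) (fun i j => dg s (cI i j) c τ) 12 (by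
      intro i hi j hj
      have := dg_bd hs (hcI i hi j hj) hc' τ
      rw [abs_of_nonneg this.1]
      exact this.2)
    rw [sym_sum hs hc' (fun p => dg s p c τ)] at d1
    have tp : ∀ x : ℝ, |∑ y ∈ ZB n, ∑ y' ∈ ZB n, li s n (be1 s c) y * li s n (be2 s c) y' *
        io s (cI (ci n y) (ci n y')) c (tm n y + x) + ∑ y ∈ ZB n, ∑ y' ∈ ZB n,
        li s n (be1 s c) y * li s n (be2 s c) y' *
        io s (cI (ci n y) (ci n y')) c (tm n y' + x) -
        ∑ y ∈ ZB n, (if y ∈ Icc (n : ℤ) (2 * n) then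
        2 * eh n / (WtI s : ℝ) * ∑ j ∈ range 6, (wI s c (ci n y) j : ℝ) *
        io s (cI (ci n y) j) c (tm n y + x) else 0)| ≤ 2 * (C1 * 12 * eh n) := by
      intro x
      have a1 := H1 n hn s hs (be1 s c) (be2 s c)
        (fun y j => io s (cI (ci n y) j) c (tm n y + x)) 12
        (fun y j hj => hab _ (hcI _ (ci_lt n y) j hj) _)
      have a2 := H1 n hn s hs (be2 s c) (be1 s c)
        (fun y j => io s (cI (ci n y) j) c (tm n y + x)) 12
        (fun y j hj => hab _ (hcI _ (ci_lt n y) j hj) _)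
      have sw : ∑ y ∈ ZB n, ∑ y' ∈ ZB n,
          li s n (be1 s c) y * li s n (be2 s c) y' *
          io s (cI (ci n y) (ci n y')) c (tm n y' + x) =
          ∑ y ∈ ZB n, ∑ y' ∈ ZB n,
          li s n (be2 s c) y * li s n (be1 s c) y' *
          io s (cI (ci n y) (ci n y')) c (tm n y + x) := by
        rw [Finset.sum_comm]
        refine Finset.sum_congr rfl (fun y _ => Finset.sum_congr rfl (fun y' _ => ?_))
        rw [(c_facts _ (ci_lt n y') _ (ci_lt n y)).1]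
        ring
      have fs := free_sum hs hc' n (fun p y => io s p c (tm n y + x))
      rw [sw, ← fs]
      rw [abs_le] at a1 a2 ⊢
      constructor <;> linarith [a1.1, a1.2, a2.1, a2.2]
    have t1 := tp τ
    have t2 := tp (-τ)
    have hsplit : ∑ y ∈ ZB n, ∑ y' ∈ ZB n, li s n (be1 s c) y *
        li s n (be2 s c) y' * I5 s (cI (ci n y) (ci n y')) c (tm n y) (tm n y') τ =
        ∑ y ∈ ZB n, ∑ y' ∈ ZB n, li s n (be1 s c) y * li s n (be2 s c) y' *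
          dg s (cI (ci n y) (ci n y')) c τ +
        (∑ y ∈ ZB n, ∑ y' ∈ ZB n, li s n (be1 s c) y * li s n (be2 s c) y' *
        io s (cI (ci n y) (ci n y')) c (tm n y + τ) + ∑ y ∈ ZB n, ∑ y' ∈ ZB n,
        li s n (be1 s c) y * li s n (be2 s c) y' *
        io s (cI (ci n y) (ci n y')) c (tm n y' + τ)) +
        (∑ y ∈ ZB n, ∑ y' ∈ ZB n, li s n (be1 s c) y * li s n (be2 s c) y' *
        io s (cI (ci n y) (ci n y')) c (tm n y + -τ) + ∑ y ∈ ZB n, ∑ y' ∈ ZB n,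
        li s n (be1 s c) y * li s n (be2 s c) y' *
        io s (cI (ci n y) (ci n y')) c (tm n y' + -τ)) := by
      rw [← Finset.sum_add_distrib, ← Finset.sum_add_distrib, ← Finset.sum_add_distrib,
        ← Finset.sum_add_distrib]
      refine Finset.sum_congr rfl (fun y _ => ?_)
      rw [← Finset.sum_add_distrib, ← Finset.sum_add_distrib, ← Finset.sum_add_distrib,
        ← Finset.sum_add_distrib]
      refine Finset.sum_congr rfl (fun y' _ => ?_)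
      unfold I5
      rw [sub_eq_add_neg, sub_eq_add_neg]
      ring
    rw [hsplit]
    rw [abs_le] at d1 t1 t2 ⊢
    constructor <;> linarith [d1.1, d1.2, t1.1, t1.2, t2.1, t2.2]
  -- the sum over the columns
  have hsum : |∑ c ∈ range 3, (1 / 3 : ℝ) * ∑ y ∈ ZB n, ∑ y' ∈ ZB n, li s n (be1 s c) y *
      li s n (be2 s c) y' * I5 s (cI (ci n y) (ci n y')) c (tm n y) (tm n y') τ -
      ∑ c ∈ range 3, (1 / 3 : ℝ) * (1 / (WtI s : ℝ) * ∑ i ∈ range 6, ∑ j ∈ range 6,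
        (wI s c i j : ℝ) * dg s (cI i j) c τ +
      (∑ y ∈ ZB n, (if y ∈ Icc (n : ℤ) (2 * n) then
      2 * eh n / (WtI s : ℝ) * ∑ j ∈ range 6, (wI s c (ci n y) j : ℝ) *
        io s (cI (ci n y) j) c (tm n y + τ) else 0) +
      ∑ y ∈ ZB n, (if y ∈ Icc (n : ℤ) (2 * n) then
      2 * eh n / (WtI s : ℝ) * ∑ j ∈ range 6, (wI s c (ci n y) j : ℝ) *
        io s (cI (ci n y) j) c (tm n y + -τ) else 0)))| ≤
      (C2 * 12 + 4 * (C1 * 12)) * eh n := by
    rw [← Finset.sum_sub_distrib]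
    refine (Finset.abs_sum_le_sum_abs _ _).trans ?_
    refine (Finset.sum_le_sum (g := fun _ => 1 / 3 * ((C2 * 12 + 4 * (C1 * 12)) * eh n))
      (fun c hc => ?_)).trans (le_of_eq ?_)
    · rw [← mul_sub, abs_mul, abs_of_nonneg (by norm_num : (0 : ℝ) ≤ 1 / 3)]
      exact mul_le_mul_of_nonneg_left (hcol c hc) (by norm_num)
    · rw [Finset.sum_const, Finset.card_range]
      simp only [nsmul_eq_mul]
      push_cast
      ring
  have hval : ∑ c ∈ range 3, (1 / 3 : ℝ) * (1 / (WtI s : ℝ) * ∑ i ∈ range 6, ∑ j ∈ range 6,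
        (wI s c i j : ℝ) * dg s (cI i j) c τ +
      (∑ y ∈ ZB n, (if y ∈ Icc (n : ℤ) (2 * n) then
      2 * eh n / (WtI s : ℝ) * ∑ j ∈ range 6, (wI s c (ci n y) j : ℝ) *
        io s (cI (ci n y) j) c (tm n y + τ) else 0) +
      ∑ y ∈ ZB n, (if y ∈ Icc (n : ℤ) (2 * n) then
      2 * eh n / (WtI s : ℝ) * ∑ j ∈ range 6, (wI s c (ci n y) j : ℝ) *
        io s (cI (ci n y) j) c (tm n y + -τ) else 0))) =
      1 / (3 * (WtI s : ℝ)) * ∑ c ∈ range 3, ∑ i ∈ range 6, ∑ j ∈ range 6,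
        (wI s c i j : ℝ) * dg s (cI i j) c τ +
      2 / (3 * (WtI s : ℝ)) * (eh n * ∑ y ∈ Icc (n : ℤ) (2 * n), HH s (ci n y) (tm n y + τ)) +
      2 / (3 * (WtI s : ℝ)) * (eh n * ∑ y ∈ Icc (n : ℤ) (2 * n), HH s (ci n y) (tm n y + -τ)) := by
    rw [← HH_sum hn τ, ← HH_sum hn (-τ), Finset.mul_sum, ← Finset.sum_add_distrib,
      ← Finset.sum_add_distrib]
    refine Finset.sum_congr rfl (fun c _ => ?_)
    have h3 : 1 / (3 * (WtI s : ℝ)) * ∑ i ∈ range 6, ∑ j ∈ range 6,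
        (wI s c i j : ℝ) * dg s (cI i j) c τ = (1 / 3 : ℝ) * (1 / (WtI s : ℝ) *
          ∑ i ∈ range 6, ∑ j ∈ range 6, (wI s c i j : ℝ) * dg s (cI i j) c τ) := by
      field_simp
    rw [h3]
    ring
  rw [hval] at hsum
  have q1 := H3 n hn s hs τ
  have q2 := H3 n hn s hs (-τ)
  have hcoef : (0 : ℝ) ≤ 2 / (3 * (WtI s : ℝ)) ∧ 2 / (3 * (WtI s : ℝ)) ≤ 1 := by
    constructor
    · positivity
    · rw [div_le_one (by positivity)]
      have : 1 ≤ WtI s := by unfold WtI; split_ifs <;> norm_num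
      have h' : (1 : ℝ) ≤ WtI s := by exact_mod_cast this
      linarith
  have w1 : |2 / (3 * (WtI s : ℝ)) * (eh n * ∑ y ∈ Icc (n : ℤ) (2 * n), HH s (ci n y) (tm n y + τ))
      - 2 / (3 * (WtI s : ℝ)) * ∑ i ∈ range 6, HJ s i τ| ≤ 1 * (C3 * eh n) := by
    rw [← mul_sub, abs_mul, abs_of_nonneg hcoef.1]
    exact mul_le_mul hcoef.2 q1 (abs_nonneg _) (by norm_num)
  have w2 : |2 / (3 * (WtI s : ℝ)) * (eh n * ∑ y ∈ Icc (n : ℤ) (2 * n), HH s (ci n y) (tm n y + -τ))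
      - 2 / (3 * (WtI s : ℝ)) * ∑ i ∈ range 6, HJ s i (-τ)| ≤ 1 * (C3 * eh n) := by
    rw [← mul_sub, abs_mul, abs_of_nonneg hcoef.1]
    exact mul_le_mul hcoef.2 q2 (abs_nonneg _) (by norm_num)
  have hSk : SkL s τ = 1 / (3 * (WtI s : ℝ)) * ∑ c ∈ range 3, ∑ i ∈ range 6, ∑ j ∈ range 6,
        (wI s c i j : ℝ) * dg s (cI i j) c τ + 2 / (3 * (WtI s : ℝ)) * ∑ i ∈ range 6, HJ s i τ +
        2 / (3 * (WtI s : ℝ)) * ∑ i ∈ range 6, HJ s i (-τ) := by
    unfold SkL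
    rw [Finset.sum_add_distrib]
    field_simp
    ring
  rw [hSk]
  rw [abs_le] at hsum w1 w2 ⊢
  constructor <;> linarith [hsum.1, hsum.2, w1.1, w1.2, w2.1, w2.2]

end Pool.Agent.PGo.K
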