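import Pool.Agent.PGo.KoRed
import Pool.Agent.PGo.KoStA
import Pool.Agent.PGo.KoStD
import Pool.Agent.PGo.KoV

/-!
# PGo-KoSk: the differences of the items
-/

noncomputable section

namespace Pool.Agent.PGo.K

open Finset Pool.Agent.PGr PGrK

theorem R5_bd {s p : ℕ} (hs : s < 4) (hp : p < 6) (a t t' τ : ℝ) : |R5 s p a t t' τ| ≤ 60 := by
  have h1 := ker_bd hs hp a (a + 12 - τ)
  have h2 := ker_bd hs hp a (t + τ)
  have h3 := ker_bd hs hp a (t - τ)
  have h4 := ker_bd hs hp a (t' + τ)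
  have h5 := ker_bd hs hp a (t' - τ)
  unfold R5
  rw [abs_le]
  constructor <;> linarith [h1.1, h2.1, h3.1, h4.1, h5.1, h1.2, h2.2, h3.2, h4.2, h5.2]

theorem cla_ci {n : ℕ} (hn : 1 ≤ n) {y y' : ℤ} (hy : y ∈ Icc (n : ℤ) (2 * n))
    (hy' : y' ∈ Icc (n : ℤ) (2 * n)) :
    cla (grp ((y : ℝ) / n)) (grp ((y' : ℝ) / n)) = cI (ci n y) (ci n y') := by
  rw [grp_ci hn hy, grp_ci hn hy']
  rfl

theorem li_out {n : ℕ} (s : ℕ) (b : Bool) {y : ℤ} (hy : y ∉ Icc (n : ℤ) (2 * n)) :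
    li s n b y = 0 := by
  unfold li
  rw [if_neg hy]

theorem Sk_lim : ∃ (C : ℝ) (n0 : ℕ), 0 < C ∧ 1 ≤ n0 ∧ ∀ n : ℕ, n0 ≤ n → ∀ s < 4, ∀ k : ℕ,
    Ptn s n k → ∀ d : ℤ, 1 ≤ d → |Sk s n k d - SkL s (eh n * d)| ≤ C * eh n := by
  obtain ⟨C1, n1, hC1, hn1, H1⟩ := StA
  obtain ⟨C2, hC2, H2⟩ := la_li2
  obtain ⟨C3, hC3, H3⟩ := quad_R5
  obtain ⟨C4, hC4, H4⟩ := la_props
  obtain ⟨C5, hC5, H5⟩ := StD
  refine ⟨6 * C1 + C2 * 60 + C3 * C4 ^ 2 + C5, n1, by positivity, hn1, ?_⟩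
  intro n hn s hs k hP d hd
  have hn' : 1 ≤ n := hn1.trans hn
  obtain ⟨he0, he6, hen⟩ := eh_pos hn'
  set h := eh n with hh
  set τ : ℝ := h * d with hτ
  -- step A
  have eA : |Sk s n k d - ∑ v ∈ vs n, h / 6 * ∑ y ∈ ZB n, ∑ y' ∈ ZB n,
      la s n (st v (nbp n k v)) y * la s n (st v (nbm n k v)) y' *
      R5 s (cla (grp ((y : ℝ) / n)) (grp ((y' : ℝ) / n))) (am n v) (tm n y) (tm n y') τ| ≤
      6 * C1 * h := by
    rw [Sk_red hn', ← Finset.sum_sub_distrib]
    refine (Finset.abs_sum_le_sum_abs _ _).trans ?_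
    refine (Finset.sum_le_sum (fun v hv => H1 n hn s hs _ _ d hd v hv)).trans ?_
    rw [Finset.sum_const, nsmul_eq_mul]
    have hc := card_vs n
    have : ((vs n).card : ℝ) * (C1 * h ^ 2) ≤ n * (C1 * h ^ 2) :=
      mul_le_mul_of_nonneg_right hc (by positivity)
    refine this.trans (le_of_eq ?_)
    calc (n : ℝ) * (C1 * h ^ 2) = C1 * h * (h * n) := by ring
      _ = 6 * C1 * h := by rw [hen]; ring
  -- step B
  have eB : |∑ v ∈ vs n, h / 6 * ∑ y ∈ ZB n, ∑ y' ∈ ZB n,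
      la s n (st v (nbp n k v)) y * la s n (st v (nbm n k v)) y' *
      R5 s (cla (grp ((y : ℝ) / n)) (grp ((y' : ℝ) / n))) (am n v) (tm n y) (tm n y') τ -
      ∑ v ∈ vs n, h / 6 * ∑ y ∈ ZB n, ∑ y' ∈ ZB n,
      li s n (st v (nbp n k v)) y * li s n (st v (nbm n k v)) y' *
      R5 s (cla (grp ((y : ℝ) / n)) (grp ((y' : ℝ) / n))) (am n v) (tm n y) (tm n y') τ| ≤
      C2 * 60 * h := by
    rw [← Finset.sum_sub_distrib]
    refine (Finset.abs_sum_le_sum_abs _ _).trans ?_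
    have hb : ∀ v ∈ vs n, |h / 6 * ∑ y ∈ ZB n, ∑ y' ∈ ZB n,
      la s n (st v (nbp n k v)) y * la s n (st v (nbm n k v)) y' *
      R5 s (cla (grp ((y : ℝ) / n)) (grp ((y' : ℝ) / n))) (am n v) (tm n y) (tm n y') τ -
      h / 6 * ∑ y ∈ ZB n, ∑ y' ∈ ZB n,
      li s n (st v (nbp n k v)) y * li s n (st v (nbm n k v)) y' *
      R5 s (cla (grp ((y : ℝ) / n)) (grp ((y' : ℝ) / n))) (am n v) (tm n y) (tm n y') τ| ≤
      h / 6 * (C2 * 60 * h) := by
      intro v _
      rw [← mul_sub, abs_mul, abs_of_nonneg (by positivity : (0 : ℝ) ≤ h / 6)]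
      refine mul_le_mul_of_nonneg_left ?_ (by positivity)
      exact H2 n hn' s hs _ _ (fun y y' =>
        R5 s (cla (grp ((y : ℝ) / n)) (grp ((y' : ℝ) / n))) (am n v) (tm n y) (tm n y') τ) 60
        (fun y _ y' _ => R5_bd hs (cla_lt _ _) _ _ _ _)
    refine (Finset.sum_le_sum hb).trans ?_
    rw [Finset.sum_const, nsmul_eq_mul]
    have hc := card_vs n
    have : ((vs n).card : ℝ) * (h / 6 * (C2 * 60 * h)) ≤ n * (h / 6 * (C2 * 60 * h)) :=
      mul_le_mul_of_nonneg_right hc (by positivity)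
    refine this.trans (le_of_eq ?_)
    calc (n : ℝ) * (h / 6 * (C2 * 60 * h)) = (h * n) / 6 * (C2 * 60 * h) := by ring
      _ = C2 * 60 * h := by rw [hen]; ring
  -- step C
  have eC : ∑ v ∈ vs n, h / 6 * ∑ y ∈ ZB n, ∑ y' ∈ ZB n,
      li s n (st v (nbp n k v)) y * li s n (st v (nbm n k v)) y' *
      R5 s (cla (grp ((y : ℝ) / n)) (grp ((y' : ℝ) / n))) (am n v) (tm n y) (tm n y') τ =
      ∑ c ∈ range 3, ∑ e ∈ range 2, 1 / 6 * ∑ y ∈ ZB n, ∑ y' ∈ ZB n,
        li s n (be1 s c) y * li s n (be2 s c) y' * (h * ∑ v ∈ Vc n c e,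
          R5 s (cla (grp ((y : ℝ) / n)) (grp ((y' : ℝ) / n))) (am n v) (tm n y) (tm n y') τ) := by
    rw [vs_split]
    refine Finset.sum_congr rfl (fun c hc => Finset.sum_congr rfl (fun e he => ?_))
    have hc' := Finset.mem_range.1 hc
    have he' := Finset.mem_range.1 he
    calc ∑ v ∈ Vc n c e, h / 6 * ∑ y ∈ ZB n, ∑ y' ∈ ZB n,
          li s n (st v (nbp n k v)) y * li s n (st v (nbm n k v)) y' *
          R5 s (cla (grp ((y : ℝ) / n)) (grp ((y' : ℝ) / n))) (am n v) (tm n y) (tm n y') τ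
        = ∑ v ∈ Vc n c e, ∑ y ∈ ZB n, ∑ y' ∈ ZB n, h / 6 * (
          li s n (be1 s c) y * li s n (be2 s c) y' *
          R5 s (cla (grp ((y : ℝ) / n)) (grp ((y' : ℝ) / n))) (am n v) (tm n y) (tm n y') τ) := by
          refine Finset.sum_congr rfl (fun v hv => ?_)
          rw [Finset.mul_sum]
          refine Finset.sum_congr rfl (fun y _ => ?_)
          rw [Finset.mul_sum]
          refine Finset.sum_congr rfl (fun y' _ => ?_)
          rw [(hP c hc' e he' v hv y).1, (hP c hc' e he' v hv y').2]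
      _ = 1 / 6 * ∑ y ∈ ZB n, ∑ y' ∈ ZB n,
        li s n (be1 s c) y * li s n (be2 s c) y' * (h * ∑ v ∈ Vc n c e,
          R5 s (cla (grp ((y : ℝ) / n)) (grp ((y' : ℝ) / n))) (am n v) (tm n y) (tm n y') τ) := by
          rw [Finset.sum_comm, Finset.mul_sum]
          refine Finset.sum_congr rfl (fun y _ => ?_)
          rw [Finset.sum_comm, Finset.mul_sum]
          refine Finset.sum_congr rfl (fun y' _ => ?_)
          rw [Finset.mul_sum, Finset.mul_sum, Finset.mul_sum]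
          refine Finset.sum_congr rfl (fun v _ => ?_)
          ring
  -- step D
  have eD : |∑ c ∈ range 3, ∑ e ∈ range 2, 1 / 6 * ∑ y ∈ ZB n, ∑ y' ∈ ZB n,
        li s n (be1 s c) y * li s n (be2 s c) y' * (h * ∑ v ∈ Vc n c e,
          R5 s (cla (grp ((y : ℝ) / n)) (grp ((y' : ℝ) / n))) (am n v) (tm n y) (tm n y') τ) -
      ∑ c ∈ range 3, (1 / 3 : ℝ) * ∑ y ∈ ZB n, ∑ y' ∈ ZB n, li s n (be1 s c) y *
        li s n (be2 s c) y' * I5 s (cI (ci n y) (ci n y')) c (tm n y) (tm n y') τ| ≤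
      C3 * C4 ^ 2 * h := by
    have hsplit : ∑ c ∈ range 3, (1 / 3 : ℝ) * ∑ y ∈ ZB n, ∑ y' ∈ ZB n, li s n (be1 s c) y *
        li s n (be2 s c) y' * I5 s (cI (ci n y) (ci n y')) c (tm n y) (tm n y') τ =
        ∑ c ∈ range 3, ∑ _e ∈ range 2, (1 / 6 : ℝ) * ∑ y ∈ ZB n, ∑ y' ∈ ZB n, li s n (be1 s c) y *
        li s n (be2 s c) y' * I5 s (cI (ci n y) (ci n y')) c (tm n y) (tm n y') τ := by
      refine Finset.sum_congr rfl (fun c _ => ?_)
      rw [Finset.sum_const, Finset.card_range]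
      simp only [nsmul_eq_mul]
      push_cast
      ring
    rw [hsplit, ← Finset.sum_sub_distrib]
    refine (Finset.abs_sum_le_sum_abs _ _).trans ?_
    have hb : ∀ c ∈ range 3, |∑ e ∈ range 2, 1 / 6 * ∑ y ∈ ZB n, ∑ y' ∈ ZB n,
        li s n (be1 s c) y * li s n (be2 s c) y' * (h * ∑ v ∈ Vc n c e,
          R5 s (cla (grp ((y : ℝ) / n)) (grp ((y' : ℝ) / n))) (am n v) (tm n y) (tm n y') τ) -
        ∑ _e ∈ range 2, (1 / 6 : ℝ) * ∑ y ∈ ZB n, ∑ y' ∈ ZB n, li s n (be1 s c) y *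
        li s n (be2 s c) y' * I5 s (cI (ci n y) (ci n y')) c (tm n y) (tm n y') τ| ≤
        2 * (1 / 6 * (C3 * C4 ^ 2 * h)) := by
      intro c hc
      have hc' := Finset.mem_range.1 hc
      rw [← Finset.sum_sub_distrib]
      refine (Finset.abs_sum_le_sum_abs _ _).trans ?_
      have hb2 : ∀ e ∈ range 2, |1 / 6 * ∑ y ∈ ZB n, ∑ y' ∈ ZB n,
        li s n (be1 s c) y * li s n (be2 s c) y' * (h * ∑ v ∈ Vc n c e,
          R5 s (cla (grp ((y : ℝ) / n)) (grp ((y' : ℝ) / n))) (am n v) (tm n y) (tm n y') τ) -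
        (1 / 6 : ℝ) * ∑ y ∈ ZB n, ∑ y' ∈ ZB n, li s n (be1 s c) y *
        li s n (be2 s c) y' * I5 s (cI (ci n y) (ci n y')) c (tm n y) (tm n y') τ| ≤
        1 / 6 * (C3 * C4 ^ 2 * h) := by
        intro e he
        have he' := Finset.mem_range.1 he
        rw [← mul_sub, abs_mul, abs_of_nonneg (by norm_num : (0 : ℝ) ≤ 1 / 6)]
        refine mul_le_mul_of_nonneg_left ?_ (by norm_num)
        rw [← Finset.sum_sub_distrib]
        refine (Finset.abs_sum_le_sum_abs _ _).trans ?_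
        have hL1 := H4 n hn' s hs (be1 s c)
        have hL2 := H4 n hn' s hs (be2 s c)
        have hb3 : ∀ y ∈ ZB n, |∑ y' ∈ ZB n,
            li s n (be1 s c) y * li s n (be2 s c) y' * (h * ∑ v ∈ Vc n c e,
            R5 s (cla (grp ((y : ℝ) / n)) (grp ((y' : ℝ) / n))) (am n v) (tm n y) (tm n y') τ) -
            ∑ y' ∈ ZB n, li s n (be1 s c) y *
            li s n (be2 s c) y' * I5 s (cI (ci n y) (ci n y')) c (tm n y) (tm n y') τ| ≤
            li s n (be1 s c) y * (C4 * (C3 * h)) := by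
          intro y _
          rw [← Finset.sum_sub_distrib]
          refine (Finset.abs_sum_le_sum_abs _ _).trans ?_
          have hb4 : ∀ y' ∈ ZB n, |li s n (be1 s c) y * li s n (be2 s c) y' *
              (h * ∑ v ∈ Vc n c e,
              R5 s (cla (grp ((y : ℝ) / n)) (grp ((y' : ℝ) / n))) (am n v) (tm n y) (tm n y') τ) -
              li s n (be1 s c) y *
              li s n (be2 s c) y' * I5 s (cI (ci n y) (ci n y')) c (tm n y) (tm n y') τ| ≤
              li s n (be1 s c) y * li s n (be2 s c) y' * (C3 * h) := by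
            intro y' _
            have hl1 := hL1.linn y
            have hl2 := hL2.linn y'
            rw [← mul_sub, abs_mul, abs_of_nonneg (mul_nonneg hl1 hl2)]
            by_cases hy : y ∈ Icc (n : ℤ) (2 * n)
            · by_cases hy' : y' ∈ Icc (n : ℤ) (2 * n)
              · refine mul_le_mul_of_nonneg_left ?_ (mul_nonneg hl1 hl2)
                rw [cla_ci hn' hy hy']
                exact H3 n hn' s hs _ (c_facts _ (ci_lt n y) _ (ci_lt n y')).2 c hc' e he' _ _ _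
              · rw [li_out s _ hy']
                simp
            · rw [li_out s _ hy]
              simp
          refine (Finset.sum_le_sum hb4).trans ?_
          have : ∑ y' ∈ ZB n, li s n (be1 s c) y * li s n (be2 s c) y' * (C3 * h) =
              li s n (be1 s c) y * ((∑ y' ∈ ZB n, li s n (be2 s c) y') * (C3 * h)) := by
            rw [Finset.sum_mul, Finset.mul_sum]
            refine Finset.sum_congr rfl (fun y' _ => by ring)
          rw [this]
          refine mul_le_mul_of_nonneg_left ?_ (hL1.linn y)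
          exact mul_le_mul_of_nonneg_right hL2.lisum (by positivity)
        refine (Finset.sum_le_sum hb3).trans ?_
        rw [← Finset.sum_mul]
        refine (mul_le_mul_of_nonneg_right hL1.lisum (by positivity)).trans (le_of_eq ?_)
        ring
      refine (Finset.sum_le_sum hb2).trans (le_of_eq ?_)
      rw [Finset.sum_const, Finset.card_range]
      simp only [nsmul_eq_mul]
      push_cast
      ring
    refine (Finset.sum_le_sum hb).trans (le_of_eq ?_)
    rw [Finset.sum_const, Finset.card_range]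
    simp only [nsmul_eq_mul]
    push_cast
    ring
  have eE := H5 n hn' s hs τ
  rw [eC] at eB
  rw [abs_le] at eA eB eD eE ⊢
  constructor <;> linarith [eA.1, eA.2, eB.1, eB.2, eD.1, eD.2, eE.1, eE.2]

end Pool.Agent.PGo.K
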