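import Pool.Agent.PGo.KoRed
import Pool.Agent.PGo.KoLa
import Pool.Agent.PGo.KoDsv

/-!
# PGo-KoSp: the spokes of the black vertices

PLAN. `Ssp_red`. For `v ∈ vs n`, `d ≥ 1`: `∑ y ∈ ZB n, la true y 1[|y - an| = d] = la true (an + d) + la true (an - d)` (`la` vanishes outside `[n, 2n] ⊆ ZB n`), and
`an + d > 2 n` (`an ≥ 5 n / 2`), so it is `la true (an - d)`. Replace `la` by `li`: `∑ v |la (an v - d) - li (an v - d)| ≤ 2 C h`, because every value of `an n v` is attained at
most twice (`v / 2`), `LaP.lali`. `li s n true (an - d) = h / Wb * wv s true (am + 12 - h d)` (`li_wv`, `tm n (an n v - d) = am n v + 12 - h d`), `wv_eq`.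
`vs_split`; for each column `c`, parity `e` and cell `i`: `disc_Vc` with the order connected set `{a | a + (12 - h d) ∈ Ic i}` (`Ic_oc`) and `vol_cIc`: the volume is
`lam (c + 12 - τ - 3 - i) = lam (i - 9 + τ - c)` (`lam` is even), `τ = h d`. The two parities give the factor 2.
-/

noncomputable section

namespace Pool.Agent.PGo.K

open Finset Pool.Agent.PGr PGrK

private theorem wb_pos (s : ℕ) : (0 : ℝ) < WbI s := by
  have : 0 < WbI s := by unfold WbI; split_ifs <;> norm_num
  exact_mod_cast this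

private theorem lam_neg (x : ℝ) : lam (-x) = lam x := by
  unfold lam
  rw [abs_neg]

private theorem one_v {n : ℕ} (hn : 1 ≤ n) {s : ℕ} {C : ℝ} (hL : LaP C s n true) {d : ℤ}
    (hd : 1 ≤ d) {v : ℕ} (hv : v ∈ vs n) :
    ∑ y ∈ ZB n, la s n true y * (if |y - an n v| = d then 1 else 0) =
      la s n true (an n v - d) := by
  have hvn : v < n := Finset.mem_range.1 (Finset.mem_filter.1 hv).1
  have han : 2 * (n : ℤ) < an n v := by
    unfold an
    have : v / 2 < n := by omega
    have h2 : ((v / 2 : ℕ) : ℤ) < n := by exact_mod_cast this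
    linarith
  have e1 : ∀ y ∈ ZB n, la s n true y * (if |y - an n v| = d then (1 : ℝ) else 0) =
      if y = an n v - d then la s n true y else 0 := by
    intro y _
    by_cases h : y = an n v - d
    · rw [if_pos h, if_pos]
      · ring
      · rw [h]
        rw [abs_of_nonpos (by linarith)]
        ring
    · rw [if_neg h]
      by_cases h2 : |y - an n v| = d
      · have h3 : y = an n v + d := by
          rcases abs_eq (by linarith : (0 : ℤ) ≤ d) |>.1 h2 with h4 | h4
          · linarith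
          · exact absurd (by linarith) h
        have : y ∉ Icc (n : ℤ) (2 * n) := by
          rw [Finset.mem_Icc]
          rintro ⟨_, h5⟩
          linarith
        rw [hL.supp y this]
        ring
      · rw [if_neg h2]
        ring
  rw [Finset.sum_congr rfl e1, Finset.sum_ite_eq']
  split_ifs with h
  · rfl
  · symm
    apply hL.supp
    intro h2
    exact h (Icc_ZB hn h2)

private theorem inj_sum {n c e : ℕ} {d : ℤ} {f : ℤ → ℝ} (h0 : ∀ y, 0 ≤ f y)
    (h1 : ∀ y, y ∉ ZB n → f y = 0) :
    ∑ v ∈ Vc n c e, f (an n v - d) ≤ ∑ y ∈ ZB n, f y := by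
  have hinj : ∀ v ∈ Vc n c e, ∀ w ∈ Vc n c e, an n v - d = an n w - d → v = w := by
    intro v hv w hw h
    have hv2 := (Finset.mem_filter.1 hv).2.1
    have hw2 := (Finset.mem_filter.1 hw).2.1
    unfold an at h
    omega
  calc ∑ v ∈ Vc n c e, f (an n v - d) = ∑ y ∈ (Vc n c e).image (fun v => an n v - d), f y := by
        rw [Finset.sum_image]
        intro v hv w hw h
        exact hinj v hv w hw h
    _ = ∑ y ∈ ((Vc n c e).image (fun v => an n v - d)).filter (fun y => y ∈ ZB n), f y := by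
        rw [Finset.sum_filter]
        refine Finset.sum_congr rfl (fun y _ => ?_)
        split_ifs with h
        · rfl
        · exact h1 y h
    _ ≤ ∑ y ∈ ZB n, f y := by
        refine Finset.sum_le_sum_of_subset_of_nonneg ?_ (fun y _ _ => h0 y)
        intro y hy
        exact (Finset.mem_filter.1 hy).2

private theorem col_li : ∃ C : ℝ, 0 < C ∧ ∀ n : ℕ, 1 ≤ n → ∀ s < 4, ∀ d : ℤ, ∀ c < 3, ∀ e < 2,
    |∑ v ∈ Vc n c e, li s n true (an n v - d) -
      1 / (WbI s : ℝ) * ∑ i ∈ range 6, (wB s true i : ℝ) * lam ((i : ℝ) - 9 + eh n * d - c)| ≤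
        C * eh n := by
  refine ⟨10, by norm_num, ?_⟩
  intro n hn s hs d c hc e he
  obtain ⟨he0, he6, hen⟩ := eh_pos hn
  have hW := wb_pos s
  set x : ℝ := 12 - eh n * d with hx
  have htm : ∀ v : ℕ, tm n (an n v - d) = am n v + x := by
    intro v
    unfold tm an am
    have hc : ((((v / 2 : ℕ) : ℤ)) : ℝ) = ((v / 2 : ℕ) : ℝ) := by norm_cast
    rw [Int.cast_sub, Int.cast_sub, Int.cast_mul, hc]
    push_cast
    linear_combination 3 * hen
  have e1 : ∑ v ∈ Vc n c e, li s n true (an n v - d) =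
      1 / (WbI s : ℝ) * ∑ i ∈ range 6, (wB s true i : ℝ) *
        (eh n * ∑ v ∈ Vc n c e, ({a | a + x ∈ Ic i} : Set ℝ).indicator (fun _ => (1 : ℝ)) (am n v)) := by
    have : ∀ v ∈ Vc n c e, li s n true (an n v - d) = ∑ i ∈ range 6, 1 / (WbI s : ℝ) *
        ((wB s true i : ℝ) * (eh n *
          ({a | a + x ∈ Ic i} : Set ℝ).indicator (fun _ => (1 : ℝ)) (am n v))) := by
      intro v _
      rw [li_wv hn, htm, wv_eq, Finset.mul_sum]
      refine Finset.sum_congr rfl (fun i _ => ?_)
      have : (Ic i).indicator (fun _ => (1 : ℝ)) (am n v + x) =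
          ({a | a + x ∈ Ic i} : Set ℝ).indicator (fun _ => (1 : ℝ)) (am n v) := by
        by_cases h : am n v + x ∈ Ic i
        · rw [Set.indicator_of_mem h, Set.indicator_of_mem]
          exact h
        · rw [Set.indicator_of_notMem h, Set.indicator_of_notMem]
          exact h
      rw [this]
      ring
    rw [Finset.sum_congr rfl this, Finset.sum_comm, Finset.mul_sum]
    refine Finset.sum_congr rfl (fun i _ => ?_)
    rw [← Finset.mul_sum, ← Finset.mul_sum, ← Finset.mul_sum]
  have e2 : ∀ i ∈ range 6, |(wB s true i : ℝ) *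
        (eh n * ∑ v ∈ Vc n c e, ({a | a + x ∈ Ic i} : Set ℝ).indicator (fun _ => (1 : ℝ)) (am n v)) -
        (wB s true i : ℝ) * lam ((i : ℝ) - 9 + eh n * d - c)| ≤
        (wB s true i : ℝ) * (10 * eh n) := by
    intro i hi
    have hi' := Finset.mem_range.1 hi
    have hw : (0 : ℝ) ≤ wB s true i := by
      have := (wB_pos s hs true i hi').1
      have h0 : (0 : ℤ) ≤ wB s true i := by omega
      exact_mod_cast h0
    rw [← mul_sub, abs_mul, abs_of_nonneg hw]
    refine mul_le_mul_of_nonneg_left ?_ hw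
    have hoc : ({a | a + x ∈ Ic i} : Set ℝ).OrdConnected := by
      have hm : Monotone (fun a : ℝ => a + x) := fun a b hab => by
        simp only
        linarith
      exact (Ic_oc i).preimage_mono hm
    have hd := disc_Vc hn hc he _ hoc
    rw [vol_cIc hi' (c : ℝ) x, one_mul] at hd
    have hl : lam ((c : ℝ) + x - 3 - i) = lam ((i : ℝ) - 9 + eh n * d - c) := by
      rw [← lam_neg]
      congr 1
      rw [hx]
      ring
    rw [hl] at hd
    exact hd
  rw [e1, ← mul_sub, abs_mul, abs_of_pos (by positivity), ← Finset.sum_sub_distrib]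
  have h3 := (Finset.abs_sum_le_sum_abs _ _).trans (Finset.sum_le_sum e2)
  rw [← Finset.sum_mul] at h3
  have h4 : (∑ i ∈ range 6, (wB s true i : ℝ)) = WbI s := by exact_mod_cast wB_sum s hs true
  rw [h4] at h3
  have h5 := mul_le_mul_of_nonneg_left h3 (by positivity : (0 : ℝ) ≤ 1 / (WbI s : ℝ))
  refine h5.trans (le_of_eq ?_)
  field_simp

theorem Sp_lim : ∃ C : ℝ, 0 < C ∧ ∀ n : ℕ, 1 ≤ n → ∀ s < 4, ∀ d : ℤ, 1 ≤ d →
    |Ssp s n d - SpL s (eh n * d)| ≤ C * eh n := by
  obtain ⟨C1, hC1, H1⟩ := la_props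
  obtain ⟨C2, hC2, H2⟩ := col_li
  refine ⟨6 * C1 + 6 * C2, by positivity, ?_⟩
  intro n hn s hs d hd
  obtain ⟨he0, he6, hen⟩ := eh_pos hn
  have hL := H1 n hn s hs true
  have hW := wb_pos s
  have e1 : Ssp s n d = ∑ c ∈ range 3, ∑ e ∈ range 2, ∑ v ∈ Vc n c e,
      la s n true (an n v - d) := by
    rw [Ssp_red hn, ← vs_split]
    exact Finset.sum_congr rfl (fun v hv => one_v hn hL hd hv)
  have e2 : SpL s (eh n * d) = ∑ c ∈ range 3, ∑ _e ∈ range 2,
      1 / (WbI s : ℝ) * ∑ i ∈ range 6, (wB s true i : ℝ) *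
        lam ((i : ℝ) - 9 + eh n * d - c) := by
    unfold SpL
    rw [Finset.sum_comm, Finset.mul_sum]
    refine Finset.sum_congr rfl (fun c _ => ?_)
    rw [Finset.sum_const, Finset.card_range]
    simp only [nsmul_eq_mul]
    push_cast
    ring
  rw [e1, e2, ← Finset.sum_sub_distrib]
  refine (Finset.abs_sum_le_sum_abs _ _).trans ?_
  have hb : ∀ c ∈ range 3, |∑ e ∈ range 2, ∑ v ∈ Vc n c e, la s n true (an n v - d) -
      ∑ _e ∈ range 2, 1 / (WbI s : ℝ) * ∑ i ∈ range 6, (wB s true i : ℝ) *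
        lam ((i : ℝ) - 9 + eh n * d - c)| ≤ 2 * ((C1 + C2) * eh n) := by
    intro c hc
    rw [← Finset.sum_sub_distrib]
    refine (Finset.abs_sum_le_sum_abs _ _).trans ?_
    have hb2 : ∀ e ∈ range 2, |∑ v ∈ Vc n c e, la s n true (an n v - d) -
        1 / (WbI s : ℝ) * ∑ i ∈ range 6, (wB s true i : ℝ) *
        lam ((i : ℝ) - 9 + eh n * d - c)| ≤ (C1 + C2) * eh n := by
      intro e he
      have h2 := H2 n hn s hs d c (Finset.mem_range.1 hc) e (Finset.mem_range.1 he)
      have h1 : |∑ v ∈ Vc n c e, la s n true (an n v - d) -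
          ∑ v ∈ Vc n c e, li s n true (an n v - d)| ≤ C1 * eh n := by
        rw [← Finset.sum_sub_distrib]
        refine (Finset.abs_sum_le_sum_abs _ _).trans ?_
        refine (inj_sum (f := fun y => |la s n true y - li s n true y|)
          (fun y => abs_nonneg _) ?_).trans hL.lali
        intro y hy
        have hy' : y ∉ Icc (n : ℤ) (2 * n) := fun h => hy (Icc_ZB hn h)
        rw [hL.supp y hy']
        unfold li
        rw [if_neg hy']
        simp
      rw [abs_le] at h1 h2 ⊢
      constructor <;> linarith [h1.1, h1.2, h2.1, h2.2]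
    refine (Finset.sum_le_sum hb2).trans (le_of_eq ?_)
    rw [Finset.sum_const, Finset.card_range]
    simp only [nsmul_eq_mul]
    push_cast
    ring
  refine (Finset.sum_le_sum hb).trans (le_of_eq ?_)
  rw [Finset.sum_const, Finset.card_range]
  simp only [nsmul_eq_mul]
  push_cast
  ring

end Pool.Agent.PGo.K
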