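import Pool.Agent.PGo.KoBas
import Pool.Agent.PGo.KoSk
import Pool.Agent.PGo.KoSp
import Pool.Agent.PGo.KoIn
import Pool.Agent.PGo.KoLb
import Pool.Agent.PGo.KoLk
import Pool.Agent.PGo.KoPt
import Pool.Agent.PGo.KoId
import Pool.Agent.PGo.KoCap

/-!
# PGo-KoFin: the density statements
-/

noncomputable section

namespace Pool.Agent.PGo

open Finset Pool.Agent.PGr PGrK K

namespace K

theorem tm_ZB {n : ℕ} (hn : 1 ≤ n) {z : ℤ} (hz : z ∈ ZB n) : 0 < tm n z ∧ tm n z < 12 := by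
  obtain ⟨he0, _, hen⟩ := eh_pos hn
  unfold ZB at hz
  rw [Finset.mem_filter] at hz
  obtain ⟨_, h1, h2⟩ := hz
  have h1' : (n : ℝ) < 2 * z := by exact_mod_cast h1
  have h2' : 2 * (z : ℝ) < 5 * n := by exact_mod_cast h2
  unfold tm
  constructor <;> nlinarith [hen, he0, h1', h2']

/-- coefficients of the inner edges -/
def bI (s : ℕ) : ℝ := if s = 0 then 0 else 1

theorem KD_all : ∀ ε : ℝ, 0 < ε → ∃ n0 : ℕ, ∀ n : ℕ, n0 ≤ n → ∀ s < 4, ∀ k : ℕ, Ptn s n k →
    KD s (abI s) (bI s) (muI s) (RI s) ε n k := by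
  obtain ⟨C1, n1, hC1, hn1, H1⟩ := Sk_lim
  obtain ⟨C2, hC2, H2⟩ := Sp_lim
  obtain ⟨C3, hC3, H3⟩ := In_lim
  obtain ⟨C4, hC4, H4⟩ := Ll_lim
  obtain ⟨C5, n5, hC5, hn5, H5⟩ := Lk_lim
  intro ε hε
  set D : ℝ := 3 * C2 + C3 + 2 * C1 + 3 * C4 + 2 * C5 with hD
  have hDpos : 0 < D := by positivity
  obtain ⟨m, hm⟩ := exists_nat_gt (6 * D / ε)
  refine ⟨max (max n1 n5) (m + 1), ?_⟩
  intro n hn s hs k hP
  have hnn1 : n1 ≤ n := le_trans (le_max_left _ _) (le_trans (le_max_left _ _) hn)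
  have hnn5 : n5 ≤ n := le_trans (le_max_right _ _) (le_trans (le_max_left _ _) hn)
  have hnm : m + 1 ≤ n := le_trans (le_max_right _ _) hn
  have hn' : 1 ≤ n := hn1.trans hnn1
  obtain ⟨he0, he6, hen⟩ := eh_pos hn'
  have hDe : D * eh n ≤ ε := by
    have hnR : (m : ℝ) < n := by
      have : m < n := by omega
      exact_mod_cast this
    have h1 : 6 * D / ε < n := hm.trans hnR
    have h2 : 6 * D < ε * n := by
      rw [div_lt_iff₀ hε] at h1
      linarith
    have hn0 : (0 : ℝ) < n := by exact_mod_cast hn'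
    unfold eh
    rw [mul_div_assoc', div_le_iff₀ hn0]
    linarith
  have ha0 : (0 : ℝ) ≤ abI s ∧ (abI s : ℝ) ≤ 3 := by
    have : 0 ≤ abI s ∧ abI s ≤ 3 := by
      unfold abI
      split_ifs <;> norm_num
    exact ⟨by exact_mod_cast this.1, by exact_mod_cast this.2⟩
  have hm0 : (0 : ℝ) ≤ muI s ∧ (muI s : ℝ) ≤ 2 := by
    have : 0 ≤ muI s ∧ muI s ≤ 2 := by
      unfold muI
      split_ifs <;> norm_num
    exact ⟨by exact_mod_cast this.1, by exact_mod_cast this.2⟩
  have hb0 : 0 ≤ bI s ∧ bI s ≤ 1 := by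
    unfold bI
    split_ifs <;> norm_num
  have hR0 : (0 : ℝ) ≤ RI s := by
    have : 0 ≤ RI s := by
      unfold RI
      split_ifs <;> norm_num
    exact_mod_cast this
  have hc1 : 0 < C1 * eh n := by positivity
  have hc2 : 0 < C2 * eh n := by positivity
  have hc3 : 0 < C3 * eh n := by positivity
  have hc4 : 0 < C4 * eh n := by positivity
  have hc5 : 0 < C5 * eh n := by positivity
  have hDx : D * eh n = 3 * (C2 * eh n) + C3 * eh n + 2 * (C1 * eh n) + 3 * (C4 * eh n) +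
      2 * (C5 * eh n) := by
    rw [hD]; ring
  constructor
  · intro d hd hd2
    have h1 := H1 n hnn1 s hs k hP d hd
    have h2 := H2 n hn' s hs d hd
    have h3 := H3 n hn' s hs k hP d hd
    have hdR : (1 : ℝ) ≤ d := by exact_mod_cast hd
    have hdR2 : (d : ℝ) ≤ 2 * n := by exact_mod_cast hd2
    have hτ0 : 0 < eh n * d := by positivity
    have hτ12 : eh n * d ≤ 12 := by nlinarith
    have hid := ident hs hτ0 hτ12
    have hbid : (if s = 0 then 0 else InL s (eh n * d)) = bI s * InL s (eh n * d) := by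
      unfold bI
      split_ifs <;> simp
    rw [hbid] at hid
    have t1 : |(abI s : ℝ) * (Ssp s n d - SpL s (eh n * d))| ≤ 3 * (C2 * eh n) := by
      rw [abs_mul, abs_of_nonneg ha0.1]
      exact mul_le_mul ha0.2 h2 (abs_nonneg _) (by norm_num)
    have t2 : |bI s * (Sin s n k d - InL s (eh n * d))| ≤ 1 * (C3 * eh n) := by
      rw [abs_mul, abs_of_nonneg hb0.1]
      exact mul_le_mul hb0.2 h3 (abs_nonneg _) (by norm_num)
    have t3 : |(muI s : ℝ) * (Sk s n k d - SkL s (eh n * d))| ≤ 2 * (C1 * eh n) := by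
      rw [abs_mul, abs_of_nonneg hm0.1]
      exact mul_le_mul hm0.2 h1 (abs_nonneg _) (by norm_num)
    rw [abs_le] at t1 t2 t3 ⊢
    constructor <;> nlinarith [t1.1, t1.2, t2.1, t2.2, t3.1, t3.2, hid]
  · intro z
    by_cases hz : z ∈ ZB n
    · have h4 := H4 n hn' s hs z
      have h5 := H5 n hnn5 s hs k hP z
      obtain ⟨ht0, ht12⟩ := tm_ZB hn' hz
      have hcap := cap_t hs ht0 ht12
      have t1 : (abI s : ℝ) * Ll s n z ≤ (abI s : ℝ) * (3 / (WbI s : ℝ) *
          (wv s true (tm n z) + wv s true (12 - tm n z))) + 3 * (C4 * eh n) := by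
        have := mul_le_mul_of_nonneg_left h4 ha0.1
        rw [mul_add] at this
        have h6 : (abI s : ℝ) * (C4 * eh n) ≤ 3 * (C4 * eh n) :=
          mul_le_mul_of_nonneg_right ha0.2 hc4.le
        linarith
      have t2 : (muI s : ℝ) * Lk s n k z ≤ (muI s : ℝ) * (1 / (6 * (WtI s : ℝ)) *
          ∑ i ∈ range 6, (HH s i (tm n z) + HH s i (12 - tm n z))) + 2 * (C5 * eh n) := by
        have := mul_le_mul_of_nonneg_left h5 hm0.1
        rw [mul_add] at this
        have h6 : (muI s : ℝ) * (C5 * eh n) ≤ 2 * (C5 * eh n) :=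
          mul_le_mul_of_nonneg_right hm0.2 hc5.le
        linarith
      linarith
    · rw [Ll_out hn' s hz, Lk_out hn' s k hz]
      have : (0 : ℝ) ≤ 24 / 25 * (RI s : ℝ) := by positivity
      linarith

end K

theorem ko01 : Ko01 := by
  intro ε hε
  obtain ⟨n0, H⟩ := KD_all ε hε
  refine ⟨n0, ?_⟩
  intro n k hn _ _
  have h0 := H n hn 0 (by norm_num) k (Ptn01 (by norm_num) n k)
  have h1 := H n hn 1 (by norm_num) k (Ptn01 (by norm_num) n k)
  constructor
  · simpa [abI, bI, muI, RI] using h0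
  · simpa [abI, bI, muI, RI] using h1

theorem ko23 : Ko23 := by
  intro ε hε
  obtain ⟨n0, H⟩ := KD_all ε hε
  refine ⟨n0, ?_⟩
  intro g hg
  constructor
  · intro he
    have h := H (3 * g) (by omega) 2 (by norm_num) g (Ptn2 he)
    simpa [abI, bI, muI, RI] using h
  · intro ho
    have h := H (3 * g) (by omega) 3 (by norm_num) g (Ptn3 ho)
    simpa [abI, bI, muI, RI] using h

end Pool.Agent.PGo
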