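import Pool.Agent.PGo.WVx

/-!
# PGo-WBas: size of the weights

PLAN. Every factor of `Wt` is between `0` and `C / n` (`kb`, `good_vs`, `good_vx`), so `0 ≤ Wt ≤ (C/n)^L`
(`Finset.prod_nonneg`, `Finset.prod_le_prod`), and `WW` is an average.
`WW_low`: `x ∈ box`. Choose `i` with `rot i 2 = j` (`i = (j + L - 2) % L`): all labels except the one at role `2` of
the rotated cycle are in `[n, 2n]`. Factors: black roles: `kb.lw_low`; items: `kb.kc_low`, for the roles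
other than `2`: the label is in `[n,2n]` and `0 ≤ anc ≤ 3n` (for `v < n`), so `|x - anc| ≤ 2n`; for the role `2`
by hypothesis (`vx_rot`). So `Wt ≥ (c/n)^L` for this `i`, and `WW ≥ (1/L) (c/n)^L`.
`tS_le` etc.: there are at most two `y` with `|y - a| = d`, each has `lwo y ≤ C/n`; the other sums are
averages (`lw_sum`).
-/

noncomputable section

namespace Pool.Agent.PGo

open Finset Pool.Agent.PGr

/-! ## Auxiliary facts -/

private theorem rot_inj {L : ℕ} (i a b : Fin L) (h : rot i a = rot i b) : a = b := by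
  have h1 : (i.1 + a.1) % L = (i.1 + b.1) % L := congrArg Fin.val h
  have h2 : i.1 + a.1 ≡ i.1 + b.1 [MOD L] := h1
  have h3 : a.1 ≡ b.1 [MOD L] := Nat.ModEq.add_left_cancel' i.1 h2
  have h4 : a.1 % L = b.1 % L := h3
  rw [Nat.mod_eq_of_lt a.2, Nat.mod_eq_of_lt b.2] at h4
  exact Fin.ext h4

private theorem anc_bd {n v : ℕ} (hv : v < n) : 0 ≤ anc n v ∧ anc n v ≤ 3 * (n : ℤ) := by
  unfold anc
  split_ifs <;> omega

private theorem two_pts (S : Finset ℤ) (f : ℤ → ℝ) (M : ℝ) (hM : 0 ≤ M) (h1 : ∀ y, f y ≤ M)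
    (a d : ℤ) : ∑ y ∈ S, f y * (if |y - a| = d then 1 else 0) ≤ 2 * M := by
  have e1 : ∀ y, f y * (if |y - a| = d then (1 : ℝ) else 0) = if |y - a| = d then f y else 0 := by
    intro y
    split_ifs
    · rw [mul_one]
    · rw [mul_zero]
  simp only [e1]
  rw [← Finset.sum_filter]
  have e2 : (S.filter (fun y => |y - a| = d)).card ≤ 2 := by
    refine le_trans (Finset.card_le_card (t := {a + d, a - d}) ?_) Finset.card_le_two
    intro y hy
    rw [Finset.mem_filter] at hy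
    rw [Finset.mem_insert, Finset.mem_singleton]
    rcases abs_cases (y - a) with ⟨h2, _⟩ | ⟨h2, _⟩ <;> omega
  calc ∑ y ∈ S.filter (fun y => |y - a| = d), f y
      ≤ (S.filter (fun y => |y - a| = d)).card • M :=
        Finset.sum_le_card_nsmul _ _ _ fun y _ => h1 y
    _ = ((S.filter (fun y => |y - a| = d)).card : ℝ) * M := nsmul_eq_mul _ _
    _ ≤ 2 * M := by
        apply mul_le_mul_of_nonneg_right _ hM
        exact_mod_cast e2

private theorem pts_nonneg (S : Finset ℤ) (f : ℤ → ℝ) (h0 : ∀ y, 0 ≤ f y) (p : ℤ → Prop)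
    [DecidablePred p] : 0 ≤ ∑ y ∈ S, f y * (if p y then 1 else 0) := by
  refine Finset.sum_nonneg fun y _ => mul_nonneg (h0 y) ?_
  split_ifs <;> norm_num

private theorem avg1 (S : Finset ℤ) (p : ℤ → ℝ) (hp : ∀ y, 0 ≤ p y) (hp1 : ∑ y ∈ S, p y = 1)
    (F : ℤ → ℝ) (M : ℝ) (hF0 : ∀ y, 0 ≤ F y) (hF : ∀ y, F y ≤ M) :
    0 ≤ ∑ y ∈ S, p y * F y ∧ ∑ y ∈ S, p y * F y ≤ M := by
  refine ⟨Finset.sum_nonneg fun y _ => mul_nonneg (hp y) (hF0 y), ?_⟩
  calc ∑ y ∈ S, p y * F y ≤ ∑ y ∈ S, p y * M :=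
        Finset.sum_le_sum fun y _ => mul_le_mul_of_nonneg_left (hF y) (hp y)
    _ = M := by rw [← Finset.sum_mul, hp1, one_mul]

private theorem avg2 (S : Finset ℤ) (p q : ℤ → ℝ) (hp : ∀ y, 0 ≤ p y) (hq : ∀ y, 0 ≤ q y)
    (hp1 : ∑ y ∈ S, p y = 1) (hq1 : ∑ y ∈ S, q y = 1)
    (F : ℤ → ℤ → ℝ) (M : ℝ) (hF0 : ∀ y y', 0 ≤ F y y') (hF : ∀ y y', F y y' ≤ M) :
    0 ≤ ∑ y ∈ S, ∑ y' ∈ S, p y * q y' * F y y' ∧
      ∑ y ∈ S, ∑ y' ∈ S, p y * q y' * F y y' ≤ M := by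
  have e1 : ∀ y, ∑ y' ∈ S, p y * q y' * F y y' = p y * ∑ y' ∈ S, q y' * F y y' := by
    intro y
    rw [Finset.mul_sum]
    exact Finset.sum_congr rfl fun y' _ => by ring
  simp only [e1]
  have e2 := fun y => avg1 S q hq hq1 (fun y' => F y y') M (hF0 y) (hF y)
  exact avg1 S p hp hp1 (fun y => ∑ y' ∈ S, q y' * F y y') M (fun y => (e2 y).1)
    (fun y => (e2 y).2)

namespace Par

variable {P : Par} {C c : ℝ} {s : ℕ} {σ : ℕ → ℕ}

private theorem Wt_bd (hA : Adm P.L P.p) (hg : 1 ≤ P.g) (kb : KoBasic C c P.n)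
    (hσ : ∀ j, σ j < 4) {m : ℕ} (hm : P.good m) (x : Fin P.L → ℤ) :
    0 ≤ P.Wt s σ m x ∧ P.Wt s σ m x ≤ (C / P.n) ^ P.L := by
  have hf : ∀ j : Fin P.L, 0 ≤ facA P.BW nxt prv (fun j y => lwo s P.n (P.vx m j) y)
      (fun j y y' z => kco (σ j) P.n (P.vx m j) y y' z) x j ∧
      facA P.BW nxt prv (fun j y => lwo s P.n (P.vx m j) y)
      (fun j y y' z => kco (σ j) P.n (P.vx m j) y y' z) x j ≤ C / P.n := by
    intro j
    unfold facA
    split_ifs with hj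
    · exact ⟨kb.lw_nonneg _ _ _, kb.lw_le _ _ _⟩
    · have hv := good_vs hA hg hm j
      exact ⟨kb.kc_nonneg _ (hσ j) _ hv _ _ _, kb.kc_le _ (hσ j) _ hv _ _ _⟩
  unfold Wt
  refine ⟨Finset.prod_nonneg fun j _ => (hf j).1, ?_⟩
  refine le_trans (Finset.prod_le_prod (fun j _ => (hf j).1) fun j _ => (hf j).2) ?_
  rw [Finset.prod_const, Finset.card_univ, Fintype.card_fin]

theorem WW_nonneg (hA : Adm P.L P.p) (hg : 1 ≤ P.g) (kb : KoBasic C c P.n) (hσ : ∀ j, σ j < 4)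
    (r : ℕ) (x : Fin P.L → ℤ) : 0 ≤ P.WW s σ r x := by
  unfold WW
  split_ifs with h
  · refine mul_nonneg (by positivity) (Finset.sum_nonneg fun i _ => ?_)
    exact (Wt_bd hA hg kb hσ ((good_vx r i).2 h.2.1) _).1
  · exact le_rfl

theorem WW_le (hA : Adm P.L P.p) (hg : 1 ≤ P.g) (kb : KoBasic C c P.n) (hσ : ∀ j, σ j < 4)
    (hC : 0 < C) (r : ℕ) (x : Fin P.L → ℤ) : P.WW s σ r x ≤ C ^ P.L / (P.n : ℝ) ^ P.L := by
  have hL : (0 : ℝ) < P.L := by
    have := hA.three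
    exact_mod_cast (by omega : 0 < P.L)
  unfold WW
  split_ifs with h
  · have h1 : ∑ i : Fin P.L, P.Wt s σ (P.vx r i) (fun j => x (rot i j)) ≤
        (P.L : ℝ) * (C / P.n) ^ P.L := by
      refine le_trans (Finset.sum_le_card_nsmul _ _ ((C / P.n) ^ P.L) fun i _ =>
        (Wt_bd hA hg kb hσ ((good_vx r i).2 h.2.1) _).2) ?_
      rw [Finset.card_univ, Fintype.card_fin, nsmul_eq_mul]
    rw [← div_pow]
    calc (1 / (P.L : ℝ)) * ∑ i : Fin P.L, P.Wt s σ (P.vx r i) (fun j => x (rot i j))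
        ≤ (1 / (P.L : ℝ)) * ((P.L : ℝ) * (C / P.n) ^ P.L) :=
          mul_le_mul_of_nonneg_left h1 (by positivity)
      _ = (C / P.n) ^ P.L := by
          rw [← mul_assoc, one_div, inv_mul_cancel₀ hL.ne', one_mul]
  · positivity

theorem WW_low (hA : Adm P.L P.p) (hg : 1 ≤ P.g) (kb : KoBasic C c P.n) (hσ : ∀ j, σ j < 4)
    (hc : 0 < c) {r : ℕ} (hr : r < P.g) (hgood : P.good r) {x : Fin P.L → ℤ} (hx : x ∈ P.box)
    (j : Fin P.L) (h1 : ∀ i, i ≠ j → (P.n : ℤ) ≤ x i ∧ x i ≤ 2 * P.n)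
    (h2 : |x j - anc P.n (P.vx r j)| ≤ 2 * (P.n : ℤ)) :
    (c ^ P.L / P.L) / (P.n : ℝ) ^ P.L ≤ P.WW s σ r x := by
  have hL3 := hA.three
  have hL : (0 : ℝ) < P.L := by exact_mod_cast (by omega : 0 < P.L)
  have hxZ : ∀ i, x i ∈ ZB P.n := by
    intro i
    exact Fintype.mem_piFinset.1 hx i
  obtain ⟨i0, hi0⟩ : ∃ i0 : Fin P.L, rot i0 ⟨2, by omega⟩ = j := by
    refine ⟨⟨(j.1 + (P.L - 2)) % P.L, Nat.mod_lt _ (by omega)⟩, ?_⟩
    apply Fin.ext
    show ((j.1 + (P.L - 2)) % P.L + 2) % P.L = j.1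
    rw [Nat.mod_add_mod, add_assoc, Nat.sub_add_cancel (by omega : 2 ≤ P.L), Nat.add_mod_right,
      Nat.mod_eq_of_lt j.2]
  have hgi : ∀ i : Fin P.L, P.good (P.vx r i) := fun i => (good_vx r i).2 hgood
  have hWt : (c / P.n) ^ P.L ≤ P.Wt s σ (P.vx r i0) (fun j => x (rot i0 j)) := by
    have hcn : 0 ≤ c / (P.n : ℝ) := by positivity
    unfold Wt
    have e1 : (c / (P.n : ℝ)) ^ P.L = ∏ _j : Fin P.L, c / (P.n : ℝ) := by
      rw [Finset.prod_const, Finset.card_univ, Fintype.card_fin]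
    rw [e1]
    refine Finset.prod_le_prod (fun _ _ => hcn) fun j' _ => ?_
    have hv := good_vs hA hg (hgi i0) j'
    have hvr : P.vx (P.vx r i0) j' = P.vx r (rot i0 j') := vx_rot r i0 j'
    by_cases h3 : rot i0 j' = j
    · have h4 : j' = ⟨2, by omega⟩ := rot_inj i0 _ _ (h3.trans hi0.symm)
      have h5 : j' ∉ P.BW := by
        unfold BW
        rw [Finset.mem_filter, h4]
        simp
      unfold facA
      rw [if_neg h5]
      refine kb.kc_low _ (hσ j') _ hv _ _ _ (hxZ _) ?_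
      show |x (rot i0 j') - anc P.n (P.vx (P.vx r i0) j')| ≤ 2 * (P.n : ℤ)
      rw [hvr, h3]
      exact h2
    · obtain ⟨l1, l2⟩ := h1 _ h3
      unfold facA
      split_ifs with h5
      · exact kb.lw_low _ _ _ l1 l2
      · refine kb.kc_low _ (hσ j') _ hv _ _ _ (hxZ _) ?_
        have hvn : P.vx (P.vx r i0) j' < P.n := vx_ltW hA hg _ _
        obtain ⟨a1, a2⟩ := anc_bd hvn
        show |x (rot i0 j') - anc P.n (P.vx (P.vx r i0) j')| ≤ 2 * (P.n : ℤ)
        rw [abs_le]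
        constructor <;> omega
  have hsum : P.Wt s σ (P.vx r i0) (fun j => x (rot i0 j)) ≤
      ∑ i : Fin P.L, P.Wt s σ (P.vx r i) (fun j => x (rot i j)) :=
    Finset.single_le_sum (f := fun i : Fin P.L => P.Wt s σ (P.vx r i) (fun j => x (rot i j)))
      (fun i _ => (Wt_bd hA hg kb hσ (hgi i) _).1) (Finset.mem_univ i0)
  unfold WW
  rw [if_pos ⟨hr, hgood, hx⟩]
  calc (c ^ P.L / P.L) / (P.n : ℝ) ^ P.L = (1 / (P.L : ℝ)) * (c / P.n) ^ P.L := by
        rw [div_pow]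
        ring
    _ ≤ (1 / (P.L : ℝ)) * ∑ i : Fin P.L, P.Wt s σ (P.vx r i) (fun j => x (rot i j)) :=
        mul_le_mul_of_nonneg_left (hWt.trans hsum) (by positivity)

end Par

/-! ## Bounds of the terms -/

section

variable {C c : ℝ} {n : ℕ} (kb : KoBasic C c n) (hC : 0 < C)
include kb hC

theorem tS_bd (s : ℕ) (d : ℤ) (v : ℕ) : 0 ≤ tS s n d v ∧ tS s n d v ≤ 6 * C / n := by
  have hM : 0 ≤ C / (n : ℝ) := by positivity
  unfold tS
  refine ⟨pts_nonneg _ _ (kb.lw_nonneg s v) _, ?_⟩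
  have h1 := two_pts (ZB n) (lwo s n v) (C / n) hM (kb.lw_le s v) (anc n v) d
  have h2 : 6 * C / (n : ℝ) = 6 * (C / n) := by ring
  rw [h2]
  linarith

theorem tI_bd (s k : ℕ) (d : ℤ) (v : ℕ) : 0 ≤ tI s n k d v ∧ tI s n k d v ≤ 6 * C / n := by
  have hM : 0 ≤ C / (n : ℝ) := by positivity
  have h2 : 6 * C / (n : ℝ) = 6 * (C / n) := by ring
  unfold tI
  have e1 : ∀ y, ∑ y' ∈ ZB n, lwo s n v y * lwo s n (nbp n k v) y' *
      (if |y - y'| = d then (1 : ℝ) else 0) =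
      lwo s n v y * ∑ y' ∈ ZB n, lwo s n (nbp n k v) y' * (if |y' - y| = d then 1 else 0) := by
    intro y
    rw [Finset.mul_sum]
    refine Finset.sum_congr rfl fun y' _ => ?_
    rw [abs_sub_comm y y', mul_assoc]
  simp only [e1]
  rw [h2]
  exact avg1 (ZB n) (lwo s n v) (kb.lw_nonneg s v) (kb.lw_sum s v)
    (fun y => ∑ y' ∈ ZB n, lwo s n (nbp n k v) y' * (if |y' - y| = d then 1 else 0)) _
    (fun y => pts_nonneg _ _ (kb.lw_nonneg s _) _) (fun y => by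
      have h1 := two_pts (ZB n) (lwo s n (nbp n k v)) (C / n) hM (kb.lw_le s _) y d
      linarith)

theorem tK_bd (s k : ℕ) {t : ℕ} (ht : t < 4) (d : ℤ) {v : ℕ} (hv : v ∈ vs n) :
    0 ≤ tK s t n k d v ∧ tK s t n k d v ≤ 6 * C / n := by
  have hM : 0 ≤ C / (n : ℝ) := by positivity
  have h2 : 6 * C / (n : ℝ) = 6 * (C / n) := by ring
  unfold tK
  have e1 : ∀ y y', ∑ x ∈ ZB n,
      lwo s n (nbp n k v) y * lwo s n (nbm n k v) y' * kco t n v y y' x *
        ((if |x - anc n v| = d then (1 : ℝ) else 0) + (if |x - y| = d then 1 else 0) +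
          (if |x - y'| = d then 1 else 0)) =
      lwo s n (nbp n k v) y * lwo s n (nbm n k v) y' *
        (∑ x ∈ ZB n, kco t n v y y' x * (if |x - anc n v| = d then 1 else 0) +
          ∑ x ∈ ZB n, kco t n v y y' x * (if |x - y| = d then 1 else 0) +
          ∑ x ∈ ZB n, kco t n v y y' x * (if |x - y'| = d then 1 else 0)) := by
    intro y y'
    rw [← Finset.sum_add_distrib, ← Finset.sum_add_distrib, Finset.mul_sum]
    refine Finset.sum_congr rfl fun x _ => ?_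
    ring
  simp only [e1]
  rw [h2]
  have k0 := fun y y' => kb.kc_nonneg t ht v hv y y'
  have k1 := fun y y' => kb.kc_le t ht v hv y y'
  refine avg2 (ZB n) (lwo s n (nbp n k v)) (lwo s n (nbm n k v)) (kb.lw_nonneg s _)
    (kb.lw_nonneg s _) (kb.lw_sum s _) (kb.lw_sum s _)
    (fun y y' => ∑ x ∈ ZB n, kco t n v y y' x * (if |x - anc n v| = d then 1 else 0) +
          ∑ x ∈ ZB n, kco t n v y y' x * (if |x - y| = d then 1 else 0) +
          ∑ x ∈ ZB n, kco t n v y y' x * (if |x - y'| = d then 1 else 0)) _ ?_ ?_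
  · intro y y'
    exact add_nonneg (add_nonneg (pts_nonneg _ _ (k0 y y') _) (pts_nonneg _ _ (k0 y y') _))
      (pts_nonneg _ _ (k0 y y') _)
  · intro y y'
    have a1 := two_pts (ZB n) (kco t n v y y') (C / n) hM (k1 y y') (anc n v) d
    have a2 := two_pts (ZB n) (kco t n v y y') (C / n) hM (k1 y y') y d
    have a3 := two_pts (ZB n) (kco t n v y y') (C / n) hM (k1 y y') y' d
    linarith

theorem tM_bd (s k : ℕ) {t : ℕ} (ht : t < 4) (z : ℤ) {v : ℕ} (hv : v ∈ vs n) :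
    0 ≤ tM s t n k z v ∧ tM s t n k z v ≤ 6 * C / n := by
  have hM : 0 ≤ C / (n : ℝ) := by positivity
  have h2 : 6 * C / (n : ℝ) = 6 * (C / n) := by ring
  unfold tM
  rw [h2]
  exact avg2 (ZB n) (lwo s n (nbp n k v)) (lwo s n (nbm n k v)) (kb.lw_nonneg s _)
    (kb.lw_nonneg s _) (kb.lw_sum s _) (kb.lw_sum s _) (fun y y' => kco t n v y y' z) _
    (fun y y' => kb.kc_nonneg t ht v hv y y' z) (fun y y' => by
      have a1 := kb.kc_le t ht v hv y y' z
      linarith)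

end

end Pool.Agent.PGo
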