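import Pool.Agent.PGo.Defs

/-!
# PGo: basic facts about the inner cycles
-/

noncomputable section

namespace Pool.Agent.PGo

open Finset Pool.Agent.PGr

variable {P : Par}

theorem Adm.L_pos {L p : ℕ} (h : Adm L p) : 0 < L := by have := h.three; omega

/-- admissible parameters with at least one cycle -/
structure Par.Ok (P : Par) : Prop where
  adm : Adm P.L P.p
  g_pos : 0 < P.g

namespace Par.Ok

theorem L_pos (h : P.Ok) : 0 < P.L := h.adm.L_pos

theorem n_pos (h : P.Ok) : 0 < P.n := Nat.mul_pos h.L_pos h.g_pos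

theorem k_pos (h : P.Ok) : 0 < P.k := Nat.mul_pos h.adm.p_pos h.g_pos

theorem k_lt (h : P.Ok) : 2 * P.k < P.n := by
  unfold Par.k Par.n
  have := h.adm.p_lt
  have h2 : 2 * P.p * P.g < P.L * P.g := Nat.mul_lt_mul_of_pos_right this h.g_pos
  linarith [Nat.mul_assoc 2 P.p P.g]

theorem n_ge (h : P.Ok) : 3 * P.g ≤ P.n := Nat.mul_le_mul_right _ h.adm.three

theorem g_le_n (h : P.Ok) : P.g ≤ P.n := by have := h.n_ge; omega

end Par.Ok

namespace Par

theorem Lk (P : Par) : P.L * P.k = P.p * P.n := by unfold Par.k Par.n; ring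

theorem vx_lt (h : P.Ok) (m j : ℕ) : P.vx m j < P.n := Nat.mod_lt _ h.n_pos

theorem vx_zero {m : ℕ} (hm : m < P.n) : P.vx m 0 = m := by
  unfold Par.vx
  rw [Nat.zero_mul, Nat.add_zero, Nat.mod_eq_of_lt hm]

theorem vx_vx (m i j : ℕ) : P.vx (P.vx m i) j = P.vx m (i + j) := by
  unfold Par.vx
  rw [Nat.mod_add_mod]
  congr 1
  ring

theorem vx_add_L (m j : ℕ) : P.vx m (j + P.L) = P.vx m j := by
  unfold Par.vx
  rw [show m + (j + P.L) * P.k = m + j * P.k + P.p * P.n by
    rw [Nat.add_mul, P.Lk]; ring]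
  rw [Nat.add_mul_mod_self_right]

theorem vx_add_mul (m j i : ℕ) : P.vx m (j + i * P.L) = P.vx m j := by
  induction i with
  | zero => simp
  | succ i ih => rw [Nat.succ_mul, ← Nat.add_assoc, vx_add_L, ih]

theorem vx_mod (m j : ℕ) : P.vx m (j % P.L) = P.vx m j := by
  conv_rhs => rw [← Nat.mod_add_div j P.L, Nat.mul_comm]
  rw [vx_add_mul]

theorem vx_mod_g (m j : ℕ) : P.vx m j % P.g = m % P.g := by
  unfold Par.vx Par.n Par.k
  rw [Nat.mod_mul_left_mod]
  rw [show m + j * (P.p * P.g) = m + (j * P.p) * P.g by ring, Nat.add_mul_mod_self_right]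

theorem vx_inj (h : P.Ok) {m i j : ℕ} (hi : i < P.L) (hj : j < P.L)
    (he : P.vx m i = P.vx m j) : i = j := by
  have key : ∀ a b : ℕ, a < P.L → b < P.L → a ≤ b → P.vx m a = P.vx m b → a = b := by
    intro a b ha hb hab he
    have h1 : (m + a * P.k) ≡ (m + b * P.k) [MOD P.n] := he
    have h2 : (a * P.k) ≡ (b * P.k) [MOD P.n] := Nat.ModEq.add_left_cancel' m h1
    have h3 : P.n ∣ b * P.k - a * P.k :=
      (Nat.modEq_iff_dvd' (Nat.mul_le_mul_right _ hab)).1 h2
    rw [← Nat.sub_mul] at h3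
    unfold Par.n Par.k at h3
    rw [← Nat.mul_assoc] at h3
    have h4 : P.L ∣ (b - a) * P.p := Nat.dvd_of_mul_dvd_mul_right h.g_pos h3
    have h5 : P.L ∣ b - a := h.adm.cop.symm.dvd_of_dvd_mul_right h4
    have h6 : b - a = 0 := Nat.eq_zero_of_dvd_of_lt h5 (by omega)
    omega
  rcases le_total i j with hij | hij
  · exact key i j hi hj hij he
  · exact (key j i hj hi hij he.symm).symm

/-- Every vertex of the residue class of `m` is a vertex of the inner cycle through `m`. -/
theorem exists_vx (h : P.Ok) {m v : ℕ} (hv : v < P.n) (hr : v % P.g = m % P.g) :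
    ∃ j < P.L, P.vx m j = v := by
  classical
  have hS : ((range P.L).image (P.vx m)) =
      (range P.n).filter (fun w => w % P.g = m % P.g) := by
    apply Finset.eq_of_subset_of_card_le
    · intro w hw
      obtain ⟨j, _, rfl⟩ := mem_image.1 hw
      exact mem_filter.2 ⟨mem_range.2 (vx_lt h m j), vx_mod_g m j⟩
    · rw [card_image_of_injOn]
      · rw [card_range]
        have hsub : (range P.n).filter (fun w => w % P.g = m % P.g) ⊆
            (range P.L).image (fun q => m % P.g + q * P.g) := by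
          intro w hw
          obtain ⟨h1, h2⟩ := mem_filter.1 hw
          rw [mem_range] at h1
          refine mem_image.2 ⟨w / P.g, mem_range.2 ?_, ?_⟩
          · exact Nat.div_lt_of_lt_mul (by unfold Par.n at h1; rwa [Nat.mul_comm] at h1)
          · rw [← h2, Nat.mul_comm]
            exact Nat.mod_add_div w P.g
        exact (card_le_card hsub).trans (card_image_le.trans (card_range _).le)
      · intro i hi j hj he
        exact vx_inj h (mem_range.1 (mem_coe.1 hi)) (mem_range.1 (mem_coe.1 hj)) he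
  have hvm : v ∈ (range P.L).image (P.vx m) := by
    rw [hS]; exact mem_filter.2 ⟨mem_range.2 hv, hr⟩
  obtain ⟨j, hj, rfl⟩ := mem_image.1 hvm
  exact ⟨j, mem_range.1 hj, rfl⟩

theorem nbp_vx (m j : ℕ) : nbp P.n P.k (P.vx m j) = P.vx m (j + 1) := by
  unfold nbp Par.vx
  rw [Nat.mod_add_mod]
  congr 1
  ring

theorem nbm_vx (h : P.Ok) (m j : ℕ) : nbm P.n P.k (P.vx m (j + 1)) = P.vx m j := by
  unfold nbm Par.vx
  rw [Nat.mod_add_mod]
  have hk := h.k_lt
  rw [show m + (j + 1) * P.k + (P.n - P.k) = m + j * P.k + P.n by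
    rw [Nat.add_mul, Nat.one_mul]; omega]
  rw [Nat.add_mod_right]

theorem vx_nxt (m : ℕ) (j : Fin P.L) : P.vx m (nxt j).1 = P.vx m (j.1 + 1) := vx_mod m _

/-- the first vertex of the residue class -/
theorem exists_vx_mod (h : P.Ok) {v : ℕ} (hv : v < P.n) :
    ∃ j < P.L, P.vx (v % P.g) j = v := exists_vx h hv (Nat.mod_mod _ _).symm

theorem df_true (m : ℕ) (x : Fin P.L → ℤ) (j : Fin P.L) :
    P.df m x (true, j) = |x j - anc P.n (P.vx m j)| := rfl

theorem df_false (m : ℕ) (x : Fin P.L → ℤ) (j : Fin P.L) :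
    P.df m x (false, j) = |x j - x (nxt j)| := rfl

end Par

end Pool.Agent.PGo
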