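import Pool.Agent.PGo.WDefs
import Pool.Agent.PGo.Vx

/-!
# PGo-WVx: the vertices of the cycles
-/

noncomputable section

namespace Pool.Agent.PGo

open Finset Pool.Agent.PGr

namespace Par

variable {P : Par}

theorem n_pos (hA : Adm P.L P.p) (hg : 1 ≤ P.g) : 1 ≤ P.n :=
  Par.Ok.n_pos ⟨hA, hg⟩

theorem vx_ltW (hA : Adm P.L P.p) (hg : 1 ≤ P.g) (m j : ℕ) : P.vx m j < P.n :=
  vx_lt ⟨hA, hg⟩ m j

theorem vx_zeroW {m : ℕ} (hm : m < P.n) : P.vx m 0 = m := vx_zero hm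

theorem vx_rot (m : ℕ) (i j : Fin P.L) : P.vx (P.vx m i) j = P.vx m (rot i j) := by
  rw [vx_vx]
  exact (vx_mod m (i.1 + j.1)).symm

theorem vx_nxtW (m : ℕ) (j : Fin P.L) : P.vx m (nxt j) = nbp P.n P.k (P.vx m j) := by
  rw [nbp_vx]
  exact vx_nxt m j

theorem vx_prv (hA : Adm P.L P.p) (m : ℕ) (j : Fin P.L) :
    P.vx m (prv j) = nbm P.n P.k (P.vx m j) := by
  have h3 := hA.three
  have e1 : P.vx m (prv j) = P.vx m (j.1 + (P.L - 1)) := vx_mod m _
  have e2 : P.vx m j = P.vx m (j.1 + (P.L - 1) + 1) := by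
    have : j.1 + (P.L - 1) + 1 = j.1 + P.L := by omega
    rw [this, vx_add_L]
  have hk : P.k ≤ P.n := by
    unfold Par.k Par.n
    exact Nat.mul_le_mul_right _ (by have := hA.p_lt; omega)
  rw [e1, e2]
  unfold nbm Par.vx
  rw [Nat.mod_add_mod]
  rw [show m + (j.1 + (P.L - 1) + 1) * P.k + (P.n - P.k) = m + (j.1 + (P.L - 1)) * P.k + P.n by
    rw [Nat.add_mul (j.1 + (P.L - 1)) 1, Nat.one_mul]; omega]
  rw [Nat.add_mod_right]

theorem good_vx (m : ℕ) (i : Fin P.L) : P.good (P.vx m i) ↔ P.good m := by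
  constructor
  · intro h j hj
    have h1 := h ((j + (P.L - i.1)) % P.L) (Nat.mod_lt _ (by omega))
    rw [vx_mod, vx_vx] at h1
    have e : i.1 + (j + (P.L - i.1)) = j + P.L := by
      have := i.2
      omega
    rw [e, vx_add_L] at h1
    exact h1
  · intro h j hj
    rw [vx_vx, ← vx_mod]
    exact h _ (Nat.mod_lt _ (by omega))

theorem good_vs (hA : Adm P.L P.p) (hg : 1 ≤ P.g) {m : ℕ} (hm : P.good m) (j : Fin P.L) :
    P.vx m j ∈ vs P.n :=
  mem_filter.2 ⟨mem_range.2 (vx_ltW hA hg m j), hm j.1 j.2⟩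

theorem sum_vx1 (hA : Adm P.L P.p) (hg : 1 ≤ P.g) (F : ℕ → ℝ) :
    ∑ r ∈ range P.g, ∑ i : Fin P.L, F (P.vx r i) = ∑ m ∈ range P.n, F m := by
  have ok : P.Ok := ⟨hA, hg⟩
  rw [← Finset.sum_product']
  refine Finset.sum_bij (fun p _ => P.vx p.1 p.2) ?_ ?_ ?_ ?_
  · intro p _
    exact mem_range.2 (vx_lt ok _ _)
  · rintro ⟨r, i⟩ hp ⟨r', i'⟩ hp' he
    rw [mem_product, mem_range] at hp hp'
    have h1 := congrArg (· % P.g) he
    simp only [vx_mod_g] at h1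
    rw [Nat.mod_eq_of_lt hp.1, Nat.mod_eq_of_lt hp'.1] at h1
    subst h1
    have h2 := vx_inj ok i.2 i'.2 he
    rw [Fin.ext h2]
  · intro v hv
    obtain ⟨j, hj, he⟩ := exists_vx_mod ok (mem_range.1 hv)
    exact ⟨(v % P.g, ⟨j, hj⟩), mem_product.2 ⟨mem_range.2 (Nat.mod_lt _ ok.g_pos), mem_univ _⟩, he⟩
  · intro p _
    rfl

theorem sum_vg (hA : Adm P.L P.p) (hg : 1 ≤ P.g) (j : Fin P.L) (F : ℕ → ℝ) :
    ∑ m ∈ P.vg, F (P.vx m j) = ∑ m ∈ P.vg, F m := by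
  have ok : P.Ok := ⟨hA, hg⟩
  have hinv : ∀ m ∈ P.vg, P.vx (P.vx m j) ((P.L - j.1) % P.L) = m := by
    intro m hm
    rw [vx_mod, vx_vx]
    have e : j.1 + (P.L - j.1) = 0 + P.L := by
      have := j.2
      omega
    rw [e, vx_add_L, vx_zero (mem_range.1 (mem_filter.1 hm).1)]
  have hinv' : ∀ m ∈ P.vg, P.vx (P.vx m ((P.L - j.1) % P.L)) j = m := by
    intro m hm
    rw [vx_mod, vx_vx]
    have e : P.L - j.1 + j.1 = 0 + P.L := by
      have := j.2
      omega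
    rw [e, vx_add_L, vx_zero (mem_range.1 (mem_filter.1 hm).1)]
  refine Finset.sum_bij' (fun m _ => P.vx m j) (fun m _ => P.vx m ((P.L - j.1) % P.L)) ?_ ?_
    hinv hinv' ?_
  · intro m hm
    exact mem_filter.2 ⟨mem_range.2 (vx_lt ok _ _), (good_vx m j).2 (mem_filter.1 hm).2⟩
  · intro m hm
    exact mem_filter.2 ⟨mem_range.2 (vx_lt ok _ _),
      (good_vx m ⟨(P.L - j.1) % P.L, Nat.mod_lt _ ok.L_pos⟩).2 (mem_filter.1 hm).2⟩
  · intro m _
    rfl

theorem vg_sub (hA : Adm P.L P.p) (hg : 1 ≤ P.g) : P.vg ⊆ vs P.n := by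
  have ok : P.Ok := ⟨hA, hg⟩
  intro m hm
  have h := mem_filter.1 hm
  refine mem_filter.2 ⟨h.1, ?_⟩
  have h0 := h.2 0 ok.L_pos
  rwa [vx_zero (mem_range.1 h.1)] at h0

theorem card_bad (hA : Adm P.L P.p) (hg : 1 ≤ P.g) : (vs P.n \ P.vg).card ≤ P.L := by
  have ok : P.Ok := ⟨hA, hg⟩
  have hsub : vs P.n \ P.vg ⊆ (range P.L).image (P.vx (P.n - 1)) := by
    intro v hv
    rw [mem_sdiff] at hv
    have hv1 := mem_range.1 (mem_filter.1 hv.1).1
    have hbad : ¬ P.good v := fun h => hv.2 (mem_filter.2 ⟨mem_range.2 hv1, h⟩)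
    unfold good at hbad
    push Not at hbad
    obtain ⟨j, hj, hs⟩ := hbad
    have h1 : P.vx v j = P.n - 1 := by
      have := hs.2
      omega
    have h2 : v % P.g = (P.n - 1) % P.g := by
      rw [← h1, vx_mod_g]
    obtain ⟨i, hi, he⟩ := exists_vx ok hv1 h2
    exact mem_image.2 ⟨i, mem_range.2 hi, he⟩
  exact (card_le_card hsub).trans (card_image_le.trans (card_range _).le)

/-- the inverse rotation -/
private def WVx_inv (i : Fin P.L) : Fin P.L := ⟨(P.L - i.1) % P.L, Nat.mod_lt _ (by have := i.2; omega)⟩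

private theorem WVx_inv1 (i j : Fin P.L) : rot (WVx_inv i) (rot i j) = j := by
  apply Fin.ext
  show ((P.L - i.1) % P.L + (i.1 + j.1) % P.L) % P.L = j.1
  rw [← Nat.add_mod]
  have e : P.L - i.1 + (i.1 + j.1) = j.1 + P.L := by
    have := i.2
    omega
  rw [e, Nat.add_mod_right, Nat.mod_eq_of_lt j.2]

private theorem WVx_inv2 (i j : Fin P.L) : rot i (rot (WVx_inv i) j) = j := by
  apply Fin.ext
  show (i.1 + ((P.L - i.1) % P.L + j.1) % P.L) % P.L = j.1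
  rw [Nat.add_mod_mod, ← Nat.add_assoc, Nat.add_right_comm, Nat.add_mod_mod]
  have e : i.1 + j.1 + (P.L - i.1) = j.1 + P.L := by
    have := i.2
    omega
  rw [e, Nat.add_mod_right, Nat.mod_eq_of_lt j.2]

private theorem WVx_rot_nxt (i j : Fin P.L) : rot i (nxt j) = nxt (rot i j) := by
  apply Fin.ext
  show (i.1 + (j.1 + 1) % P.L) % P.L = ((i.1 + j.1) % P.L + 1) % P.L
  rw [Nat.add_mod_mod, Nat.mod_add_mod, Nat.add_assoc]

theorem box_rot (i : Fin P.L) (F : (Fin P.L → ℤ) → ℝ) :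
    ∑ x ∈ P.box, F (fun j => x (rot i j)) = ∑ x ∈ P.box, F x := by
  refine Finset.sum_bij' (fun x _ => fun j => x (rot i j)) (fun x _ => fun j => x (rot (WVx_inv i) j))
    ?_ ?_ ?_ ?_ ?_
  · intro x hx
    unfold box at hx ⊢
    rw [Fintype.mem_piFinset] at hx ⊢
    exact fun j => hx _
  · intro x hx
    unfold box at hx ⊢
    rw [Fintype.mem_piFinset] at hx ⊢
    exact fun j => hx _
  · intro x _
    funext j
    show x (rot i (rot (WVx_inv i) j)) = x j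
    rw [WVx_inv2]
  · intro x _
    funext j
    show x (rot (WVx_inv i) (rot i j)) = x j
    rw [WVx_inv1]
  · intro x _
    rfl

theorem cL_rot (i : Fin P.L) (x : Fin P.L → ℤ) (z : ℤ) :
    P.cL (fun j => x (rot i j)) z = P.cL x z := by
  unfold cL
  congr 1
  refine Finset.card_bij' (fun j _ => rot i j) (fun j _ => rot (WVx_inv i) j) ?_ ?_ ?_ ?_
  · intro j hj
    rw [mem_filter] at hj ⊢
    exact ⟨mem_univ _, hj.2⟩
  · intro j hj
    rw [mem_filter] at hj ⊢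
    refine ⟨mem_univ _, ?_⟩
    show x (rot i (rot (WVx_inv i) j)) = z
    rw [WVx_inv2]
    exact hj.2
  · intro j _
    exact WVx_inv1 i j
  · intro j _
    exact WVx_inv2 i j

private theorem WVx_df (m : ℕ) (i : Fin P.L) (x : Fin P.L → ℤ) (b : Bool) (j : Fin P.L) :
    P.df (P.vx m i) (fun j => x (rot i j)) (b, j) = P.df m x (b, rot i j) := by
  cases b with
  | true =>
    rw [df_true, df_true, vx_rot]
  | false =>
    rw [df_false, df_false, WVx_rot_nxt]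

theorem cD_rot (m : ℕ) (i : Fin P.L) (x : Fin P.L → ℤ) (d : ℤ) :
    P.cD (P.vx m i) (fun j => x (rot i j)) d = P.cD m x d := by
  unfold cD
  congr 1
  refine Finset.card_bij' (fun a _ => (a.1, rot i a.2)) (fun a _ => (a.1, rot (WVx_inv i) a.2))
    ?_ ?_ ?_ ?_
  · rintro ⟨b, j⟩ hj
    rw [mem_filter] at hj ⊢
    refine ⟨mem_univ _, ?_⟩
    rw [← WVx_df]
    exact hj.2
  · rintro ⟨b, j⟩ hj
    rw [mem_filter] at hj ⊢
    refine ⟨mem_univ _, ?_⟩
    rw [WVx_df, WVx_inv2]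
    exact hj.2
  · rintro ⟨b, j⟩ _
    show (b, rot (WVx_inv i) (rot i j)) = (b, j)
    rw [WVx_inv1]
  · rintro ⟨b, j⟩ _
    show (b, rot i (rot (WVx_inv i) j)) = (b, j)
    rw [WVx_inv2]

end Par

end Pool.Agent.PGo
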