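import Pool.Agent.PGo.WFub
import Pool.Agent.PGo.WVx

/-!
# PGo-WMar: marginals of the weight of a labelled cycle

PLAN. `facH`: the neighbours of an even role `j ≥ 2` are `j - 1` (odd) and `j + 1` (odd, or `0` if `j = L - 1`); `L` is odd;
the sums are `kb.lw_sum`, `kb.kc_sum` (`good_vs`). `nxt_ne_prv`: `L ≥ 3`. `ZB n` is nonempty: `kb.lw_sum`.
`mar0`: `fub0`.
`marL`: `cL x z = ∑ j, [x j = z]` (`Finset.card_filter`), exchange the sums, `fub1` for `j ∈ BW` (and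
`∑ y ∈ ZB n, lwo y * [y = z] = lwo z`, as `lwo z = 0` if `z ∉ ZB n` because `[n, 2n] ⊆ ZB n` for `n ≥ 1`), `fub3` for the
others (`kco z = 0` for `z ∉ ZB n`), `vx_nxtW`, `vx_prv`.
`marD`: `cD m x d = ∑ j, [|x j - anc (vx m j)| = d] + ∑ j, [|x j - x (nxt j)| = d]`, and
`∑ j, [|x j - x (nxt j)| = d] = [|x 0 - x 1| = d] + ∑ j ∉ BW, ([|x j - x (nxt j)| = d] + [|x j - x (prv j)| = d])`: the edges `(j, j+1)`
with `j` odd are reindexed by `prv` (`j = prv (nxt j)`, `nxt j ∉ BW` for odd `j`, and `|a - b| = |b - a|`); the edges with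
`j ∉ BW` stay; the edge of `j = 0` is the first term. Then `fub1`, `fub2`, `fub3`.
-/

noncomputable section

namespace Pool.Agent.PGo

open Finset Pool.Agent.PGr

namespace Par

variable {P : Par} {C c : ℝ} {s : ℕ} {σ : ℕ → ℕ} {m : ℕ}

private theorem mem_BW (j : Fin P.L) : j ∈ P.BW ↔ j.1 = 0 ∨ j.1 % 2 = 1 := by
  unfold BW
  rw [Finset.mem_filter]
  exact ⟨fun h => h.2, fun h => ⟨Finset.mem_univ _, h⟩⟩

private theorem not_BW {j : Fin P.L} (hj : j ∉ P.BW) : 2 ≤ j.1 ∧ j.1 % 2 = 0 := by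
  rw [mem_BW] at hj
  push Not at hj
  omega

private theorem prv_val {j : Fin P.L} (hj : 1 ≤ j.1) : (prv j).1 = j.1 - 1 := by
  have hlt := j.2
  show (j.1 + (P.L - 1)) % P.L = j.1 - 1
  have h : j.1 + (P.L - 1) = (j.1 - 1) + P.L := by omega
  rw [h, Nat.add_mod_right, Nat.mod_eq_of_lt (by omega)]

private theorem nxt_val {j : Fin P.L} (hj : j.1 + 1 < P.L) : (nxt j).1 = j.1 + 1 := by
  show (j.1 + 1) % P.L = j.1 + 1
  exact Nat.mod_eq_of_lt hj

private theorem nxt_val' {j : Fin P.L} (hj : j.1 + 1 = P.L) : (nxt j).1 = 0 := by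
  show (j.1 + 1) % P.L = 0
  rw [hj, Nat.mod_self]

private theorem nxt_BW {j : Fin P.L} (hj : j ∉ P.BW) : nxt j ∈ P.BW := by
  obtain ⟨h1, h2⟩ := not_BW hj
  have hlt := j.2
  rw [mem_BW]
  rcases Nat.lt_or_ge (j.1 + 1) P.L with h | h
  · rw [nxt_val h]
    omega
  · rw [nxt_val' (by omega)]
    omega

private theorem prv_BW {j : Fin P.L} (hj : j ∉ P.BW) : prv j ∈ P.BW := by
  obtain ⟨h1, h2⟩ := not_BW hj
  rw [mem_BW, prv_val (by omega)]
  omega

private theorem nxt_ne_prv {j : Fin P.L} (hj : j ∉ P.BW) : nxt j ≠ prv j := by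
  obtain ⟨h1, h2⟩ := not_BW hj
  have hlt := j.2
  intro h
  have h3 : (nxt j).1 = (prv j).1 := congrArg Fin.val h
  rw [prv_val (by omega)] at h3
  rcases Nat.lt_or_ge (j.1 + 1) P.L with h4 | h4
  · rw [nxt_val h4] at h3
    omega
  · rw [nxt_val' (by omega)] at h3
    omega

private theorem edge_sum (hL : 0 < P.L) (hodd : Odd P.L) (E : Fin P.L → Fin P.L → ℝ)
    (hE : ∀ a b, E a b = E b a) :
    ∑ j : Fin P.L, E j (nxt j) = E ⟨0, hL⟩ (nxt ⟨0, hL⟩) +
      ∑ j : Fin P.L, (if j ∈ P.BW then 0 else E j (nxt j) + E j (prv j)) := by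
  have hoddm : P.L % 2 = 1 := Nat.odd_iff.1 hodd
  have hz : (⟨0, hL⟩ : Fin P.L) ∈ P.BW := by
    rw [mem_BW]
    exact Or.inl rfl
  have h1 : ∑ j : Fin P.L, E j (nxt j) = ∑ j ∈ P.BW, E j (nxt j) +
      ∑ j ∈ univ.filter (fun j => j ∉ P.BW), E j (nxt j) := by
    rw [← Finset.sum_filter_add_sum_filter_not univ (fun j => j ∈ P.BW)]
    congr 1
    apply Finset.sum_congr _ fun _ _ => rfl
    ext j
    simp
  have h2 : ∑ j ∈ P.BW, E j (nxt j) = E ⟨0, hL⟩ (nxt ⟨0, hL⟩) +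
      ∑ j ∈ P.BW.erase ⟨0, hL⟩, E j (nxt j) := (Finset.add_sum_erase _ _ hz).symm
  have h3 : ∑ j ∈ P.BW.erase ⟨0, hL⟩, E j (nxt j) =
      ∑ j ∈ univ.filter (fun j => j ∉ P.BW), E j (prv j) := by
    have hmem : ∀ j : Fin P.L, j ∈ P.BW.erase ⟨0, hL⟩ → j.1 % 2 = 1 ∧ j.1 + 1 < P.L := by
      intro j hj
      rw [Finset.mem_erase, mem_BW] at hj
      have hj0 : j.1 ≠ 0 := fun h => hj.1 (Fin.ext h)
      have hlt := j.2
      rcases hj.2 with h | h
      · exact absurd h hj0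
      · exact ⟨h, by omega⟩
    apply Finset.sum_nbij' nxt prv
    · intro j hj
      obtain ⟨h4, h5⟩ := hmem j hj
      rw [Finset.mem_filter, mem_BW, nxt_val h5]
      refine ⟨Finset.mem_univ _, ?_⟩
      omega
    · intro j hj
      rw [Finset.mem_filter] at hj
      obtain ⟨h4, h5⟩ := not_BW hj.2
      rw [Finset.mem_erase]
      refine ⟨?_, prv_BW hj.2⟩
      intro h6
      have h7 : (prv j).1 = 0 := congrArg Fin.val h6
      rw [prv_val (by omega)] at h7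
      omega
    · intro j hj
      obtain ⟨h4, h5⟩ := hmem j hj
      apply Fin.ext
      rw [prv_val (by rw [nxt_val h5]; omega), nxt_val h5]
      omega
    · intro j hj
      rw [Finset.mem_filter] at hj
      obtain ⟨h4, h5⟩ := not_BW hj.2
      have hlt := j.2
      have h6 : (prv j).1 = j.1 - 1 := prv_val (by omega)
      apply Fin.ext
      rw [nxt_val (by rw [h6]; omega), h6]
      omega
    · intro j hj
      obtain ⟨h4, h5⟩ := hmem j hj
      have h6 : prv (nxt j) = j := by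
        apply Fin.ext
        rw [prv_val (by rw [nxt_val h5]; omega), nxt_val h5]
        omega
      rw [h6, hE]
  have h4 : ∑ j : Fin P.L, (if j ∈ P.BW then 0 else E j (nxt j) + E j (prv j)) =
      ∑ j ∈ univ.filter (fun j => j ∉ P.BW), (E j (nxt j) + E j (prv j)) := by
    rw [Finset.sum_filter]
    apply Finset.sum_congr rfl
    intro j _
    by_cases hj : j ∈ P.BW
    · rw [if_pos hj, if_neg (not_not.2 hj)]
    · rw [if_neg hj, if_pos hj]
  rw [h1, h2, h3, h4, Finset.sum_add_distrib]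
  ring

theorem facH (hA : Adm P.L P.p) (hg : 1 ≤ P.g) (kb : KoBasic C c P.n) (hσ : ∀ j, σ j < 4)
    (hm : P.good m) :
    FacH (ZB P.n) P.BW nxt prv (fun j y => lwo s P.n (P.vx m j) y)
      (fun (j : Fin P.L) y y' z => kco (σ j) P.n (P.vx m j) y y' z) := by
  refine ⟨?_, fun i hi => nxt_BW hi, fun i hi => prv_BW hi, fun i _ => kb.lw_sum s _,
    fun i _ y y' => kb.kc_sum (σ i) (hσ i) _ (good_vs hA hg hm i) y y'⟩
  by_contra hne
  rw [Finset.not_nonempty_iff_eq_empty] at hne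
  have h := kb.lw_sum 0 0
  rw [hne, Finset.sum_empty] at h
  exact zero_ne_one h

private theorem w1 (hA : Adm P.L P.p) (hg : 1 ≤ P.g) (kb : KoBasic C c P.n) (hσ : ∀ j, σ j < 4)
    (hm : P.good m) {j : Fin P.L} (hj : j ∈ P.BW) (φ : ℤ → ℝ) :
    ∑ x ∈ P.box, P.Wt s σ m x * φ (x j) = ∑ y ∈ ZB P.n, lwo s P.n (P.vx m j) y * φ y :=
  fub1 (facH (s := s) hA hg kb hσ hm) hj φ

private theorem w2 (hA : Adm P.L P.p) (hg : 1 ≤ P.g) (kb : KoBasic C c P.n) (hσ : ∀ j, σ j < 4)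
    (hm : P.good m) {p q : Fin P.L} (hp : p ∈ P.BW) (hq : q ∈ P.BW) (hpq : p ≠ q)
    (φ : ℤ → ℤ → ℝ) :
    ∑ x ∈ P.box, P.Wt s σ m x * φ (x p) (x q) = ∑ y ∈ ZB P.n, ∑ y' ∈ ZB P.n,
      lwo s P.n (P.vx m p) y * lwo s P.n (P.vx m q) y' * φ y y' :=
  fub2 (facH (s := s) hA hg kb hσ hm) hp hq hpq φ

private theorem w3 (hA : Adm P.L P.p) (hg : 1 ≤ P.g) (kb : KoBasic C c P.n) (hσ : ∀ j, σ j < 4)
    (hm : P.good m) {j : Fin P.L} (hj : j ∉ P.BW) (φ : ℤ → ℤ → ℤ → ℝ) :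
    ∑ x ∈ P.box, P.Wt s σ m x * φ (x (nxt j)) (x (prv j)) (x j) =
      ∑ y ∈ ZB P.n, ∑ y' ∈ ZB P.n, ∑ z ∈ ZB P.n,
        lwo s P.n (nbp P.n P.k (P.vx m j)) y * lwo s P.n (nbm P.n P.k (P.vx m j)) y' *
          kco (σ j) P.n (P.vx m j) y y' z * φ y y' z := by
  have h := fub3 (facH (s := s) hA hg kb hσ hm) hj (nxt_ne_prv hj) φ
  simp only [vx_nxtW, vx_prv hA] at h
  exact h

private theorem lwo_out {n : ℕ} (hn : 1 ≤ n) (v : ℕ) {z : ℤ} (hz : z ∉ ZB n) :
    lwo s n v z = 0 := by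
  unfold lwo
  rw [if_neg]
  intro h
  apply hz
  rw [Finset.mem_Icc] at h
  unfold ZB
  rw [Finset.mem_filter, Finset.mem_Icc]
  have hn' : (1 : ℤ) ≤ n := by exact_mod_cast hn
  refine ⟨⟨by linarith, by linarith⟩, by linarith, by linarith⟩

private theorem kco_out {n t : ℕ} (v : ℕ) (y y' : ℤ) {z : ℤ} (hz : z ∉ ZB n) :
    kco t n v y y' z = 0 := by
  unfold kco
  rw [if_neg hz]

theorem mar0 (hA : Adm P.L P.p) (hg : 1 ≤ P.g) (kb : KoBasic C c P.n) (hσ : ∀ j, σ j < 4)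
    (hm : P.good m) : ∑ x ∈ P.box, P.Wt s σ m x = 1 := by
  exact fub0 (facH (s := s) hA hg kb hσ hm)

theorem marL (hA : Adm P.L P.p) (hg : 1 ≤ P.g) (kb : KoBasic C c P.n) (hσ : ∀ j, σ j < 4)
    (hm : P.good m) (z : ℤ) :
    ∑ x ∈ P.box, P.Wt s σ m x * P.cL x z = ∑ j : Fin P.L,
      (if j ∈ P.BW then lwo s P.n (P.vx m j) z else tM s (σ j) P.n P.k z (P.vx m j)) := by
  have hcL : ∀ x : Fin P.L → ℤ, P.cL x z = ∑ j : Fin P.L, if x j = z then (1 : ℝ) else 0 := by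
    intro x
    unfold cL
    rw [Finset.card_filter]
    push_cast
    rfl
  have h1 : ∑ x ∈ P.box, P.Wt s σ m x * P.cL x z =
      ∑ j : Fin P.L, ∑ x ∈ P.box, P.Wt s σ m x * (if x j = z then (1 : ℝ) else 0) := by
    rw [Finset.sum_comm]
    apply Finset.sum_congr rfl
    intro x _
    rw [hcL, Finset.mul_sum]
  rw [h1]
  apply Finset.sum_congr rfl
  intro j _
  by_cases hj : j ∈ P.BW
  · rw [if_pos hj, w1 hA hg kb hσ hm hj (fun y => if y = z then (1 : ℝ) else 0)]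
    simp only [mul_ite, mul_one, mul_zero]
    rw [Finset.sum_ite_eq' (ZB P.n) z]
    by_cases hz : z ∈ ZB P.n
    · rw [if_pos hz]
    · rw [if_neg hz, lwo_out (n_pos hA hg) _ hz]
  · rw [if_neg hj, w3 hA hg kb hσ hm hj (fun _ _ w => if w = z then (1 : ℝ) else 0)]
    unfold tM
    apply Finset.sum_congr rfl
    intro y _
    apply Finset.sum_congr rfl
    intro y' _
    simp only [mul_ite, mul_one, mul_zero]
    rw [Finset.sum_ite_eq' (ZB P.n) z]
    by_cases hz : z ∈ ZB P.n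
    · rw [if_pos hz]
    · rw [if_neg hz, kco_out _ _ _ hz, mul_zero]

theorem marD (hA : Adm P.L P.p) (hg : 1 ≤ P.g) (kb : KoBasic C c P.n) (hσ : ∀ j, σ j < 4)
    (hm : P.good m) (hmn : m < P.n) (d : ℤ) :
    ∑ x ∈ P.box, P.Wt s σ m x * P.cD m x d = ∑ j : Fin P.L,
      (if j ∈ P.BW then tS s P.n d (P.vx m j) else tK s (σ j) P.n P.k d (P.vx m j)) +
        tI s P.n P.k d m := by
  have hL : 0 < P.L := by
    have := hA.three
    omega
  set z0 : Fin P.L := ⟨0, hL⟩ with hz0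
  have hz0B : z0 ∈ P.BW := by
    rw [mem_BW]
    exact Or.inl rfl
  have hn0 : (nxt z0).1 = 1 := by
    have h3 := hA.three
    exact nxt_val (j := z0) (by show 0 + 1 < P.L; omega)
  have hn0B : nxt z0 ∈ P.BW := by
    rw [mem_BW, hn0]
    exact Or.inr rfl
  have hne : z0 ≠ nxt z0 := by
    intro h
    have h1 : z0.1 = (nxt z0).1 := congrArg Fin.val h
    rw [hn0] at h1
    exact absurd h1 (by show (0 : ℕ) ≠ 1; omega)
  have hcD : ∀ x : Fin P.L → ℤ, P.cD m x d =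
      ∑ j : Fin P.L, ((if |x j - anc P.n (P.vx m j)| = d then (1 : ℝ) else 0) +
        if j ∈ P.BW then 0 else ((if |x j - x (nxt j)| = d then (1 : ℝ) else 0) +
          if |x j - x (prv j)| = d then (1 : ℝ) else 0)) +
      (if |x z0 - x (nxt z0)| = d then (1 : ℝ) else 0) := by
    intro x
    have h1 : P.cD m x d = ∑ i : Bool × Fin P.L, if P.df m x i = d then (1 : ℝ) else 0 := by
      unfold cD
      rw [Finset.card_filter]
      push_cast
      rfl
    have h2 := edge_sum hL hA.odd (fun a b => if |x a - x b| = d then (1 : ℝ) else 0)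
      (fun a b => by simp only [abs_sub_comm (x a) (x b)])
    rw [h1, Fintype.sum_prod_type, Fintype.sum_bool]
    have h3 : ∑ j : Fin P.L, (if P.df m x (true, j) = d then (1 : ℝ) else 0) =
        ∑ j : Fin P.L, (if |x j - anc P.n (P.vx m j)| = d then (1 : ℝ) else 0) := rfl
    have h4 : ∑ j : Fin P.L, (if P.df m x (false, j) = d then (1 : ℝ) else 0) =
        ∑ j : Fin P.L, (if |x j - x (nxt j)| = d then (1 : ℝ) else 0) := rfl
    rw [h3, h4, h2, Finset.sum_add_distrib]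
    ring
  have h1 : ∑ x ∈ P.box, P.Wt s σ m x * P.cD m x d =
      (∑ j : Fin P.L, ∑ x ∈ P.box, P.Wt s σ m x *
        ((if |x j - anc P.n (P.vx m j)| = d then (1 : ℝ) else 0) +
        if j ∈ P.BW then 0 else ((if |x j - x (nxt j)| = d then (1 : ℝ) else 0) +
          if |x j - x (prv j)| = d then (1 : ℝ) else 0))) +
      ∑ x ∈ P.box, P.Wt s σ m x * (if |x z0 - x (nxt z0)| = d then (1 : ℝ) else 0) := by
    rw [Finset.sum_comm, ← Finset.sum_add_distrib]
    apply Finset.sum_congr rfl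
    intro x _
    rw [hcD, mul_add, Finset.mul_sum]
  rw [h1]
  congr 1
  · apply Finset.sum_congr rfl
    intro j _
    by_cases hj : j ∈ P.BW
    · simp only [if_pos hj, add_zero]
      rw [w1 hA hg kb hσ hm hj (fun y => if |y - anc P.n (P.vx m j)| = d then (1 : ℝ) else 0)]
      rfl
    · simp only [if_neg hj]
      have h5 := w3 (s := s) hA hg kb hσ hm hj (fun y y' w =>
        (if |w - anc P.n (P.vx m j)| = d then (1 : ℝ) else 0) +
        (if |w - y| = d then (1 : ℝ) else 0) + (if |w - y'| = d then (1 : ℝ) else 0))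
      unfold tK
      rw [← h5]
      apply Finset.sum_congr rfl
      intro x _
      ring
  · rw [w2 hA hg kb hσ hm hz0B hn0B hne (fun y y' => if |y - y'| = d then (1 : ℝ) else 0)]
    rw [vx_nxtW]
    have h6 : P.vx m z0 = m := vx_zero hmn
    rw [h6]
    rfl

end Par

end Pool.Agent.PGo
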