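import Pool.Agent.PGo.WRot
import Pool.Agent.PGo.WMar
import Pool.Agent.PGo.WBas

/-!
# PGo-WMain: Theorem W
-/

noncomputable section

namespace Pool.Agent.PGo

open Finset Pool.Agent.PGr

/-! ## The law of the black labels -/

theorem lwo_01 (n v : ℕ) (y : ℤ) : lwo 0 n v y = lwo 1 n v y := by
  unfold lwo wt
  simp

/-- sum over all good vertices of the item terms -/
def SK (s t n k : ℕ) (d : ℤ) : ℝ := ∑ v ∈ vs n, tK s t n k d v

/-- sum over all good vertices of the item labels -/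
def SM (s t n k : ℕ) (z : ℤ) : ℝ := ∑ v ∈ vs n, tM s t n k z v

theorem SK_self (s n k : ℕ) (d : ℤ) : SK s s n k d = Sk s n k d := rfl
theorem SM_self (s n k : ℕ) (z : ℤ) : SM s s n k z = Lk s n k z := rfl

theorem SK_01 (n k : ℕ) (d : ℤ) : SK 0 1 n k d = Sk 1 n k d := by
  rw [← SK_self]
  unfold SK tK
  simp_rw [lwo_01]

theorem SM_01 (n k : ℕ) (z : ℤ) : SM 0 1 n k z = Lk 1 n k z := by
  rw [← SM_self]
  unfold SM tM
  simp_rw [lwo_01]

theorem Ssp_01 (n : ℕ) (d : ℤ) : Ssp 0 n d = Ssp 1 n d := by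
  unfold Ssp
  simp_rw [lwo_01]

theorem Sin_01 (n k : ℕ) (d : ℤ) : Sin 0 n k d = Sin 1 n k d := by
  unfold Sin
  simp_rw [lwo_01]

theorem Ll_01 (n : ℕ) (z : ℤ) : Ll 0 n z = Ll 1 n z := by
  unfold Ll
  simp_rw [lwo_01]

namespace Par

variable {P : Par} {C c : ℝ} {s : ℕ} {σ : ℕ → ℕ}

/-- difference of the sums over all vertices and over the good cycles -/
theorem err_vs (hA : Adm P.L P.p) (hg : 1 ≤ P.g) {f : ℕ → ℝ} {M : ℝ} (hM : 0 ≤ M)
    (hf : ∀ v ∈ vs P.n, 0 ≤ f v ∧ f v ≤ M) :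
    ∑ v ∈ P.vg, f v ≤ ∑ v ∈ vs P.n, f v ∧
      ∑ v ∈ vs P.n, f v ≤ ∑ v ∈ P.vg, f v + P.L * M := by
  have h1 : ∑ v ∈ vs P.n \ P.vg, f v + ∑ v ∈ P.vg, f v = ∑ v ∈ vs P.n, f v :=
    sum_sdiff (vg_sub hA hg)
  have h2 : 0 ≤ ∑ v ∈ vs P.n \ P.vg, f v := sum_nonneg fun v hv => (hf v (mem_sdiff.1 hv).1).1
  have h3 : ∑ v ∈ vs P.n \ P.vg, f v ≤ ((vs P.n \ P.vg).card : ℝ) * M := by
    have := sum_le_card_nsmul (vs P.n \ P.vg) f M (fun v hv => (hf v (mem_sdiff.1 hv).1).2)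
    rwa [nsmul_eq_mul] at this
  have h4 : ((vs P.n \ P.vg).card : ℝ) ≤ P.L := by exact_mod_cast card_bad hA hg
  have := mul_le_mul_of_nonneg_right h4 hM
  constructor <;> linarith

/-- the sum over the labels -/
theorem sum_lab (hA : Adm P.L P.p) (hg : 1 ≤ P.g) (kb : KoBasic C c P.n) (hC : 0 < C)
    (hσ : ∀ j, σ j < 4) (z : ℤ) :
    ∑ r ∈ range P.g, ∑ x ∈ P.box, P.WW s σ r x * P.cL x z ≤
      (1 / (P.L : ℝ)) * ∑ j : Fin P.L, (if j ∈ P.BW then Ll s P.n z else SM s (σ j) P.n P.k z) := by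
  have hL : (0 : ℝ) < P.L := by
    have := hA.three
    exact_mod_cast (by omega : 0 < P.L)
  rw [sum_WW hA hg s σ (fun _ x => P.cL x z) (fun r i x => cL_rot i x z)]
  refine mul_le_mul_of_nonneg_left ?_ (by positivity)
  have h1 : ∑ m ∈ P.vg, ∑ x ∈ P.box, P.Wt s σ m x * P.cL x z = ∑ m ∈ P.vg, ∑ j : Fin P.L,
      (if j ∈ P.BW then lwo s P.n (P.vx m j) z else tM s (σ j) P.n P.k z (P.vx m j)) := by
    refine sum_congr rfl fun m hm => ?_
    exact marL hA hg kb hσ (mem_filter.1 hm).2 z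
  rw [h1, sum_comm]
  refine sum_le_sum fun j _ => ?_
  by_cases hj : j ∈ P.BW
  · simp only [if_pos hj]
    rw [sum_vg hA hg j (fun v => lwo s P.n v z)]
    have := (err_vs hA hg (f := fun v => lwo s P.n v z) (M := C / P.n) (by positivity)
      (fun v _ => ⟨kb.lw_nonneg s v z, kb.lw_le s v z⟩)).1
    exact this
  · simp only [if_neg hj]
    rw [sum_vg hA hg j (fun v => tM s (σ j) P.n P.k z v)]
    exact (err_vs hA hg (f := fun v => tM s (σ j) P.n P.k z v) (M := 6 * C / P.n) (by positivity)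
      (fun v hv => tM_bd kb hC s P.k (hσ j) z hv)).1

/-- the sum over the differences -/
theorem sum_dif (hA : Adm P.L P.p) (hg : 1 ≤ P.g) (kb : KoBasic C c P.n) (hC : 0 < C)
    (hσ : ∀ j, σ j < 4) (d : ℤ) :
    |∑ r ∈ range P.g, ∑ x ∈ P.box, P.WW s σ r x * P.cD r x d -
      (1 / (P.L : ℝ)) * (∑ j : Fin P.L,
        (if j ∈ P.BW then Ssp s P.n d else SK s (σ j) P.n P.k d) + Sin s P.n P.k d)| ≤
      (P.L + 1) * (6 * C / P.n) := by
  have hL : (0 : ℝ) < P.L := by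
    have := hA.three
    exact_mod_cast (by omega : 0 < P.L)
  have hM : 0 ≤ 6 * C / P.n := by positivity
  rw [sum_WW hA hg s σ (fun m x => P.cD m x d) (fun r i x => cD_rot r i x d)]
  have h1 : ∑ m ∈ P.vg, ∑ x ∈ P.box, P.Wt s σ m x * P.cD m x d = ∑ j : Fin P.L,
      (if j ∈ P.BW then ∑ v ∈ P.vg, tS s P.n d v else ∑ v ∈ P.vg, tK s (σ j) P.n P.k d v) +
      ∑ v ∈ P.vg, tI s P.n P.k d v := by
    have h2 : ∑ m ∈ P.vg, ∑ x ∈ P.box, P.Wt s σ m x * P.cD m x d = ∑ m ∈ P.vg,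
        (∑ j : Fin P.L,
          (if j ∈ P.BW then tS s P.n d (P.vx m j) else tK s (σ j) P.n P.k d (P.vx m j)) +
        tI s P.n P.k d m) := by
      refine sum_congr rfl fun m hm => ?_
      exact marD hA hg kb hσ (mem_filter.1 hm).2 (mem_range.1 (mem_filter.1 hm).1) d
    rw [h2, sum_add_distrib, sum_comm]
    congr 1
    refine sum_congr rfl fun j _ => ?_
    by_cases hj : j ∈ P.BW
    · simp only [if_pos hj]
      exact sum_vg hA hg j (fun v => tS s P.n d v)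
    · simp only [if_neg hj]
      exact sum_vg hA hg j (fun v => tK s (σ j) P.n P.k d v)
  have hI := err_vs hA hg (f := fun v => tI s P.n P.k d v) hM (fun v _ => tI_bd kb hC s P.k d v)
  have hJ : ∀ j : Fin P.L,
      (if j ∈ P.BW then ∑ v ∈ P.vg, tS s P.n d v else ∑ v ∈ P.vg, tK s (σ j) P.n P.k d v) ≤
        (if j ∈ P.BW then Ssp s P.n d else SK s (σ j) P.n P.k d) ∧
      (if j ∈ P.BW then Ssp s P.n d else SK s (σ j) P.n P.k d) ≤
      (if j ∈ P.BW then ∑ v ∈ P.vg, tS s P.n d v else ∑ v ∈ P.vg, tK s (σ j) P.n P.k d v) +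
        P.L * (6 * C / P.n) := by
    intro j
    by_cases hj : j ∈ P.BW
    · simp only [if_pos hj]
      exact err_vs hA hg (f := fun v => tS s P.n d v) hM (fun v _ => tS_bd kb hC s d v)
    · simp only [if_neg hj]
      exact err_vs hA hg (f := fun v => tK s (σ j) P.n P.k d v) hM
        (fun v hv => tK_bd kb hC s P.k (hσ j) d hv)
  have h3 := sum_le_sum fun (j : Fin P.L) (_ : j ∈ univ) => (hJ j).1
  have h4 := sum_le_sum fun (j : Fin P.L) (_ : j ∈ univ) => (hJ j).2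
  rw [sum_add_distrib, sum_const, card_univ, Fintype.card_fin, nsmul_eq_mul] at h4
  rw [h1, ← mul_sub, abs_mul, abs_of_pos (by positivity : (0 : ℝ) < 1 / P.L), div_mul_eq_mul_div,
    one_mul, div_le_iff₀ hL]
  have hI2 : ∑ v ∈ vs P.n, tI s P.n P.k d v = Sin s P.n P.k d := rfl
  rw [hI2] at hI
  rw [abs_le]
  constructor
  · nlinarith [hI.1, hI.2]
  · nlinarith [hI.1, hI.2]

private theorem exists_rot {L : ℕ} (i j : Fin L) : ∃ j' : Fin L, rot i j' = j := by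
  have hi := i.2
  have hj := j.2
  refine ⟨⟨(j.1 + (L - i.1)) % L, Nat.mod_lt _ (by omega)⟩, ?_⟩
  apply Fin.ext
  change (i.1 + (j.1 + (L - i.1)) % L) % L = j.1
  have h1 : (i.1 + (j.1 + (L - i.1)) % L) % L = (i.1 + (j.1 + (L - i.1))) % L := by
    rw [Nat.add_mod, Nat.mod_mod, ← Nat.add_mod]
  have h2 : i.1 + (j.1 + (L - i.1)) = j.1 + L := by omega
  rw [h1, h2, Nat.add_mod_right, Nat.mod_eq_of_lt hj]

private theorem anc_bd {n v : ℕ} (hv : v < n) : 0 ≤ anc n v ∧ anc n v ≤ 3 * (n : ℤ) := by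
  unfold anc
  split_ifs <;> omega

theorem WW_spoke (hA : Adm P.L P.p) (hg : 1 ≤ P.g) (kb : KoBasic C c P.n)
    (hσ : ∀ j, σ j < 4) {r : ℕ} {x : Fin P.L → ℤ} (hgood : P.good r)
    (h : ∑ i : Fin P.L, P.Wt s σ (P.vx r i) (fun j => x (rot i j)) ≠ 0) (j : Fin P.L) :
    |x j - anc P.n (P.vx r j)| ≤ 2 * (P.n : ℤ) := by
  obtain ⟨i, -, hi⟩ := exists_ne_zero_of_sum_ne_zero h
  obtain ⟨j', hj'⟩ := exists_rot i j
  unfold Wt at hi
  have h1 := (prod_ne_zero_iff.1 hi) j' (mem_univ _)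
  have hgi : P.good (P.vx r i) := (good_vx r i).2 hgood
  have hv := good_vs hA hg hgi j'
  have hvx : P.vx (P.vx r i) j' = P.vx r j := by rw [vx_rot, hj']
  unfold facA at h1
  simp only [hj', hvx] at h1
  rw [hvx] at hv
  by_cases hb : j' ∈ P.BW
  · rw [if_pos hb] at h1
    unfold lwo at h1
    by_cases hy : x j ∈ Icc (P.n : ℤ) (2 * P.n)
    · have h2 := mem_Icc.1 hy
      have h3 := anc_bd (mem_range.1 (mem_filter.1 hv).1)
      rw [abs_le]
      constructor <;> omega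
    · rw [if_neg hy] at h1
      exact absurd rfl h1
  · rw [if_neg hb] at h1
    exact kb.kc_supp (σ j') (hσ _) _ hv _ _ _ h1

/-- From the density statements to the weight system. -/
theorem wsCore (hA : Adm P.L P.p) (hg : 1 ≤ P.g) (kb : KoBasic C c P.n) (hC : 0 < C) (hc : 0 < c)
    (hσ : ∀ j, σ j < 4) {ε δ : ℝ} (hε0 : 0 < ε)
    (hD : ∀ d : ℤ, 1 ≤ d → d ≤ 2 * P.n → |∑ j : Fin P.L,
      (if j ∈ P.BW then Ssp s P.n d else SK s (σ j) P.n P.k d) + Sin s P.n P.k d - P.L| ≤ δ)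
    (hLb : ∀ z : ℤ, ∑ j : Fin P.L, (if j ∈ P.BW then Ll s P.n z else SM s (σ j) P.n P.k z) ≤
      24 / 25 * P.L + δ)
    (hε : δ + (P.L + 1) * (6 * C / P.n) ≤ ε) (hδ : δ ≤ 1 / 50) :
    P.WS (C ^ P.L) (c ^ P.L / P.L) ε (P.WW s σ) := by
  have hL1 : (1 : ℝ) ≤ P.L := by
    have := hA.three
    exact_mod_cast (by omega : 1 ≤ P.L)
  have hL : (0 : ℝ) < P.L := by linarith
  refine ⟨fun r x => WW_nonneg hA hg kb hσ r x, ?_, fun r x => WW_le hA hg kb hσ hC r x,
    fun r hr hgood => cyc_WW hA s σ hr hgood fun m hm => mar0 hA hg kb hσ hm,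
    fun r hr hgood x hx j h1 h2 => WW_low hA hg kb hσ hc hr hgood hx j h1 h2, ?_, ?_⟩
  · intro r x h
    unfold WW at h
    by_cases hcon : r < P.g ∧ P.good r ∧ x ∈ P.box
    · rw [if_pos hcon] at h
      exact ⟨hcon.1, hcon.2.1, hcon.2.2, fun j => WW_spoke hA hg kb hσ hcon.2.1
        (right_ne_zero_of_mul h) j⟩
    · exact absurd (if_neg hcon) h
  · intro z
    have h1 := sum_lab (s := s) hA hg kb hC hσ z
    refine h1.trans ?_
    have h2 := mul_le_mul_of_nonneg_left (hLb z) (by positivity : (0 : ℝ) ≤ 1 / P.L)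
    refine h2.trans ?_
    have h3 : 1 / (P.L : ℝ) * (24 / 25 * P.L + δ) = 24 / 25 + δ / P.L := by
      field_simp
    rw [h3]
    have h4 : δ / P.L ≤ 1 / 50 := by
      rw [div_le_iff₀ hL]
      nlinarith
    linarith
  · refine ⟨∅, ?_, ?_⟩
    · rw [card_empty]
      have : (0 : ℝ) ≤ ε * P.n := by positivity
      simpa using this
    · intro d hd1 hd2 _
      have h1 := sum_dif (s := s) hA hg kb hC hσ d
      have h2 := hD d hd1 hd2
      have hδ0 : 0 ≤ δ := (abs_nonneg _).trans h2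
      obtain ⟨T, hT⟩ : ∃ T : ℝ, T = ∑ j : Fin P.L,
        (if j ∈ P.BW then Ssp s P.n d else SK s (σ j) P.n P.k d) + Sin s P.n P.k d := ⟨_, rfl⟩
      rw [← hT] at h1 h2
      have h3 : |1 / (P.L : ℝ) * T - 1| ≤ δ := by
        have h4 : 1 / (P.L : ℝ) * T - 1 = (1 / P.L) * (T - P.L) := by
          field_simp
        rw [h4, abs_mul, abs_of_pos (by positivity : (0 : ℝ) < 1 / P.L), div_mul_eq_mul_div,
          one_mul, div_le_iff₀ hL]
        nlinarith
      have h5 := abs_le.1 h1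
      have h6 := abs_le.1 h3
      change |∑ r ∈ range P.g, ∑ x ∈ P.box, P.WW s σ r x * P.cD r x d - 1| ≤ ε
      rw [abs_le]
      constructor
      · linarith [h5.1, h5.2, h6.1, h6.2]
      · linarith [h5.1, h5.2, h6.1, h6.2]

/-! ## Sums over the roles -/

theorem sum_roles (A B : ℝ) (H : ℕ) :
    ∑ j ∈ range (2 * H + 1), (if j = 0 ∨ j % 2 = 1 then A else B) = (H + 1) * A + H * B := by
  induction H with
  | zero => simp
  | succ H ih =>
    have h1 : 2 * (H + 1) + 1 = 2 * H + 1 + 1 + 1 := by ring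
    rw [h1, sum_range_succ, sum_range_succ, ih, if_pos (by omega), if_neg (by omega)]
    push_cast
    ring

/-- the kernel of the role `j` for `L ≥ 5` -/
def sg5 (L j : ℕ) : ℕ := if j = 2 ∨ j + 1 = L then 1 else 0

theorem sum_sg5 (hA : Adm P.L P.p) (h5 : 5 ≤ P.L) (f : ℕ → ℝ) (A : ℝ) :
    ∑ j : Fin P.L, (if j ∈ P.BW then A else f (sg5 P.L j)) =
      (((P.L : ℝ) - 1) / 2 + 1) * A + (((P.L : ℝ) - 1) / 2 - 2) * f 0 + 2 * f 1 := by
  obtain ⟨H, hH⟩ := hA.odd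
  have h1 : ∑ j : Fin P.L, (if j ∈ P.BW then A else f (sg5 P.L j)) =
      ∑ j ∈ range P.L, (if j = 0 ∨ j % 2 = 1 then A else f (sg5 P.L j)) := by
    rw [← Fin.sum_univ_eq_sum_range (fun j => if j = 0 ∨ j % 2 = 1 then A else f (sg5 P.L j)) P.L]
    refine sum_congr rfl fun j _ => ?_
    have : (j ∈ P.BW) = (j.1 = 0 ∨ j.1 % 2 = 1) := by
      unfold BW
      simp
    simp only [this]
  have h2 : ∑ j ∈ range P.L, (if j = 0 ∨ j % 2 = 1 then A else f (sg5 P.L j)) =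
      ∑ j ∈ range P.L, ((if j = 0 ∨ j % 2 = 1 then A else f 0) +
        (if j = 2 then f 1 - f 0 else 0) + (if j = P.L - 1 then f 1 - f 0 else 0)) := by
    refine sum_congr rfl fun j hj => ?_
    rw [mem_range] at hj
    unfold sg5
    by_cases e1 : j = 0 ∨ j % 2 = 1
    · rw [if_pos e1, if_pos e1, if_neg (by omega), if_neg (by omega)]
      ring
    · rw [if_neg e1, if_neg e1]
      by_cases e2 : j = 2
      · rw [if_pos (Or.inl e2), if_pos e2, if_neg (by omega)]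
        ring
      · by_cases e3 : j + 1 = P.L
        · rw [if_pos (Or.inr e3), if_neg e2, if_pos (by omega)]
          ring
        · rw [if_neg (by omega), if_neg e2, if_neg (by omega)]
          ring
  have h3 : ∑ j ∈ range P.L, (if j = 2 then f 1 - f 0 else 0) = f 1 - f 0 := by
    rw [sum_ite_eq' (range P.L) 2 (fun _ => f 1 - f 0), if_pos (mem_range.2 (by omega))]
  have h4 : ∑ j ∈ range P.L, (if j = P.L - 1 then f 1 - f 0 else 0) = f 1 - f 0 := by
    rw [sum_ite_eq' (range P.L) (P.L - 1) (fun _ => f 1 - f 0), if_pos (mem_range.2 (by omega))]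
  rw [h1, h2, sum_add_distrib, sum_add_distrib, h3, h4, hH, sum_roles]
  push_cast
  ring

theorem sum_three (h3 : P.L = 3) (f : ℕ → ℝ) (A : ℝ) (t : ℕ) :
    ∑ j : Fin P.L, (if j ∈ P.BW then A else f t) = 2 * A + f t := by
  have h1 : ∑ j : Fin P.L, (if j ∈ P.BW then A else f t) =
      ∑ j ∈ range P.L, (if j = 0 ∨ j % 2 = 1 then A else f t) := by
    rw [← Fin.sum_univ_eq_sum_range (fun j => if j = 0 ∨ j % 2 = 1 then A else f t) P.L]
    refine sum_congr rfl fun j _ => ?_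
    have : (j ∈ P.BW) = (j.1 = 0 ∨ j.1 % 2 = 1) := by
      unfold BW
      simp
    simp only [this]
  rw [h1, h3, show 3 = 2 * 1 + 1 from rfl, sum_roles]
  push_cast
  ring

end Par

/-- Theorem W. -/
theorem thmW (hB : KoB) (h01 : Ko01) (h23 : Ko23) {L p : ℕ} (hA : Adm L p) : ThmW L p := by
  obtain ⟨C, c, hC, hc, n0, hB⟩ := hB
  have hL3 := hA.three
  have hLp : 0 < L := by omega
  have hLR : (3 : ℝ) ≤ L := by exact_mod_cast hL3
  refine ⟨C ^ L, c ^ L / L, by positivity, by positivity, ?_⟩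
  intro ε hε
  -- error of the special cycle
  obtain ⟨g1, hg1⟩ : ∃ g1 : ℕ, ∀ g : ℕ, g1 ≤ g → (L + 1) * (6 * C / ((L * g : ℕ) : ℝ)) ≤ ε / 2 := by
    obtain ⟨g1, hg1⟩ := exists_nat_ge (((L : ℝ) + 1) * (6 * C) / (ε / 2))
    refine ⟨g1 + 1, fun g hg => ?_⟩
    have e1 : (g1 : ℝ) + 1 ≤ g := by exact_mod_cast hg
    have e0 : (0 : ℝ) ≤ g1 := Nat.cast_nonneg _
    have e2 : (g : ℝ) ≤ ((L * g : ℕ) : ℝ) := by
      push_cast
      nlinarith
    have e3 : (0 : ℝ) < ((L * g : ℕ) : ℝ) := by linarith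
    rw [← mul_div_assoc, div_le_iff₀ e3]
    rw [div_le_iff₀ (by positivity)] at hg1
    nlinarith
  by_cases h5 : 5 ≤ L
  · obtain ⟨ε1, hε1⟩ : ∃ ε1 : ℝ, ε1 = min (ε / 2) (1 / 50) / L := ⟨_, rfl⟩
    have hε1p : 0 < ε1 := by
      rw [hε1]
      positivity
    obtain ⟨n1, h01⟩ := h01 ε1 hε1p
    refine ⟨max (max n0 n1) (max g1 1), fun g hg => ?_⟩
    have hg' : n0 ≤ g ∧ n1 ≤ g ∧ g1 ≤ g ∧ 1 ≤ g := by
      simp only [max_le_iff] at hg
      tauto
    obtain ⟨P, hP⟩ : ∃ P : Par, P = Par.mk L p g := ⟨_, rfl⟩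
    have hPL : P.L = L := by rw [hP]
    have hPp : P.p = p := by rw [hP]
    have hPg : P.g = g := by rw [hP]
    have hPn : P.n = L * g := by rw [hP]; rfl
    have hPk : P.k = p * g := by rw [hP]; rfl
    have hng : g ≤ P.n := by
      rw [hPn]
      exact Nat.le_mul_of_pos_left g hLp
    have hAP : Adm P.L P.p := by rw [hPL, hPp]; exact hA
    have kb := hB P.n (hg'.1.trans hng)
    have hk1 : 1 ≤ P.k := by
      rw [hPk]
      exact Nat.mul_pos hA.p_pos hg'.2.2.2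
    have hk2 : 2 * P.k < P.n := by
      rw [hPk, hPn, ← mul_assoc]
      exact Nat.mul_lt_mul_of_pos_right hA.p_lt hg'.2.2.2
    obtain ⟨hK0, hK1⟩ := h01 P.n P.k (hg'.2.1.trans hng) hk1 hk2
    rw [← hP]
    have hδ : min (ε / 2) (1 / 50) = ε1 * L := by
      rw [hε1]
      field_simp
    have hH : (0 : ℝ) ≤ ((P.L : ℝ) - 1) / 2 - 2 := by
      rw [hPL]
      have : (5 : ℝ) ≤ L := by exact_mod_cast h5
      linarith
    have key := Par.wsCore (P := P) (s := 0) (σ := Par.sg5 P.L) (ε := ε)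
      (δ := min (ε / 2) (1 / 50)) hAP (by rw [hPg]; exact hg'.2.2.2) kb hC hc
      (fun j => by unfold Par.sg5; split_ifs <;> norm_num) hε ?_ ?_ ?_ (min_le_right _ _)
    · rw [hPL] at key
      exact ⟨_, key⟩
    · intro d hd1 hd2
      have a0 := hK0.1 d hd1 hd2
      have a1 := hK1.1 d hd1 hd2
      rw [Par.sum_sg5 hAP (by rw [hPL]; exact h5) (fun t => SK 0 t P.n P.k d) (Ssp 0 P.n d)]
      simp only [SK_self, SK_01, Sin_01, Ssp_01] at a0 ⊢
      rw [hδ]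
      have e1 : (((P.L : ℝ) - 1) / 2 + 1) * Ssp 1 P.n d +
          (((P.L : ℝ) - 1) / 2 - 2) * Sk 0 P.n P.k d + 2 * Sk 1 P.n P.k d + Sin 1 P.n P.k d -
          P.L = (((P.L : ℝ) - 1) / 2 - 2) * (1 * Ssp 1 P.n d + 0 * Sin 1 P.n P.k d +
            1 * Sk 0 P.n P.k d - 2) +
          (3 * Ssp 1 P.n d + 1 * Sin 1 P.n P.k d + 2 * Sk 1 P.n P.k d - 5) := by ring
      rw [e1]
      refine (abs_add_le _ _).trans ?_
      rw [abs_mul, abs_of_nonneg hH]
      have e2 := mul_le_mul_of_nonneg_left a0 hH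
      rw [hPL] at e2 ⊢
      nlinarith
    · intro z
      have a0 := hK0.2 z
      have a1 := hK1.2 z
      rw [Par.sum_sg5 hAP (by rw [hPL]; exact h5) (fun t => SM 0 t P.n P.k z) (Ll 0 P.n z)]
      simp only [SM_self, SM_01, Ll_01] at a0 ⊢
      rw [hδ]
      have e2 := mul_le_mul_of_nonneg_left a0 hH
      rw [hPL] at e2 ⊢
      nlinarith
    · rw [hPn, hPL]
      have := hg1 g hg'.2.2.1
      have := min_le_left (ε / 2) (1 / 50)
      linarith
  · -- L = 3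
    have hL : L = 3 := by
      obtain ⟨H, hH⟩ := hA.odd
      omega
    have hp : p = 1 := by
      have := hA.p_pos
      have := hA.p_lt
      omega
    obtain ⟨ε1, hε1⟩ : ∃ ε1 : ℝ, ε1 = min (ε / 2) (1 / 50) := ⟨_, rfl⟩
    have hε1p : 0 < ε1 := by
      rw [hε1]
      positivity
    obtain ⟨n1, h23⟩ := h23 ε1 hε1p
    refine ⟨max (max n0 n1) (max g1 1), fun g hg => ?_⟩
    have hg' : n0 ≤ g ∧ n1 ≤ g ∧ g1 ≤ g ∧ 1 ≤ g := by
      simp only [max_le_iff] at hg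
      tauto
    obtain ⟨P, hP⟩ : ∃ P : Par, P = Par.mk L p g := ⟨_, rfl⟩
    have hPL : P.L = L := by rw [hP]
    have hPp : P.p = p := by rw [hP]
    have hPg : P.g = g := by rw [hP]
    have hPn : P.n = L * g := by rw [hP]; rfl
    have hPk : P.k = p * g := by rw [hP]; rfl
    have hng : g ≤ P.n := by
      rw [hPn]
      exact Nat.le_mul_of_pos_left g hLp
    have hAP : Adm P.L P.p := by rw [hPL, hPp]; exact hA
    have kb := hB P.n (hg'.1.trans hng)
    have hPn3 : 3 * g = P.n := by rw [hPn, hL]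
    have hPk1 : P.k = g := by rw [hPk, hp, one_mul]
    obtain ⟨t, ht, hKD⟩ : ∃ t : ℕ, t < 4 ∧ KD t 2 1 1 3 ε1 P.n P.k := by
      have := h23 g hg'.2.1
      rw [hPn3, ← hPk1] at this
      rcases Nat.even_or_odd P.k with h | h
      · exact ⟨2, by norm_num, this.1 h⟩
      · exact ⟨3, by norm_num, this.2 h⟩
    rw [← hP]
    have key := Par.wsCore (P := P) (s := t) (σ := fun _ => t) (ε := ε)
      (δ := ε1) hAP (by rw [hPg]; exact hg'.2.2.2) kb hC hc
      (fun _ => ht) hε ?_ ?_ ?_ (by rw [hε1]; exact min_le_right _ _)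
    · rw [hPL] at key
      exact ⟨_, key⟩
    · intro d hd1 hd2
      have a0 := hKD.1 d hd1 hd2
      rw [Par.sum_three (by rw [hPL]; exact hL) (fun t' => SK t t' P.n P.k d) (Ssp t P.n d) t]
      rw [SK_self]
      have e1 : (P.L : ℝ) = 3 := by
        rw [hPL, hL]
        norm_num
      rw [e1]
      have e2 : 2 * Ssp t P.n d + Sk t P.n P.k d + Sin t P.n P.k d - 3 =
        2 * Ssp t P.n d + 1 * Sin t P.n P.k d + 1 * Sk t P.n P.k d - 3 := by ring
      rw [e2]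
      exact a0
    · intro z
      have a0 := hKD.2 z
      rw [Par.sum_three (by rw [hPL]; exact hL) (fun t' => SM t t' P.n P.k z) (Ll t P.n z) t]
      rw [SM_self]
      have e1 : (P.L : ℝ) = 3 := by
        rw [hPL, hL]
        norm_num
      rw [e1]
      linarith
    · rw [hPn, hPL]
      have := hg1 g hg'.2.2.1
      have := min_le_left (ε / 2) (1 / 50)
      rw [hε1]
      linarith

end Pool.Agent.PGo
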