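import Pool.Agent.PGo.Main
import Pool.Agent.PGo.WMain
import Pool.Agent.PGo.M.Main
import Pool.Agent.PGo.AMain
import Pool.Agent.PGo.KoFin

/-!
# PGo: all generalized Petersen graphs with large `n` are graceful
-/

namespace Pool.Agent.PGo

open Pool.Agent.Helper20.Graceful

theorem all_large :
    ∃ n0 : ℕ, ∀ n k : ℕ, n0 ≤ n → 1 ≤ k → 2 * k < n → IsGraceful (genPetersen n k) :=
  all_of (fun _ _ h => thmW koB ko01 ko23 h) (fun _ _ h => M.thmM h) (fun _ _ h => thmA h)

end Pool.Agent.PGo
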