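import Pool.Agent.PGo.Vx
import Pool.Agent.PGr.PRegB

/-!
# PGo: a complete family of labelled cycles is a labelling
-/

noncomputable section

namespace Pool.Agent.PGo

open Finset Pool.Agent.PGr

variable {P : Par}

theorem good_of_fam (h : P.Ok) {J : Finset ℕ} {X : ℕ → Fin P.L → ℤ}
    (hF : P.Fam (zall P.n) (dall P.n) J X) (hJ : J.card = P.g) : ∃ z, Good P.n P.k z := by
  classical
  have hg := h.g_pos
  -- the residues
  have hres : J.image (fun m => m % P.g) = range P.g := by
    apply eq_of_subset_of_card_le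
    · intro r hr
      obtain ⟨m, _, rfl⟩ := mem_image.1 hr
      exact mem_range.2 (Nat.mod_lt _ hg)
    · rw [card_range, card_image_of_injOn, hJ]
      intro m hm m' hm' he
      exact hF.res m hm m' hm' he
  have hex : ∀ v : ℕ, v < P.n → ∃ m ∈ J, ∃ j : Fin P.L, P.vx m j = v := by
    intro v hv
    have : v % P.g ∈ J.image (fun m => m % P.g) := by
      rw [hres]; exact mem_range.2 (Nat.mod_lt _ hg)
    obtain ⟨m, hm, he⟩ := mem_image.1 this
    obtain ⟨j, hj, hv'⟩ := Par.exists_vx h hv he.symm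
    exact ⟨m, hm, ⟨j, hj⟩, hv'⟩
  have huni : ∀ m ∈ J, ∀ m' ∈ J, ∀ j j' : Fin P.L, P.vx m j = P.vx m' j' → m = m' ∧ j = j' := by
    intro m hm m' hm' j j' he
    have h1 : m % P.g = m' % P.g := by
      rw [← Par.vx_mod_g m j, ← Par.vx_mod_g m' j', he]
    have h2 := hF.res m hm m' hm' h1
    subst h2
    exact ⟨rfl, Fin.ext (Par.vx_inj h j.2 j'.2 he)⟩
  have hch : ∀ v : ℕ, ∃ q : ℕ × Fin P.L, v < P.n → q.1 ∈ J ∧ P.vx q.1 q.2 = v := by
    intro v
    by_cases hv : v < P.n
    · obtain ⟨m, hm, j, hj⟩ := hex v hv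
      exact ⟨(m, j), fun _ => ⟨hm, hj⟩⟩
    · exact ⟨(0, ⟨0, h.L_pos⟩), fun h' => absurd h' hv⟩
  choose q hq using hch
  have hz : ∀ m ∈ J, ∀ j : Fin P.L, X (q (P.vx m j)).1 (q (P.vx m j)).2 = X m j := by
    intro m hm j
    obtain ⟨h1, h2⟩ := hq (P.vx m j) (Par.vx_lt h m j)
    obtain ⟨h3, h4⟩ := huni _ h1 m hm _ j h2
    rw [h4, h3]
  refine ⟨fun v => X (q v).1 (q v).2, ?_, ?_, ?_⟩
  · intro i hi
    exact (hF.ok _ (hq i hi).1).lab _
  · intro i hi j hj he
    obtain ⟨h1, h2⟩ := hq i hi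
    obtain ⟨h3, h4⟩ := hq j hj
    by_cases hm : (q i).1 = (q j).1
    · have h5 : X (q i).1 (q i).2 = X (q i).1 (q j).2 := by
        have : X (q i).1 (q i).2 = X (q j).1 (q j).2 := he
        rw [this, hm]
      have h6 := (hF.ok _ h1).labi h5
      rw [← h2, ← h4, h6, hm]
    · exact absurd he (hF.lab _ h1 _ h3 hm _ _)
  · intro d hd
    have himg : ((J ×ˢ (univ : Finset (Bool × Fin P.L))).image
        (fun w => P.df w.1 (X w.1) w.2)) = dall P.n := by
      apply eq_of_subset_of_card_le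
      · intro e he
        obtain ⟨w, hw, rfl⟩ := mem_image.1 he
        exact (hF.ok _ (mem_product.1 hw).1).dif _
      · rw [card_image_of_injOn]
        · rw [PR.dall_card (by have := h.n_ge; omega), card_product, hJ, card_univ, Fintype.card_prod,
            Fintype.card_bool, Fintype.card_fin]
          unfold Par.n
          exact le_of_eq (by ring)
        · intro w hw w' hw' he
          have h1 := (mem_product.1 (mem_coe.1 hw)).1
          have h2 := (mem_product.1 (mem_coe.1 hw')).1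
          by_cases hm : w.1 = w'.1
          · have he' : P.df w.1 (X w.1) w.2 = P.df w.1 (X w.1) w'.2 := by
              have : P.df w.1 (X w.1) w.2 = P.df w'.1 (X w'.1) w'.2 := he
              rw [this, hm]
            exact Prod.ext hm ((hF.ok _ h1).difi he')
          · exact absurd he (hF.dif _ h1 _ h2 hm _ _)
    rw [← himg] at hd
    obtain ⟨⟨m, b, j⟩, hw, rfl⟩ := mem_image.1 hd
    have hm : m ∈ J := (mem_product.1 hw).1
    cases b
    · right
      refine ⟨P.vx m j, Par.vx_lt h m j, ?_⟩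
      have e : (P.vx m j + P.k) % P.n = P.vx m (nxt j) := by
        rw [Par.vx_nxt]; exact Par.nbp_vx m j
      rw [e]
      change |X (q (P.vx m j)).1 (q (P.vx m j)).2 -
        X (q (P.vx m (nxt j))).1 (q (P.vx m (nxt j))).2| = P.df m (X m) (false, j)
      rw [hz m hm j, hz m hm (nxt j)]
      rfl
    · left
      refine ⟨P.vx m j, Par.vx_lt h m j, ?_⟩
      change |X (q (P.vx m j)).1 (q (P.vx m j)).2 - anc P.n (P.vx m j)| = P.df m (X m) (true, j)
      rw [hz m hm j]
      rfl

end Pool.Agent.PGo
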