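import Pool.Agent.PGo.KoRf
import Pool.Agent.PGo.KoMas
import Pool.Agent.PGo.KoLa
import Pool.Agent.PGo.KoDsv

/-!
# PGo-KoBas: the basic properties of the laws (KoB)

PLAN. Constants from `Kn_props` and `la_props` (the statement `lw_*` is for all `s`: `lwo s` for `s ≥ 2` is `lwo 2`, for `s < 2` it is
`lwo 0`, because `wt` only depends on `s < 2`; so reduce to `s < 4`). `lwo s n v y = la s n true (rf n v y)` (`lwo_rf` with
`w = v`, `rf_rf`), `n ≤ y ≤ 2n` iff `rf n v y ∈ [n, 2n]`; sums over `ZB n` by `sum_rf`. `kco s n v y y' x = Kn s n p (am n v) (rf n v x)`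
(`kco_rf`, `rf_rf`), `p = cla _ _ < 6` (`grp < 3`). `|x - anc n v| ≤ 2 n` iff `|rf x - an n v| ≤ 2 n` iff `am n v ≤ tm n (rf x)` for
`x ∈ ZB n`: `tm n x' = am n v + 12 + h (x' - an n v)`. `h = 6 / n`, so `C * h = 6 C / n`.
-/

noncomputable section

namespace Pool.Agent.PGo

open Finset Pool.Agent.PGr K

private def sred (s : ℕ) : ℕ := if s < 2 then 0 else 2

private theorem sred_lt (s : ℕ) : sred s < 4 := by
  unfold sred
  split_ifs <;> omega

private theorem wt_sred (s : ℕ) (Y : ℝ) : wt s Y = wt (sred s) Y := by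
  unfold wt sred
  by_cases h : s < 2
  · rw [if_pos h, if_pos h, if_pos (by norm_num : (0 : ℕ) < 2)]
  · rw [if_neg h, if_neg h, if_neg (by norm_num : ¬ (2 : ℕ) < 2)]

private theorem lwo_sred (s n v : ℕ) (y : ℤ) : lwo s n v y = lwo (sred s) n v y := by
  unfold lwo
  simp only [wt_sred s]

private theorem lwo_eq {n : ℕ} (hn : 1 ≤ n) (s v : ℕ) (y : ℤ) :
    lwo s n v y = la (sred s) n true (rf n v y) := by
  rw [lwo_sred]
  have h := lwo_rf hn (sred s) v v (rf n v y)
  rw [rf_rf] at h
  rw [h]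
  unfold st
  rw [decide_eq_true rfl]

private theorem grp_lt (Y : ℝ) : grp Y < 3 := by
  unfold grp
  split_ifs <;> omega

private theorem cla_lt {a b : ℕ} (ha : a < 3) (hb : b < 3) : cla a b < 6 := by
  unfold cla
  split_ifs <;> omega

private theorem kco_eq {n v : ℕ} (hn : 1 ≤ n) (hv : v ∈ vs n) (s : ℕ) (y y' : ℤ) :
    ∃ p < 6, ∀ x, kco s n v y y' x = Kn s n p (am n v) (rf n v x) := by
  refine ⟨cla (grp ((rf n v y : ℝ) / n)) (grp ((rf n v y' : ℝ) / n)),
    cla_lt (grp_lt _) (grp_lt _), fun x => ?_⟩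
  have h := kco_rf hn hv s (rf n v y) (rf n v y') (rf n v x)
  rw [rf_rf, rf_rf, rf_rf] at h
  exact h

private theorem eh_mul {n : ℕ} (hn : 1 ≤ n) : eh n * n = 6 := by
  unfold eh
  have h : (n : ℝ) ≠ 0 := by
    have : (1 : ℝ) ≤ n := by exact_mod_cast hn
    linarith
  field_simp

private theorem eh_pos {n : ℕ} (hn : 1 ≤ n) : 0 < eh n := by
  unfold eh
  have h : (0 : ℝ) < n := by
    have : (1 : ℝ) ≤ n := by exact_mod_cast hn
    linarith
  positivity

/-- the condition of the support in normalised coordinates -/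
private theorem supp_iff {n v : ℕ} (hn : 1 ≤ n) (x : ℤ) :
    am n v ≤ tm n x ↔ (n : ℤ) ≤ x + ((v / 2 : ℕ) : ℤ) := by
  have h1 := eh_mul hn
  have h2 := eh_pos hn
  have h3 : am n v ≤ tm n x ↔ eh n * n ≤ eh n * ((x : ℝ) + ((v / 2 : ℕ) : ℝ)) := by
    unfold am tm
    constructor <;> intro h <;> linarith
  rw [h3, mul_le_mul_iff_right₀ h2]
  generalize v / 2 = w
  constructor
  · intro h
    exact_mod_cast h
  · intro h
    exact_mod_cast h

private theorem vs_lt {n v : ℕ} (hv : v ∈ vs n) : v < n := by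
  unfold vs at hv
  exact mem_range.1 (mem_filter.1 hv).1

private theorem zb_lt {n : ℕ} {x : ℤ} (hx : x ∈ ZB n) : 2 * x < 5 * (n : ℤ) := by
  unfold ZB at hx
  exact (mem_filter.1 hx).2.2

theorem koB : KoB := by
  obtain ⟨C1, n1, hC1, hn1, H1⟩ := Kn_props
  obtain ⟨C2, hC2, H2⟩ := la_props
  have hC : 0 < C1 + C2 := by linarith
  refine ⟨6 * (C1 + C2), 6 / (C1 + C2), by linarith, by positivity, n1, fun n hn => ?_⟩
  have hn' : 1 ≤ n := hn1.trans hn
  have hnr : (0 : ℝ) < n := by exact_mod_cast hn'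
  have he := eh_mul hn'
  have hep := eh_pos hn'
  have hup1 : C1 * eh n ≤ 6 * (C1 + C2) / n := by
    rw [le_div_iff₀ hnr, mul_assoc, he]
    nlinarith
  have hup2 : C2 * eh n ≤ 6 * (C1 + C2) / n := by
    rw [le_div_iff₀ hnr, mul_assoc, he]
    nlinarith
  have hlo1 : 6 / (C1 + C2) / n ≤ eh n / C1 := by
    unfold eh
    rw [div_div, div_div]
    refine div_le_div_of_nonneg_left (by norm_num) (by positivity) ?_
    nlinarith
  have hlo2 : 6 / (C1 + C2) / n ≤ eh n / C2 := by
    unfold eh
    rw [div_div, div_div]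
    refine div_le_div_of_nonneg_left (by norm_num) (by positivity) ?_
    nlinarith
  have hrfI : ∀ (v : ℕ) (y : ℤ), (n : ℤ) ≤ y → y ≤ 2 * n → rf n v y ∈ Icc (n : ℤ) (2 * n) := by
    intro v y h1 h2
    unfold rf
    rw [mem_Icc]
    split_ifs
    · exact ⟨h1, h2⟩
    · constructor <;> linarith
  exact
    { lw_nonneg := fun s v y => by
        rw [lwo_eq hn']
        exact (H2 n hn' _ (sred_lt s) true).nonneg _
      lw_le := fun s v y => by
        rw [lwo_eq hn']
        exact ((H2 n hn' _ (sred_lt s) true).le _).trans hup2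
      lw_low := fun s v y h1 h2 => by
        rw [lwo_eq hn']
        exact hlo2.trans ((H2 n hn' _ (sred_lt s) true).low _ (hrfI v y h1 h2))
      lw_sum := fun s v => by
        rw [sum_congr rfl fun y _ => lwo_eq hn' s v y,
          sum_rf n v (fun y => la (sred s) n true y)]
        exact (H2 n hn' _ (sred_lt s) true).sum
      kc_nonneg := fun s hs v hv y y' x => by
        obtain ⟨p, hp, h⟩ := kco_eq hn' hv s y y'
        rw [h]
        exact (H1 n hn s hs p hp _ (am_mem hv).1 (am_mem hv).2).nonneg _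
      kc_le := fun s hs v hv y y' x => by
        obtain ⟨p, hp, h⟩ := kco_eq hn' hv s y y'
        rw [h]
        exact ((H1 n hn s hs p hp _ (am_mem hv).1 (am_mem hv).2).le _).trans hup1
      kc_low := fun s hs v hv y y' x hx hxa => by
        obtain ⟨p, hp, h⟩ := kco_eq hn' hv s y y'
        rw [h]
        refine hlo1.trans ((H1 n hn s hs p hp _ (am_mem hv).1 (am_mem hv).2).low _
          ((rf_mem n v x).2 hx) ?_)
        rw [supp_iff hn']
        rw [← rf_sub n v, rf_anc hv] at hxa
        have h1 := (abs_le.1 hxa).1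
        unfold an at h1
        linarith
      kc_sum := fun s hs v hv y y' => by
        obtain ⟨p, hp, h⟩ := kco_eq hn' hv s y y'
        rw [sum_congr rfl fun x _ => h x, sum_rf n v (fun x => Kn s n p (am n v) x)]
        exact (H1 n hn s hs p hp _ (am_mem hv).1 (am_mem hv).2).sum
      kc_supp := fun s hs v hv y y' x hx => by
        obtain ⟨p, hp, h⟩ := kco_eq hn' hv s y y'
        rw [h] at hx
        obtain ⟨h1, h2⟩ := (H1 n hn s hs p hp _ (am_mem hv).1 (am_mem hv).2).supp _ hx
        rw [supp_iff hn'] at h2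
        rw [← rf_sub n v, rf_anc hv]
        have h3 := zb_lt h1
        have h4 := vs_lt hv
        unfold an
        rw [abs_le]
        constructor
        · linarith
        · omega }

end Pool.Agent.PGo
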