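import Pool.Agent.PGo.KoTab

/-!
# PGo, section 3: definitions for the facts about the integer tables

Cells of the normalised neighbour labels: `i < 6` is the cell `[1 + i/6, 1 + (i+1)/6)`, in mesh
coordinates `[3 + i, 4 + i)`. `wI s c i j / WtI s` is the probability that the two neighbour labels
lie in the cells `i` and `j` given that the anchor lies in the column `c`
(`s = 3`: `c = 1`: both reflected, `c = 0, 2`: one of them reflected, symmetrised).
-/

namespace Pool.Agent.PGo

/-- group of the cell -/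
def gI (i : ℕ) : ℕ := if i = 0 then 0 else if i < 4 then 1 else 2
/-- class of the pair of groups -/
def claI (a b : ℕ) : ℕ := if a = 0 ∨ b = 0 then a + b else a + b + 1
/-- class of the pair of cells -/
def cI (i j : ℕ) : ℕ := claI (gI i) (gI j)
def nuI (i : ℕ) : ℤ := if i = 0 ∨ i = 5 then 2 else 1
def fI (i : ℕ) : ℤ := if i = 0 then 7 else if i = 1 then 5 else 2
def frI (i : ℕ) : ℤ := fI (5 - i)
/-- weights of the pairs of cells -/
def wI (s c i j : ℕ) : ℤ :=
  if s < 2 then nuI i * nuI j else if s = 2 then fI i * fI j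
  else if c = 1 then 2 * (frI i * frI j) else fI i * frI j + frI i * fI j
/-- total weight -/
def WtI (s : ℕ) : ℤ := if s < 2 then 64 else if s = 2 then 400 else 800
/-- multiplicity of the items -/
def muI (s : ℕ) : ℤ := if s = 1 then 2 else 1
/-- right side -/
def RI (s : ℕ) : ℤ := if s = 0 then 2 else if s = 1 then 5 else 3
/-- number of black spokes -/
def abI (s : ℕ) : ℤ := if s = 0 then 1 else if s = 1 then 3 else 2
/-- scale of the black part -/
def SCI (s : ℕ) : ℤ := if s = 0 then 4 else if s = 1 then 32 else 200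

/-- symmetry and positivity of the weights -/
def WC (s c : ℕ) : Prop := ∀ i < 6, ∀ j < 6, wI s c i j = wI s c j i ∧ 0 < wI s c i j

instance (s c : ℕ) : Decidable (WC s c) := by unfold WC; infer_instance

/-- bounds of the entries -/
def NF (s p c x j : ℕ) : Prop :=
  if (if j < 3 then c < x else c ≤ x) then
    den s ≤ 200 * N s p c x j ∧ N s p c x j ≤ 12 * den s else N s p c x j = 0

instance (s p c x j : ℕ) : Decidable (NF s p c x j) := by unfold NF; infer_instance

def NF2 (s p c : ℕ) : Prop := ∀ x < 12, ∀ j < 6, NF s p c x j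

instance (s p c : ℕ) : Decidable (NF2 s p c) := by unfold NF2; infer_instance

/-- `2 den` times the horizontal integral of `∑ j, w i j ker_(cI i j)` at the lower side of the
cell `x` -/
def Q0 (s i x : ℕ) : ℤ := ∑ c ∈ Finset.range 3, ∑ j ∈ Finset.range 6,
  wI s c i j * (N s (cI i j) c x 0 + N s (cI i j) c x 1)
/-- the mixed coefficient -/
def Q1 (s i x : ℕ) : ℤ := ∑ c ∈ Finset.range 3, ∑ j ∈ Finset.range 6,
  wI s c i j * (N s (cI i j) c x 2 + N s (cI i j) c x 3)
/-- the same at the upper side of the cell `x` -/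
def Q2 (s i x : ℕ) : ℤ := ∑ c ∈ Finset.range 3, ∑ j ∈ Finset.range 6,
  wI s c i j * (N s (cI i j) c x 4 + N s (cI i j) c x 5)

def Q0z (s i : ℕ) (z : ℤ) : ℤ := if 0 ≤ z ∧ z < 12 then Q0 s i z.toNat else 0
def Q2z (s i : ℕ) (z : ℤ) : ℤ := if 0 ≤ z ∧ z < 12 then Q2 s i z.toNat else 0

/-! `2 den * ∫_0^1 H_i (z + d + y) dy`, `H_i` the horizontal integral -/
def gp0 (s i : ℕ) (z : ℤ) : ℤ := Q0z s i z + Q2z s i z
def gp1 (s i : ℕ) (z : ℤ) : ℤ := - 2 * Q0z s i z + 2 * Q0z s i (z + 1)
def gp2 (s i : ℕ) (z : ℤ) : ℤ := Q0z s i z - Q2z s i z - Q0z s i (z + 1) + Q2z s i (z + 1)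
/-! the same for `H_i (w + 1 - d + y)` -/
def gm0 (s i : ℕ) (w : ℤ) : ℤ := Q0z s i (w + 1) + Q2z s i (w + 1)
def gm1 (s i : ℕ) (w : ℤ) : ℤ := 2 * Q2z s i w - 2 * Q2z s i (w + 1)
def gm2 (s i : ℕ) (w : ℤ) : ℤ := Q0z s i w - Q2z s i w - Q0z s i (w + 1) + Q2z s i (w + 1)

/-! `2 den * ∫_c^(c+1) ker a (a + 12 - (k + d)) da` -/
def dq0 (s p k c : ℕ) : ℤ :=
  if c < k then N s p c (12 + c - k) 0 + N s p c (12 + c - k) 2 else 0
def dq1 (s p k c : ℕ) : ℤ :=
  (if c ≤ k then 2 * N s p c (11 + c - k) 4 else 0)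
  + (if c < k then 2 * N s p c (12 + c - k) 1 - 2 * N s p c (12 + c - k) 0
      - 2 * N s p c (12 + c - k) 2 else 0)
def dq2 (s p k c : ℕ) : ℤ :=
  (if c ≤ k then N s p c (11 + c - k) 3 + N s p c (11 + c - k) 5 - 2 * N s p c (11 + c - k) 4
    else 0)
  + (if c < k then N s p c (12 + c - k) 0 + N s p c (12 + c - k) 2
      - 2 * N s p c (12 + c - k) 1 else 0)

/-- `SCI` times the density of the black spokes and black inner edges at the mesh point `k` (the
density is linear between the mesh points) -/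
def BK (s k : ℕ) : ℤ :=
  (∑ c ∈ Finset.range 3, ∑ i ∈ Finset.range 6, if k + i = 9 + c then
    (if s = 0 then nuI i else if s = 1 then 24 * nuI i else 40 * fI i) else 0)
  + (if s = 0 then 0 else ∑ i ∈ Finset.range 6, ∑ j ∈ Finset.range 6,
      if i + k = j ∨ j + k = i then
        (if i = j then 2 else 1) * (if s = 1 then 3 * (nuI i * nuI j) else
          if s = 2 then 3 * (fI i * fI j) else fI i * fI j + 2 * (fI i * frI j)) else 0)

/-- density of the black labels of a vertex (times `WbI s`) on the cell `x < 12` of the mesh -/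
def lI (s x : ℕ) : ℤ := if 3 ≤ x ∧ x < 9 then (if s < 2 then nuI (x - 3) else fI (x - 3)) else 0
def WbI (s : ℕ) : ℤ := if s < 2 then 8 else 20
/-- the same at the mesh point `x` (closed at `9`) -/
def lJ (s x : ℕ) : ℤ := if x = 9 then lI s 8 else lI s x

theorem den_pos : ∀ s < 4, 0 < den s := by decide +kernel

theorem w_facts : ∀ s < 4, ∀ c < 3,
    ∑ i ∈ Finset.range 6, ∑ j ∈ Finset.range 6, wI s c i j = WtI s := by
  decide +kernel

theorem c_facts : ∀ i < 6, ∀ j < 6, cI i j = cI j i ∧ cI i j < 6 := by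
  decide +kernel

theorem w_comm : ∀ s < 4, ∀ c < 3, WC s c := by
  decide +kernel

/-- weights of the cells of the labels of a neighbour of the same (`b = true`) or other type -/
def wB (s : ℕ) (b : Bool) (i : ℕ) : ℤ := if s < 2 then nuI i else if b then fI i else frI i

/-- type of the neighbour `v + k` in the column `c` -/
def be1 (s c : ℕ) : Bool := if s = 3 then decide (c = 0) else true
/-- type of the neighbour `v - k` in the column `c` -/
def be2 (s c : ℕ) : Bool := if s = 3 then decide (c = 2) else true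

theorem wB_sum : ∀ s < 4, ∀ b : Bool, ∑ i ∈ Finset.range 6, wB s b i = WbI s := by
  decide +kernel

theorem wB_pos : ∀ s < 4, ∀ b : Bool, ∀ i < 6, 1 ≤ wB s b i ∧ wB s b i ≤ 7 := by
  decide +kernel

/-- the weights of the pairs of cells are the symmetrised products -/
theorem wB_wI : ∀ s < 4, ∀ c < 3, ∀ i < 6, ∀ j < 6,
    WtI s * (wB s (be1 s c) i * wB s (be2 s c) j + wB s (be2 s c) i * wB s (be1 s c) j) =
      2 * (WbI s) ^ 2 * wI s c i j := by
  decide +kernel

end Pool.Agent.PGo
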