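import Pool.Agent.PGo.KoBase
set_option autoImplicit false

/-!
Part K of project PGr: the three line integrals of the kernel in mesh coordinates.
-/

open MeasureTheory intervalIntegral Set

namespace Pool.Agent.PGo.K

open PGrK (HI)

/-! ### vertical lines: identity (K1) -/

/-- contribution of one cell to the vertical line integral at `u`. -/
noncomputable def vcell (s p c x : ℕ) (u : ℝ) : ℝ :=
  u * Lw s p c x u (u / 2) + (1 - u) * Up s p c x u ((u + 1) / 2)

theorem HI_vcell {s p x : ℕ} (hx : x < 12) {a : ℝ} (ha0 : 0 ≤ a) (ha3 : a ≤ 3) :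
    HI (fun t => ker s p a t) (x : ℝ) ((x : ℝ) + 1) (vcell s p (col a) x (a - (col a : ℝ))) := by
  set u := a - (col a : ℝ) with hu
  have hb := col_bd ha0 ha3
  have h1 : HI (fun t => ker s p a t) (x : ℝ) ((x : ℝ) + u)
      (((x : ℝ) + u - x) * Lw s p (col a) x u (((x : ℝ) + ((x : ℝ) + u)) / 2 - x)) := by
    refine HI.of_affine (by linarith [hb.1]) (fun t => Lw s p (col a) x u (t - x))
      (- T s p (col a) x 1 + T s p (col a) x 2)
      (T s p (col a) x 0 * (1 - u) + T s p (col a) x 1 * (u + x) - T s p (col a) x 2 * x) ?_ ?_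
    · intro t; unfold Lw; ring
    · intro t ht
      rw [ker_cell hx ha0 ha3 ht.1.le (by linarith [ht.2, hb.2])]
      unfold cellv
      rw [if_pos (by linarith [ht.2])]
  have h2 : HI (fun t => ker s p a t) ((x : ℝ) + u) ((x : ℝ) + 1)
      (((x : ℝ) + 1 - (x + u)) * Up s p (col a) x u ((((x : ℝ) + u) + ((x : ℝ) + 1)) / 2 - x)) := by
    refine HI.of_affine (by linarith [hb.2]) (fun t => Up s p (col a) x u (t - x))
      (- T s p (col a) x 3 + T s p (col a) x 4)
      (T s p (col a) x 3 * (1 + x) - T s p (col a) x 4 * (u + x) + T s p (col a) x 5 * u) ?_ ?_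
    · intro t; unfold Up; ring
    · intro t ht
      rw [ker_cell hx ha0 ha3 (by linarith [ht.1, hb.1]) ht.2]
      unfold cellv
      rw [if_neg (by linarith [ht.1])]
  refine (h1.trans h2).of_eq ?_
  unfold vcell
  congr 1
  · congr 1
    · ring
    · congr 1; ring
  · congr 1
    · ring
    · congr 1; ring

theorem vcell_eq (s p c x : ℕ) (u : ℝ) : vcell s p c x u =
    ((N s p c x 3 + N s p c x 4 : ℤ) : ℝ) / (2 * (den s : ℝ))
    + ((N s p c x 0 - N s p c x 3 - N s p c x 4 + N s p c x 5 : ℤ) : ℝ) / (den s : ℝ) * u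
    + ((-2 * N s p c x 0 + N s p c x 1 + N s p c x 2 + N s p c x 3 + N s p c x 4 - 2 * N s p c x 5 : ℤ) : ℝ)
        / (2 * (den s : ℝ)) * u ^ 2 := by
  unfold vcell Lw Up T
  push_cast
  ring

theorem vert_facts (s : ℕ) (hs : s < 4) : ∀ p < 6, ∀ c < 3,
    (∑ x ∈ Finset.range 12, (N s p c x 3 + N s p c x 4)) = 12 * den s ∧
    (∑ x ∈ Finset.range 12, (N s p c x 0 - N s p c x 3 - N s p c x 4 + N s p c x 5)) = 0 ∧
    (∑ x ∈ Finset.range 12, (-2 * N s p c x 0 + N s p c x 1 + N s p c x 2 + N s p c x 3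
      + N s p c x 4 - 2 * N s p c x 5)) = 0 := by
  interval_cases s <;> decide +kernel

theorem HI_vert {s p : ℕ} (hs : s < 4) (hp : p < 6) {a : ℝ} (ha0 : 0 ≤ a) (ha3 : a ≤ 3) :
    HI (fun t => ker s p a t) 0 12 6 := by
  have h := HI.sum_cells (fun x => vcell s p (col a) x (a - (col a : ℝ))) 12
    (fun x hx => HI_vcell (s := s) (p := p) hx ha0 ha3)
  have h8 : ((12 : ℕ) : ℝ) = 12 := by norm_num
  rw [h8] at h
  refine h.of_eq ?_
  simp only [vcell_eq]
  rw [Finset.sum_add_distrib, Finset.sum_add_distrib, ← Finset.sum_mul, ← Finset.sum_mul,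
    ← Finset.sum_div, ← Finset.sum_div, ← Finset.sum_div, ← Int.cast_sum, ← Int.cast_sum,
    ← Int.cast_sum]
  obtain ⟨h1, h2, h3⟩ := vert_facts s hs p hp (col a) (col_lt a)
  rw [h1, h2, h3]
  have hd := (den_posR s).ne'
  push_cast
  field_simp
  ring

/-! ### horizontal lines -/

/-- contribution of one cell to the horizontal line integral at `v`. -/
noncomputable def hcell (s p c x : ℕ) (v : ℝ) : ℝ :=
  v * Up s p c x (v / 2) v + (1 - v) * Lw s p c x ((v + 1) / 2) v

theorem HI_hcell {s p c x : ℕ} (hc : c < 3) (hx : x < 12) {t : ℝ} (ht : (x : ℝ) ≤ t)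
    (ht' : t < (x : ℝ) + 1) :
    HI (fun a => ker s p a t) (c : ℝ) ((c : ℝ) + 1) (hcell s p c x (t - (x : ℝ))) := by
  set v := t - (x : ℝ) with hv
  have hv0 : 0 ≤ v := by linarith
  have hv1 : v < 1 := by linarith
  have h1 : HI (fun a => ker s p a t) (c : ℝ) ((c : ℝ) + v)
      (((c : ℝ) + v - c) * Up s p c x (((c : ℝ) + ((c : ℝ) + v)) / 2 - c) v) := by
    refine HI.of_affine (by linarith) (fun a => Up s p c x (a - c) v)
      (- T s p c x 4 + T s p c x 5)
      (T s p c x 3 * (1 - v) + T s p c x 4 * (v + c) - T s p c x 5 * c) ?_ ?_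
    · intro a; unfold Up; ring
    · intro a ha
      rw [ker_cell' hc hx ⟨ha.1, by linarith [ha.2]⟩ ht ht']
      unfold cellv
      rw [if_neg (by linarith [ha.2])]
  have h2 : HI (fun a => ker s p a t) ((c : ℝ) + v) ((c : ℝ) + 1)
      (((c : ℝ) + 1 - (c + v)) * Lw s p c x ((((c : ℝ) + v) + ((c : ℝ) + 1)) / 2 - c) v) := by
    refine HI.of_affine (by linarith) (fun a => Lw s p c x (a - c) v)
      (- T s p c x 0 + T s p c x 1)
      (T s p c x 0 * (1 + c) - T s p c x 1 * (c + v) + T s p c x 2 * v) ?_ ?_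
    · intro a; unfold Lw; ring
    · intro a ha
      rw [ker_cell' hc hx ⟨by linarith [ha.1], ha.2⟩ ht ht']
      unfold cellv
      rw [if_pos (by linarith [ha.1])]
  refine (h1.trans h2).of_eq ?_
  unfold hcell
  congr 1
  · congr 1
    · ring
    · congr 1; ring
  · congr 1
    · ring
    · congr 1; ring

theorem hcell_eq (s p c x : ℕ) (v : ℝ) : hcell s p c x v =
    ((N s p c x 0 + N s p c x 1 : ℤ) : ℝ) / (2 * (den s : ℝ)) * (1 - v) ^ 2
    + ((N s p c x 2 + N s p c x 3 : ℤ) : ℝ) / (den s : ℝ) * (v * (1 - v))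
    + ((N s p c x 4 + N s p c x 5 : ℤ) : ℝ) / (2 * (den s : ℝ)) * v ^ 2 := by
  unfold hcell Lw Up T
  push_cast
  ring

/-! ### diagonal lines -/

/-- contribution of the column `c` to the diagonal `t = a + 12 - k - d`. -/
noncomputable def dcell (s p k c : ℕ) (d : ℝ) : ℝ :=
  d * (if c ≤ k then Up s p c (11 + c - k) (d / 2) (1 - d / 2) else 0)
  + (1 - d) * (if c < k then Lw s p c (12 + c - k) ((1 + d) / 2) ((1 - d) / 2) else 0)

theorem HI_dcell {s p k c : ℕ} (hk : k < 12) (hc : c < 3) {d : ℝ} (hd0 : 0 ≤ d) (hd1 : d ≤ 1)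
    (hdk : 0 < d ∨ k = 0) :
    HI (fun a => ker s p a (a + 12 - ((k : ℝ) + d))) (c : ℝ) ((c : ℝ) + 1) (dcell s p k c d) := by
  have h1 : HI (fun a => ker s p a (a + 12 - ((k : ℝ) + d))) (c : ℝ) ((c : ℝ) + d)
      (d * (if c ≤ k then Up s p c (11 + c - k) (d / 2) (1 - d / 2) else 0)) := by
    by_cases hck : c ≤ k
    · rw [if_pos hck]
      have hx : 11 + c - k < 12 := by omega
      have hxr : ((11 + c - k : ℕ) : ℝ) = 11 + c - k := by
        rw [Nat.cast_sub (by omega)]; push_cast; ring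
      refine HI.of_eq (HI.of_affine (by linarith)
        (fun a => Up s p c (11 + c - k) (a - c) (a - c + 1 - d))
        (- T s p c (11 + c - k) 3 + T s p c (11 + c - k) 5)
        (T s p c (11 + c - k) 3 * (c + d) + T s p c (11 + c - k) 4 * (1 - d)
          - T s p c (11 + c - k) 5 * c) ?_ ?_) ?_
      · intro a; unfold Up; ring
      · intro a ha
        have := ker_cell' (s := s) (p := p) hc hx (a := a) (t := a + 12 - ((k : ℝ) + d))
          ⟨ha.1, by linarith [ha.2]⟩ (by rw [hxr]; linarith [ha.1]) (by rw [hxr]; linarith [ha.2])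
        rw [this]
        unfold cellv
        rw [if_neg (by rw [hxr]; linarith), hxr]
        congr 1; ring
      · congr 1
        · ring
        · congr 1 <;> ring
    · rw [if_neg hck]
      refine (HI.zero (by linarith) ?_).of_eq (by ring)
      intro a ha
      apply ker_outside
      right
      have : (k : ℝ) + 1 ≤ (c : ℝ) := by exact_mod_cast not_le.1 hck
      linarith [ha.1]
  have h2 : HI (fun a => ker s p a (a + 12 - ((k : ℝ) + d))) ((c : ℝ) + d) ((c : ℝ) + 1)
      ((1 - d) * (if c < k then Lw s p c (12 + c - k) ((1 + d) / 2) ((1 - d) / 2) else 0)) := by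
    by_cases hck : c < k
    · rw [if_pos hck]
      have hx : 12 + c - k < 12 := by omega
      have hxr : ((12 + c - k : ℕ) : ℝ) = 12 + c - k := by
        rw [Nat.cast_sub (by omega)]; push_cast; ring
      refine HI.of_eq (HI.of_affine (by linarith)
        (fun a => Lw s p c (12 + c - k) (a - c) (a - c - d))
        (- T s p c (12 + c - k) 0 + T s p c (12 + c - k) 2)
        (T s p c (12 + c - k) 0 * (1 + c) + T s p c (12 + c - k) 1 * d
          - T s p c (12 + c - k) 2 * (c + d)) ?_ ?_) ?_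
      · intro a; unfold Lw; ring
      · intro a ha
        have := ker_cell' (s := s) (p := p) hc hx (a := a) (t := a + 12 - ((k : ℝ) + d))
          ⟨by linarith [ha.1], ha.2⟩ (by rw [hxr]; linarith [ha.1]) (by rw [hxr]; linarith [ha.2])
        rw [this]
        unfold cellv
        have hd : 0 < d := by
          rcases hdk with h | h
          · exact h
          · omega
        rw [if_pos (by rw [hxr]; linarith), hxr]
        congr 1; ring
      · congr 1
        · ring
        · congr 1 <;> ring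
    · rw [if_neg hck]
      refine (HI.zero (by linarith) ?_).of_eq (by ring)
      intro a ha
      apply ker_outside
      right
      have : (k : ℝ) ≤ (c : ℝ) := by exact_mod_cast not_lt.1 hck
      linarith [ha.1]
  exact (h1.trans h2).of_eq rfl

/-- coefficients (times `2 * den`) of the diagonal contribution of a column. -/
def dq0 (s p k c : ℕ) : ℤ :=
  if c < k then N s p c (12 + c - k) 0 + N s p c (12 + c - k) 2 else 0
def dq1 (s p k c : ℕ) : ℤ :=
  (if c ≤ k then 2 * N s p c (11 + c - k) 4 else 0)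
  + (if c < k then 2 * N s p c (12 + c - k) 1 - 2 * N s p c (12 + c - k) 0
      - 2 * N s p c (12 + c - k) 2 else 0)
def dq2 (s p k c : ℕ) : ℤ :=
  (if c ≤ k then N s p c (11 + c - k) 3 + N s p c (11 + c - k) 5 - 2 * N s p c (11 + c - k) 4 else 0)
  + (if c < k then N s p c (12 + c - k) 0 + N s p c (12 + c - k) 2
      - 2 * N s p c (12 + c - k) 1 else 0)

theorem dcell_eq (s p k c : ℕ) (d : ℝ) : dcell s p k c d =
    ((dq0 s p k c : ℝ) + (dq1 s p k c : ℝ) * d + (dq2 s p k c : ℝ) * d ^ 2) / (2 * (den s : ℝ)) := by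
  unfold dcell dq0 dq1 dq2 Up Lw T
  split_ifs <;> push_cast <;> ring

end Pool.Agent.PGo.K
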