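import Pool.Agent.PGo.KoPiece
set_option autoImplicit false

/-!
PGo-K: quadrature for the kernel along lines.
-/

open MeasureTheory intervalIntegral Set

namespace Pool.Agent.PGo.K

open PGrK (HI QC QC.line Q1 Q1.ii Disc quad)

/-- the kernel on a line, restricted to `J`. -/
noncomputable def kl (q p : ℕ) (a0 a1 s0 s1 : ℝ) (J : Set ℝ) (x : ℝ) : ℝ :=
  J.indicator (fun x => ker q p (a0 + a1 * x) (s0 + s1 * x)) x

theorem kl_eq (q p : ℕ) (a0 a1 s0 s1 : ℝ) (J : Set ℝ) (x : ℝ) : kl q p a0 a1 s0 s1 J x =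
    ∑ c ∈ Finset.range 3, ∑ y ∈ Finset.range 12,
      (J.indicator (fun x => pcL q p c y (a0 + a1 * x, s0 + s1 * x)) x
        + J.indicator (fun x => pcU q p c y (a0 + a1 * x, s0 + s1 * x)) x) := by
  unfold kl
  by_cases hx : x ∈ J
  · simp only [indicator_of_mem hx]
    exact ker_eq_sum q p (a0 + a1 * x, s0 + s1 * x)
  · simp only [indicator_of_notMem hx]
    simp

theorem quad_kl {ι : Type*} (s : Finset ι) (pt : ι → ℝ) {w rho al be del : ℝ} (hab : al ≤ be)
    (hd : Disc s pt w rho al be del) {q p : ℕ} (hq : q < 4) (hp : p < 6) (a0 a1 s0 s1 : ℝ) {J : Set ℝ}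
    (hJ : J.OrdConnected) :
    |w * (∑ i ∈ s, kl q p a0 a1 s0 s1 J (pt i)) - rho * ∫ x in al..be, kl q p a0 a1 s0 s1 J x|
      ≤ 900 * del := by
  have hdel : 0 ≤ del := le_trans (abs_nonneg _) (hd ∅ ordConnected_empty)
  have hQL : ∀ c ∈ Finset.range 3, ∀ y ∈ Finset.range 12,
      Q1 (J.indicator (fun x => pcL q p c y (a0 + a1 * x, s0 + s1 * x))) (12) :=
    fun c hc y hy => (qc_L hq hp (Finset.mem_range.1 hc) (Finset.mem_range.1 hy)).line _ _ _ _ hJ
  have hQU : ∀ c ∈ Finset.range 3, ∀ y ∈ Finset.range 12,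
      Q1 (J.indicator (fun x => pcU q p c y (a0 + a1 * x, s0 + s1 * x))) (12) :=
    fun c hc y hy => (qc_U hq hp (Finset.mem_range.1 hc) (Finset.mem_range.1 hy)).line _ _ _ _ hJ
  have e1 : w * (∑ i ∈ s, kl q p a0 a1 s0 s1 J (pt i)) =
      ∑ c ∈ Finset.range 3, ∑ y ∈ Finset.range 12,
        (w * (∑ i ∈ s, J.indicator (fun x => pcL q p c y (a0 + a1 * x, s0 + s1 * x)) (pt i))
         + w * (∑ i ∈ s, J.indicator (fun x => pcU q p c y (a0 + a1 * x, s0 + s1 * x)) (pt i))) := by
    simp only [kl_eq]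
    rw [Finset.sum_comm, Finset.mul_sum]
    apply Finset.sum_congr rfl
    intro c _
    rw [Finset.sum_comm, Finset.mul_sum]
    apply Finset.sum_congr rfl
    intro y _
    rw [Finset.sum_add_distrib, mul_add]
  have e2 : rho * (∫ x in al..be, kl q p a0 a1 s0 s1 J x) =
      ∑ c ∈ Finset.range 3, ∑ y ∈ Finset.range 12,
        (rho * (∫ x in al..be, J.indicator (fun x => pcL q p c y (a0 + a1 * x, s0 + s1 * x)) x)
         + rho * (∫ x in al..be,
            J.indicator (fun x => pcU q p c y (a0 + a1 * x, s0 + s1 * x)) x)) := by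
    have : ∀ x, kl q p a0 a1 s0 s1 J x = _ := kl_eq q p a0 a1 s0 s1 J
    simp only [this]
    rw [intervalIntegral.integral_finsetSum, Finset.mul_sum]
    · apply Finset.sum_congr rfl
      intro c hc
      rw [intervalIntegral.integral_finsetSum, Finset.mul_sum]
      · apply Finset.sum_congr rfl
        intro y hy
        rw [intervalIntegral.integral_add ((hQL c hc y hy).ii _ _) ((hQU c hc y hy).ii _ _),
          mul_add]
      · intro y hy
        exact ((hQL c hc y hy).ii _ _).add ((hQU c hc y hy).ii _ _)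
    · intro c hc
      have hs := IntervalIntegrable.sum (μ := volume) (a := al) (b := be) (Finset.range 12)
        (f := fun y x => J.indicator (fun x => pcL q p c y (a0 + a1 * x, s0 + s1 * x)) x
          + J.indicator (fun x => pcU q p c y (a0 + a1 * x, s0 + s1 * x)) x)
        (fun y hy => ((hQL c hc y hy).ii _ _).add ((hQU c hc y hy).ii _ _))
      have he : (∑ y ∈ Finset.range 12,
          fun x => J.indicator (fun x => pcL q p c y (a0 + a1 * x, s0 + s1 * x)) x
          + J.indicator (fun x => pcU q p c y (a0 + a1 * x, s0 + s1 * x)) x)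
          = fun x => ∑ y ∈ Finset.range 12,
          (J.indicator (fun x => pcL q p c y (a0 + a1 * x, s0 + s1 * x)) x
          + J.indicator (fun x => pcU q p c y (a0 + a1 * x, s0 + s1 * x)) x) := by
        funext x; simp
      rw [he] at hs
      exact hs
  rw [e1, e2, ← Finset.sum_sub_distrib]
  refine le_trans (Finset.abs_sum_le_sum_abs _ _) ?_
  have hc : ∀ c ∈ Finset.range 3, |(∑ y ∈ Finset.range 12,
        (w * (∑ i ∈ s, J.indicator (fun x => pcL q p c y (a0 + a1 * x, s0 + s1 * x)) (pt i))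
         + w * (∑ i ∈ s, J.indicator (fun x => pcU q p c y (a0 + a1 * x, s0 + s1 * x)) (pt i))))
      - ∑ y ∈ Finset.range 12,
        (rho * (∫ x in al..be, J.indicator (fun x => pcL q p c y (a0 + a1 * x, s0 + s1 * x)) x)
         + rho * (∫ x in al..be,
            J.indicator (fun x => pcU q p c y (a0 + a1 * x, s0 + s1 * x)) x))|
      ≤ ∑ y ∈ Finset.range 12, (2 * (12) * del) := by
    intro c hc
    rw [← Finset.sum_sub_distrib]
    refine le_trans (Finset.abs_sum_le_sum_abs _ _) ?_
    apply Finset.sum_le_sum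
    intro y hy
    have q1 := quad s pt hab hd (hQL c hc y hy)
    have q2 := quad s pt hab hd (hQU c hc y hy)
    rw [abs_le] at q1 q2 ⊢
    constructor <;> linarith [q1.1, q1.2, q2.1, q2.2]
  refine le_trans (Finset.sum_le_sum hc) ?_
  simp only [Finset.sum_const, Finset.card_range, nsmul_eq_mul]
  push_cast
  nlinarith

end Pool.Agent.PGo.K
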