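import Pool.Agent.PGo.KoStat
import Pool.Agent.PGo.KoFd
import Pool.Agent.PGo.KoForm
import Pool.Agent.PGo.KoLine

/-!
# PGo-K: definitions for the discrete kernel statements

Mesh step `h = eh n = 6 / n`, mesh coordinate `tm n x = h x - 3` of a label, `am n v = 3 - h (v / 2)` of
the (normalised) anchor `an n v = 3 n - v / 2` of a vertex which is not special. `rf n v` normalises the
labels for the vertex `v` (reflection for even `v`). `ci n y < 6` is the cell of `y ∈ [n, 2n]`: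
`3 + ci ≤ tm < 4 + ci` (closed at `9`).
-/

noncomputable section

namespace Pool.Agent.PGo.K

open Finset Pool.Agent.PGr MeasureTheory

/-- mesh step -/
def eh (n : ℕ) : ℝ := 6 / n

/-- mesh coordinate of a label -/
def tm (n : ℕ) (x : ℤ) : ℝ := eh n * x - 3

/-- mesh coordinate of the anchor -/
def am (n v : ℕ) : ℝ := 3 - eh n * ((v / 2 : ℕ) : ℝ)

/-- normalised anchor -/
def an (n v : ℕ) : ℤ := 3 * (n : ℤ) - ((v / 2 : ℕ) : ℤ)

/-- normalised label -/
def rf (n v : ℕ) (x : ℤ) : ℤ := if v % 2 = 1 then x else 3 * (n : ℤ) - x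

/-- same type -/
def st (v w : ℕ) : Bool := decide (v % 2 = w % 2)

/-- cell of a label in `[n, 2n]` -/
def ci (n : ℕ) (y : ℤ) : ℕ := min 5 ⌊tm n y - 3⌋₊

/-- law of the black label of a vertex of the same (`b = true`) or other type, in normalised labels -/
def la (s n : ℕ) (b : Bool) (y : ℤ) : ℝ :=
  if y ∈ Icc (n : ℤ) (2 * n) then
    wt s (if b then (y : ℝ) / n else 3 - (y : ℝ) / n) / ∑ z ∈ Icc (n : ℤ) (2 * n), wt s ((z : ℝ) / n)
  else 0

/-- normalised kernel -/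
def Kn (s n p : ℕ) (a : ℝ) (x : ℤ) : ℝ :=
  if x ∈ ZB n then ker s p a (tm n x) / ∑ z ∈ ZB n, ker s p a (tm n z) else 0

/-- limit law -/
def li (s n : ℕ) (b : Bool) (y : ℤ) : ℝ :=
  if y ∈ Icc (n : ℤ) (2 * n) then eh n / (WbI s : ℝ) * (wB s b (ci n y) : ℝ) else 0

/-- vertices of the parity `e` in the column `c` -/
def Vc (n c e : ℕ) : Finset ℕ :=
  (vs n).filter (fun v => v % 2 = e ∧ (2 - c) * n ≤ 3 * v ∧ 3 * v < (3 - c) * n)

/-- The pattern of the types of the neighbours. -/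
def Ptn (s n k : ℕ) : Prop := ∀ c < 3, ∀ e < 2, ∀ v ∈ Vc n c e, ∀ y,
  li s n (st v (nbp n k v)) y = li s n (be1 s c) y ∧
    li s n (st v (nbm n k v)) y = li s n (be2 s c) y

/-- cells of the normalised labels in mesh coordinates (closed at `9`) -/
def Ic (i : ℕ) : Set ℝ := if i < 5 then Set.Ico (3 + (i : ℝ)) (4 + (i : ℝ)) else Set.Icc 8 9

/-- weight of the black labels at the mesh coordinate `t` -/
def wv (s : ℕ) (b : Bool) (t : ℝ) : ℝ :=
  if 3 ≤ t ∧ t ≤ 9 then (wB s b (min 5 ⌊t - 3⌋₊) : ℝ) else 0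

/-- horizontal integral in the column `c` -/
def io (s p c : ℕ) (t : ℝ) : ℝ := ∫ a in (c : ℝ)..((c : ℝ) + 1), ker s p a t

/-- diagonal integral in the column `c` -/
def dg (s p c : ℕ) (τ : ℝ) : ℝ := ∫ a in (c : ℝ)..((c : ℝ) + 1), ker s p a (a + 12 - τ)

/-- density of the item label jointly with the cell `i` of one neighbour -/
def HH (s i : ℕ) (t : ℝ) : ℝ :=
  ∑ c ∈ range 3, ∑ j ∈ range 6, (wI s c i j : ℝ) * io s (cI i j) c t

/-- integral of `HH s i (t + τ)` over the cell `i` -/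
def HJ (s i : ℕ) (τ : ℝ) : ℝ := ∫ t in (3 + (i : ℝ))..(4 + (i : ℝ)), HH s i (t + τ)

/-- the limit of `Sk` -/
def SkL (s : ℕ) (τ : ℝ) : ℝ :=
  1 / (3 * (WtI s : ℝ)) * (∑ c ∈ range 3, ∑ i ∈ range 6, ∑ j ∈ range 6,
      (wI s c i j : ℝ) * dg s (cI i j) c τ +
    2 * ∑ i ∈ range 6, (HJ s i τ + HJ s i (-τ)))

/-- the tent function -/
def lam (x : ℝ) : ℝ := max 0 (1 - |x|)

/-- the limit of `Ssp` -/
def SpL (s : ℕ) (τ : ℝ) : ℝ :=
  2 / (WbI s : ℝ) * ∑ i ∈ range 6, ∑ c ∈ range 3,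
    (wB s true i : ℝ) * lam ((i : ℝ) - 9 + τ - c)

/-- overlap of the black laws -/
def InB (s : ℕ) (b : Bool) (τ : ℝ) : ℝ :=
  6 / (WbI s : ℝ) ^ 2 * ∑ i ∈ range 6, ∑ j ∈ range 6, (wB s true i : ℝ) * (wB s b j : ℝ) *
    (lam ((i : ℝ) - j + τ) + lam ((i : ℝ) - j - τ))

/-- the limit of `Sin` -/
def InL (s : ℕ) (τ : ℝ) : ℝ :=
  if s = 3 then 1 / 3 * InB s true τ + 2 / 3 * InB s false τ else InB s true τ

/-- the five kernel values -/
def R5 (s p : ℕ) (a t t' τ : ℝ) : ℝ :=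
  ker s p a (a + 12 - τ) + ker s p a (t + τ) + ker s p a (t - τ) + ker s p a (t' + τ) +
    ker s p a (t' - τ)

/-- their integrals over the column `c` -/
def I5 (s p c : ℕ) (t t' τ : ℝ) : ℝ :=
  dg s p c τ + io s p c (t + τ) + io s p c (t - τ) + io s p c (t' + τ) + io s p c (t' - τ)

/-- the differences of an item at the vertex `v` -/
def TT (s n : ℕ) (b b' : Bool) (d : ℤ) (v : ℕ) : ℝ :=
  ∑ y ∈ ZB n, ∑ y' ∈ ZB n, ∑ x ∈ ZB n, la s n b y * la s n b' y' *
    Kn s n (cla (grp ((y : ℝ) / n)) (grp ((y' : ℝ) / n))) (am n v) x *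
    ((if |x - an n v| = d then 1 else 0) + (if |x - y| = d then 1 else 0) +
      (if |x - y'| = d then 1 else 0))

end Pool.Agent.PGo.K
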