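import Pool.Agent.PGo.KoDefs
import Pool.Agent.PGr.KDisc

/-!
# PGo-KoDsc: discrepancies of the labels

`Disc`, `disc_of`, `sum_ind_card`, `ap_up`, `ap_lo` are in Pool/Agent/PGr (KQuad, KDisc; namespace `PGrK`).

PLAN. Arithmetic progressions with step `h = eh n = 6 / n` (in `(0, 6]`). `disc_ZB`: the labels
`x` with `n < 2 x < 5 n` are the integers `⌊n/2⌋ + 1 ≤ x ≤ ⌈5n/2⌉ - 1`, so the points are `x0 + h j`, `j < N`, with
`x0 ∈ (0, h]`, `x0 + h N ∈ [12, 12 + h]` (reindex by `j`: `Finset.sum_nbij'` or a bijection from `range N`), points in `[0, 12]`. `disc_Icc`: `x0 = 3`,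
`N = n + 1`, points in `[3, 9]`. Use `disc_of` (`sum_ind_card`), the upper bound by `ap_up` (`w ((q - p) / h + 1) = (q - p) + h`) and the lower bound by
`ap_lo` (`min q (x0 + h N) ≥ q - h`, `max p x0 ≤ p + h`). The constant `10` is generous.
-/

noncomputable section

namespace Pool.Agent.PGo.K

open Finset Pool.Agent.PGr PGrK

theorem eh_pos {n : ℕ} (hn : 1 ≤ n) : 0 < eh n ∧ eh n ≤ 6 ∧ eh n * n = 6 := by
  have h1 : (1 : ℝ) ≤ n := by exact_mod_cast hn
  have h0 : (0 : ℝ) < n := by linarith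
  unfold eh
  refine ⟨by positivity, ?_, by field_simp⟩
  rw [div_le_iff₀ h0]
  linarith

private theorem dsc_sum {n : ℕ} {a b : ℤ} {N : ℕ} (hN : b + 1 = a + N) (f : ℝ → ℝ) :
    ∑ x ∈ Icc a b, f (tm n x) = ∑ j ∈ range N, f (tm n a + eh n * (j : ℝ)) := by
  refine Finset.sum_nbij' (fun x => (x - a).toNat) (fun j => a + (j : ℤ)) ?_ ?_ ?_ ?_ ?_
  · intro x hx
    rw [mem_Icc] at hx
    rw [mem_range]
    omega
  · intro j hj
    rw [mem_range] at hj
    rw [mem_Icc]
    omega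
  · intro x hx
    rw [mem_Icc] at hx
    show a + ((x - a).toNat : ℤ) = x
    rw [Int.toNat_of_nonneg (by omega)]
    ring
  · intro j _
    show (a + (j : ℤ) - a).toNat = j
    omega
  · intro x hx
    rw [mem_Icc] at hx
    have h1 : (((x - a).toNat : ℕ) : ℝ) = (x : ℝ) - a := by
      have h2 : (((x - a).toNat : ℕ) : ℤ) = x - a := Int.toNat_of_nonneg (by omega)
      have h3 : ((((x - a).toNat : ℕ) : ℤ) : ℝ) = ((x - a : ℤ) : ℝ) := by rw [h2]
      push_cast at h3
      exact h3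
    rw [h1]
    congr 1
    unfold tm
    ring

private theorem dsc_gen {n : ℕ} (hn : 1 ≤ n) {a b : ℤ} {al be : ℝ} (hab : a ≤ b + 1)
    (halbe : al ≤ be) (h1 : al ≤ tm n a) (h2 : tm n a ≤ al + eh n) (h3 : be ≤ tm n (b + 1))
    (h4 : tm n (b + 1) ≤ be + eh n) : Disc (Icc a b) (tm n) (eh n) 1 al be (10 * eh n) := by
  obtain ⟨hh, -, -⟩ := eh_pos hn
  obtain ⟨N, hN⟩ : ∃ N : ℕ, b + 1 = a + N := ⟨(b + 1 - a).toNat, by omega⟩
  have hNr : tm n a + eh n * (N : ℝ) = tm n (b + 1) := by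
    have h5 : ((b + 1 : ℤ) : ℝ) = (a : ℝ) + N := by
      rw [hN]
      push_cast
      rfl
    unfold tm
    rw [h5]
    ring
  have hb : tm n b = tm n (b + 1) - eh n := by
    unfold tm
    push_cast
    ring
  have hmono : ∀ x y : ℤ, x ≤ y → tm n x ≤ tm n y := by
    intro x y hxy
    unfold tm
    have h6 : (x : ℝ) ≤ y := by exact_mod_cast hxy
    have h7 := mul_le_mul_of_nonneg_left h6 hh.le
    linarith
  refine disc_of hh.le halbe ?_ ?_ ?_
  · intro x hx
    rw [mem_Icc] at hx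
    exact ⟨h1.trans (hmono _ _ hx.1), (hmono _ _ hx.2).trans (by rw [hb]; linarith)⟩
  · intro p q _ hpq _
    rw [dsc_sum hN fun t => (Set.Icc p q).indicator (fun _ => (1 : ℝ)) t]
    have h8 := mul_le_mul_of_nonneg_left (ap_up (tm n a) (eh n) hh N hpq) hh.le
    have h9 : eh n * ((q - p) / eh n + 1) = (q - p) + eh n := by
      field_simp
    rw [h9] at h8
    linarith
  · intro p q hp _ hq
    rw [dsc_sum hN fun t => (Set.Ioo p q).indicator (fun _ => (1 : ℝ)) t]
    have h8 := mul_le_mul_of_nonneg_left (ap_lo (tm n a) (eh n) hh N p q) hh.le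
    rw [hNr] at h8
    have h9 : eh n * ((min q (tm n (b + 1)) - max p (tm n a)) / eh n - 1) =
        (min q (tm n (b + 1)) - max p (tm n a)) - eh n := by
      field_simp
    rw [h9, min_eq_left (hq.trans h3)] at h8
    have h10 : max p (tm n a) ≤ p + eh n := max_le (by linarith) (by linarith)
    linarith

theorem disc_ZB {n : ℕ} (hn : 1 ≤ n) : Disc (ZB n) (tm n) (eh n) 1 0 12 (10 * eh n) := by
  obtain ⟨hh, -, hh2⟩ := eh_pos hn
  have e : ZB n = Icc ((n : ℤ) / 2 + 1) ((5 * (n : ℤ) + 1) / 2 - 1) := by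
    ext x
    unfold ZB
    rw [mem_filter, mem_Icc, mem_Icc]
    omega
  rw [e]
  have hcast : ∀ x y : ℤ, x ≤ y → (x : ℝ) ≤ y := fun x y h => by exact_mod_cast h
  refine dsc_gen hn (by omega) (by norm_num) ?_ ?_ ?_ ?_
  · have h1 := hcast (n : ℤ) (2 * ((n : ℤ) / 2 + 1)) (by omega)
    push_cast at h1
    unfold tm
    push_cast
    nlinarith
  · have h1 := hcast (2 * ((n : ℤ) / 2 + 1)) (n + 2) (by omega)
    push_cast at h1
    unfold tm
    push_cast
    nlinarith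
  · have h1 := hcast (5 * (n : ℤ)) (2 * ((5 * (n : ℤ) + 1) / 2 - 1 + 1)) (by omega)
    unfold tm
    have h2 := mul_le_mul_of_nonneg_left h1 hh.le
    have h3 : eh n * ((5 * (n : ℤ) : ℤ) : ℝ) = 30 := by
      push_cast
      linear_combination 5 * hh2
    rw [h3, Int.cast_mul] at h2
    push_cast at h2 ⊢
    linarith
  · have h1 := hcast (2 * ((5 * (n : ℤ) + 1) / 2 - 1 + 1)) (5 * (n : ℤ) + 1) (by omega)
    unfold tm
    have h2 := mul_le_mul_of_nonneg_left h1 hh.le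
    have h3 : eh n * ((5 * (n : ℤ) + 1 : ℤ) : ℝ) = 30 + eh n := by
      push_cast
      linear_combination 5 * hh2
    rw [h3, Int.cast_mul] at h2
    push_cast at h2 ⊢
    linarith

theorem disc_Icc {n : ℕ} (hn : 1 ≤ n) :
    Disc (Icc (n : ℤ) (2 * n)) (tm n) (eh n) 1 3 9 (10 * eh n) := by
  obtain ⟨hh, -, hh2⟩ := eh_pos hn
  refine dsc_gen hn (by omega) (by norm_num) ?_ ?_ ?_ ?_
  all_goals
    unfold tm
    push_cast
    nlinarith

end Pool.Agent.PGo.K
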