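import Pool.Agent.PGo.KoIo

/-!
# PGo-KoHJ: the integrals of the horizontal integrals over the cells

PLAN. (model: Pool/Agent/PGr/KTwo.lean, `HI_io`, `HI_plus`, `HI_minus`, `plus_val`, `minus_val`.) Extend `HH_cell` to integers `z`
(`Q0z`, `Q2z`, zero outside `[0, 12)`, `HH_out`), so `HH s i` is affine on `[z, z + 1)` for every integer `z`.
`HJ_plus`: `HJ s i (k + δ) = ∫_(3+i+k+δ)^(4+i+k+δ) HH s i`, split at the integer `4 + i + k`; with `z = i + 3 + k`, `q0 = Q0z s i z`, … the first part is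
`∫_δ^1 (q0 (1 - v) + q2 v) dv / (2 den)`, the second part `∫_0^δ` with `z + 1`.
`HJ_minus`: the interval `[3 + i - k - δ, 4 + i - k - δ]`, `w = i + 2 - k`, split at `w + 1`; local coordinates from `1 - δ` to `1` in the cell `w`, from `0` to `1 - δ` in
the cell `w + 1`.
-/

noncomputable section

namespace Pool.Agent.PGo.K

open Finset Pool.Agent.PGr PGrK

/-- the horizontal integral on `[z, z + 1)` in the local coordinate `v` -/
private def kohj_hz (s i : ℕ) (z : ℤ) (v : ℝ) : ℝ :=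
  ((Q0z s i z : ℝ) * (1 - v) + (Q2z s i z : ℝ) * v) / (2 * den s)

private theorem kohj_cell {s i : ℕ} (hs : s < 4) (hi : i < 6) (z : ℤ) {t : ℝ} (h1 : (z : ℝ) ≤ t)
    (h2 : t < (z : ℝ) + 1) : HH s i t = kohj_hz s i z (t - z) := by
  by_cases hz : 0 ≤ z ∧ z < 12
  · obtain ⟨x, rfl⟩ := Int.eq_ofNat_of_zero_le hz.1
    have hx : x < 12 := by exact_mod_cast hz.2
    have h1' : (x : ℝ) ≤ t := by exact_mod_cast h1
    have h2' : t < (x : ℝ) + 1 := by exact_mod_cast h2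
    rw [HH_cell hs hi hx h1' h2']
    unfold kohj_hz Q0z Q2z
    rw [if_pos hz, if_pos hz]
    simp
  · have hz' : t < 0 ∨ 12 ≤ t := by
      by_cases h0 : 0 ≤ z
      · right
        have h3 : 12 ≤ z := by
          by_contra hcon
          exact hz ⟨h0, by omega⟩
        have h4 : (12 : ℝ) ≤ (z : ℝ) := by exact_mod_cast h3
        linarith
      · left
        have h3 : z + 1 ≤ 0 := by omega
        have h4 : (z : ℝ) + 1 ≤ 0 := by exact_mod_cast h3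
        linarith
    rw [HH_out hz']
    unfold kohj_hz Q0z Q2z
    rw [if_neg hz, if_neg hz]
    simp

private theorem kohj_HI {s i : ℕ} (hs : s < 4) (hi : i < 6) (z : ℤ) {lo hi' : ℝ} (h0 : 0 ≤ lo)
    (h1 : lo ≤ hi') (h2 : hi' ≤ 1) :
    HI (HH s i) ((z : ℝ) + lo) ((z : ℝ) + hi') ((hi' - lo) * kohj_hz s i z ((lo + hi') / 2)) := by
  refine HI.of_eq (HI.of_affine (by linarith) (fun t => kohj_hz s i z (t - z))
    ((- (Q0z s i z : ℝ) + (Q2z s i z : ℝ)) / (2 * den s))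
    (((Q0z s i z : ℝ) * (1 + z) - (Q2z s i z : ℝ) * z) / (2 * den s)) ?_ ?_) ?_
  · intro t; unfold kohj_hz; ring
  · intro t ht
    exact kohj_cell hs hi z (by linarith [ht.1]) (by linarith [ht.2])
  · congr 1
    · ring
    · congr 1; ring

private theorem kohj_plus {s i : ℕ} (hs : s < 4) (hi : i < 6) (z : ℤ) {δ : ℝ} (h0 : 0 ≤ δ)
    (h1 : δ ≤ 1) :
    HI (HH s i) ((z : ℝ) + δ) ((z : ℝ) + 1 + δ)
      (((gp0 s i z : ℝ) + (gp1 s i z : ℝ) * δ + (gp2 s i z : ℝ) * δ ^ 2) / (4 * den s)) := by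
  have e1 := kohj_HI hs hi z h0 h1 le_rfl
  have e2 := kohj_HI hs hi (z + 1) le_rfl h0 h1
  have e : (((z + 1 : ℤ) : ℝ) + 0) = (z : ℝ) + 1 := by push_cast; ring
  have e' : (((z + 1 : ℤ) : ℝ) + δ) = (z : ℝ) + 1 + δ := by push_cast; ring
  rw [e, e'] at e2
  refine (e1.trans e2).of_eq ?_
  unfold kohj_hz Pool.Agent.PGo.gp0 Pool.Agent.PGo.gp1 Pool.Agent.PGo.gp2
  push_cast
  ring

private theorem kohj_minus {s i : ℕ} (hs : s < 4) (hi : i < 6) (w : ℤ) {δ : ℝ} (h0 : 0 ≤ δ)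
    (h1 : δ ≤ 1) :
    HI (HH s i) ((w : ℝ) + 1 - δ) ((w : ℝ) + 1 + 1 - δ)
      (((gm0 s i w : ℝ) + (gm1 s i w : ℝ) * δ + (gm2 s i w : ℝ) * δ ^ 2) / (4 * den s)) := by
  have e1 := kohj_HI hs hi w (lo := 1 - δ) (hi' := 1) (by linarith) (by linarith) le_rfl
  have e2 := kohj_HI hs hi (w + 1) (lo := 0) (hi' := 1 - δ) le_rfl (by linarith) (by linarith)
  have e : (((w + 1 : ℤ) : ℝ) + 0) = (w : ℝ) + 1 := by push_cast; ring
  have e' : (((w + 1 : ℤ) : ℝ) + (1 - δ)) = (w : ℝ) + 1 + 1 - δ := by push_cast; ring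
  have e'' : (w : ℝ) + (1 - δ) = (w : ℝ) + 1 - δ := by ring
  rw [e, e'] at e2
  rw [e''] at e1
  refine (e1.trans e2).of_eq ?_
  unfold kohj_hz Pool.Agent.PGo.gm0 Pool.Agent.PGo.gm1 Pool.Agent.PGo.gm2
  push_cast
  ring

theorem HJ_plus {s i k : ℕ} (hs : s < 4) (hi : i < 6) {δ : ℝ} (h0 : 0 ≤ δ) (h1 : δ ≤ 1) :
    HJ s i ((k : ℝ) + δ) = ((gp0 s i (i + 3 + k) : ℝ) + (gp1 s i (i + 3 + k) : ℝ) * δ +
      (gp2 s i (i + 3 + k) : ℝ) * δ ^ 2) / (4 * den s) := by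
  unfold HJ
  rw [intervalIntegral.integral_comp_add_right (fun t => HH s i t)]
  have h := (kohj_plus hs hi ((i : ℤ) + 3 + k) h0 h1).integral
  have e1 : (((i : ℤ) + 3 + k : ℤ) : ℝ) + δ = 3 + (i : ℝ) + ((k : ℝ) + δ) := by push_cast; ring
  have e2 : (((i : ℤ) + 3 + k : ℤ) : ℝ) + 1 + δ = 4 + (i : ℝ) + ((k : ℝ) + δ) := by
    push_cast; ring
  rw [e1, e2] at h
  exact h

theorem HJ_minus {s i k : ℕ} (hs : s < 4) (hi : i < 6) {δ : ℝ} (h0 : 0 ≤ δ) (h1 : δ ≤ 1) :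
    HJ s i (-((k : ℝ) + δ)) = ((gm0 s i (i + 2 - k) : ℝ) + (gm1 s i (i + 2 - k) : ℝ) * δ +
      (gm2 s i (i + 2 - k) : ℝ) * δ ^ 2) / (4 * den s) := by
  unfold HJ
  rw [intervalIntegral.integral_comp_add_right (fun t => HH s i t)]
  have h := (kohj_minus hs hi ((i : ℤ) + 2 - k) h0 h1).integral
  have e1 : (((i : ℤ) + 2 - k : ℤ) : ℝ) + 1 - δ = 3 + (i : ℝ) + -((k : ℝ) + δ) := by
    push_cast; ring
  have e2 : (((i : ℤ) + 2 - k : ℤ) : ℝ) + 1 + 1 - δ = 4 + (i : ℝ) + -((k : ℝ) + δ) := by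
    push_cast; ring
  rw [e1, e2] at h
  exact h

end Pool.Agent.PGo.K
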