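import Pool.Agent.PGo.KoDefs

/-!
# PGo-KoWv: the step functions of the black labels

PLAN. `Ic_oc`: `split_ifs`, `Set.ordConnected_Ico / Icc`. `wv_eq`: if `t < 3` or `9 < t` both sides vanish; else `i0 = min 5 ⌊t - 3⌋₊` is the only
`i < 6` with `t ∈ Ic i` (`Finset.sum_eq_single`, `Nat.floor_le`, `Nat.lt_floor_add_one`). `li_wv`: `tm n y = 6 y / n - 3`, so `y ∈ [n, 2n]` iff
`3 ≤ tm n y ≤ 9`. `wv_bd`: `wB_pos`. The volumes: up to a null set (`measureReal_congr`; or sandwich by `Ioo ⊆ … ⊆ Icc`) the set is the interval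
`Icc (max (3 + i) (3 + j - x)) (min (4 + i) (4 + j - x))` resp. `Icc (max c (3 + i - x)) (min (c + 1) (4 + i - x))`; `Real.volume_Icc`, and
`max 0 (min … - max …) = lam …` (cases on the sign).
-/

noncomputable section

namespace Pool.Agent.PGo.K

open Finset Pool.Agent.PGr PGrK MeasureTheory

private theorem wvIc_lo (i : ℕ) (hi : i < 6) : Set.Ioo (3 + (i : ℝ)) (4 + (i : ℝ)) ⊆ Ic i := by
  unfold Ic
  split_ifs with h
  · exact Set.Ioo_subset_Ico_self
  · have h5 : i = 5 := by omega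
    subst h5
    intro t ht
    simp only [Set.mem_Ioo, Set.mem_Icc] at *
    push_cast at ht
    constructor <;> linarith [ht.1, ht.2]

private theorem wvIc_hi (i : ℕ) (hi : i < 6) : Ic i ⊆ Set.Icc (3 + (i : ℝ)) (4 + (i : ℝ)) := by
  unfold Ic
  split_ifs with h
  · exact Set.Ico_subset_Icc_self
  · have h5 : i = 5 := by omega
    subst h5
    intro t ht
    simp only [Set.mem_Icc] at *
    push_cast
    constructor <;> linarith [ht.1, ht.2]

private theorem wv_sand {S : Set ℝ} {a b : ℝ} (h1 : Set.Ioo a b ⊆ S) (h2 : S ⊆ Set.Icc a b) :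
    volume.real S = max 0 (b - a) := by
  have hle : volume S ≤ ENNReal.ofReal (b - a) := by
    rw [← Real.volume_Icc]
    exact measure_mono h2
  have hge : ENNReal.ofReal (b - a) ≤ volume S := by
    rw [← Real.volume_Ioo]
    exact measure_mono h1
  have he : volume S = ENNReal.ofReal (b - a) := le_antisymm hle hge
  rw [Measure.real, he]
  rcases le_total 0 (b - a) with h | h
  · rw [ENNReal.toReal_ofReal h, max_eq_right h]
  · rw [ENNReal.ofReal_of_nonpos h, max_eq_left h, ENNReal.toReal_zero]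

theorem Ic_oc (i : ℕ) : (Ic i).OrdConnected := by
  unfold Ic
  split_ifs
  · exact Set.ordConnected_Ico
  · exact Set.ordConnected_Icc

private theorem wv_mem_iff {t : ℝ} (h3 : 3 ≤ t) (h9 : t ≤ 9) {i : ℕ} (hi : i < 6) :
    t ∈ Ic i ↔ i = min 5 ⌊t - 3⌋₊ := by
  have h0 : (0 : ℝ) ≤ t - 3 := by linarith
  have hf1 := Nat.floor_le h0
  have hf2 := Nat.lt_floor_add_one (t - 3)
  set f := ⌊t - 3⌋₊ with hf
  have hf6 : f ≤ 6 := by
    have : (f : ℝ) ≤ 6 := by linarith
    exact_mod_cast this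
  unfold Ic
  split_ifs with h
  · simp only [Set.mem_Ico]
    constructor
    · rintro ⟨ha, hb⟩
      have h1 : (i : ℝ) < (f : ℝ) + 1 := by linarith
      have h2 : (f : ℝ) < (i : ℝ) + 1 := by linarith
      have h1' : i < f + 1 := by exact_mod_cast h1
      have h2' : f < i + 1 := by exact_mod_cast h2
      omega
    · intro he
      have hif : i = f := by omega
      have hif' : (i : ℝ) = f := by exact_mod_cast hif
      constructor <;> linarith
  · have h5 : i = 5 := by omega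
    subst h5
    simp only [Set.mem_Icc]
    constructor
    · rintro ⟨ha, hb⟩
      have h1 : (5 : ℝ) < (f : ℝ) + 1 := by linarith
      have h1' : 5 < f + 1 := by exact_mod_cast h1
      omega
    · intro he
      have hif : 5 ≤ f := by omega
      have hif' : (5 : ℝ) ≤ f := by exact_mod_cast hif
      constructor <;> linarith

private theorem wv_out {t : ℝ} (h : ¬ (3 ≤ t ∧ t ≤ 9)) {i : ℕ} (hi : i < 6) : t ∉ Ic i := by
  intro ht
  have h2 := wvIc_hi i hi ht
  simp only [Set.mem_Icc] at h2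
  apply h
  have hi0 : (0 : ℝ) ≤ (i : ℝ) := Nat.cast_nonneg i
  have hi5 : (i : ℝ) ≤ 5 := by
    have : i ≤ 5 := by omega
    exact_mod_cast this
  constructor
  · linarith [h2.1]
  · linarith [h2.2]

theorem wv_eq (s : ℕ) (b : Bool) (t : ℝ) :
    wv s b t = ∑ i ∈ range 6, (wB s b i : ℝ) * (Ic i).indicator (fun _ => (1 : ℝ)) t := by
  unfold wv
  split_ifs with h
  · have hm : min 5 ⌊t - 3⌋₊ ∈ range 6 := by
      rw [mem_range]; omega
    rw [Finset.sum_eq_single_of_mem _ hm]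
    · rw [Set.indicator_of_mem ((wv_mem_iff h.1 h.2 (mem_range.1 hm)).2 rfl), mul_one]
    · intro i hi hne
      rw [Set.indicator_of_notMem, mul_zero]
      intro hmem
      exact hne ((wv_mem_iff h.1 h.2 (mem_range.1 hi)).1 hmem)
  · symm
    apply Finset.sum_eq_zero
    intro i hi
    rw [Set.indicator_of_notMem (wv_out h (mem_range.1 hi)), mul_zero]

theorem li_wv {n : ℕ} (hn : 1 ≤ n) (s : ℕ) (b : Bool) (y : ℤ) :
    li s n b y = eh n / (WbI s : ℝ) * wv s b (tm n y) := by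
  have hn0 : (0 : ℝ) < n := by exact_mod_cast hn
  have hmem : y ∈ Icc (n : ℤ) (2 * n) ↔ (3 ≤ tm n y ∧ tm n y ≤ 9) := by
    rw [Finset.mem_Icc]
    unfold tm eh
    have e1 : (3 : ℝ) ≤ 6 / (n : ℝ) * (y : ℝ) - 3 ↔ (n : ℝ) ≤ (y : ℝ) := by
      rw [le_sub_iff_add_le, div_mul_eq_mul_div, le_div_iff₀ hn0]
      constructor <;> intro h <;> linarith
    have e2 : 6 / (n : ℝ) * (y : ℝ) - 3 ≤ 9 ↔ (y : ℝ) ≤ 2 * (n : ℝ) := by
      rw [sub_le_iff_le_add, div_mul_eq_mul_div, div_le_iff₀ hn0]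
      constructor <;> intro h <;> linarith
    rw [e1, e2]
    constructor
    · rintro ⟨h1, h2⟩
      exact ⟨by exact_mod_cast h1, by exact_mod_cast h2⟩
    · rintro ⟨h1, h2⟩
      exact ⟨by exact_mod_cast h1, by exact_mod_cast h2⟩
  unfold li wv ci
  by_cases h : y ∈ Icc (n : ℤ) (2 * n)
  · rw [if_pos h, if_pos (hmem.1 h)]
  · rw [if_neg h, if_neg (fun h' => h (hmem.2 h')), mul_zero]

theorem wv_bd {s : ℕ} (hs : s < 4) (b : Bool) (t : ℝ) : 0 ≤ wv s b t ∧ wv s b t ≤ 7 := by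
  unfold wv
  split_ifs with h
  · have := wB_pos s hs b (min 5 ⌊t - 3⌋₊) (by omega)
    constructor
    · have h1 : (0 : ℤ) ≤ wB s b (min 5 ⌊t - 3⌋₊) := by omega
      exact_mod_cast h1
    · exact_mod_cast this.2
  · constructor <;> norm_num

private theorem wv_lam (a b : ℝ) :
    max 0 (min (4 + a) (4 + b) - max (3 + a) (3 + b)) = lam (a - b) := by
  unfold lam
  rcases le_total a b with h | h
  · rw [min_eq_left (by linarith), max_eq_right (by linarith : 3 + a ≤ 3 + b),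
      abs_of_nonpos (by linarith)]
    congr 1
    ring
  · rw [min_eq_right (by linarith), max_eq_left (by linarith : 3 + b ≤ 3 + a),
      abs_of_nonneg (by linarith)]
    congr 1
    ring

theorem vol_IcIc {i j : ℕ} (hi : i < 6) (hj : j < 6) (x : ℝ) :
    volume.real ((Ic i ∩ {t | t + x ∈ Ic j}) ∩ Set.Icc 3 9) = lam ((i : ℝ) - j + x) := by
  have hi0 : (0 : ℝ) ≤ (i : ℝ) := Nat.cast_nonneg i
  have hi5 : (i : ℝ) ≤ 5 := by
    have : i ≤ 5 := by omega
    exact_mod_cast this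
  rw [wv_sand (a := max (3 + (i : ℝ)) (3 + ((j : ℝ) - x)))
    (b := min (4 + (i : ℝ)) (4 + ((j : ℝ) - x))), wv_lam]
  · congr 1
    ring
  · intro t ht
    simp only [Set.mem_Ioo, max_lt_iff, lt_min_iff] at ht
    obtain ⟨⟨h1, h2⟩, h3, h4⟩ := ht
    refine ⟨⟨wvIc_lo i hi ⟨h1, h3⟩, ?_⟩, ?_⟩
    · show t + x ∈ Ic j
      apply wvIc_lo j hj
      constructor <;> linarith
    · constructor <;> linarith
  · rintro t ⟨⟨h1, h2⟩, h3⟩
    have h2' : t + x ∈ Ic j := h2
    have a1 := wvIc_hi i hi h1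
    have a2 := wvIc_hi j hj h2'
    simp only [Set.mem_Icc, max_le_iff, le_min_iff] at *
    refine ⟨⟨a1.1, by linarith [a2.1]⟩, a1.2, by linarith [a2.2]⟩

theorem vol_cIc {i : ℕ} (hi : i < 6) (c x : ℝ) :
    volume.real ({a | a + x ∈ Ic i} ∩ Set.Icc c (c + 1)) = lam (c + x - 3 - i) := by
  rw [wv_sand (a := max (3 + (c - 3)) (3 + ((i : ℝ) - x)))
    (b := min (4 + (c - 3)) (4 + ((i : ℝ) - x))), wv_lam]
  · congr 1
    ring
  · intro t ht
    simp only [Set.mem_Ioo, max_lt_iff, lt_min_iff] at ht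
    obtain ⟨⟨h1, h2⟩, h3, h4⟩ := ht
    refine ⟨?_, ?_⟩
    · show t + x ∈ Ic i
      apply wvIc_lo i hi
      constructor <;> linarith
    · constructor <;> linarith
  · rintro t ⟨h2, h3⟩
    have h2' : t + x ∈ Ic i := h2
    have a2 := wvIc_hi i hi h2'
    simp only [Set.mem_Icc, max_le_iff, le_min_iff] at *
    refine ⟨⟨by linarith [h3.1], by linarith [a2.1]⟩, by linarith [h3.2], by linarith [a2.2]⟩

end Pool.Agent.PGo.K
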