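import Pool.Agent.PGo.KoDsc
import Pool.Agent.PGo.KoWv

/-!
# PGo-KoLaw: the cells of the black labels

PLAN. `ci_lt`: `min 5`. `Icc_ZB`: `omega` after unfolding. `grp_ci`: `y / n < 7/6 ↔ tm n y < 4`, `y / n < 5/3 ↔ tm n y < 7` (`tm n y = 6 (y / n) - 3`);
`ci n y = i` iff `3 + i ≤ tm n y < 4 + i` for `i < 5`, `ci n y = 5` iff `8 ≤ tm n y` (for `y ∈ [n, 2n]`), `mem_Ic`.
`wt_ci`: `wt s (y / n) = wB s true (ci n y)` for `y ∈ [n, 2n]` (cases).
`card_ci`: `disc_Icc` with the order connected set `Ic i` (`Ic_oc`), of volume 1 (`vol_IcIc` with `j = i`, `x = 0`), `sum_ind_card`.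
`Z_bd`: `Z = ∑ i < 6, wB s true i * #{y : ci n y = i}` (`wt_ci`, group the labels), `card_ci`, `wB_sum`.
`wt_fl`: for `y ∈ [n, 2n]`: if `tm n y` is not an integer then `ci n (3 n - y) = 5 - ci n y` (`tm n (3 n - y) = 12 - tm n y`) and
`wB s true (5 - i) = wB s false i` (`i < 6`). The labels of `[n, 2n]` with integer `tm n y` are at most 7 (`tm n` is injective, values `3, …, 9`).
-/

noncomputable section

namespace Pool.Agent.PGo.K

open Finset Pool.Agent.PGr PGrK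

theorem ci_lt (n : ℕ) (y : ℤ) : ci n y < 6 := by
  unfold ci
  omega

theorem Icc_ZB {n : ℕ} (hn : 1 ≤ n) : Icc (n : ℤ) (2 * n) ⊆ ZB n := by
  intro x hx
  simp only [Finset.mem_Icc] at hx
  simp only [ZB, Finset.mem_filter, Finset.mem_Icc]
  omega

private theorem npos {n : ℕ} (hn : 1 ≤ n) : (0 : ℝ) < n := by exact_mod_cast hn

private theorem tm_eq {n : ℕ} (hn : 1 ≤ n) (y : ℤ) : tm n y = 6 * ((y : ℝ) / n) - 3 := by
  have := npos hn
  unfold tm eh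
  field_simp

private theorem tm_ge {n : ℕ} (hn : 1 ≤ n) {y : ℤ} (hy : y ∈ Icc (n : ℤ) (2 * n)) :
    3 ≤ tm n y ∧ tm n y ≤ 9 := by
  have h0 := npos hn
  simp only [Finset.mem_Icc] at hy
  have h1 : (n : ℝ) ≤ y := by exact_mod_cast hy.1
  have h2 : (y : ℝ) ≤ 2 * n := by exact_mod_cast hy.2
  rw [tm_eq hn]
  have h3 : 1 ≤ (y : ℝ) / n := by rw [le_div_iff₀ h0]; linarith
  have h4 : (y : ℝ) / n ≤ 2 := by rw [div_le_iff₀ h0]; linarith
  constructor <;> linarith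

/-- the cell as a natural number -/
private theorem ci_cases {n : ℕ} (hn : 1 ≤ n) {y : ℤ} (hy : y ∈ Icc (n : ℤ) (2 * n)) :
    (ci n y < 5 ∧ 3 + (ci n y : ℝ) ≤ tm n y ∧ tm n y < 4 + (ci n y : ℝ)) ∨
      (ci n y = 5 ∧ 8 ≤ tm n y ∧ tm n y ≤ 9) := by
  obtain ⟨h1, h2⟩ := tm_ge hn hy
  have h0 : 0 ≤ tm n y - 3 := by linarith
  have hf1 := Nat.floor_le h0
  have hf2 := Nat.lt_floor_add_one (tm n y - 3)
  by_cases h : ⌊tm n y - 3⌋₊ < 5
  · left
    have hc : ci n y = ⌊tm n y - 3⌋₊ := by unfold ci; omega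
    rw [hc]
    refine ⟨h, by linarith, by linarith⟩
  · right
    have hc : ci n y = 5 := by unfold ci; omega
    refine ⟨hc, ?_, h2⟩
    have : (5 : ℝ) ≤ (⌊tm n y - 3⌋₊ : ℝ) := by exact_mod_cast (not_lt.mp h)
    linarith

theorem mem_Ic {n : ℕ} (hn : 1 ≤ n) {y : ℤ} (hy : y ∈ Icc (n : ℤ) (2 * n)) {i : ℕ} (hi : i < 6) :
    tm n y ∈ Ic i ↔ ci n y = i := by
  have hc := ci_cases hn hy
  have hb := tm_ge hn hy
  generalize ci n y = c at hc
  generalize tm n y = t at hc hb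
  interval_cases i <;> rcases hc with ⟨h1, h2, h3⟩ | ⟨h1, h2, h3⟩ <;>
    [interval_cases c; skip; interval_cases c; skip; interval_cases c; skip; interval_cases c; skip;
      interval_cases c; skip; interval_cases c; skip] <;>
    simp [Ic] <;> norm_num at * <;> (try subst h1) <;> (try norm_num) <;>
    first
      | (constructor <;> linarith)
      | (intro h; linarith)

/-- the position of a label by its cell -/
private theorem ci_val {n : ℕ} (hn : 1 ≤ n) {y : ℤ} (hy : y ∈ Icc (n : ℤ) (2 * n)) :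
    (ci n y = 0 ∧ 3 ≤ tm n y ∧ tm n y < 4) ∨ (ci n y = 1 ∧ 4 ≤ tm n y ∧ tm n y < 5) ∨
    (ci n y = 2 ∧ 5 ≤ tm n y ∧ tm n y < 6) ∨ (ci n y = 3 ∧ 6 ≤ tm n y ∧ tm n y < 7) ∨
    (ci n y = 4 ∧ 7 ≤ tm n y ∧ tm n y < 8) ∨ (ci n y = 5 ∧ 8 ≤ tm n y ∧ tm n y ≤ 9) := by
  have hc := ci_cases hn hy
  generalize ci n y = c at hc
  generalize tm n y = t at hc
  rcases hc with ⟨h1, h2, h3⟩ | ⟨h1, h2, h3⟩
  · interval_cases c <;> norm_num at h2 h3 ⊢ <;> constructor <;> linarith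
  · subst h1; norm_num; exact ⟨h2, h3⟩

theorem grp_ci {n : ℕ} (hn : 1 ≤ n) {y : ℤ} (hy : y ∈ Icc (n : ℤ) (2 * n)) :
    grp ((y : ℝ) / n) = gI (ci n y) := by
  have hc := ci_val hn hy
  rw [tm_eq hn] at hc
  unfold grp gI
  rcases hc with ⟨h1, h2, h3⟩ | ⟨h1, h2, h3⟩ | ⟨h1, h2, h3⟩ | ⟨h1, h2, h3⟩ | ⟨h1, h2, h3⟩ |
    ⟨h1, h2, h3⟩ <;> rw [h1] <;> split_ifs <;> first | rfl | omega | (exfalso; linarith)

theorem wt_ci {n : ℕ} (hn : 1 ≤ n) (s : ℕ) {y : ℤ} (hy : y ∈ Icc (n : ℤ) (2 * n)) :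
    wt s ((y : ℝ) / n) = wB s true (ci n y) := by
  have hc := ci_val hn hy
  rw [tm_eq hn] at hc
  generalize (y : ℝ) / n = t at hc
  by_cases a : t < 7 / 6 <;> by_cases b : t < 4 / 3 <;> by_cases c : 11 / 6 ≤ t <;>
    rcases hc with ⟨h1, h2, h3⟩ | ⟨h1, h2, h3⟩ | ⟨h1, h2, h3⟩ | ⟨h1, h2, h3⟩ | ⟨h1, h2, h3⟩ |
      ⟨h1, h2, h3⟩ <;> first | (exfalso; linarith) |
      (by_cases hs : s < 2 <;> simp [wt, wB, nuI, fI, hs, a, b, c, h1])

private theorem wt_fl1 {n : ℕ} (hn : 1 ≤ n) (s : ℕ) {y : ℤ} (hy : y ∈ Icc (n : ℤ) (2 * n))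
    (h4 : tm n y ≠ 4) (h7 : tm n y ≠ 7) (h8 : tm n y ≠ 8) :
    wt s (3 - (y : ℝ) / n) = wB s false (ci n y) := by
  have hc := ci_val hn hy
  rw [tm_eq hn] at hc h4 h7 h8
  generalize (y : ℝ) / n = t at hc h4 h7 h8
  rcases lt_or_gt_of_ne h4 with g4 | g4 <;> rcases lt_or_gt_of_ne h7 with g7 | g7 <;>
    rcases lt_or_gt_of_ne h8 with g8 | g8 <;>
  by_cases a : 3 - t < 7 / 6 <;> by_cases b : 3 - t < 4 / 3 <;> by_cases c : 11 / 6 ≤ 3 - t <;>
    rcases hc with ⟨h1, h2, h3⟩ | ⟨h1, h2, h3⟩ | ⟨h1, h2, h3⟩ | ⟨h1, h2, h3⟩ | ⟨h1, h2, h3⟩ |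
      ⟨h1, h2, h3⟩ <;> first | (exfalso; linarith) |
      (by_cases hs : s < 2 <;> simp only [wt, wB, nuI, fI, frI, hs, a, b, c, h1, if_true, if_false] <;>
        norm_num)

theorem card_ci {n : ℕ} (hn : 1 ≤ n) {i : ℕ} (hi : i < 6) :
    |eh n * (((Icc (n : ℤ) (2 * n)).filter (fun y => ci n y = i)).card : ℝ) - 1| ≤ 10 * eh n := by
  classical
  have hd := disc_Icc hn (Ic i) (Ic_oc i)
  have hv := vol_IcIc hi hi 0
  have hset : (Ic i ∩ {t | t + 0 ∈ Ic i}) ∩ Set.Icc 3 9 = Ic i ∩ Set.Icc 3 9 := by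
    ext t; simp
  rw [hset] at hv
  have hl : lam ((i : ℝ) - i + 0) = 1 := by simp [lam]
  rw [hl] at hv
  rw [hv, sum_ind_card] at hd
  have hf : (Icc (n : ℤ) (2 * n)).filter (fun y => tm n y ∈ Ic i) =
      (Icc (n : ℤ) (2 * n)).filter (fun y => ci n y = i) := by
    apply Finset.filter_congr
    intro y hy
    exact mem_Ic hn hy hi
  rw [hf] at hd
  simpa using hd

theorem Z_bd {n : ℕ} (hn : 1 ≤ n) {s : ℕ} (hs : s < 4) :
    |eh n * ∑ z ∈ Icc (n : ℤ) (2 * n), wt s ((z : ℝ) / n) - WbI s| ≤ 200 * eh n := by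
  have h0 := (eh_pos hn).1
  have h1 : ∑ z ∈ Icc (n : ℤ) (2 * n), wt s ((z : ℝ) / n) =
      ∑ i ∈ range 6, (wB s true i : ℝ) *
        (((Icc (n : ℤ) (2 * n)).filter (fun y => ci n y = i)).card : ℝ) := by
    rw [Finset.sum_congr rfl (fun z hz => wt_ci hn s hz)]
    rw [← Finset.sum_fiberwise_of_maps_to (s := Icc (n : ℤ) (2 * n)) (t := range 6)
      (g := fun y => ci n y) (fun y _ => Finset.mem_range.mpr (ci_lt n y))]
    apply Finset.sum_congr rfl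
    intro i _
    rw [Finset.sum_congr rfl (g := fun _ => (wB s true i : ℝ))
      (fun z hz => by rw [(Finset.mem_filter.mp hz).2])]
    rw [Finset.sum_const, nsmul_eq_mul, mul_comm]
  have h2 : (WbI s : ℝ) = ∑ i ∈ range 6, (wB s true i : ℝ) := by
    rw [← wB_sum s hs true]; push_cast; rfl
  have h3 : eh n * ∑ z ∈ Icc (n : ℤ) (2 * n), wt s ((z : ℝ) / n) - WbI s =
      ∑ i ∈ range 6, (wB s true i : ℝ) *
        (eh n * (((Icc (n : ℤ) (2 * n)).filter (fun y => ci n y = i)).card : ℝ) - 1) := by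
    rw [h1, h2, Finset.mul_sum, ← Finset.sum_sub_distrib]
    apply Finset.sum_congr rfl
    intro i _
    ring
  rw [h3]
  refine (Finset.abs_sum_le_sum_abs _ _).trans ?_
  have h4 : ∀ i ∈ range 6, |(wB s true i : ℝ) *
      (eh n * (((Icc (n : ℤ) (2 * n)).filter (fun y => ci n y = i)).card : ℝ) - 1)| ≤
      (wB s true i : ℝ) * (10 * eh n) := by
    intro i hi
    have hi6 := Finset.mem_range.mp hi
    have hp : (0 : ℝ) ≤ (wB s true i : ℝ) := by
      have := (wB_pos s hs true i hi6).1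
      have h : (1 : ℝ) ≤ (wB s true i : ℝ) := by exact_mod_cast this
      linarith
    rw [abs_mul, abs_of_nonneg hp]
    exact mul_le_mul_of_nonneg_left (card_ci hn hi6) hp
  refine (Finset.sum_le_sum h4).trans ?_
  rw [← Finset.sum_mul, ← h2]
  have h5 : (WbI s : ℝ) ≤ 20 := by unfold WbI; split_ifs <;> norm_num
  nlinarith

theorem wt_fl {n : ℕ} (hn : 1 ≤ n) (s : ℕ) :
    (((Icc (n : ℤ) (2 * n)).filter
      (fun y : ℤ => wt s (3 - (y : ℝ) / n) ≠ (wB s false (ci n y) : ℝ))).card : ℝ) ≤ 7 := by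
  have h0 := (eh_pos hn).1
  have hinj : ∀ y z : ℤ, tm n y = tm n z → y = z := by
    intro y z h
    unfold tm at h
    have h1 : eh n * (y : ℝ) = eh n * z := by linarith
    exact_mod_cast mul_left_cancel₀ h0.ne' h1
  have hcard : ((Icc (n : ℤ) (2 * n)).filter
      (fun y : ℤ => wt s (3 - (y : ℝ) / n) ≠ (wB s false (ci n y) : ℝ))).card ≤
      (Finset.Icc (3 : ℤ) 9).card := by
    apply Finset.card_le_card_of_injOn (fun y => ⌊tm n y⌋)
    · intro y hy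
      have hy' := (Finset.mem_filter.mp hy).1
      obtain ⟨g1, g2⟩ := tm_ge hn hy'
      simp only [Finset.coe_Icc, Set.mem_Icc]
      constructor
      · exact Int.le_floor.mpr (by push_cast; exact g1)
      · have h := Int.floor_le (tm n y)
        have : (⌊tm n y⌋ : ℝ) ≤ 9 := le_trans h g2
        exact_mod_cast this
    · intro y hy z hz h
      have key : ∀ u : ℤ, u ∈ ((Icc (n : ℤ) (2 * n)).filter
          (fun y : ℤ => wt s (3 - (y : ℝ) / n) ≠ (wB s false (ci n y) : ℝ))) →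
          tm n u = (⌊tm n u⌋ : ℝ) := by
        intro u hu
        obtain ⟨hu1, hu2⟩ := Finset.mem_filter.mp hu
        by_contra hne
        apply hu2
        apply wt_fl1 hn s hu1
        · intro hh; apply hne; rw [hh]; norm_num
        · intro hh; apply hne; rw [hh]; norm_num
        · intro hh; apply hne; rw [hh]; norm_num
      apply hinj
      rw [key y hy, key z hz]
      simp only at h
      rw [h]
  have h7 : (Finset.Icc (3 : ℤ) 9).card = 7 := by decide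
  rw [h7] at hcard
  exact_mod_cast hcard

end Pool.Agent.PGo.K
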