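import Pool.Agent.PGo.KoBase
import Pool.Agent.PGr.KLine
set_option autoImplicit false

/-!
PGo-K: the kernel is a sum of 72 bounded quasi-concave functions.
-/

open MeasureTheory Set

namespace Pool.Agent.PGo.K

open PGrK (HI QC convex_half convex_half' conv_of qc_ind)

/-- the strip of the column `c`. -/
def strip (c : ℕ) : Set (ℝ × ℝ) := {z | (c : ℝ) ≤ z.1 ∧ (if c < 2 then z.1 < (c : ℝ) + 1 else z.1 ≤ 3)}

/-- the rectangle of the cell `(c,x)`. -/
def rect (c x : ℕ) : Set (ℝ × ℝ) := strip c ∩ {z | (x : ℝ) ≤ z.2 ∧ z.2 < (x : ℝ) + 1}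

def triL (c x : ℕ) : Set (ℝ × ℝ) := rect c x ∩ {z | z.2 - (x : ℝ) < z.1 - (c : ℝ)}
def triU (c x : ℕ) : Set (ℝ × ℝ) := rect c x ∩ {z | z.1 - (c : ℝ) ≤ z.2 - (x : ℝ)}

theorem convex_strip (c : ℕ) : Convex ℝ (strip c) := by
  have h1 : Convex ℝ {z : ℝ × ℝ | (c : ℝ) ≤ z.1} := by
    refine conv_of (convex_half 1 0 (-(c : ℝ))) (fun z => ⟨fun h => ?_, fun h => ?_⟩)
    · change (c : ℝ) ≤ z.1 at h; change 0 ≤ 1 * z.1 + 0 * z.2 + -(c : ℝ); linarith
    · change 0 ≤ 1 * z.1 + 0 * z.2 + -(c : ℝ) at h; change (c : ℝ) ≤ z.1; linarith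
  have h2 : Convex ℝ {z : ℝ × ℝ | (if c < 2 then z.1 < (c : ℝ) + 1 else z.1 ≤ 3)} := by
    by_cases hc : c < 2
    · refine conv_of (convex_half' (-1) 0 ((c : ℝ) + 1)) (fun z => ⟨fun h => ?_, fun h => ?_⟩)
      · change (if c < 2 then z.1 < (c : ℝ) + 1 else z.1 ≤ 3) at h
        rw [if_pos hc] at h
        change 0 < -1 * z.1 + 0 * z.2 + ((c : ℝ) + 1); linarith
      · change 0 < -1 * z.1 + 0 * z.2 + ((c : ℝ) + 1) at h
        change (if c < 2 then z.1 < (c : ℝ) + 1 else z.1 ≤ 3)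
        rw [if_pos hc]; linarith
    · refine conv_of (convex_half (-1) 0 3) (fun z => ⟨fun h => ?_, fun h => ?_⟩)
      · change (if c < 2 then z.1 < (c : ℝ) + 1 else z.1 ≤ 3) at h
        rw [if_neg hc] at h
        change 0 ≤ -1 * z.1 + 0 * z.2 + 3; linarith
      · change 0 ≤ -1 * z.1 + 0 * z.2 + 3 at h
        change (if c < 2 then z.1 < (c : ℝ) + 1 else z.1 ≤ 3)
        rw [if_neg hc]; linarith
  exact h1.inter h2

theorem convex_rect (c x : ℕ) : Convex ℝ (rect c x) := by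
  refine (convex_strip c).inter ?_
  have h1 : Convex ℝ {z : ℝ × ℝ | (x : ℝ) ≤ z.2} := by
    refine conv_of (convex_half 0 1 (-(x : ℝ))) (fun z => ⟨fun h => ?_, fun h => ?_⟩)
    · change (x : ℝ) ≤ z.2 at h; change 0 ≤ 0 * z.1 + 1 * z.2 + -(x : ℝ); linarith
    · change 0 ≤ 0 * z.1 + 1 * z.2 + -(x : ℝ) at h; change (x : ℝ) ≤ z.2; linarith
  have h2 : Convex ℝ {z : ℝ × ℝ | z.2 < (x : ℝ) + 1} := by
    refine conv_of (convex_half' 0 (-1) ((x : ℝ) + 1)) (fun z => ⟨fun h => ?_, fun h => ?_⟩)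
    · change z.2 < (x : ℝ) + 1 at h; change 0 < 0 * z.1 + -1 * z.2 + ((x : ℝ) + 1); linarith
    · change 0 < 0 * z.1 + -1 * z.2 + ((x : ℝ) + 1) at h; change z.2 < (x : ℝ) + 1; linarith
  exact h1.inter h2

theorem convex_triL (c x : ℕ) : Convex ℝ (triL c x) := by
  refine (convex_rect c x).inter ?_
  refine conv_of (convex_half' 1 (-1) ((x : ℝ) - c)) (fun z => ⟨fun h => ?_, fun h => ?_⟩)
  · change z.2 - (x : ℝ) < z.1 - (c : ℝ) at h
    change 0 < 1 * z.1 + -1 * z.2 + ((x : ℝ) - c); linarith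
  · change 0 < 1 * z.1 + -1 * z.2 + ((x : ℝ) - c) at h
    change z.2 - (x : ℝ) < z.1 - (c : ℝ); linarith

theorem convex_triU (c x : ℕ) : Convex ℝ (triU c x) := by
  refine (convex_rect c x).inter ?_
  refine conv_of (convex_half (-1) 1 ((c : ℝ) - x)) (fun z => ⟨fun h => ?_, fun h => ?_⟩)
  · change z.1 - (c : ℝ) ≤ z.2 - (x : ℝ) at h
    change 0 ≤ -1 * z.1 + 1 * z.2 + ((c : ℝ) - x); linarith
  · change 0 ≤ -1 * z.1 + 1 * z.2 + ((c : ℝ) - x) at h
    change z.1 - (c : ℝ) ≤ z.2 - (x : ℝ); linarith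

theorem meas_strip (c : ℕ) : MeasurableSet (strip c) := by
  have h1 : MeasurableSet {z : ℝ × ℝ | (c : ℝ) ≤ z.1} :=
    measurableSet_le measurable_const measurable_fst
  have h2 : MeasurableSet {z : ℝ × ℝ | (if c < 2 then z.1 < (c : ℝ) + 1 else z.1 ≤ 3)} := by
    by_cases hc : c < 2
    · simp only [hc, if_true]
      exact measurableSet_lt measurable_fst measurable_const
    · simp only [hc, if_false]
      exact measurableSet_le measurable_fst measurable_const
  exact h1.inter h2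

theorem meas_rect (c x : ℕ) : MeasurableSet (rect c x) :=
  (meas_strip c).inter ((measurableSet_le measurable_const measurable_snd).inter
    (measurableSet_lt measurable_snd measurable_const))

theorem meas_triL (c x : ℕ) : MeasurableSet (triL c x) :=
  (meas_rect c x).inter (measurableSet_lt (measurable_snd.sub_const _) (measurable_fst.sub_const _))

theorem meas_triU (c x : ℕ) : MeasurableSet (triU c x) :=
  (meas_rect c x).inter (measurableSet_le (measurable_fst.sub_const _) (measurable_snd.sub_const _))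

noncomputable def pcL (s p c x : ℕ) : ℝ × ℝ → ℝ :=
  (triL c x).indicator (fun z => Lw s p c x (z.1 - c) (z.2 - x))
noncomputable def pcU (s p c x : ℕ) : ℝ × ℝ → ℝ :=
  (triU c x).indicator (fun z => Up s p c x (z.1 - c) (z.2 - x))

theorem strip_bd {c : ℕ} (hc : c < 3) {z : ℝ × ℝ} (h : z ∈ strip c) :
    0 ≤ z.1 - (c : ℝ) ∧ z.1 - (c : ℝ) ≤ 1 := by
  obtain ⟨h1, h2⟩ := h
  refine ⟨by linarith, ?_⟩
  interval_cases c
  · simp only [Nat.ofNat_pos, if_true] at h2; push_cast at h2 ⊢; linarith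
  · simp only [Nat.one_lt_ofNat, if_true] at h2; push_cast at h2 ⊢; linarith
  · simp only [lt_self_iff_false, if_false] at h2; push_cast; linarith

theorem qc_L {s p c x : ℕ} (hs : s < 4) (hp : p < 6) (hc : c < 3) (hx : x < 12) : QC (pcL s p c x) (12) := by
  refine qc_ind (convex_triL c x) (meas_triL c x) (by norm_num)
    (- T s p c x 0 + T s p c x 1) (- T s p c x 1 + T s p c x 2)
    (T s p c x 0 * (1 + c) + T s p c x 1 * (x - c) - T s p c x 2 * x) _ ?_ ?_ ?_
  · intro z; unfold Lw; ring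
  · rintro z ⟨⟨h1, h2⟩, h3⟩
    have := strip_bd hc h1
    exact (Lw_bd hs hp hc hx this.2 (sub_nonneg.2 h2.1) (le_of_lt h3)).1
  · rintro z ⟨⟨h1, h2⟩, h3⟩
    have := strip_bd hc h1
    exact (Lw_bd hs hp hc hx this.2 (sub_nonneg.2 h2.1) (le_of_lt h3)).2

theorem qc_U {s p c x : ℕ} (hs : s < 4) (hp : p < 6) (hc : c < 3) (hx : x < 12) : QC (pcU s p c x) (12) := by
  refine qc_ind (convex_triU c x) (meas_triU c x) (by norm_num)
    (- T s p c x 4 + T s p c x 5) (- T s p c x 3 + T s p c x 4)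
    (T s p c x 3 * (1 + x) + T s p c x 4 * (c - x) - T s p c x 5 * c) _ ?_ ?_ ?_
  · intro z; unfold Up; ring
  · rintro z ⟨⟨h1, h2⟩, h3⟩
    have := strip_bd hc h1
    exact (Up_bd hs hp hc hx this.1 (by linarith [h2.2]) h3).1
  · rintro z ⟨⟨h1, h2⟩, h3⟩
    have := strip_bd hc h1
    exact (Up_bd hs hp hc hx this.1 (by linarith [h2.2]) h3).2

theorem mem_strip_iff {c : ℕ} (hc : c < 3) {z : ℝ × ℝ} :
    z ∈ strip c ↔ 0 ≤ z.1 ∧ z.1 ≤ 3 ∧ col z.1 = c := by
  unfold strip col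
  simp only [mem_ofPred_eq]
  interval_cases c
  · simp only [Nat.ofNat_pos, if_true]
    push_cast
    constructor
    · rintro ⟨h1, h2⟩
      exact ⟨h1, by linarith, by rw [if_pos (by linarith)]⟩
    · rintro ⟨h1, h2, h3⟩
      refine ⟨h1, ?_⟩
      by_contra hcon
      rw [if_neg (by linarith)] at h3
      split_ifs at h3 <;> omega
  · simp only [Nat.one_lt_ofNat, if_true]
    push_cast
    constructor
    · rintro ⟨h1, h2⟩
      exact ⟨by linarith, by linarith, by rw [if_neg (by linarith), if_pos (by linarith)]⟩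
    · rintro ⟨h1, h2, h3⟩
      by_cases h4 : z.1 < 1
      · rw [if_pos h4] at h3; omega
      · by_cases h5 : z.1 < 2
        · exact ⟨by linarith, by linarith⟩
        · rw [if_neg h4, if_neg h5] at h3; omega
  · simp only [lt_self_iff_false, if_false]
    push_cast
    constructor
    · rintro ⟨h1, h2⟩
      exact ⟨by linarith, h2, by rw [if_neg (by linarith), if_neg (by linarith)]⟩
    · rintro ⟨h1, h2, h3⟩
      refine ⟨?_, h2⟩
      by_contra hcon
      split_ifs at h3 <;> first | omega | linarith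

theorem mem_rect_iff {c x : ℕ} (hc : c < 3) {z : ℝ × ℝ} :
    z ∈ rect c x ↔ (0 ≤ z.1 ∧ z.1 ≤ 3 ∧ col z.1 = c) ∧ (0 ≤ z.2 ∧ ⌊z.2⌋₊ = x) := by
  unfold rect
  rw [mem_inter_iff, mem_strip_iff hc]
  refine and_congr Iff.rfl ?_
  simp only [mem_ofPred_eq]
  constructor
  · rintro ⟨h1, h2⟩
    exact ⟨le_trans (Nat.cast_nonneg x) h1, floor_of h1 h2⟩
  · rintro ⟨h1, h2⟩
    subst h2
    exact ⟨Nat.floor_le h1, Nat.lt_floor_add_one _⟩

/-- the kernel is the sum of the 32 pieces. -/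
theorem ker_eq_sum (s p : ℕ) (z : ℝ × ℝ) : ker s p z.1 z.2 =
    ∑ c ∈ Finset.range 3, ∑ x ∈ Finset.range 12, (pcL s p c x z + pcU s p c x z) := by
  by_cases h : 0 ≤ z.1 ∧ z.1 ≤ 3 ∧ 0 ≤ z.2 ∧ z.2 < 12
  · obtain ⟨h1, h2, h3, h4⟩ := h
    rw [Finset.sum_eq_single_of_mem (col z.1) (Finset.mem_range.2 (col_lt _))]
    · rw [Finset.sum_eq_single_of_mem ⌊z.2⌋₊ (Finset.mem_range.2 (floor_lt12 h4))]
      · have hr : z ∈ rect (col z.1) ⌊z.2⌋₊ :=
          (mem_rect_iff (col_lt _)).2 ⟨⟨h1, h2, rfl⟩, h3, rfl⟩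
        unfold ker cellv pcL pcU
        rw [if_pos ⟨h1, h2, h3, h4⟩]
        split_ifs with h5
        · rw [indicator_of_mem (show z ∈ triL _ _ from ⟨hr, h5⟩),
            indicator_of_notMem (show z ∉ triU _ _ from fun h6 => absurd h5 (not_lt.2 h6.2))]
          simp
        · rw [indicator_of_notMem (show z ∉ triL _ _ from fun h6 => h5 h6.2),
            indicator_of_mem (show z ∈ triU _ _ from ⟨hr, not_lt.1 h5⟩)]
          simp
      · intro x _ hne
        have hr : z ∉ rect (col z.1) x := fun hcon =>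
          hne ((mem_rect_iff (col_lt _)).1 hcon).2.2.symm
        unfold pcL pcU
        rw [indicator_of_notMem (fun h => hr h.1), indicator_of_notMem (fun h => hr h.1)]
        simp
    · intro c hc hne
      apply Finset.sum_eq_zero
      intro x _
      have hr : z ∉ rect c x := fun hcon =>
        hne ((mem_rect_iff (Finset.mem_range.1 hc)).1 hcon).1.2.2.symm
      unfold pcL pcU
      rw [indicator_of_notMem (fun h => hr h.1), indicator_of_notMem (fun h => hr h.1)]
      simp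
  · unfold ker
    rw [if_neg h]
    symm
    apply Finset.sum_eq_zero
    intro c hc
    apply Finset.sum_eq_zero
    intro x hx
    have hr : z ∉ rect c x := fun hcon => by
      have := (mem_rect_iff (Finset.mem_range.1 hc)).1 hcon
      apply h
      refine ⟨this.1.1, this.1.2.1, this.2.1, ?_⟩
      have h9 : ⌊z.2⌋₊ < 12 := by rw [this.2.2]; exact Finset.mem_range.1 hx
      have := (Nat.floor_lt' (by norm_num : (12:ℕ) ≠ 0)).1 h9
      exact_mod_cast this
    unfold pcL pcU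
    rw [indicator_of_notMem (fun h => hr h.1), indicator_of_notMem (fun h => hr h.1)]
    simp

theorem ker_meas {s p : ℕ} (hs : s < 4) (hp : p < 6) : Measurable (fun z : ℝ × ℝ => ker s p z.1 z.2) := by
  have : (fun z : ℝ × ℝ => ker s p z.1 z.2) = fun z =>
      ∑ c ∈ Finset.range 3, ∑ x ∈ Finset.range 12, (pcL s p c x z + pcU s p c x z) :=
    funext (ker_eq_sum s p)
  rw [this]
  apply Finset.measurable_fun_sum
  intro c hc
  apply Finset.measurable_fun_sum
  intro x hx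
  exact (qc_L hs hp (Finset.mem_range.1 hc) (Finset.mem_range.1 hx)).meas.add
    (qc_U hs hp (Finset.mem_range.1 hc) (Finset.mem_range.1 hx)).meas

end Pool.Agent.PGo.K
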