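import Pool.Agent.PGo.KoIo
import Pool.Agent.PGo.KoLaw

/-!
# PGo-KoQH: quadrature of the horizontal integrals

PLAN. For `y ∈ [n, 2n]` with `tm n y < 9`: `HH s (ci n y) (tm n y + τ) = ∑ i < 6, 1_[3+i,4+i)(tm n y) HH s i (tm n y + τ)`; the label `y = 2n` contributes
at most `30000 h`. For each `i`: `1_[3+i,4+i)(t) HH s i (t + τ) = ∑ x < 12, 1_{[3+i,4+i) ∩ [x - τ, x + 1 - τ)}(t) (affine in t)` (`HH_cell`, `HH_out`); each
summand is a nonnegative affine function on an interval, so `Q1` with bound `30000` (`Q_nonneg`, `HH_bd`; the superlevel sets `{r < g}`,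
`r ≥ 0`, are intervals). `quad` (Pool/Agent/PGr/KQuad.lean) with `disc_Icc`. The integral over `[3, 9]` of
`1_[3+i,4+i)(t) HH s i (t + τ)` is `HJ s i τ` (`HI.congr`, `HI.zero`, or `intervalIntegral` of an indicator).
-/

noncomputable section

namespace Pool.Agent.PGo.K

open Finset Pool.Agent.PGr PGrK

private theorem aff_oc (α β r : ℝ) : Set.OrdConnected {t : ℝ | r < α * t + β} := by
  refine ⟨fun a ha b hb c hc => ?_⟩
  have ha' : r < α * a + β := ha
  have hb' : r < α * b + β := hb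
  show r < α * c + β
  rcases le_total 0 α with h | h
  · have := mul_le_mul_of_nonneg_left hc.1 h
    linarith
  · have := mul_le_mul_of_nonpos_left hc.2 h
    linarith

/-- the affine function on the cell -/
private def qf (s i x : ℕ) (τ t : ℝ) : ℝ :=
  ((Q2 s i x : ℝ) - (Q0 s i x : ℝ)) / (2 * den s) * t +
    ((Q0 s i x : ℝ) * (1 - (τ - x)) + (Q2 s i x : ℝ) * (τ - x)) / (2 * den s)

/-- the interval of the cell -/
private def qJ (i x : ℕ) (τ : ℝ) : Set ℝ := Ic i ∩ Set.Ico ((x : ℝ) - τ) ((x : ℝ) + 1 - τ)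

/-- one piece -/
private def qq (s i x : ℕ) (τ : ℝ) : ℝ → ℝ := (qJ i x τ).indicator (qf s i x τ)

private theorem qq_mem {s i x : ℕ} (hs : s < 4) (hi : i < 6) (hx : x < 12) {τ t : ℝ}
    (h : t ∈ qJ i x τ) : qq s i x τ t = HH s i (t + τ) := by
  have h1 : (x : ℝ) ≤ t + τ := by linarith [h.2.1]
  have h2 : t + τ < (x : ℝ) + 1 := by linarith [h.2.2]
  rw [qq, Set.indicator_of_mem h, HH_cell hs hi hx h1 h2, qf]
  ring

private theorem qq_Q1 {s i x : ℕ} (hs : s < 4) (hi : i < 6) (hx : x < 12) (τ : ℝ) :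
    PGrK.Q1 (qq s i x τ) 30000 := by
  refine ⟨fun t => ?_, fun t => ?_, fun r hr => ?_⟩
  · by_cases h : t ∈ qJ i x τ
    · rw [qq_mem hs hi hx h]
      exact (HH_bd hs hi _).1
    · rw [qq, Set.indicator_of_notMem h]
  · by_cases h : t ∈ qJ i x τ
    · rw [qq_mem hs hi hx h]
      exact (HH_bd hs hi _).2
    · rw [qq, Set.indicator_of_notMem h]
      norm_num
  · have e : {t | r < qq s i x τ t} = qJ i x τ ∩ {t | r < qf s i x τ t} := by
      ext t
      show r < qq s i x τ t ↔ t ∈ qJ i x τ ∧ r < qf s i x τ t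
      by_cases h : t ∈ qJ i x τ
      · rw [qq, Set.indicator_of_mem h]
        exact ⟨fun h1 => ⟨h, h1⟩, fun h1 => h1.2⟩
      · rw [qq, Set.indicator_of_notMem h]
        exact ⟨fun h1 => absurd h1 (not_lt.2 hr), fun h1 => absurd h1.1 h⟩
    rw [e]
    exact ((Ic_oc i).inter Set.ordConnected_Ico).inter (aff_oc _ _ r)

/-- the sum of the pieces -/
private theorem qq_sum {s i : ℕ} (hs : s < 4) (hi : i < 6) (τ t : ℝ) :
    ∑ x ∈ range 12, qq s i x τ t = (Ic i).indicator (fun t => HH s i (t + τ)) t := by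
  by_cases ht : t ∈ Ic i
  swap
  · rw [Set.indicator_of_notMem ht]
    refine Finset.sum_eq_zero fun x _ => ?_
    rw [qq, Set.indicator_of_notMem fun h => ht h.1]
  rw [Set.indicator_of_mem ht]
  by_cases h0 : t + τ < 0 ∨ 12 ≤ t + τ
  · rw [HH_out h0]
    refine Finset.sum_eq_zero fun x hx => ?_
    rw [qq, Set.indicator_of_notMem]
    intro h
    have hx12 : (x : ℝ) + 1 ≤ 12 := by
      have := Finset.mem_range.1 hx
      exact_mod_cast this
    have hx0 : (0 : ℝ) ≤ x := Nat.cast_nonneg x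
    rcases h0 with h0 | h0
    · linarith [h.2.1]
    · linarith [h.2.2]
  · rw [not_or, not_lt, not_le] at h0
    have hfl : ⌊t + τ⌋₊ < 12 := (Nat.floor_lt h0.1).2 (by exact_mod_cast h0.2)
    have hmem : t ∈ qJ i ⌊t + τ⌋₊ τ := by
      refine ⟨ht, ?_, ?_⟩
      · linarith [Nat.floor_le h0.1]
      · linarith [Nat.lt_floor_add_one (t + τ)]
    rw [Finset.sum_eq_single ⌊t + τ⌋₊]
    · exact qq_mem hs hi hfl hmem
    · intro x _ hne
      rw [qq, Set.indicator_of_notMem]
      intro h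
      apply hne
      refine ((Nat.floor_eq_iff h0.1).2 ⟨?_, ?_⟩).symm
      · linarith [h.2.1]
      · linarith [h.2.2]
    · intro h
      exact absurd (Finset.mem_range.2 hfl) h

open MeasureTheory in
private theorem qq_int {s i : ℕ} (hs : s < 4) (hi : i < 6) (τ : ℝ) :
    ∑ x ∈ range 12, ∫ t in (3 : ℝ)..9, qq s i x τ t = HJ s i τ := by
  have hint : ∀ a b : ℝ, IntervalIntegrable
      (fun t => (Ic i).indicator (fun t => HH s i (t + τ)) t) volume a b := by
    intro a b
    have h1 := IntervalIntegrable.sum (μ := volume) (a := a) (b := b) (range 12)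
      (f := fun x t => qq s i x τ t)
      (fun x hx => (qq_Q1 hs hi (Finset.mem_range.1 hx) τ).ii a b)
    have h2 : (∑ x ∈ range 12, fun t => qq s i x τ t) =
        fun t => (Ic i).indicator (fun t => HH s i (t + τ)) t := by
      funext t
      rw [Finset.sum_apply, qq_sum hs hi]
    rw [h2] at h1
    exact h1
  have hi5 : (i : ℝ) ≤ 5 := by exact_mod_cast Nat.lt_succ_iff.1 hi
  have hi0 : (0 : ℝ) ≤ i := Nat.cast_nonneg i
  have hIc : ∀ t, t ∈ Set.Ioo (3 + (i : ℝ)) (4 + (i : ℝ)) → t ∈ Ic i := by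
    intro t ht
    unfold Ic
    split_ifs with h
    · exact ⟨ht.1.le, ht.2⟩
    · have : i = 5 := by omega
      subst this
      have h1 := ht.1
      have h2 := ht.2
      push_cast at h1 h2
      exact ⟨by linarith, by linarith⟩
  have hIc1 : ∀ t, t ∈ Ic i → 3 + (i : ℝ) ≤ t ∧ t ≤ 4 + (i : ℝ) := by
    intro t ht
    unfold Ic at ht
    split_ifs at ht with h
    · exact ⟨ht.1, ht.2.le⟩
    · have : i = 5 := by omega
      subst this
      have h1 := ht.1
      have h2 := ht.2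
      push_cast
      exact ⟨by linarith, by linarith⟩
  have h1 : HI (fun t => (Ic i).indicator (fun t => HH s i (t + τ)) t) 3 (3 + (i : ℝ)) 0 := by
    refine HI.zero (by linarith) fun t ht => ?_
    show (Ic i).indicator (fun t => HH s i (t + τ)) t = 0
    rw [Set.indicator_of_notMem]
    intro h
    linarith [(hIc1 t h).1, ht.2]
  have h3 : HI (fun t => (Ic i).indicator (fun t => HH s i (t + τ)) t) (4 + (i : ℝ)) 9 0 := by
    refine HI.zero (by linarith) fun t ht => ?_
    show (Ic i).indicator (fun t => HH s i (t + τ)) t = 0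
    rw [Set.indicator_of_notMem]
    intro h
    linarith [(hIc1 t h).2, ht.1]
  have h2 : HI (fun t => (Ic i).indicator (fun t => HH s i (t + τ)) t) (3 + (i : ℝ))
      (4 + (i : ℝ)) (∫ t in (3 + (i : ℝ))..(4 + (i : ℝ)),
        (Ic i).indicator (fun t => HH s i (t + τ)) t) := ⟨hint _ _, rfl⟩
  have h4 : HI (fun t => HH s i (t + τ)) (3 + (i : ℝ)) (4 + (i : ℝ))
      (∫ t in (3 + (i : ℝ))..(4 + (i : ℝ)), (Ic i).indicator (fun t => HH s i (t + τ)) t) := by
    refine HI.congr (by linarith) (fun t ht => ?_) h2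
    show HH s i (t + τ) = (Ic i).indicator (fun t => HH s i (t + τ)) t
    rw [Set.indicator_of_mem (hIc t ht)]
  have h5 := ((h1.trans h2).trans h3).integral
  rw [← h4.integral, zero_add, add_zero] at h5
  have h6 : HJ s i τ = ∫ t in (3 + (i : ℝ))..(4 + (i : ℝ)), HH s i (t + τ) := rfl
  rw [h6, ← h5, ← intervalIntegral.integral_finsetSum
    (fun x hx => (qq_Q1 hs hi (Finset.mem_range.1 hx) τ).ii 3 9)]
  refine intervalIntegral.integral_congr fun t _ => ?_
  exact qq_sum hs hi τ t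

theorem quadH : ∃ C : ℝ, 0 < C ∧ ∀ n : ℕ, 1 ≤ n → ∀ s < 4, ∀ τ : ℝ,
    |eh n * ∑ y ∈ Icc (n : ℤ) (2 * n), HH s (ci n y) (tm n y + τ) - ∑ i ∈ range 6, HJ s i τ| ≤
      C * eh n := by
  refine ⟨72 * (30000 * 10), by norm_num, ?_⟩
  intro n hn s hs τ
  have e1 : ∑ y ∈ Icc (n : ℤ) (2 * n), HH s (ci n y) (tm n y + τ) =
      ∑ i ∈ range 6, ∑ x ∈ range 12, ∑ y ∈ Icc (n : ℤ) (2 * n), qq s i x τ (tm n y) := by
    have e2 : ∀ y ∈ Icc (n : ℤ) (2 * n), HH s (ci n y) (tm n y + τ) =
        ∑ i ∈ range 6, ∑ x ∈ range 12, qq s i x τ (tm n y) := by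
      intro y hy
      have e3 : ∀ i ∈ range 6, ∑ x ∈ range 12, qq s i x τ (tm n y) =
          if ci n y = i then HH s i (tm n y + τ) else 0 := by
        intro i hi
        rw [qq_sum hs (Finset.mem_range.1 hi)]
        by_cases h : ci n y = i
        · rw [if_pos h, Set.indicator_of_mem ((mem_Ic hn hy (Finset.mem_range.1 hi)).2 h)]
        · rw [if_neg h, Set.indicator_of_notMem fun h1 =>
            h ((mem_Ic hn hy (Finset.mem_range.1 hi)).1 h1)]
      rw [Finset.sum_congr rfl e3, Finset.sum_ite_eq, if_pos (Finset.mem_range.2 (ci_lt n y))]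
    rw [Finset.sum_congr rfl e2, Finset.sum_comm]
    refine Finset.sum_congr rfl fun i _ => ?_
    rw [Finset.sum_comm]
  have e4 : ∑ i ∈ range 6, HJ s i τ =
      ∑ i ∈ range 6, ∑ x ∈ range 12, ∫ t in (3 : ℝ)..9, qq s i x τ t :=
    Finset.sum_congr rfl fun i hi => (qq_int hs (Finset.mem_range.1 hi) τ).symm
  rw [e1, e4, Finset.mul_sum, ← Finset.sum_sub_distrib]
  have hpt : ∀ i ∈ range 6, |eh n * ∑ x ∈ range 12, ∑ y ∈ Icc (n : ℤ) (2 * n),
      qq s i x τ (tm n y) - ∑ x ∈ range 12, ∫ t in (3 : ℝ)..9, qq s i x τ t| ≤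
      12 * (30000 * (10 * eh n)) := by
    intro i hi
    rw [Finset.mul_sum, ← Finset.sum_sub_distrib]
    refine (Finset.abs_sum_le_sum_abs _ _).trans ?_
    refine (Finset.sum_le_card_nsmul _ _ (30000 * (10 * eh n)) fun x hx => ?_).trans ?_
    · have h1 := quad (Icc (n : ℤ) (2 * n)) (tm n) (by norm_num : (3 : ℝ) ≤ 9) (disc_Icc hn)
        (qq_Q1 hs (Finset.mem_range.1 hi) (Finset.mem_range.1 hx) τ)
      rw [one_mul] at h1
      exact h1
    · rw [Finset.card_range, nsmul_eq_mul]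
      norm_num
  refine (Finset.abs_sum_le_sum_abs _ _).trans ?_
  refine (Finset.sum_le_card_nsmul _ _ _ hpt).trans (le_of_eq ?_)
  rw [Finset.card_range, nsmul_eq_mul]
  push_cast
  ring

end Pool.Agent.PGo.K
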