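import Pool.Agent.PGo.KoRf

/-!
# PGo-KoRed: the sums in normalised coordinates

PLAN. For every `v` reindex every sum over `ZB n` by `rf n v` (`sum_rf`: `∑ x ∈ ZB n, F x = ∑ x ∈ ZB n, F (rf n v x)`), then `lwo_rf`, `kco_rf`, `rf_sub`, and
`|rf n v x - anc n v| = |x - an n v|` (`anc n v = rf n v (an n v)`, `rf_anc`, `rf_rf`). `st v v = true`.
For `Ll_red`, `Lk_red`: `z = rf n v (rf n v z)`.
-/

noncomputable section

namespace Pool.Agent.PGo.K

open Finset Pool.Agent.PGr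

private theorem st_self (v : ℕ) : st v v = true := by
  unfold st
  exact decide_eq_true rfl

private theorem anc_rf {n v : ℕ} (hv : v ∈ vs n) (x : ℤ) :
    |rf n v x - anc n v| = |x - an n v| := by
  have h1 : anc n v = rf n v (an n v) := by
    rw [← rf_anc hv, rf_rf]
  rw [h1, rf_sub]

theorem Ssp_red {n : ℕ} (hn : 1 ≤ n) (s : ℕ) (d : ℤ) :
    Ssp s n d = ∑ v ∈ vs n, ∑ y ∈ ZB n, la s n true y * (if |y - an n v| = d then 1 else 0) := by

  unfold Ssp
  refine Finset.sum_congr rfl fun v hv => ?_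
  rw [← sum_rf n v (fun y => lwo s n v y * (if |y - anc n v| = d then 1 else 0))]
  refine Finset.sum_congr rfl fun y _ => ?_
  rw [lwo_rf hn, st_self, anc_rf hv]


theorem Sin_red {n : ℕ} (hn : 1 ≤ n) (s k : ℕ) (d : ℤ) :
    Sin s n k d = ∑ v ∈ vs n, ∑ y ∈ ZB n, ∑ y' ∈ ZB n,
      la s n true y * la s n (st v (nbp n k v)) y' * (if |y - y'| = d then 1 else 0) := by

  unfold Sin
  refine Finset.sum_congr rfl fun v _ => ?_
  rw [← sum_rf n v (fun y => ∑ y' ∈ ZB n,
    lwo s n v y * lwo s n (nbp n k v) y' * (if |y - y'| = d then 1 else 0))]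
  refine Finset.sum_congr rfl fun y _ => ?_
  rw [← sum_rf n v (fun y' =>
    lwo s n v (rf n v y) * lwo s n (nbp n k v) y' * (if |rf n v y - y'| = d then 1 else 0))]
  refine Finset.sum_congr rfl fun y' _ => ?_
  rw [lwo_rf hn, lwo_rf hn, st_self, rf_sub]


theorem Sk_red {n : ℕ} (hn : 1 ≤ n) (s k : ℕ) (d : ℤ) :
    Sk s n k d = ∑ v ∈ vs n, TT s n (st v (nbp n k v)) (st v (nbm n k v)) d v := by

  unfold Sk TT
  refine Finset.sum_congr rfl fun v hv => ?_
  rw [← sum_rf n v (fun y => ∑ y' ∈ ZB n, ∑ x ∈ ZB n,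
    lwo s n (nbp n k v) y * lwo s n (nbm n k v) y' * kco s n v y y' x *
      ((if |x - anc n v| = d then 1 else 0) + (if |x - y| = d then 1 else 0) +
        (if |x - y'| = d then 1 else 0)))]
  refine Finset.sum_congr rfl fun y _ => ?_
  rw [← sum_rf n v (fun y' => ∑ x ∈ ZB n,
    lwo s n (nbp n k v) (rf n v y) * lwo s n (nbm n k v) y' * kco s n v (rf n v y) y' x *
      ((if |x - anc n v| = d then 1 else 0) + (if |x - rf n v y| = d then 1 else 0) +
        (if |x - y'| = d then 1 else 0)))]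
  refine Finset.sum_congr rfl fun y' _ => ?_
  rw [← sum_rf n v (fun x =>
    lwo s n (nbp n k v) (rf n v y) * lwo s n (nbm n k v) (rf n v y') *
      kco s n v (rf n v y) (rf n v y') x *
      ((if |x - anc n v| = d then 1 else 0) + (if |x - rf n v y| = d then 1 else 0) +
        (if |x - rf n v y'| = d then 1 else 0)))]
  refine Finset.sum_congr rfl fun x _ => ?_
  rw [lwo_rf hn, lwo_rf hn, kco_rf hn hv, anc_rf hv, rf_sub, rf_sub]


theorem Ll_red {n : ℕ} (hn : 1 ≤ n) (s : ℕ) (z : ℤ) :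
    Ll s n z = ∑ v ∈ vs n, la s n true (rf n v z) := by

  unfold Ll
  refine Finset.sum_congr rfl fun v _ => ?_
  have h1 := lwo_rf hn s v v (rf n v z)
  rw [rf_rf, st_self] at h1
  exact h1


theorem Lk_red {n : ℕ} (hn : 1 ≤ n) (s k : ℕ) (z : ℤ) :
    Lk s n k z = ∑ v ∈ vs n, ∑ y ∈ ZB n, ∑ y' ∈ ZB n,
      la s n (st v (nbp n k v)) y * la s n (st v (nbm n k v)) y' *
        Kn s n (cla (grp ((y : ℝ) / n)) (grp ((y' : ℝ) / n))) (am n v) (rf n v z) := by

  unfold Lk
  refine Finset.sum_congr rfl fun v hv => ?_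
  rw [← sum_rf n v (fun y => ∑ y' ∈ ZB n,
    lwo s n (nbp n k v) y * lwo s n (nbm n k v) y' * kco s n v y y' z)]
  refine Finset.sum_congr rfl fun y _ => ?_
  rw [← sum_rf n v (fun y' =>
    lwo s n (nbp n k v) (rf n v y) * lwo s n (nbm n k v) y' * kco s n v (rf n v y) y' z)]
  refine Finset.sum_congr rfl fun y' _ => ?_
  have h1 := kco_rf hn hv s y y' (rf n v z)
  rw [rf_rf] at h1
  rw [lwo_rf hn, lwo_rf hn, h1]


end Pool.Agent.PGo.K
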