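import Pool.Agent.PGo.KoDefs

/-!
# PGo-KoRf: normalised coordinates

PLAN. `rf n v` is an involution which preserves `ZB n`, `[n, 2n]` and the absolute values of
differences, and maps `anc n v` to `an n v` for `v ∈ vs n` (unfold `anc`, `vs`, `spec`; `split_ifs`, `omega`; `abs_sub_comm`).
`sum_rf`: `Finset.sum_nbij'` with `rf n v` both ways.
`nv n v (rf n v y) = y / n`, and `nv n w (rf n v y) = y / n` or `3 - y / n` according to `st v w` (four cases of the parities; `n ≠ 0`, `field_simp`).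
`lwo_rf`: unfold `lwo`, `la`; the denominators agree by the reflection `z ↦ 3 n - z` of `[n, 2n]` (`Finset.sum_nbij'`).
`kco_rf`: `6 (an n v / n) - 15 = am n v`, `6 (x / n) - 3 = tm n x` (unfold `ko`, `kw`), `nv n v (anc n v) = an n v / n` (`rf_anc`, `rf_rf`), denominators by `sum_rf`.
-/

noncomputable section

namespace Pool.Agent.PGo.K

open Finset Pool.Agent.PGr

theorem rf_rf (n v : ℕ) (x : ℤ) : rf n v (rf n v x) = x := by
  unfold rf
  split_ifs
  · rfl
  · ring

theorem rf_mem (n v : ℕ) (x : ℤ) : rf n v x ∈ ZB n ↔ x ∈ ZB n := by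
  unfold rf ZB
  split_ifs
  · rfl
  · simp only [Finset.mem_filter, Finset.mem_Icc]
    omega

theorem sum_rf (n v : ℕ) (F : ℤ → ℝ) : ∑ x ∈ ZB n, F (rf n v x) = ∑ x ∈ ZB n, F x := by
  refine Finset.sum_nbij' (rf n v) (rf n v) ?_ ?_ ?_ ?_ ?_
  · intro a ha
    exact (rf_mem n v a).2 ha
  · intro a ha
    exact (rf_mem n v a).2 ha
  · intro a _
    exact rf_rf n v a
  · intro a _
    exact rf_rf n v a
  · intro a _
    rfl

theorem rf_anc {n v : ℕ} (hv : v ∈ vs n) : rf n v (anc n v) = an n v := by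
  unfold vs at hv
  rw [Finset.mem_filter] at hv
  obtain ⟨-, hv2⟩ := hv
  unfold spec at hv2
  unfold rf anc an
  by_cases h1 : v % 2 = 1
  · rw [if_pos h1, if_neg (by omega), if_neg hv2]
  · rw [if_neg h1, if_pos (by omega)]

theorem rf_sub (n v : ℕ) (x y : ℤ) : |rf n v x - rf n v y| = |x - y| := by
  unfold rf
  split_ifs
  · rfl
  · rw [abs_sub_comm x y]
    congr 1
    ring

private theorem korf_nv {n : ℕ} (hn : 1 ≤ n) (v w : ℕ) (y : ℤ) :
    nv n w (rf n v y) = if st v w then (y : ℝ) / n else 3 - (y : ℝ) / n := by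
  have hn0 : (n : ℝ) ≠ 0 := by
    have : (1 : ℝ) ≤ n := by exact_mod_cast hn
    positivity
  have h3 : ((3 * (n : ℤ) - y : ℤ) : ℝ) / n = 3 - (y : ℝ) / n := by
    push_cast
    field_simp
  unfold nv rf st
  by_cases hv : v % 2 = 1
  · by_cases hw : w % 2 = 1
    · rw [if_pos hw, if_pos hv, if_pos (by simp [hv, hw])]
    · have hvw : ¬ v % 2 = w % 2 := by omega
      rw [if_neg hw, if_pos hv, if_neg (by simpa using hvw)]
  · by_cases hw : w % 2 = 1
    · have hvw : ¬ v % 2 = w % 2 := by omega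
      rw [if_pos hw, if_neg hv, if_neg (by simpa using hvw), h3]
    · have hvw : v % 2 = w % 2 := by omega
      rw [if_neg hw, if_neg hv, if_pos (by simpa using hvw), h3]
      ring

private theorem korf_nv_self {n : ℕ} (hn : 1 ≤ n) (v : ℕ) (y : ℤ) :
    nv n v (rf n v y) = (y : ℝ) / n := by
  rw [korf_nv hn, if_pos (by simp [st])]

private theorem korf_icc (n v : ℕ) (y : ℤ) :
    rf n v y ∈ Icc (n : ℤ) (2 * n) ↔ y ∈ Icc (n : ℤ) (2 * n) := by
  unfold rf
  split_ifs
  · rfl
  · simp only [Finset.mem_Icc]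
    omega

theorem lwo_rf {n : ℕ} (hn : 1 ≤ n) (s v w : ℕ) (y : ℤ) :
    lwo s n w (rf n v y) = la s n (st v w) y := by
  have hden : ∑ z ∈ Icc (n : ℤ) (2 * n), wt s (nv n w z) =
      ∑ z ∈ Icc (n : ℤ) (2 * n), wt s ((z : ℝ) / n) := by
    refine Finset.sum_nbij' (rf n w) (rf n w) ?_ ?_ ?_ ?_ ?_
    · intro a ha
      exact (korf_icc n w a).2 ha
    · intro a ha
      exact (korf_icc n w a).2 ha
    · intro a _
      exact rf_rf n w a
    · intro a _
      exact rf_rf n w a
    · intro a _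
      have h1 := korf_nv_self hn w (rf n w a)
      rw [rf_rf] at h1
      rw [h1]
  unfold lwo la
  simp only [korf_icc, korf_nv hn, hden]

theorem kco_rf {n v : ℕ} (hn : 1 ≤ n) (hv : v ∈ vs n) (s : ℕ) (y y' x : ℤ) :
    kco s n v (rf n v y) (rf n v y') (rf n v x) =
      Kn s n (cla (grp ((y : ℝ) / n)) (grp ((y' : ℝ) / n))) (am n v) x := by
  have hn0 : (n : ℝ) ≠ 0 := by
    have : (1 : ℝ) ≤ n := by exact_mod_cast hn
    positivity
  have hanc : nv n v (anc n v) = (an n v : ℝ) / n := by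
    have h1 : anc n v = rf n v (an n v) := by
      rw [← rf_anc hv, rf_rf]
    rw [h1, korf_nv_self hn]
  have ham : 6 * ((an n v : ℝ) / n) - 15 = am n v := by
    unfold an am eh
    generalize v / 2 = m
    push_cast
    field_simp
    ring
  have hkw : ∀ z : ℤ, kw s n v (rf n v y) (rf n v y') (rf n v z) =
      ker s (cla (grp ((y : ℝ) / n)) (grp ((y' : ℝ) / n))) (am n v) (tm n z) := by
    intro z
    unfold kw ko
    rw [korf_nv_self hn, korf_nv_self hn, korf_nv_self hn, hanc, ham]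
    congr 1
    unfold tm eh
    field_simp
  have hden : ∑ z ∈ ZB n, kw s n v (rf n v y) (rf n v y') z =
      ∑ z ∈ ZB n, ker s (cla (grp ((y : ℝ) / n)) (grp ((y' : ℝ) / n))) (am n v) (tm n z) := by
    rw [← sum_rf n v]
    exact Finset.sum_congr rfl fun z _ => hkw z
  unfold kco Kn
  simp only [rf_mem, hkw, hden]

end Pool.Agent.PGo.K
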