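import Pool.Agent.PGo.Defs
import Pool.Agent.PGo.KoTab

/-!
# PGo, section 3 of pgo_paper.md: the discrete statements about the kernels

`s = 0, 1, 2, 3` are the systems KI, KB, K3e, K3o. All sums over labels are over `ZB n`.
-/

noncomputable section

namespace Pool.Agent.PGo

open Finset Pool.Agent.PGr

/-- label (or anchor) normalised by the type of the vertex `v`: `z / n` for odd `v`,
`3 - z / n` for even `v`. -/
def nv (n v : ℕ) (z : ℤ) : ℝ := if v % 2 = 1 then (z : ℝ) / n else 3 - (z : ℝ) / n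

/-- the group of a normalised label -/
def grp (Y : ℝ) : ℕ := if Y < 7 / 6 then 0 else if Y < 5 / 3 then 1 else 2

/-- the class of an unordered pair of groups: `00, 01, 02, 11, 12, 22` -/
def cla (a b : ℕ) : ℕ := if a = 0 ∨ b = 0 then a + b else a + b + 1

/-- weights of the laws of the black labels on the six cells of `[1,2]`:
`2,1,1,1,1,2` for `s < 2`, else `7,5,2,2,2,2` -/
def wt (s : ℕ) (Y : ℝ) : ℝ :=
  if s < 2 then (if Y < 7 / 6 ∨ 11 / 6 ≤ Y then 2 else 1)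
  else (if Y < 7 / 6 then 7 else if Y < 4 / 3 then 5 else 2)

/-- the law of the label of a black vertex `v` -/
def lwo (s n v : ℕ) (y : ℤ) : ℝ :=
  if y ∈ Icc (n : ℤ) (2 * n) then
    wt s (nv n v y) / ∑ z ∈ Icc (n : ℤ) (2 * n), wt s (nv n v z) else 0

/-- the kernel at the vertex `v` with neighbour labels `y`, `y'` and label `x` -/
def kw (s n v : ℕ) (y y' x : ℤ) : ℝ :=
  ko s (cla (grp (nv n v y)) (grp (nv n v y'))) (nv n v (anc n v)) (nv n v x)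

/-- the conditional law of the label `x` of an item vertex `v` given the neighbour labels -/
def kco (s n v : ℕ) (y y' x : ℤ) : ℝ :=
  if x ∈ ZB n then kw s n v y y' x / ∑ z ∈ ZB n, kw s n v y y' z else 0

/-- the vertices which are not special -/
def vs (n : ℕ) : Finset ℕ := (range n).filter (fun v => ¬ spec n v)

/-- spokes of the black vertices -/
def Ssp (s n : ℕ) (d : ℤ) : ℝ :=
  ∑ v ∈ vs n, ∑ y ∈ ZB n, lwo s n v y * (if |y - anc n v| = d then 1 else 0)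

/-- inner edges between two black vertices `v`, `v + k` -/
def Sin (s n k : ℕ) (d : ℤ) : ℝ :=
  ∑ v ∈ vs n, ∑ y ∈ ZB n, ∑ y' ∈ ZB n,
    lwo s n v y * lwo s n (nbp n k v) y' * (if |y - y'| = d then 1 else 0)

/-- the three differences of an item -/
def Sk (s n k : ℕ) (d : ℤ) : ℝ :=
  ∑ v ∈ vs n, ∑ y ∈ ZB n, ∑ y' ∈ ZB n, ∑ x ∈ ZB n,
    lwo s n (nbp n k v) y * lwo s n (nbm n k v) y' * kco s n v y y' x *
      ((if |x - anc n v| = d then 1 else 0) + (if |x - y| = d then 1 else 0) +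
        (if |x - y'| = d then 1 else 0))

/-- labels of the black vertices -/
def Ll (s n : ℕ) (z : ℤ) : ℝ := ∑ v ∈ vs n, lwo s n v z

/-- labels of the items -/
def Lk (s n k : ℕ) (z : ℤ) : ℝ :=
  ∑ v ∈ vs n, ∑ y ∈ ZB n, ∑ y' ∈ ZB n,
    lwo s n (nbp n k v) y * lwo s n (nbm n k v) y' * kco s n v y y' z

/-- Basic properties of the laws. -/
structure KoBasic (C c : ℝ) (n : ℕ) : Prop where
  lw_nonneg : ∀ s v y, 0 ≤ lwo s n v y
  lw_le : ∀ s v y, lwo s n v y ≤ C / n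
  lw_low : ∀ s v y, (n : ℤ) ≤ y → y ≤ 2 * n → c / n ≤ lwo s n v y
  lw_sum : ∀ s v, ∑ y ∈ ZB n, lwo s n v y = 1
  kc_nonneg : ∀ s < 4, ∀ v ∈ vs n, ∀ y y' x, 0 ≤ kco s n v y y' x
  kc_le : ∀ s < 4, ∀ v ∈ vs n, ∀ y y' x, kco s n v y y' x ≤ C / n
  kc_low : ∀ s < 4, ∀ v ∈ vs n, ∀ y y', ∀ x ∈ ZB n, |x - anc n v| ≤ 2 * (n : ℤ) →
    c / n ≤ kco s n v y y' x
  kc_sum : ∀ s < 4, ∀ v ∈ vs n, ∀ y y', ∑ x ∈ ZB n, kco s n v y y' x = 1
  kc_supp : ∀ s < 4, ∀ v ∈ vs n, ∀ y y' x, kco s n v y y' x ≠ 0 → |x - anc n v| ≤ 2 * (n : ℤ)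

/-- The density statement: `a` black spokes, `b` black inner edges and `c` items give the density
`R` of the differences; the labels have density at most `24/25 R`. -/
def KD (s : ℕ) (a b c R ε : ℝ) (n k : ℕ) : Prop :=
  (∀ d : ℤ, 1 ≤ d → d ≤ 2 * n → |a * Ssp s n d + b * Sin s n k d + c * Sk s n k d - R| ≤ ε) ∧
  (∀ z : ℤ, a * Ll s n z + c * Lk s n k z ≤ 24 / 25 * R + ε)

/-- basic statement -/
def KoB : Prop := ∃ C c : ℝ, 0 < C ∧ 0 < c ∧ ∃ n0 : ℕ, ∀ n : ℕ, n0 ≤ n → KoBasic C c n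

/-- systems KI and KB -/
def Ko01 : Prop := ∀ ε : ℝ, 0 < ε → ∃ n0 : ℕ, ∀ n k : ℕ, n0 ≤ n → 1 ≤ k → 2 * k < n →
  KD 0 1 0 1 2 ε n k ∧ KD 1 3 1 2 5 ε n k

/-- systems K3e and K3o -/
def Ko23 : Prop := ∀ ε : ℝ, 0 < ε → ∃ g0 : ℕ, ∀ g : ℕ, g0 ≤ g →
  (Even g → KD 2 2 1 1 3 ε (3 * g) g) ∧ (Odd g → KD 3 2 1 1 3 ε (3 * g) g)

end Pool.Agent.PGo
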