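import Pool.Agent.PGo.GoodFam
import Pool.Agent.PGr.Fin

/-!
# PGo: assembly of the theorem for all large `n` and all `k`
-/

noncomputable section

namespace Pool.Agent.PGo

open Finset Pool.Agent.PGr Pool.Agent.Helper20.Graceful

/-- The case `n = L g`, `k = p g`, `L` odd and fixed. -/
theorem case_odd {L p : ℕ} (h : Adm L p) (hW : ThmW L p) (hM : ThmM L p) (hA : ThmA L p) :
    ∃ g0 : ℕ, ∀ g : ℕ, g0 ≤ g → IsGraceful (genPetersen (L * g) (p * g)) := by
  obtain ⟨C, c, hC, hc, hW⟩ := hW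
  obtain ⟨κ, hκ, hM⟩ := hM C c hC hc
  obtain ⟨η, hη, g1, hA⟩ := hA κ hκ
  obtain ⟨ε, hε, g2, hM⟩ := hM η hη
  obtain ⟨g3, hW⟩ := hW ε hε
  refine ⟨max 1 (max g1 (max g2 g3)), ?_⟩
  intro g hg
  have hg0 : 1 ≤ g := le_trans (le_max_left _ _) hg
  have hg1 : g1 ≤ g := le_trans (le_trans (le_max_left _ _) (le_max_right _ _)) hg
  have hg2 : g2 ≤ g :=
    le_trans (le_trans (le_trans (le_max_left _ _) (le_max_right _ _)) (le_max_right _ _)) hg
  have hg3 : g3 ≤ g :=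
    le_trans (le_trans (le_trans (le_max_right _ _) (le_max_right _ _)) (le_max_right _ _)) hg
  obtain ⟨W, hWS⟩ := hW g hg3
  obtain ⟨I, Z0, D0, hI, hIc, hZ, hZc, hD, hDc, hcard, hcomp⟩ := hA g hg1
  obtain ⟨J, X, hJ, hJc, hF⟩ := hM g hg2 W hWS I Z0 D0 hI hIc hZ hZc hD hDc hcard.le
  obtain ⟨J', X', hJ', hF'⟩ := hcomp J X hJ hJc hF
  have hOk : (Par.mk L p g).Ok := ⟨h, hg0⟩
  obtain ⟨z, hz⟩ := good_of_fam hOk hF' hJ'
  have hn : 3 ≤ (Par.mk L p g).n := by
    have h1 := hOk.n_ge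
    have h2 : (Par.mk L p g).g = g := rfl
    omega
  exact good_graceful _ _ hn hOk.k_pos hOk.k_lt z hz

/-- From the three theorems to the final statement. -/
theorem all_of (hW : ∀ L p, Adm L p → ThmW L p) (hM : ∀ L p, Adm L p → ThmM L p)
    (hA : ∀ L p, Adm L p → ThmA L p) :
    ∃ n0 : ℕ, ∀ n k : ℕ, n0 ≤ n → 1 ≤ k → 2 * k < n → IsGraceful (genPetersen n k) := by
  classical
  obtain ⟨l0, n0, h0⟩ := almost_all
  have hg : ∀ L p : ℕ, ∃ g0 : ℕ, Adm L p → ∀ g : ℕ, g0 ≤ g →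
      IsGraceful (genPetersen (L * g) (p * g)) := by
    intro L p
    by_cases h : Adm L p
    · obtain ⟨g0, hg0⟩ := case_odd h (hW L p h) (hM L p h) (hA L p h)
      exact ⟨g0, fun _ => hg0⟩
    · exact ⟨0, fun h' => absurd h' h⟩
  choose G hG using hg
  obtain ⟨B, hB⟩ : ∃ B : ℕ, ∀ L < l0, ∀ p < l0, G L p ≤ B := by
    refine ⟨((range l0) ×ˢ (range l0)).sup (fun w => G w.1 w.2), ?_⟩
    intro L hL p hp
    exact le_sup (f := fun w : ℕ × ℕ => G w.1 w.2)
      (mem_product.2 ⟨mem_range.2 hL, mem_range.2 hp⟩ : (L, p) ∈ _)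
  refine ⟨max n0 (l0 * (B + 1)), ?_⟩
  intro n k hn hk1 hk
  have hn0 : n0 ≤ n := le_trans (le_max_left _ _) hn
  have hn1 : l0 * (B + 1) ≤ n := le_trans (le_max_right _ _) hn
  by_cases hc : Even (n / Nat.gcd n k) ∨ l0 ≤ n / Nat.gcd n k
  · exact h0 n k hn0 hk1 hk hc
  · push Not at hc
    obtain ⟨hodd, hlt⟩ := hc
    rw [Nat.not_even_iff_odd] at hodd
    obtain ⟨g, hgd⟩ : ∃ g, g = Nat.gcd n k := ⟨_, rfl⟩
    have hgpos : 0 < g := by rw [hgd]; exact Nat.gcd_pos_of_pos_right _ hk1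
    obtain ⟨L, hL⟩ : ∃ L, L = n / g := ⟨_, rfl⟩
    obtain ⟨p, hp⟩ : ∃ p, p = k / g := ⟨_, rfl⟩
    rw [← hgd, ← hL] at hodd hlt
    have hnL : L * g = n := by rw [hL]; exact Nat.div_mul_cancel (hgd ▸ Nat.gcd_dvd_left n k)
    have hkp : p * g = k := by rw [hp]; exact Nat.div_mul_cancel (hgd ▸ Nat.gcd_dvd_right n k)
    have hcop : Nat.Coprime p L := by
      rw [hp, hL, hgd]
      exact (Nat.coprime_div_gcd_div_gcd (by rw [← hgd]; exact hgpos)).symm
    have hp1 : 1 ≤ p := by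
      rcases Nat.eq_zero_or_pos p with h | h
      · rw [h, Nat.zero_mul] at hkp; omega
      · exact h
    have hpL : 2 * p < L := by
      by_contra hcon
      push Not at hcon
      have : L * g ≤ 2 * p * g := Nat.mul_le_mul_right _ hcon
      rw [Nat.mul_assoc, hnL, hkp] at this
      omega
    have hadm : Adm L p := ⟨by obtain ⟨t, ht⟩ := hodd; omega, hodd, hp1, hpL, hcop⟩
    have hgB : G L p ≤ g := by
      have h1 : G L p ≤ B := hB L hlt p (by omega)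
      by_contra hcon
      push Not at hcon
      have h2 : L * g ≤ l0 * B := Nat.mul_le_mul hlt.le (by omega)
      rw [hnL] at h2
      have h3 : l0 * (B + 1) = l0 * B + l0 := by ring
      have : 0 < l0 := by omega
      omega
    have := hG L p hadm g hgB
    rwa [hnL, hkp] at this

end Pool.Agent.PGo
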