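import Pool.Agent.PGo.RDefs

/-!
# PGo-RBase: membership, anchors, bad values of one difference

PLAN.  Unfold `zall`, `dall`, `anc`, `spec`; split on the parity of `n`; `omega`.
`bd P a` = the values `x` for which `|x - a|` is `0`, `n + 1`, `3n/2`, `(n-1)/2`, `k/2` or `(n-k)/2`.
-/

noncomputable section

namespace Pool.Agent.PGo.R

open Finset Pool.Agent.PGr

theorem mem_zall_of {n : ℕ} {x : ℤ} (h1 : (n : ℤ) < 2 * x) (h2 : 2 * x < 5 * n)
    (h3 : 2 * x ≠ 3 * n) : x ∈ zall n := by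
  unfold zall
  split_ifs with h
  · rw [Finset.mem_erase, Finset.mem_Icc]
    omega
  · rw [Finset.mem_Icc]
    omega

theorem zall_range {n : ℕ} (hn : 2 ≤ n) {x : ℤ} (h : x ∈ zall n) :
    (n : ℤ) ≤ 2 * x ∧ 2 * x ≤ 5 * n + 2 ∧ 2 * x ≠ 3 * n := by
  unfold zall at h
  split_ifs at h with h'
  · rw [Finset.mem_erase, Finset.mem_Icc] at h
    omega
  · rw [Finset.mem_Icc] at h
    omega

theorem zall_card_le {n : ℕ} (hn : 2 ≤ n) : (zall n).card ≤ 2 * n + 2 := by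
  unfold zall
  split_ifs with h
  · refine (Finset.card_erase_le).trans ?_
    rw [Int.card_Icc]
    omega
  · rw [Int.card_Icc]
    omega

theorem mem_dall_of {n : ℕ} {d : ℤ} (h1 : 1 ≤ d) (h2 : d ≤ 2 * n) (h3 : d ≠ n + 1)
    (h4 : 2 * d ≠ 3 * n) (h5 : 2 * d ≠ n - 1) : d ∈ dall n := by
  unfold dall
  split_ifs with h
  · rw [Finset.mem_erase, Finset.mem_erase, Finset.mem_Icc]
    omega
  · rw [Finset.mem_erase, Finset.mem_Icc]
    omega

theorem dall_range {n : ℕ} {d : ℤ} (h : d ∈ dall n) : 1 ≤ d ∧ d ≤ 2 * n + 2 := by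
  unfold dall at h
  split_ifs at h with h'
  · rw [Finset.mem_erase, Finset.mem_erase, Finset.mem_Icc] at h
    omega
  · rw [Finset.mem_erase, Finset.mem_Icc] at h
    omega

theorem anc_even {n v : ℕ} (h : v % 2 = 0) : 2 * anc n v = v := by
  unfold anc
  rw [if_pos h]
  omega

theorem anc_odd {n v : ℕ} (h : v % 2 = 1) (hs : ¬ spec n v) : 2 * anc n v = 6 * n - v + 1 := by
  unfold spec at hs
  unfold anc
  rw [if_neg (by omega), if_neg hs]
  omega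

theorem anc_spec {n v : ℕ} (hs : spec n v) : 2 * anc n v = 3 * n := by
  unfold spec at hs
  unfold anc
  rw [if_neg (by omega), if_pos hs]
  omega

/-- the three kinds of vertices -/
theorem anc_cases {n v : ℕ} (hv : v < n) :
    (v % 2 = 0 ∧ ¬ spec n v ∧ 2 * anc n v = v) ∨
    (v % 2 = 1 ∧ ¬ spec n v ∧ 2 * anc n v = 6 * n - v + 1) ∨
    (v % 2 = 1 ∧ spec n v ∧ 2 * anc n v = 3 * n) := by
  by_cases hs : spec n v
  · refine Or.inr (Or.inr ⟨?_, hs, anc_spec hs⟩)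
    unfold spec at hs
    omega
  · rcases Nat.mod_two_eq_zero_or_one v with h | h
    · exact Or.inl ⟨h, hs, anc_even h⟩
    · exact Or.inr (Or.inl ⟨h, hs, anc_odd h hs⟩)

/-- the bad values of `x` for the difference `|x - a|` -/
def bd (P : Par) (a : ℤ) : Finset ℤ :=
  ({0, (P.n : ℤ) + 1, 3 * (P.n : ℤ) / 2, ((P.n : ℤ) - 1) / 2, (P.k : ℤ) / 2,
    ((P.n : ℤ) - P.k) / 2} : Finset ℤ).image (fun t => a + t) ∪
  ({0, (P.n : ℤ) + 1, 3 * (P.n : ℤ) / 2, ((P.n : ℤ) - 1) / 2, (P.k : ℤ) / 2,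
    ((P.n : ℤ) - P.k) / 2} : Finset ℤ).image (fun t => a - t)

theorem card_bd (P : Par) (a : ℤ) : (bd P a).card ≤ 12 := by
  unfold bd
  refine (Finset.card_union_le _ _).trans ?_
  have h6 : ({0, (P.n : ℤ) + 1, 3 * (P.n : ℤ) / 2, ((P.n : ℤ) - 1) / 2, (P.k : ℤ) / 2,
    ((P.n : ℤ) - P.k) / 2} : Finset ℤ).card ≤ 6 := Finset.card_le_six
  have h1 := (Finset.card_image_le (f := fun t : ℤ => a + t) (s := ({0, (P.n : ℤ) + 1,
    3 * (P.n : ℤ) / 2, ((P.n : ℤ) - 1) / 2, (P.k : ℤ) / 2,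
    ((P.n : ℤ) - P.k) / 2} : Finset ℤ))).trans h6
  have h2 := (Finset.card_image_le (f := fun t : ℤ => a - t) (s := ({0, (P.n : ℤ) + 1,
    3 * (P.n : ℤ) / 2, ((P.n : ℤ) - 1) / 2, (P.k : ℤ) / 2,
    ((P.n : ℤ) - P.k) / 2} : Finset ℤ))).trans h6
  omega

theorem mem_GD_of_bd {P : Par} {x a : ℤ} (hx : x ∉ bd P a) (hr : |x - a| ≤ 2 * (P.n : ℤ)) :
    |x - a| ∈ GD P ∅ := by
  have key : ∀ t ∈ ({0, (P.n : ℤ) + 1, 3 * (P.n : ℤ) / 2, ((P.n : ℤ) - 1) / 2, (P.k : ℤ) / 2,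
      ((P.n : ℤ) - P.k) / 2} : Finset ℤ), |x - a| ≠ t := by
    intro t ht h
    apply hx
    unfold bd
    rw [Finset.mem_union]
    rcases abs_choice (x - a) with h1 | h1
    · exact Or.inl (Finset.mem_image.2 ⟨t, ht, by rw [← h, h1]; ring⟩)
    · exact Or.inr (Finset.mem_image.2 ⟨t, ht, by rw [← h, h1]; ring⟩)
  simp only [Finset.mem_insert, Finset.mem_singleton, forall_eq_or_imp, forall_eq] at key
  obtain ⟨k0, k1, k2, k3, k4, k5⟩ := key
  have hp := abs_nonneg (x - a)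
  unfold GD
  rw [Finset.mem_filter, Finset.sdiff_empty]
  refine ⟨mem_dall_of ?_ hr k1 ?_ ?_, ?_, ?_⟩
  · omega
  · omega
  · omega
  · omega
  · omega

theorem mem_AAf_of {P : Par} {d : ℤ} (h : d ∈ GD P ∅) (hr : inR P.n (10, 130) d) :
    d ∈ AAf P := by
  unfold GD at h
  rw [Finset.mem_filter, Finset.sdiff_empty] at h
  unfold AAf
  rw [Finset.mem_filter]
  exact ⟨h.1, hr, h.2⟩

/-- the zone of `LAM1` -/
def Zo1 (P : Par) : Finset ℤ := (zall P.n).filter fun x => inR P.n (51, 99) x ∨ inR P.n (201, 249) x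
/-- the zone of `LAM2` -/
def Zo2 (P : Par) : Finset ℤ := (zall P.n).filter fun x => inR P.n (70, 130) x ∨ inR P.n (170, 230) x

end Pool.Agent.PGo.R
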