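import Pool.Agent.PGo.RNest

/-!
# PGo-RCovD: definitions for the deterministic part of (COV) and (EXC)
-/

noncomputable section

namespace Pool.Agent.PGo.R

open Finset Pool.Agent.PGr

/-- the covering label differs from the two planted labels, its two new differences differ from
the three planted differences -/
def Sep (P : Par) (q : Fin 6) (d : ℤ) (t : ℕ × ℤ × ℤ) : Prop :=
  (covX P q d t ≠ t.2.1 ∧ covX P q d t ≠ t.2.2) ∧
  (covE P q d t ≠ |t.2.1 - anc P.n (P.vx t.1 1)| ∧
    covE P q d t ≠ |t.2.2 - anc P.n (P.vx t.1 (P.L - 1))| ∧ covE P q d t ≠ |t.2.1 - t.2.2|) ∧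
  (covF P q d t ≠ |t.2.1 - anc P.n (P.vx t.1 1)| ∧
    covF P q d t ≠ |t.2.2 - anc P.n (P.vx t.1 (P.L - 1))| ∧ covF P q d t ≠ |t.2.1 - t.2.2|)

open Classical in
/-- the configurations for (COV) before the choice of the bits -/
def SCov (P : Par) (q : Fin 6) (d : ℤ) : Finset (ℕ × ℤ × ℤ) :=
  (range P.n ×ˢ zall P.n ×ˢ zall P.n).filter fun t =>
    PlOk P (zall P.n) ∅ q t ∧ CovOk P (Zo1 P) (AAf P) q d t ∧ Sep P q d t

open Classical in
/-- the configurations for (EXC) before the choice of the bits -/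
def SExc (P : Par) (d : ℤ) : Finset (ℕ × ℤ) :=
  (range P.n ×ˢ zall P.n).filter fun t => ExcOk P (zall P.n) ∅ d t

end Pool.Agent.PGo.R
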