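import Pool.Agent.PGo.Vx
import Pool.Agent.PGr.RS

/-!
# PGo part R (bits and `R1` of Theorem A): definitions and interface

`Bits P K0 c LAM1 LAM2 PP A`: reserved labels `LAM1`, `LAM2`, labels `PP` which may be planted,
reserved differences `A` (the planted differences are taken from `GD P A`).
-/

noncomputable section

namespace Pool.Agent.PGo.R

open Finset Pool.Agent.PGr

/-- the difference is not half the distance of neighbours -/
def gd (P : Par) (d : ℤ) : Prop := 2 * d ≠ P.k ∧ 2 * d ≠ (P.n : ℤ) - P.k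

instance (P : Par) (d : ℤ) : Decidable (gd P d) := by unfold gd; infer_instance

/-- `x` lies between `r.1 n / 100` and `r.2 n / 100` -/
def inR (n : ℕ) (r : ℤ × ℤ) (x : ℤ) : Prop := r.1 * n ≤ 100 * x ∧ 100 * x ≤ r.2 * n

instance (n : ℕ) (r : ℤ × ℤ) (x : ℤ) : Decidable (inR n r x) := by unfold inR; infer_instance

/-- the differences from which `A` is chosen -/
def AAf (P : Par) : Finset ℤ := (dall P.n).filter fun d => inR P.n (10, 130) d ∧ gd P d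

/-- the differences which may be planted -/
def GD (P : Par) (A : Finset ℤ) : Finset ℤ := (dall P.n \ A).filter fun d => gd P d

/-- the three differences of the label `x` lie in `D` and are different -/
def Df3 (D : Finset ℤ) (x a z1 z2 : ℤ) : Prop :=
  |x - a| ∈ D ∧ |x - z1| ∈ D ∧ |x - z2| ∈ D ∧ |x - a| ≠ |x - z1| ∧ |x - a| ≠ |x - z2| ∧
    |x - z1| ≠ |x - z2|

instance (D : Finset ℤ) (x a z1 z2 : ℤ) : Decidable (Df3 D x a z1 z2) := by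
  unfold Df3; infer_instance

/-- ranges of the differences covered by the groups -/
def rD (q : Fin 6) : ℤ × ℤ :=
  ![(0, 35), (35, 80), (80, 125), (125, 145), (145, 155), (155, 201)] q
/-- ranges of the label of the first neighbour -/
def rY1 (q : Fin 6) : ℤ × ℤ :=
  ![(202, 210), (166, 168), (121, 123), (100, 104), (90, 94), (120, 130)] q
/-- ranges of the label of the last neighbour -/
def rY2 (q : Fin 6) : ℤ × ℤ :=
  ![(130, 140), (130, 140), (140, 150), (140, 150), (140, 150), (160, 170)] q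
/-- ranges of the anchor -/
def rA (q : Fin 6) : ℤ × ℤ :=
  ![(275, 285), (275, 285), (275, 285), (275, 285), (275, 285), (252, 254)] q

/-- planted item of the group `q`: base `m` (high), labels `y1`, `y2` of the two neighbours -/
def PlOk (P : Par) (PP A : Finset ℤ) (q : Fin 6) (t : ℕ × ℤ × ℤ) : Prop :=
  (t.1 < P.n ∧ t.1 % 2 = 1 ∧ ¬ spec P.n t.1 ∧ inR P.n (rA q) (anc P.n t.1)) ∧
  (t.2.1 ∈ PP ∧ inR P.n (rY1 q) t.2.1) ∧ (t.2.2 ∈ PP ∧ inR P.n (rY2 q) t.2.2) ∧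
  |t.2.1 - anc P.n (P.vx t.1 1)| ∈ GD P A ∧ |t.2.2 - anc P.n (P.vx t.1 (P.L - 1))| ∈ GD P A ∧
  |t.2.1 - t.2.2| ∈ GD P A ∧
  |t.2.1 - anc P.n (P.vx t.1 1)| ≠ |t.2.2 - anc P.n (P.vx t.1 (P.L - 1))| ∧
  |t.2.1 - anc P.n (P.vx t.1 1)| ≠ |t.2.1 - t.2.2| ∧
  |t.2.2 - anc P.n (P.vx t.1 (P.L - 1))| ≠ |t.2.1 - t.2.2|

/-- the label which covers `d` -/
def covX (P : Par) (q : Fin 6) (d : ℤ) (t : ℕ × ℤ × ℤ) : ℤ :=
  if q = 5 then anc P.n t.1 - d else t.2.1 + d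

/-- the first of the two other differences of the covering label -/
def covE (P : Par) (q : Fin 6) (d : ℤ) (t : ℕ × ℤ × ℤ) : ℤ :=
  if q = 5 then |covX P q d t - t.2.1| else |covX P q d t - anc P.n t.1|

/-- the second of the two other differences of the covering label -/
def covF (P : Par) (q : Fin 6) (d : ℤ) (t : ℕ × ℤ × ℤ) : ℤ := |covX P q d t - t.2.2|

/-- the item covers `d`: the label lies in `LAM1` and the two other differences are different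
elements of `A` (the difference `d` is `|X - y1|` resp. `|X - anc m|`) -/
def CovOk (P : Par) (LAM1 A : Finset ℤ) (q : Fin 6) (d : ℤ) (t : ℕ × ℤ × ℤ) : Prop :=
  covX P q d t ∈ LAM1 ∧ covE P q d t ∈ A ∧ covF P q d t ∈ A ∧ covE P q d t ≠ covF P q d t

/-- item for an exceptional difference: base `m`, label `y1` of `vx m 1`, label `y1 + d` of
`vx m 2`; the two spokes may be planted -/
def ExcOk (P : Par) (PP A : Finset ℤ) (d : ℤ) (t : ℕ × ℤ) : Prop :=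
  t.1 < P.n ∧ (t.2 ∈ PP ∧ inR P.n (110, 140) t.2) ∧ t.2 + d ∈ PP ∧
  |t.2 - anc P.n (P.vx t.1 1)| ∈ GD P A ∧ |t.2 + d - anc P.n (P.vx t.1 2)| ∈ GD P A ∧
  |t.2 - anc P.n (P.vx t.1 1)| ≠ |t.2 + d - anc P.n (P.vx t.1 2)|

open Classical in
/-- the result of the random bits -/
structure Bits (P : Par) (K0 : ℕ) (c : ℝ) (LAM1 LAM2 PP A : Finset ℤ) : Prop where
  lam1 : LAM1 ⊆ zall P.n
  lam2 : LAM2 ⊆ zall P.n
  lam2r : ∀ x ∈ LAM2, inR P.n (70, 130) x ∨ inR P.n (170, 230) x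
  pp : PP ⊆ zall P.n
  dis12 : Disjoint LAM1 LAM2
  disP1 : Disjoint PP LAM1
  disP2 : Disjoint PP LAM2
  lamc : ((LAM1 ∪ LAM2).card : ℝ) ≤ 20 * P.n / K0
  A_sub : A ⊆ AAf P
  A_card : c * P.n ≤ A.card
  defi : ∀ v < P.n, ∀ z1 z2 : ℤ, inR P.n (70, 230) z1 → inR P.n (70, 230) z2 → z1 ≠ z2 →
    z1 ≠ anc P.n v → z2 ≠ anc P.n v →
    c * P.n ≤ ((LAM2.filter fun x => Df3 A x (anc P.n v) z1 z2).card : ℝ)
  svp : ∀ v < P.n, ∀ z1 z2 : ℤ, inR P.n (85, 215) z1 → inR P.n (85, 215) z2 → z1 ≠ z2 →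
    z1 ≠ anc P.n v → z2 ≠ anc P.n v →
    c * P.n ≤ ((PP.filter fun y => inR P.n (110, 190) y ∧ Df3 (GD P A) y (anc P.n v) z1 z2).card : ℝ)
  cov : ∀ q : Fin 6, ∀ d ∈ dall P.n, gd P d → inR P.n (rD q) d →
    c * (P.n : ℝ) ^ 3 ≤ (((range P.n ×ˢ zall P.n ×ˢ zall P.n).filter fun t =>
      PlOk P PP A q t ∧ CovOk P LAM1 A q d t).card : ℝ)
  exc : ∀ d ∈ dall P.n, ¬ gd P d →
    c * (P.n : ℝ) ^ 2 ≤ (((range P.n ×ˢ zall P.n).filter fun t => ExcOk P PP A d t).card : ℝ)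

/-- the bits exist -/
def BitsStat (L p : ℕ) : Prop := ∀ K0 : ℕ, 8 ≤ K0 → Even K0 → ∃ c : ℝ, 0 < c ∧ ∃ g0 : ℕ,
  ∀ g : ℕ, g0 ≤ g → ∃ LAM1 LAM2 PP A : Finset ℤ, Bits (Par.mk L p g) K0 c LAM1 LAM2 PP A

open Classical in
/-- the subset `R1` -/
def R1Stat (L p : ℕ) : Prop := ∀ (K1 : ℕ) (c c' : ℝ), 0 < K1 → 0 < c → 0 < c' → ∃ g0 : ℕ,
  ∀ g : ℕ, g0 ≤ g → ∀ (K0 : ℕ) (LAM1 LAM2 PP A : Finset ℤ),
    Bits (Par.mk L p g) K0 c LAM1 LAM2 PP A →
    ∀ {J : Type} (Dc : Finset ℤ) (S : ℤ → Finset J) (e : ℤ → J → Finset ℤ),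
      Dc ⊆ dall (Par.mk L p g).n →
      (∀ d ∈ Dc, ∀ j ∈ S d, e d j ⊆ A ∧ (e d j).card ≤ 3) →
      (∀ d ∈ Dc, ∀ a, ((S d).filter fun j => a ∈ e d j).card ≤ 20) →
      (∀ d ∈ Dc, c' * (Par.mk L p g).n ≤ ((S d).card : ℝ)) →
      ∃ R1 ⊆ A, (A.card : ℝ) / (2 * K1) ≤ (R1.card : ℝ) ∧
        (R1.card : ℝ) ≤ 3 * (A.card : ℝ) / (2 * K1) ∧
        (∀ v < (Par.mk L p g).n, ∀ z1 z2 : ℤ, inR (Par.mk L p g).n (70, 230) z1 →
          inR (Par.mk L p g).n (70, 230) z2 → z1 ≠ z2 → z1 ≠ anc (Par.mk L p g).n v →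
          z2 ≠ anc (Par.mk L p g).n v →
          c * (Par.mk L p g).n / (2 * (K1 : ℝ) ^ 3) ≤
            ((LAM2.filter fun x => Df3 R1 x (anc (Par.mk L p g).n v) z1 z2).card : ℝ)) ∧
        ∀ d ∈ Dc, ((S d).card : ℝ) / (2 * (K1 : ℝ) ^ 3) ≤
          (((S d).filter fun j => e d j ⊆ R1).card : ℝ)

end Pool.Agent.PGo.R
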