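import Pool.Agent.PGo.RNest

/-!
# PGo-RDet1: deterministic counts for (DEF) and (SVP)

PLAN.  Let `a = anc P.n v`.  `det_def`: choose an interval `[lo, hi]` of integers:
`v` even or special (`2 a < n` or `2 a = 3 n`): if `100 z1 ≥ 170 n` or `100 z2 ≥ 170 n` then `[n, 1.3 n]`,
else `[.7 n, 1.3 n]`.  `v` odd, not special: reflected: if one of `z1`, `z2` is `≤ 1.3 n` then `[1.7 n, 2 n]`, else
`[1.7 n, 2.3 n]`.  Remove the integers at distance `< .1 n` from `z1` or `z2` (two intervals of length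
`.2 n`; if one of them is `≥ 1.7 n` and we use `[n, 1.3 n]` it removes nothing): at least `.1 n - 10`
integers remain.  Remove `bd P a`, `bd P z1`, `bd P z2`, the values with `2 x = 3 n`,
`2 x = a + z1`, `2 x = a + z2`, `2 x = z1 + z2` (at most `40` values).  For the remaining `x`: `x ∈ Zo2`
(`mem_zall_of`), the differences are in `GD P ∅` (`mem_GD_of_bd`) and between `.1 n` and `1.3 n`
(`mem_AAf_of`), different (`|x - a| = |x - z1|` iff `a = z1` or `2 x = a + z1`).
`det_svp`: the integers in `[1.1 n, 1.9 n]` without at most `40` values; `|y - a| ≤ 1.9 n`.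
-/

noncomputable section

namespace Pool.Agent.PGo.R

open Finset Pool.Agent.PGr

/-- the excluded values -/
private def badS (P : Par) (a z1 z2 : ℤ) : Finset ℤ :=
  (bd P a ∪ bd P z1 ∪ bd P z2) ∪
    {3 * (P.n : ℤ) / 2, (a + z1) / 2, (a + z2) / 2, (z1 + z2) / 2}

private theorem card_badS (P : Par) (a z1 z2 : ℤ) : (badS P a z1 z2).card ≤ 40 := by
  have h1 := card_bd P a
  have h2 := card_bd P z1
  have h3 := card_bd P z2
  have h4 : ({3 * (P.n : ℤ) / 2, (a + z1) / 2, (a + z2) / 2, (z1 + z2) / 2} :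
      Finset ℤ).card ≤ 4 := Finset.card_le_four
  have h5 := Finset.card_union_le (bd P a ∪ bd P z1 ∪ bd P z2)
    {3 * (P.n : ℤ) / 2, (a + z1) / 2, (a + z2) / 2, (z1 + z2) / 2}
  have h6 := Finset.card_union_le (bd P a ∪ bd P z1) (bd P z2)
  have h7 := Finset.card_union_le (bd P a) (bd P z1)
  unfold badS
  omega

private theorem df3_of {P : Par} {a z1 z2 x : ℤ} (h12 : z1 ≠ z2) (h1a : z1 ≠ a) (h2a : z2 ≠ a)
    (hx : x ∉ badS P a z1 z2) (ha : |x - a| ≤ 2 * (P.n : ℤ)) (h1 : |x - z1| ≤ 2 * (P.n : ℤ))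
    (h2 : |x - z2| ≤ 2 * (P.n : ℤ)) :
    (|x - a| ∈ GD P ∅ ∧ |x - z1| ∈ GD P ∅ ∧ |x - z2| ∈ GD P ∅) ∧
      (|x - a| ≠ |x - z1| ∧ |x - a| ≠ |x - z2| ∧ |x - z1| ≠ |x - z2|) ∧
      2 * x ≠ 3 * (P.n : ℤ) := by
  simp only [badS, Finset.mem_union, Finset.mem_insert, Finset.mem_singleton, not_or] at hx
  obtain ⟨⟨⟨b1, b2⟩, b3⟩, b4, b5, b6, b7⟩ := hx
  refine ⟨⟨mem_GD_of_bd b1 ha, mem_GD_of_bd b2 h1, mem_GD_of_bd b3 h2⟩, ⟨?_, ?_, ?_⟩, ?_⟩
  · intro h
    rcases abs_eq_abs.1 h with h | h <;> omega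
  · intro h
    rcases abs_eq_abs.1 h with h | h <;> omega
  · intro h
    rcases abs_eq_abs.1 h with h | h <;> omega
  · omega

private theorem count_ge (lo hi : ℤ) (T B S : Finset ℤ) (n : ℕ) (hB : B.card ≤ 40)
    (hS : ∀ x, lo ≤ x → x ≤ hi → x ∉ T → x ∉ B → x ∈ S)
    (hc : (n : ℤ) ≤ 50 * (hi + 1 - lo - T.card - 40)) : (n : ℝ) / 50 ≤ (S.card : ℝ) := by
  have h1 : (Finset.Icc lo hi) \ (T ∪ B) ⊆ S := by
    intro x hx
    rw [Finset.mem_sdiff, Finset.mem_Icc, Finset.mem_union, not_or] at hx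
    exact hS x hx.1.1 hx.1.2 hx.2.1 hx.2.2
  have h2 := Finset.card_le_card h1
  have h3 := card_sdiff_ge (Finset.Icc lo hi) (T ∪ B)
  have h4 := Finset.card_union_le T B
  have h5 : (hi + 1 - lo) ≤ ((Finset.Icc lo hi).card : ℤ) := by
    rw [Int.card_Icc]
    exact Int.self_le_toNat _
  have h5' : ((hi + 1 - lo : ℤ) : ℝ) ≤ ((Finset.Icc lo hi).card : ℝ) := by exact_mod_cast h5
  have h4' : ((T ∪ B).card : ℝ) ≤ T.card + 40 := by
    have : (T ∪ B).card ≤ T.card + 40 := by omega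
    exact_mod_cast this
  have h2' : (((Finset.Icc lo hi) \ (T ∪ B)).card : ℝ) ≤ (S.card : ℝ) := by exact_mod_cast h2
  have hc' : (n : ℝ) ≤ 50 * ((hi + 1 - lo : ℤ) - T.card - 40 : ℝ) := by exact_mod_cast hc
  linarith

/-- the integers near `z` -/
private def near (n : ℕ) (z : ℤ) : Finset ℤ := Finset.Icc (z - n / 10) (z + n / 10)

private theorem card_near (n : ℕ) (z : ℤ) : 5 * ((near n z).card : ℤ) ≤ n + 5 := by
  rw [near, Int.card_Icc]
  omega

private theorem near_not {n : ℕ} {x z : ℤ} (h : x ∉ near n z) : (n : ℤ) ≤ 10 * |x - z| := by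
  rw [near, Finset.mem_Icc] at h
  rcases abs_cases (x - z) with h1 | h1 <;> omega

private theorem core_def {P : Par} (hn : 10 ^ 6 ≤ P.n) {a z1 z2 : ℤ} (h12 : z1 ≠ z2)
    (h1a : z1 ≠ a) (h2a : z2 ≠ a) (lo hi : ℤ) (T : Finset ℤ)
    (hz : ∀ x, lo ≤ x → x ≤ hi → (inR P.n (70, 130) x ∨ inR P.n (170, 230) x) ∧
      inR P.n (10, 130) |x - a| ∧ 100 * |x - z1| ≤ 130 * (P.n : ℤ) ∧
      100 * |x - z2| ≤ 130 * (P.n : ℤ))
    (hT : ∀ x, lo ≤ x → x ≤ hi → x ∉ T → (P.n : ℤ) ≤ 10 * |x - z1| ∧ (P.n : ℤ) ≤ 10 * |x - z2|)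
    (hc : (P.n : ℤ) ≤ 50 * (hi + 1 - lo - T.card - 40)) :
    (P.n : ℝ) / 50 ≤ (((Zo2 P).filter fun x => Df3 (AAf P) x a z1 z2).card : ℝ) := by
  refine count_ge lo hi T (badS P a z1 z2) _ P.n (card_badS P a z1 z2) ?_ hc
  intro x hx1 hx2 hx3 hx4
  obtain ⟨e1, e2, e3, e4⟩ := hz x hx1 hx2
  obtain ⟨e5, e6⟩ := hT x hx1 hx2 hx3
  have e2' := e2
  simp only [inR] at e2'
  obtain ⟨⟨f1, f2, f3⟩, ⟨g1, g2, g3⟩, k1⟩ := df3_of h12 h1a h2a hx4 (by omega) (by omega) (by omega)
  refine Finset.mem_filter.2 ⟨Finset.mem_filter.2 ⟨?_, e1⟩, ?_⟩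
  · simp only [inR] at e1
    exact mem_zall_of (by omega) (by omega) k1
  · refine ⟨mem_AAf_of f1 e2, mem_AAf_of f2 ?_, mem_AAf_of f3 ?_, g1, g2, g3⟩
    · simp only [inR]
      exact ⟨by omega, e3⟩
    · simp only [inR]
      exact ⟨by omega, e4⟩

private theorem anc_range {P : Par} {v : ℕ} (hv : v < P.n) :
    (0 ≤ anc P.n v ∧ 2 * anc P.n v < P.n) ∨ 2 * anc P.n v = 3 * P.n ∨
      (5 * (P.n : ℤ) < 2 * anc P.n v ∧ anc P.n v ≤ 3 * P.n) := by
  rcases anc_cases hv with h | h | h <;> omega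

theorem det_def {P : Par} (h : P.Ok) (hn : 10 ^ 6 ≤ P.n) {v : ℕ} (hv : v < P.n) {z1 z2 : ℤ}
    (h1 : inR P.n (70, 230) z1) (h2 : inR P.n (70, 230) z2) (h12 : z1 ≠ z2)
    (h1a : z1 ≠ anc P.n v) (h2a : z2 ≠ anc P.n v) :
    (P.n : ℝ) / 50 ≤ (((Zo2 P).filter fun x => Df3 (AAf P) x (anc P.n v) z1 z2).card : ℝ) := by
  have hr := anc_range hv
  generalize anc P.n v = a at *
  have hn' : (1000000 : ℤ) ≤ (P.n : ℤ) := by exact_mod_cast hn
  have hc1 := card_near P.n z1
  have hc2 := card_near P.n z2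
  have hcu : ((near P.n z1 ∪ near P.n z2).card : ℤ) ≤ (near P.n z1).card + (near P.n z2).card := by
    exact_mod_cast Finset.card_union_le _ _
  simp only [inR] at h1 h2
  by_cases hlow : 2 * a ≤ 3 * (P.n : ℤ)
  · by_cases hz1 : 170 * (P.n : ℤ) ≤ 100 * z1
    · refine core_def hn h12 h1a h2a P.n (130 * P.n / 100) (near P.n z2) ?_ ?_ (by omega)
      · intro x hx1 hx2
        simp only [inR]
        rcases abs_cases (x - a) with e1 | e1 <;> rcases abs_cases (x - z1) with e2 | e2 <;>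
          rcases abs_cases (x - z2) with e3 | e3 <;> omega
      · intro x hx1 hx2 hx3
        have := near_not hx3
        rcases abs_cases (x - z1) with e2 | e2 <;> omega
    · by_cases hz2 : 170 * (P.n : ℤ) ≤ 100 * z2
      · refine core_def hn h12 h1a h2a P.n (130 * P.n / 100) (near P.n z1) ?_ ?_ (by omega)
        · intro x hx1 hx2
          simp only [inR]
          rcases abs_cases (x - a) with e1 | e1 <;> rcases abs_cases (x - z1) with e2 | e2 <;>
            rcases abs_cases (x - z2) with e3 | e3 <;> omega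
        · intro x hx1 hx2 hx3
          have := near_not hx3
          rcases abs_cases (x - z2) with e2 | e2 <;> omega
      · refine core_def hn h12 h1a h2a ((70 * P.n + 99) / 100) (130 * P.n / 100)
          (near P.n z1 ∪ near P.n z2) ?_ ?_ (by omega)
        · intro x hx1 hx2
          simp only [inR]
          rcases abs_cases (x - a) with e1 | e1 <;> rcases abs_cases (x - z1) with e2 | e2 <;>
            rcases abs_cases (x - z2) with e3 | e3 <;> omega
        · intro x hx1 hx2 hx3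
          rw [Finset.mem_union, not_or] at hx3
          exact ⟨near_not hx3.1, near_not hx3.2⟩
  · by_cases hz1 : 100 * z1 ≤ 130 * (P.n : ℤ)
    · refine core_def hn h12 h1a h2a ((170 * P.n + 99) / 100) (2 * P.n) (near P.n z2) ?_ ?_
        (by omega)
      · intro x hx1 hx2
        simp only [inR]
        rcases abs_cases (x - a) with e1 | e1 <;> rcases abs_cases (x - z1) with e2 | e2 <;>
          rcases abs_cases (x - z2) with e3 | e3 <;> omega
      · intro x hx1 hx2 hx3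
        have := near_not hx3
        rcases abs_cases (x - z1) with e2 | e2 <;> omega
    · by_cases hz2 : 100 * z2 ≤ 130 * (P.n : ℤ)
      · refine core_def hn h12 h1a h2a ((170 * P.n + 99) / 100) (2 * P.n) (near P.n z1) ?_ ?_
          (by omega)
        · intro x hx1 hx2
          simp only [inR]
          rcases abs_cases (x - a) with e1 | e1 <;> rcases abs_cases (x - z1) with e2 | e2 <;>
            rcases abs_cases (x - z2) with e3 | e3 <;> omega
        · intro x hx1 hx2 hx3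
          have := near_not hx3
          rcases abs_cases (x - z2) with e2 | e2 <;> omega
      · refine core_def hn h12 h1a h2a ((170 * P.n + 99) / 100) (230 * P.n / 100)
          (near P.n z1 ∪ near P.n z2) ?_ ?_ (by omega)
        · intro x hx1 hx2
          simp only [inR]
          rcases abs_cases (x - a) with e1 | e1 <;> rcases abs_cases (x - z1) with e2 | e2 <;>
            rcases abs_cases (x - z2) with e3 | e3 <;> omega
        · intro x hx1 hx2 hx3
          rw [Finset.mem_union, not_or] at hx3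
          exact ⟨near_not hx3.1, near_not hx3.2⟩

theorem det_svp {P : Par} (h : P.Ok) (hn : 10 ^ 6 ≤ P.n) {v : ℕ} (hv : v < P.n) {z1 z2 : ℤ}
    (h1 : inR P.n (85, 215) z1) (h2 : inR P.n (85, 215) z2) (h12 : z1 ≠ z2)
    (h1a : z1 ≠ anc P.n v) (h2a : z2 ≠ anc P.n v) :
    (P.n : ℝ) / 50 ≤ (((zall P.n).filter fun y => inR P.n (110, 190) y ∧
      Df3 (GD P ∅) y (anc P.n v) z1 z2).card : ℝ) := by
  have hr := anc_range hv
  generalize anc P.n v = a at *
  have hn' : (1000000 : ℤ) ≤ (P.n : ℤ) := by exact_mod_cast hn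
  simp only [inR] at h1 h2
  refine count_ge ((110 * P.n + 99) / 100) (190 * P.n / 100) ∅ (badS P a z1 z2) _ P.n
    (card_badS P a z1 z2) ?_ ?_
  · intro x hx1 hx2 _ hx4
    have ha : |x - a| ≤ 2 * (P.n : ℤ) := by
      rcases abs_cases (x - a) with e1 | e1 <;> omega
    have hz1 : |x - z1| ≤ 2 * (P.n : ℤ) := by
      rcases abs_cases (x - z1) with e1 | e1 <;> omega
    have hz2 : |x - z2| ≤ 2 * (P.n : ℤ) := by
      rcases abs_cases (x - z2) with e1 | e1 <;> omega
    obtain ⟨⟨f1, f2, f3⟩, ⟨g1, g2, g3⟩, k1⟩ := df3_of h12 h1a h2a hx4 ha hz1 hz2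
    refine Finset.mem_filter.2 ⟨mem_zall_of (by omega) (by omega) k1, ?_, f1, f2, f3, g1, g2, g3⟩
    simp only [inR]
    omega
  · rw [Finset.card_empty]
    push_cast
    omega

end Pool.Agent.PGo.R
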