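import Pool.Agent.PGo.RCovD
import Pool.Agent.PGo.RDet1

/-!
# PGo-RFam: the families of configurations for the random bits (definitions)

Index set `Bool × ℤ`: `(true, x)` the bit of the label `x`, `(false, d)` the bit of the difference
`d`, values in `Fin K`.  `LAM1`: label bit `0`; `LAM2`: label bit `1`; `PP`: label bit `≥ 2`;
`A`: odd difference bit.
-/

noncomputable section

namespace Pool.Agent.PGo.R

open Finset Pool.Agent.PGr

/-- the conditions of the families -/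
inductive Fm : Type
  | dfi (v : ℕ) (z1 z2 : ℤ) : Fm
  | svp (v : ℕ) (z1 z2 : ℤ) : Fm
  | cov (q : Fin 6) (d : ℤ) : Fm
  | exc (d : ℤ) : Fm

open Classical in
/-- the configurations; for `dfi`, `svp` the label is the second component, for `exc` the pair
consists of the first two components -/
def Sf (P : Par) : Fm → Finset (ℕ × ℤ × ℤ)
  | Fm.dfi v z1 z2 => ((Zo2 P).filter fun x => Df3 (AAf P) x (anc P.n v) z1 z2).image
      fun x => (0, x, 0)
  | Fm.svp v z1 z2 => ((zall P.n).filter fun y => inR P.n (110, 190) y ∧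
      Df3 (GD P ∅) y (anc P.n v) z1 z2).image fun x => (0, x, 0)
  | Fm.cov q d => SCov P q d
  | Fm.exc d => (SExc P d).image fun t => (t.1, t.2, 0)

/-- the bits used by a configuration -/
def Tf (P : Par) : Fm → ℕ × ℤ × ℤ → Finset (Bool × ℤ)
  | Fm.dfi v z1 z2, t => {(true, t.2.1), (false, |t.2.1 - anc P.n v|), (false, |t.2.1 - z1|),
      (false, |t.2.1 - z2|)}
  | Fm.svp v z1 z2, t => {(true, t.2.1), (false, |t.2.1 - anc P.n v|), (false, |t.2.1 - z1|),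
      (false, |t.2.1 - z2|)}
  | Fm.cov q d, t => {(true, t.2.1), (true, t.2.2), (true, covX P q d t),
      (false, |t.2.1 - anc P.n (P.vx t.1 1)|), (false, |t.2.2 - anc P.n (P.vx t.1 (P.L - 1))|),
      (false, |t.2.1 - t.2.2|), (false, covE P q d t), (false, covF P q d t)}
  | Fm.exc d, t => {(true, t.2.1), (true, t.2.1 + d), (false, |t.2.1 - anc P.n (P.vx t.1 1)|),
      (false, |t.2.1 + d - anc P.n (P.vx t.1 2)|)}

/-- the wanted values of the bits -/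
def Gf (P : Par) (K : ℕ) : Fm → ℕ × ℤ × ℤ → Bool × ℤ → Fin K → Prop
  | Fm.dfi _ _ _, _, i, a => (i.1 = true → a.1 = 1) ∧ (i.1 = false → a.1 % 2 = 1)
  | Fm.svp _ _ _, _, i, a => (i.1 = true → 2 ≤ a.1) ∧ (i.1 = false → a.1 % 2 = 0)
  | Fm.cov q d, t, i, a => (i = (true, covX P q d t) → a.1 = 0) ∧
      (i = (true, t.2.1) → 2 ≤ a.1) ∧ (i = (true, t.2.2) → 2 ≤ a.1) ∧
      (i = (false, covE P q d t) → a.1 % 2 = 1) ∧ (i = (false, covF P q d t) → a.1 % 2 = 1) ∧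
      (i = (false, |t.2.1 - anc P.n (P.vx t.1 1)|) → a.1 % 2 = 0) ∧
      (i = (false, |t.2.2 - anc P.n (P.vx t.1 (P.L - 1))|) → a.1 % 2 = 0) ∧
      (i = (false, |t.2.1 - t.2.2|) → a.1 % 2 = 0)
  | Fm.exc _, _, i, a => (i.1 = true → 2 ≤ a.1) ∧ (i.1 = false → a.1 % 2 = 0)

/-- bound for the number of configurations which use a given bit -/
def mf (P : Par) : Fm → ℕ
  | Fm.dfi _ _ _ => 10
  | Fm.svp _ _ _ => 10
  | Fm.cov _ _ => 200 * P.n ^ 2
  | Fm.exc _ => 30 * P.n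

/-- admissible indices -/
def FmOk (P : Par) : Fm → Prop
  | Fm.dfi v z1 z2 => v < P.n ∧ inR P.n (70, 230) z1 ∧ inR P.n (70, 230) z2 ∧ z1 ≠ z2 ∧
      z1 ≠ anc P.n v ∧ z2 ≠ anc P.n v
  | Fm.svp v z1 z2 => v < P.n ∧ inR P.n (85, 215) z1 ∧ inR P.n (85, 215) z2 ∧ z1 ≠ z2 ∧
      z1 ≠ anc P.n v ∧ z2 ≠ anc P.n v
  | Fm.cov q d => d ∈ dall P.n ∧ gd P d ∧ inR P.n (rD q) d
  | Fm.exc d => d ∈ dall P.n ∧ ¬ gd P d

/-- the bits which occur -/
def Abits (P : Par) : Finset (Bool × ℤ) := univ ×ˢ Icc (-(10 * (P.n : ℤ))) (10 * P.n)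

end Pool.Agent.PGo.R
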