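import Pool.Agent.PGo.RFam

/-!
# PGo-RFin: the admissible indices form a finite set with at most `n ^ 5` elements; sizes

PLAN.  `exists_fam`: the union of the images of `(v, z1, z2)` in `range n ×ˢ Icc 0 (3n) ×ˢ Icc 0 (3n)`
under `dfi`, `svp`, of `(q, d)` in `univ ×ˢ Icc 0 (3n)` under `cov` and of `Icc 0 (3n)` under `exc`:
at most `2 n (3n+1)^2 + 7 (3n+1) ≤ n ^ 5` for `n ≥ 10 ^ 6`; `dall_range` for `cov`, `exc`.
`tf_card`: at most 8 elements (`Finset.card_insert_le`).  `tf_sub`: all labels and differences are bounded by `10 n` in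
absolute value for the configurations in `Sf` (`zall_range`, `anc` between `0` and `3 n`, `d ≤ 2 n + 2`;
`z1, z2 ≤ 2.3 n`).  `gf_sat`: the conditions are compatible because of `Sep` (for `cov`), `K ≥ 8`:
values `0`, `1`, `2`.
-/

noncomputable section

namespace Pool.Agent.PGo.R

open Finset Pool.Agent.PGr

open Classical in
theorem exists_fam {P : Par} (hn : 10 ^ 6 ≤ P.n) :
    ∃ Fam : Finset Fm, (Fam.card : ℝ) ≤ (P.n : ℝ) ^ 5 ∧ ∀ f, FmOk P f → f ∈ Fam := by
  set n := P.n with hndef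
  set J : Finset ℤ := Icc (0 : ℤ) (3 * n) with hJ
  have hJc : J.card = 3 * n + 1 := by
    rw [hJ, Int.card_Icc]
    omega
  refine ⟨((range n ×ˢ J ×ˢ J).image fun t => Fm.dfi t.1 t.2.1 t.2.2) ∪
    (((range n ×ˢ J ×ˢ J).image fun t => Fm.svp t.1 t.2.1 t.2.2) ∪
    (((univ ×ˢ J).image fun t : Fin 6 × ℤ => Fm.cov t.1 t.2) ∪ (J.image Fm.exc))), ?_, ?_⟩
  · have h1 : ((range n ×ˢ J ×ˢ J).image fun t => Fm.dfi t.1 t.2.1 t.2.2).card
        ≤ n * ((3 * n + 1) * (3 * n + 1)) := by
      refine card_image_le.trans ?_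
      rw [card_product, card_product, card_range, hJc]
    have h2 : ((range n ×ˢ J ×ˢ J).image fun t => Fm.svp t.1 t.2.1 t.2.2).card
        ≤ n * ((3 * n + 1) * (3 * n + 1)) := by
      refine card_image_le.trans ?_
      rw [card_product, card_product, card_range, hJc]
    have h3 : ((univ ×ˢ J).image fun t : Fin 6 × ℤ => Fm.cov t.1 t.2).card ≤ 6 * (3 * n + 1) := by
      refine card_image_le.trans ?_
      rw [card_product, hJc, card_univ, Fintype.card_fin]
    have h4 : (J.image Fm.exc).card ≤ 3 * n + 1 := by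
      refine card_image_le.trans ?_
      rw [hJc]
    have h5 : (((range n ×ˢ J ×ˢ J).image fun t => Fm.dfi t.1 t.2.1 t.2.2) ∪
        (((range n ×ˢ J ×ˢ J).image fun t => Fm.svp t.1 t.2.1 t.2.2) ∪
        (((univ ×ˢ J).image fun t : Fin 6 × ℤ => Fm.cov t.1 t.2) ∪ (J.image Fm.exc)))).card
        ≤ n ^ 5 := by
      refine (card_union_le _ _).trans ?_
      refine (Nat.add_le_add h1 ((card_union_le _ _).trans
        (Nat.add_le_add h2 ((card_union_le _ _).trans (Nat.add_le_add h3 h4))))).trans ?_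
      have hn1 : 1 ≤ n := by omega
      have ha : (3 * n + 1) * (3 * n + 1) ≤ 16 * (n * n) := by nlinarith
      have hb : n * ((3 * n + 1) * (3 * n + 1)) ≤ 16 * (n * (n * n)) := by
        calc n * ((3 * n + 1) * (3 * n + 1)) ≤ n * (16 * (n * n)) := Nat.mul_le_mul_left _ ha
          _ = 16 * (n * (n * n)) := by ring
      have hc : n ≤ n * (n * n) := by nlinarith
      have hd : 60 * (n * (n * n)) ≤ n ^ 5 := by
        have hd1 : 60 ≤ n * n := by nlinarith
        calc 60 * (n * (n * n)) ≤ (n * n) * (n * (n * n)) := Nat.mul_le_mul_right _ hd1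
          _ = n ^ 5 := by ring
      omega
    exact_mod_cast h5
  · have hn1 : 10 ^ 6 ≤ (n : ℤ) := by exact_mod_cast hn
    have hz : ∀ a b z : ℤ, 0 ≤ a → b ≤ 300 → inR n (a, b) z → z ∈ J := by
      intro a b z ha hb hz
      obtain ⟨h1, h2⟩ := hz
      simp only at h1 h2
      have h3 : 0 ≤ a * (n : ℤ) := mul_nonneg ha (by omega)
      have h4 : b * (n : ℤ) ≤ 300 * n := mul_le_mul_of_nonneg_right hb (by omega)
      rw [hJ, mem_Icc]
      constructor <;> omega
    intro f hf
    rw [mem_union, mem_union, mem_union]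
    cases f with
    | dfi v z1 z2 =>
      left
      obtain ⟨h1, h2, h3, -⟩ := hf
      rw [mem_image]
      refine ⟨(v, z1, z2), ?_, rfl⟩
      rw [mem_product, mem_product, mem_range]
      exact ⟨h1, hz 70 230 z1 (by norm_num) (by norm_num) h2,
        hz 70 230 z2 (by norm_num) (by norm_num) h3⟩
    | svp v z1 z2 =>
      right; left
      obtain ⟨h1, h2, h3, -⟩ := hf
      rw [mem_image]
      refine ⟨(v, z1, z2), ?_, rfl⟩
      rw [mem_product, mem_product, mem_range]
      exact ⟨h1, hz 85 215 z1 (by norm_num) (by norm_num) h2,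
        hz 85 215 z2 (by norm_num) (by norm_num) h3⟩
    | cov q d =>
      right; right; left
      have h1 := dall_range hf.1
      rw [mem_image]
      refine ⟨(q, d), ?_, rfl⟩
      rw [mem_product, hJ, mem_Icc]
      refine ⟨mem_univ _, ?_, ?_⟩
      · simp only; omega
      · simp only; omega
    | exc d =>
      right; right; right
      have h1 := dall_range hf.1
      rw [mem_image]
      refine ⟨d, ?_, rfl⟩
      rw [hJ, mem_Icc]
      constructor <;> omega

theorem tf_card (P : Par) (f : Fm) (t : ℕ × ℤ × ℤ) : (Tf P f t).card ≤ 8 := by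
  cases f with
  | dfi v z1 z2 => exact (card_le_four).trans (by norm_num)
  | svp v z1 z2 => exact (card_le_four).trans (by norm_num)
  | cov q d =>
    refine (card_insert_le _ _).trans ?_
    refine (Nat.succ_le_succ (card_insert_le _ _)).trans ?_
    exact Nat.succ_le_succ (Nat.succ_le_succ card_le_six)
  | exc d => exact (card_le_four).trans (by norm_num)

private theorem anc_rng {n v : ℕ} (hv : v < n) : 0 ≤ anc n v ∧ anc n v ≤ 3 * n := by
  rcases anc_cases hv with h | h | h <;> constructor <;> omega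

private theorem vx_lt {P : Par} (hn : 10 ^ 6 ≤ P.n) (m j : ℕ) : P.vx m j < P.n :=
  Nat.mod_lt _ (by omega)

private theorem abs_rng {n : ℕ} {x y : ℤ} (hx : 0 ≤ x ∧ x ≤ 3 * n) (hy : 0 ≤ y ∧ y ≤ 3 * n) :
    -(10 * (n : ℤ)) ≤ |x - y| ∧ |x - y| ≤ 10 * n := by
  have h1 := abs_nonneg (x - y)
  have h2 : |x - y| ≤ 3 * n := by
    rw [abs_le]
    constructor <;> omega
  constructor <;> omega

private theorem mem_bits {P : Par} {b : Bool} {z : ℤ} (h : -(10 * (P.n : ℤ)) ≤ z ∧ z ≤ 10 * P.n) :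
    (b, z) ∈ Abits P := by
  rw [Abits, mem_product, mem_Icc]
  exact ⟨mem_univ _, h⟩

theorem tf_sub {P : Par} (h : P.Ok) (hn : 10 ^ 6 ≤ P.n) {f : Fm} (hf : FmOk P f)
    {t : ℕ × ℤ × ℤ} (ht : t ∈ Sf P f) : Tf P f t ⊆ Abits P := by
  have hn2 : 2 ≤ P.n := by omega
  have hz : ∀ x ∈ zall P.n, 0 ≤ x ∧ x ≤ 3 * (P.n : ℤ) := by
    intro x hx
    have h1 := zall_range hn2 hx
    constructor <;> omega
  have hd : ∀ d ∈ dall P.n, -(10 * (P.n : ℤ)) ≤ d ∧ d ≤ 10 * P.n := by
    intro d hd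
    have h1 := dall_range hd
    constructor <;> omega
  have hw : ∀ x, (0 ≤ x ∧ x ≤ 3 * (P.n : ℤ)) → -(10 * (P.n : ℤ)) ≤ x ∧ x ≤ 10 * P.n := by
    intro x hx
    constructor <;> omega
  have hin : ∀ a b z : ℤ, 0 ≤ a → b ≤ 300 → inR P.n (a, b) z → 0 ≤ z ∧ z ≤ 3 * (P.n : ℤ) := by
    intro a b z ha hb hz
    obtain ⟨h1, h2⟩ := hz
    simp only at h1 h2
    have h3 : 0 ≤ a * (P.n : ℤ) := mul_nonneg ha (by omega)
    have h4 : b * (P.n : ℤ) ≤ 300 * P.n := mul_le_mul_of_nonneg_right hb (by omega)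
    constructor <;> omega
  cases f with
  | dfi v z1 z2 =>
    obtain ⟨h1, h2, h3, -⟩ := hf
    have hx : 0 ≤ t.2.1 ∧ t.2.1 ≤ 3 * (P.n : ℤ) := by
      simp only [Sf, mem_image, mem_filter, Zo2] at ht
      obtain ⟨x, hx, rfl⟩ := ht
      exact hz x hx.1.1
    intro i hi
    simp only [Tf, mem_insert, mem_singleton] at hi
    rcases hi with rfl | rfl | rfl | rfl
    · exact mem_bits (hw _ hx)
    · exact mem_bits (abs_rng hx (anc_rng h1))
    · exact mem_bits (abs_rng hx (hin 70 230 z1 (by norm_num) (by norm_num) h2))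
    · exact mem_bits (abs_rng hx (hin 70 230 z2 (by norm_num) (by norm_num) h3))
  | svp v z1 z2 =>
    obtain ⟨h1, h2, h3, -⟩ := hf
    have hx : 0 ≤ t.2.1 ∧ t.2.1 ≤ 3 * (P.n : ℤ) := by
      simp only [Sf, mem_image, mem_filter] at ht
      obtain ⟨x, hx, rfl⟩ := ht
      exact hz x hx.1
    intro i hi
    simp only [Tf, mem_insert, mem_singleton] at hi
    rcases hi with rfl | rfl | rfl | rfl
    · exact mem_bits (hw _ hx)
    · exact mem_bits (abs_rng hx (anc_rng h1))
    · exact mem_bits (abs_rng hx (hin 85 215 z1 (by norm_num) (by norm_num) h2))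
    · exact mem_bits (abs_rng hx (hin 85 215 z2 (by norm_num) (by norm_num) h3))
  | cov q d =>
    simp only [Sf, SCov, mem_filter, mem_product] at ht
    obtain ⟨⟨-, h1, h2⟩, -, hc, -⟩ := ht
    obtain ⟨h3, h4, h5, -⟩ := hc
    have hx1 := hz _ h1
    have hx2 := hz _ h2
    have hx3 : 0 ≤ covX P q d t ∧ covX P q d t ≤ 3 * (P.n : ℤ) := by
      simp only [Zo1, mem_filter] at h3
      exact hz _ h3.1
    have hx4 : -(10 * (P.n : ℤ)) ≤ covE P q d t ∧ covE P q d t ≤ 10 * P.n := by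
      simp only [AAf, mem_filter] at h4
      exact hd _ h4.1
    have hx5 : -(10 * (P.n : ℤ)) ≤ covF P q d t ∧ covF P q d t ≤ 10 * P.n := by
      simp only [AAf, mem_filter] at h5
      exact hd _ h5.1
    intro i hi
    simp only [Tf, mem_insert, mem_singleton] at hi
    rcases hi with rfl | rfl | rfl | rfl | rfl | rfl | rfl | rfl
    · exact mem_bits (hw _ hx1)
    · exact mem_bits (hw _ hx2)
    · exact mem_bits (hw _ hx3)
    · exact mem_bits (abs_rng hx1 (anc_rng (vx_lt hn _ _)))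
    · exact mem_bits (abs_rng hx2 (anc_rng (vx_lt hn _ _)))
    · exact mem_bits (abs_rng hx1 hx2)
    · exact mem_bits hx4
    · exact mem_bits hx5
  | exc d =>
    simp only [Sf, SExc, mem_image, mem_filter, mem_product] at ht
    obtain ⟨u, ⟨⟨-, h1⟩, h2⟩, rfl⟩ := ht
    have hx1 := hz _ h1
    have hx2 := hz _ h2.2.2.1
    intro i hi
    simp only [Tf, mem_insert, mem_singleton] at hi
    rcases hi with rfl | rfl | rfl | rfl
    · exact mem_bits (hw _ hx1)
    · exact mem_bits (hw _ hx2)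
    · exact mem_bits (abs_rng hx1 (anc_rng (vx_lt hn _ _)))
    · exact mem_bits (abs_rng hx2 (anc_rng (vx_lt hn _ _)))

theorem gf_sat {P : Par} {K : ℕ} (hK : 8 ≤ K) {f : Fm} {t : ℕ × ℤ × ℤ}
    (ht : t ∈ Sf P f) {i : Bool × ℤ} (hi : i ∈ Tf P f t) : ∃ a, Gf P K f t i a := by
  cases f with
  | dfi v z1 z2 => exact ⟨⟨1, by omega⟩, fun _ => rfl, fun _ => rfl⟩
  | svp v z1 z2 => exact ⟨⟨2, by omega⟩, fun _ => le_rfl, fun _ => Nat.mod_self 2⟩
  | exc d => exact ⟨⟨2, by omega⟩, fun _ => le_rfl, fun _ => Nat.mod_self 2⟩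
  | cov q d =>
    simp only [Sf, SCov, mem_filter] at ht
    obtain ⟨-, -, -, ⟨h1, h2⟩, ⟨h3, h4, h5⟩, h6, h7, h8⟩ := ht
    obtain ⟨b, z⟩ := i
    cases b with
    | true =>
      by_cases hz : z = covX P q d t
      · refine ⟨⟨0, by omega⟩, fun _ => rfl, fun h => ?_, fun h => ?_, fun h => ?_, fun h => ?_,
          fun h => ?_, fun h => ?_, fun h => ?_⟩
        · exact absurd (hz.symm.trans (Prod.ext_iff.1 h).2) h1
        · exact absurd (hz.symm.trans (Prod.ext_iff.1 h).2) h2
        · exact absurd (Prod.ext_iff.1 h).1 (by simp)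
        · exact absurd (Prod.ext_iff.1 h).1 (by simp)
        · exact absurd (Prod.ext_iff.1 h).1 (by simp)
        · exact absurd (Prod.ext_iff.1 h).1 (by simp)
        · exact absurd (Prod.ext_iff.1 h).1 (by simp)
      · refine ⟨⟨2, by omega⟩, fun h => absurd (Prod.ext_iff.1 h).2 hz, fun _ => le_rfl,
          fun _ => le_rfl, fun h => ?_, fun h => ?_, fun _ => Nat.mod_self 2, fun _ => Nat.mod_self 2,
          fun _ => Nat.mod_self 2⟩
        · exact absurd (Prod.ext_iff.1 h).1 (by simp)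
        · exact absurd (Prod.ext_iff.1 h).1 (by simp)
    | false =>
      by_cases hz : z = covE P q d t ∨ z = covF P q d t
      · have hne : z ≠ |t.2.1 - anc P.n (P.vx t.1 1)| ∧
            z ≠ |t.2.2 - anc P.n (P.vx t.1 (P.L - 1))| ∧ z ≠ |t.2.1 - t.2.2| := by
          rcases hz with rfl | rfl
          · exact ⟨h3, h4, h5⟩
          · exact ⟨h6, h7, h8⟩
        refine ⟨⟨1, by omega⟩, fun h => ?_, fun h => ?_, fun h => ?_, fun _ => rfl, fun _ => rfl,
          fun h => absurd (Prod.ext_iff.1 h).2 hne.1, fun h => absurd (Prod.ext_iff.1 h).2 hne.2.1,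
          fun h => absurd (Prod.ext_iff.1 h).2 hne.2.2⟩
        · exact absurd (Prod.ext_iff.1 h).1 (by simp)
        · exact absurd (Prod.ext_iff.1 h).1 (by simp)
        · exact absurd (Prod.ext_iff.1 h).1 (by simp)
      · rw [not_or] at hz
        refine ⟨⟨2, by omega⟩, fun h => ?_, fun _ => le_rfl, fun _ => le_rfl,
          fun h => absurd (Prod.ext_iff.1 h).2 hz.1, fun h => absurd (Prod.ext_iff.1 h).2 hz.2,
          fun _ => Nat.mod_self 2, fun _ => Nat.mod_self 2, fun _ => Nat.mod_self 2⟩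
        exact absurd (Prod.ext_iff.1 h).1 (by simp)

end Pool.Agent.PGo.R
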