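import Pool.Agent.PGo.RBase

/-!
# PGo-RNest: counting

PLAN.  `card_interval`: the integers in `[lo, hi]` outside a set of at most `N` elements:
`(Finset.Icc lo hi) \ B`, `Int.card_Icc`.
`nest3`: the set contains the sigma type of `m ∈ M \ b0`, `y1 ∈ Y1 \ b1 m`, `y2 ∈ Y2 \ b2 m y1`;
count fibrewise (`Finset.card_sigma`, or `card_le_card` of a `Finset.sigma`/`biUnion` image).
`nest2` similarly.
-/

noncomputable section

namespace Pool.Agent.PGo.R

open Finset

theorem card_sdiff_ge {α : Type*} [DecidableEq α] (Y B : Finset α) :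
    (Y.card : ℝ) - B.card ≤ ((Y \ B).card : ℝ) := by
  have h1 : (Y \ B).card + B.card = (Y ∪ B).card := Finset.card_sdiff_add_card Y B
  have h2 : Y.card ≤ (Y ∪ B).card := Finset.card_le_card Finset.subset_union_left
  have h3 : Y.card ≤ (Y \ B).card + B.card := by omega
  have h4 : (Y.card : ℝ) ≤ ((Y \ B).card : ℝ) + B.card := by exact_mod_cast h3
  linarith

private theorem rnest_aux {α : Type*} [DecidableEq α] (Y B : Finset α) (N : ℕ) (A : ℝ) (hB : B.card ≤ N)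
    (hA : A + N ≤ Y.card) : A ≤ ((Y \ B).card : ℝ) := by
  have h1 := card_sdiff_ge Y B
  have h2 : (B.card : ℝ) ≤ N := by exact_mod_cast hB
  linarith

open Classical in
/-- nested counting of triples: `M`, `Y1`, `Y2` have at least `A`, `A1`, `A2` elements, the bad
sets at most `N` elements -/
theorem nest3 (M : Finset ℕ) (Y1 Y2 : Finset ℤ) (b0 : Finset ℕ) (b1 : ℕ → Finset ℤ)
    (b2 : ℕ → ℤ → Finset ℤ) (N : ℕ) (h0 : b0.card ≤ N) (h1 : ∀ m, (b1 m).card ≤ N)
    (h2 : ∀ m y, (b2 m y).card ≤ N) (A A1 A2 : ℝ) (hA : A + N ≤ M.card) (hA1 : A1 + N ≤ Y1.card)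
    (hA2 : A2 + N ≤ Y2.card) (hp : 0 ≤ A) (hp1 : 0 ≤ A1) (hp2 : 0 ≤ A2)
    (S : Finset (ℕ × ℤ × ℤ))
    (hS : ∀ m ∈ M, m ∉ b0 → ∀ y1 ∈ Y1, y1 ∉ b1 m → ∀ y2 ∈ Y2, y2 ∉ b2 m y1 → (m, y1, y2) ∈ S) :
    A * A1 * A2 ≤ S.card := by
  classical
  set T : Finset (Σ _ : ℕ, Σ _ : ℤ, ℤ) :=
    (M \ b0).sigma fun m => (Y1 \ b1 m).sigma fun y => Y2 \ b2 m y with hT
  have hTS : T.card ≤ S.card := by
    refine Finset.card_le_card_of_injOn (fun t => (t.1, t.2.1, t.2.2)) ?_ ?_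
    · rintro ⟨m, y1, y2⟩ ht
      have ht' := Finset.mem_coe.1 ht
      rw [hT, Finset.mem_sigma, Finset.mem_sigma] at ht'
      obtain ⟨h1', h2', h3'⟩ := ht'
      simp only [Finset.mem_sdiff] at h1' h2' h3'
      exact Finset.mem_coe.2 (hS m h1'.1 h1'.2 y1 h2'.1 h2'.2 y2 h3'.1 h3'.2)
    · rintro ⟨m, y1, y2⟩ _ ⟨m', y1', y2'⟩ _ e
      simp only [Prod.mk.injEq] at e
      obtain ⟨e1, e2, e3⟩ := e
      subst e1 e2 e3
      rfl
  have hTc : T.card = ∑ m ∈ M \ b0, ∑ y ∈ Y1 \ b1 m, (Y2 \ b2 m y).card := by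
    rw [hT, Finset.card_sigma]
    refine Finset.sum_congr rfl fun m _ => ?_
    rw [Finset.card_sigma]
  have h3 : A * A1 * A2 ≤ (T.card : ℝ) := by
    rw [hTc]
    push_cast
    calc A * A1 * A2 ≤ ((M \ b0).card : ℝ) * (A1 * A2) := by
          rw [mul_assoc]
          exact mul_le_mul_of_nonneg_right (rnest_aux M b0 N A h0 hA) (mul_nonneg hp1 hp2)
      _ = ∑ _m ∈ M \ b0, A1 * A2 := by rw [Finset.sum_const, nsmul_eq_mul]
      _ ≤ _ := by
          refine Finset.sum_le_sum fun m _ => ?_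
          calc A1 * A2 ≤ ((Y1 \ b1 m).card : ℝ) * A2 :=
                mul_le_mul_of_nonneg_right (rnest_aux Y1 (b1 m) N A1 (h1 m) hA1) hp2
            _ = ∑ _y ∈ Y1 \ b1 m, A2 := by rw [Finset.sum_const, nsmul_eq_mul]
            _ ≤ _ := Finset.sum_le_sum fun y _ => rnest_aux Y2 (b2 m y) N A2 (h2 m y) hA2
  exact h3.trans (by exact_mod_cast hTS)

open Classical in
/-- nested counting of pairs -/
theorem nest2 (M : Finset ℕ) (Y1 : Finset ℤ) (b0 : Finset ℕ) (b1 : ℕ → Finset ℤ) (N : ℕ)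
    (h0 : b0.card ≤ N) (h1 : ∀ m, (b1 m).card ≤ N) (A A1 : ℝ) (hA : A + N ≤ M.card)
    (hA1 : A1 + N ≤ Y1.card) (hp : 0 ≤ A) (hp1 : 0 ≤ A1) (S : Finset (ℕ × ℤ))
    (hS : ∀ m ∈ M, m ∉ b0 → ∀ y1 ∈ Y1, y1 ∉ b1 m → (m, y1) ∈ S) :
    A * A1 ≤ S.card := by
  classical
  set T : Finset (Σ _ : ℕ, ℤ) := (M \ b0).sigma fun m => Y1 \ b1 m with hT
  have hTS : T.card ≤ S.card := by
    refine Finset.card_le_card_of_injOn (fun t => (t.1, t.2)) ?_ ?_
    · rintro ⟨m, y1⟩ ht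
      have ht' := Finset.mem_coe.1 ht
      rw [hT, Finset.mem_sigma] at ht'
      obtain ⟨h1', h2'⟩ := ht'
      simp only [Finset.mem_sdiff] at h1' h2'
      exact Finset.mem_coe.2 (hS m h1'.1 h1'.2 y1 h2'.1 h2'.2)
    · rintro ⟨m, y1⟩ _ ⟨m', y1'⟩ _ e
      simp only [Prod.mk.injEq] at e
      obtain ⟨e1, e2⟩ := e
      subst e1 e2
      rfl
  have hTc : T.card = ∑ m ∈ M \ b0, (Y1 \ b1 m).card := by
    rw [hT, Finset.card_sigma]
  have h3 : A * A1 ≤ (T.card : ℝ) := by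
    rw [hTc]
    push_cast
    calc A * A1 ≤ ((M \ b0).card : ℝ) * A1 :=
          mul_le_mul_of_nonneg_right (rnest_aux M b0 N A h0 hA) hp1
      _ = ∑ _m ∈ M \ b0, A1 := by rw [Finset.sum_const, nsmul_eq_mul]
      _ ≤ _ := Finset.sum_le_sum fun m _ => rnest_aux Y1 (b1 m) N A1 (h1 m) hA1
  exact h3.trans (by exact_mod_cast hTS)

/-- upper bound: triples in `X ×ˢ Y ×ˢ Z` such that for given first and second (first and third,
...) component there are at most `N` values of the remaining one -/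
theorem up3_z (X : Finset ℕ) (Y Z : Finset ℤ) (S : Finset (ℕ × ℤ × ℤ)) (hS : S ⊆ X ×ˢ Y ×ˢ Z)
    (N : ℕ) (B : ℕ → ℤ → Finset ℤ) (hB : ∀ m y, (B m y).card ≤ N)
    (h : ∀ t ∈ S, t.2.2 ∈ B t.1 t.2.1) : S.card ≤ N * (X.card * Y.card) := by
  classical
  rw [← Finset.card_product]
  refine Finset.card_le_mul_card_image_of_maps_to (f := fun t => (t.1, t.2.1)) ?_ N ?_
  · intro t ht
    have h1 := hS ht
    rw [Finset.mem_product, Finset.mem_product] at h1
    exact Finset.mem_product.2 ⟨h1.1, h1.2.1⟩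
  · rintro ⟨m, y⟩ _
    refine le_trans (Finset.card_le_card_of_injOn (fun t => t.2.2) ?_ ?_) (hB m y)
    · intro t ht
      have ht' := Finset.mem_filter.1 (Finset.mem_coe.1 ht)
      have e1 : t.1 = m := congrArg Prod.fst ht'.2
      have e2 : t.2.1 = y := congrArg Prod.snd ht'.2
      have h1 := h t ht'.1
      rw [e1, e2] at h1
      exact Finset.mem_coe.2 h1
    · intro t ht t' ht' e
      have h1 := (Finset.mem_filter.1 (Finset.mem_coe.1 ht)).2
      have h2 := (Finset.mem_filter.1 (Finset.mem_coe.1 ht')).2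
      have e1 : t.1 = t'.1 := (congrArg Prod.fst h1).trans (congrArg Prod.fst h2).symm
      have e2 : t.2.1 = t'.2.1 := (congrArg Prod.snd h1).trans (congrArg Prod.snd h2).symm
      exact Prod.ext e1 (Prod.ext e2 e)

theorem up3_y (X : Finset ℕ) (Y Z : Finset ℤ) (S : Finset (ℕ × ℤ × ℤ)) (hS : S ⊆ X ×ˢ Y ×ˢ Z)
    (N : ℕ) (B : ℕ → Finset ℤ) (hB : ∀ m, (B m).card ≤ N)
    (h : ∀ t ∈ S, t.2.1 ∈ B t.1) : S.card ≤ N * (X.card * Z.card) := by
  classical
  rw [← Finset.card_product]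
  refine Finset.card_le_mul_card_image_of_maps_to (f := fun t => (t.1, t.2.2)) ?_ N ?_
  · intro t ht
    have h1 := hS ht
    rw [Finset.mem_product, Finset.mem_product] at h1
    exact Finset.mem_product.2 ⟨h1.1, h1.2.2⟩
  · rintro ⟨m, y⟩ _
    refine le_trans (Finset.card_le_card_of_injOn (fun t => t.2.1) ?_ ?_) (hB m)
    · intro t ht
      have ht' := Finset.mem_filter.1 (Finset.mem_coe.1 ht)
      have e1 : t.1 = m := congrArg Prod.fst ht'.2
      have h1 := h t ht'.1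
      rw [e1] at h1
      exact Finset.mem_coe.2 h1
    · intro t ht t' ht' e
      have h1 := (Finset.mem_filter.1 (Finset.mem_coe.1 ht)).2
      have h2 := (Finset.mem_filter.1 (Finset.mem_coe.1 ht')).2
      have e1 : t.1 = t'.1 := (congrArg Prod.fst h1).trans (congrArg Prod.fst h2).symm
      have e2 : t.2.2 = t'.2.2 := (congrArg Prod.snd h1).trans (congrArg Prod.snd h2).symm
      exact Prod.ext e1 (Prod.ext e e2)

theorem up3_m (X : Finset ℕ) (Y Z : Finset ℤ) (S : Finset (ℕ × ℤ × ℤ)) (hS : S ⊆ X ×ˢ Y ×ˢ Z)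
    (N : ℕ) (B : Finset ℕ) (hB : B.card ≤ N)
    (h : ∀ t ∈ S, t.1 ∈ B) : S.card ≤ N * (Y.card * Z.card) := by
  classical
  rw [← Finset.card_product]
  refine Finset.card_le_mul_card_image_of_maps_to (f := fun t => t.2) ?_ N ?_
  · intro t ht
    have h1 := hS ht
    rw [Finset.mem_product] at h1
    exact h1.2
  · intro y _
    refine le_trans (Finset.card_le_card_of_injOn (fun t => t.1) ?_ ?_) hB
    · intro t ht
      have ht' := Finset.mem_filter.1 (Finset.mem_coe.1 ht)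
      exact Finset.mem_coe.2 (h t ht'.1)
    · intro t ht t' ht' e
      have h1 := (Finset.mem_filter.1 (Finset.mem_coe.1 ht)).2
      have h2 := (Finset.mem_filter.1 (Finset.mem_coe.1 ht')).2
      exact Prod.ext e (h1.trans h2.symm)

end Pool.Agent.PGo.R
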