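import Mathlib
import Pool.Agent.PGo.KoStat

/-!
# PGo-WDefs: definitions for Theorem W (section 4 of pgo_paper.md)

Roles in the cycle: `j = 0` and `j` odd are black (independent labels, law `lwo s`), `j` even,
`j ≥ 2` is an item: kernel `kco (σ j)` given the labels of the two neighbours (which are black).
The neighbours of the vertex `v = vx m j` are `vx m (nxt j) = nbp n k v` and
`vx m (prv j) = nbm n k v`.
-/

noncomputable section

namespace Pool.Agent.PGo

open Finset Pool.Agent.PGr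

/-! ## Abstract product weights -/

/-- factor of the vertex `j`: `a` for `j ∈ B`, kernel `K` with the two neighbours `nb`, `nb'`
otherwise -/
def facA {ι : Type} [DecidableEq ι] (B : Finset ι) (nb nb' : ι → ι) (a : ι → ℤ → ℝ)
    (K : ι → ℤ → ℤ → ℤ → ℝ) (x : ι → ℤ) (j : ι) : ℝ :=
  if j ∈ B then a j (x j) else K j (x (nb j)) (x (nb' j)) (x j)

/-- Hypotheses: the neighbours of the vertices outside `B` are in `B`; total masses one. -/
structure FacH {ι : Type} [DecidableEq ι] (S : Finset ℤ) (B : Finset ι) (nb nb' : ι → ι)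
    (a : ι → ℤ → ℝ) (K : ι → ℤ → ℤ → ℤ → ℝ) : Prop where
  ne : S.Nonempty
  nbB : ∀ i, i ∉ B → nb i ∈ B
  nbB' : ∀ i, i ∉ B → nb' i ∈ B
  sa : ∀ i ∈ B, ∑ y ∈ S, a i y = 1
  sK : ∀ i, i ∉ B → ∀ y y', ∑ z ∈ S, K i y y' z = 1

/-! ## The terms of the sums in `KD` -/

/-- spoke of a black vertex -/
def tS (s n : ℕ) (d : ℤ) (v : ℕ) : ℝ :=
  ∑ y ∈ ZB n, lwo s n v y * (if |y - anc n v| = d then 1 else 0)

/-- inner edge between two black vertices -/
def tI (s n k : ℕ) (d : ℤ) (v : ℕ) : ℝ :=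
  ∑ y ∈ ZB n, ∑ y' ∈ ZB n,
    lwo s n v y * lwo s n (nbp n k v) y' * (if |y - y'| = d then 1 else 0)

/-- three differences of an item; `s` law of the neighbours, `t` kernel -/
def tK (s t n k : ℕ) (d : ℤ) (v : ℕ) : ℝ :=
  ∑ y ∈ ZB n, ∑ y' ∈ ZB n, ∑ x ∈ ZB n,
    lwo s n (nbp n k v) y * lwo s n (nbm n k v) y' * kco t n v y y' x *
      ((if |x - anc n v| = d then 1 else 0) + (if |x - y| = d then 1 else 0) +
        (if |x - y'| = d then 1 else 0))

/-- label of an item -/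
def tM (s t n k : ℕ) (z : ℤ) (v : ℕ) : ℝ :=
  ∑ y ∈ ZB n, ∑ y' ∈ ZB n, lwo s n (nbp n k v) y * lwo s n (nbm n k v) y' * kco t n v y y' z

namespace Par

variable (P : Par)

/-- black roles -/
def BW : Finset (Fin P.L) := univ.filter (fun j => j.1 = 0 ∨ j.1 % 2 = 1)

/-- Weight of the labelled cycle `(m, x)`, where `m` has the role `0`. -/
def Wt (s : ℕ) (σ : ℕ → ℕ) (m : ℕ) (x : Fin P.L → ℤ) : ℝ :=
  ∏ j, facA P.BW nxt prv (fun j y => lwo s P.n (P.vx m j) y)
    (fun j y y' z => kco (σ j) P.n (P.vx m j) y y' z) x j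

/-- Weight of the labelled cycle `(r, x)`: average over the rotations. -/
def WW (s : ℕ) (σ : ℕ → ℕ) (r : ℕ) (x : Fin P.L → ℤ) : ℝ :=
  if r < P.g ∧ P.good r ∧ x ∈ P.box then
    (1 / (P.L : ℝ)) * ∑ i : Fin P.L, P.Wt s σ (P.vx r i) (fun j => x (rot i j)) else 0

/-- number of the vertices with label `z` -/
def cL (x : Fin P.L → ℤ) (z : ℤ) : ℝ := ((univ.filter (fun j : Fin P.L => x j = z)).card : ℝ)

/-- number of the differences equal to `d` -/
def cD (m : ℕ) (x : Fin P.L → ℤ) (d : ℤ) : ℝ :=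
  ((univ.filter (fun i : Bool × Fin P.L => P.df m x i = d)).card : ℝ)

/-- the vertices of the good cycles -/
def vg : Finset ℕ := (range P.n).filter (fun v => P.good v)

end Par

end Pool.Agent.PGo
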