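import Pool.Agent.PGo.WMain
import Pool.Agent.PGo.KoFin

/-!
# PGo: Theorem W
-/

namespace Pool.Agent.PGo

theorem thmW_all {L p : ℕ} (hA : Adm L p) : ThmW L p := thmW koB ko01 ko23 hA

end Pool.Agent.PGo
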