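import Pool.Agent.PGo.WDefs

/-!
# PGo-WFub: Fubini for the product weights

PLAN. `N = S.card > 0`, `box = Fintype.piFinset (fun _ => S)`.
(A) averaging: `N * ∑ x ∈ box, F x = ∑ x ∈ box, ∑ t ∈ S, F (update x j t)` for all `F`, `j`: the map
`(x, t) ↦ (update x j t, x j)` is an involution of `box ×ˢ S` (`Finset.sum_nbij'`, `Finset.sum_product'`).
(E) elimination: if `G (update x j t) = G x` for all `x, t` and `∑ t ∈ S, h (update x j t) = 1` for all `x`
then `N * ∑ x ∈ box, G x * h x = ∑ x ∈ box, G x` (by (A)).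
(E') by `Finset.induction_on` on `T`: if `G (update x i t) = G x` for `i ∈ T`, `h i (update x i' t) = h i x` for
`i, i' ∈ T`, `i ≠ i'`, `∑ t ∈ S, h i (update x i t) = 1` for `i ∈ T`, then
`N ^ T.card * ∑ x ∈ box, G x * ∏ i ∈ T, h i x = ∑ x ∈ box, G x`.
Apply (E') to the vertices outside `B` (except `j`), then to the vertices in `B` (except `p, q`; the factor of
`b ∈ B` depends on `x b` only; the factor of `i ∉ B` on `x i` and on `x` at vertices in `B`). The
remaining function depends only on `x` at one, two or three different vertices: apply (A) for these vertices,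
`∑ x ∈ box, const = N ^ card ι * const`, and cancel the powers of `N`.
-/

noncomputable section

namespace Pool.Agent.PGo

open Finset

variable {ι : Type} [Fintype ι] [DecidableEq ι] {S : Finset ℤ} {B : Finset ι} {nb nb' : ι → ι}
  {a : ι → ℤ → ℝ} {K : ι → ℤ → ℤ → ℤ → ℝ}

private theorem avg (S : Finset ℤ) (F : (ι → ℤ) → ℝ) (j : ι) :
    (S.card : ℝ) * ∑ x ∈ Fintype.piFinset (fun _ : ι => S), F x =
      ∑ x ∈ Fintype.piFinset (fun _ : ι => S), ∑ t ∈ S, F (Function.update x j t) := by
  have h1 : ∑ x ∈ Fintype.piFinset (fun _ : ι => S), ∑ t ∈ S, F (Function.update x j t) =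
      ∑ q ∈ Fintype.piFinset (fun _ : ι => S) ×ˢ S, F (Function.update q.1 j q.2) :=
    (Finset.sum_product (Fintype.piFinset (fun _ : ι => S)) S
      (fun q : (ι → ℤ) × ℤ => F (Function.update q.1 j q.2))).symm
  have h2 : ∑ q ∈ Fintype.piFinset (fun _ : ι => S) ×ˢ S, F (Function.update q.1 j q.2) =
      ∑ q ∈ Fintype.piFinset (fun _ : ι => S) ×ˢ S, F q.1 := by
    have hm : ∀ q ∈ Fintype.piFinset (fun _ : ι => S) ×ˢ S,
        (Function.update q.1 j q.2, q.1 j) ∈ Fintype.piFinset (fun _ : ι => S) ×ˢ S := by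
      intro q hq
      rw [Finset.mem_product, Fintype.mem_piFinset] at hq ⊢
      refine ⟨fun i => ?_, hq.1 j⟩
      show Function.update q.1 j q.2 i ∈ S
      by_cases hi : i = j
      · subst hi
        rw [Function.update_self]
        exact hq.2
      · rw [Function.update_of_ne hi]
        exact hq.1 i
    have hi : ∀ q : (ι → ℤ) × ℤ, (Function.update (Function.update q.1 j q.2) j (q.1 j),
        (Function.update q.1 j q.2) j) = q := by
      intro q
      rw [Function.update_self, Function.update_idem, Function.update_eq_self]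
    exact Finset.sum_nbij' (fun q : (ι → ℤ) × ℤ => (Function.update q.1 j q.2, q.1 j))
      (fun q : (ι → ℤ) × ℤ => (Function.update q.1 j q.2, q.1 j)) hm hm (fun q _ => hi q)
      (fun q _ => hi q) (fun q _ => rfl)
  rw [h1, h2, Finset.sum_product, Finset.mul_sum]
  refine Finset.sum_congr rfl fun x _ => ?_
  show (S.card : ℝ) * F x = ∑ _y ∈ S, F x
  rw [Finset.sum_const, nsmul_eq_mul]

private theorem elim1 (S : Finset ℤ) (G h : (ι → ℤ) → ℝ) (j : ι)
    (hG : ∀ x t, G (Function.update x j t) = G x)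
    (hs : ∀ x, ∑ t ∈ S, h (Function.update x j t) = 1) :
    (S.card : ℝ) * ∑ x ∈ Fintype.piFinset (fun _ : ι => S), G x * h x =
      ∑ x ∈ Fintype.piFinset (fun _ : ι => S), G x := by
  rw [avg S (fun x => G x * h x) j]
  refine Finset.sum_congr rfl fun x _ => ?_
  have h1 : ∀ t ∈ S, G (Function.update x j t) * h (Function.update x j t) =
      G x * h (Function.update x j t) := fun t _ => by rw [hG]
  rw [Finset.sum_congr rfl h1, ← Finset.mul_sum, hs, mul_one]

private theorem elimT (S : Finset ℤ) (h : ι → (ι → ℤ) → ℝ) (T : Finset ι) :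
    ∀ G : (ι → ℤ) → ℝ, (∀ i ∈ T, ∀ x t, G (Function.update x i t) = G x) →
    (∀ i ∈ T, ∀ i' ∈ T, i ≠ i' → ∀ x t, h i (Function.update x i' t) = h i x) →
    (∀ i ∈ T, ∀ x, ∑ t ∈ S, h i (Function.update x i t) = 1) →
    (S.card : ℝ) ^ T.card * ∑ x ∈ Fintype.piFinset (fun _ : ι => S), G x * ∏ i ∈ T, h i x =
      ∑ x ∈ Fintype.piFinset (fun _ : ι => S), G x := by
  induction T using Finset.induction_on with
  | empty =>
    intro G _ _ _
    simp
  | insert i T hi ih =>
    intro G hG hh hs
    have h1 := ih (fun x => G x * h i x)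
      (fun i' hi' x t => by
        have h2 := hG i' (Finset.mem_insert_of_mem hi') x t
        have h3 := hh i (Finset.mem_insert_self i T) i' (Finset.mem_insert_of_mem hi')
          (fun h4 => hi (h4 ▸ hi')) x t
        show G (Function.update x i' t) * h i (Function.update x i' t) = G x * h i x
        rw [h2, h3])
      (fun i1 h1 i2 h2 => hh i1 (Finset.mem_insert_of_mem h1) i2 (Finset.mem_insert_of_mem h2))
      (fun i1 h1 => hs i1 (Finset.mem_insert_of_mem h1))
    have h2 := elim1 S G (h i) i (hG i (Finset.mem_insert_self i T))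
      (hs i (Finset.mem_insert_self i T))
    rw [Finset.card_insert_of_notMem hi, ← h2, ← h1, pow_succ]
    have h3 : ∀ x ∈ Fintype.piFinset (fun _ : ι => S), G x * ∏ i' ∈ insert i T, h i' x =
        G x * h i x * ∏ i' ∈ T, h i' x := fun x _ => by
      rw [Finset.prod_insert hi, mul_assoc]
    rw [Finset.sum_congr rfl h3]
    ring

private theorem prod_split (T B : Finset ι) (f : ι → ℝ) :
    ∏ j, f j = (∏ j ∈ T, f j) *
      ((∏ j ∈ (univ.filter (fun j => j ∉ T)).filter (fun j => j ∈ B), f j) *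
        ∏ j ∈ (univ.filter (fun j => j ∉ T)).filter (fun j => j ∉ B), f j) := by
  rw [Finset.prod_filter_mul_prod_filter_not, ← Finset.prod_filter_mul_prod_filter_not univ
    (fun j => j ∈ T) f, Finset.filter_univ_mem]

private theorem core (h : FacH S B nb nb' a K) (T : Finset ι)
    (hT : ∀ j ∈ T, j ∉ B → nb j ∈ T ∧ nb' j ∈ T) (Φ : (ι → ℤ) → ℝ)
    (hΦ : ∀ i, i ∉ T → ∀ x t, Φ (Function.update x i t) = Φ x) :
    (S.card : ℝ) ^ Fintype.card ι * ∑ x ∈ Fintype.piFinset (fun _ : ι => S),
      (∏ j, facA B nb nb' a K x j) * Φ x =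
      (S.card : ℝ) ^ T.card * ∑ x ∈ Fintype.piFinset (fun _ : ι => S),
        (∏ j ∈ T, facA B nb nb' a K x j) * Φ x := by
  set T1 := (univ.filter (fun j => j ∉ T)).filter (fun j => j ∉ B) with hT1
  set T2 := (univ.filter (fun j => j ∉ T)).filter (fun j => j ∈ B) with hT2
  have m1 : ∀ i, i ∈ T1 ↔ i ∉ T ∧ i ∉ B := by
    intro i
    rw [hT1, Finset.mem_filter, Finset.mem_filter]
    simp
  have m2 : ∀ i, i ∈ T2 ↔ i ∉ T ∧ i ∈ B := by
    intro i
    rw [hT2, Finset.mem_filter, Finset.mem_filter]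
    simp
  have fB : ∀ i ∈ B, ∀ x, facA B nb nb' a K x i = a i (x i) := fun i hi x => if_pos hi
  have fN : ∀ i, i ∉ B → ∀ x, facA B nb nb' a K x i = K i (x (nb i)) (x (nb' i)) (x i) :=
    fun i hi x => if_neg hi
  have neB : ∀ i j : ι, i ∉ B → j ∈ B → j ≠ i := fun i j hi hj h1 => hi (h1 ▸ hj)
  have neT : ∀ i j : ι, i ∉ T → j ∈ T → j ≠ i := fun i j hi hj h1 => hi (h1 ▸ hj)
  have hcard : (S.card : ℝ) ^ Fintype.card ι =
      (S.card : ℝ) ^ T.card * ((S.card : ℝ) ^ T2.card * (S.card : ℝ) ^ T1.card) := by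
    have h1 := prod_split T B (fun _ : ι => (S.card : ℝ))
    rw [Finset.prod_const, Finset.prod_const, Finset.prod_const, Finset.prod_const,
      Finset.card_univ] at h1
    exact h1
  have e1 := elimT S (fun i x => facA B nb nb' a K x i) T1
    (fun x => (∏ j ∈ T, facA B nb nb' a K x j) * (∏ j ∈ T2, facA B nb nb' a K x j) * Φ x)
    (by
      intro i hi x t
      rw [m1] at hi
      show (∏ j ∈ T, facA B nb nb' a K (Function.update x i t) j) *
        (∏ j ∈ T2, facA B nb nb' a K (Function.update x i t) j) *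
          Φ (Function.update x i t) = _
      rw [hΦ i hi.1]
      congr 2
      · refine Finset.prod_congr rfl fun j hj => ?_
        by_cases hjB : j ∈ B
        · rw [fB j hjB, fB j hjB, Function.update_of_ne (neB i j hi.2 hjB)]
        · rw [fN j hjB, fN j hjB, Function.update_of_ne (neB i _ hi.2 (h.nbB j hjB)),
            Function.update_of_ne (neB i _ hi.2 (h.nbB' j hjB)),
            Function.update_of_ne (neT i j hi.1 hj)]
      · refine Finset.prod_congr rfl fun j hj => ?_
        have hjB := ((m2 j).1 hj).2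
        rw [fB j hjB, fB j hjB, Function.update_of_ne (neB i j hi.2 hjB)])
    (by
      intro i hi i' hi' hne x t
      rw [m1] at hi hi'
      show facA B nb nb' a K (Function.update x i' t) i = facA B nb nb' a K x i
      rw [fN i hi.2, fN i hi.2, Function.update_of_ne (neB i' _ hi'.2 (h.nbB i hi.2)),
        Function.update_of_ne (neB i' _ hi'.2 (h.nbB' i hi.2)), Function.update_of_ne hne])
    (by
      intro i hi x
      rw [m1] at hi
      rw [← h.sK i hi.2 (x (nb i)) (x (nb' i))]
      refine Finset.sum_congr rfl fun t _ => ?_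
      show facA B nb nb' a K (Function.update x i t) i = _
      rw [fN i hi.2, Function.update_of_ne (neB i _ hi.2 (h.nbB i hi.2)),
        Function.update_of_ne (neB i _ hi.2 (h.nbB' i hi.2)), Function.update_self])
  have e2 := elimT S (fun i x => facA B nb nb' a K x i) T2
    (fun x => (∏ j ∈ T, facA B nb nb' a K x j) * Φ x)
    (by
      intro i hi x t
      rw [m2] at hi
      show (∏ j ∈ T, facA B nb nb' a K (Function.update x i t) j) *
          Φ (Function.update x i t) = _
      rw [hΦ i hi.1]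
      congr 1
      refine Finset.prod_congr rfl fun j hj => ?_
      by_cases hjB : j ∈ B
      · rw [fB j hjB, fB j hjB, Function.update_of_ne (neT i j hi.1 hj)]
      · obtain ⟨h1, h2⟩ := hT j hj hjB
        rw [fN j hjB, fN j hjB, Function.update_of_ne (neT i _ hi.1 h1),
          Function.update_of_ne (neT i _ hi.1 h2),
          Function.update_of_ne (neT i j hi.1 hj)])
    (by
      intro i hi i' hi' hne x t
      rw [m2] at hi hi'
      show facA B nb nb' a K (Function.update x i' t) i = facA B nb nb' a K x i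
      rw [fB i hi.2, fB i hi.2, Function.update_of_ne hne])
    (by
      intro i hi x
      rw [m2] at hi
      rw [← h.sa i hi.2]
      refine Finset.sum_congr rfl fun t _ => ?_
      show facA B nb nb' a K (Function.update x i t) i = _
      rw [fB i hi.2, Function.update_self])
  have e3 : ∀ x ∈ Fintype.piFinset (fun _ : ι => S), (∏ j, facA B nb nb' a K x j) * Φ x =
      (∏ j ∈ T, facA B nb nb' a K x j) * (∏ j ∈ T2, facA B nb nb' a K x j) * Φ x *
        ∏ j ∈ T1, facA B nb nb' a K x j := by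
    intro x _
    rw [prod_split T B]
    ring
  have e4 : ∀ x ∈ Fintype.piFinset (fun _ : ι => S),
      (∏ j ∈ T, facA B nb nb' a K x j) * (∏ j ∈ T2, facA B nb nb' a K x j) * Φ x =
      (∏ j ∈ T, facA B nb nb' a K x j) * Φ x * ∏ j ∈ T2, facA B nb nb' a K x j := by
    intro x _
    ring
  rw [Finset.sum_congr rfl e3, hcard, mul_assoc, mul_assoc, e1, Finset.sum_congr rfl e4, e2]

private theorem marg0 (S : Finset ℤ) (c : ℝ) :
    ∑ x ∈ Fintype.piFinset (fun _ : ι => S), c = (S.card : ℝ) ^ Fintype.card ι * c := by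
  rw [Finset.sum_const, Fintype.card_piFinset, Finset.prod_const, Finset.card_univ,
    nsmul_eq_mul, Nat.cast_pow]

private theorem marg1 (S : Finset ℤ) (p : ι) (ψ : ℤ → ℝ) :
    (S.card : ℝ) * ∑ x ∈ Fintype.piFinset (fun _ : ι => S), ψ (x p) =
      (S.card : ℝ) ^ Fintype.card ι * ∑ y ∈ S, ψ y := by
  rw [avg S (fun x => ψ (x p)) p]
  simp only [Function.update_self]
  rw [marg0]

private theorem marg2 (S : Finset ℤ) {p q : ι} (hpq : p ≠ q) (ψ : ℤ → ℤ → ℝ) :
    (S.card : ℝ) ^ 2 * ∑ x ∈ Fintype.piFinset (fun _ : ι => S), ψ (x p) (x q) =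
      (S.card : ℝ) ^ Fintype.card ι * ∑ y ∈ S, ∑ y' ∈ S, ψ y y' := by
  have h1 := avg S (fun x => ψ (x p) (x q)) p
  simp only [Function.update_self, Function.update_of_ne hpq.symm] at h1
  rw [pow_two, mul_assoc, h1, Finset.sum_comm, Finset.mul_sum, Finset.mul_sum]
  exact Finset.sum_congr rfl fun t _ => marg1 S q (ψ t)

private theorem marg3 (S : Finset ℤ) {p q r : ι} (hpq : p ≠ q) (hpr : p ≠ r) (hqr : q ≠ r)
    (ψ : ℤ → ℤ → ℤ → ℝ) :
    (S.card : ℝ) ^ 3 * ∑ x ∈ Fintype.piFinset (fun _ : ι => S), ψ (x p) (x q) (x r) =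
      (S.card : ℝ) ^ Fintype.card ι * ∑ y ∈ S, ∑ y' ∈ S, ∑ z ∈ S, ψ y y' z := by
  have h1 := avg S (fun x => ψ (x p) (x q) (x r)) p
  simp only [Function.update_self, Function.update_of_ne hpq.symm,
    Function.update_of_ne hpr.symm] at h1
  rw [pow_succ, mul_assoc, h1, Finset.sum_comm, Finset.mul_sum, Finset.mul_sum]
  exact Finset.sum_congr rfl fun t _ => marg2 S hqr (ψ t)

private theorem card_ne (h : FacH S B nb nb' a K) : (S.card : ℝ) ≠ 0 := by
  have h1 := Finset.card_pos.2 h.ne
  exact_mod_cast h1.ne'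

private theorem finish (h : FacH S B nb nb' a K) {x y z : ℝ} {m n : ℕ}
    (h1 : (S.card : ℝ) ^ n * x = (S.card : ℝ) ^ m * y)
    (h2 : (S.card : ℝ) ^ m * y = (S.card : ℝ) ^ n * z) : x = z :=
  mul_left_cancel₀ (pow_ne_zero n (card_ne h)) (h1.trans h2)

theorem fub0 (h : FacH S B nb nb' a K) :
    ∑ x ∈ Fintype.piFinset (fun _ : ι => S), ∏ j, facA B nb nb' a K x j = 1 := by
  have h1 := core h ∅ (fun j hj => absurd hj (Finset.notMem_empty j)) (fun _ => 1)
    (fun _ _ _ _ => rfl)
  simp only [mul_one, Finset.prod_empty] at h1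
  exact finish h h1 (by rw [marg0, Finset.card_empty]; simp)

theorem fub1 (h : FacH S B nb nb' a K) {p : ι} (hp : p ∈ B) (φ : ℤ → ℝ) :
    ∑ x ∈ Fintype.piFinset (fun _ : ι => S), (∏ j, facA B nb nb' a K x j) * φ (x p) =
      ∑ y ∈ S, a p y * φ y := by
  have h1 := core h {p} (fun j hj hjB => absurd hp (by
      rw [Finset.mem_singleton] at hj
      rwa [hj] at hjB)) (fun x => φ (x p))
    (fun i hi x t => by
      rw [Finset.mem_singleton] at hi
      rw [Function.update_of_ne (Ne.symm hi)])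
  refine finish h h1 ?_
  rw [Finset.card_singleton, pow_one]
  have h2 : ∀ x ∈ Fintype.piFinset (fun _ : ι => S),
      (∏ j ∈ {p}, facA B nb nb' a K x j) * φ (x p) = a p (x p) * φ (x p) := fun x _ => by
    rw [Finset.prod_singleton, facA, if_pos hp]
  rw [Finset.sum_congr rfl h2]
  exact marg1 S p (fun y => a p y * φ y)

theorem fub2 (h : FacH S B nb nb' a K) {p q : ι} (hp : p ∈ B) (hq : q ∈ B) (hpq : p ≠ q)
    (φ : ℤ → ℤ → ℝ) :
    ∑ x ∈ Fintype.piFinset (fun _ : ι => S), (∏ j, facA B nb nb' a K x j) * φ (x p) (x q) =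
      ∑ y ∈ S, ∑ y' ∈ S, a p y * a q y' * φ y y' := by
  have h1 := core h {p, q} (fun j hj hjB => by
      exfalso
      rw [Finset.mem_insert, Finset.mem_singleton] at hj
      rcases hj with hj | hj
      · exact hjB (hj ▸ hp)
      · exact hjB (hj ▸ hq)) (fun x => φ (x p) (x q))
    (fun i hi x t => by
      rw [Finset.mem_insert, Finset.mem_singleton, not_or] at hi
      rw [Function.update_of_ne (Ne.symm hi.1), Function.update_of_ne (Ne.symm hi.2)])
  refine finish h h1 ?_
  rw [Finset.card_pair hpq]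
  have h2 : ∀ x ∈ Fintype.piFinset (fun _ : ι => S),
      (∏ j ∈ {p, q}, facA B nb nb' a K x j) * φ (x p) (x q) =
        a p (x p) * a q (x q) * φ (x p) (x q) := fun x _ => by
    rw [Finset.prod_pair hpq, facA, if_pos hp, facA, if_pos hq]
  rw [Finset.sum_congr rfl h2]
  exact marg2 S hpq (fun y y' => a p y * a q y' * φ y y')

theorem fub3 (h : FacH S B nb nb' a K) {j : ι} (hj : j ∉ B) (hne : nb j ≠ nb' j)
    (φ : ℤ → ℤ → ℤ → ℝ) :
    ∑ x ∈ Fintype.piFinset (fun _ : ι => S),
      (∏ j, facA B nb nb' a K x j) * φ (x (nb j)) (x (nb' j)) (x j) =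
      ∑ y ∈ S, ∑ y' ∈ S, ∑ z ∈ S, a (nb j) y * a (nb' j) y' * K j y y' z * φ y y' z := by
  have hb := h.nbB j hj
  have hb' := h.nbB' j hj
  have n1 : nb j ≠ j := fun h1 => hj (h1 ▸ hb)
  have n2 : nb' j ≠ j := fun h1 => hj (h1 ▸ hb')
  have h1 := core h {nb j, nb' j, j} (fun i hi hiB => by
      rw [Finset.mem_insert, Finset.mem_insert, Finset.mem_singleton] at hi
      rcases hi with hi | hi | hi
      · exact absurd hb (by rwa [hi] at hiB)
      · exact absurd hb' (by rwa [hi] at hiB)
      · subst hi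
        simp) (fun x => φ (x (nb j)) (x (nb' j)) (x j))
    (fun i hi x t => by
      rw [Finset.mem_insert, Finset.mem_insert, Finset.mem_singleton, not_or, not_or] at hi
      rw [Function.update_of_ne (Ne.symm hi.1), Function.update_of_ne (Ne.symm hi.2.1),
        Function.update_of_ne (Ne.symm hi.2.2)])
  refine finish h h1 ?_
  have hnot : nb j ∉ ({nb' j, j} : Finset ι) := by
    rw [Finset.mem_insert, Finset.mem_singleton, not_or]
    exact ⟨hne, n1⟩
  rw [Finset.card_insert_of_notMem hnot, Finset.card_pair n2]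
  have h2 : ∀ x ∈ Fintype.piFinset (fun _ : ι => S),
      (∏ i ∈ {nb j, nb' j, j}, facA B nb nb' a K x i) * φ (x (nb j)) (x (nb' j)) (x j) =
        a (nb j) (x (nb j)) * a (nb' j) (x (nb' j)) * K j (x (nb j)) (x (nb' j)) (x j) *
          φ (x (nb j)) (x (nb' j)) (x j) := fun x _ => by
    rw [Finset.prod_insert hnot, Finset.prod_pair n2, facA, if_pos hb, facA, if_pos hb', facA,
      if_neg hj]
    ring
  rw [Finset.sum_congr rfl h2]
  exact marg3 S hne n1 n2 (fun y y' z => a (nb j) y * a (nb' j) y' * K j y y' z * φ y y' z)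

end Pool.Agent.PGo
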