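import Pool.Agent.PGo.WVx

/-!
# PGo-WRot: sums of the averaged weights

PLAN. Unfold `WW`: for `r < g` and `good r`: `∑ x ∈ box, WW r x * F r x = (1/L) ∑ i, ∑ x ∈ box, Wt (vx r i) (x ∘ rot i) *
F (vx r i) (x ∘ rot i) = (1/L) ∑ i, G (vx r i)` with `G m = ∑ x ∈ box, Wt m x * F m x` (`hF`, `box_rot`).
With `H m = if good m then G m else 0` and `good_vx` the double sum is `(1/L) ∑ r, ∑ i, H (vx r i) =
(1/L) ∑ m < n, H m` (`sum_vx1`).
-/

noncomputable section

namespace Pool.Agent.PGo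

open Finset Pool.Agent.PGr

namespace Par

variable {P : Par}

private theorem sum_cyc (s : ℕ) (σ : ℕ → ℕ) {r : ℕ} (hr : r < P.g)
    (F : ℕ → (Fin P.L → ℤ) → ℝ)
    (hF : ∀ r (i : Fin P.L) x, F (P.vx r i) (fun j => x (rot i j)) = F r x) :
    ∑ x ∈ P.box, P.WW s σ r x * F r x =
      (1 / (P.L : ℝ)) * ∑ i : Fin P.L, (if P.good (P.vx r i) then
        ∑ x ∈ P.box, P.Wt s σ (P.vx r i) x * F (P.vx r i) x else 0) := by
  by_cases hgood : P.good r
  · have h1 : ∀ x ∈ P.box, P.WW s σ r x * F r x =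
        ∑ i : Fin P.L, (1 / (P.L : ℝ)) * (P.Wt s σ (P.vx r i) (fun j => x (rot i j)) *
          F (P.vx r i) (fun j => x (rot i j))) := by
      intro x hx
      unfold WW
      rw [if_pos ⟨hr, hgood, hx⟩, mul_assoc, Finset.sum_mul, Finset.mul_sum]
      refine Finset.sum_congr rfl fun i _ => ?_
      rw [hF]
    rw [Finset.sum_congr rfl h1, Finset.sum_comm, Finset.mul_sum]
    refine Finset.sum_congr rfl fun i _ => ?_
    rw [if_pos ((good_vx r i).2 hgood), ← Finset.mul_sum]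
    congr 1
    exact box_rot i (fun x => P.Wt s σ (P.vx r i) x * F (P.vx r i) x)
  · have h1 : ∀ x ∈ P.box, P.WW s σ r x * F r x = 0 := by
      intro x _
      unfold WW
      rw [if_neg (fun h => hgood h.2.1), zero_mul]
    rw [Finset.sum_eq_zero h1]
    have h2 : ∀ i ∈ (Finset.univ : Finset (Fin P.L)), (if P.good (P.vx r i) then
        ∑ x ∈ P.box, P.Wt s σ (P.vx r i) x * F (P.vx r i) x else 0) = 0 := by
      intro i _
      rw [if_neg (fun h => hgood ((good_vx r i).1 h))]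
    rw [Finset.sum_eq_zero h2, mul_zero]

theorem sum_WW (hA : Adm P.L P.p) (hg : 1 ≤ P.g) (s : ℕ) (σ : ℕ → ℕ)
    (F : ℕ → (Fin P.L → ℤ) → ℝ)
    (hF : ∀ r (i : Fin P.L) x, F (P.vx r i) (fun j => x (rot i j)) = F r x) :
    ∑ r ∈ range P.g, ∑ x ∈ P.box, P.WW s σ r x * F r x =
      (1 / (P.L : ℝ)) * ∑ m ∈ P.vg, ∑ x ∈ P.box, P.Wt s σ m x * F m x := by

  have h1 : ∀ r ∈ range P.g, ∑ x ∈ P.box, P.WW s σ r x * F r x =
      (1 / (P.L : ℝ)) * ∑ i : Fin P.L, (if P.good (P.vx r i) then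
        ∑ x ∈ P.box, P.Wt s σ (P.vx r i) x * F (P.vx r i) x else 0) := fun r hr =>
    sum_cyc s σ (Finset.mem_range.1 hr) F hF
  rw [Finset.sum_congr rfl h1, ← Finset.mul_sum,
    sum_vx1 hA hg (fun m => if P.good m then ∑ x ∈ P.box, P.Wt s σ m x * F m x else 0)]
  unfold vg
  rw [Finset.sum_filter]


/-- total weight of one cycle -/
theorem cyc_WW (hA : Adm P.L P.p) (s : ℕ) (σ : ℕ → ℕ) {r : ℕ} (hr : r < P.g) (hgood : P.good r)
    (h1 : ∀ m, P.good m → ∑ x ∈ P.box, P.Wt s σ m x = 1) :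
    ∑ x ∈ P.box, P.WW s σ r x = 1 := by

  have h := sum_cyc s σ hr (fun _ _ => (1 : ℝ)) (fun _ _ _ => rfl)
  simp only [mul_one] at h
  rw [h]
  have h2 : ∀ i ∈ (Finset.univ : Finset (Fin P.L)), (if P.good (P.vx r i) then
      ∑ x ∈ P.box, P.Wt s σ (P.vx r i) x else 0) = 1 := by
    intro i _
    rw [if_pos ((good_vx r i).2 hgood)]
    exact h1 _ ((good_vx r i).2 hgood)
  rw [Finset.sum_congr rfl h2, Finset.sum_const, Finset.card_univ, Fintype.card_fin,
    nsmul_eq_mul, mul_one]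
  have hL : (P.L : ℝ) ≠ 0 := by
    have := hA.three
    have h3 : (0 : ℝ) < P.L := by exact_mod_cast (by omega : 0 < P.L)
    exact h3.ne'
  field_simp


end Par

end Pool.Agent.PGo
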